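import Pool.Agent.Helper996.Lin.Defs

set_option autoImplicit false

open Polynomial LinS

namespace LinC

/-- continuous symmetric map from configurations to squarefree monic polynomials of degree `n` -/
structure GoodC (m n : ℕ) (F : (Fin (m + 1) → ℂ) → Fin n → ℂ) : Prop where
  holo : ContinuousOn F (Conf m)
  sqf : ∀ r ∈ Conf m, Squarefree (mpoly n (F r))
  symm : ∀ r ∈ Conf m, ∀ σ : Equiv.Perm (Fin (m + 1)), F (r ∘ σ) = F r

end LinC
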