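import Pool.Agent.Helper996.LinC.Base
import Pool.Agent.Helper996.Lin.Defs
import Pool.Agent.Helper996.Lin.Defs2
import Pool.Agent.Helper996.Lin.J_lab_basic
import Pool.Agent.Helper996.Lin.J_lab_lift
import Pool.Agent.Helper996.Lin.J_log_basic
import Pool.Agent.Helper996.Lin.J_charts

set_option autoImplicit false

open Polynomial Set LinS

namespace LinC

variable {m n : ℕ} {F : (Fin (m + 1) → ℂ) → Fin n → ℂ}

theorem cross_agree {K : Set (Fin (m + 1) → ℂ)} (hK : Convex ℝ K) {n : ℕ}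
    {φ : (Fin (m + 1) → ℂ) → Fin n → ℂ} (hs : ∀ v ∈ K, Squarefree (mpoly n (φ v)))
    {M M' : Fin n → (Fin (m + 1) → ℂ) → ℂ}
    (hM : ∀ a, ContinuousOn (M a) K) (hM' : ∀ a, ContinuousOn (M' a) K)
    (hL : ∀ v ∈ K, Lab (φ v) (fun a => M a v)) (hL' : ∀ v ∈ K, Lab (φ v) (fun a => M' a v))
    {v₀ : Fin (m + 1) → ℂ} (hv₀ : v₀ ∈ K) (h0 : ∀ a, M' a v₀ = M a v₀) :
    ∀ v ∈ K, ∀ a, M' a v = M a v := by
  obtain ⟨π, hπ⟩ := lab_uniq hK.isPreconnected hs hM hM' hL hL'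
  have hinj := lab_inj (hL v₀ hv₀) (hs v₀ hv₀)
  have h1 : ∀ a, π a = a := by
    intro a
    apply hinj
    change M (π a) v₀ = M a v₀
    rw [← hπ v₀ hv₀ a, h0 a]
  intro v hv a
  rw [hπ v hv a, h1 a]

theorem cross_agree_log {K : Set (Fin (m + 1) → ℂ)} (hK : Convex ℝ K)
    {L L' : (Fin (m + 1) → ℂ) → ℂ} (hL : ContinuousOn L K) (hL' : ContinuousOn L' K)
    (h : ∀ v ∈ K, Complex.exp (L v) = Complex.exp (L' v))
    {v₀ : Fin (m + 1) → ℂ} (hv₀ : v₀ ∈ K) (h0 : L' v₀ = L v₀) :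
    ∀ v ∈ K, L' v = L v := by
  obtain ⟨c, hc⟩ := log_uniq hK.isPreconnected hL hL' h
  have h1 := hc v₀ hv₀
  rw [h0] at h1
  have h2 : 2 * Real.pi * Complex.I * (c : ℂ) = 0 := by linear_combination -h1
  intro v hv
  rw [hc v hv, h2, add_zero]

theorem cross_lab_perm {n : ℕ} {z : Fin n → ℂ} {M : Fin n → ℂ} (g : Equiv.Perm (Fin n))
    (h : Lab z M) : Lab z (fun a => M (g a)) := by
  unfold Lab at *
  rw [h]
  exact (Equiv.prod_comp g (fun a => (X - C (M a) : ℂ[X]))).symm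

theorem cross_Gw {n : ℕ} {wt : Fin n → Fin n → ℤ} (g : Equiv.Perm (Fin n))
    (hg : ∀ a b, wt (g a) (g b) = wt a b) (Y : Fin n → ℂ) :
    Gw wt (fun a => Y (g a)) = Gw wt Y := by
  unfold Gw
  rw [← Equiv.prod_comp g (fun a => ∏ b, (Y a - Y b) ^ (wt a b))]
  refine Finset.prod_congr rfl fun a _ => ?_
  rw [← Equiv.prod_comp g (fun b => (Y (g a) - Y b) ^ (wt (g a) b))]
  refine Finset.prod_congr rfl fun b _ => ?_
  rw [hg]

theorem cross_exp (x : ℂ) (c : ℤ) :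
    Complex.exp (x + 2 * Real.pi * Complex.I * c) = Complex.exp x := by
  rw [Complex.exp_add]
  have : Complex.exp (2 * Real.pi * Complex.I * c) = 1 := by
    rw [Complex.exp_eq_one_iff]
    exact ⟨c, by ring⟩
  rw [this, mul_one]

theorem cross (hF : GoodC m n F) (D : Data m n F) (wt : Fin n → Fin n → ℤ)
    (hd : ∀ a, wt a a = 0) (ℓ : (Fin (m + 1) → ℂ) → ℂ) (hℓ : IsLog wt (Cham m) D.μ ℓ)
    {Ω : Set (Fin (m + 1) → ℂ)} {X : Fin n → (Fin (m + 1) → ℂ) → ℂ}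
    {ℓΩ : (Fin (m + 1) → ℂ) → ℂ} (hR : Reg F wt Ω X ℓΩ) (i : Fin m) (k : ℤ)
    (hi : ∀ a b, wt (D.lam i a) (D.lam i b) = wt a b) (hw : Wall D wt ℓ i k)
    (π : Equiv.Perm (Fin (m + 1))) (c : ℤ) (hs : Stt D wt ℓ Ω X ℓΩ π c)
    (h1 : ∃ r ∈ Ω, r ∘ π ∈ KP m i ∧ r ∘ π ∈ Cham m)
    (h2 : ∃ r ∈ Ω, r ∘ π ∈ KP m i ∧ (r ∘ π) ∘ sw i ∈ Cham m) :
    Stt D wt ℓ Ω X ℓΩ (π * sw i) (c + k) := by
  obtain ⟨g, hg, hst⟩ := hs
  obtain ⟨ℓi, hℓi, hwC, hwS⟩ := hw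
  obtain ⟨r1, hr1Ω, hr1K, hr1C⟩ := h1
  obtain ⟨r2, hr2Ω, hr2K, hr2C⟩ := h2
  have hcomp : ∀ r : Fin (m + 1) → ℂ, r ∘ (π * sw i : Equiv.Perm (Fin (m + 1))) = (r ∘ π) ∘ sw i :=
    fun r => rfl
  have hcont : ∀ σ : Equiv.Perm (Fin (m + 1)), Continuous (fun r : Fin (m + 1) → ℂ => r ∘ σ) :=
    fun σ => continuous_pi fun j => continuous_apply (σ j)
  have hconv : ∀ (σ : Equiv.Perm (Fin (m + 1))) {S : Set (Fin (m + 1) → ℂ)}, Convex ℝ S →
      Convex ℝ {r : Fin (m + 1) → ℂ | r ∘ σ ∈ S} := fun σ S hS =>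
    hS.linear_preimage (LinearMap.funLeft ℝ ℂ σ)
  -- region A
  set A : Set (Fin (m + 1) → ℂ) := Ω ∩ {r | r ∘ π ∈ KP m i} with hA
  have hAc : Convex ℝ A := hR.conv.inter (hconv π (KP_convex m i))
  have hAΩ : A ⊆ Ω := inter_subset_left
  have hX_A : ∀ r ∈ A, ∀ a, X a r = D.T i (g a) (r ∘ π) := by
    refine cross_agree (φ := F) (M := fun a r => D.T i (g a) (r ∘ π)) (M' := X) hAc
      (fun v hv => hF.sqf v (hR.conf v hv.1)) ?_ (fun a => (hR.cont a).mono hAΩ) ?_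
      (fun v hv => hR.lab v hv.1) (v₀ := r1) ⟨hr1Ω, hr1K⟩ ?_
    · intro a
      exact (D.T_cont i (g a)).comp (hcont π).continuousOn (fun r hr => hr.2)
    · intro v hv
      have h3 := D.T_lab i (v ∘ π) hv.2
      have h5 := hF.symm v (hR.conf v hv.1) π
      have h4 := cross_lab_perm g h3
      rw [h5] at h4
      exact h4
    · intro a
      change X a r1 = D.T i (g a) (r1 ∘ π)
      rw [(hst r1 hr1Ω hr1C).1 a, D.T_eq i (r1 ∘ π) hr1K hr1C (g a)]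
  have hlog_A : ∀ r ∈ A, ℓΩ r = ℓi (r ∘ π) + 2 * Real.pi * Complex.I * c := by
    refine cross_agree_log (L := fun r => ℓi (r ∘ π) + 2 * Real.pi * Complex.I * c) (L' := ℓΩ)
      hAc ?_ (hR.log.1.mono hAΩ) ?_ (v₀ := r1) ⟨hr1Ω, hr1K⟩ ?_
    · exact (hℓi.1.comp (hcont π).continuousOn (fun r hr => hr.2)).add continuousOn_const
    · intro v hv
      change Complex.exp (ℓi (v ∘ π) + 2 * Real.pi * Complex.I * c) = _
      rw [cross_exp, hℓi.2 _ hv.2, hR.log.2 v hv.1]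
      have : (fun a => X a v) = fun a => (fun a => D.T i a (v ∘ π)) (g a) := by
        funext a; exact hX_A v hv a
      rw [this]
      exact (cross_Gw g hg (fun a => D.T i a (v ∘ π))).symm
    · change ℓΩ r1 = ℓi (r1 ∘ π) + 2 * Real.pi * Complex.I * c
      rw [(hst r1 hr1Ω hr1C).2, hwC _ hr1K hr1C]
  -- region B
  set B : Set (Fin (m + 1) → ℂ) := Ω ∩ {r | r ∘ (π * sw i : Equiv.Perm (Fin (m + 1))) ∈ Cham m}
    with hB
  have hBc : Convex ℝ B := hR.conv.inter (hconv (π * sw i) (Cham_convex m))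
  have hBΩ : B ⊆ Ω := inter_subset_left
  have hg' : ∀ a b, wt ((D.lam i * g) a) ((D.lam i * g) b) = wt a b := by
    intro a b
    change wt (D.lam i (g a)) (D.lam i (g b)) = wt a b
    rw [hi, hg]
  have hX_B : ∀ r ∈ B, ∀ a, X a r =
      D.μ ((D.lam i * g) a) (r ∘ (π * sw i : Equiv.Perm (Fin (m + 1)))) := by
    refine cross_agree (φ := F)
      (M := fun a r => D.μ ((D.lam i * g) a) (r ∘ (π * sw i : Equiv.Perm (Fin (m + 1)))))
      (M' := X) hBc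
      (fun v hv => hF.sqf v (hR.conf v hv.1)) ?_ (fun a => (hR.cont a).mono hBΩ) ?_
      (fun v hv => hR.lab v hv.1) (v₀ := r2) ⟨hr2Ω, hr2C⟩ ?_
    · intro a
      exact (D.μ_cont ((D.lam i * g) a)).comp (hcont (π * sw i)).continuousOn (fun r hr => hr.2)
    · intro v hv
      have h3 := D.μ_lab (v ∘ (π * sw i : Equiv.Perm (Fin (m + 1)))) hv.2
      have h5 := hF.symm v (hR.conf v hv.1) (π * sw i)
      have h4 := cross_lab_perm (D.lam i * g) h3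
      rw [h5] at h4
      exact h4
    · intro a
      change X a r2 = D.μ (D.lam i (g a)) ((r2 ∘ π) ∘ sw i)
      rw [hX_A r2 ⟨hr2Ω, hr2K⟩ a, D.T_sw i (r2 ∘ π) hr2K hr2C (g a)]
  have hlog_B : ∀ r ∈ B, ℓΩ r = ℓ (r ∘ (π * sw i : Equiv.Perm (Fin (m + 1)))) +
      2 * Real.pi * Complex.I * ((c + k : ℤ) : ℂ) := by
    refine cross_agree_log (L := fun r => ℓ (r ∘ (π * sw i : Equiv.Perm (Fin (m + 1)))) +
      2 * Real.pi * Complex.I * ((c + k : ℤ) : ℂ)) (L' := ℓΩ)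
      hBc ?_ (hR.log.1.mono hBΩ) ?_ (v₀ := r2) ⟨hr2Ω, hr2C⟩ ?_
    · exact (hℓ.1.comp (hcont (π * sw i)).continuousOn (fun r hr => hr.2)).add continuousOn_const
    · intro v hv
      change Complex.exp (ℓ (v ∘ (π * sw i : Equiv.Perm (Fin (m + 1)))) +
        2 * Real.pi * Complex.I * ((c + k : ℤ) : ℂ)) = _
      rw [cross_exp, hℓ.2 _ hv.2, hR.log.2 v hv.1]
      have : (fun a => X a v) = fun a => (fun a => D.μ a
          (v ∘ (π * sw i : Equiv.Perm (Fin (m + 1))))) ((D.lam i * g) a) := by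
        funext a; exact hX_B v hv a
      rw [this]
      exact (cross_Gw (D.lam i * g) hg' (fun a => D.μ a
        (v ∘ (π * sw i : Equiv.Perm (Fin (m + 1)))))).symm
    · change ℓΩ r2 = ℓ ((r2 ∘ π) ∘ sw i) + 2 * Real.pi * Complex.I * ((c + k : ℤ) : ℂ)
      rw [hlog_A r2 ⟨hr2Ω, hr2K⟩, hwS _ hr2K hr2C]
      push_cast
      ring
  exact ⟨D.lam i * g, hg', fun r hr hc => ⟨hX_B r ⟨hr, hc⟩, hlog_B r ⟨hr, hc⟩⟩⟩

end LinC
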