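import Pool.Agent.Helper996.LinC.Base
import Pool.Agent.Helper996.Lin.Defs
import Pool.Agent.Helper996.Lin.Defs2
import Pool.Agent.Helper996.Lin.J_lab_basic
import Pool.Agent.Helper996.Lin.J_lab_lift
import Pool.Agent.Helper996.Lin.J_log_basic
import Pool.Agent.Helper996.Lin.J_charts

set_option autoImplicit false

open Polynomial Set LinS

namespace LinC

variable {m n : ℕ} {F : (Fin (m + 1) → ℂ) → Fin n → ℂ}

theorem log_exists (hF : GoodC m n F) (D : Data m n F) (wt : Fin n → Fin n → ℤ)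
    (hd : ∀ a, wt a a = 0) (K : Set (Fin (m + 1) → ℂ)) (hK : Convex ℝ K)
    (hKc : ∀ r ∈ K, r ∈ Conf m) (X : Fin n → (Fin (m + 1) → ℂ) → ℂ)
    (hX : ∀ a, ContinuousOn (X a) K) (hL : ∀ r ∈ K, Lab (F r) (fun a => X a r)) :
    ∃ ℓ, IsLog wt K X ℓ := by
  have hne : ∀ r ∈ K, ∀ a b, a ≠ b → X a r - X b r ≠ 0 := by
    intro r hr a b hab h
    exact hab (lab_inj (hL r hr) (hF.sqf r (hKc r hr)) (sub_eq_zero.1 h))
  have hcont : ContinuousOn (fun r => Gw wt (fun a => X a r)) K := by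
    unfold Gw
    refine continuousOn_finset_prod _ fun a _ => continuousOn_finset_prod _ fun b _ => ?_
    refine ((hX a).sub (hX b)).zpow₀ (wt a b) fun r hr => ?_
    by_cases hab : a = b
    · right; rw [hab, hd]
    · left; exact hne r hr a b hab
  have h0 : ∀ r ∈ K, Gw wt (fun a => X a r) ≠ 0 := by
    intro r hr
    unfold Gw
    refine Finset.prod_ne_zero_iff.2 fun a _ => Finset.prod_ne_zero_iff.2 fun b _ => ?_
    by_cases hab : a = b
    · rw [hab, hd, zpow_zero]; exact one_ne_zero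
    · exact zpow_ne_zero _ (hne r hr a b hab)
  obtain ⟨L, hL1, hL2⟩ := log_lift hK hcont h0
  exact ⟨L, hL1, hL2⟩

theorem log_exists_exp (z : ℂ) (c : ℤ) :
    Complex.exp (z + 2 * Real.pi * Complex.I * c) = Complex.exp z := by
  rw [Complex.exp_eq_exp_iff_exists_int]
  exact ⟨c, by ring⟩

theorem wall_exists (hF : GoodC m n F) (D : Data m n F) (wt : Fin n → Fin n → ℤ)
    (hd : ∀ a, wt a a = 0) (i : Fin m) (hi : ∀ a b, wt (D.lam i a) (D.lam i b) = wt a b)
    (ℓ : (Fin (m + 1) → ℂ) → ℂ) (hℓ : IsLog wt (Cham m) D.μ ℓ) : ∃ k, Wall D wt ℓ i k := by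
  obtain ⟨ℓ0, h1, h2⟩ := log_exists hF D wt hd (KP m i) (KP_convex m i)
    (fun r hr => KP_conf hr) (D.T i) (D.T_cont i) (D.T_lab i)
  have hA : IsPreconnected (KP m i ∩ Cham m) :=
    ((KP_convex m i).inter (Cham_convex m)).isPreconnected
  obtain ⟨c, hc⟩ := log_uniq hA (h1.mono inter_subset_left) (hℓ.1.mono inter_subset_right)
    (fun r hr => by
      rw [h2 r hr.1, hℓ.2 r hr.2]
      congr 1
      funext a
      exact D.T_eq i r hr.1 hr.2 a)
  have hlin : Convex ℝ {r : Fin (m + 1) → ℂ | r ∘ sw i ∈ Cham m} := by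
    have h3 := (Cham_convex m).linear_preimage (LinearMap.funLeft ℝ ℂ (sw i))
    exact h3
  have hB : IsPreconnected (KP m i ∩ {r | r ∘ sw i ∈ Cham m}) :=
    ((KP_convex m i).inter hlin).isPreconnected
  have hcomp : Continuous (fun r : Fin (m + 1) → ℂ => r ∘ sw i) :=
    continuous_pi fun j => continuous_apply _
  have h4 : ContinuousOn (fun r => ℓ (r ∘ sw i)) (KP m i ∩ {r | r ∘ sw i ∈ Cham m}) :=
    hℓ.1.comp hcomp.continuousOn fun r hr => hr.2
  have h5 : ContinuousOn (fun r => ℓ0 r + 2 * Real.pi * Complex.I * c) (KP m i) :=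
    h1.add continuousOn_const
  obtain ⟨k, hk⟩ := log_uniq hB h4 (h5.mono inter_subset_left) (fun r hr => by
    have h6 : r ∘ sw i ∈ Cham m := hr.2
    rw [log_exists_exp, h2 r hr.1, hℓ.2 _ h6]
    have h7 : (fun a => D.T i a r) = fun a => D.μ (D.lam i a) (r ∘ sw i) := by
      funext a
      exact D.T_sw i r hr.1 h6 a
    rw [h7]
    unfold Gw
    rw [← Equiv.prod_comp (D.lam i) (fun a => ∏ b, (D.μ a (r ∘ sw i) - D.μ b (r ∘ sw i)) ^ (wt a b))]
    refine Finset.prod_congr rfl fun a _ => ?_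
    rw [← Equiv.prod_comp (D.lam i) (fun b => (D.μ (D.lam i a) (r ∘ sw i) - D.μ b (r ∘ sw i)) ^
      (wt (D.lam i a) b))]
    refine Finset.prod_congr rfl fun b _ => ?_
    rw [hi])
  refine ⟨k, fun r => ℓ0 r + 2 * Real.pi * Complex.I * c, ⟨h5, fun r hr => ?_⟩, ?_, ?_⟩
  · rw [log_exists_exp]; exact h2 r hr
  · intro r hr hr'
    exact (hc r ⟨hr, hr'⟩).symm
  · intro r hr hr'
    exact hk r ⟨hr, hr'⟩

end LinC
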