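import Pool.Agent.Helper996.LinC.Base
import Pool.Agent.Helper996.Lin.Defs
import Pool.Agent.Helper996.Lin.Defs2
import Pool.Agent.Helper996.Lin.J_lab_basic
import Pool.Agent.Helper996.Lin.J_lab_lift
import Pool.Agent.Helper996.Lin.J_log_basic
import Pool.Agent.Helper996.Lin.J_charts
import Pool.Agent.Helper996.LinC.C_log_wall
import Pool.Agent.Helper996.LinC.C_cross

set_option autoImplicit false

open Polynomial Set LinS

namespace LinC

variable {m n : ℕ} {F : (Fin (m + 1) → ℂ) → Fin n → ℂ}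

theorem Om_reg_aux (a b x x' y y' : ℝ) (ha : 0 ≤ a) (hb : 0 ≤ b) (hab : a + b = 1) (h1 : x < x')
    (h2 : y < y') : a * x + b * y < a * x' + b * y' := by
  rcases ha.eq_or_lt with h | h
  · have hb1 : b = 1 := by linarith
    rw [← h, hb1]; linarith
  · have e1 := mul_lt_mul_of_pos_left h1 h
    have e2 := mul_le_mul_of_nonneg_left h2.le hb
    linarith

theorem Om_reg_convex (m : ℕ) (j : Fin m) : Convex ℝ (Om m j) := by
  intro r hr s hs a b ha hb hab p q hpq
  obtain ⟨hr1, hr2⟩ := hr p q hpq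
  obtain ⟨hs1, hs2⟩ := hs p q hpq
  constructor
  · intro h
    have := Om_reg_aux a b _ _ _ _ ha hb hab (hr1 h) (hs1 h)
    simpa using this
  · intro h
    have := Om_reg_aux a b _ _ _ _ ha hb hab (hr2 h) (hs2 h)
    simpa using this

theorem Om_reg_conf {m : ℕ} {j : Fin m} {r : Fin (m + 1) → ℂ} (h : r ∈ Om m j) : r ∈ Conf m := by
  have key : ∀ p q : Fin (m + 1), p < q → r p ≠ r q := by
    intro p q hpq he
    obtain ⟨h1, h2⟩ := h p q hpq
    rcases le_or_gt (q : ℕ) (j + 1) with hq | hq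
    · have := h1 hq
      rw [he] at this
      exact lt_irrefl _ this
    · have := h2 hq
      rw [he] at this
      exact lt_irrefl _ this
  intro p q he
  rcases lt_trichotomy p q with h1 | h1 | h1
  · exact absurd he (key p q h1)
  · exact h1
  · exact absurd he.symm (key q p h1)

theorem Om_reg (hF : GoodC m n F) (D : Data m n F) (wt : Fin n → Fin n → ℤ)
    (hd : ∀ a, wt a a = 0) (ℓ : (Fin (m + 1) → ℂ) → ℂ) (hℓ : IsLog wt (Cham m) D.μ ℓ)
    (j : Fin m) : ∃ (X : Fin n → (Fin (m + 1) → ℂ) → ℂ) (ℓΩ : (Fin (m + 1) → ℂ) → ℂ),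
      Reg F wt (Om m j) X ℓΩ ∧ (∀ r ∈ Om m j, r ∈ Cham m → (∀ a, X a r = D.μ a r) ∧ ℓΩ r = ℓ r) := by
  have hconv := Om_reg_convex m j
  have hconf : ∀ r ∈ Om m j, r ∈ Conf m := fun r hr => Om_reg_conf hr
  have hFc : ContinuousOn F (Om m j) := hF.holo.mono hconf
  obtain ⟨M0, hM0c, hM0L⟩ := lab_lift hconv hFc (fun r hr => hF.sqf r (hconf r hr))
  have hK : IsPreconnected (Om m j ∩ Cham m) := (hconv.inter (Cham_convex m)).isPreconnected
  obtain ⟨π, hπ⟩ := lab_uniq (K := Om m j ∩ Cham m) hK (φ := F) (fun v hv => hF.sqf v (hconf v hv.1))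
    (M := M0) (M' := D.μ) (fun a => (hM0c a).mono Set.inter_subset_left)
    (fun a => (D.μ_cont a).mono Set.inter_subset_right) (fun v hv => hM0L v hv.1)
    (fun v hv => D.μ_lab v hv.2)
  have hXc : ∀ a, ContinuousOn (M0 (π a)) (Om m j) := fun a => hM0c (π a)
  have hXL : ∀ r ∈ Om m j, Lab (F r) (fun a => M0 (π a) r) := by
    intro r hr
    have := hM0L r hr
    unfold Lab at this ⊢
    rw [this]
    exact (Equiv.prod_comp π (fun a => (X - C (M0 a r)))).symm
  obtain ⟨ℓ0, hℓ0c, hℓ0⟩ := log_exists hF D wt hd (Om m j) hconv hconf (fun a => M0 (π a)) hXc hXL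
  have hXμ : ∀ r ∈ Om m j, r ∈ Cham m → ∀ a, M0 (π a) r = D.μ a r := fun r h1 h2 a =>
    (hπ r ⟨h1, h2⟩ a).symm
  obtain ⟨c, hc⟩ := log_uniq (K := Om m j ∩ Cham m) hK (L := ℓ0) (L' := ℓ)
    (hℓ0c.mono Set.inter_subset_left) (hℓ.1.mono Set.inter_subset_right) (by
      intro v hv
      rw [hℓ0 v hv.1, hℓ.2 v hv.2]
      congr 1
      funext a
      exact hXμ v hv.1 hv.2 a)
  refine ⟨fun a => M0 (π a), fun r => ℓ0 r + 2 * Real.pi * Complex.I * c, ?_, ?_⟩
  · refine ⟨hconv, hconf, hXc, hXL, ?_, ?_⟩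
    · exact hℓ0c.add continuousOn_const
    · intro r hr
      rw [Complex.exp_add, hℓ0 r hr]
      have : Complex.exp (2 * Real.pi * Complex.I * c) = 1 := by
        rw [mul_comm]
        exact Complex.exp_int_mul_two_pi_mul_I c
      rw [this, mul_one]
  · intro r h1 h2
    exact ⟨hXμ r h1 h2, (hc r ⟨h1, h2⟩).symm⟩

theorem cross_Om_inv1 {m : ℕ} (σ : Equiv.Perm (Fin (m + 1))) (p : Fin (m + 1)) : σ⁻¹ (σ p) = p := by
  simp

theorem cross_Om_inv2 {m : ℕ} (σ : Equiv.Perm (Fin (m + 1))) (p : Fin (m + 1)) : σ (σ⁻¹ p) = p := by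
  simp

/-- witness -/
noncomputable def cross_Om_w {m : ℕ} (σ : Equiv.Perm (Fin (m + 1))) (l : Fin (m + 1)) : ℂ :=
  (((σ⁻¹ l : Fin (m + 1)) : ℕ) : ℂ) + ((l : ℕ) : ℂ) * Complex.I

theorem cross_Om_re {m : ℕ} (σ : Equiv.Perm (Fin (m + 1))) (l : Fin (m + 1)) :
    (cross_Om_w σ l).re = ((σ⁻¹ l : Fin (m + 1)) : ℕ) := by
  simp [cross_Om_w]

theorem cross_Om_im {m : ℕ} (σ : Equiv.Perm (Fin (m + 1))) (l : Fin (m + 1)) :
    (cross_Om_w σ l).im = (l : ℕ) := by
  simp [cross_Om_w]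

theorem cross_Om_mem {m : ℕ} (j : Fin m) (σ : Equiv.Perm (Fin (m + 1)))
    (hfix : ∀ p : Fin (m + 1), (j : ℕ) + 1 < p → σ p = p) : cross_Om_w σ ∈ Om m j := by
  intro p q hpq
  constructor
  · intro _
    rw [cross_Om_im, cross_Om_im]
    exact_mod_cast hpq
  · intro hq
    rw [cross_Om_re, cross_Om_re]
    have h1 : σ⁻¹ q = q := by
      rw [Equiv.Perm.inv_eq_iff_eq]; exact (hfix q hq).symm
    rw [h1]
    have h2 : ((σ⁻¹ p : Fin (m + 1)) : ℕ) < (q : ℕ) := by
      rcases le_or_gt ((σ⁻¹ p : Fin (m + 1)) : ℕ) (j + 1) with h | h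
      · omega
      · have h3 := hfix _ h
        rw [cross_Om_inv2] at h3
        rw [← h3]
        exact hpq
    exact_mod_cast h2

theorem cross_Om (hF : GoodC m n F) (D : Data m n F) (wt : Fin n → Fin n → ℤ)
    (hd : ∀ a, wt a a = 0) (ℓ : (Fin (m + 1) → ℂ) → ℂ) (hℓ : IsLog wt (Cham m) D.μ ℓ)
    (j : Fin m) {X : Fin n → (Fin (m + 1) → ℂ) → ℂ}
    {ℓΩ : (Fin (m + 1) → ℂ) → ℂ} (hR : Reg F wt (Om m j) X ℓΩ) (i : Fin m) (hij : i ≤ j) (k : ℤ)
    (hi : ∀ a b, wt (D.lam i a) (D.lam i b) = wt a b) (hw : Wall D wt ℓ i k)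
    (π : Equiv.Perm (Fin (m + 1))) (hfix : ∀ p : Fin (m + 1), (j : ℕ) + 1 < p → π p = p)
    (hasc : π i.castSucc < π i.succ) (c : ℤ) (hs : Stt D wt ℓ (Om m j) X ℓΩ π c) :
    Stt D wt ℓ (Om m j) X ℓΩ (π * sw i) (c + k) := by
  have hij' : (i : ℕ) ≤ j := hij
  have hsw : ∀ p : Fin (m + 1), (sw i p : Fin (m + 1)) =
      if p = i.castSucc then i.succ else if p = i.succ then i.castSucc else p := by
    intro p
    unfold sw
    rw [Equiv.swap_apply_def]
  have hc1 : (i.castSucc : ℕ) = i := rfl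
  have hc2 : (i.succ : ℕ) = i + 1 := rfl
  apply cross hF D wt hd ℓ hℓ hR i k hi hw π c hs
  · refine ⟨cross_Om_w π, cross_Om_mem j π hfix, ?_, ?_⟩
    · refine ⟨?_, ?_⟩
      · rw [Function.comp_apply, Function.comp_apply, cross_Om_im, cross_Om_im]
        exact_mod_cast hasc
      · intro p q hpq _
        rw [Function.comp_apply, Function.comp_apply, cross_Om_re, cross_Om_re,
          cross_Om_inv1, cross_Om_inv1]
        exact_mod_cast hpq
    · intro p q hpq
      rw [Function.comp_apply, Function.comp_apply, cross_Om_re, cross_Om_re,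
        cross_Om_inv1, cross_Om_inv1]
      exact_mod_cast hpq
  · have hinv : ∀ p, (π * sw i)⁻¹ (π p) = sw i p := by
      intro p
      rw [mul_inv_rev, Equiv.Perm.mul_apply, cross_Om_inv1]
      unfold sw
      rw [Equiv.swap_inv]
    refine ⟨cross_Om_w (π * sw i), cross_Om_mem j _ ?_, ?_, ?_⟩
    · intro p hp
      rw [Equiv.Perm.mul_apply, hsw, if_neg, if_neg]
      · exact hfix p hp
      · intro h; rw [h, hc2] at hp; omega
      · intro h; rw [h, hc1] at hp; omega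
    · refine ⟨?_, ?_⟩
      · rw [Function.comp_apply, Function.comp_apply, cross_Om_im, cross_Om_im]
        exact_mod_cast hasc
      · intro p q hpq hne
        rw [Function.comp_apply, Function.comp_apply, cross_Om_re, cross_Om_re, hinv, hinv, hsw, hsw]
        have hpq' : (p : ℕ) < q := hpq
        have e1 : p = i.castSucc ↔ (p : ℕ) = i := by rw [Fin.ext_iff, hc1]
        have e2 : p = i.succ ↔ (p : ℕ) = i + 1 := by rw [Fin.ext_iff, hc2]
        have e3 : q = i.castSucc ↔ (q : ℕ) = i := by rw [Fin.ext_iff, hc1]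
        have e4 : q = i.succ ↔ (q : ℕ) = i + 1 := by rw [Fin.ext_iff, hc2]
        rw [e1, e4] at hne
        refine Nat.cast_lt.2 ?_
        simp only [e1, e2, e3, e4]
        split_ifs <;> (try rw [hc1]) <;> (try rw [hc2]) <;> omega
    · intro p q hpq
      rw [Function.comp_apply, Function.comp_apply, Function.comp_apply, Function.comp_apply,
        cross_Om_re, cross_Om_re, hinv, hinv]
      unfold sw
      rw [Equiv.swap_apply_self, Equiv.swap_apply_self]
      exact_mod_cast hpq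

end LinC
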