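import Pool.Agent.Helper996.LinC.Base
import Pool.Agent.Helper996.Lin.Defs
import Pool.Agent.Helper996.Lin.Defs2
import Pool.Agent.Helper996.Lin.J_lab_basic
import Pool.Agent.Helper996.Lin.J_lab_lift
import Pool.Agent.Helper996.Lin.J_log_basic
import Pool.Agent.Helper996.Lin.J_charts
import Pool.Agent.Helper996.Lin.J_invs
import Pool.Agent.Helper996.LinC.C_cross_Om

set_option autoImplicit false

open Polynomial Set LinS

namespace LinC

variable {m n : ℕ} {F : (Fin (m + 1) → ℂ) → Fin n → ℂ}

theorem all_states (hF : GoodC m n F) (D : Data m n F) (wt : Fin n → Fin n → ℤ)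
    (hd : ∀ a, wt a a = 0) (ℓ : (Fin (m + 1) → ℂ) → ℂ) (hℓ : IsLog wt (Cham m) D.μ ℓ)
    (j : Fin m) (hinv : ∀ i ≤ j, ∀ a b, wt (D.lam i a) (D.lam i b) = wt a b) (k : ℤ)
    (hw : ∀ i ≤ j, Wall D wt ℓ i k) {X : Fin n → (Fin (m + 1) → ℂ) → ℂ}
    {ℓΩ : (Fin (m + 1) → ℂ) → ℂ} (hR : Reg F wt (Om m j) X ℓΩ)
    (h1 : ∀ r ∈ Om m j, r ∈ Cham m → (∀ a, X a r = D.μ a r) ∧ ℓΩ r = ℓ r)
    (π : Equiv.Perm (Fin (m + 1))) (hfix : ∀ p : Fin (m + 1), (j : ℕ) + 1 < p → π p = p) :
    Stt D wt ℓ (Om m j) X ℓΩ π (k * invs π) := by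
  obtain ⟨N, hN⟩ : ∃ N, N = invs π := ⟨_, rfl⟩
  induction N using Nat.strong_induction_on generalizing π with
  | _ N ih =>
    by_cases hπ : π = 1
    · subst hπ
      have h0 : invs (1 : Equiv.Perm (Fin (m + 1))) = 0 := by
        unfold invs
        rw [Finset.card_eq_zero, Finset.filter_eq_empty_iff]
        rintro ⟨a, b⟩ _ ⟨h2, h3⟩
        exact absurd h3 (not_lt.2 (le_of_lt h2))
      rw [h0]
      refine ⟨1, fun a b => rfl, fun r hr hc => ?_⟩
      have hr1 : r ∘ (1 : Equiv.Perm (Fin (m + 1))) = r := rfl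
      rw [hr1] at hc ⊢
      obtain ⟨h2, h3⟩ := h1 r hr hc
      refine ⟨h2, ?_⟩
      rw [h3]
      simp
    · obtain ⟨i, hij, hlt⟩ := invs_descent π j hfix hπ
      have hstep := invs_step π i hlt
      have hij' : (i : ℕ) ≤ (j : ℕ) := hij
      have hfix' : ∀ p : Fin (m + 1), (j : ℕ) + 1 < p → (π * sw i) p = p := by
        intro p hp
        have h2 : sw i p = p := by
          unfold sw
          apply Equiv.swap_apply_of_ne_of_ne
          · intro h
            rw [h, Fin.val_castSucc] at hp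
            omega
          · intro h
            rw [h, Fin.val_succ] at hp
            omega
        rw [Equiv.Perm.mul_apply, h2]
        exact hfix p hp
      have hasc : (π * sw i) i.castSucc < (π * sw i) i.succ := by
        rw [Equiv.Perm.mul_apply, Equiv.Perm.mul_apply]
        unfold sw
        rw [Equiv.swap_apply_left, Equiv.swap_apply_right]
        exact hlt
      have hs := ih (invs (π * sw i)) (by omega) (π * sw i) hfix' rfl
      have hcr := cross_Om hF D wt hd ℓ hℓ j hR i hij k (hinv i hij) (hw i hij) (π * sw i)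
        hfix' hasc _ hs
      have h3 : π * sw i * sw i = π := by
        unfold sw
        rw [mul_assoc, Equiv.swap_mul_self, mul_one]
      have h4 : k * (invs (π * sw i) : ℤ) + k = k * (invs π : ℤ) := by
        rw [← hstep]
        push_cast
        ring
      rw [h3, h4] at hcr
      exact hcr

end LinC
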