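import Pool.Agent.Helper996.LinC.Base
import Pool.Agent.Helper996.Lin.Defs
import Pool.Agent.Helper996.Lin.Defs2
import Pool.Agent.Helper996.Lin.J_lab_basic
import Pool.Agent.Helper996.Lin.J_lab_lift
import Pool.Agent.Helper996.Lin.J_log_basic
import Pool.Agent.Helper996.Lin.J_charts
import Pool.Agent.Helper996.LinC.C_cross_Om

set_option autoImplicit false

open Polynomial Set LinS

namespace LinC

variable {m n : ℕ} {F : (Fin (m + 1) → ℂ) → Fin n → ℂ}

theorem braid_sw1 {α : Type*} [DecidableEq α] {a b c : α} (hab : a ≠ b) (hbc : b ≠ c)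
    (hac : a ≠ c) : (1 * Equiv.swap a b) * Equiv.swap b c * Equiv.swap a b = Equiv.swap a c := by
  ext p
  simp only [Equiv.Perm.coe_mul, Function.comp_apply, Equiv.swap_apply_def, Equiv.Perm.coe_one,
    id]
  split_ifs <;> simp_all

theorem braid_sw2 {α : Type*} [DecidableEq α] {a b c : α} (hab : a ≠ b) (hbc : b ≠ c)
    (hac : a ≠ c) : (1 * Equiv.swap b c) * Equiv.swap a b * Equiv.swap b c = Equiv.swap a c := by
  ext p
  simp only [Equiv.Perm.coe_mul, Function.comp_apply, Equiv.swap_apply_def, Equiv.Perm.coe_one,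
    id]
  split_ifs <;> simp_all

theorem braid (hF : GoodC m n F) (D : Data m n F) (wt : Fin n → Fin n → ℤ)
    (hd : ∀ a, wt a a = 0) (ℓ : (Fin (m + 1) → ℂ) → ℂ) (hℓ : IsLog wt (Cham m) D.μ ℓ)
    (i i' : Fin m) (hii : (i' : ℕ) = i + 1) (k k' : ℤ)
    (hi : ∀ a b, wt (D.lam i a) (D.lam i b) = wt a b)
    (hi' : ∀ a b, wt (D.lam i' a) (D.lam i' b) = wt a b)
    (hw : Wall D wt ℓ i k) (hw' : Wall D wt ℓ i' k') : k = k' := by
  obtain ⟨X, ℓΩ, hR, hX⟩ := Om_reg hF D wt hd ℓ hℓ i'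
  have hbb : i.succ = i'.castSucc := by
    apply Fin.ext
    simp only [Fin.val_succ, Fin.val_castSucc]
    omega
  obtain ⟨a, ha⟩ : ∃ a, a = i.castSucc := ⟨_, rfl⟩
  obtain ⟨b, hb⟩ : ∃ b, b = i.succ := ⟨_, rfl⟩
  obtain ⟨c, hc⟩ : ∃ c, c = i'.succ := ⟨_, rfl⟩
  have hb' : b = i'.castSucc := hb.trans hbb
  have va : (a : ℕ) = i := by rw [ha]; rfl
  have vb : (b : ℕ) = i + 1 := by rw [hb]; rfl
  have vc : (c : ℕ) = i + 2 := by rw [hc, Fin.val_succ]; omega
  have lab : a < b := by rw [Fin.lt_def]; omega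
  have lbc : b < c := by rw [Fin.lt_def]; omega
  have lac : a < c := lab.trans lbc
  have swi : sw i = Equiv.swap a b := by rw [sw, ← ha, ← hb]
  have swi' : sw i' = Equiv.swap b c := by rw [sw, ← hb', ← hc]
  have hij : i ≤ i' := by rw [Fin.le_def]; omega
  -- fixed points
  have fx : ∀ p : Fin (m + 1), (i' : ℕ) + 1 < p → p ≠ a ∧ p ≠ b ∧ p ≠ c := by
    intro p hp
    refine ⟨?_, ?_, ?_⟩ <;> (rintro rfl; omega)
  have f1 : ∀ p : Fin (m + 1), (i' : ℕ) + 1 < p → (1 : Equiv.Perm (Fin (m + 1))) p = p :=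
    fun p _ => rfl
  have fab : ∀ p : Fin (m + 1), (i' : ℕ) + 1 < p → Equiv.swap a b p = p := fun p hp =>
    Equiv.swap_apply_of_ne_of_ne (fx p hp).1 (fx p hp).2.1
  have fbc : ∀ p : Fin (m + 1), (i' : ℕ) + 1 < p → Equiv.swap b c p = p := fun p hp =>
    Equiv.swap_apply_of_ne_of_ne (fx p hp).2.1 (fx p hp).2.2
  -- starting state
  have s0 : Stt D wt ℓ (Om m i') X ℓΩ 1 0 := by
    refine ⟨1, fun _ _ => rfl, ?_⟩
    intro r hr hr2
    have hr3 : r ∈ Cham m := hr2
    obtain ⟨h1, h2⟩ := hX r hr hr3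
    refine ⟨fun a => h1 a, ?_⟩
    rw [h2]
    simp
  -- first chain
  have c1 := cross_Om hF D wt hd ℓ hℓ i' hR i hij k hi hw 1 f1
    (by rw [← ha, ← hb]; exact lab) 0 s0
  rw [swi] at c1
  have c2 := cross_Om hF D wt hd ℓ hℓ i' hR i' le_rfl k' hi' hw' (1 * Equiv.swap a b)
    (by intro p hp; rw [one_mul]; exact fab p hp)
    (by
      rw [← hb', ← hc, one_mul, Equiv.swap_apply_right,
        Equiv.swap_apply_of_ne_of_ne lac.ne' lbc.ne']
      exact lac) _ c1
  rw [swi'] at c2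
  have c3 := cross_Om hF D wt hd ℓ hℓ i' hR i hij k hi hw (1 * Equiv.swap a b * Equiv.swap b c)
    (by
      intro p hp
      rw [one_mul, Equiv.Perm.mul_apply, fbc p hp, fab p hp])
    (by
      rw [← ha, ← hb, one_mul, Equiv.Perm.mul_apply, Equiv.Perm.mul_apply,
        Equiv.swap_apply_of_ne_of_ne lab.ne lac.ne, Equiv.swap_apply_left,
        Equiv.swap_apply_left, Equiv.swap_apply_of_ne_of_ne lac.ne' lbc.ne']
      exact lbc) _ c2
  rw [swi, braid_sw1 lab.ne lbc.ne lac.ne] at c3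
  -- second chain
  have d1 := cross_Om hF D wt hd ℓ hℓ i' hR i' le_rfl k' hi' hw' 1 f1
    (by rw [← hb', ← hc]; exact lbc) 0 s0
  rw [swi'] at d1
  have d2 := cross_Om hF D wt hd ℓ hℓ i' hR i hij k hi hw (1 * Equiv.swap b c)
    (by intro p hp; rw [one_mul]; exact fbc p hp)
    (by
      rw [← ha, ← hb, one_mul, Equiv.swap_apply_left,
        Equiv.swap_apply_of_ne_of_ne lab.ne lac.ne]
      exact lac) _ d1
  rw [swi] at d2
  have d3 := cross_Om hF D wt hd ℓ hℓ i' hR i' le_rfl k' hi' hw'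
    (1 * Equiv.swap b c * Equiv.swap a b)
    (by
      intro p hp
      rw [one_mul, Equiv.Perm.mul_apply, fab p hp, fbc p hp])
    (by
      rw [← hb', ← hc, one_mul, Equiv.Perm.mul_apply, Equiv.Perm.mul_apply,
        Equiv.swap_apply_right, Equiv.swap_apply_of_ne_of_ne lab.ne lac.ne,
        Equiv.swap_apply_of_ne_of_ne lac.ne' lbc.ne', Equiv.swap_apply_right]
      exact lab) _ d2
  rw [swi', braid_sw2 lab.ne lbc.ne lac.ne] at d3
  obtain ⟨g, _, hg⟩ := c3
  obtain ⟨g', _, hg'⟩ := d3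
  -- the test point
  obtain ⟨r, hr⟩ : ∃ r : Fin (m + 1) → ℂ, r = fun l =>
      (((Equiv.swap a c l : Fin (m + 1)) : ℕ) : ℂ) + ((l : ℕ) : ℂ) * Complex.I := ⟨_, rfl⟩
  have hre : ∀ l, (r l).re = ((Equiv.swap a c l : Fin (m + 1)) : ℕ) := by
    intro l
    rw [hr]
    simp
  have him : ∀ l, (r l).im = (l : ℕ) := by
    intro l
    rw [hr]
    simp
  have hch : r ∘ (Equiv.swap a c) ∈ Cham m := by
    intro p q hpq
    simp only [Function.comp_apply, hre, Equiv.swap_apply_self]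
    exact_mod_cast hpq
  have hom : r ∈ Om m i' := by
    intro p q hpq
    refine ⟨fun _ => ?_, fun hq => ?_⟩
    · rw [him, him]
      exact_mod_cast hpq
    · rw [hre, hre]
      have h1 : Equiv.swap a c q = q :=
        Equiv.swap_apply_of_ne_of_ne (fx q hq).1 (fx q hq).2.2
      rw [h1]
      have h2 : ((Equiv.swap a c p : Fin (m + 1)) : ℕ) < (q : ℕ) := by
        rw [Equiv.swap_apply_def]
        have hpq' : (p : ℕ) < q := hpq
        split_ifs <;> omega
      exact_mod_cast h2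
  have e1 := (hg r hom hch).2
  have e2 := (hg' r hom hch).2
  rw [e1] at e2
  have e3 := add_left_cancel e2
  have hpi : (2 * Real.pi * Complex.I : ℂ) ≠ 0 := Complex.two_pi_I_ne_zero
  have e4 := mul_left_cancel₀ hpi e3
  have e5 : (0 + k + k' + k : ℤ) = 0 + k' + k + k' := by exact_mod_cast e4
  omega

end LinC
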