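import Pool.Agent.Helper996.LinC.Base
import Pool.Agent.Helper996.Lin.Defs
import Pool.Agent.Helper996.Lin.Defs2
import Pool.Agent.Helper996.Lin.J_lab_basic
import Pool.Agent.Helper996.Lin.J_lab_lift
import Pool.Agent.Helper996.Lin.J_log_basic
import Pool.Agent.Helper996.Lin.J_charts
import Pool.Agent.Helper996.Lin.J_wd_basic
import Pool.Agent.Helper996.Lin.J_invs
import Pool.Agent.Helper996.LinC.C_cross_Om
import Pool.Agent.Helper996.LinC.C_all_states

set_option autoImplicit false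

open Polynomial Set LinS

namespace LinC

variable {m n : ℕ} {F : (Fin (m + 1) → ℂ) → Fin n → ℂ}

/-- labels and a logarithm along a path of configurations -/
structure rotSt {m n : ℕ} (F : (Fin (m + 1) → ℂ) → Fin n → ℂ) (wt : Fin n → Fin n → ℤ)
    (P : ℝ → Fin (m + 1) → ℂ) (I : Set ℝ) (Z : Fin n → ℝ → ℂ) (L : ℝ → ℂ) : Prop where
  cont : ∀ a, ContinuousOn (Z a) I
  lab : ∀ v ∈ I, Lab (F (P v)) (fun a => Z a v)
  lcont : ContinuousOn L I
  lexp : ∀ v ∈ I, Complex.exp (L v) = Gw wt (fun a => Z a v)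

theorem rot_gw {wt : Fin n → Fin n → ℤ} {g : Equiv.Perm (Fin n)}
    (hg : ∀ a b, wt (g a) (g b) = wt a b) (X : Fin n → ℂ) : Gw wt (fun a => X (g a)) = Gw wt X := by
  unfold Gw
  rw [← Equiv.prod_comp g (fun a => ∏ b, (X a - X b) ^ (wt a b))]
  apply Finset.prod_congr rfl
  intro a _
  rw [← Equiv.prod_comp g (fun b => (X (g a) - X b) ^ (wt (g a) b))]
  apply Finset.prod_congr rfl
  intro b _
  rw [hg]

theorem rot_lab {z M : Fin n → ℂ} (h : Lab z M) (g : Equiv.Perm (Fin n)) :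
    Lab z (fun a => M (g a)) := by
  unfold Lab at *
  rw [h, ← Equiv.prod_comp g]

theorem rot_exp (z : ℂ) (c : ℤ) :
    Complex.exp (z + 2 * Real.pi * Complex.I * c) = Complex.exp z := by
  rw [Complex.exp_eq_exp_iff_exists_int]
  exact ⟨c, by ring⟩

theorem rot_st {wt : Fin n → Fin n → ℤ} (hF : GoodC m n F) {Ω : Set (Fin (m + 1) → ℂ)}
    {X : Fin n → (Fin (m + 1) → ℂ) → ℂ} {ℓΩ : (Fin (m + 1) → ℂ) → ℂ} (R : Reg F wt Ω X ℓΩ)
    {P : ℝ → Fin (m + 1) → ℂ} (hP : Continuous P) (hc : ∀ θ, P θ ∈ Conf m) {I : Set ℝ}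
    (ρ : Equiv.Perm (Fin (m + 1))) (hI : ∀ θ ∈ I, P θ ∘ ρ ∈ Ω) {g : Equiv.Perm (Fin n)}
    (hg : ∀ a b, wt (g a) (g b) = wt a b) (c : ℤ) :
    rotSt F wt P I (fun a θ => X (g a) (P θ ∘ ρ))
      (fun θ => ℓΩ (P θ ∘ ρ) + 2 * Real.pi * Complex.I * c) := by
  have hPρ : ContinuousOn (fun θ => P θ ∘ ρ) I := by
    apply Continuous.continuousOn
    apply continuous_pi
    intro i
    exact (continuous_apply (ρ i)).comp hP
  constructor
  · intro a
    exact (R.cont (g a)).comp hPρ hI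
  · intro v hv
    have h1 := R.lab _ (hI v hv)
    rw [hF.symm _ (hc v) ρ] at h1
    exact rot_lab h1 g
  · exact (R.log.1.comp hPρ hI).add continuousOn_const
  · intro v hv
    beta_reduce
    rw [rot_exp, R.log.2 _ (hI v hv)]
    exact (rot_gw hg (fun a => X a (P v ∘ ρ))).symm

theorem rot_uniq {wt : Fin n → Fin n → ℤ} (hF : GoodC m n F) {P : ℝ → Fin (m + 1) → ℂ}
    (hc : ∀ θ, P θ ∈ Conf m) {I : Set ℝ} (hI : IsPreconnected I) {Z Z' : Fin n → ℝ → ℂ}
    {L L' : ℝ → ℂ} (h : rotSt F wt P I Z L) (h' : rotSt F wt P I Z' L') {t : ℝ} (ht : t ∈ I)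
    (h0 : ∀ a, Z a t = Z' a t) (h0' : L t = L' t) :
    ∀ v ∈ I, (∀ a, Z a v = Z' a v) ∧ L v = L' v := by
  have hs : ∀ v ∈ I, Squarefree (mpoly n (F (P v))) := fun v _ => hF.sqf _ (hc v)
  obtain ⟨π, hπ⟩ := lab_uniq hI hs h.cont h'.cont h.lab h'.lab
  have hinj := lab_inj (h.lab t ht) (hs t ht)
  have hπ1 : ∀ a, π a = a := by
    intro a
    apply hinj
    beta_reduce
    rw [← hπ t ht a, h0 a]
  have hZ : ∀ v ∈ I, ∀ a, Z a v = Z' a v := by
    intro v hv a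
    rw [hπ v hv a, hπ1]
  have hexp : ∀ v ∈ I, Complex.exp (L v) = Complex.exp (L' v) := by
    intro v hv
    rw [h.lexp v hv, h'.lexp v hv]
    congr 1
    funext a
    exact hZ v hv a
  obtain ⟨c, hc'⟩ := log_uniq hI h.lcont h'.lcont hexp
  have h1 := hc' t ht
  rw [h0'] at h1
  intro v hv
  refine ⟨hZ v hv, ?_⟩
  rw [hc' v hv]
  linear_combination h1

theorem rot_mono {wt : Fin n → Fin n → ℤ} {P : ℝ → Fin (m + 1) → ℂ} {I J : Set ℝ}
    {Z : Fin n → ℝ → ℂ} {L : ℝ → ℂ} (h : rotSt F wt P I Z L) (hJ : J ⊆ I) :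
    rotSt F wt P J Z L :=
  ⟨fun a => (h.cont a).mono hJ, fun v hv => h.lab v (hJ hv), h.lcont.mono hJ,
    fun v hv => h.lexp v (hJ hv)⟩

/-- the base configuration -/
noncomputable def rotb (m : ℕ) (q : Fin (m + 1)) : ℝ :=
  if (q : ℕ) = 0 then 0 else Real.exp ((q : ℕ) - (m + 1))

theorem rotb_nonneg (q : Fin (m + 1)) : 0 ≤ rotb m q := by
  unfold rotb
  split_ifs
  · exact le_rfl
  · exact (Real.exp_pos _).le

theorem rotb_lt {p q : Fin (m + 1)} (h : p < q) : rotb m p < rotb m q := by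
  have h' : (p : ℕ) < q := h
  unfold rotb
  rw [if_neg (by omega : ¬ (q : ℕ) = 0)]
  split_ifs
  · exact Real.exp_pos _
  · apply Real.exp_lt_exp.2
    have : ((p : ℕ) : ℝ) < (q : ℕ) := by exact_mod_cast h'
    linarith

/-- the path in the nested chart -/
noncomputable def rotz {m : ℕ} (j : Fin m) (θ : ℝ) : Fin m → ℂ :=
  (fun _ => ((-1 : ℝ) : ℂ)) + Pi.single j ((θ : ℂ) * Complex.I)

theorem rotz_mem (j : Fin m) (θ : ℝ) : rotz j θ ∈ UN m := by
  intro i _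
  unfold rotz
  rw [Pi.add_apply, Complex.add_re, Pi.single_apply]
  split_ifs
  · simp
  · simp

theorem rotz_cont (j : Fin m) : Continuous (rotz j) := by
  unfold rotz
  apply Continuous.add continuous_const
  apply continuous_pi
  intro i
  simp only [Pi.single_apply]
  split_ifs
  · fun_prop
  · fun_prop

theorem rotz_zero (j : Fin m) : rotz j 0 = fun _ => ((-1 : ℝ) : ℂ) := by
  unfold rotz
  simp

theorem rotz_add (j : Fin m) (θ η : ℝ) :
    rotz j (θ + η) = rotz j θ + Pi.single j ((η : ℂ) * Complex.I) := by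
  unfold rotz
  rw [add_assoc, ← Pi.single_add]
  push_cast
  rw [add_mul]

theorem rot_nest (j : Fin m) (θ : ℝ) (q : Fin (m + 1)) :
    nest (rotz j θ) q =
      (if (q : ℕ) ≤ j + 1 then Complex.exp ((θ : ℂ) * Complex.I) else 1) * (rotb m q : ℂ) := by
  refine Fin.cases ?_ (fun i => ?_) q
  · simp [nest, rotb]
  · unfold nest rotb rotz
    rw [Fin.cons_succ]
    simp only [Pi.add_apply, Finset.sum_add_distrib, Finset.sum_const, Fin.card_Ici,
      Finset.sum_pi_single', Finset.mem_Ici, Fin.val_succ]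
    rw [if_neg (Nat.succ_ne_zero _), Complex.exp_add]
    have e1 : Complex.exp ((m - (i : ℕ)) • ((-1 : ℝ) : ℂ)) =
        ((Real.exp (((i : ℕ) + 1 : ℕ) - ((m : ℝ) + 1)) : ℝ) : ℂ) := by
      rw [Complex.ofReal_exp]
      congr 1
      rw [nsmul_eq_mul, Nat.cast_sub i.2.le]
      push_cast
      ring
    rw [e1, mul_comm]
    congr 1
    by_cases hij : i ≤ j
    · have hij' : (i : ℕ) ≤ j := hij
      rw [if_pos hij, if_pos (by omega)]
    · have hij' : ¬ (i : ℕ) ≤ j := hij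
      rw [if_neg hij, if_neg (by omega), Complex.exp_zero]

theorem rot_re (j : Fin m) (θ : ℝ) (q : Fin (m + 1)) :
    (nest (rotz j θ) q).re = (if (q : ℕ) ≤ j + 1 then Real.cos θ else 1) * rotb m q := by
  rw [rot_nest]
  split_ifs
  · rw [Complex.re_mul_ofReal, Complex.exp_ofReal_mul_I_re]
  · simp

theorem rot_im (j : Fin m) (θ : ℝ) (q : Fin (m + 1)) :
    (nest (rotz j θ) q).im = (if (q : ℕ) ≤ j + 1 then Real.sin θ else 0) * rotb m q := by
  rw [rot_nest]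
  split_ifs
  · rw [Complex.im_mul_ofReal, Complex.exp_ofReal_mul_I_im]
  · simp

theorem rot_re_le (j : Fin m) (θ : ℝ) (q : Fin (m + 1)) :
    (nest (rotz j θ) q).re ≤ rotb m q := by
  rw [rot_re]
  have h0 := rotb_nonneg q
  split_ifs
  · nlinarith [Real.cos_le_one θ]
  · linarith

theorem rot_re_big (j : Fin m) (θ : ℝ) {q : Fin (m + 1)} (hq : (j : ℕ) + 1 < q) :
    (nest (rotz j θ) q).re = rotb m q := by
  rw [rot_re, if_neg (by omega), one_mul]

/-- (0), (4) -/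
theorem rot_c0 (j : Fin m) {θ : ℝ} (h : 0 < Real.cos θ) : nest (rotz j θ) ∈ Cham m := by
  intro p q hpq
  have hpq' : (p : ℕ) < q := hpq
  by_cases hq : (q : ℕ) ≤ j + 1
  · rw [rot_re, rot_re, if_pos hq, if_pos (by omega)]
    exact mul_lt_mul_of_pos_left (rotb_lt hpq) h
  · rw [rot_re_big j θ (q := q) (by omega)]
    exact lt_of_le_of_lt (rot_re_le j θ p) (rotb_lt hpq)

/-- (1) -/
theorem rot_c1 (j : Fin m) {θ : ℝ} (h : 0 < Real.sin θ) : nest (rotz j θ) ∈ Om m j := by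
  intro p q hpq
  have hpq' : (p : ℕ) < q := hpq
  constructor
  · intro hq
    rw [rot_im, rot_im, if_pos hq, if_pos (by omega)]
    exact mul_lt_mul_of_pos_left (rotb_lt hpq) h
  · intro hq
    rw [rot_re_big j θ (q := q) (by omega)]
    exact lt_of_le_of_lt (rot_re_le j θ p) (rotb_lt hpq)

section
variable {j : Fin m} {ρ : Equiv.Perm (Fin (m + 1))}
  (hρ1 : ∀ p : Fin (m + 1), (j : ℕ) + 1 < p → ρ p = p)
  (hρ2 : ∀ p : Fin (m + 1), (p : ℕ) ≤ j + 1 → ((ρ p : Fin (m + 1)) : ℕ) = j + 1 - p)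
include hρ1 hρ2

theorem rot_rho (p : Fin (m + 1)) : ρ (ρ p) = p := by
  by_cases hp : (p : ℕ) ≤ j + 1
  · have h1 := hρ2 p hp
    have h2 := hρ2 (ρ p) (by omega)
    apply Fin.ext
    omega
  · rw [hρ1 p (by omega), hρ1 p (by omega)]

theorem rot_big {θ : ℝ} {p q : Fin (m + 1)} (hpq : p < q) (hq : (j : ℕ) + 1 < q) :
    ((nest (rotz j θ) ∘ ρ) p).re < ((nest (rotz j θ) ∘ ρ) q).re := by
  have hpq' : (p : ℕ) < q := hpq
  rw [Function.comp_apply, Function.comp_apply, hρ1 q hq, rot_re_big j θ hq]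
  refine lt_of_le_of_lt (rot_re_le j θ _) (rotb_lt ?_)
  show ((ρ p : Fin (m + 1)) : ℕ) < q
  by_cases hp : (p : ℕ) ≤ j + 1
  · have := hρ2 p hp
    omega
  · rw [hρ1 p (by omega)]
    exact hpq'

theorem rot_rev {p q : Fin (m + 1)} (hpq : p < q) (hq : (q : ℕ) ≤ j + 1) :
    rotb m (ρ q) < rotb m (ρ p) := by
  have hpq' : (p : ℕ) < q := hpq
  apply rotb_lt
  show ((ρ q : Fin (m + 1)) : ℕ) < (ρ p : Fin (m + 1))
  have h1 := hρ2 q hq
  have h2 := hρ2 p (by omega)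
  omega

/-- (2) -/
theorem rot_c2 {θ : ℝ} (h : Real.cos θ < 0) : nest (rotz j θ) ∘ ρ ∈ Cham m := by
  intro p q hpq
  have hpq' : (p : ℕ) < q := hpq
  by_cases hq : (q : ℕ) ≤ j + 1
  · have h1 := hρ2 q hq
    have h2 := hρ2 p (by omega)
    rw [Function.comp_apply, Function.comp_apply, rot_re, rot_re, if_pos (by omega),
      if_pos (by omega)]
    exact mul_lt_mul_of_neg_left (rot_rev hρ1 hρ2 hpq hq) h
  · exact rot_big hρ1 hρ2 hpq (by omega)

/-- (3) -/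
theorem rot_c3 {θ : ℝ} (h : Real.sin θ < 0) : nest (rotz j θ) ∘ ρ ∈ Om m j := by
  intro p q hpq
  have hpq' : (p : ℕ) < q := hpq
  constructor
  · intro hq
    have h1 := hρ2 q hq
    have h2 := hρ2 p (by omega)
    rw [Function.comp_apply, Function.comp_apply, rot_im, rot_im, if_pos (by omega),
      if_pos (by omega)]
    exact mul_lt_mul_of_neg_left (rot_rev hρ1 hρ2 hpq hq) h
  · intro hq
    exact rot_big hρ1 hρ2 hpq hq

end

theorem rot_sin_neg {θ : ℝ} (h1 : Real.pi < θ) (h2 : θ < 2 * Real.pi) : Real.sin θ < 0 := by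
  have : 0 < Real.sin (θ - Real.pi) := Real.sin_pos_of_pos_of_lt_pi (by linarith) (by linarith)
  rw [Real.sin_sub_pi] at this
  linarith

theorem rot_cos_pos {θ : ℝ} (h1 : 3 * Real.pi / 2 < θ) (h2 : θ < 5 * Real.pi / 2) :
    0 < Real.cos θ := by
  have : 0 < Real.cos (θ - 2 * Real.pi) :=
    Real.cos_pos_of_mem_Ioo ⟨by linarith, by linarith⟩
  rw [Real.cos_sub_two_pi] at this
  exact this

theorem rot_chain (hF : GoodC m n F) (D : Data m n F) {wt : Fin n → Fin n → ℤ}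
    {ℓ : (Fin (m + 1) → ℂ) → ℂ} (hℓ : IsLog wt (Cham m) D.μ ℓ) (j : Fin m)
    {X : Fin n → (Fin (m + 1) → ℂ) → ℂ} {ℓΩ : (Fin (m + 1) → ℂ) → ℂ}
    (R1 : Reg F wt (Om m j) X ℓΩ)
    (h1 : ∀ r ∈ Om m j, r ∈ Cham m → (∀ a, X a r = D.μ a r) ∧ ℓΩ r = ℓ r)
    {ρ : Equiv.Perm (Fin (m + 1))} (hρ1 : ∀ p : Fin (m + 1), (j : ℕ) + 1 < p → ρ p = p)
    (hρ2 : ∀ p : Fin (m + 1), (p : ℕ) ≤ j + 1 → ((ρ p : Fin (m + 1)) : ℕ) = j + 1 - p)
    {c : ℤ} (hS : Stt D wt ℓ (Om m j) X ℓΩ ρ c) {Y : Fin n → ℝ → ℂ} {Λ : ℝ → ℂ}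
    (hY : rotSt F wt (fun θ => nest (rotz j θ)) univ Y Λ)
    (hY0 : ∀ a, Y a 0 = D.μ a (nest (rotz j 0))) (hΛ0 : Λ 0 = ℓ (nest (rotz j 0))) :
    ∃ g : Equiv.Perm (Fin n), (∀ a b, wt (g a) (g b) = wt a b) ∧
      (∀ a, Y a (2 * Real.pi) = D.μ (g a) (nest (rotz j (2 * Real.pi)))) ∧
      Λ (2 * Real.pi) = ℓ (nest (rotz j (2 * Real.pi))) +
        2 * Real.pi * Complex.I * ((2 * c : ℤ) : ℂ) := by
  have hpi := Real.pi_pos
  obtain ⟨g, hg, hgS⟩ := hS
  have R0 : Reg F wt (Cham m) D.μ ℓ :=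
    ⟨Cham_convex m, fun r hr => Cham_conf hr, D.μ_cont, D.μ_lab, hℓ⟩
  set P : ℝ → Fin (m + 1) → ℂ := fun θ => nest (rotz j θ) with hPdef
  have hP : Continuous P := (nest_diff (m := m)).continuous.comp (rotz_cont j)
  have hc : ∀ θ, P θ ∈ Conf m := fun θ => nest_conf (rotz_mem j θ)
  have h1' : ∀ f : Fin (m + 1) → ℂ, f ∘ (1 : Equiv.Perm (Fin (m + 1))) = f := fun f => rfl
  have hid : ∀ a b, wt ((1 : Equiv.Perm (Fin n)) a) ((1 : Equiv.Perm (Fin n)) b) = wt a b :=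
    fun a b => rfl
  have hgg : ∀ a b, wt ((g * g) a) ((g * g) b) = wt a b := by
    intro a b
    rw [Equiv.Perm.mul_apply, Equiv.Perm.mul_apply, hg, hg]
  -- step 0
  have s0 := rot_st hF R0 hP hc (I := Ioo (-(Real.pi / 2)) (Real.pi / 2)) 1
    (fun θ hθ => rot_c0 j (Real.cos_pos_of_mem_Ioo hθ)) hid 0
  have e0 := rot_uniq hF hc isPreconnected_Ioo (rot_mono hY (subset_univ _)) s0
    (t := 0) ⟨by linarith, by linarith⟩ hY0 (by rw [hΛ0, h1']; simp [hPdef])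
  -- step 1
  have s1 := rot_st hF R1 hP hc (I := Ioo 0 Real.pi) 1
    (fun θ hθ => rot_c1 j (Real.sin_pos_of_mem_Ioo hθ)) hid 0
  have t1 : Real.pi / 4 ∈ Ioo 0 Real.pi := ⟨by linarith, by linarith⟩
  have t1' : Real.pi / 4 ∈ Ioo (-(Real.pi / 2)) (Real.pi / 2) := ⟨by linarith, by linarith⟩
  have q1 := h1 (P (Real.pi / 4)) (rot_c1 j (Real.sin_pos_of_mem_Ioo t1))
    (rot_c0 j (Real.cos_pos_of_mem_Ioo t1'))
  have e1 := rot_uniq hF hc isPreconnected_Ioo (rot_mono hY (subset_univ _)) s1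
    (t := Real.pi / 4) t1 (fun a => by rw [(e0 _ t1').1 a]; exact (q1.1 a).symm)
    (by rw [(e0 _ t1').2, h1', q1.2])
  -- step 2
  have s2 := rot_st hF R0 hP hc (I := Ioo (Real.pi / 2) (3 * Real.pi / 2)) ρ
    (fun θ hθ => rot_c2 hρ1 hρ2
      (Real.cos_neg_of_pi_div_two_lt_of_lt hθ.1 (by linarith [hθ.2]))) hg c
  have t2 : 3 * Real.pi / 4 ∈ Ioo (Real.pi / 2) (3 * Real.pi / 2) :=
    ⟨by linarith, by linarith⟩
  have t2' : 3 * Real.pi / 4 ∈ Ioo 0 Real.pi := ⟨by linarith, by linarith⟩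
  have q2 := hgS (P (3 * Real.pi / 4)) (rot_c1 j (Real.sin_pos_of_mem_Ioo t2'))
    (rot_c2 hρ1 hρ2 (Real.cos_neg_of_pi_div_two_lt_of_lt t2.1 (by linarith [t2.2])))
  have e2 := rot_uniq hF hc isPreconnected_Ioo (rot_mono hY (subset_univ _)) s2
    (t := 3 * Real.pi / 4) t2 (fun a => by rw [(e1 _ t2').1 a]; exact (q2.1 a))
    (by rw [(e1 _ t2').2, h1', q2.2]; simp)
  -- step 3
  have s3 := rot_st hF R1 hP hc (I := Ioo Real.pi (2 * Real.pi)) ρ
    (fun θ hθ => rot_c3 hρ1 hρ2 (rot_sin_neg hθ.1 hθ.2)) hg c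
  have t3 : 5 * Real.pi / 4 ∈ Ioo Real.pi (2 * Real.pi) := ⟨by linarith, by linarith⟩
  have t3' : 5 * Real.pi / 4 ∈ Ioo (Real.pi / 2) (3 * Real.pi / 2) :=
    ⟨by linarith, by linarith⟩
  have q3 := h1 (P (5 * Real.pi / 4) ∘ ρ) (rot_c3 hρ1 hρ2 (rot_sin_neg t3.1 t3.2))
    (rot_c2 hρ1 hρ2 (Real.cos_neg_of_pi_div_two_lt_of_lt t3'.1 (by linarith [t3'.2])))
  have e3 := rot_uniq hF hc isPreconnected_Ioo (rot_mono hY (subset_univ _)) s3
    (t := 5 * Real.pi / 4) t3 (fun a => by rw [(e2 _ t3').1 a]; exact (q3.1 (g a)).symm)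
    (by rw [(e2 _ t3').2, q3.2])
  -- step 4
  have hρρ : ∀ θ, (P θ ∘ ρ) ∘ ρ = P θ := by
    intro θ
    funext p
    rw [Function.comp_apply, Function.comp_apply, rot_rho hρ1 hρ2]
  have s4 := rot_st hF R0 hP hc (I := Ioo (3 * Real.pi / 2) (5 * Real.pi / 2)) 1
    (fun θ hθ => rot_c0 j (rot_cos_pos hθ.1 hθ.2)) hgg (2 * c)
  have t4 : 7 * Real.pi / 4 ∈ Ioo (3 * Real.pi / 2) (5 * Real.pi / 2) :=
    ⟨by linarith, by linarith⟩
  have t4' : 7 * Real.pi / 4 ∈ Ioo Real.pi (2 * Real.pi) := ⟨by linarith, by linarith⟩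
  have q4 := hgS (P (7 * Real.pi / 4) ∘ ρ) (rot_c3 hρ1 hρ2 (rot_sin_neg t4'.1 t4'.2))
    (by rw [hρρ]; exact rot_c0 j (rot_cos_pos t4.1 t4.2))
  rw [hρρ] at q4
  have e4 := rot_uniq hF hc isPreconnected_Ioo (rot_mono hY (subset_univ _)) s4
    (t := 7 * Real.pi / 4) t4
    (fun a => by rw [(e3 _ t4').1 a]; exact (q4.1 (g a)))
    (by rw [(e3 _ t4').2, q4.2, h1']; push_cast; ring)
  have t5 : 2 * Real.pi ∈ Ioo (3 * Real.pi / 2) (5 * Real.pi / 2) :=
    ⟨by linarith, by linarith⟩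
  exact ⟨g * g, hgg, fun a => (e4 _ t5).1 a, (e4 _ t5).2⟩

theorem rotz_per (j : Fin m) (θ : ℝ) :
    nest (rotz j (θ + 2 * Real.pi)) = nest (rotz j θ) := by
  rw [rotz_add]
  have := nest_per (n := 0) j (rotz j θ)
  rw [← this]
  push_cast
  rfl

theorem rot_wd (D : Data m n F) (wt : Fin n → Fin n → ℤ)
    (hd : ∀ a, wt a a = 0) (j : Fin m) :
    Wd (univ : Set ℝ) (fun θ => Gw wt (fun a => D.M a (rotz j θ)))
      (2 * Real.pi * (n.factorial : ℝ)) (∑ a, ∑ b, wt a b * D.W a b j) := by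
  set s : Finset (Fin n × Fin n) := Finset.univ.filter (fun x => x.1 ≠ x.2) with hs
  have h1 := Wd.prod (K := UN m) (g := fun (x : Fin n × Fin n) ζ => D.M x.1 ζ - D.M x.2 ζ)
    (p := per m n j) (w := fun x => D.W x.1 x.2 j) s (fun x => wt x.1 x.2) (by
      intro x hx
      exact D.W_wd x.1 x.2 (by simpa [hs] using hx) j)
  have h2 : ∑ x ∈ s, wt x.1 x.2 * D.W x.1 x.2 j = ∑ a, ∑ b, wt a b * D.W a b j := by
    rw [← Fintype.sum_prod_type' (f := fun a b => wt a b * D.W a b j)]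
    apply Finset.sum_subset (Finset.subset_univ _)
    intro x _ hx
    have : x.1 = x.2 := by simpa [hs] using hx
    rw [this, hd, zero_mul]
  rw [h2] at h1
  have h3 := Wd.comp (K' := (univ : Set ℝ)) (p' := 2 * Real.pi * (n.factorial : ℝ)) h1
    (f := rotz j) (rotz_cont j).continuousOn (fun v _ => rotz_mem j v) (by
      intro v _
      rw [rotz_add]
      congr 1
      unfold per
      congr 1
      push_cast
      ring)
  apply Wd.congr h3
  intro v _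
  unfold Gw
  beta_reduce
  rw [← Fintype.prod_prod_type'
    (f := fun a b => (D.M a (rotz j v) - D.M b (rotz j v)) ^ wt a b)]
  symm
  apply Finset.prod_subset (Finset.subset_univ _)
  intro x _ hx
  have : x.1 = x.2 := by simpa [hs] using hx
  rw [this, hd, zpow_zero]

theorem rot (hF : GoodC m n F) (D : Data m n F) (wt : Fin n → Fin n → ℤ)
    (hd : ∀ a, wt a a = 0) (ℓ : (Fin (m + 1) → ℂ) → ℂ) (hℓ : IsLog wt (Cham m) D.μ ℓ)
    (j : Fin m) (hinv : ∀ i ≤ j, ∀ a b, wt (D.lam i a) (D.lam i b) = wt a b) (k : ℤ)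
    (hw : ∀ i ≤ j, Wall D wt ℓ i k) :
    ∑ a, ∑ b, wt a b * D.W a b j = (n.factorial : ℤ) * (((j : ℤ) + 1) * ((j : ℤ) + 2)) * k := by
  obtain ⟨ρ, hρ1, hρ2, hρ3⟩ := invs_rev j
  obtain ⟨X, ℓΩ, R1, h1⟩ := Om_reg hF D wt hd ℓ hℓ j
  have hS := all_states hF D wt hd ℓ hℓ j hinv k hw R1 h1 ρ hρ1
  have hWd := rot_wd D wt hd j
  obtain ⟨L, hL1, hL2, -⟩ := hWd
  have hY0 : ∀ a, D.M a (rotz j 0) = D.μ a (nest (rotz j 0)) := by
    intro a
    have h := rotz_mem j 0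
    rw [rotz_zero] at h ⊢
    exact D.M_eq (fun _ => -1) h a
  set Λ : ℝ → ℂ := fun θ => L θ + (ℓ (nest (rotz j 0)) - L 0) with hΛ
  have hcham : nest (rotz j 0) ∈ Cham m := rot_c0 j (by rw [Real.cos_zero]; exact one_pos)
  have hexp0 : Complex.exp (ℓ (nest (rotz j 0)) - L 0) = 1 := by
    have hG0 := hL2 0 (mem_univ _)
    beta_reduce at hG0
    have e : Gw wt (fun a => D.M a (rotz j 0)) = Gw wt (fun a => D.μ a (nest (rotz j 0))) := by
      congr 1
      funext a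
      exact hY0 a
    rw [Complex.exp_sub, hℓ.2 _ hcham, ← e, ← hG0]
    exact div_self (Complex.exp_ne_zero _)
  have hΛc : Continuous Λ := by
    have := continuousOn_univ.1 hL1
    exact this.add continuous_const
  have hY : rotSt F wt (fun θ => nest (rotz j θ)) univ (fun a θ => D.M a (rotz j θ)) Λ := by
    constructor
    · intro a
      exact (D.M_cont a).comp (rotz_cont j).continuousOn (fun v _ => rotz_mem j v)
    · intro v _
      exact D.M_lab _ (rotz_mem j v)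
    · exact hΛc.continuousOn
    · intro v hv
      rw [hΛ]
      beta_reduce
      rw [Complex.exp_add, hexp0, mul_one, hL2 v hv]
  obtain ⟨g, hg, hg1, hg2⟩ := rot_chain hF D hℓ j R1 h1 hρ1 hρ2 hS hY hY0
    (by rw [hΛ]; ring)
  have hc : ∀ θ, nest (rotz j θ) ∈ Conf m := fun θ => nest_conf (rotz_mem j θ)
  have hYc : ∀ a, Continuous (fun θ => D.M a (rotz j θ)) := fun a =>
    continuousOn_univ.1 (hY.cont a)
  have sA : rotSt F wt (fun θ => nest (rotz j θ)) univ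
      (fun a θ => D.M a (rotz j (θ + 2 * Real.pi))) (fun θ => Λ (θ + 2 * Real.pi)) := by
    constructor
    · intro a
      exact ((hYc a).comp (continuous_id.add continuous_const)).continuousOn
    · intro v _
      have := hY.lab (v + 2 * Real.pi) (mem_univ _)
      beta_reduce at this
      rw [rotz_per] at this
      exact this
    · exact (hΛc.comp (continuous_id.add continuous_const)).continuousOn
    · intro v _
      exact hY.lexp (v + 2 * Real.pi) (mem_univ _)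
  set c : ℤ := k * invs ρ with hcdef
  have sB : rotSt F wt (fun θ => nest (rotz j θ)) univ
      (fun a θ => D.M (g a) (rotz j θ))
      (fun θ => Λ θ + 2 * Real.pi * Complex.I * ((2 * c : ℤ) : ℂ)) := by
    constructor
    · intro a
      exact (hYc (g a)).continuousOn
    · intro v hv
      exact rot_lab (hY.lab v hv) g
    · exact (hΛc.add continuous_const).continuousOn
    · intro v hv
      beta_reduce
      rw [rot_exp, hY.lexp v hv]
      exact (rot_gw hg (fun a => D.M a (rotz j v))).symm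
  have hp0 : nest (rotz j (2 * Real.pi)) = nest (rotz j 0) := by
    have := rotz_per j 0
    rwa [zero_add] at this
  have hAB := rot_uniq hF hc isPreconnected_univ sA sB (t := 0) (mem_univ _)
    (fun a => by
      rw [zero_add]
      have := hg1 a
      rw [this, hp0]
      exact (hY0 _).symm)
    (by
      beta_reduce
      rw [zero_add, hg2, hp0]
      congr 1
      rw [hΛ]
      ring)
  have hstep : ∀ θ, Λ (θ + 2 * Real.pi) = Λ θ + 2 * Real.pi * Complex.I * ((2 * c : ℤ) : ℂ) :=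
    fun θ => (hAB θ (mem_univ _)).2
  have hiter : ∀ (N : ℕ) (θ : ℝ), Λ (θ + 2 * Real.pi * (N : ℝ)) =
      Λ θ + 2 * Real.pi * Complex.I * ((2 * c * N : ℤ) : ℂ) := by
    intro N
    induction N with
    | zero => intro θ; simp
    | succ N ih =>
      intro θ
      have e : θ + 2 * Real.pi * ((N + 1 : ℕ) : ℝ) =
          (θ + 2 * Real.pi * (N : ℝ)) + 2 * Real.pi := by
        push_cast
        ring
      rw [e, hstep, ih]
      push_cast
      ring
  have hWd2 : Wd (univ : Set ℝ) (fun θ => Gw wt (fun a => D.M a (rotz j θ)))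
      (2 * Real.pi * (n.factorial : ℝ)) (2 * c * (n.factorial : ℤ)) := by
    refine ⟨Λ, hΛc.continuousOn, fun v hv => hY.lexp v hv, fun v _ => ?_⟩
    rw [hiter]
  have hfin := Wd.unique isPreconnected_univ ⟨0, mem_univ _⟩ (fun _ _ => mem_univ _)
    (rot_wd D wt hd j) hWd2
  rw [hfin, hcdef]
  have hρ4 : (2 : ℤ) * (invs ρ : ℤ) = ((j : ℤ) + 1) * ((j : ℤ) + 2) := by exact_mod_cast hρ3
  linear_combination (k * (n.factorial : ℤ)) * hρ4

end LinC
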