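import Pool.Agent.Helper996.LinC.Base
import Pool.Agent.Helper996.LinC.C_log_wall
import Pool.Agent.Helper996.LinC.C_cross
import Pool.Agent.Helper996.LinC.C_cross_Om
import Pool.Agent.Helper996.LinC.C_braid
import Pool.Agent.Helper996.LinC.C_all_states
import Pool.Agent.Helper996.LinC.C_rot
import Pool.Agent.Helper996.Lin.J_charts
import Pool.Agent.Helper996.Lin.J_lab_basic
import Pool.Agent.Helper996.Lin.J_log_basic

set_option autoImplicit false

open Polynomial Set Filter Topology LinS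

namespace LinC

variable {m n : ℕ} {F : (Fin (m + 1) → ℂ) → Fin n → ℂ}

theorem WS (hF : GoodC m n F) (D : Data m n F) (hm : 0 < m) (j : Fin m)
    (wt : Fin n → Fin n → ℤ) (hd : ∀ a, wt a a = 0)
    (hinv : ∀ i ≤ j, ∀ a b, wt (D.lam i a) (D.lam i b) = wt a b) :
    2 * ∑ a, ∑ b, wt a b * D.W a b j =
      ((j : ℤ) + 1) * ((j : ℤ) + 2) * ∑ a, ∑ b, wt a b * D.W a b ⟨0, hm⟩ := by
  obtain ⟨ℓ, hℓ⟩ := log_exists hF D wt hd (Cham m) (Cham_convex m) (fun r hr => Cham_conf hr)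
    D.μ D.μ_cont D.μ_lab
  have hex : ∀ i : Fin m, ∃ k, i ≤ j → Wall D wt ℓ i k := by
    intro i
    by_cases h : i ≤ j
    · obtain ⟨k, hk⟩ := wall_exists hF D wt hd i (hinv i h) ℓ hℓ
      exact ⟨k, fun _ => hk⟩
    · exact ⟨0, fun h' => absurd h' h⟩
  choose k hk using hex
  have hconst : ∀ (q : ℕ) (hq : q < m), (⟨q, hq⟩ : Fin m) ≤ j → k ⟨q, hq⟩ = k ⟨0, hm⟩ := by
    intro q
    induction q with
    | zero => intro _ _; rfl
    | succ q ih =>
      intro hq hqj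
      have hq' : q < m := by omega
      have hle : (⟨q, hq'⟩ : Fin m) ≤ j := by
        rw [Fin.le_def] at hqj ⊢
        simp only at hqj ⊢
        omega
      rw [← ih hq' hle]
      exact (braid hF D wt hd ℓ hℓ ⟨q, hq'⟩ ⟨q + 1, hq⟩ rfl _ _ (hinv _ hle) (hinv _ hqj)
        (hk _ hle) (hk _ hqj)).symm
  have hw : ∀ i ≤ j, Wall D wt ℓ i (k ⟨0, hm⟩) := by
    intro i hi
    have := hk i hi
    rwa [hconst i.1 i.2 hi] at this
  have h0j : (⟨0, hm⟩ : Fin m) ≤ j := by rw [Fin.le_def]; exact Nat.zero_le _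
  have h1 := rot hF D wt hd ℓ hℓ j hinv _ hw
  have h2 := rot hF D wt hd ℓ hℓ ⟨0, hm⟩ (fun i hi => hinv i (hi.trans h0j)) _
    (fun i hi => hw i (hi.trans h0j))
  rw [h1, h2]
  push_cast
  ring

end LinC
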