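import Pool.Agent.Helper996.LinC.Base
import Pool.Agent.Helper996.Lin.Defs
import Pool.Agent.Helper996.Lin.J_lab_basic
import Pool.Agent.Helper996.Lin.J_lab_lift
import Pool.Agent.Helper996.Lin.J_wd_basic
import Pool.Agent.Helper996.Lin.J_charts

set_option autoImplicit false

open Polynomial Set LinS

namespace LinC

variable {m n : ℕ} {F : (Fin (m + 1) → ℂ) → Fin n → ℂ}

noncomputable def W_inv_rr (m : ℕ) : Fin (m + 1) → ℝ :=
  Fin.cons 0 (fun i : Fin m => Real.exp (((i : ℕ) : ℝ) - m))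

lemma W_inv_rr_mono (m : ℕ) : StrictMono (W_inv_rr m) := by
  intro p q hpq
  induction q using Fin.cases with
  | zero => exact absurd hpq (Fin.not_lt_zero _)
  | succ q =>
    induction p using Fin.cases with
    | zero =>
      simp only [W_inv_rr, Fin.cons_zero, Fin.cons_succ]
      positivity
    | succ p =>
      simp only [W_inv_rr, Fin.cons_succ]
      apply Real.exp_lt_exp.2
      have h : (p : ℕ) < q := by
        have := Fin.succ_lt_succ_iff.1 hpq
        exact this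
      have h' : ((p : ℕ) : ℝ) < ((q : ℕ) : ℝ) := by exact_mod_cast h
      linarith

lemma W_inv_rr_nonneg (m : ℕ) (k : Fin (m + 1)) : 0 ≤ W_inv_rr m k := by
  induction k using Fin.cases with
  | zero => simp [W_inv_rr]
  | succ k => simp only [W_inv_rr, Fin.cons_succ]; positivity

noncomputable def W_inv_f {m : ℕ} (j : Fin m) (t : ℝ) : Fin m → ℂ :=
  (fun _ => ((-1 : ℝ) : ℂ)) + Pi.single j ((t : ℂ) * Complex.I)

noncomputable def W_inv_mul {m : ℕ} (j : Fin m) (t : ℝ) (k : Fin (m + 1)) : ℂ :=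
  if (k : ℕ) ≤ j + 1 then Complex.exp ((t : ℂ) * Complex.I) else 1

lemma W_inv_mul_norm {m : ℕ} (j : Fin m) (t : ℝ) (k : Fin (m + 1)) : ‖W_inv_mul j t k‖ = 1 := by
  unfold W_inv_mul
  split_ifs
  · exact Complex.norm_exp_ofReal_mul_I t
  · simp

lemma W_inv_nest {m : ℕ} (j : Fin m) (t : ℝ) (k : Fin (m + 1)) :
    nest (W_inv_f j t) k = W_inv_mul j t k * (W_inv_rr m k : ℂ) := by
  induction k using Fin.cases with
  | zero => simp [nest, W_inv_rr]
  | succ l =>
    simp only [nest, W_inv_rr, Fin.cons_succ, W_inv_mul, Fin.val_succ, W_inv_f, Pi.add_apply,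
      Finset.sum_add_distrib]
    rw [Complex.exp_add, mul_comm]
    congr 1
    · by_cases h : l ≤ j
      · have h' : (l : ℕ) + 1 ≤ j + 1 := by
          have : (l : ℕ) ≤ j := h
          omega
        rw [if_pos h', Finset.sum_eq_single j]
        · simp
        · intro b _ hb
          simp [hb]
        · intro hj
          exact absurd (Finset.mem_Ici.2 h) hj
      · have h' : ¬ (l : ℕ) + 1 ≤ j + 1 := by
          have : ¬ (l : ℕ) ≤ j := h
          omega
        rw [if_neg h', Finset.sum_eq_zero, Complex.exp_zero]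
        intro b hb
        have hb' : b ≠ j := by
          rintro rfl
          exact h (Finset.mem_Ici.1 hb)
        simp [hb']
    · rw [Finset.sum_const, Fin.card_Ici, Complex.ofReal_exp]
      congr 1
      have h1 : (l : ℕ) ≤ m := l.2.le
      simp only [nsmul_eq_mul]
      push_cast [Nat.cast_sub h1]
      ring

/-- the base configuration with the pair `i, i+1` turned by `θ` -/
noncomputable def W_inv_B {m : ℕ} (i : Fin m) (θ : ℝ) (k : Fin (m + 1)) : ℂ :=
  if k = i.castSucc then (((W_inv_rr m i.castSucc + W_inv_rr m i.succ) / 2 : ℝ) : ℂ) -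
      (((W_inv_rr m i.succ - W_inv_rr m i.castSucc) / 2 : ℝ) : ℂ) *
        Complex.exp ((θ : ℂ) * Complex.I)
  else if k = i.succ then (((W_inv_rr m i.castSucc + W_inv_rr m i.succ) / 2 : ℝ) : ℂ) +
      (((W_inv_rr m i.succ - W_inv_rr m i.castSucc) / 2 : ℝ) : ℂ) *
        Complex.exp ((θ : ℂ) * Complex.I)
  else (W_inv_rr m k : ℂ)

noncomputable def W_inv_lo {m : ℕ} (i : Fin m) (k : Fin (m + 1)) : ℝ :=
  if k = i.castSucc ∨ k = i.succ then W_inv_rr m i.castSucc else W_inv_rr m k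

noncomputable def W_inv_hi {m : ℕ} (i : Fin m) (k : Fin (m + 1)) : ℝ :=
  if k = i.castSucc ∨ k = i.succ then W_inv_rr m i.succ else W_inv_rr m k

lemma W_inv_hilo {m : ℕ} (i : Fin m) (p q : Fin (m + 1)) (h : p < q)
    (hpq : ¬ (p = i.castSucc ∧ q = i.succ)) : W_inv_hi i p < W_inv_lo i q := by
  have hlt : (p : ℕ) < q := h
  have h1 : ∀ k : Fin (m + 1), k = i.castSucc ↔ (k : ℕ) = i := fun k => by
    rw [Fin.ext_iff]; simp
  have h2 : ∀ k : Fin (m + 1), k = i.succ ↔ (k : ℕ) = i + 1 := fun k => by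
    rw [Fin.ext_iff]; simp
  rw [h1, h2] at hpq
  unfold W_inv_hi W_inv_lo
  split_ifs with ha hb hb <;> apply W_inv_rr_mono
  · exfalso
    rw [h1, h2] at ha hb
    omega
  · rw [h1, h2] at ha hb
    rw [Fin.lt_def]; simp only [Fin.val_succ]; omega
  · rw [h1, h2] at ha hb
    rw [Fin.lt_def]; simp only [Fin.val_castSucc]; omega
  · exact h

lemma W_inv_circ (c ρ θ : ℝ) (hρ : 0 ≤ ρ) (hc : ρ ≤ c) :
    (c - ρ ≤ ‖(c : ℂ) + (ρ : ℂ) * Complex.exp ((θ : ℂ) * Complex.I)‖ ∧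
      ‖(c : ℂ) + (ρ : ℂ) * Complex.exp ((θ : ℂ) * Complex.I)‖ ≤ c + ρ) ∧
    (c - ρ ≤ ‖(c : ℂ) - (ρ : ℂ) * Complex.exp ((θ : ℂ) * Complex.I)‖ ∧
      ‖(c : ℂ) - (ρ : ℂ) * Complex.exp ((θ : ℂ) * Complex.I)‖ ≤ c + ρ) := by
  have h1 : ‖(ρ : ℂ) * Complex.exp ((θ : ℂ) * Complex.I)‖ = ρ := by
    rw [norm_mul, Complex.norm_exp_ofReal_mul_I, Complex.norm_real, Real.norm_eq_abs,
      abs_of_nonneg hρ, mul_one]
  have h2 : ‖(c : ℂ)‖ = c := by
    rw [Complex.norm_real, Real.norm_eq_abs, abs_of_nonneg (hρ.trans hc)]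
  refine ⟨⟨?_, ?_⟩, ?_, ?_⟩
  · have := norm_sub_le_norm_add (c : ℂ) ((ρ : ℂ) * Complex.exp ((θ : ℂ) * Complex.I))
    rw [h1, h2] at this
    exact this
  · have := norm_add_le (c : ℂ) ((ρ : ℂ) * Complex.exp ((θ : ℂ) * Complex.I))
    rw [h1, h2] at this
    exact this
  · have := norm_sub_norm_le (c : ℂ) ((ρ : ℂ) * Complex.exp ((θ : ℂ) * Complex.I))
    rw [h1, h2] at this
    exact this
  · have := norm_sub_le (c : ℂ) ((ρ : ℂ) * Complex.exp ((θ : ℂ) * Complex.I))
    rw [h1, h2] at this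
    exact this

lemma W_inv_re (c ρ θ : ℝ) :
    ((c : ℂ) + (ρ : ℂ) * Complex.exp ((θ : ℂ) * Complex.I)).re = c + ρ * Real.cos θ ∧
    ((c : ℂ) + (ρ : ℂ) * Complex.exp ((θ : ℂ) * Complex.I)).im = ρ * Real.sin θ ∧
    ((c : ℂ) - (ρ : ℂ) * Complex.exp ((θ : ℂ) * Complex.I)).re = c - ρ * Real.cos θ ∧
    ((c : ℂ) - (ρ : ℂ) * Complex.exp ((θ : ℂ) * Complex.I)).im = - (ρ * Real.sin θ) := by
  have h1 := Complex.exp_ofReal_mul_I_re θ
  have h2 := Complex.exp_ofReal_mul_I_im θ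
  refine ⟨?_, ?_, ?_, ?_⟩ <;> simp [Complex.add_re, Complex.mul_re, h1, h2]

section
variable {m : ℕ} (i : Fin m) (θ : ℝ)

lemma W_inv_ne : i.succ ≠ i.castSucc := by
  intro h
  have := congrArg Fin.val h
  simp at this

lemma W_inv_ρ : 0 < (W_inv_rr m i.succ - W_inv_rr m i.castSucc) / 2 := by
  have := W_inv_rr_mono m (Fin.castSucc_lt_succ (i := i))
  linarith

lemma W_inv_c : (W_inv_rr m i.succ - W_inv_rr m i.castSucc) / 2 ≤
    (W_inv_rr m i.castSucc + W_inv_rr m i.succ) / 2 := by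
  have := W_inv_rr_nonneg m i.castSucc
  linarith

lemma W_inv_B_norm (k : Fin (m + 1)) :
    W_inv_lo i k ≤ ‖W_inv_B i θ k‖ ∧ ‖W_inv_B i θ k‖ ≤ W_inv_hi i k := by
  obtain ⟨⟨h1, h2⟩, h3, h4⟩ := W_inv_circ _ _ θ (W_inv_ρ i).le (W_inv_c i)
  unfold W_inv_lo W_inv_hi W_inv_B
  by_cases ha : k = i.castSucc
  · rw [if_pos (Or.inl ha), if_pos (Or.inl ha), if_pos ha]
    constructor
    · linarith
    · linarith
  · by_cases hb : k = i.succ
    · rw [if_pos (Or.inr hb), if_pos (Or.inr hb), if_neg ha, if_pos hb]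
      constructor
      · linarith
      · linarith
    · have hor : ¬ (k = i.castSucc ∨ k = i.succ) := by tauto
      simp only [if_neg hor, if_neg ha, if_neg hb]
      rw [Complex.norm_real, Real.norm_eq_abs, abs_of_nonneg (W_inv_rr_nonneg m k)]
      exact ⟨le_rfl, le_rfl⟩

lemma W_inv_B_re (k : Fin (m + 1)) :
    W_inv_lo i k ≤ (W_inv_B i θ k).re ∧ (W_inv_B i θ k).re ≤ W_inv_hi i k := by
  obtain ⟨h1, -, h3, -⟩ := W_inv_re ((W_inv_rr m i.castSucc + W_inv_rr m i.succ) / 2)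
    ((W_inv_rr m i.succ - W_inv_rr m i.castSucc) / 2) θ
  have hρ := W_inv_ρ i
  have hc1 := Real.cos_le_one θ
  have hc2 := Real.neg_one_le_cos θ
  unfold W_inv_lo W_inv_hi W_inv_B
  by_cases ha : k = i.castSucc
  · rw [if_pos (Or.inl ha), if_pos (Or.inl ha), if_pos ha, h3]
    constructor
    · nlinarith
    · nlinarith
  · by_cases hb : k = i.succ
    · rw [if_pos (Or.inr hb), if_pos (Or.inr hb), if_neg ha, if_pos hb, h1]
      constructor
      · nlinarith
      · nlinarith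
    · have hor : ¬ (k = i.castSucc ∨ k = i.succ) := by tauto
      simp only [if_neg hor, if_neg ha, if_neg hb, Complex.ofReal_re]
      exact ⟨le_rfl, le_rfl⟩

lemma W_inv_B_i : (W_inv_B i θ i.castSucc) =
    (((W_inv_rr m i.castSucc + W_inv_rr m i.succ) / 2 : ℝ) : ℂ) -
      (((W_inv_rr m i.succ - W_inv_rr m i.castSucc) / 2 : ℝ) : ℂ) *
        Complex.exp ((θ : ℂ) * Complex.I) := by
  unfold W_inv_B
  rw [if_pos rfl]

lemma W_inv_B_i1 : (W_inv_B i θ i.succ) =
    (((W_inv_rr m i.castSucc + W_inv_rr m i.succ) / 2 : ℝ) : ℂ) +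
      (((W_inv_rr m i.succ - W_inv_rr m i.castSucc) / 2 : ℝ) : ℂ) *
        Complex.exp ((θ : ℂ) * Complex.I) := by
  unfold W_inv_B
  rw [if_neg (W_inv_ne i), if_pos rfl]

lemma W_inv_B_cham (h : 0 < Real.cos θ) : W_inv_B i θ ∈ Cham m := by
  intro p q hpq
  by_cases hp : p = i.castSucc ∧ q = i.succ
  · obtain ⟨rfl, rfl⟩ := hp
    rw [W_inv_B_i, W_inv_B_i1]
    obtain ⟨h1, -, h3, -⟩ := W_inv_re ((W_inv_rr m i.castSucc + W_inv_rr m i.succ) / 2)
      ((W_inv_rr m i.succ - W_inv_rr m i.castSucc) / 2) θ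
    rw [h1, h3]
    have hρ := W_inv_ρ i
    have := mul_pos hρ h
    linarith
  · exact ((W_inv_B_re i θ p).2.trans_lt (W_inv_hilo i p q hpq hp)).trans_le (W_inv_B_re i θ q).1

lemma W_inv_B_KP (h : 0 < Real.sin θ) : W_inv_B i θ ∈ KP m i := by
  refine ⟨?_, ?_⟩
  · rw [W_inv_B_i, W_inv_B_i1]
    obtain ⟨-, h1, -, h3⟩ := W_inv_re ((W_inv_rr m i.castSucc + W_inv_rr m i.succ) / 2)
      ((W_inv_rr m i.succ - W_inv_rr m i.castSucc) / 2) θ
    rw [h1, h3]
    have hρ := W_inv_ρ i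
    have := mul_pos hρ h
    linarith
  · intro p q hpq hp
    exact ((W_inv_B_re i θ p).2.trans_lt (W_inv_hilo i p q hpq hp)).trans_le (W_inv_B_re i θ q).1

lemma W_inv_B_pi (k : Fin (m + 1)) : W_inv_B i (θ + Real.pi) k = W_inv_B i θ (sw i k) := by
  have he : Complex.exp (((θ + Real.pi : ℝ) : ℂ) * Complex.I) =
      - Complex.exp ((θ : ℂ) * Complex.I) := by
    push_cast
    rw [add_mul, Complex.exp_add, Complex.exp_pi_mul_I]
    ring
  by_cases ha : k = i.castSucc
  · subst ha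
    rw [sw, Equiv.swap_apply_left, W_inv_B_i1, W_inv_B_i, he]
    ring
  · by_cases hb : k = i.succ
    · subst hb
      rw [sw, Equiv.swap_apply_right, W_inv_B_i1, W_inv_B_i, he]
      ring
    · rw [sw, Equiv.swap_apply_of_ne_of_ne ha hb]
      unfold W_inv_B
      rw [if_neg ha, if_neg hb, if_neg ha, if_neg hb]

lemma W_inv_B_zero (k : Fin (m + 1)) : W_inv_B i 0 k = (W_inv_rr m k : ℂ) := by
  unfold W_inv_B
  split_ifs with ha hb
  · subst ha
    simp only [Complex.ofReal_zero, zero_mul, Complex.exp_zero]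
    push_cast
    ring
  · subst hb
    simp only [Complex.ofReal_zero, zero_mul, Complex.exp_zero]
    push_cast
    ring
  · rfl

lemma W_inv_B_cont (k : Fin (m + 1)) : Continuous (fun θ => W_inv_B i θ k) := by
  unfold W_inv_B
  split_ifs
  · fun_prop
  · fun_prop
  · fun_prop

end

noncomputable def W_inv_R {m : ℕ} (i j : Fin m) (v : ℝ × ℝ) (k : Fin (m + 1)) : ℂ :=
  W_inv_mul j v.2 k * W_inv_B i v.1 k

lemma W_inv_mul_cont {m : ℕ} (j : Fin m) (k : Fin (m + 1)) :
    Continuous (fun t => W_inv_mul j t k) := by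
  unfold W_inv_mul
  split_ifs
  · fun_prop
  · fun_prop

lemma W_inv_R_cont {m : ℕ} (i j : Fin m) : Continuous (W_inv_R i j) := by
  apply continuous_pi
  intro k
  unfold W_inv_R
  exact ((W_inv_mul_cont j k).comp continuous_snd).mul ((W_inv_B_cont i k).comp continuous_fst)

lemma W_inv_R_conf {m : ℕ} (i j : Fin m) (hij : (i : ℕ) ≠ j + 1) (v : ℝ × ℝ) :
    W_inv_R i j v ∈ Conf m := by
  have key : ∀ p q : Fin (m + 1), p < q → W_inv_R i j v p ≠ W_inv_R i j v q := by
    intro p q hpq he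
    by_cases hp : p = i.castSucc ∧ q = i.succ
    · obtain ⟨rfl, rfl⟩ := hp
      unfold W_inv_R at he
      have hmul : W_inv_mul j v.2 i.succ = W_inv_mul j v.2 i.castSucc := by
        unfold W_inv_mul
        simp only [Fin.val_succ, Fin.val_castSucc]
        by_cases h : (i : ℕ) ≤ j + 1
        · rw [if_pos h, if_pos (by omega)]
        · rw [if_neg h, if_neg (by omega)]
      have hne : W_inv_mul j v.2 i.castSucc ≠ 0 := by
        intro h0
        have := W_inv_mul_norm j v.2 i.castSucc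
        rw [h0, norm_zero] at this
        exact zero_ne_one this
      rw [hmul] at he
      have h2 := mul_left_cancel₀ hne he
      rw [W_inv_B_i, W_inv_B_i1] at h2
      have h3 : (((W_inv_rr m i.succ - W_inv_rr m i.castSucc) / 2 : ℝ) : ℂ) *
        Complex.exp ((v.1 : ℂ) * Complex.I) = 0 := by
        linear_combination (-1 / 2 : ℂ) * h2
      rcases mul_eq_zero.1 h3 with h4 | h4
      · exact (W_inv_ρ i).ne' (by exact_mod_cast h4)
      · exact Complex.exp_ne_zero _ h4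
    · have h1 := congrArg norm he
      unfold W_inv_R at h1
      rw [norm_mul, norm_mul, W_inv_mul_norm, W_inv_mul_norm, one_mul, one_mul] at h1
      have h2 := ((W_inv_B_norm i v.1 p).2.trans_lt (W_inv_hilo i p q hpq hp)).trans_le
        (W_inv_B_norm i v.1 q).1
      exact h2.ne h1
  intro p q he
  rcases lt_trichotomy p q with h | h | h
  · exact absurd he (key p q h)
  · exact h
  · exact absurd he.symm (key q p h)

lemma W_inv_f_UN {m : ℕ} (j : Fin m) (t : ℝ) : W_inv_f j t ∈ UN m := by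
  intro l _
  unfold W_inv_f
  rw [Pi.add_apply]
  by_cases h : l = j
  · subst h
    simp
  · simp [h]

lemma W_inv_f_cont {m : ℕ} (j : Fin m) : Continuous (W_inv_f j) := by
  unfold W_inv_f
  apply continuous_pi
  intro l
  simp only [Pi.add_apply]
  by_cases h : l = j
  · subst h
    simp only [Pi.single_eq_same]
    fun_prop
  · simp only [Pi.single_eq_of_ne h]
    fun_prop

lemma W_inv_f_per {m n : ℕ} (j : Fin m) (t : ℝ) :
    W_inv_f j (t + 2 * Real.pi * (n.factorial : ℝ)) = W_inv_f j t + per m n j := by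
  unfold W_inv_f per
  rw [add_assoc]
  congr 1
  rw [← Pi.single_add]
  congr 1
  push_cast
  ring


lemma W_inv_mul_sw {m : ℕ} (i j : Fin m) (hij : (i : ℕ) ≠ j + 1) (t : ℝ) (k : Fin (m + 1)) :
    W_inv_mul j t (sw i k) = W_inv_mul j t k := by
  have hmul : W_inv_mul j t i.succ = W_inv_mul j t i.castSucc := by
    unfold W_inv_mul
    simp only [Fin.val_succ, Fin.val_castSucc]
    by_cases h : (i : ℕ) ≤ j + 1
    · rw [if_pos h, if_pos (by omega)]
    · rw [if_neg h, if_neg (by omega)]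
  by_cases ha : k = i.castSucc
  · subst ha
    rw [sw, Equiv.swap_apply_left, hmul]
  · by_cases hb : k = i.succ
    · subst hb
      rw [sw, Equiv.swap_apply_right, hmul]
    · rw [sw, Equiv.swap_apply_of_ne_of_ne ha hb]

lemma W_inv_R_zero {m : ℕ} (i j : Fin m) (t : ℝ) : W_inv_R i j (0, t) = nest (W_inv_f j t) := by
  funext k
  rw [W_inv_nest]
  simp only [W_inv_R]
  rw [W_inv_B_zero]

lemma W_inv_R_pi {m : ℕ} (i j : Fin m) (hij : (i : ℕ) ≠ j + 1) (t : ℝ) :
    W_inv_R i j (Real.pi, t) = nest (W_inv_f j t) ∘ sw i := by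
  funext k
  rw [Function.comp_apply, W_inv_nest]
  simp only [W_inv_R]
  rw [W_inv_mul_sw i j hij, ← W_inv_B_zero i, ← W_inv_B_pi, zero_add]

lemma W_inv_R_base {m : ℕ} (i j : Fin m) (θ : ℝ) : W_inv_R i j (θ, 0) = W_inv_B i θ := by
  funext k
  simp only [W_inv_R, W_inv_mul]
  simp

lemma W_inv_R_per {m : ℕ} (i j : Fin m) (v : ℝ × ℝ) :
    W_inv_R i j (v + (0, 2 * Real.pi)) = W_inv_R i j v := by
  funext k
  simp only [W_inv_R, W_inv_mul, Prod.fst_add, Prod.snd_add, add_zero]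
  congr 1
  split_ifs
  · push_cast
    rw [add_mul, Complex.exp_add, Complex.exp_two_pi_mul_I, mul_one]
  · rfl

lemma W_inv_x0 {m : ℕ} (j : Fin m) : W_inv_f j 0 = fun _ : Fin m => (((-1 : ℝ) : ℝ) : ℂ) := by
  unfold W_inv_f
  simp

theorem W_inv (hF : GoodC m n F) (D : Data m n F) (i j : Fin m) (hij : (i : ℕ) ≠ j + 1)
    (a b : Fin n) (hab : a ≠ b) : D.W (D.lam i a) (D.lam i b) j = D.W a b j := by
  classical
  set K : Set (ℝ × ℝ) := (Set.Icc 0 Real.pi) ×ˢ Set.univ with hK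
  have hπ := Real.pi_pos
  have hKc : Convex ℝ K := (convex_Icc _ _).prod convex_univ
  have hRc : ∀ v, W_inv_R i j v ∈ Conf m := fun v => W_inv_R_conf i j hij v
  have hsq : ∀ v ∈ K, Squarefree (mpoly n (F (W_inv_R i j v))) := fun v _ => hF.sqf _ (hRc v)
  have hcont : ContinuousOn (fun v => F (W_inv_R i j v)) K :=
    hF.holo.comp (W_inv_R_cont i j).continuousOn (fun v _ => hRc v)
  obtain ⟨N, hN, hNL⟩ := lab_lift hKc hcont hsq
  have hmem : ∀ θ t : ℝ, θ ∈ Set.Icc 0 Real.pi → (θ, t) ∈ K := fun θ t h => ⟨h, Set.mem_univ _⟩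
  have h0mem : ∀ t : ℝ, ((0 : ℝ), t) ∈ K := fun t => hmem 0 t ⟨le_rfl, hπ.le⟩
  have hpmem : ∀ t : ℝ, (Real.pi, t) ∈ K := fun t => hmem _ t ⟨hπ.le, le_rfl⟩
  have hM0c : ∀ a, ContinuousOn (fun t : ℝ => D.M a (W_inv_f j t)) Set.univ := fun a =>
    (D.M_cont a).comp (W_inv_f_cont j).continuousOn (fun t _ => W_inv_f_UN j t)
  have hM0L : ∀ t ∈ (Set.univ : Set ℝ), Lab (F (nest (W_inv_f j t)))
      (fun a => D.M a (W_inv_f j t)) := fun t _ => D.M_lab _ (W_inv_f_UN j t)
  have hsM : ∀ t ∈ (Set.univ : Set ℝ), Squarefree (mpoly n (F (nest (W_inv_f j t)))) :=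
    fun t _ => hF.sqf _ (nest_conf (W_inv_f_UN j t))
  have hFpi : ∀ t, F (W_inv_R i j (Real.pi, t)) = F (nest (W_inv_f j t)) := by
    intro t
    rw [W_inv_R_pi i j hij, hF.symm _ (nest_conf (W_inv_f_UN j t))]
  obtain ⟨σ0, hσ0⟩ := lab_uniq (V := ℝ) (K := Set.univ) isPreconnected_univ hsM
    (M := fun a t => D.M a (W_inv_f j t)) (M' := fun a t => N a (0, t)) hM0c
    (fun a => (hN a).comp (by fun_prop) (fun t _ => h0mem t)) hM0L
    (fun t _ => by
      have := hNL (0, t) (h0mem t)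
      rw [W_inv_R_zero] at this
      exact this)
  obtain ⟨σ1, hσ1⟩ := lab_uniq (V := ℝ) (K := Set.univ) isPreconnected_univ hsM
    (M := fun a t => D.M a (W_inv_f j t)) (M' := fun a t => N a (Real.pi, t)) hM0c
    (fun a => (hN a).comp (by fun_prop) (fun t _ => hpmem t)) hM0L
    (fun t _ => by
      have := hNL (Real.pi, t) (hpmem t)
      rw [hFpi] at this
      exact this)
  -- the base path
  have hBL : ∀ θ ∈ Set.Icc 0 Real.pi, Lab (F (W_inv_B i θ)) (fun a => N a (θ, 0)) := by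
    intro θ hθ
    have := hNL (θ, 0) (hmem θ 0 hθ)
    rw [W_inv_R_base] at this
    exact this
  have hBs : ∀ θ : ℝ, Squarefree (mpoly n (F (W_inv_B i θ))) := by
    intro θ
    have := hF.sqf _ (hRc (θ, 0))
    rwa [W_inv_R_base] at this
  have hNc : ∀ S : Set ℝ, S ⊆ Set.Icc 0 Real.pi → ∀ a, ContinuousOn (fun θ : ℝ => N a (θ, 0)) S :=
    fun S hS a => (hN a).comp (by fun_prop) (fun θ hθ => hmem θ 0 (hS hθ))
  have hBc : Continuous (W_inv_B i) := continuous_pi (fun k => W_inv_B_cont i k)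
  -- base point values
  have hx0 : (fun l : Fin m => ((((fun _ => -1 : Fin m → ℝ) l) : ℝ) : ℂ)) ∈ UN m := by
    have := W_inv_f_UN j 0
    rwa [W_inv_x0] at this
  have hMx : ∀ a, D.M a (W_inv_f j 0) = D.μ a (nest (W_inv_f j 0)) := by
    intro a
    rw [W_inv_x0]
    exact D.M_eq (fun _ => -1) hx0 a
  have hB0 : W_inv_B i 0 = nest (W_inv_f j 0) := by
    rw [← W_inv_R_base i j, W_inv_R_zero]
  -- (a)
  have ha : ∀ θ ∈ Set.Ico 0 (Real.pi / 2), ∀ c, N c (θ, 0) = D.μ (σ0 c) (W_inv_B i θ) := by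
    have hcos : ∀ θ ∈ Set.Ico 0 (Real.pi / 2), 0 < Real.cos θ := fun θ hθ =>
      Real.cos_pos_of_mem_Ioo ⟨by linarith [hθ.1], hθ.2⟩
    have hsub : Set.Ico 0 (Real.pi / 2) ⊆ Set.Icc 0 Real.pi := fun θ hθ =>
      ⟨hθ.1, by linarith [hθ.2]⟩
    obtain ⟨σ, hσ⟩ := lab_uniq (V := ℝ) (K := Set.Ico 0 (Real.pi / 2)) isPreconnected_Ico
      (φ := fun θ => F (W_inv_B i θ)) (fun θ _ => hBs θ)
      (M := fun a θ => N a (θ, 0)) (M' := fun a θ => D.μ a (W_inv_B i θ))
      (hNc _ hsub) (fun a => (D.μ_cont a).comp hBc.continuousOn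
        (fun θ hθ => W_inv_B_cham i θ (hcos θ hθ)))
      (fun θ hθ => hBL θ (hsub hθ)) (fun θ hθ => D.μ_lab _ (W_inv_B_cham i θ (hcos θ hθ)))
    have h0 : (0 : ℝ) ∈ Set.Ico 0 (Real.pi / 2) := ⟨le_rfl, by positivity⟩
    have hinj : Function.Injective (fun a => N a (0, 0)) := lab_inj (hBL 0 (hsub h0)) (hBs 0)
    intro θ hθ c
    have h1 : N c (0, 0) = N (σ (σ0 c)) (0, 0) := by
      have e1 := hσ0 0 (Set.mem_univ _) c
      have e2 := hσ 0 h0 (σ0 c)
      rw [← e2, e1, hMx, hB0]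
    have h2 : c = σ (σ0 c) := hinj h1
    have h3 := hσ θ hθ (σ0 c)
    rw [h3, ← h2]
  have hb : ∀ θ ∈ Set.Ioo 0 Real.pi, ∀ c, N c (θ, 0) = D.T i (σ0 c) (W_inv_B i θ) := by
    have hsin : ∀ θ ∈ Set.Ioo 0 Real.pi, 0 < Real.sin θ := fun θ hθ =>
      Real.sin_pos_of_mem_Ioo hθ
    have hsub : Set.Ioo 0 Real.pi ⊆ Set.Icc 0 Real.pi := Set.Ioo_subset_Icc_self
    obtain ⟨σ, hσ⟩ := lab_uniq (V := ℝ) (K := Set.Ioo 0 Real.pi) isPreconnected_Ioo
      (φ := fun θ => F (W_inv_B i θ)) (fun θ _ => hBs θ)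
      (M := fun a θ => N a (θ, 0)) (M' := fun a θ => D.T i a (W_inv_B i θ))
      (hNc _ hsub) (fun a => (D.T_cont i a).comp hBc.continuousOn
        (fun θ hθ => W_inv_B_KP i θ (hsin θ hθ)))
      (fun θ hθ => hBL θ (hsub hθ)) (fun θ hθ => D.T_lab i _ (W_inv_B_KP i θ (hsin θ hθ)))
    have h0 : (Real.pi / 4 : ℝ) ∈ Set.Ioo 0 Real.pi := ⟨by positivity, by linarith⟩
    have h0' : (Real.pi / 4 : ℝ) ∈ Set.Ico 0 (Real.pi / 2) := ⟨by positivity, by linarith⟩
    have hcos : 0 < Real.cos (Real.pi / 4) := Real.cos_pos_of_mem_Ioo ⟨by linarith, by linarith⟩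
    have hinj : Function.Injective (fun a => N a (Real.pi / 4, 0)) :=
      lab_inj (hBL _ (hsub h0)) (hBs _)
    intro θ hθ c
    have h1 : N c (Real.pi / 4, 0) = N (σ (σ0 c)) (Real.pi / 4, 0) := by
      have e1 := ha _ h0' c
      have e2 := hσ _ h0 (σ0 c)
      rw [← e2, e1]
      exact (D.T_eq i _ (W_inv_B_KP i _ (hsin _ h0)) (W_inv_B_cham i _ hcos) _).symm
    have h2 : c = σ (σ0 c) := hinj h1
    have h3 := hσ θ hθ (σ0 c)
    rw [h3, ← h2]
  have hswB : ∀ θ : ℝ, W_inv_B i θ ∘ sw i = W_inv_B i (θ + Real.pi) := by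
    intro θ
    funext k
    rw [W_inv_B_pi, Function.comp_apply]
  have hc : ∀ θ ∈ Set.Ioc (Real.pi / 2) Real.pi, ∀ c,
      N c (θ, 0) = D.μ (D.lam i (σ0 c)) (W_inv_B i θ ∘ sw i) := by
    have hcos : ∀ θ ∈ Set.Ioc (Real.pi / 2) Real.pi, W_inv_B i θ ∘ sw i ∈ Cham m := by
      intro θ hθ
      rw [hswB]
      apply W_inv_B_cham
      rw [Real.cos_add_pi]
      have := Real.cos_neg_of_pi_div_two_lt_of_lt hθ.1 (by linarith [hθ.2])
      linarith
    have hsub : Set.Ioc (Real.pi / 2) Real.pi ⊆ Set.Icc 0 Real.pi := fun θ hθ =>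
      ⟨by linarith [hθ.1], hθ.2⟩
    have hBsw : Continuous (fun θ => W_inv_B i θ ∘ sw i) :=
      continuous_pi (fun k => W_inv_B_cont i (sw i k))
    have hFsw : ∀ θ, F (W_inv_B i θ ∘ sw i) = F (W_inv_B i θ) := by
      intro θ
      apply hF.symm
      have := hRc (θ, 0)
      rwa [W_inv_R_base] at this
    obtain ⟨σ, hσ⟩ := lab_uniq (V := ℝ) (K := Set.Ioc (Real.pi / 2) Real.pi) isPreconnected_Ioc
      (φ := fun θ => F (W_inv_B i θ)) (fun θ _ => hBs θ)
      (M := fun a θ => N a (θ, 0)) (M' := fun a θ => D.μ a (W_inv_B i θ ∘ sw i))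
      (hNc _ hsub) (fun a => (D.μ_cont a).comp hBsw.continuousOn
        (fun θ hθ => hcos θ hθ))
      (fun θ hθ => hBL θ (hsub hθ)) (fun θ hθ => by
        have := D.μ_lab _ (hcos θ hθ)
        rw [hFsw] at this
        exact this)
    have h0 : (3 * Real.pi / 4 : ℝ) ∈ Set.Ioo 0 Real.pi := ⟨by positivity, by linarith⟩
    have h0' : (3 * Real.pi / 4 : ℝ) ∈ Set.Ioc (Real.pi / 2) Real.pi :=
      ⟨by linarith, by linarith⟩
    have hinj : Function.Injective (fun a => N a (3 * Real.pi / 4, 0)) :=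
      lab_inj (hBL _ (hsub h0')) (hBs _)
    intro θ hθ c
    have h1 : N c (3 * Real.pi / 4, 0) = N (σ (D.lam i (σ0 c))) (3 * Real.pi / 4, 0) := by
      have e1 := hb _ h0 c
      have e2 := hσ _ h0' (D.lam i (σ0 c))
      rw [← e2, e1]
      exact D.T_sw i _ (W_inv_B_KP i _ (Real.sin_pos_of_mem_Ioo h0)) (hcos _ h0') _
    have h2 : c = σ (D.lam i (σ0 c)) := hinj h1
    have h3 := hσ θ hθ (D.lam i (σ0 c))
    rw [h3, ← h2]
  have hσ : ∀ c, σ1 c = D.lam i (σ0 c) := by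
    intro c
    have hπm : Real.pi ∈ Set.Ioc (Real.pi / 2) Real.pi := ⟨by linarith, le_rfl⟩
    have e1 := hc Real.pi hπm c
    have e2 := hσ1 0 (Set.mem_univ _) c
    have hsw : W_inv_B i Real.pi ∘ sw i = nest (W_inv_f j 0) := by
      rw [← hB0]
      funext k
      rw [Function.comp_apply]
      have := W_inv_B_pi i 0 (sw i k)
      rw [zero_add] at this
      rw [this]
      congr 1
      simp [sw]
    have hinj : Function.Injective (fun a => D.M a (W_inv_f j 0)) :=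
      lab_inj (hM0L 0 (Set.mem_univ _)) (hsM 0 (Set.mem_univ _))
    apply hinj
    show D.M (σ1 c) (W_inv_f j 0) = D.M (D.lam i (σ0 c)) (W_inv_f j 0)
    rw [← e2, e1, hMx, hsw]
  -- periodicity
  obtain ⟨π, hπp⟩ := lab_uniq (V := ℝ × ℝ) (K := K) hKc.isPreconnected hsq
    (M := N) (M' := fun a v => N a (v + (0, 2 * Real.pi))) hN
    (fun a => (hN a).comp (by fun_prop) (fun v hv => by
      refine ⟨?_, Set.mem_univ _⟩
      have := hv.1
      simpa using this)) hNL
    (fun v hv => by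
      have := hNL (v + (0, 2 * Real.pi)) (by
        refine ⟨?_, Set.mem_univ _⟩
        have := hv.1
        simpa using this)
      rw [W_inv_R_per] at this
      exact this)
  have hKadd : ∀ v ∈ K, ∀ x : ℝ, v + (0, x) ∈ K := by
    intro v hv x
    refine ⟨?_, Set.mem_univ _⟩
    have := hv.1
    simpa using this
  have hiter : ∀ k : ℕ, ∀ v ∈ K, ∀ c, N c (v + (0, 2 * Real.pi * (k : ℝ))) = N ((π ^ k) c) v := by
    intro k
    induction k with
    | zero =>
      intro v hv c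
      have h00 : ((0 : ℝ), 2 * Real.pi * ((0 : ℕ) : ℝ)) = 0 := by
        rw [Nat.cast_zero, mul_zero]; rfl
      rw [h00, add_zero, pow_zero, Equiv.Perm.one_apply]
    | succ k ih =>
      intro v hv c
      have e : v + (0, 2 * Real.pi * ((k + 1 : ℕ) : ℝ)) =
          (v + (0, 2 * Real.pi * (k : ℝ))) + (0, 2 * Real.pi) := by
        rw [add_assoc]
        congr 1
        ext
        · simp
        · simp; ring
      rw [e]
      have h1 := hπp (v + (0, 2 * Real.pi * (k : ℝ))) (hKadd v hv _) c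
      rw [h1, ih v hv, pow_succ, Equiv.Perm.mul_apply]
  have hperm : π ^ n.factorial = 1 := by
    have := pow_card_eq_one (x := π)
    rwa [Fintype.card_perm, Fintype.card_fin] at this
  have hper : ∀ v ∈ K, ∀ c, N c (v + (0, 2 * Real.pi * (n.factorial : ℝ))) = N c v := by
    intro v hv c
    rw [hiter _ v hv c, hperm, Equiv.Perm.one_apply]
  -- winding numbers
  set a' := σ0.symm a with ha'
  set b' := σ0.symm b with hb'
  have hab' : a' ≠ b' := fun h => hab (σ0.symm.injective h)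
  obtain ⟨w, hw⟩ := Wd.exists hKc (g := fun v => N a' v - N b' v)
    (p := (0, 2 * Real.pi * (n.factorial : ℝ))) (fun v hv => hKadd v hv _)
    ((hN a').sub (hN b'))
    (fun v hv h => hab' (lab_inj (hNL v hv) (hsq v hv) (sub_eq_zero.1 h)))
    (fun v hv => by simp only [hper v hv])
  have hwM : ∀ c d, c ≠ d → Wd (Set.univ : Set ℝ)
      (fun t => D.M c (W_inv_f j t) - D.M d (W_inv_f j t)) (2 * Real.pi * (n.factorial : ℝ))
      (D.W c d j) := by
    intro c d hcd
    exact Wd.comp (D.W_wd c d hcd j) (W_inv_f_cont j).continuousOn (fun t _ => W_inv_f_UN j t)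
      (fun t _ => W_inv_f_per j t)
  have hw0 : Wd (Set.univ : Set ℝ) (fun t : ℝ => N a' (0, t) - N b' (0, t))
      (2 * Real.pi * (n.factorial : ℝ)) w :=
    Wd.comp hw (f := fun t : ℝ => ((0 : ℝ), t)) (by fun_prop) (fun t _ => h0mem t)
      (fun t _ => by simp)
  have hw1 : Wd (Set.univ : Set ℝ) (fun t : ℝ => N a' (Real.pi, t) - N b' (Real.pi, t))
      (2 * Real.pi * (n.factorial : ℝ)) w :=
    Wd.comp hw (f := fun t : ℝ => (Real.pi, t)) (by fun_prop) (fun t _ => hpmem t)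
      (fun t _ => by simp)
  have e0 : w = D.W a b j := by
    have h1 := hwM a b hab
    have h2 := Wd.congr hw0 (g' := fun t => D.M a (W_inv_f j t) - D.M b (W_inv_f j t))
      (fun t ht => by
        have q1 := hσ0 t ht a'
        have q2 := hσ0 t ht b'
        simp only [ha', hb', Equiv.apply_symm_apply] at q1 q2
        rw [← q1, ← q2])
    exact Wd.unique isPreconnected_univ Set.univ_nonempty (fun _ _ => Set.mem_univ _) h2 h1
  have e1 : w = D.W (D.lam i a) (D.lam i b) j := by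
    have h1 := hwM (D.lam i a) (D.lam i b) (fun h => hab ((D.lam i).injective h))
    have h2 := Wd.congr hw1 (g' := fun t => D.M (D.lam i a) (W_inv_f j t) -
        D.M (D.lam i b) (W_inv_f j t))
      (fun t ht => by
        have q1 := hσ1 t ht a'
        have q2 := hσ1 t ht b'
        simp only [hσ, ha', hb', Equiv.apply_symm_apply] at q1 q2
        rw [← q1, ← q2])
    exact Wd.unique isPreconnected_univ Set.univ_nonempty (fun _ _ => Set.mem_univ _) h2 h1
  rw [← e0, ← e1]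

end LinC
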