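import Pool.Agent.Helper996.LinC.Base
import Pool.Agent.Helper996.Lin.Defs
import Pool.Agent.Helper996.Lin.Defs4
import Pool.Agent.Helper996.Lin.J_lab_basic
import Pool.Agent.Helper996.Lin.J_lab_lift
import Pool.Agent.Helper996.Lin.J_wd_basic
import Pool.Agent.Helper996.Lin.J_charts

set_option autoImplicit false

open Polynomial Set Filter Topology LinS

namespace LinC

variable {m n : ℕ} {F : (Fin (m + 1) → ℂ) → Fin n → ℂ}

/-- base point -/
noncomputable def base_loop_z (m : ℕ) (j : Fin m) : ℝ := if (j : ℕ) + 1 < m then -1 else 0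

/-- the loop in the chart -/
noncomputable def base_loop_f (m : ℕ) (hm : 0 < m) (θ : ℝ) (j : Fin m) : ℂ :=
  (base_loop_z m j : ℂ) + if j = ⟨0, hm⟩ then (θ : ℂ) * Complex.I else 0

theorem base_loop_z_UN (m : ℕ) : (fun j => (base_loop_z m j : ℂ)) ∈ UN m := by
  intro j hj
  simp only [base_loop_z]
  rw [if_pos hj]
  simp

theorem base_loop_f_UN (m : ℕ) (hm : 0 < m) (θ : ℝ) : base_loop_f m hm θ ∈ UN m := by
  intro j hj
  simp only [base_loop_f, base_loop_z]
  rw [if_pos hj]
  split_ifs <;> simp

theorem base_loop_f_cont (m : ℕ) (hm : 0 < m) : Continuous (base_loop_f m hm) := by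
  apply continuous_pi
  intro j
  unfold base_loop_f
  by_cases h : j = ⟨0, hm⟩
  · simp only [h, if_true]
    fun_prop
  · simp only [h, if_false]
    fun_prop

theorem base_loop_f_per (m n : ℕ) (hm : 0 < m) (θ : ℝ) :
    base_loop_f m hm (θ + 2 * Real.pi * n.factorial) = base_loop_f m hm θ + per m n ⟨0, hm⟩ := by
  funext j
  rw [Pi.add_apply]
  unfold base_loop_f per
  by_cases h : j = ⟨0, hm⟩
  · rw [if_pos h, if_pos h, h, Pi.single_eq_same]
    push_cast
    ring
  · rw [if_neg h, if_neg h, Pi.single_eq_of_ne h, add_zero, add_zero]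

theorem base_loop_nest (m : ℕ) (hm : 0 < m) (θ : ℝ) :
    nest (base_loop_f m hm θ) = ploop (nest fun j => (base_loop_z m j : ℂ))
      (Real.exp (∑ j, base_loop_z m j)) θ := by
  funext p
  refine Fin.cases ?_ (fun i => ?_) p
  · simp [nest, ploop]
  · have h1 : nest (base_loop_f m hm θ) i.succ =
        Complex.exp (∑ j ∈ Finset.Ici i, base_loop_f m hm θ j) := by
      simp [nest]
    rw [h1]
    unfold base_loop_f
    rw [Finset.sum_add_distrib, Finset.sum_ite_eq']
    unfold ploop
    by_cases hi : (i : ℕ) = 0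
    · have hi' : i = ⟨0, hm⟩ := Fin.ext hi
      have hIci : Finset.Ici i = Finset.univ := by
        ext j
        rw [hi']
        simp only [Finset.mem_Ici, Finset.mem_univ, iff_true]
        exact Fin.mk_le_of_le_val (Nat.zero_le _)
      rw [if_pos (by rw [hi']; simp), if_pos (by simp [hi])]
      rw [hIci, Complex.exp_add]
      simp [nest]
    · rw [if_neg (by
        rw [Finset.mem_Ici]
        intro h
        have : (i : ℕ) ≤ 0 := h
        omega), if_neg (by simp [hi])]
      simp [nest]

theorem base_loop_lt (m : ℕ) (i : Fin m) (hi : 0 < (i : ℕ)) :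
    ∑ j, base_loop_z m j < ∑ j ∈ Finset.Ici i, base_loop_z m j := by
  have hm : 0 < m := by have := i.2; omega
  have h := Finset.sum_lt_sum_of_subset (f := fun j => -base_loop_z m j)
    (Finset.subset_univ (Finset.Ici i)) (Finset.mem_univ (⟨0, hm⟩ : Fin m)) (by
      rw [Finset.mem_Ici]
      intro h
      have : (i : ℕ) ≤ 0 := h
      omega) (by
      unfold base_loop_z
      rw [if_pos (by have := i.2; simp only; omega)]
      norm_num) (by
      intro j _ _
      unfold base_loop_z
      split_ifs <;> norm_num)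
  simp only [Finset.sum_neg_distrib] at h
  linarith

theorem base_loop_nest_succ (m : ℕ) (i : Fin m) :
    (nest fun j => (base_loop_z m j : ℂ)) i.succ =
      ((Real.exp (∑ j ∈ Finset.Ici i, base_loop_z m j) : ℝ) : ℂ) := by
  simp [nest]

theorem base_loop_adm (m : ℕ) : Adm (nest fun j => (base_loop_z m j : ℂ))
    (Real.exp (∑ j, base_loop_z m j)) := by
  refine ⟨Real.exp_pos _, ?_, ?_⟩
  · intro p q _ _ hpq h
    exact hpq (nest_conf (base_loop_z_UN m) h)
  · intro p hp0 hp1
    have h0 : (nest fun j => (base_loop_z m j : ℂ)) 0 = 0 := by simp [nest]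
    rw [h0, sub_zero]
    obtain ⟨i, rfl⟩ := Fin.exists_succ_eq.2 (show p ≠ 0 from fun h => hp0 (by rw [h]; rfl))
    rw [base_loop_nest_succ, Complex.norm_real, Real.norm_of_nonneg (Real.exp_pos _).le]
    apply Real.exp_lt_exp.2
    apply base_loop_lt
    rw [Fin.val_succ] at hp1
    omega

/-- the pair winding of the data is the winding along a pair loop -/
theorem base_loop (hF : GoodC m n F) (D : Data m n F) (hm : 0 < m) :
    ∃ (r : Fin (m + 1) → ℂ) (ε : ℝ) (X : Fin n → ℝ → ℂ), Adm r ε ∧ (∀ a, Continuous (X a)) ∧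
      (∀ θ, Lab (F (ploop r ε θ)) (fun a => X a θ)) ∧
      ∀ a b, a ≠ b →
        Wd univ (fun θ => X a θ - X b θ) (2 * Real.pi * n.factorial) (D.W a b ⟨0, hm⟩) := by
  refine ⟨nest fun j => (base_loop_z m j : ℂ), Real.exp (∑ j, base_loop_z m j),
    fun a θ => D.M a (base_loop_f m hm θ), base_loop_adm m, ?_, ?_, ?_⟩
  · intro a
    rw [← continuousOn_univ]
    exact (D.M_cont a).comp (base_loop_f_cont m hm).continuousOn
      (fun θ _ => base_loop_f_UN m hm θ)
  · intro θ
    rw [← base_loop_nest m hm θ]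
    exact D.M_lab _ (base_loop_f_UN m hm θ)
  · intro a b hab
    exact Wd.comp (D.W_wd a b hab ⟨0, hm⟩) (f := base_loop_f m hm)
      (base_loop_f_cont m hm).continuousOn (fun θ _ => base_loop_f_UN m hm θ)
      (fun θ _ => base_loop_f_per m n hm θ)

end LinC
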