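import Pool.Agent.Helper996.LinC.Base
import Pool.Agent.Helper996.Lin.Defs
import Pool.Agent.Helper996.Lin.Defs4
import Pool.Agent.Helper996.Lin.Defs6
import Pool.Agent.Helper996.Lin.J_lab_basic
import Pool.Agent.Helper996.Lin.J_lab_lift
import Pool.Agent.Helper996.Lin.J_charts

set_option autoImplicit false

open Polynomial Set Filter Topology LinS

namespace LinC

variable {m n : ℕ} {F : (Fin (m + 1) → ℂ) → Fin n → ℂ}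

theorem crossL_perm {n : ℕ} {z M : Fin n → ℂ} (h : Lab z M) (g : Equiv.Perm (Fin n)) :
    Lab z (fun a => M (g a)) := by
  unfold Lab at h ⊢
  rw [h]
  exact (Equiv.prod_comp g (fun a => (Polynomial.X - Polynomial.C (M a) : ℂ[X]))).symm

theorem crossL_ext (hF : GoodC m n F) {Ω : Set (Fin (m + 1) → ℂ)}
    (hΩ : Convex ℝ Ω) (hc : ∀ r ∈ Ω, r ∈ Conf m) {X : Fin n → (Fin (m + 1) → ℂ) → ℂ}
    (hX : ∀ a, ContinuousOn (X a) Ω) (hL : ∀ r ∈ Ω, Lab (F r) (fun a => X a r))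
    {S : Set (Fin (m + 1) → ℂ)} (hS : Convex ℝ S) {Y : Fin n → (Fin (m + 1) → ℂ) → ℂ}
    (hY : ∀ a, ContinuousOn (Y a) S) (hYL : ∀ r ∈ S, Lab (F r) (fun a => Y a r))
    (ρ : Equiv.Perm (Fin (m + 1))) (g : Equiv.Perm (Fin n))
    (h0 : ∃ r ∈ Ω, r ∘ ρ ∈ S ∧ ∀ a, X a r = Y (g a) (r ∘ ρ)) :
    ∀ r ∈ Ω, r ∘ ρ ∈ S → ∀ a, X a r = Y (g a) (r ∘ ρ) := by
  have hA : Convex ℝ (Ω ∩ (fun r : Fin (m + 1) → ℂ => r ∘ ρ) ⁻¹' S) :=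
    hΩ.inter (hS.linear_preimage (LinearMap.funLeft ℝ ℂ ρ))
  have hcont : Continuous (fun r : Fin (m + 1) → ℂ => r ∘ ρ) := by
    refine continuous_pi fun k => ?_
    exact continuous_apply _
  obtain ⟨τ, hτ⟩ := lab_uniq hA.isPreconnected (φ := F) (fun v hv => hF.sqf v (hc v hv.1))
    (M := X) (M' := fun a r => Y (g a) (r ∘ ρ)) (fun a => (hX a).mono inter_subset_left)
    (fun a => (hY (g a)).comp hcont.continuousOn fun r hr => hr.2) (fun v hv => hL v hv.1)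
    (fun v hv => by
      have h1 := crossL_perm (hYL _ hv.2) g
      have h2 : F (v ∘ ρ) = F v := hF.symm v (hc v hv.1) ρ
      rw [← h2]
      exact h1)
  obtain ⟨r0, hr0, hr0S, hag⟩ := h0
  have hτ1 : ∀ a, τ a = a := by
    intro a
    have h1 := hτ r0 ⟨hr0, hr0S⟩ a
    rw [← hag a] at h1
    exact (lab_inj (hL r0 hr0) (hF.sqf r0 (hc r0 hr0)) h1).symm
  intro r hr hrS a
  have h1 := hτ r ⟨hr, hrS⟩ a
  rw [hτ1] at h1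
  exact h1.symm

theorem crossL (hF : GoodC m n F) (D : Data m n F) {Ω : Set (Fin (m + 1) → ℂ)}
    (hΩ : Convex ℝ Ω) (hc : ∀ r ∈ Ω, r ∈ Conf m) {X : Fin n → (Fin (m + 1) → ℂ) → ℂ}
    (hX : ∀ a, ContinuousOn (X a) Ω) (hL : ∀ r ∈ Ω, Lab (F r) (fun a => X a r)) (i : Fin m)
    (π : Equiv.Perm (Fin (m + 1))) (g : Equiv.Perm (Fin n))
    (hs : ∀ r ∈ Ω, r ∘ π ∈ Cham m → ∀ a, X a r = D.μ (g a) (r ∘ π))
    (h1 : ∃ r ∈ Ω, r ∘ π ∈ KP m i ∧ r ∘ π ∈ Cham m)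
    (h2 : ∃ r ∈ Ω, r ∘ π ∈ KP m i ∧ (r ∘ π) ∘ sw i ∈ Cham m) :
    ∀ r ∈ Ω, r ∘ (π * sw i : Equiv.Perm (Fin (m + 1))) ∈ Cham m → ∀ a,
      X a r = D.μ ((D.lam i * g) a) (r ∘ (π * sw i : Equiv.Perm (Fin (m + 1)))) := by
  obtain ⟨r1, hr1, hr1K, hr1C⟩ := h1
  obtain ⟨r2, hr2, hr2K, hr2C⟩ := h2
  have hK := crossL_ext hF hΩ hc hX hL (KP_convex m i) (D.T_cont i) (D.T_lab i) π g
    ⟨r1, hr1, hr1K, fun a => by rw [hs r1 hr1 hr1C a, D.T_eq i _ hr1K hr1C]⟩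
  refine crossL_ext hF hΩ hc hX hL (Cham_convex m) D.μ_cont D.μ_lab (π * sw i) (D.lam i * g)
    ⟨r2, hr2, hr2C, fun a => ?_⟩
  rw [hK r2 hr2 hr2K a, D.T_sw i _ hr2K hr2C]
  rfl

theorem crossR (hF : GoodC m n F) (D : Data m n F) {Ω : Set (Fin (m + 1) → ℂ)}
    (hΩ : Convex ℝ Ω) (hc : ∀ r ∈ Ω, r ∈ Conf m) {X : Fin n → (Fin (m + 1) → ℂ) → ℂ}
    (hX : ∀ a, ContinuousOn (X a) Ω) (hL : ∀ r ∈ Ω, Lab (F r) (fun a => X a r)) (i : Fin m)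
    (π : Equiv.Perm (Fin (m + 1))) (g : Equiv.Perm (Fin n))
    (hs : ∀ r ∈ Ω, r ∘ π ∈ Cham m → ∀ a, X a r = D.μ (g a) (r ∘ π))
    (h1 : ∃ r ∈ Ω, r ∘ (π * sw i : Equiv.Perm (Fin (m + 1))) ∈ KP m i ∧ r ∘ π ∈ Cham m)
    (h2 : ∃ r ∈ Ω, r ∘ (π * sw i : Equiv.Perm (Fin (m + 1))) ∈ KP m i ∧
      r ∘ (π * sw i : Equiv.Perm (Fin (m + 1))) ∈ Cham m) :
    ∀ r ∈ Ω, r ∘ (π * sw i : Equiv.Perm (Fin (m + 1))) ∈ Cham m → ∀ a,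
      X a r = D.μ (((D.lam i)⁻¹ * g) a) (r ∘ (π * sw i : Equiv.Perm (Fin (m + 1)))) := by
  obtain ⟨r1, hr1, hr1K, hr1C⟩ := h1
  obtain ⟨r2, hr2, hr2K, hr2C⟩ := h2
  have hsw : (r1 ∘ (π * sw i : Equiv.Perm (Fin (m + 1)))) ∘ sw i = r1 ∘ π := by
    funext k
    show r1 (π (sw i (sw i k))) = r1 (π k)
    unfold sw
    rw [Equiv.swap_apply_self]
  have hK := crossL_ext hF hΩ hc hX hL (KP_convex m i) (D.T_cont i) (D.T_lab i) (π * sw i)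
    ((D.lam i)⁻¹ * g)
    ⟨r1, hr1, hr1K, fun a => by
      rw [D.T_sw i _ hr1K (by rw [hsw]; exact hr1C), hsw, hs r1 hr1 hr1C a]
      show D.μ (g a) _ = D.μ ((D.lam i) ((D.lam i).symm (g a))) _
      rw [Equiv.apply_symm_apply]⟩
  exact crossL_ext hF hΩ hc hX hL (Cham_convex m) D.μ_cont D.μ_lab (π * sw i)
    ((D.lam i)⁻¹ * g)
    ⟨r2, hr2, hr2C, fun a => by rw [hK r2 hr2 hr2K a, D.T_eq i _ hr2K hr2C]⟩

end LinC
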