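import Pool.Agent.Helper996.LinC.Base
import Pool.Agent.Helper996.Lin.Defs
import Pool.Agent.Helper996.Lin.Defs4
import Pool.Agent.Helper996.Lin.J_lab_basic
import Pool.Agent.Helper996.Lin.J_lab_lift
import Pool.Agent.Helper996.Lin.J_wd_basic
import Pool.Agent.Helper996.Lin.J_charts

set_option autoImplicit false

open Polynomial Set Filter Topology LinS

namespace LinC

variable {m n : ℕ} {F : (Fin (m + 1) → ℂ) → Fin n → ℂ}

theorem psi_conf_aux (hm : 4 ≤ m) {z y : ℂ} (hz0 : z ≠ 0) (hz : ‖z‖ < 1) (hy0 : y ≠ 0)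
    (hy : ‖y‖ < 1) (p q : ℕ) (hp : p ≤ m) (hq : q ≤ m)
    (h : (if p = 1 then z else if p = m then (m : ℂ) - 1 + y else (p : ℂ)) =
      (if q = 1 then z else if q = m then (m : ℂ) - 1 + y else (q : ℂ))) (hpq : p < q) : False := by
  have hmR : (4 : ℝ) ≤ m := by exact_mod_cast hm
  have hzint : ∀ k : ℕ, k ≠ 1 → z ≠ (k : ℂ) := by
    intro k hk hzk
    rw [hzk, Complex.norm_natCast] at hz
    have : k = 0 := by
      have : k < 1 := by exact_mod_cast hz
      omega
    subst this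
    exact hz0 (by simpa using hzk)
  have hyint : ∀ k : ℕ, k < m → (m : ℂ) - 1 + y ≠ (k : ℂ) := by
    intro k hk hyk
    have h1 : y = ((((k : ℤ) + 1 - m) : ℤ) : ℂ) := by
      push_cast
      linear_combination hyk
    rw [h1, Complex.norm_intCast] at hy
    have h2 : |((k : ℤ) + 1 - m)| < 1 := by exact_mod_cast hy
    rw [Int.abs_lt_one_iff] at h2
    apply hy0
    rw [h1, h2]
    simp
  have hzy : z ≠ (m : ℂ) - 1 + y := by
    intro h
    have h1 : ((m : ℝ) : ℂ) - ((1 : ℝ) : ℂ) = z - y := by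
      rw [h]; push_cast; ring
    have h2 : ‖((m : ℝ) : ℂ) - ((1 : ℝ) : ℂ)‖ ≤ ‖z‖ + ‖y‖ := by
      rw [h1]; exact norm_sub_le _ _
    rw [← Complex.ofReal_sub, Complex.norm_real, Real.norm_eq_abs, abs_of_nonneg (by linarith)] at h2
    linarith
  by_cases hp1 : p = 1
  · rw [if_pos hp1] at h
    rw [if_neg (by omega)] at h
    by_cases hqm : q = m
    · rw [if_pos hqm] at h
      exact hzy h
    · rw [if_neg hqm] at h
      exact hzint q (by omega) h
  · rw [if_neg hp1, if_neg (show p ≠ m by omega)] at h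
    by_cases hq1 : q = 1
    · rw [if_pos hq1] at h
      exact hzint p hp1 h.symm
    · rw [if_neg hq1] at h
      by_cases hqm : q = m
      · rw [if_pos hqm] at h
        exact hyint p (by omega) h.symm
      · rw [if_neg hqm] at h
        have : p = q := by exact_mod_cast h
        omega

theorem psi_conf (hm : 4 ≤ m) {x : ℂ × ℂ} (hx : x ∈ P2) : psi m x ∈ Conf m := by
  have h1 : ‖Complex.exp x.1‖ < 1 := by
    rw [Complex.norm_exp]
    exact (Real.exp_lt_exp.2 hx.1).trans_eq Real.exp_zero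
  have h2 : ‖Complex.exp x.2‖ < 1 := by
    rw [Complex.norm_exp]
    exact (Real.exp_lt_exp.2 hx.2).trans_eq Real.exp_zero
  intro p q hpq
  by_contra hne
  have hne' : (p : ℕ) ≠ q := fun h => hne (Fin.ext h)
  rcases lt_or_gt_of_ne hne' with hlt | hlt
  · exact psi_conf_aux hm (Complex.exp_ne_zero _) h1 (Complex.exp_ne_zero _) h2 p q
      (by omega) (by omega) hpq hlt
  · exact psi_conf_aux hm (Complex.exp_ne_zero _) h1 (Complex.exp_ne_zero _) h2 q p
      (by omega) (by omega) hpq.symm hlt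

theorem disj_data_cham (hm : 4 ≤ m) {s t : ℝ} (hs : s < 0) (ht : t < 0) :
    psi m ((s : ℂ), (t : ℂ)) ∈ Cham m := by
  have hmR : (4 : ℝ) ≤ m := by exact_mod_cast hm
  have e1 : Real.exp s < 1 := (Real.exp_lt_exp.2 hs).trans_eq Real.exp_zero
  have e2 : 0 < Real.exp s := Real.exp_pos s
  have e3 : 0 < Real.exp t := Real.exp_pos t
  have hre : ∀ p : Fin (m + 1), (psi m ((s : ℂ), (t : ℂ)) p).re =
      if (p : ℕ) = 1 then Real.exp s else if (p : ℕ) = m then (m : ℝ) - 1 + Real.exp t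
      else ((p : ℕ) : ℝ) := by
    intro p
    unfold psi
    simp only
    split_ifs
    · rw [← Complex.ofReal_exp, Complex.ofReal_re]
    · rw [← Complex.ofReal_exp, Complex.add_re, Complex.sub_re, Complex.natCast_re, Complex.one_re,
        Complex.ofReal_re]
    · simp
  intro p q hpq
  have hpq' : (p : ℕ) < q := hpq
  have hq := q.2
  rw [hre, hre]
  by_cases hp1 : (p : ℕ) = 1
  · rw [if_pos hp1, if_neg (by omega)]
    by_cases hqm : (q : ℕ) = m
    · rw [if_pos hqm]; linarith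
    · rw [if_neg hqm]
      have : (2 : ℝ) ≤ ((q : ℕ) : ℝ) := by exact_mod_cast (by omega : 2 ≤ (q : ℕ))
      linarith
  · rw [if_neg hp1, if_neg (show (p : ℕ) ≠ m by omega)]
    by_cases hq1 : (q : ℕ) = 1
    · rw [if_pos hq1]
      have : (p : ℕ) = 0 := by omega
      rw [this]
      simpa using e2
    · rw [if_neg hq1]
      by_cases hqm : (q : ℕ) = m
      · rw [if_pos hqm]
        have : ((p : ℕ) : ℝ) + 1 ≤ m := by exact_mod_cast (by omega : (p : ℕ) + 1 ≤ m)
        linarith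
      · rw [if_neg hqm]
        exact_mod_cast hpq'

theorem disj_data_cont (m : ℕ) : Continuous (psi m) := by
  apply continuous_pi
  intro p
  unfold psi
  split_ifs <;> fun_prop

theorem disj_data_P2_convex : Convex ℝ P2 := by
  intro x hx y hy a b ha hb hab
  constructor
  · simp only [Prod.fst_add, Prod.smul_fst, Complex.add_re, Complex.smul_re, smul_eq_mul]
    have h1 := hx.1
    have h2 := hy.1
    rcases eq_or_lt_of_le ha with rfl | ha'
    · have : b = 1 := by linarith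
      subst this
      simpa using h2
    · nlinarith [mul_neg_of_pos_of_neg ha' h1, mul_nonpos_of_nonneg_of_nonpos hb h2.le]
  · simp only [Prod.snd_add, Prod.smul_snd, Complex.add_re, Complex.smul_re, smul_eq_mul]
    have h1 := hx.2
    have h2 := hy.2
    rcases eq_or_lt_of_le ha with rfl | ha'
    · have : b = 1 := by linarith
      subst this
      simpa using h2
    · nlinarith [mul_neg_of_pos_of_neg ha' h1, mul_nonpos_of_nonneg_of_nonpos hb h2.le]

/-- partial sums -/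
noncomputable def disj_data_H (m : ℕ) (ξ : ℂ) (i : ℕ) : ℂ :=
  if i = 0 then ξ else if i = m then 0 else
    if i = m - 1 then ((Real.log ((m : ℝ) - 1 + Real.exp (-1)) : ℝ) : ℂ)
    else ((Real.log ((i : ℝ) + 1) : ℝ) : ℂ)

/-- the path in the nested chart -/
noncomputable def disj_data_zt (m : ℕ) (ξ : ℂ) : Fin m → ℂ :=
  fun j => disj_data_H m ξ j - disj_data_H m ξ (j + 1)

theorem disj_data_sum (hm : 4 ≤ m) (ξ : ℂ) (i : Fin m) :
    ∑ j ∈ Finset.Ici i, disj_data_zt m ξ j = disj_data_H m ξ i := by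
  have key : ∀ (f : ℕ → ℂ) (a b : ℕ) (_ : a ≤ b),
      ∑ j ∈ Finset.Ico a b, (f j - f (j + 1)) = f a - f b := by
    intro f a b h
    induction b, h using Nat.le_induction with
    | base => simp
    | succ n hn ih => rw [Finset.sum_Ico_succ_top (by omega), ih]; ring
  have h1 := key (disj_data_H m ξ) i m i.2.le
  rw [← Fin.map_valEmbedding_Ici, Finset.sum_map] at h1
  have h2 : disj_data_H m ξ m = 0 := by
    unfold disj_data_H
    rw [if_neg (by omega), if_pos rfl]
  rw [h2, sub_zero] at h1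
  exact h1

theorem disj_data_nest (hm : 4 ≤ m) (ξ : ℂ) :
    nest (disj_data_zt m ξ) = psi m (ξ, -1) := by
  have hmR : (4 : ℝ) ≤ m := by exact_mod_cast hm
  funext p
  refine Fin.cases ?_ ?_ p
  · unfold nest psi
    rw [Fin.cons_zero]
    rw [if_neg (by simp), if_neg (by simp; omega)]
    simp
  · intro i
    unfold nest
    rw [Fin.cons_succ, disj_data_sum hm]
    unfold psi disj_data_H
    have hi := i.2
    simp only [Fin.val_succ]
    by_cases h0 : (i : ℕ) = 0
    · rw [if_pos h0, if_pos (by omega)]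
    · rw [if_neg h0, if_neg (show (i : ℕ) ≠ m by omega), if_neg (show (i : ℕ) + 1 ≠ 1 by omega)]
      by_cases h1 : (i : ℕ) = m - 1
      · rw [if_pos h1, if_pos (show (i : ℕ) + 1 = m by omega), ← Complex.ofReal_exp,
          Real.exp_log (by have := Real.exp_pos (-1); linarith)]
        push_cast
        ring
      · rw [if_neg h1, if_neg (show (i : ℕ) + 1 ≠ m by omega), ← Complex.ofReal_exp,
          Real.exp_log (by positivity)]
        push_cast
        ring

theorem disj_data_mem (hm : 4 ≤ m) {ξ : ℂ} (hξ : ξ.re < 0) : disj_data_zt m ξ ∈ UN m := by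
  have hmR : (4 : ℝ) ≤ m := by exact_mod_cast hm
  intro j hj
  unfold disj_data_zt
  rw [Complex.sub_re, sub_neg]
  have hS : 0 ≤ (disj_data_H m ξ (j + 1)).re ∧
      ((j : ℕ) ≠ 0 → (disj_data_H m ξ j).re < (disj_data_H m ξ (j + 1)).re) := by
    unfold disj_data_H
    rw [if_neg (show (j : ℕ) + 1 ≠ 0 by omega), if_neg (show (j : ℕ) + 1 ≠ m by omega)]
    by_cases h1 : (j : ℕ) + 1 = m - 1
    · rw [if_pos h1, Complex.ofReal_re]
      refine ⟨Real.log_nonneg (by have := Real.exp_pos (-1); linarith), fun h0 => ?_⟩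
      rw [if_neg h0, if_neg (show (j : ℕ) ≠ m by omega), if_neg (show (j : ℕ) ≠ m - 1 by omega),
        Complex.ofReal_re]
      apply Real.log_lt_log (by positivity)
      have h2 : ((j : ℕ) : ℝ) + 1 = (m : ℝ) - 1 := by
        have : (j : ℕ) + 2 = m := by omega
        have h3 : ((j : ℕ) : ℝ) + 2 = m := by exact_mod_cast this
        linarith
      rw [h2]
      have := Real.exp_pos (-1)
      linarith
    · rw [if_neg h1, Complex.ofReal_re]
      refine ⟨Real.log_nonneg (by push_cast; linarith [Nat.cast_nonneg (α := ℝ) (j : ℕ)]),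
        fun h0 => ?_⟩
      rw [if_neg h0, if_neg (show (j : ℕ) ≠ m by omega), if_neg (show (j : ℕ) ≠ m - 1 by omega),
        Complex.ofReal_re]
      apply Real.log_lt_log (by positivity)
      push_cast
      linarith
  by_cases h0 : (j : ℕ) = 0
  · have : disj_data_H m ξ (j : ℕ) = ξ := by
      unfold disj_data_H
      rw [if_pos h0]
    rw [this]
    exact lt_of_lt_of_le hξ hS.1
  · exact hS.2 h0

theorem disj_data_add (hm : 4 ≤ m) (ξ η : ℂ) :
    disj_data_zt m (ξ + η) = disj_data_zt m ξ + Pi.single ⟨0, by omega⟩ η := by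
  funext j
  rw [Pi.add_apply]
  unfold disj_data_zt
  have h1 : disj_data_H m (ξ + η) (j + 1) = disj_data_H m ξ (j + 1) := by
    unfold disj_data_H
    rw [if_neg (show (j : ℕ) + 1 ≠ 0 by omega), if_neg (show (j : ℕ) + 1 ≠ 0 by omega)]
  rw [h1]
  by_cases h0 : (j : ℕ) = 0
  · have : j = ⟨0, by omega⟩ := Fin.ext h0
    rw [this, Pi.single_eq_same]
    unfold disj_data_H
    simp only [if_true]
    ring
  · have : j ≠ ⟨0, by omega⟩ := fun h => h0 (by rw [h])
    rw [Pi.single_eq_of_ne this]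
    unfold disj_data_H
    rw [if_neg h0, if_neg h0]
    ring

theorem disj_data_real (hm : 4 ≤ m) (s : ℝ) :
    disj_data_zt m (s : ℂ) = fun j => (((disj_data_zt m (s : ℂ) j).re : ℝ) : ℂ) := by
  have h : ∀ i, disj_data_H m (s : ℂ) i = (((disj_data_H m (s : ℂ) i).re : ℝ) : ℂ) := by
    intro i
    unfold disj_data_H
    split_ifs <;> simp
  funext j
  unfold disj_data_zt
  rw [Complex.sub_re, Complex.ofReal_sub, ← h, ← h]

theorem disj_data_half : Convex ℝ {ξ : ℂ | ξ.re < 0} := by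
  intro x hx y hy a b ha hb hab
  simp only [mem_setOf_eq] at *
  simp only [Complex.add_re, Complex.smul_re, smul_eq_mul]
  rcases eq_or_lt_of_le ha with rfl | ha'
  · have : b = 1 := by linarith
    subst this
    simpa using hy
  · nlinarith [mul_neg_of_pos_of_neg ha' hx, mul_nonpos_of_nonneg_of_nonpos hb hy.le]

theorem disj_data_quad : Convex ℝ {x : ℝ × ℝ | x.1 < 0 ∧ x.2 < 0} := by
  intro x hx y hy a b ha hb hab
  simp only [mem_setOf_eq] at *
  simp only [Prod.fst_add, Prod.smul_fst, Prod.snd_add, Prod.smul_snd, smul_eq_mul]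
  rcases eq_or_lt_of_le ha with rfl | ha'
  · have : b = 1 := by linarith
    subst this
    simpa using hy
  · exact ⟨by nlinarith [mul_neg_of_pos_of_neg ha' hx.1, mul_nonpos_of_nonneg_of_nonpos hb hy.1.le],
      by nlinarith [mul_neg_of_pos_of_neg ha' hx.2, mul_nonpos_of_nonneg_of_nonpos hb hy.2.le]⟩

/-- quasi-periodicity implies periodicity -/
theorem disj_data_per {n : ℕ} {φ : ℂ × ℂ → Fin n → ℂ}
    (hs : ∀ v ∈ P2, Squarefree (mpoly n (φ v))) {Y : Fin n → ℂ × ℂ → ℂ}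
    (hY : ∀ a, ContinuousOn (Y a) P2) (hL : ∀ v ∈ P2, Lab (φ v) (fun a => Y a v))
    (p : ℂ × ℂ) (hp : ∀ v ∈ P2, v + p ∈ P2) (hper : ∀ v, φ (v + p) = φ v) :
    ∀ v ∈ P2, ∀ a, Y a (v + n.factorial • p) = Y a v := by
  obtain ⟨τ, hτ⟩ := lab_uniq (K := P2) disj_data_P2_convex.isPreconnected hs hY
    (M' := fun a v => Y a (v + p))
    (fun a => (hY a).comp (by fun_prop) (fun v hv => hp v hv))
    hL (fun v hv => by
      have := hL (v + p) (hp v hv)
      rw [hper] at this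
      exact this)
  have h : ∀ k : ℕ, ∀ v ∈ P2, v + k • p ∈ P2 ∧ ∀ a, Y a (v + k • p) = Y ((τ ^ k) a) v := by
    intro k
    induction k with
    | zero => intro v hv; simp [hv]
    | succ k ih =>
      intro v hv
      have h1 : v + (k + 1) • p = (v + k • p) + p := by
        rw [succ_nsmul]; abel
      rw [h1]
      refine ⟨hp _ (ih v hv).1, fun a => ?_⟩
      have h2 := hτ _ (ih v hv).1 a
      rw [h2, (ih v hv).2 (τ a), pow_succ]
      rfl
  intro v hv a
  rw [(h n.factorial v hv).2 a]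
  have : τ ^ n.factorial = 1 := by
    have := pow_card_eq_one (x := τ)
    rwa [Fintype.card_perm, Fintype.card_fin] at this
  rw [this]
  rfl

theorem disj_data (hF : GoodC m n F) (D : Data m n F) (hm : 4 ≤ m) :
    ∃ (Y : Fin n → ℂ × ℂ → ℂ) (W' : Fin n → Fin n → ℤ), (∀ a, ContinuousOn (Y a) P2) ∧
      (∀ x ∈ P2, Lab (F (psi m x)) (fun a => Y a x)) ∧
      (∀ s t : ℝ, s < 0 → t < 0 → ∀ a, Y a ((s : ℂ), (t : ℂ)) = D.μ a (psi m ((s : ℂ), (t : ℂ)))) ∧
      (∀ a b, a ≠ b → Wd P2 (fun x => Y a x - Y b x) (2 * Real.pi * Complex.I * (n.factorial : ℂ), 0)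
        (D.W a b ⟨0, by omega⟩)) ∧
      (∀ a b, a ≠ b → Wd P2 (fun x => Y a x - Y b x) (0, 2 * Real.pi * Complex.I * (n.factorial : ℂ))
        (W' a b)) := by
  have hφc : ContinuousOn (fun x => F (psi m x)) P2 :=
    hF.holo.comp (disj_data_cont m).continuousOn (fun x hx => psi_conf hm hx)
  have hsq : ∀ x ∈ P2, Squarefree (mpoly n (F (psi m x))) := fun x hx => hF.sqf _ (psi_conf hm hx)
  obtain ⟨Y0, hY0c, hY0L⟩ := lab_lift disj_data_P2_convex hφc hsq
  -- correct by a permutation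
  have hfc : Continuous (fun v : ℝ × ℝ => (((v.1 : ℝ) : ℂ), ((v.2 : ℝ) : ℂ))) := by fun_prop
  obtain ⟨π, hπ⟩ := lab_uniq (K := {x : ℝ × ℝ | x.1 < 0 ∧ x.2 < 0})
    disj_data_quad.isPreconnected (φ := fun v => F (psi m (((v.1 : ℝ) : ℂ), ((v.2 : ℝ) : ℂ))))
    (fun v hv => hsq _ ⟨by simpa using hv.1, by simpa using hv.2⟩)
    (M := fun a v => Y0 a (((v.1 : ℝ) : ℂ), ((v.2 : ℝ) : ℂ)))
    (M' := fun a v => D.μ a (psi m (((v.1 : ℝ) : ℂ), ((v.2 : ℝ) : ℂ))))
    (fun a => (hY0c a).comp hfc.continuousOn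
      (fun v hv => ⟨by simpa using hv.1, by simpa using hv.2⟩))
    (fun a => (D.μ_cont a).comp ((disj_data_cont m).comp hfc).continuousOn
      (fun v hv => disj_data_cham hm hv.1 hv.2))
    (fun v hv => hY0L _ ⟨by simpa using hv.1, by simpa using hv.2⟩)
    (fun v hv => D.μ_lab _ (disj_data_cham hm hv.1 hv.2))
  obtain ⟨Y, hYdef⟩ : ∃ Y : Fin n → ℂ × ℂ → ℂ, Y = fun a => Y0 (π a) := ⟨_, rfl⟩
  have hYc : ∀ a, ContinuousOn (Y a) P2 := by
    intro a; rw [hYdef]; exact hY0c _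
  have hYL : ∀ x ∈ P2, Lab (F (psi m x)) (fun a => Y a x) := by
    intro x hx
    have := hY0L x hx
    unfold Lab at this ⊢
    rw [this, hYdef]
    exact (Equiv.prod_comp π (fun a => X - C (Y0 a x))).symm
  have hYμ : ∀ s t : ℝ, s < 0 → t < 0 → ∀ a,
      Y a ((s : ℂ), (t : ℂ)) = D.μ a (psi m ((s : ℂ), (t : ℂ))) := by
    intro s t hs ht a
    have := hπ (s, t) ⟨hs, ht⟩ a
    simp only at this
    rw [this, hYdef]
  -- periods
  have hmem1 : ∀ c : ℂ, c.re = 0 → ∀ v ∈ P2, v + (c, (0 : ℂ)) ∈ P2 := by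
    intro c hc v hv
    refine ⟨?_, ?_⟩
    · simpa [hc] using hv.1
    · simpa using hv.2
  have hmem2 : ∀ c : ℂ, c.re = 0 → ∀ v ∈ P2, v + ((0 : ℂ), c) ∈ P2 := by
    intro c hc v hv
    refine ⟨?_, ?_⟩
    · simpa using hv.1
    · simpa [hc] using hv.2
  have hre1 : (2 * Real.pi * Complex.I : ℂ).re = 0 := by simp
  have hreN : (2 * Real.pi * Complex.I * (n.factorial : ℂ) : ℂ).re = 0 := by
    simp
  have hP1 : ∀ v : ℂ × ℂ, psi m (v + (2 * Real.pi * Complex.I, (0 : ℂ))) = psi m v := by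
    intro v
    funext p
    unfold psi
    simp [Complex.exp_periodic (v.1)]
  have hP2 : ∀ v : ℂ × ℂ, psi m (v + ((0 : ℂ), 2 * Real.pi * Complex.I)) = psi m v := by
    intro v
    funext p
    unfold psi
    simp [Complex.exp_periodic (v.2)]
  have hper1 : ∀ v ∈ P2, ∀ a,
      Y a (v + (2 * Real.pi * Complex.I * (n.factorial : ℂ), (0 : ℂ))) = Y a v := by
    intro v hv a
    have := disj_data_per hsq hYc hYL (2 * Real.pi * Complex.I, (0 : ℂ)) (hmem1 _ hre1)
      (fun v => by simp only [hP1]) v hv a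
    rw [← this]
    congr 2
    rw [Prod.smul_mk, smul_zero, nsmul_eq_mul, mul_comm]
  have hper2 : ∀ v ∈ P2, ∀ a,
      Y a (v + ((0 : ℂ), 2 * Real.pi * Complex.I * (n.factorial : ℂ))) = Y a v := by
    intro v hv a
    have := disj_data_per hsq hYc hYL ((0 : ℂ), 2 * Real.pi * Complex.I) (hmem2 _ hre1)
      (fun v => by simp only [hP2]) v hv a
    rw [← this]
    congr 2
    rw [Prod.smul_mk, smul_zero, nsmul_eq_mul, mul_comm]
  have hne : ∀ a b, a ≠ b → ∀ v ∈ P2, Y a v - Y b v ≠ 0 := by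
    intro a b hab v hv h
    exact hab (lab_inj (hYL v hv) (hsq v hv) (sub_eq_zero.1 h))
  have hW1 : ∀ a b, a ≠ b → ∃ w : ℤ, Wd P2 (fun x => Y a x - Y b x)
      (2 * Real.pi * Complex.I * (n.factorial : ℂ), 0) w := by
    intro a b hab
    exact Wd.exists disj_data_P2_convex (hmem1 _ hreN) ((hYc a).sub (hYc b)) (hne a b hab)
      (fun v hv => by rw [hper1 v hv a, hper1 v hv b])
  have hW2 : ∀ a b, a ≠ b → ∃ w : ℤ, Wd P2 (fun x => Y a x - Y b x)
      (0, 2 * Real.pi * Complex.I * (n.factorial : ℂ)) w := by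
    intro a b hab
    exact Wd.exists disj_data_P2_convex (hmem2 _ hreN) ((hYc a).sub (hYc b)) (hne a b hab)
      (fun v hv => by rw [hper2 v hv a, hper2 v hv b])
  -- the comparison with the nested chart
  have hztc : Continuous (fun ξ : ℂ => disj_data_zt m ξ) := by
    apply continuous_pi
    intro j
    unfold disj_data_zt disj_data_H
    split_ifs <;> fun_prop
  have hline : ∀ ξ : ℂ, ξ.re < 0 → (ξ, (-1 : ℂ)) ∈ P2 := by
    intro ξ hξ
    exact ⟨hξ, by simp⟩
  obtain ⟨π', hπ'⟩ := lab_uniq (K := {ξ : ℂ | ξ.re < 0})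
    disj_data_half.isPreconnected (φ := fun ξ => F (psi m (ξ, (-1 : ℂ))))
    (fun v hv => hsq _ (hline v hv))
    (M := fun a ξ => Y a (ξ, (-1 : ℂ)))
    (M' := fun a ξ => D.M a (disj_data_zt m ξ))
    (fun a => (hYc a).comp (by fun_prop) (fun v hv => hline v hv))
    (fun a => (D.M_cont a).comp hztc.continuousOn (fun v hv => disj_data_mem hm hv))
    (fun v hv => hYL _ (hline v hv))
    (fun v hv => by
      have := D.M_lab _ (disj_data_mem hm hv)
      rw [disj_data_nest hm] at this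
      exact this)
  have hreal : ∀ a, D.M a (disj_data_zt m (((-1 : ℝ) : ℝ) : ℂ)) =
      Y a ((((-1 : ℝ) : ℝ) : ℂ), (((-1 : ℝ) : ℝ) : ℂ)) := by
    intro a
    have hmem : disj_data_zt m (((-1 : ℝ) : ℝ) : ℂ) ∈ UN m := disj_data_mem hm (by simp)
    rw [disj_data_real hm] at hmem
    have h1 := D.M_eq (fun j => (disj_data_zt m (((-1 : ℝ) : ℝ) : ℂ) j).re) hmem a
    rw [← disj_data_real hm, disj_data_nest hm] at h1
    rw [h1, hYμ (-1) (-1) (by norm_num) (by norm_num)]
    simp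
  have hπ1 : ∀ a, π' a = a := by
    intro a
    have h1 := hπ' (((-1 : ℝ) : ℝ) : ℂ) (by simp) a
    rw [hreal a] at h1
    have hm1 : ((((-1 : ℝ) : ℝ) : ℂ), (-1 : ℂ)) ∈ P2 := hline _ (by simp)
    have h2 : ((((-1 : ℝ) : ℝ) : ℂ), (((-1 : ℝ) : ℝ) : ℂ)) = ((((-1 : ℝ) : ℝ) : ℂ), (-1 : ℂ)) := by
      simp
    rw [h2] at h1
    exact (lab_inj (hYL _ hm1) (hsq _ hm1) h1).symm
  have hMY : ∀ ξ : ℂ, ξ.re < 0 → ∀ a, D.M a (disj_data_zt m ξ) = Y a (ξ, (-1 : ℂ)) := by
    intro ξ hξ a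
    have := hπ' ξ hξ a
    rw [this, hπ1]
  choose! W1 hW1 using hW1
  choose! W2 hW2 using hW2
  refine ⟨Y, W2, hYc, hYL, hYμ, ?_, hW2⟩
  intro a b hab
  have h1 : Wd {ξ : ℂ | ξ.re < 0} (fun ξ => Y a (ξ, (-1 : ℂ)) - Y b (ξ, (-1 : ℂ)))
      (2 * Real.pi * Complex.I * (n.factorial : ℂ)) (W1 a b) := by
    have := Wd.comp (K' := {ξ : ℂ | ξ.re < 0}) (p' := 2 * Real.pi * Complex.I * (n.factorial : ℂ))
      (hW1 a b hab) (f := fun ξ : ℂ => (ξ, (-1 : ℂ))) (by fun_prop) (fun ξ hξ => hline ξ hξ)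
      (fun ξ hξ => by simp)
    exact this
  have h2 : Wd {ξ : ℂ | ξ.re < 0}
      (fun ξ => D.M a (disj_data_zt m ξ) - D.M b (disj_data_zt m ξ))
      (2 * Real.pi * Complex.I * (n.factorial : ℂ)) (D.W a b ⟨0, by omega⟩) := by
    have := Wd.comp (K' := {ξ : ℂ | ξ.re < 0}) (p' := 2 * Real.pi * Complex.I * (n.factorial : ℂ))
      (D.W_wd a b hab ⟨0, by omega⟩) (f := fun ξ : ℂ => disj_data_zt m ξ) hztc.continuousOn
      (fun ξ hξ => disj_data_mem hm hξ)
      (fun ξ hξ => disj_data_add hm _ _)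
    exact this
  have h3 := h2.congr (g' := fun ξ => Y a (ξ, (-1 : ℂ)) - Y b (ξ, (-1 : ℂ)))
    (fun ξ hξ => by rw [hMY ξ hξ a, hMY ξ hξ b])
  have h4 := Wd.unique disj_data_half.isPreconnected ⟨-1, by simp⟩
    (fun ξ hξ => by
      simp only [mem_setOf_eq] at *
      rw [Complex.add_re, hreN, add_zero]
      exact hξ) h1 h3
  rw [← h4]
  exact hW1 a b hab

end LinC
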