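import Pool.Agent.Helper996.LinC.Base
import Pool.Agent.Helper996.Lin.Defs
import Pool.Agent.Helper996.Lin.Defs4
import Pool.Agent.Helper996.Lin.J_lab_basic
import Pool.Agent.Helper996.Lin.J_lab_lift
import Pool.Agent.Helper996.Lin.J_wd_basic
import Pool.Agent.Helper996.LinC.C_disj_data
import Pool.Agent.Helper996.Lin.J_charts

set_option autoImplicit false

open Polynomial Set Filter Topology LinS

namespace LinC

variable {m n : ℕ} {F : (Fin (m + 1) → ℂ) → Fin n → ℂ}

/-- base configuration -/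
noncomputable def disj_inv_b (m p : ℕ) : ℝ :=
  if p = 1 then 1 / 2 else if p = m then (m : ℝ) - 1 / 2 else (p : ℝ)

theorem disj_inv_b_lt {m : ℕ} (hm : 4 ≤ m) {p q : ℕ} (hpq : p < q) (hq : q ≤ m) :
    disj_inv_b m p < disj_inv_b m q := by
  have hm' : (4:ℝ) ≤ m := by exact_mod_cast hm
  unfold disj_inv_b
  by_cases hp1 : p = 1
  · rw [if_pos hp1, if_neg (by omega : q ≠ 1)]
    by_cases hqm : q = m
    · rw [if_pos hqm]; linarith
    · rw [if_neg hqm]
      have : (2:ℝ) ≤ q := by exact_mod_cast (by omega : 2 ≤ q)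
      linarith
  · rw [if_neg hp1, if_neg (by omega : p ≠ m)]
    by_cases hq1 : q = 1
    · rw [if_pos hq1]
      have : p = 0 := by omega
      rw [this]; norm_num
    · rw [if_neg hq1]
      by_cases hqm : q = m
      · rw [if_pos hqm]
        have h1 : (p:ℝ) ≤ (m:ℝ) - 1 := by
          have h2 : p + 1 ≤ m := by omega
          have h3 : ((p + 1 : ℕ) : ℝ) ≤ m := by exact_mod_cast h2
          push_cast at h3; linarith
        linarith
      · rw [if_neg hqm]; exact_mod_cast hpq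

theorem disj_inv_b_le {m : ℕ} (hm : 4 ≤ m) {p : ℕ} (hp : p + 2 ≤ m) :
    disj_inv_b m p ≤ (m:ℝ) - 2 := by
  have hm' : (4:ℝ) ≤ m := by exact_mod_cast hm
  unfold disj_inv_b
  by_cases hp1 : p = 1
  · rw [if_pos hp1]; linarith
  · rw [if_neg hp1, if_neg (by omega : p ≠ m)]
    have h3 : ((p + 2 : ℕ) : ℝ) ≤ m := by exact_mod_cast hp
    push_cast at h3; linarith

/-- the two-parameter family of configurations -/
noncomputable def disj_inv_H (m i : ℕ) (x : ℝ × ℝ) : Fin (m + 1) → ℂ := fun p =>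
  if (p : ℕ) = m then (m : ℂ) - 1 + 1 / 2 * Complex.exp (x.1 * Complex.I)
  else if (p : ℕ) = i then
    (((disj_inv_b m i + disj_inv_b m (i + 1)) / 2 : ℝ) : ℂ) -
      (((disj_inv_b m (i + 1) - disj_inv_b m i) / 2 : ℝ) : ℂ) * Complex.exp (x.2 * Complex.I)
  else if (p : ℕ) = i + 1 then
    (((disj_inv_b m i + disj_inv_b m (i + 1)) / 2 : ℝ) : ℂ) +
      (((disj_inv_b m (i + 1) - disj_inv_b m i) / 2 : ℝ) : ℂ) * Complex.exp (x.2 * Complex.I)
  else ((disj_inv_b m p : ℝ) : ℂ)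

theorem disj_inv_H_m {m i : ℕ} (x : ℝ × ℝ) (p : Fin (m + 1)) (hp : (p : ℕ) = m) :
    disj_inv_H m i x p = (m : ℂ) - 1 + 1 / 2 * Complex.exp (x.1 * Complex.I) := by
  unfold disj_inv_H; rw [if_pos hp]

theorem disj_inv_H_i {m i : ℕ} (x : ℝ × ℝ) (p : Fin (m + 1)) (hp : (p : ℕ) ≠ m) (hp1 : (p : ℕ) = i) :
    disj_inv_H m i x p = (((disj_inv_b m i + disj_inv_b m (i + 1)) / 2 : ℝ) : ℂ) -
      (((disj_inv_b m (i + 1) - disj_inv_b m i) / 2 : ℝ) : ℂ) * Complex.exp (x.2 * Complex.I) := by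
  unfold disj_inv_H; rw [if_neg hp, if_pos hp1]

theorem disj_inv_H_i1 {m i : ℕ} (x : ℝ × ℝ) (p : Fin (m + 1)) (hp : (p : ℕ) ≠ m)
    (hp1 : (p : ℕ) = i + 1) :
    disj_inv_H m i x p = (((disj_inv_b m i + disj_inv_b m (i + 1)) / 2 : ℝ) : ℂ) +
      (((disj_inv_b m (i + 1) - disj_inv_b m i) / 2 : ℝ) : ℂ) * Complex.exp (x.2 * Complex.I) := by
  unfold disj_inv_H; rw [if_neg hp, if_neg (by omega), if_pos hp1]

theorem disj_inv_H_o {m i : ℕ} (x : ℝ × ℝ) (p : Fin (m + 1)) (hp : (p : ℕ) ≠ m)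
    (hp1 : (p : ℕ) ≠ i) (hp2 : (p : ℕ) ≠ i + 1) :
    disj_inv_H m i x p = ((disj_inv_b m p : ℝ) : ℂ) := by
  unfold disj_inv_H; rw [if_neg hp, if_neg hp1, if_neg hp2]

theorem disj_inv_re_m {m i : ℕ} (x : ℝ × ℝ) (p : Fin (m + 1)) (hp : (p : ℕ) = m) :
    (disj_inv_H m i x p).re = (m : ℝ) - 1 + 1 / 2 * Real.cos x.1 := by
  rw [disj_inv_H_m x p hp]
  have h : ((m : ℂ) - 1 + 1 / 2 * Complex.exp (x.1 * Complex.I)) =
    (((m : ℝ) - 1 : ℝ) : ℂ) + ((1 / 2 : ℝ) : ℂ) * Complex.exp (x.1 * Complex.I) := by push_cast; ring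
  rw [h, Complex.add_re, Complex.re_ofReal_mul, Complex.exp_ofReal_mul_I_re, Complex.ofReal_re]

theorem disj_inv_re_i {m i : ℕ} (x : ℝ × ℝ) (p : Fin (m + 1)) (hp : (p : ℕ) ≠ m)
    (hp1 : (p : ℕ) = i) :
    (disj_inv_H m i x p).re = (disj_inv_b m i + disj_inv_b m (i + 1)) / 2 -
      (disj_inv_b m (i + 1) - disj_inv_b m i) / 2 * Real.cos x.2 := by
  rw [disj_inv_H_i x p hp hp1, Complex.sub_re, Complex.re_ofReal_mul, Complex.exp_ofReal_mul_I_re,
    Complex.ofReal_re]

theorem disj_inv_im_i {m i : ℕ} (x : ℝ × ℝ) (p : Fin (m + 1)) (hp : (p : ℕ) ≠ m)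
    (hp1 : (p : ℕ) = i) :
    (disj_inv_H m i x p).im =
      - ((disj_inv_b m (i + 1) - disj_inv_b m i) / 2 * Real.sin x.2) := by
  rw [disj_inv_H_i x p hp hp1, Complex.sub_im, Complex.im_ofReal_mul, Complex.exp_ofReal_mul_I_im,
    Complex.ofReal_im, zero_sub]

theorem disj_inv_re_i1 {m i : ℕ} (x : ℝ × ℝ) (p : Fin (m + 1)) (hp : (p : ℕ) ≠ m)
    (hp1 : (p : ℕ) = i + 1) :
    (disj_inv_H m i x p).re = (disj_inv_b m i + disj_inv_b m (i + 1)) / 2 +
      (disj_inv_b m (i + 1) - disj_inv_b m i) / 2 * Real.cos x.2 := by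
  rw [disj_inv_H_i1 x p hp hp1, Complex.add_re, Complex.re_ofReal_mul, Complex.exp_ofReal_mul_I_re,
    Complex.ofReal_re]

theorem disj_inv_im_i1 {m i : ℕ} (x : ℝ × ℝ) (p : Fin (m + 1)) (hp : (p : ℕ) ≠ m)
    (hp1 : (p : ℕ) = i + 1) :
    (disj_inv_H m i x p).im =
      (disj_inv_b m (i + 1) - disj_inv_b m i) / 2 * Real.sin x.2 := by
  rw [disj_inv_H_i1 x p hp hp1, Complex.add_im, Complex.im_ofReal_mul, Complex.exp_ofReal_mul_I_im,
    Complex.ofReal_im, zero_add]

theorem disj_inv_re_o {m i : ℕ} (x : ℝ × ℝ) (p : Fin (m + 1)) (hp : (p : ℕ) ≠ m)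
    (hp1 : (p : ℕ) ≠ i) (hp2 : (p : ℕ) ≠ i + 1) :
    (disj_inv_H m i x p).re = disj_inv_b m p := by
  rw [disj_inv_H_o x p hp hp1 hp2, Complex.ofReal_re]

/-- the real part at the moving points -/
theorem disj_inv_re_bd {m i : ℕ} (hm : 4 ≤ m) (hi : i + 3 ≤ m) (x : ℝ × ℝ) (p : Fin (m + 1))
    (hp : (p : ℕ) = i ∨ (p : ℕ) = i + 1) :
    disj_inv_b m i ≤ (disj_inv_H m i x p).re ∧ (disj_inv_H m i x p).re ≤ disj_inv_b m (i + 1) := by
  have h0 := disj_inv_b_lt hm (Nat.lt_succ_self i) (by omega : i + 1 ≤ m)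
  have h1 := Real.neg_one_le_cos x.2
  have h2 := Real.cos_le_one x.2
  rcases hp with hp | hp
  · rw [disj_inv_re_i x p (by omega) hp]
    constructor <;> nlinarith
  · rw [disj_inv_re_i1 x p (by omega) hp]
    constructor <;> nlinarith

theorem disj_inv_re_lt {m i : ℕ} (hm : 4 ≤ m) (hi : i + 3 ≤ m) (x : ℝ × ℝ) (p q : Fin (m + 1))
    (hpq : p < q) (hne : ¬ ((p : ℕ) = i ∧ (q : ℕ) = i + 1)) (hq : (q : ℕ) < m) :
    (disj_inv_H m i x p).re < (disj_inv_H m i x q).re := by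
  have hpq' : (p : ℕ) < (q : ℕ) := hpq
  by_cases hp : (p : ℕ) = i ∨ (p : ℕ) = i + 1
  · have h1 := (disj_inv_re_bd hm hi x p hp).2
    have h2 : (disj_inv_H m i x q).re = disj_inv_b m q :=
      disj_inv_re_o x q (by omega) (by omega) (by omega)
    rw [h2]
    exact lt_of_le_of_lt h1 (disj_inv_b_lt hm (by omega) (by omega))
  · have h1 : (disj_inv_H m i x p).re = disj_inv_b m p :=
      disj_inv_re_o x p (by omega) (by omega) (by omega)
    rw [h1]
    by_cases hq2 : (q : ℕ) = i ∨ (q : ℕ) = i + 1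
    · have h2 := (disj_inv_re_bd hm hi x q hq2).1
      exact lt_of_lt_of_le (disj_inv_b_lt hm (by omega) (by omega)) h2
    · have h2 : (disj_inv_H m i x q).re = disj_inv_b m q :=
        disj_inv_re_o x q (by omega) (by omega) (by omega)
      rw [h2]
      exact disj_inv_b_lt hm (by omega) (by omega)

theorem disj_inv_re_le {m i : ℕ} (hm : 4 ≤ m) (hi : i + 3 ≤ m) (x : ℝ × ℝ) (p : Fin (m + 1))
    (hp : (p : ℕ) + 2 ≤ m) : (disj_inv_H m i x p).re ≤ (m : ℝ) - 2 := by
  by_cases hp2 : (p : ℕ) = i ∨ (p : ℕ) = i + 1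
  · exact (disj_inv_re_bd hm hi x p hp2).2.trans (disj_inv_b_le hm (by omega))
  · rw [disj_inv_re_o x p (by omega) (by omega) (by omega)]
    exact disj_inv_b_le hm hp

theorem disj_inv_conf {m i : ℕ} (hm : 4 ≤ m) (hi : i + 3 ≤ m) (x : ℝ × ℝ) :
    disj_inv_H m i x ∈ Conf m := by
  have key : ∀ p q : Fin (m + 1), p < q → disj_inv_H m i x p ≠ disj_inv_H m i x q := by
    intro p q hpq heq
    have hpq' : (p : ℕ) < (q : ℕ) := hpq
    have hqm : (q : ℕ) ≤ m := by omega
    rcases hqm.lt_or_eq with hq | hq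
    · by_cases hne : (p : ℕ) = i ∧ (q : ℕ) = i + 1
      · rw [disj_inv_H_i x p (by omega) hne.1, disj_inv_H_i1 x q (by omega) hne.2] at heq
        have h0 := disj_inv_b_lt hm (Nat.lt_succ_self i) (by omega : i + 1 ≤ m)
        have h1 : (((disj_inv_b m (i + 1) - disj_inv_b m i) / 2 : ℝ) : ℂ) *
            Complex.exp (x.2 * Complex.I) = 0 := by linear_combination (-1 / 2) * heq
        rcases mul_eq_zero.mp h1 with h2 | h2
        · have h3 : (disj_inv_b m (i + 1) - disj_inv_b m i) / 2 = 0 := by exact_mod_cast h2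
          have h4 : disj_inv_b m i < disj_inv_b m (i + 1) := h0
          linarith
        · exact Complex.exp_ne_zero _ h2
      · have := disj_inv_re_lt hm hi x p q hpq hne hq
        rw [heq] at this
        exact lt_irrefl _ this
    · by_cases hp : (p : ℕ) + 2 ≤ m
      · have h1 := disj_inv_re_le hm hi x p hp
        have h2 := disj_inv_re_m (i := i) x q hq
        have h3 := Real.neg_one_le_cos x.1
        rw [heq] at h1
        linarith
      · have hp' : (p : ℕ) = m - 1 := by omega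
        have h1 : disj_inv_H m i x p = ((disj_inv_b m p : ℝ) : ℂ) :=
          disj_inv_H_o x p (by omega) (by omega) (by omega)
        have h2 : disj_inv_b m p = (m : ℝ) - 1 := by
          unfold disj_inv_b
          rw [if_neg (by omega), if_neg (by omega), hp']
          rw [Nat.cast_sub (by omega)]; simp
        rw [h1, disj_inv_H_m x q hq, h2] at heq
        have h3 : Complex.exp (x.1 * Complex.I) = 0 := by
          push_cast at heq
          linear_combination (-2) * heq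
        exact Complex.exp_ne_zero _ h3
  intro p q heq
  rcases lt_trichotomy p q with h | h | h
  · exact absurd heq (key p q h)
  · exact h
  · exact absurd heq.symm (key q p h)

theorem disj_inv_cont (m i : ℕ) : Continuous (disj_inv_H m i) := by
  apply continuous_pi
  intro p
  unfold disj_inv_H
  by_cases h1 : (p : ℕ) = m
  · simp only [if_pos h1]; fun_prop
  · by_cases h2 : (p : ℕ) = i
    · simp only [if_neg h1, if_pos h2]; fun_prop
    · by_cases h3 : (p : ℕ) = i + 1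
      · simp only [if_neg h1, if_neg h2, if_pos h3]; fun_prop
      · simp only [if_neg h1, if_neg h2, if_neg h3]; fun_prop

theorem disj_inv_Cham {m i : ℕ} (hm : 4 ≤ m) (hi : i + 3 ≤ m) {φ : ℝ} (hφ : 0 < Real.cos φ) :
    disj_inv_H m i (0, φ) ∈ Cham m := by
  intro p q hpq
  have hpq' : (p : ℕ) < (q : ℕ) := hpq
  have hqm : (q : ℕ) ≤ m := by omega
  rcases hqm.lt_or_eq with hq | hq
  · by_cases hne : (p : ℕ) = i ∧ (q : ℕ) = i + 1
    · rw [disj_inv_re_i _ p (by omega) hne.1, disj_inv_re_i1 _ q (by omega) hne.2]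
      have h0 : disj_inv_b m i < disj_inv_b m (i + 1) :=
        disj_inv_b_lt hm (Nat.lt_succ_self i) (by omega : i + 1 ≤ m)
      have h1 : 0 < (disj_inv_b m (i + 1) - disj_inv_b m i) / 2 * Real.cos φ :=
        mul_pos (by linarith) hφ
      show _ - (disj_inv_b m (i + 1) - disj_inv_b m i) / 2 * Real.cos φ <
        _ + (disj_inv_b m (i + 1) - disj_inv_b m i) / 2 * Real.cos φ
      linarith
    · exact disj_inv_re_lt hm hi _ p q hpq hne hq
  · have h2 := disj_inv_re_m (i := i) (0, φ) q hq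
    simp only [Real.cos_zero] at h2
    rw [h2]
    by_cases hp : (p : ℕ) + 2 ≤ m
    · have h1 := disj_inv_re_le hm hi (0, φ) p hp
      linarith
    · have hp' : (p : ℕ) = m - 1 := by omega
      rw [disj_inv_re_o _ p (by omega) (by omega) (by omega)]
      have h2 : disj_inv_b m p = (m : ℝ) - 1 := by
        unfold disj_inv_b
        rw [if_neg (by omega), if_neg (by omega), hp']
        rw [Nat.cast_sub (by omega)]; simp
      rw [h2]; linarith

theorem disj_inv_KP {m : ℕ} (hm : 4 ≤ m) (i : Fin m) (hi : (i : ℕ) + 3 ≤ m) {φ : ℝ}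
    (hφ : 0 < Real.sin φ) : disj_inv_H m i (0, φ) ∈ KP m i := by
  have hc : ((i.castSucc : Fin (m + 1)) : ℕ) = (i : ℕ) := Fin.val_castSucc i
  have hs : ((i.succ : Fin (m + 1)) : ℕ) = (i : ℕ) + 1 := Fin.val_succ i
  refine ⟨?_, ?_⟩
  · rw [disj_inv_im_i _ _ (by omega) hc, disj_inv_im_i1 _ _ (by omega) hs]
    have h0 : disj_inv_b m i < disj_inv_b m (i + 1) :=
      disj_inv_b_lt hm (Nat.lt_succ_self i) (by omega : (i : ℕ) + 1 ≤ m)
    have h1 : 0 < (disj_inv_b m (i + 1) - disj_inv_b m i) / 2 * Real.sin φ :=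
      mul_pos (by linarith) hφ
    show -((disj_inv_b m (i + 1) - disj_inv_b m i) / 2 * Real.sin φ) <
        (disj_inv_b m (i + 1) - disj_inv_b m i) / 2 * Real.sin φ
    linarith
  · intro p q hpq hne
    have hpq' : (p : ℕ) < (q : ℕ) := hpq
    have hne' : ¬ ((p : ℕ) = i ∧ (q : ℕ) = i + 1) := by
      rintro ⟨h1, h2⟩
      exact hne ⟨Fin.ext (by rw [h1, hc]), Fin.ext (by rw [h2, hs])⟩
    have hqm : (q : ℕ) ≤ m := by omega
    rcases hqm.lt_or_eq with hq | hq
    · exact disj_inv_re_lt hm hi _ p q hpq hne' hq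
    · have h2 := disj_inv_re_m (i := (i : ℕ)) (0, φ) q hq
      simp only [Real.cos_zero] at h2
      rw [h2]
      by_cases hp : (p : ℕ) + 2 ≤ m
      · have h1 := disj_inv_re_le hm hi (0, φ) p hp
        linarith
      · have hp' : (p : ℕ) = m - 1 := by omega
        rw [disj_inv_re_o _ p (by omega) (by omega) (by omega)]
        have h2 : disj_inv_b m p = (m : ℝ) - 1 := by
          unfold disj_inv_b
          rw [if_neg (by omega), if_neg (by omega), hp']
          rw [Nat.cast_sub (by omega)]; simp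
        rw [h2]; linarith

theorem disj_inv_sw {m : ℕ} (i : Fin m) (hi : (i : ℕ) + 3 ≤ m) (θ φ : ℝ) :
    disj_inv_H m i (θ, φ) ∘ sw i = disj_inv_H m i (θ, φ + Real.pi) := by
  have hc : ((i.castSucc : Fin (m + 1)) : ℕ) = (i : ℕ) := Fin.val_castSucc i
  have hs : ((i.succ : Fin (m + 1)) : ℕ) = (i : ℕ) + 1 := Fin.val_succ i
  have he : Complex.exp (((φ + Real.pi : ℝ) : ℂ) * Complex.I) =
      - Complex.exp ((φ : ℂ) * Complex.I) := by
    push_cast
    rw [add_mul, Complex.exp_add, Complex.exp_pi_mul_I]; ring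
  funext p
  rw [Function.comp_apply]
  by_cases h1 : p = i.castSucc
  · rw [h1]
    have h2 : sw i i.castSucc = i.succ := Equiv.swap_apply_left _ _
    rw [h2, disj_inv_H_i1 _ _ (by omega) hs, disj_inv_H_i _ _ (by omega) hc]
    simp only
    rw [he]; ring
  · by_cases h3 : p = i.succ
    · rw [h3]
      have h2 : sw i i.succ = i.castSucc := Equiv.swap_apply_right _ _
      rw [h2, disj_inv_H_i1 _ _ (by omega) hs, disj_inv_H_i _ _ (by omega) hc]
      simp only
      rw [he]; ring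
    · have h2 : sw i p = p := Equiv.swap_apply_of_ne_of_ne h1 h3
      rw [h2]
      by_cases h4 : (p : ℕ) = m
      · rw [disj_inv_H_m _ _ h4, disj_inv_H_m _ _ h4]
      · have h5 : (p : ℕ) ≠ i := fun h => h1 (Fin.ext (by rw [h, hc]))
        have h6 : (p : ℕ) ≠ i + 1 := fun h => h3 (Fin.ext (by rw [h, hs]))
        rw [disj_inv_H_o _ _ h4 h5 h6, disj_inv_H_o _ _ h4 h5 h6]

theorem disj_inv_per1 {m i : ℕ} (θ φ : ℝ) :
    disj_inv_H m i (θ + 2 * Real.pi, φ) = disj_inv_H m i (θ, φ) := by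
  have he : Complex.exp (((θ + 2 * Real.pi : ℝ) : ℂ) * Complex.I) =
      Complex.exp ((θ : ℂ) * Complex.I) := by
    push_cast
    rw [add_mul, Complex.exp_add, Complex.exp_two_pi_mul_I, mul_one]
  funext p
  unfold disj_inv_H
  simp only
  rw [he]

theorem disj_inv_per2 {m i : ℕ} (θ φ : ℝ) :
    disj_inv_H m i (θ, φ + 2 * Real.pi) = disj_inv_H m i (θ, φ) := by
  have he : Complex.exp (((φ + 2 * Real.pi : ℝ) : ℂ) * Complex.I) =
      Complex.exp ((φ : ℂ) * Complex.I) := by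
    push_cast
    rw [add_mul, Complex.exp_add, Complex.exp_two_pi_mul_I, mul_one]
  funext p
  unfold disj_inv_H
  simp only
  rw [he]

theorem disj_inv_psi {m i : ℕ} (hm : 4 ≤ m) (hi : i + 3 ≤ m) (θ : ℝ) :
    disj_inv_H m i (θ, 0) = psi m (((Real.log (1 / 2) : ℝ) : ℂ),
      ((Real.log (1 / 2) : ℝ) : ℂ) + (θ : ℂ) * Complex.I) := by
  have hl : Complex.exp ((Real.log (1 / 2) : ℝ) : ℂ) = 1 / 2 := by
    rw [← Complex.ofReal_exp, Real.exp_log (by norm_num)]; norm_num
  have h00 : Complex.exp (((0 : ℝ) : ℂ) * Complex.I) = 1 := by simp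
  have hb : ∀ p : Fin (m + 1), (p : ℕ) ≠ m → disj_inv_H m i (θ, 0) p = ((disj_inv_b m p : ℝ) : ℂ) := by
    intro p hp
    by_cases h1 : (p : ℕ) = i
    · rw [disj_inv_H_i _ p hp h1]
      simp only
      rw [h00, h1]; push_cast; ring
    · by_cases h2 : (p : ℕ) = i + 1
      · rw [disj_inv_H_i1 _ p hp h2]
        simp only
        rw [h00, h2]; push_cast; ring
      · exact disj_inv_H_o _ p hp h1 h2
  funext p
  unfold psi
  simp only
  by_cases h1 : (p : ℕ) = 1
  · rw [if_pos h1, hb p (by omega), hl]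
    unfold disj_inv_b
    rw [if_pos h1]; norm_num
  · rw [if_neg h1]
    by_cases h2 : (p : ℕ) = m
    · rw [if_pos h2, disj_inv_H_m _ p h2, Complex.exp_add, hl]
    · rw [if_neg h2, hb p h2]
      unfold disj_inv_b
      rw [if_neg h1, if_neg h2]
      simp

theorem disj_inv (hF : GoodC m n F) (D : Data m n F) (hm : 4 ≤ m) {Y : Fin n → ℂ × ℂ → ℂ}
    {W' : Fin n → Fin n → ℤ} (hY : ∀ a, ContinuousOn (Y a) P2)
    (hL : ∀ x ∈ P2, Lab (F (psi m x)) (fun a => Y a x))
    (hr : ∀ s t : ℝ, s < 0 → t < 0 → ∀ a,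
      Y a ((s : ℂ), (t : ℂ)) = D.μ a (psi m ((s : ℂ), (t : ℂ))))
    (h1 : ∀ a b, a ≠ b → Wd P2 (fun x => Y a x - Y b x)
      (0, 2 * Real.pi * Complex.I * (n.factorial : ℂ)) (W' a b))
    (i : Fin m) (hi : (i : ℕ) + 3 ≤ m) (a b : Fin n) (hab : a ≠ b) :
    W' (D.lam i a) (D.lam i b) = W' a b := by
  have hlog : Real.log (1 / 2) < 0 := Real.log_neg (by norm_num) (by norm_num)
  -- the path in `P2`
  set f0 : ℝ → ℂ × ℂ := fun θ => (((Real.log (1 / 2) : ℝ) : ℂ),
      ((Real.log (1 / 2) : ℝ) : ℂ) + (θ : ℂ) * Complex.I) with hf0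
  have hf0P : ∀ θ, f0 θ ∈ P2 := by
    intro θ
    refine ⟨?_, ?_⟩
    · show (((Real.log (1 / 2) : ℝ) : ℂ)).re < 0
      rw [Complex.ofReal_re]; exact hlog
    · show (((Real.log (1 / 2) : ℝ) : ℂ) + (θ : ℂ) * Complex.I).re < 0
      rw [Complex.add_re, Complex.ofReal_re, Complex.re_ofReal_mul, Complex.I_re, mul_zero,
        add_zero]
      exact hlog
  have hf0c : Continuous f0 := by
    rw [hf0]; fun_prop
  have hpsi : ∀ θ, disj_inv_H m i (θ, 0) = psi m (f0 θ) := fun θ => disj_inv_psi hm hi θ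
  have hsq : ∀ x, Squarefree (mpoly n (F (disj_inv_H m i x))) := fun x =>
    hF.sqf _ (disj_inv_conf hm hi x)
  have hFc : Continuous (fun x => F (disj_inv_H m i x)) :=
    hF.holo.comp_continuous (disj_inv_cont m i) (fun x => disj_inv_conf hm hi x)
  obtain ⟨M, hMc, hML⟩ := lab_lift (K := (Set.univ : Set (ℝ × ℝ))) convex_univ
    hFc.continuousOn (fun v _ => hsq v)
  have hMc' : ∀ a, Continuous (M a) := fun a => continuousOn_univ.mp (hMc a)
  have hML' : ∀ v, Lab (F (disj_inv_H m i v)) (fun a => M a v) := fun v => hML v (Set.mem_univ v)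
  -- correct the labels
  obtain ⟨π0, hπ0⟩ := lab_uniq (K := (Set.univ : Set ℝ)) isPreconnected_univ
    (φ := fun θ => F (disj_inv_H m i (θ, 0)))
    (fun θ _ => hsq (θ, 0)) (M := fun a θ => M a (θ, 0)) (M' := fun a θ => Y a (f0 θ))
    (fun a => ((hMc' a).comp (by fun_prop : Continuous fun θ : ℝ => (θ, (0:ℝ)))).continuousOn)
    (fun a => ((hY a).comp_continuous hf0c hf0P).continuousOn)
    (fun θ _ => hML' (θ, 0))
    (fun θ _ => by
      show Lab (F (disj_inv_H m i (θ, 0))) _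
      rw [hpsi θ]; exact hL _ (hf0P θ))
  set P : Fin n → ℝ × ℝ → ℂ := fun a x => M (π0 a) x with hP
  have hPc : ∀ a, Continuous (P a) := fun a => hMc' (π0 a)
  have hPL : ∀ v, Lab (F (disj_inv_H m i v)) (fun a => P a v) := by
    intro v
    have h := hML' v
    unfold Lab at h ⊢
    rw [h]
    exact (Equiv.prod_comp π0 (fun a => X - C (M a v))).symm
  have hPinj : ∀ v, Function.Injective (fun a => P a v) := fun v => lab_inj (hPL v) (hsq v)
  -- (1)
  have e1 : ∀ θ a, P a (θ, 0) = Y a (f0 θ) := fun θ a => (hπ0 θ (Set.mem_univ θ) a).symm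
  have e10 : ∀ a, P a (0, 0) = D.μ a (disj_inv_H m i (0, 0)) := by
    intro a
    rw [e1, hpsi]
    have h2 : f0 0 = (((Real.log (1 / 2) : ℝ) : ℂ), ((Real.log (1 / 2) : ℝ) : ℂ)) := by
      simp [hf0]
    rw [h2]
    exact hr _ _ hlog hlog a
  -- (2)
  have hline : Continuous fun φ : ℝ => ((0:ℝ), φ) := by fun_prop
  have hpi := Real.pi_pos
  have e2 : ∀ φ ∈ Set.Ico (0:ℝ) (Real.pi / 2), ∀ a, P a (0, φ) = D.μ a (disj_inv_H m i (0, φ)) := by
    have hcos : ∀ φ ∈ Set.Ico (0:ℝ) (Real.pi / 2), disj_inv_H m i (0, φ) ∈ Cham m := by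
      intro φ hφ
      exact disj_inv_Cham hm hi (Real.cos_pos_of_mem_Ioo ⟨by linarith [hφ.1], hφ.2⟩)
    obtain ⟨π1, hπ1⟩ := lab_uniq (K := Set.Ico (0:ℝ) (Real.pi / 2)) isPreconnected_Ico
      (φ := fun φ => F (disj_inv_H m i (0, φ)))
      (fun φ _ => hsq (0, φ)) (M := fun a φ => P a (0, φ))
      (M' := fun a φ => D.μ a (disj_inv_H m i (0, φ)))
      (fun a => ((hPc a).comp hline).continuousOn)
      (fun a => (D.μ_cont a).comp ((disj_inv_cont m i).comp hline).continuousOn hcos)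
      (fun φ _ => hPL (0, φ))
      (fun φ hφ => D.μ_lab _ (hcos φ hφ))
    have hid : ∀ a, π1 a = a := by
      intro a
      have h2 := hπ1 0 ⟨le_refl _, by positivity⟩ a
      rw [← e10 a] at h2
      exact (hPinj (0, 0) h2).symm
    intro φ hφ a
    have h2 := hπ1 φ hφ a
    rw [hid a] at h2
    exact h2.symm
  have e3 : ∀ φ ∈ Set.Ioo (0:ℝ) Real.pi, ∀ a, P a (0, φ) = D.T i a (disj_inv_H m i (0, φ)) := by
    have hsin : ∀ φ ∈ Set.Ioo (0:ℝ) Real.pi, disj_inv_H m i (0, φ) ∈ KP m i := by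
      intro φ hφ
      exact disj_inv_KP hm i hi (Real.sin_pos_of_mem_Ioo hφ)
    obtain ⟨π1, hπ1⟩ := lab_uniq (K := Set.Ioo (0:ℝ) Real.pi) isPreconnected_Ioo
      (φ := fun φ => F (disj_inv_H m i (0, φ)))
      (fun φ _ => hsq (0, φ)) (M := fun a φ => P a (0, φ))
      (M' := fun a φ => D.T i a (disj_inv_H m i (0, φ)))
      (fun a => ((hPc a).comp hline).continuousOn)
      (fun a => (D.T_cont i a).comp ((disj_inv_cont m i).comp hline).continuousOn hsin)
      (fun φ _ => hPL (0, φ))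
      (fun φ hφ => D.T_lab i _ (hsin φ hφ))
    have hmem : Real.pi / 4 ∈ Set.Ioo (0:ℝ) Real.pi := ⟨by positivity, by linarith⟩
    have hmem2 : Real.pi / 4 ∈ Set.Ico (0:ℝ) (Real.pi / 2) := ⟨by positivity, by linarith⟩
    have hid : ∀ a, π1 a = a := by
      intro a
      have h2 := hπ1 (Real.pi / 4) hmem a
      rw [D.T_eq i _ (hsin _ hmem)
        (disj_inv_Cham hm hi (Real.cos_pos_of_mem_Ioo ⟨by linarith, hmem2.2⟩)),
        ← e2 _ hmem2 a] at h2
      exact (hPinj (0, Real.pi / 4) h2).symm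
    intro φ hφ a
    have h2 := hπ1 φ hφ a
    rw [hid a] at h2
    exact h2.symm
  have e4 : ∀ a, P a (0, Real.pi) = P (D.lam i a) (0, 0) := by
    have hcos : ∀ φ ∈ Set.Ioc (Real.pi / 2) Real.pi, disj_inv_H m i (0, φ + Real.pi) ∈ Cham m := by
      intro φ hφ
      apply disj_inv_Cham hm hi
      rw [Real.cos_add_pi]
      have := Real.cos_neg_of_pi_div_two_lt_of_lt hφ.1 (by linarith [hφ.2])
      linarith
    have hline' : Continuous fun φ : ℝ => ((0:ℝ), φ + Real.pi) := by fun_prop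
    obtain ⟨π1, hπ1⟩ := lab_uniq (K := Set.Ioc (Real.pi / 2) Real.pi) isPreconnected_Ioc
      (φ := fun φ => F (disj_inv_H m i (0, φ)))
      (fun φ _ => hsq (0, φ)) (M := fun a φ => P a (0, φ))
      (M' := fun a φ => D.μ a (disj_inv_H m i (0, φ + Real.pi)))
      (fun a => ((hPc a).comp hline).continuousOn)
      (fun a => (D.μ_cont a).comp ((disj_inv_cont m i).comp hline').continuousOn hcos)
      (fun φ _ => hPL (0, φ))
      (fun φ hφ => by
        have h2 := D.μ_lab _ (hcos φ hφ)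
        rw [← disj_inv_sw i hi, hF.symm _ (disj_inv_conf hm hi _)] at h2
        rw [← disj_inv_sw i hi]
        exact h2)
    have hmem : 3 * Real.pi / 4 ∈ Set.Ioo (0:ℝ) Real.pi := ⟨by positivity, by linarith⟩
    have hmem2 : 3 * Real.pi / 4 ∈ Set.Ioc (Real.pi / 2) Real.pi := ⟨by linarith, by linarith⟩
    have hmem3 : Real.pi ∈ Set.Ioc (Real.pi / 2) Real.pi := ⟨by linarith, le_refl _⟩
    have hid : ∀ a, π1 (D.lam i a) = a := by
      intro a
      have h2 := hπ1 _ hmem2 (D.lam i a)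
      have h3 := D.T_sw i _ (disj_inv_KP hm i hi (Real.sin_pos_of_mem_Ioo hmem))
        (by rw [disj_inv_sw i hi]; exact hcos _ hmem2) a
      rw [disj_inv_sw i hi, ← e3 _ hmem a] at h3
      rw [← h3] at h2
      exact (hPinj (0, 3 * Real.pi / 4) h2).symm
    intro a
    have h2 := hπ1 _ hmem3 (D.lam i a)
    rw [hid a] at h2
    rw [← h2]
    have h3 : Real.pi + Real.pi = 0 + 2 * Real.pi := by ring
    rw [h3, disj_inv_per2, e10]
  -- (3)
  have e5 : ∀ θ a, P a (θ, Real.pi) = P (D.lam i a) (θ, 0) := by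
    have hsw : ∀ θ, F (disj_inv_H m i (θ, Real.pi)) = F (disj_inv_H m i (θ, 0)) := by
      intro θ
      have h2 := disj_inv_sw i hi θ 0
      rw [zero_add] at h2
      rw [← h2, hF.symm _ (disj_inv_conf hm hi _)]
    obtain ⟨π1, hπ1⟩ := lab_uniq (K := (Set.univ : Set ℝ)) isPreconnected_univ
      (φ := fun θ => F (disj_inv_H m i (θ, 0)))
      (fun θ _ => hsq (θ, 0)) (M := fun a θ => P a (θ, 0)) (M' := fun a θ => P a (θ, Real.pi))
      (fun a => ((hPc a).comp (by fun_prop : Continuous fun θ : ℝ => (θ, (0:ℝ)))).continuousOn)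
      (fun a => ((hPc a).comp (by fun_prop : Continuous fun θ : ℝ => (θ, Real.pi))).continuousOn)
      (fun θ _ => hPL (θ, 0))
      (fun θ _ => by
        show Lab (F (disj_inv_H m i (θ, 0))) _
        rw [← hsw]; exact hPL (θ, Real.pi))
    intro θ a
    have h2 := hπ1 0 (Set.mem_univ _) a
    rw [e4] at h2
    have h3 := hPinj (0, 0) h2
    have h4 := hπ1 θ (Set.mem_univ _) a
    rw [h4, ← h3]
  -- (4)
  have e6 : ∀ a v, P a (v + (2 * Real.pi * (n.factorial : ℝ), 0)) = P a v := by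
    obtain ⟨τ, hτ⟩ := lab_uniq (K := (Set.univ : Set (ℝ × ℝ))) isPreconnected_univ
      (φ := fun v => F (disj_inv_H m i v))
      (fun v _ => hsq v) (M := P) (M' := fun a v => P a (v + (2 * Real.pi, 0)))
      (fun a => (hPc a).continuousOn)
      (fun a => ((hPc a).comp (by fun_prop :
        Continuous fun v : ℝ × ℝ => v + (2 * Real.pi, (0:ℝ)))).continuousOn)
      (fun v _ => hPL v)
      (fun v _ => by
        have h2 := hPL (v + (2 * Real.pi, 0))
        have h3 : disj_inv_H m i (v + (2 * Real.pi, 0)) = disj_inv_H m i v := by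
          obtain ⟨θ, φ⟩ := v
          rw [Prod.mk_add_mk, add_zero]
          exact disj_inv_per1 θ φ
        rw [h3] at h2
        exact h2)
    have h2 : ∀ k : ℕ, ∀ a v, P a (v + (2 * Real.pi * (k : ℝ), 0)) = P ((τ ^ k) a) v := by
      intro k
      induction k with
      | zero => intro a v; simp [← Prod.zero_eq_mk]
      | succ k ih =>
        intro a v
        have h3 : v + (2 * Real.pi * ((k + 1 : ℕ) : ℝ), (0:ℝ)) =
            (v + (2 * Real.pi * (k : ℝ), 0)) + (2 * Real.pi, 0) := by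
          refine Prod.ext ?_ ?_
          · simp only [Prod.fst_add]; push_cast; ring
          · simp only [Prod.snd_add]; ring
        rw [h3, hτ _ (Set.mem_univ _), ih, pow_succ]
        rfl
    intro a v
    rw [h2]
    have h3 : τ ^ n.factorial = 1 := by
      have h4 : Fintype.card (Equiv.Perm (Fin n)) = n.factorial := by
        rw [Fintype.card_perm, Fintype.card_fin]
      rw [← h4]
      exact pow_card_eq_one
    rw [h3]
    rfl
  -- (5)
  obtain ⟨w, hw⟩ := Wd.exists (K := (Set.univ : Set (ℝ × ℝ))) convex_univ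
    (g := fun v => P a v - P b v) (p := (2 * Real.pi * (n.factorial : ℝ), 0))
    (fun v _ => Set.mem_univ _) ((hPc a).sub (hPc b)).continuousOn
    (fun v _ => sub_ne_zero.mpr (fun h => hab (hPinj v h)))
    (fun v _ => by simp only [e6])
  have hA := hw.comp (K' := (Set.univ : Set ℝ)) (p' := 2 * Real.pi * (n.factorial : ℝ))
    (f := fun θ : ℝ => (θ, (0:ℝ))) (by fun_prop) (fun _ _ => Set.mem_univ _)
    (fun θ _ => by simp)
  have hB := hw.comp (K' := (Set.univ : Set ℝ)) (p' := 2 * Real.pi * (n.factorial : ℝ))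
    (f := fun θ : ℝ => (θ, Real.pi)) (by fun_prop) (fun _ _ => Set.mem_univ _)
    (fun θ _ => by simp)
  have hC : ∀ a b, a ≠ b → Wd (Set.univ : Set ℝ) (fun θ => Y a (f0 θ) - Y b (f0 θ))
      (2 * Real.pi * (n.factorial : ℝ)) (W' a b) := by
    intro a b hab
    refine (h1 a b hab).comp (f := f0) hf0c.continuousOn (fun θ _ => hf0P θ) (fun θ _ => ?_)
    simp only [hf0, Prod.mk_add_mk, add_zero]
    congr 1
    push_cast
    ring
  have hne : D.lam i a ≠ D.lam i b := fun h => hab ((D.lam i).injective h)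
  have hA' : Wd (Set.univ : Set ℝ) (fun θ => Y a (f0 θ) - Y b (f0 θ))
      (2 * Real.pi * (n.factorial : ℝ)) w := by
    refine hA.congr (fun θ _ => ?_)
    simp only [e1]
  have hB' : Wd (Set.univ : Set ℝ) (fun θ => Y (D.lam i a) (f0 θ) - Y (D.lam i b) (f0 θ))
      (2 * Real.pi * (n.factorial : ℝ)) w := by
    refine hB.congr (fun θ _ => ?_)
    simp only [e5, e1]
  have r1 := Wd.unique isPreconnected_univ ⟨0, Set.mem_univ _⟩ (fun _ _ => Set.mem_univ _)
    hA' (hC a b hab)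
  have r2 := Wd.unique isPreconnected_univ ⟨0, Set.mem_univ _⟩ (fun _ _ => Set.mem_univ _)
    hB' (hC _ _ hne)
  rw [← r1, ← r2]

end LinC
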