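import Pool.Agent.Helper996.LinC.Base
import Pool.Agent.Helper996.Lin.Defs
import Pool.Agent.Helper996.Lin.J_lab_basic
import Pool.Agent.Helper996.Lin.J_lab_lift
import Pool.Agent.Helper996.Lin.J_wd_basic
import Pool.Agent.Helper996.Lin.J_charts

set_option autoImplicit false

open Polynomial Set LinS

namespace LinC

theorem exists_data_perm {n : ℕ} {z M : Fin n → ℂ} (h : Lab z M) (π : Equiv.Perm (Fin n)) :
    Lab z (fun a => M (π a)) := by
  unfold Lab at *
  rw [h]
  exact (Equiv.prod_comp π (fun a => X - C (M a))).symm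

theorem exists_data_cham {m : ℕ} (x : Fin m → ℝ) (hx : (fun j => (x j : ℂ)) ∈ UN m) :
    nest (fun j => (x j : ℂ)) ∈ Cham m := by
  have hre : ∀ i : Fin m, (nest (fun j => (x j : ℂ)) i.succ).re =
      Real.exp (∑ j ∈ Finset.Ici i, x j) := by
    intro i
    unfold nest
    rw [Fin.cons_succ, ← Complex.ofReal_sum, ← Complex.ofReal_exp, Complex.ofReal_re]
  intro p q hpq
  induction q using Fin.cases with
  | zero => exact absurd hpq (Fin.not_lt_zero p)
  | succ k =>
    induction p using Fin.cases with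
    | zero =>
      rw [hre]
      unfold nest
      rw [Fin.cons_zero, Complex.zero_re]
      exact Real.exp_pos _
    | succ i =>
      rw [hre, hre, Real.exp_lt_exp]
      have hik : i < k := Fin.succ_lt_succ_iff.1 hpq
      have hsub : Finset.Ici k ⊆ Finset.Ici i := Finset.Ici_subset_Ici.2 hik.le
      rw [← Finset.sum_sdiff hsub]
      have hneg : ∑ j ∈ Finset.Ici i \ Finset.Ici k, x j < 0 := by
        apply Finset.sum_neg
        · intro j hj
          rw [Finset.mem_sdiff, Finset.mem_Ici, Finset.mem_Ici, not_le] at hj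
          have h1 : (j : ℕ) + 1 < m := by
            have := Fin.lt_def.1 hj.2
            have := k.2
            omega
          have := hx j h1
          simpa using this
        · exact ⟨i, by
            rw [Finset.mem_sdiff, Finset.mem_Ici, Finset.mem_Ici, not_le]
            exact ⟨le_rfl, hik⟩⟩
      linarith

theorem exists_data_R {m : ℕ} :
    Convex ℝ {x : Fin m → ℝ | (fun j => (x j : ℂ)) ∈ UN m} := by
  intro x hx y hy a b ha hb hab
  have hlin : (fun j => (((a • x + b • y) j : ℝ) : ℂ)) =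
      a • (fun j => (x j : ℂ)) + b • (fun j => (y j : ℂ)) := by
    funext j
    simp
  show (fun j => (((a • x + b • y) j : ℝ) : ℂ)) ∈ UN m
  rw [hlin]
  exact UN_convex m hx hy ha hb hab

theorem exists_data_sw {m : ℕ} (i : Fin m) :
    Convex ℝ {r : Fin (m + 1) → ℂ | r ∈ KP m i ∧ r ∘ sw i ∈ Cham m} := by
  intro x hx y hy a b ha hb hab
  refine ⟨KP_convex m i hx.1 hy.1 ha hb hab, ?_⟩
  have hlin : (a • x + b • y) ∘ sw i = a • (x ∘ sw i) + b • (y ∘ sw i) := rfl
  rw [hlin]
  exact Cham_convex m hx.2 hy.2 ha hb hab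

theorem exists_data_UN {m : ℕ} {ζ p : Fin m → ℂ} (hζ : ζ ∈ UN m) (hp : ∀ j, (p j).re = 0) :
    ζ + p ∈ UN m := by
  intro j hj
  rw [Pi.add_apply, Complex.add_re, hp j, add_zero]
  exact hζ j hj

theorem exists_data {m n : ℕ} (hm : 0 < m) {F : (Fin (m + 1) → ℂ) → Fin n → ℂ}
    (hF : GoodC m n F) : Nonempty (Data m n F) := by
  classical
  have hFc : ContinuousOn F (Conf m) := hF.holo
  -- labels on the chamber
  obtain ⟨μ, μ_cont, μ_lab⟩ := lab_lift (Cham_convex m) (φ := F)
    (hFc.mono fun r hr => Cham_conf hr) (fun r hr => hF.sqf r (Cham_conf hr))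
  -- labels in the nested chart
  have hnc : Continuous (nest (m := m)) := nest_diff.continuous
  obtain ⟨M0, M0_cont, M0_lab⟩ := lab_lift (UN_convex m) (φ := fun ζ => F (nest ζ))
    (hFc.comp hnc.continuousOn fun ζ hζ => nest_conf hζ)
    (fun ζ hζ => hF.sqf _ (nest_conf hζ))
  have hof : Continuous (fun x : Fin m → ℝ => (fun j => (x j : ℂ))) := by fun_prop
  obtain ⟨π, hπ⟩ := lab_uniq (K := {x : Fin m → ℝ | (fun j => (x j : ℂ)) ∈ UN m})
    exists_data_R.isPreconnected (φ := fun x => F (nest (fun j => (x j : ℂ))))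
    (fun x hx => hF.sqf _ (nest_conf hx))
    (M := fun a x => M0 a (fun j => (x j : ℂ)))
    (M' := fun a x => μ a (nest (fun j => (x j : ℂ))))
    (fun a => (M0_cont a).comp hof.continuousOn fun x hx => hx)
    (fun a => (μ_cont a).comp (hnc.comp hof).continuousOn fun x hx => exists_data_cham x hx)
    (fun x hx => M0_lab _ hx)
    (fun x hx => μ_lab _ (exists_data_cham x hx))
  -- labels on the walls
  have hT : ∀ i : Fin m, ∃ T : Fin n → (Fin (m + 1) → ℂ) → ℂ,
      (∀ a, ContinuousOn (T a) (KP m i)) ∧ (∀ r ∈ KP m i, Lab (F r) (fun a => T a r)) ∧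
      (∀ r ∈ KP m i, r ∈ Cham m → ∀ a, T a r = μ a r) := by
    intro i
    obtain ⟨T0, T0_cont, T0_lab⟩ := lab_lift (KP_convex m i) (φ := F)
      (hFc.mono fun r hr => KP_conf hr) (fun r hr => hF.sqf r (KP_conf hr))
    obtain ⟨ρ, hρ⟩ := lab_uniq (K := KP m i ∩ Cham m)
      ((KP_convex m i).inter (Cham_convex m)).isPreconnected (φ := F)
      (fun r hr => hF.sqf r (Cham_conf hr.2)) (M := T0) (M' := μ)
      (fun a => (T0_cont a).mono Set.inter_subset_left)
      (fun a => (μ_cont a).mono Set.inter_subset_right)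
      (fun r hr => T0_lab r hr.1) (fun r hr => μ_lab r hr.2)
    exact ⟨fun a => T0 (ρ a), fun a => T0_cont (ρ a),
      fun r hr => exists_data_perm (T0_lab r hr) ρ, fun r hr hr' a => (hρ r ⟨hr, hr'⟩ a).symm⟩
  choose T T_cont T_lab T_eq using hT
  have hlam : ∀ i : Fin m, ∃ lam : Equiv.Perm (Fin n), ∀ r ∈ KP m i, r ∘ sw i ∈ Cham m →
      ∀ a, T i a r = μ (lam a) (r ∘ sw i) := by
    intro i
    have hsw : Continuous (fun r : Fin (m + 1) → ℂ => r ∘ sw i) := by
      exact continuous_pi fun k => continuous_apply _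
    obtain ⟨ρ, hρ⟩ := lab_uniq (K := {r : Fin (m + 1) → ℂ | r ∈ KP m i ∧ r ∘ sw i ∈ Cham m})
      (exists_data_sw i).isPreconnected (φ := F)
      (fun r hr => hF.sqf r (KP_conf hr.1)) (M := fun a r => μ a (r ∘ sw i)) (M' := T i)
      (fun a => (μ_cont a).comp hsw.continuousOn fun r hr => hr.2)
      (fun a => (T_cont i a).mono fun r hr => hr.1)
      (fun r hr => by
        have := μ_lab _ hr.2
        rwa [hF.symm r (KP_conf hr.1)] at this)
      (fun r hr => T_lab i r hr.1)
    exact ⟨ρ, fun r hr hr' a => hρ r ⟨hr, hr'⟩ a⟩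
  choose lam T_sw using hlam
  -- the labels in the nested chart, corrected
  let M : Fin n → (Fin m → ℂ) → ℂ := fun a => M0 (π a)
  have M_cont : ∀ a, ContinuousOn (M a) (UN m) := fun a => M0_cont (π a)
  have M_lab : ∀ ζ ∈ UN m, Lab (F (nest ζ)) (fun a => M a ζ) := fun ζ hζ =>
    exists_data_perm (M0_lab ζ hζ) π
  have hperre : ∀ (j : Fin m) (c : ℂ), c.re = 0 → ∀ k, ((Pi.single j c : Fin m → ℂ) k).re = 0 := by
    intro j c hc k
    by_cases h : k = j
    · subst h; rw [Pi.single_eq_same]; exact hc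
    · rw [Pi.single_eq_of_ne h]; rfl
  have hre1 : (2 * (Real.pi : ℂ) * Complex.I).re = 0 := by simp
  have hper : ∀ j : Fin m, ∀ ζ ∈ UN m, ∀ a, M a (ζ + per m n j) = M a ζ := by
    intro j
    set e : Fin m → ℂ := Pi.single j (2 * Real.pi * Complex.I) with he
    have hee : ∀ ζ ∈ UN m, ζ + e ∈ UN m := fun ζ hζ =>
      exists_data_UN hζ (hperre j _ hre1)
    obtain ⟨τ, hτ⟩ := lab_uniq (K := UN m) (UN_convex m).isPreconnected
      (φ := fun ζ => F (nest ζ)) (fun ζ hζ => hF.sqf _ (nest_conf hζ)) (M := M)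
      (M' := fun a ζ => M a (ζ + e)) M_cont
      (fun a => (M_cont a).comp (by fun_prop) hee) M_lab
      (fun ζ hζ => by
        have := M_lab _ (hee ζ hζ)
        rwa [he, nest_per (n := 0)] at this)
    have hk : ∀ (k : ℕ), ∀ ζ ∈ UN m, ζ + k • e ∈ UN m ∧ ∀ a, M a (ζ + k • e) = M ((τ ^ k) a) ζ := by
      intro k
      induction k with
      | zero => intro ζ hζ; simp [hζ]
      | succ k ih =>
        intro ζ hζ
        have h1 : ζ + (k + 1) • e = (ζ + k • e) + e := by rw [succ_nsmul, add_assoc]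
        obtain ⟨h2, h3⟩ := ih ζ hζ
        refine ⟨by rw [h1]; exact hee _ h2, fun a => ?_⟩
        rw [h1, hτ _ h2 a, h3, pow_succ]
        rfl
    intro ζ hζ a
    have hp : per m n j = n.factorial • e := by
      unfold per
      funext k
      by_cases h : k = j
      · subst h
        simp [he]
        ring
      · simp [he, Pi.single_eq_of_ne h]
    have hτ1 : τ ^ n.factorial = 1 := by
      have := pow_card_eq_one (x := τ)
      rwa [Fintype.card_perm, Fintype.card_fin] at this
    rw [hp, (hk _ ζ hζ).2, hτ1]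
    rfl
  have hW : ∀ (a b : Fin n) (j : Fin m), ∃ w : ℤ, a ≠ b →
      Wd (UN m) (fun ζ => M a ζ - M b ζ) (per m n j) w := by
    intro a b j
    by_cases hab : a = b
    · exact ⟨0, fun h => absurd hab h⟩
    · have hre2 : (2 * (Real.pi : ℂ) * Complex.I * (n.factorial : ℂ)).re = 0 := by
        simp
      obtain ⟨w, hw⟩ := Wd.exists (UN_convex m) (g := fun ζ => M a ζ - M b ζ) (p := per m n j)
        (fun v hv => exists_data_UN hv (hperre j _ hre2))
        ((M_cont a).sub (M_cont b))
        (fun v hv h0 => hab (lab_inj (M_lab v hv) (hF.sqf _ (nest_conf hv)) (sub_eq_zero.1 h0)))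
        (fun v hv => by simp only [hper j v hv])
      exact ⟨w, fun _ => hw⟩
  choose W hWd using hW
  exact ⟨{ μ := μ
           M := M
           T := T
           lam := lam
           W := W
           μ_cont := μ_cont
           μ_lab := μ_lab
           M_cont := M_cont
           M_lab := M_lab
           M_eq := fun x hx a => (hπ x hx a).symm
           T_cont := T_cont
           T_lab := T_lab
           T_eq := T_eq
           T_sw := T_sw
           W_wd := fun a b hab j => hWd a b j hab }⟩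

end LinC
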