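import Pool.Agent.Helper996.LinC.Base
import Pool.Agent.Helper996.Lin.Defs
import Pool.Agent.Helper996.Lin.Defs4
import Pool.Agent.Helper996.Lin.Defs6
import Pool.Agent.Helper996.Lin.J_lab_basic
import Pool.Agent.Helper996.Lin.J_lab_lift
import Pool.Agent.Helper996.Lin.J_charts
import Pool.Agent.Helper996.LinC.C_crossLR

set_option autoImplicit false

open Polynomial Set Filter Topology LinS

namespace LinC

variable {m n : ℕ} {F : (Fin (m + 1) → ℂ) → Fin n → ℂ}

/-- increasing imaginary parts -/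
def lam_braid_Om (m : ℕ) : Set (Fin (m + 1) → ℂ) :=
  {r | ∀ p q : Fin (m + 1), p < q → (r p).im < (r q).im}

theorem lam_braid_Om_convex (m : ℕ) : Convex ℝ (lam_braid_Om m) := by
  intro r hr s hs a b ha hb hab p q hpq
  have h1 := hr p q hpq
  have h2 := hs p q hpq
  simp only [Pi.add_apply, Pi.smul_apply, Complex.add_im, Complex.real_smul,
    Complex.im_ofReal_mul]
  rcases ha.eq_or_lt with h | h
  · have hb1 : b = 1 := by linarith
    rw [← h, hb1]
    linarith
  · have h3 := mul_lt_mul_of_pos_left h1 h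
    have h4 := mul_le_mul_of_nonneg_left h2.le hb
    linarith

theorem lam_braid_Om_conf {m : ℕ} {r : Fin (m + 1) → ℂ} (h : r ∈ lam_braid_Om m) :
    r ∈ Conf m := by
  intro p q hpq
  rcases lt_trichotomy p q with h1 | h1 | h1
  · have := h p q h1
    rw [hpq] at this
    exact absurd this (lt_irrefl _)
  · exact h1
  · have := h q p h1
    rw [hpq] at this
    exact absurd this (lt_irrefl _)

/-- witnesses -/
noncomputable def lam_braid_w (m : ℕ) (ρ : Equiv.Perm (Fin (m + 1))) : Fin (m + 1) → ℂ :=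
  fun l => (((ρ.symm l : Fin (m + 1)) : ℕ) : ℂ) + ((l : ℕ) : ℂ) * Complex.I

theorem lam_braid_w_im (m : ℕ) (ρ : Equiv.Perm (Fin (m + 1))) (l : Fin (m + 1)) :
    (lam_braid_w m ρ l).im = ((l : ℕ) : ℝ) := by
  unfold lam_braid_w
  simp

theorem lam_braid_w_re (m : ℕ) (ρ : Equiv.Perm (Fin (m + 1))) (l : Fin (m + 1)) :
    (lam_braid_w m ρ l).re = (((ρ.symm l : Fin (m + 1)) : ℕ) : ℝ) := by
  unfold lam_braid_w
  simp

theorem lam_braid_w_Om (m : ℕ) (ρ : Equiv.Perm (Fin (m + 1))) :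
    lam_braid_w m ρ ∈ lam_braid_Om m := by
  intro p q hpq
  rw [lam_braid_w_im, lam_braid_w_im]
  exact_mod_cast hpq

theorem lam_braid_w_Cham (m : ℕ) (ρ : Equiv.Perm (Fin (m + 1))) :
    lam_braid_w m ρ ∘ ρ ∈ Cham m := by
  intro p q hpq
  rw [Function.comp_apply, Function.comp_apply, lam_braid_w_re, lam_braid_w_re,
    Equiv.symm_apply_apply, Equiv.symm_apply_apply]
  exact_mod_cast hpq

theorem lam_braid_sw_val {m : ℕ} (i : Fin m) (p : Fin (m + 1)) :
    ((sw i p : Fin (m + 1)) : ℕ) =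
      if (p : ℕ) = i then (i : ℕ) + 1 else if (p : ℕ) = (i : ℕ) + 1 then (i : ℕ) else p := by
  have hc : ((i.castSucc : Fin (m + 1)) : ℕ) = (i : ℕ) := Fin.val_castSucc i
  have hs : ((i.succ : Fin (m + 1)) : ℕ) = (i : ℕ) + 1 := Fin.val_succ i
  by_cases h1 : (p : ℕ) = i
  · have h2 : p = i.castSucc := Fin.ext (by rw [h1, hc])
    have h3 : sw i i.castSucc = i.succ := Equiv.swap_apply_left _ _
    rw [if_pos h1, h2, h3, hs]
  · by_cases h4 : (p : ℕ) = (i : ℕ) + 1
    · have h2 : p = i.succ := Fin.ext (by rw [h4, hs])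
      have h3 : sw i i.succ = i.castSucc := Equiv.swap_apply_right _ _
      rw [if_neg h1, if_pos h4, h2, h3, hc]
    · have h3 : sw i p = p := Equiv.swap_apply_of_ne_of_ne
        (fun h => h1 (by rw [h, hc])) (fun h => h4 (by rw [h, hs]))
      rw [if_neg h1, if_neg h4, h3]

theorem lam_braid_sw_sw {m : ℕ} (i : Fin m) (p : Fin (m + 1)) : sw i (sw i p) = p := by
  have h := Equiv.swap_swap (i.castSucc : Fin (m + 1)) i.succ
  exact congrArg (fun e : Equiv.Perm (Fin (m + 1)) => e p) h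

/-- the transport statement -/
def lam_braid_S (D : Data m n F) (X : Fin n → (Fin (m + 1) → ℂ) → ℂ)
    (π : Equiv.Perm (Fin (m + 1))) (g : Equiv.Perm (Fin n)) : Prop :=
  ∀ r ∈ lam_braid_Om m, r ∘ π ∈ Cham m → ∀ a, X a r = D.μ (g a) (r ∘ π)

theorem lam_braid_step (hF : GoodC m n F) (D : Data m n F)
    {X : Fin n → (Fin (m + 1) → ℂ) → ℂ} (hX : ∀ a, ContinuousOn (X a) (lam_braid_Om m))
    (hL : ∀ r ∈ lam_braid_Om m, Lab (F r) (fun a => X a r)) (i : Fin m)
    (π : Equiv.Perm (Fin (m + 1))) (g : Equiv.Perm (Fin n)) (hS : lam_braid_S D X π g)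
    (hlt : ((π i.castSucc : Fin (m + 1)) : ℕ) < ((π i.succ : Fin (m + 1)) : ℕ)) :
    lam_braid_S D X (π * sw i) (D.lam i * g) := by
  have hc : ((i.castSucc : Fin (m + 1)) : ℕ) = (i : ℕ) := Fin.val_castSucc i
  have hs : ((i.succ : Fin (m + 1)) : ℕ) = (i : ℕ) + 1 := Fin.val_succ i
  refine crossL hF D (lam_braid_Om_convex m) (fun r hr => lam_braid_Om_conf hr) hX hL i π g hS
    ⟨lam_braid_w m π, lam_braid_w_Om m π, ⟨?_, ?_⟩, lam_braid_w_Cham m π⟩
    ⟨lam_braid_w m (π * sw i), lam_braid_w_Om m _, ⟨?_, ?_⟩, ?_⟩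
  · rw [Function.comp_apply, Function.comp_apply, lam_braid_w_im, lam_braid_w_im]
    exact_mod_cast hlt
  · intro p q hpq _
    exact lam_braid_w_Cham m π p q hpq
  · rw [Function.comp_apply, Function.comp_apply, lam_braid_w_im, lam_braid_w_im]
    exact_mod_cast hlt
  · intro p q hpq hne
    have key : ∀ p, ((π * sw i : Equiv.Perm (Fin (m + 1))).symm (π p)) = sw i p := by
      intro p
      rw [Equiv.symm_apply_eq, Equiv.Perm.mul_apply, lam_braid_sw_sw]
    rw [Function.comp_apply, Function.comp_apply, lam_braid_w_re, lam_braid_w_re, key, key]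
    have hpq' : (p : ℕ) < (q : ℕ) := hpq
    have hne' : ¬ ((p : ℕ) = i ∧ (q : ℕ) = i + 1) := by
      rintro ⟨h1, h2⟩
      exact hne ⟨Fin.ext (by rw [h1, hc]), Fin.ext (by rw [h2, hs])⟩
    have h3 : ((sw i p : Fin (m + 1)) : ℕ) < ((sw i q : Fin (m + 1)) : ℕ) := by
      rw [lam_braid_sw_val, lam_braid_sw_val]
      split_ifs <;> omega
    exact_mod_cast h3
  · have h1 := lam_braid_w_Cham m (π * sw i)
    exact h1

theorem lam_braid_main (hF : GoodC m n F) (D : Data m n F) :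
    ∃ X : Fin n → (Fin (m + 1) → ℂ) → ℂ, (∀ a, ContinuousOn (X a) (lam_braid_Om m)) ∧
      (∀ r ∈ lam_braid_Om m, Lab (F r) (fun a => X a r)) ∧ lam_braid_S D X 1 1 := by
  have hconf : ∀ r ∈ lam_braid_Om m, r ∈ Conf m := fun r hr => lam_braid_Om_conf hr
  obtain ⟨X, hX, hL⟩ := lab_lift (lam_braid_Om_convex m)
    (hF.holo.mono hconf) (fun r hr => hF.sqf r (hconf r hr))
  have hcv : Convex ℝ (lam_braid_Om m ∩ Cham m) := (lam_braid_Om_convex m).inter (Cham_convex m)
  obtain ⟨π, hπ⟩ := lab_uniq (K := lam_braid_Om m ∩ Cham m) hcv.isPreconnected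
    (φ := F) (fun r hr => hF.sqf r (hconf r hr.1)) (M := X) (M' := D.μ)
    (fun a => (hX a).mono inter_subset_left) (fun a => (D.μ_cont a).mono inter_subset_right)
    (fun r hr => hL r hr.1) (fun r hr => D.μ_lab r hr.2)
  refine ⟨fun a => X (π a), fun a => hX (π a), ?_, ?_⟩
  · intro r hr
    have h := hL r hr
    unfold Lab at h ⊢
    rw [h]
    exact (Equiv.prod_comp π (fun a => Polynomial.X - C (X a r))).symm
  · intro r hr hr2 a
    exact (hπ r ⟨hr, hr2⟩ a).symm

theorem lam_braid_end (hF : GoodC m n F) (D : Data m n F)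
    {X : Fin n → (Fin (m + 1) → ℂ) → ℂ} {ρ : Equiv.Perm (Fin (m + 1))}
    {g g' : Equiv.Perm (Fin n)} (h : lam_braid_S D X ρ g) (h' : lam_braid_S D X ρ g') :
    g = g' := by
  ext1 a
  have h1 := h (lam_braid_w m ρ) (lam_braid_w_Om m ρ) (lam_braid_w_Cham m ρ) a
  have h2 := h' (lam_braid_w m ρ) (lam_braid_w_Om m ρ) (lam_braid_w_Cham m ρ) a
  rw [h1] at h2
  have hc := lam_braid_w_Cham m ρ
  exact lab_inj (D.μ_lab _ hc) (hF.sqf _ (Cham_conf hc)) h2

theorem lam_braid (hF : GoodC m n F) (D : Data m n F) (i i' : Fin m) (h : (i' : ℕ) = i + 1) :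
    D.lam i * D.lam i' * D.lam i = D.lam i' * D.lam i * D.lam i' := by
  obtain ⟨X, hX, hL, h0⟩ := lam_braid_main hF D
  have hc : ((i.castSucc : Fin (m + 1)) : ℕ) = (i : ℕ) := Fin.val_castSucc i
  have hs : ((i.succ : Fin (m + 1)) : ℕ) = (i : ℕ) + 1 := Fin.val_succ i
  have hc' : ((i'.castSucc : Fin (m + 1)) : ℕ) = (i' : ℕ) := Fin.val_castSucc i'
  have hs' : ((i'.succ : Fin (m + 1)) : ℕ) = (i' : ℕ) + 1 := Fin.val_succ i'
  have a1 := lam_braid_step hF D hX hL i 1 1 h0 (by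
    rw [Equiv.Perm.one_apply, Equiv.Perm.one_apply, hc, hs]; omega)
  have a2 := lam_braid_step hF D hX hL i' _ _ a1 (by
    rw [one_mul, lam_braid_sw_val, lam_braid_sw_val, hc', hs']
    split_ifs <;> omega)
  have a3 := lam_braid_step hF D hX hL i _ _ a2 (by
    rw [one_mul, Equiv.Perm.mul_apply, Equiv.Perm.mul_apply, lam_braid_sw_val,
      lam_braid_sw_val i, lam_braid_sw_val i', lam_braid_sw_val i', hc, hs]
    split_ifs <;> omega)
  have b1 := lam_braid_step hF D hX hL i' 1 1 h0 (by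
    rw [Equiv.Perm.one_apply, Equiv.Perm.one_apply, hc', hs']; omega)
  have b2 := lam_braid_step hF D hX hL i _ _ b1 (by
    rw [one_mul, lam_braid_sw_val, lam_braid_sw_val, hc, hs]
    split_ifs <;> omega)
  have b3 := lam_braid_step hF D hX hL i' _ _ b2 (by
    rw [one_mul, Equiv.Perm.mul_apply, Equiv.Perm.mul_apply, lam_braid_sw_val,
      lam_braid_sw_val i', lam_braid_sw_val i, lam_braid_sw_val i, hc', hs']
    split_ifs <;> omega)
  have hρ : (1 * sw i * sw i' * sw i : Equiv.Perm (Fin (m + 1))) = 1 * sw i' * sw i * sw i' := by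
    ext p : 1
    apply Fin.ext
    simp only [Equiv.Perm.mul_apply, Equiv.Perm.one_apply, lam_braid_sw_val, h]
    split_ifs <;> omega
  rw [hρ] at a3
  have key := lam_braid_end hF D a3 b3
  rw [mul_one, mul_one, ← mul_assoc, ← mul_assoc] at key
  exact key

theorem lam_comm (hF : GoodC m n F) (D : Data m n F) (i i' : Fin m) (h : (i : ℕ) + 2 ≤ i') :
    D.lam i * D.lam i' = D.lam i' * D.lam i := by
  obtain ⟨X, hX, hL, h0⟩ := lam_braid_main hF D
  have hc : ((i.castSucc : Fin (m + 1)) : ℕ) = (i : ℕ) := Fin.val_castSucc i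
  have hs : ((i.succ : Fin (m + 1)) : ℕ) = (i : ℕ) + 1 := Fin.val_succ i
  have hc' : ((i'.castSucc : Fin (m + 1)) : ℕ) = (i' : ℕ) := Fin.val_castSucc i'
  have hs' : ((i'.succ : Fin (m + 1)) : ℕ) = (i' : ℕ) + 1 := Fin.val_succ i'
  have a1 := lam_braid_step hF D hX hL i 1 1 h0 (by
    rw [Equiv.Perm.one_apply, Equiv.Perm.one_apply, hc, hs]; omega)
  have a2 := lam_braid_step hF D hX hL i' _ _ a1 (by
    rw [one_mul, lam_braid_sw_val, lam_braid_sw_val, hc', hs']
    split_ifs <;> omega)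
  have b1 := lam_braid_step hF D hX hL i' 1 1 h0 (by
    rw [Equiv.Perm.one_apply, Equiv.Perm.one_apply, hc', hs']; omega)
  have b2 := lam_braid_step hF D hX hL i _ _ b1 (by
    rw [one_mul, lam_braid_sw_val, lam_braid_sw_val, hc, hs]
    split_ifs <;> omega)
  have hρ : (1 * sw i * sw i' : Equiv.Perm (Fin (m + 1))) = 1 * sw i' * sw i := by
    ext p : 1
    apply Fin.ext
    simp only [Equiv.Perm.mul_apply, Equiv.Perm.one_apply, lam_braid_sw_val]
    split_ifs <;> omega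
  rw [hρ] at a2
  have key := lam_braid_end hF D a2 b2
  rw [mul_one, mul_one] at key
  exact key.symm

end LinC
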