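import Pool.Agent.Helper996.LinC.Base
import Pool.Agent.Helper996.Lin.Defs
import Pool.Agent.Helper996.Lin.Defs4
import Pool.Agent.Helper996.Lin.Defs6
import Pool.Agent.Helper996.Lin.J_lab_basic
import Pool.Agent.Helper996.Lin.J_lab_lift
import Pool.Agent.Helper996.Lin.J_charts
import Pool.Agent.Helper996.LinC.C_crossLR

set_option autoImplicit false

open Polynomial Set Filter Topology LinS

namespace LinC

variable {m n : ℕ} {F : (Fin (m + 1) → ℂ) → Fin n → ℂ}

theorem TopR_convex_aux {a b u u' v v' : ℝ} (ha : 0 ≤ a) (hb : 0 ≤ b) (hab : a + b = 1)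
    (h1 : u < u') (h2 : v < v') : a * u + b * v < a * u' + b * v' := by
  rcases eq_or_lt_of_le ha with h | h
  · have hb1 : b = 1 := by linarith
    rw [← h, hb1]
    linarith
  · have := mul_lt_mul_of_pos_left h1 h
    have := mul_le_mul_of_nonneg_left h2.le hb
    linarith

theorem TopR_convex (m : ℕ) : Convex ℝ (TopR m) ∧ ∀ r ∈ TopR m, r ∈ Conf m := by
  constructor
  · intro x hx y hy a b ha hb hab
    constructor
    · intro p q hpq hq
      have h1 := hx.1 p q hpq hq
      have h2 := hy.1 p q hpq hq
      have := TopR_convex_aux ha hb hab h1 h2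
      simpa using this
    · intro p hp
      have h1 := hx.2 p hp
      have h2 := hy.2 p hp
      have := TopR_convex_aux ha hb hab h1 h2
      simpa using this
  · intro r hr
    have key : ∀ p q : Fin (m + 1), p < q → r p ≠ r q := by
      intro p q hpq h
      by_cases hq : (q : ℕ) < m
      · have := hr.1 p q hpq hq
        rw [h] at this
        exact lt_irrefl _ this
      · have hql : q = Fin.last m := by
          apply Fin.ext
          have := q.2
          simp only [Fin.val_last]
          omega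
        have hp : (p : ℕ) < m := by
          have h1 : (p : ℕ) < (q : ℕ) := hpq
          have := q.2
          omega
        have := hr.2 p hp
        rw [h, hql] at this
        exact lt_irrefl _ this
    intro p q h
    by_contra hne
    rcases lt_or_gt_of_ne hne with h1 | h1
    · exact key p q h1 h
    · exact key q p h1 h.symm

theorem BotR_convex (m : ℕ) : Convex ℝ (BotR m) ∧ ∀ r ∈ BotR m, r ∈ Conf m := by
  constructor
  · intro x hx y hy a b ha hb hab
    constructor
    · intro p q hpq hq
      have h1 := hx.1 p q hpq hq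
      have h2 := hy.1 p q hpq hq
      have := TopR_convex_aux ha hb hab h1 h2
      simpa using this
    · intro p hp
      have h1 := hx.2 p hp
      have h2 := hy.2 p hp
      have := TopR_convex_aux ha hb hab h1 h2
      simpa using this
  · intro r hr
    have key : ∀ p q : Fin (m + 1), p < q → r p ≠ r q := by
      intro p q hpq h
      by_cases hq : (q : ℕ) < m
      · have := hr.1 p q hpq hq
        rw [h] at this
        exact lt_irrefl _ this
      · have hql : q = Fin.last m := by
          apply Fin.ext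
          have := q.2
          simp only [Fin.val_last]
          omega
        have hp : (p : ℕ) < m := by
          have h1 : (p : ℕ) < (q : ℕ) := hpq
          have := q.2
          omega
        have := hr.2 p hp
        rw [h, hql] at this
        exact lt_irrefl _ this
    intro p q h
    by_contra hne
    rcases lt_or_gt_of_ne hne with h1 | h1
    · exact key p q h1 h
    · exact key q p h1 h.symm

/-- order of the points when the last point has moved `k` positions to the left -/
def top_labels_PT (m : ℕ) : ℕ → Equiv.Perm (Fin (m + 1))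
  | 0 => 1
  | (k + 1) => if h : k < m then top_labels_PT m k * sw (⟨m - 1 - k, by omega⟩ : Fin m)
      else top_labels_PT m k

/-- the corresponding label permutation -/
def top_labels_GT {m n : ℕ} (lam : Fin m → Equiv.Perm (Fin n)) : ℕ → Equiv.Perm (Fin n)
  | 0 => 1
  | (k + 1) => if h : k < m then lam (⟨m - 1 - k, by omega⟩ : Fin m) * top_labels_GT lam k
      else top_labels_GT lam k

theorem top_labels_PT_succ (m k : ℕ) (h : k < m) : top_labels_PT m (k + 1) =
    top_labels_PT m k * sw (⟨m - 1 - k, by omega⟩ : Fin m) := by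
  rw [top_labels_PT, dif_pos h]

theorem top_labels_GT_succ {m n : ℕ} (lam : Fin m → Equiv.Perm (Fin n)) (k : ℕ) (h : k < m) :
    top_labels_GT lam (k + 1) = lam (⟨m - 1 - k, by omega⟩ : Fin m) * top_labels_GT lam k := by
  rw [top_labels_GT, dif_pos h]

theorem top_labels_GT_eq {m n : ℕ} (lam : Fin m → Equiv.Perm (Fin n)) (k : ℕ) (h : k ≤ m) :
    top_labels_GT lam k = ((List.ofFn lam).drop (m - k)).prod := by
  induction k with
  | zero =>
    rw [List.drop_eq_nil_of_le (by simp)]
    rfl
  | succ k ih =>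
    have hlen : m - (k + 1) < (List.ofFn lam).length := by
      rw [List.length_ofFn]; omega
    have e1 : m - (k + 1) + 1 = m - k := by omega
    rw [top_labels_GT_succ lam k (by omega), ih (by omega), List.drop_eq_getElem_cons hlen,
      List.prod_cons, List.getElem_ofFn, e1]
    congr 2
    apply Fin.ext
    simp only
    omega

theorem top_labels_PT_val (m k : ℕ) (hk : k ≤ m) (p : Fin (m + 1)) :
    ((top_labels_PT m k p : Fin (m + 1)) : ℕ) =
      if (p : ℕ) < m - k then (p : ℕ) else if (p : ℕ) = m - k then m else (p : ℕ) - 1 := by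
  induction k generalizing p with
  | zero =>
    have := p.2
    show (p : ℕ) = _
    split_ifs <;> omega
  | succ k ih =>
    have hi : m - 1 - k < m := by omega
    rw [top_labels_PT_succ m k (by omega), Equiv.Perm.mul_apply, ih (by omega)]
    have hp := p.2
    by_cases h1 : (p : ℕ) = m - 1 - k
    · have hpe : p = (⟨m - 1 - k, hi⟩ : Fin m).castSucc := Fin.ext h1
      have hv : ((sw (⟨m - 1 - k, hi⟩ : Fin m) p : Fin (m + 1)) : ℕ) = m - 1 - k + 1 := by
        rw [hpe, sw, Equiv.swap_apply_left]
        rfl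
      rw [hv, h1]
      split_ifs <;> omega
    · by_cases h2 : (p : ℕ) = m - 1 - k + 1
      · have hpe : p = (⟨m - 1 - k, hi⟩ : Fin m).succ := Fin.ext h2
        have hv : ((sw (⟨m - 1 - k, hi⟩ : Fin m) p : Fin (m + 1)) : ℕ) = m - 1 - k := by
          rw [hpe, sw, Equiv.swap_apply_right]
          rfl
        rw [hv, h2]
        split_ifs <;> omega
      · have hv : sw (⟨m - 1 - k, hi⟩ : Fin m) p = p := by
          apply Equiv.swap_apply_of_ne_of_ne
          · intro h
            apply h1
            rw [h]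
            rfl
          · intro h
            apply h2
            rw [h]
            rfl
        rw [hv]
        split_ifs <;> omega

theorem top_labels_PT_cyc (m : ℕ) : top_labels_PT m m = cyc m := by
  apply Equiv.ext
  intro p
  unfold cyc
  rw [eq_comm, Equiv.symm_apply_eq]
  apply Fin.ext
  rw [coe_finRotate]
  have hv := top_labels_PT_val m m le_rfl p
  have hp := p.2
  by_cases h0 : (p : ℕ) = 0
  · have : top_labels_PT m m p = Fin.last m := by
      apply Fin.ext
      rw [hv]
      simp only [Fin.val_last]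
      split_ifs <;> omega
    rw [if_pos this, h0]
  · have : top_labels_PT m m p ≠ Fin.last m := by
      intro h
      rw [h] at hv
      simp only [Fin.val_last] at hv
      split_ifs at hv <;> omega
    rw [if_neg this, hv]
    split_ifs <;> omega

/-- witness configurations -/
noncomputable def top_labels_w (m : ℕ) (s y : ℝ) : Fin (m + 1) → ℂ :=
  fun p => if (p : ℕ) < m then (((p : ℕ) : ℝ) : ℂ) else ⟨s, y⟩

theorem top_labels_w_re (m k : ℕ) (hk : k ≤ m) (s y : ℝ) (p : Fin (m + 1)) :
    ((top_labels_w m s y ∘ top_labels_PT m k) p).re =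
      if (p : ℕ) < m - k then ((p : ℕ) : ℝ) else if (p : ℕ) = m - k then s
      else ((p : ℕ) : ℝ) - 1 := by
  have hv := top_labels_PT_val m k hk p
  have hp := p.2
  show (if ((top_labels_PT m k p : Fin (m + 1)) : ℕ) < m then
    ((((top_labels_PT m k p : Fin (m + 1)) : ℕ) : ℝ) : ℂ) else (⟨s, y⟩ : ℂ)).re = _
  rw [hv]
  by_cases h1 : (p : ℕ) < m - k
  · rw [if_pos h1, if_pos h1, if_pos (by omega), Complex.ofReal_re]
  · by_cases h2 : (p : ℕ) = m - k
    · rw [if_neg h1, if_pos h2, if_neg h1, if_pos h2, if_neg (by omega)]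
    · rw [if_neg h1, if_neg h2, if_neg h1, if_neg h2, if_pos (by omega), Complex.ofReal_re,
        Nat.cast_sub (by omega), Nat.cast_one]

theorem top_labels_w_im (m k : ℕ) (hk : k ≤ m) (s y : ℝ) (p : Fin (m + 1)) :
    ((top_labels_w m s y ∘ top_labels_PT m k) p).im = if (p : ℕ) = m - k then y else 0 := by
  have hv := top_labels_PT_val m k hk p
  have hp := p.2
  show (if ((top_labels_PT m k p : Fin (m + 1)) : ℕ) < m then
    ((((top_labels_PT m k p : Fin (m + 1)) : ℕ) : ℝ) : ℂ) else (⟨s, y⟩ : ℂ)).im = _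
  rw [hv]
  by_cases h1 : (p : ℕ) < m - k
  · rw [if_pos h1, if_pos (by omega), if_neg (by omega), Complex.ofReal_im]
  · by_cases h2 : (p : ℕ) = m - k
    · rw [if_neg h1, if_pos h2, if_neg (by omega), if_pos h2]
    · rw [if_neg h1, if_neg h2, if_pos (by omega), if_neg h2, Complex.ofReal_im]

theorem top_labels_w_cham (m k : ℕ) (hk : k ≤ m) (s y : ℝ) (h1 : ((m - k : ℕ) : ℝ) - 1 < s)
    (h2 : s < ((m - k : ℕ) : ℝ)) : top_labels_w m s y ∘ top_labels_PT m k ∈ Cham m := by
  intro p q hpq
  rw [top_labels_w_re m k hk, top_labels_w_re m k hk]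
  have hpq' : (p : ℕ) < (q : ℕ) := hpq
  generalize m - k = t at *
  have c1 : ((p : ℕ) : ℝ) + 1 ≤ ((q : ℕ) : ℝ) := by exact_mod_cast hpq'
  rcases lt_trichotomy (p : ℕ) t with hp | hp | hp
  · have c2 : ((p : ℕ) : ℝ) + 1 ≤ (t : ℝ) := by exact_mod_cast hp
    rw [if_pos hp]
    rcases lt_trichotomy (q : ℕ) t with hq | hq | hq
    · rw [if_pos hq]; linarith
    · rw [if_neg (by omega), if_pos hq]; linarith
    · have c3 : (t : ℝ) + 1 ≤ ((q : ℕ) : ℝ) := by exact_mod_cast hq
      rw [if_neg (by omega), if_neg (by omega)]; linarith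
  · have c3 : (t : ℝ) + 1 ≤ ((q : ℕ) : ℝ) := by
      have : t + 1 ≤ (q : ℕ) := by omega
      exact_mod_cast this
    rw [if_neg (by omega), if_pos hp, if_neg (by omega), if_neg (by omega)]
    linarith
  · rw [if_neg (by omega), if_neg (by omega), if_neg (by omega), if_neg (by omega)]
    linarith

theorem top_labels_w_kp (m k : ℕ) (hk : k ≤ m) (s y : ℝ) (i : Fin m)
    (hi : (m - k = (i : ℕ) + 1 ∧ 0 < y) ∨ (m - k = (i : ℕ) ∧ y < 0))
    (h1 : ((i : ℕ) : ℝ) - 1 < s) (h2 : s < ((i : ℕ) : ℝ) + 1) :
    top_labels_w m s y ∘ top_labels_PT m k ∈ KP m i := by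
  constructor
  · rw [top_labels_w_im m k hk, top_labels_w_im m k hk]
    have e1 : ((i.castSucc : Fin (m + 1)) : ℕ) = (i : ℕ) := rfl
    have e2 : ((i.succ : Fin (m + 1)) : ℕ) = (i : ℕ) + 1 := rfl
    rw [e1, e2]
    rcases hi with ⟨h3, h4⟩ | ⟨h3, h4⟩
    · rw [if_neg (by omega), if_pos (by omega)]
      exact h4
    · rw [if_pos (by omega), if_neg (by omega)]
      exact h4
  · intro p q hpq hne
    rw [top_labels_w_re m k hk, top_labels_w_re m k hk]
    have hpq' : (p : ℕ) < (q : ℕ) := hpq
    have hne' : ¬ ((p : ℕ) = (i : ℕ) ∧ (q : ℕ) = (i : ℕ) + 1) := by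
      rintro ⟨h3, h4⟩
      exact hne ⟨Fin.ext h3, Fin.ext h4⟩
    have hi' : m - k = (i : ℕ) + 1 ∨ m - k = (i : ℕ) := by
      rcases hi with h | h
      · exact Or.inl h.1
      · exact Or.inr h.1
    clear hi
    generalize m - k = t at *
    have c1 : ((p : ℕ) : ℝ) + 1 ≤ ((q : ℕ) : ℝ) := by exact_mod_cast hpq'
    rcases lt_trichotomy (p : ℕ) t with hp | hp | hp
    · have c2 : ((p : ℕ) : ℝ) + 1 ≤ (t : ℝ) := by exact_mod_cast hp
      rw [if_pos hp]
      rcases lt_trichotomy (q : ℕ) t with hq | hq | hq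
      · rw [if_pos hq]; linarith
      · rw [if_neg (by omega), if_pos hq]
        have c3 : ((p : ℕ) : ℝ) + 1 ≤ ((i : ℕ) : ℝ) := by
          have : (p : ℕ) + 1 ≤ (i : ℕ) := by omega
          exact_mod_cast this
        linarith
      · have c3 : (t : ℝ) + 1 ≤ ((q : ℕ) : ℝ) := by exact_mod_cast hq
        rw [if_neg (by omega), if_neg (by omega)]; linarith
    · have c3 : ((i : ℕ) : ℝ) + 2 ≤ ((q : ℕ) : ℝ) := by
        have : (i : ℕ) + 2 ≤ (q : ℕ) := by omega
        exact_mod_cast this
      rw [if_neg (by omega), if_pos hp, if_neg (by omega), if_neg (by omega)]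
      linarith
    · rw [if_neg (by omega), if_neg (by omega), if_neg (by omega), if_neg (by omega)]
      linarith

theorem top_labels_w_ord (m : ℕ) (s y : ℝ) : ∀ p q : Fin (m + 1), p < q → (q : ℕ) < m →
    (top_labels_w m s y p).re < (top_labels_w m s y q).re := by
  intro p q hpq hq
  have hpq' : (p : ℕ) < (q : ℕ) := hpq
  unfold top_labels_w
  rw [if_pos (by omega), if_pos hq, Complex.ofReal_re, Complex.ofReal_re]
  exact_mod_cast hpq'

theorem top_labels_w_top (m : ℕ) (s y : ℝ) (hy : 0 < y) : top_labels_w m s y ∈ TopR m := by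
  refine ⟨top_labels_w_ord m s y, fun p hp => ?_⟩
  unfold top_labels_w
  rw [if_pos hp, if_neg (by simp), Complex.ofReal_im]
  exact hy

theorem top_labels_w_bot (m : ℕ) (s y : ℝ) (hy : y < 0) : top_labels_w m s y ∈ BotR m := by
  refine ⟨top_labels_w_ord m s y, fun p hp => ?_⟩
  unfold top_labels_w
  rw [if_pos hp, if_neg (by simp), Complex.ofReal_im]
  exact hy

theorem top_labels (hF : GoodC m n F) (D : Data m n F) (X : Fin n → (Fin (m + 1) → ℂ) → ℂ)
    (hX : ∀ a, ContinuousOn (X a) (TopR m)) (hL : ∀ r ∈ TopR m, Lab (F r) (fun a => X a r))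
    (h0 : ∀ r ∈ TopR m, r ∈ Cham m → ∀ a, X a r = D.μ a r) :
    ∀ r ∈ TopR m, r ∘ cyc m ∈ Cham m → ∀ a, X a r = D.μ (dtop D.lam a) (r ∘ cyc m) := by
  have main : ∀ k ≤ m, ∀ r ∈ TopR m, r ∘ top_labels_PT m k ∈ Cham m → ∀ a,
      X a r = D.μ (top_labels_GT D.lam k a) (r ∘ top_labels_PT m k) := by
    intro k
    induction k with
    | zero => intro _ r hr hrc a; exact h0 r hr hrc a
    | succ k ih =>
      intro hk
      have hkm : k < m := by omega
      rw [top_labels_PT_succ m k hkm, top_labels_GT_succ D.lam k hkm]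
      have e1 : ((m - k : ℕ) : ℝ) = ((m - 1 - k : ℕ) : ℝ) + 1 := by
        have : m - k = (m - 1 - k) + 1 := by omega
        rw [this]; push_cast; ring
      have e2 : ((m - (k + 1) : ℕ) : ℝ) = ((m - 1 - k : ℕ) : ℝ) := by
        have : m - (k + 1) = (m - 1 - k) := by omega
        rw [this]
      refine crossL hF D (TopR_convex m).1 (TopR_convex m).2 hX hL _ _ _ (ih (by omega)) ?_ ?_
      · refine ⟨top_labels_w m (((m - 1 - k : ℕ) : ℝ) + 1 / 2) 1, top_labels_w_top m _ _ one_pos,
          ?_, ?_⟩
        · apply top_labels_w_kp m k (by omega)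
          · left
            refine ⟨?_, one_pos⟩
            show m - k = m - 1 - k + 1
            omega
          · show ((m - 1 - k : ℕ) : ℝ) - 1 < _
            linarith
          · show _ < ((m - 1 - k : ℕ) : ℝ) + 1
            linarith
        · apply top_labels_w_cham m k (by omega)
          · rw [e1]; linarith
          · rw [e1]; linarith
      · refine ⟨top_labels_w m (((m - 1 - k : ℕ) : ℝ) - 1 / 2) 1, top_labels_w_top m _ _ one_pos,
          ?_, ?_⟩
        · apply top_labels_w_kp m k (by omega)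
          · left
            refine ⟨?_, one_pos⟩
            show m - k = m - 1 - k + 1
            omega
          · show ((m - 1 - k : ℕ) : ℝ) - 1 < _
            linarith
          · show _ < ((m - 1 - k : ℕ) : ℝ) + 1
            linarith
        · have h3 := top_labels_w_cham m (k + 1) (by omega) (((m - 1 - k : ℕ) : ℝ) - 1 / 2) 1
            (by rw [e2]; linarith) (by rw [e2]; linarith)
          rw [top_labels_PT_succ m k hkm] at h3
          exact h3
  have h1 := main m le_rfl
  rw [top_labels_PT_cyc, top_labels_GT_eq D.lam m le_rfl, Nat.sub_self, List.drop_zero] at h1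
  exact h1

theorem bot_labels (hF : GoodC m n F) (D : Data m n F) (X : Fin n → (Fin (m + 1) → ℂ) → ℂ)
    (hX : ∀ a, ContinuousOn (X a) (BotR m)) (hL : ∀ r ∈ BotR m, Lab (F r) (fun a => X a r))
    (h0 : ∀ r ∈ BotR m, r ∈ Cham m → ∀ a, X a r = D.μ a r) :
    ∀ r ∈ BotR m, r ∘ cyc m ∈ Cham m → ∀ a, X a r = D.μ (dbot D.lam a) (r ∘ cyc m) := by
  have main : ∀ k ≤ m, ∀ r ∈ BotR m, r ∘ top_labels_PT m k ∈ Cham m → ∀ a,
      X a r = D.μ (top_labels_GT (fun i => (D.lam i)⁻¹) k a) (r ∘ top_labels_PT m k) := by
    intro k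
    induction k with
    | zero => intro _ r hr hrc a; exact h0 r hr hrc a
    | succ k ih =>
      intro hk
      have hkm : k < m := by omega
      have e1 : ((m - k : ℕ) : ℝ) = ((m - 1 - k : ℕ) : ℝ) + 1 := by
        have : m - k = (m - 1 - k) + 1 := by omega
        rw [this]; push_cast; ring
      have e2 : ((m - (k + 1) : ℕ) : ℝ) = ((m - 1 - k : ℕ) : ℝ) := by
        have : m - (k + 1) = (m - 1 - k) := by omega
        rw [this]
      have h3 : ∀ s : ℝ, ((m - 1 - k : ℕ) : ℝ) - 1 < s → s < ((m - 1 - k : ℕ) : ℝ) + 1 →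
          top_labels_w m s (-1) ∘ (top_labels_PT m k * sw (⟨m - 1 - k, by omega⟩ : Fin m) :
            Equiv.Perm (Fin (m + 1))) ∈ KP m (⟨m - 1 - k, by omega⟩ : Fin m) := by
        intro s hs1 hs2
        rw [← top_labels_PT_succ m k hkm]
        apply top_labels_w_kp m (k + 1) (by omega)
        · right
          refine ⟨?_, by norm_num⟩
          show m - (k + 1) = m - 1 - k
          omega
        · exact hs1
        · exact hs2
      rw [top_labels_PT_succ m k hkm, top_labels_GT_succ (fun i => (D.lam i)⁻¹) k hkm]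
      refine crossR hF D (BotR_convex m).1 (BotR_convex m).2 hX hL _ _ _ (ih (by omega)) ?_ ?_
      · refine ⟨top_labels_w m (((m - 1 - k : ℕ) : ℝ) + 1 / 2) (-1),
          top_labels_w_bot m _ _ (by norm_num), h3 _ (by linarith) (by linarith), ?_⟩
        apply top_labels_w_cham m k (by omega)
        · rw [e1]; linarith
        · rw [e1]; linarith
      · refine ⟨top_labels_w m (((m - 1 - k : ℕ) : ℝ) - 1 / 2) (-1),
          top_labels_w_bot m _ _ (by norm_num), h3 _ (by linarith) (by linarith), ?_⟩
        have h4 := top_labels_w_cham m (k + 1) (by omega) (((m - 1 - k : ℕ) : ℝ) - 1 / 2) (-1)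
            (by rw [e2]; linarith) (by rw [e2]; linarith)
        rw [top_labels_PT_succ m k hkm] at h4
        exact h4
  have h1 := main m le_rfl
  rw [top_labels_PT_cyc, top_labels_GT_eq (fun i => (D.lam i)⁻¹) m le_rfl, Nat.sub_self,
    List.drop_zero] at h1
  exact h1

end LinC
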