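import Pool.Agent.Helper996.LinC.Base
import Pool.Agent.Helper996.Lin.Defs
import Pool.Agent.Helper996.Lin.Defs4
import Pool.Agent.Helper996.Lin.Defs6
import Pool.Agent.Helper996.Lin.J_lab_basic
import Pool.Agent.Helper996.Lin.J_lab_lift
import Pool.Agent.Helper996.Lin.J_wd_basic
import Pool.Agent.Helper996.Lin.J_charts
import Pool.Agent.Helper996.LinC.C_topbot

set_option autoImplicit false

open Polynomial Set Filter Topology LinS

namespace LinC

variable {m n : ℕ} {F : (Fin (m + 1) → ℂ) → Fin n → ℂ}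

theorem pair_move_perm {n : ℕ} {z M : Fin n → ℂ} (h : Lab z M) (π : Equiv.Perm (Fin n)) :
    Lab z (fun a => M (π a)) := by
  unfold Lab at h ⊢
  rw [h]
  exact (Equiv.prod_comp π (fun a => (X - C (M a)))).symm

theorem pair_move_lift {V : Type*} [NormedAddCommGroup V] [NormedSpace ℝ V] {K : Set V}
    (hK : Convex ℝ K) {n : ℕ} {φ : V → Fin n → ℂ} (hφ : ContinuousOn φ K)
    (hs : ∀ v ∈ K, Squarefree (mpoly n (φ v))) (v0 : V) (hv0 : v0 ∈ K) (m0 : Fin n → ℂ)
    (hm0 : Lab (φ v0) m0) :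
    ∃ M : Fin n → V → ℂ, (∀ a, ContinuousOn (M a) K) ∧ (∀ v ∈ K, Lab (φ v) (fun a => M a v)) ∧
      ∀ a, M a v0 = m0 a := by
  obtain ⟨M, hM, hL⟩ := lab_lift hK hφ hs
  obtain ⟨π, hπ⟩ := lab_uniq (isPreconnected_singleton (x := v0)) (φ := φ)
    (fun v hv => by rw [mem_singleton_iff] at hv; rw [hv]; exact hs v0 hv0)
    (M := M) (M' := fun a _ => m0 a) (fun a => continuousOn_singleton _ _)
    (fun a => continuousOn_const)
    (fun v hv => by rw [mem_singleton_iff] at hv; rw [hv]; exact hL v0 hv0)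
    (fun v hv => by rw [mem_singleton_iff] at hv; rw [hv]; exact hm0)
  refine ⟨fun a => M (π a), fun a => hM _, fun v hv => pair_move_perm (hL v hv) π, fun a => ?_⟩
  exact (hπ v0 rfl a).symm

theorem pair_move_uniq {V : Type*} [TopologicalSpace V] {K : Set V} (hK : IsPreconnected K) {n : ℕ}
    {φ : V → Fin n → ℂ} (hs : ∀ v ∈ K, Squarefree (mpoly n (φ v))) {M M' : Fin n → V → ℂ}
    (hM : ∀ a, ContinuousOn (M a) K) (hM' : ∀ a, ContinuousOn (M' a) K)
    (hL : ∀ v ∈ K, Lab (φ v) (fun a => M a v)) (hL' : ∀ v ∈ K, Lab (φ v) (fun a => M' a v))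
    (v0 : V) (hv0 : v0 ∈ K) (h : ∀ a, M a v0 = M' a v0) : ∀ v ∈ K, ∀ a, M a v = M' a v := by
  obtain ⟨π, hπ⟩ := lab_uniq hK hs hM hM' hL hL'
  intro v hv a
  have h1 : a = π a := by
    apply lab_inj (hL v0 hv0) (hs v0 hv0)
    show M a v0 = M (π a) v0
    rw [h a, hπ v0 hv0 a]
  rw [hπ v hv a, ← h1]

theorem pair_move_per {V : Type*} [NormedAddCommGroup V] [NormedSpace ℝ V] {n : ℕ}
    {φ : V → Fin n → ℂ} (hs : ∀ v, Squarefree (mpoly n (φ v))) {M : Fin n → V → ℂ}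
    (hM : ∀ a, Continuous (M a)) (hL : ∀ v, Lab (φ v) (fun a => M a v)) (p : V)
    (hp : ∀ v, φ (v + p) = φ v) : ∀ a v, M a (v + n.factorial • p) = M a v := by
  obtain ⟨π, hπ⟩ := lab_uniq (K := (univ : Set V)) convex_univ.isPreconnected (φ := φ)
    (fun v _ => hs v) (M := M) (M' := fun a v => M a (v + p)) (fun a => (hM a).continuousOn)
    (fun a => ((hM a).comp (continuous_add_const p)).continuousOn)
    (fun v _ => hL v) (fun v _ => by
      have := hL (v + p)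
      rw [hp] at this
      exact this)
  have hk : ∀ (k : ℕ) (a : Fin n) (v : V), M a (v + k • p) = M ((π ^ k) a) v := by
    intro k
    induction k with
    | zero => intro a v; simp
    | succ k ih =>
      intro a v
      have h1 : v + (k + 1) • p = (v + k • p) + p := by rw [succ_nsmul, add_assoc]
      have h2 : M a ((v + k • p) + p) = M (π a) (v + k • p) := hπ (v + k • p) (mem_univ _) a
      rw [h1, h2, ih, pow_succ, Equiv.Perm.mul_apply]
  intro a v
  rw [hk]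
  have h3 : π ^ n.factorial = 1 := by
    have h4 : Fintype.card (Equiv.Perm (Fin n)) = n.factorial := by
      rw [Fintype.card_perm, Fintype.card_fin]
    rw [← h4]
    exact pow_card_eq_one
  rw [h3, Equiv.Perm.one_apply]

/-- the two-parameter family -/
noncomputable def pmH (m : ℕ) (θ φ : ℝ) : Fin (m + 1) → ℂ := fun p =>
  if (p : ℕ) = 1 then Complex.exp (θ * Complex.I) else
    if (p : ℕ) = m then m * Complex.exp (φ * Complex.I) else ((p : ℕ) : ℂ)

theorem pmH_norm (θ φ : ℝ) (p : Fin (m + 1)) : ‖pmH m θ φ p‖ = (p : ℕ) := by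
  unfold pmH
  split_ifs with h1 h2
  · rw [Complex.norm_exp_ofReal_mul_I, h1, Nat.cast_one]
  · rw [norm_mul, Complex.norm_exp_ofReal_mul_I, mul_one, h2]
    simp
  · simp

theorem pmH_conf (θ φ : ℝ) : pmH m θ φ ∈ Conf m := by
  intro p q hpq
  have h1 := congrArg norm hpq
  rw [pmH_norm, pmH_norm] at h1
  exact Fin.ext (by exact_mod_cast h1)

theorem pmH_cont : Continuous (fun x : ℝ × ℝ => pmH m x.1 x.2) := by
  apply continuous_pi
  intro p
  unfold pmH
  split_ifs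
  · fun_prop
  · fun_prop
  · fun_prop

theorem pmH_per (θ φ : ℝ) : pmH m (θ + 2 * Real.pi) φ = pmH m θ φ := by
  funext p
  unfold pmH
  have h : Complex.exp (((θ + 2 * Real.pi : ℝ) : ℂ) * Complex.I) = Complex.exp (θ * Complex.I) := by
    have h1 : (((θ + 2 * Real.pi : ℝ) : ℂ) * Complex.I) =
        θ * Complex.I + 2 * Real.pi * Complex.I := by push_cast; ring
    rw [h1, Complex.exp_add, Complex.exp_two_pi_mul_I, mul_one]
  rw [h]

theorem pmH_pi (θ : ℝ) : pmH m θ (-Real.pi) = pmH m θ Real.pi := by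
  funext p
  unfold pmH
  have h : Complex.exp (((-Real.pi : ℝ) : ℂ) * Complex.I) = Complex.exp ((Real.pi : ℝ) * Complex.I) := by
    rw [Complex.exp_pi_mul_I]
    have h1 : (((-Real.pi : ℝ) : ℂ) * Complex.I) = -(Real.pi * Complex.I) := by push_cast; ring
    rw [h1, Complex.exp_neg, Complex.exp_pi_mul_I]
    norm_num
  rw [h]

theorem pmH_re (φ : ℝ) (p : Fin (m + 1)) (hp : (p : ℕ) < m) : (pmH m 0 φ p).re = (p : ℕ) := by
  unfold pmH
  split_ifs with h1 h2
  · rw [h1]; simp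
  · omega
  · simp

theorem pmH_im (φ : ℝ) (p : Fin (m + 1)) (hp : (p : ℕ) < m) : (pmH m 0 φ p).im = 0 := by
  unfold pmH
  split_ifs with h1 h2
  · simp
  · omega
  · simp

theorem pmH_last (hm : 2 ≤ m) (θ φ : ℝ) :
    pmH m θ φ (Fin.last m) = m * Complex.exp (φ * Complex.I) := by
  unfold pmH
  rw [if_neg (by simp; omega), if_pos (by simp)]

theorem pmH_last_re (hm : 2 ≤ m) (θ φ : ℝ) : (pmH m θ φ (Fin.last m)).re = m * Real.cos φ := by
  rw [pmH_last hm]
  have : (m : ℂ) = ((m : ℝ) : ℂ) := by push_cast; rfl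
  rw [this, Complex.re_ofReal_mul, Complex.exp_ofReal_mul_I_re]

theorem pmH_last_im (hm : 2 ≤ m) (θ φ : ℝ) : (pmH m θ φ (Fin.last m)).im = m * Real.sin φ := by
  rw [pmH_last hm]
  have : (m : ℂ) = ((m : ℝ) : ℂ) := by push_cast; rfl
  rw [this, Complex.im_ofReal_mul, Complex.exp_ofReal_mul_I_im]

theorem pmH_Cham (hm : 2 ≤ m) (φ : ℝ) (h : (m : ℝ) - 1 < m * Real.cos φ) : pmH m 0 φ ∈ Cham m := by
  intro p q hpq
  have hpm : (p : ℕ) < m := by
    have := q.2
    have := Fin.lt_def.1 hpq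
    omega
  rw [pmH_re φ p hpm]
  by_cases hq : (q : ℕ) < m
  · rw [pmH_re φ q hq]
    exact_mod_cast Fin.lt_def.1 hpq
  · have hq' : q = Fin.last m := by
      apply Fin.ext
      have := q.2
      simp
      omega
    rw [hq', pmH_last_re hm]
    have h2 : ((p : ℕ) : ℝ) ≤ (m : ℝ) - 1 := by
      have : ((p : ℕ) : ℝ) + 1 ≤ m := by exact_mod_cast hpm
      linarith
    linarith

theorem pmH_cyc (hm : 2 ≤ m) (φ : ℝ) (h : Real.cos φ < 0) : pmH m 0 φ ∘ cyc m ∈ Cham m := by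
  have h0 : cyc m 0 = Fin.last m := by
    unfold cyc
    rw [Equiv.symm_apply_eq]
    simp
  have hs : ∀ i : Fin m, cyc m i.succ = i.castSucc := by
    intro i
    unfold cyc
    rw [Equiv.symm_apply_eq, finRotate_succ_apply]
    simp
  have hm0 : (0:ℝ) < m := by
    have : 0 < m := by omega
    exact_mod_cast this
  intro p q hpq
  simp only [Function.comp_apply]
  obtain ⟨j, rfl⟩ : ∃ j : Fin m, q = j.succ := by
    have hq : q ≠ 0 := by
      rintro rfl
      exact absurd hpq (Fin.not_lt_zero p)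
    exact ⟨q.pred hq, (Fin.succ_pred q hq).symm⟩
  rw [hs j, pmH_re φ j.castSucc (by simp)]
  by_cases hp : p = 0
  · rw [hp, h0, pmH_last_re hm]
    have h1 : (m:ℝ) * Real.cos φ < 0 := mul_neg_of_pos_of_neg hm0 h
    have h2 : (0:ℝ) ≤ ((j.castSucc : Fin (m + 1)) : ℕ) := Nat.cast_nonneg _
    linarith
  · obtain ⟨i, rfl⟩ : ∃ i : Fin m, p = i.succ := ⟨p.pred hp, (Fin.succ_pred p hp).symm⟩
    rw [hs i, pmH_re φ i.castSucc (by simp)]
    have h3 : i < j := by simpa using hpq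
    have h4 : ((i.castSucc : Fin (m + 1)) : ℕ) < ((j.castSucc : Fin (m + 1)) : ℕ) := by
      simpa using h3
    exact_mod_cast h4

theorem pmH_TopR (hm : 2 ≤ m) (φ : ℝ) (h0 : 0 < φ) (h1 : φ < Real.pi) : pmH m 0 φ ∈ TopR m := by
  refine ⟨?_, ?_⟩
  · intro p q hpq hq
    have hpq' := Fin.lt_def.1 hpq
    rw [pmH_re φ p (by omega), pmH_re φ q hq]
    exact_mod_cast hpq'
  · intro p hp
    rw [pmH_im φ p hp, pmH_last_im hm]
    have hm0 : (0:ℝ) < m := by
      have : 0 < m := by omega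
      exact_mod_cast this
    exact mul_pos hm0 (Real.sin_pos_of_pos_of_lt_pi h0 h1)

theorem pmH_BotR (hm : 2 ≤ m) (φ : ℝ) (h0 : 0 < φ) (h1 : φ < Real.pi) :
    pmH m 0 (-φ) ∈ BotR m := by
  refine ⟨?_, ?_⟩
  · intro p q hpq hq
    have hpq' := Fin.lt_def.1 hpq
    rw [pmH_re (-φ) p (by omega), pmH_re (-φ) q hq]
    exact_mod_cast hpq'
  · intro p hp
    rw [pmH_im (-φ) p hp, pmH_last_im hm, Real.sin_neg]
    have hm0 : (0:ℝ) < m := by
      have : 0 < m := by omega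
      exact_mod_cast this
    have := mul_pos hm0 (Real.sin_pos_of_pos_of_lt_pi h0 h1)
    linarith

theorem pair_move_half (hF : GoodC m n F) (D : Data m n F) (hm : 2 ≤ m)
    (R : Set (Fin (m + 1) → ℂ)) (hR : Convex ℝ R) (hRc : ∀ r ∈ R, r ∈ Conf m) (s : ℝ)
    (hs : s = 1 ∨ s = -1) (hHR : ∀ φ : ℝ, 0 < φ → φ < Real.pi → pmH m 0 (s * φ) ∈ R)
    (d : Equiv.Perm (Fin n))
    (hlab : ∀ X : Fin n → (Fin (m + 1) → ℂ) → ℂ, (∀ a, ContinuousOn (X a) R) →
      (∀ r ∈ R, Lab (F r) (fun a => X a r)) → (∀ r ∈ R, r ∈ Cham m → ∀ a, X a r = D.μ a r) →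
      ∀ r ∈ R, r ∘ cyc m ∈ Cham m → ∀ a, X a r = D.μ (d a) (r ∘ cyc m))
    (Q : Fin n → ℝ → ℂ) (hQc : ∀ a, Continuous (Q a))
    (hQl : ∀ φ : ℝ, Lab (F (pmH m 0 (s * φ))) (fun a => Q a φ))
    (hQ0 : ∀ a, Q a 0 = D.μ a (pmH m 0 0)) :
    ∀ a, Q a Real.pi = D.μ (d a) (pmH m 0 (s * Real.pi) ∘ cyc m) := by
  have hm0 : (0:ℝ) < m := by
    have : 0 < m := by omega
    exact_mod_cast this
  have hcos : ∀ φ : ℝ, Real.cos (s * φ) = Real.cos φ := by
    intro φ
    rcases hs with rfl | rfl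
    · rw [one_mul]
    · rw [neg_one_mul, Real.cos_neg]
  have hHc : Continuous (fun φ : ℝ => pmH m 0 (s * φ)) :=
    pmH_cont.comp (by fun_prop : Continuous (fun φ : ℝ => ((0 : ℝ), s * φ)))
  have hsq : ∀ φ : ℝ, Squarefree (mpoly n (F (pmH m 0 (s * φ)))) :=
    fun φ => hF.sqf _ (pmH_conf _ _)
  -- a small angle
  obtain ⟨φ1, h10, h11, h12⟩ : ∃ φ1 : ℝ, 0 < φ1 ∧ φ1 ≤ 1 ∧
      ∀ φ ∈ Icc 0 φ1, (m:ℝ) - 1 < m * Real.cos φ := by
    have hc : Continuous (fun φ : ℝ => (m:ℝ) * Real.cos φ) := by fun_prop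
    have hev : ∀ᶠ φ : ℝ in 𝓝 0, (m:ℝ) - 1 < m * Real.cos φ := by
      apply hc.continuousAt.eventually (lt_mem_nhds _)
      simp
    obtain ⟨δ, hδ, hball⟩ := Metric.eventually_nhds_iff.1 hev
    refine ⟨min (δ / 2) 1, by positivity, min_le_right _ _, ?_⟩
    intro φ hφ
    apply hball
    rw [Real.dist_eq, sub_zero, abs_of_nonneg hφ.1]
    have := hφ.2.trans (min_le_left _ _)
    linarith
  have hpi := Real.pi_gt_three
  have hCh : ∀ φ ∈ Icc 0 φ1, pmH m 0 (s * φ) ∈ Cham m := by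
    intro φ hφ
    apply pmH_Cham hm
    rw [hcos]
    exact h12 φ hφ
  have hA : ∀ φ ∈ Icc (0:ℝ) φ1, ∀ a, Q a φ = D.μ a (pmH m 0 (s * φ)) := by
    apply pair_move_uniq (φ := fun φ : ℝ => F (pmH m 0 (s * φ)))
      (M := Q) (M' := fun a φ => D.μ a (pmH m 0 (s * φ)))
      isPreconnected_Icc (fun φ _ => hsq φ) (fun a => (hQc a).continuousOn)
      (fun a => (D.μ_cont a).comp hHc.continuousOn hCh) (fun φ _ => hQl φ)
      (fun φ hφ => D.μ_lab _ (hCh φ hφ)) 0 ⟨le_rfl, h10.le⟩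
    intro a
    rw [hQ0, mul_zero]
  -- labels on R
  have hv0R : pmH m 0 (s * φ1) ∈ R := hHR φ1 h10 (by linarith)
  have hv0C : pmH m 0 (s * φ1) ∈ Cham m := hCh φ1 ⟨h10.le, le_rfl⟩
  obtain ⟨X, hXc, hXl, hX0⟩ := pair_move_lift hR (φ := F)
    (hF.holo.mono hRc) (fun r hr => hF.sqf r (hRc r hr)) (pmH m 0 (s * φ1)) hv0R
    (fun a => D.μ a (pmH m 0 (s * φ1))) (D.μ_lab _ hv0C)
  have hXμ : ∀ r ∈ R, r ∈ Cham m → ∀ a, X a r = D.μ a r := by
    intro r hr hrC
    exact pair_move_uniq (K := R ∩ Cham m) (φ := F) (hR.inter (Cham_convex m)).isPreconnected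
      (fun r hr => hF.sqf r (hRc r hr.1)) (M := X) (M' := D.μ)
      (fun a => (hXc a).mono inter_subset_left) (fun a => (D.μ_cont a).mono inter_subset_right)
      (fun r hr => hXl r hr.1) (fun r hr => D.μ_lab r hr.2) (pmH m 0 (s * φ1)) ⟨hv0R, hv0C⟩
      hX0 r ⟨hr, hrC⟩
  have hIR : ∀ φ ∈ Icc φ1 (3 * Real.pi / 4), pmH m 0 (s * φ) ∈ R := by
    intro φ hφ
    exact hHR φ (lt_of_lt_of_le h10 hφ.1) (by have := hφ.2; linarith)
  have hB : ∀ φ ∈ Icc φ1 (3 * Real.pi / 4), ∀ a, Q a φ = X a (pmH m 0 (s * φ)) := by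
    apply pair_move_uniq (φ := fun φ : ℝ => F (pmH m 0 (s * φ)))
      (M := Q) (M' := fun a φ => X a (pmH m 0 (s * φ)))
      isPreconnected_Icc (fun φ _ => hsq φ) (fun a => (hQc a).continuousOn)
      (fun a => (hXc a).comp hHc.continuousOn hIR) (fun φ _ => hQl φ)
      (fun φ hφ => hXl _ (hIR φ hφ)) φ1 ⟨le_rfl, by linarith⟩
    intro a
    rw [hA φ1 ⟨h10.le, le_rfl⟩ a]
    exact (hX0 a).symm
  have hC : ∀ φ ∈ Icc (3 * Real.pi / 4) Real.pi, pmH m 0 (s * φ) ∘ cyc m ∈ Cham m := by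
    intro φ hφ
    apply pmH_cyc hm
    rw [hcos]
    apply Real.cos_neg_of_pi_div_two_lt_of_lt
    · have := hφ.1; linarith
    · have := hφ.2; linarith
  have hcc : Continuous (fun φ : ℝ => pmH m 0 (s * φ) ∘ cyc m) := by
    apply continuous_pi
    intro p
    exact (continuous_apply (cyc m p)).comp hHc
  have hE : ∀ φ ∈ Icc (3 * Real.pi / 4) Real.pi, ∀ a,
      Q a φ = D.μ (d a) (pmH m 0 (s * φ) ∘ cyc m) := by
    apply pair_move_uniq (φ := fun φ : ℝ => F (pmH m 0 (s * φ)))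
      (M := Q) (M' := fun a φ => D.μ (d a) (pmH m 0 (s * φ) ∘ cyc m))
      isPreconnected_Icc (fun φ _ => hsq φ) (fun a => (hQc a).continuousOn)
      (fun a => (D.μ_cont (d a)).comp hcc.continuousOn hC) (fun φ _ => hQl φ)
      (fun φ hφ => by
        have h1 := D.μ_lab _ (hC φ hφ)
        rw [hF.symm _ (pmH_conf _ _)] at h1
        exact pair_move_perm h1 d) (3 * Real.pi / 4) ⟨le_rfl, by linarith⟩
    intro a
    rw [hB (3 * Real.pi / 4) ⟨by linarith, le_rfl⟩ a]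
    exact hlab X hXc hXl hXμ _ (hIR _ ⟨by linarith, le_rfl⟩) (hC _ ⟨le_rfl, by linarith⟩) a
  intro a
  exact hE Real.pi ⟨by linarith, le_rfl⟩ a

/-- partial logarithms -/
noncomputable def pmu (m : ℕ) (q : ℕ) : ℝ := if q < m then Real.log (q + 1) else 0

theorem pmu_tele (m : ℕ) (a b : ℕ) (hab : a ≤ b) :
    ∑ k ∈ Finset.Ico a b, (pmu m k - pmu m (k + 1)) = pmu m a - pmu m b := by
  induction b, hab using Nat.le_induction with
  | base => simp
  | succ b hab ih =>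
    rw [Finset.sum_Ico_succ_top hab, ih]
    ring

/-- the base point of the nested chart, moved in the first direction -/
noncomputable def pmz (m : ℕ) (h : 0 < m) (θ : ℝ) : Fin m → ℂ := fun j =>
  ((pmu m j - pmu m (j + 1) : ℝ) : ℂ) + (Pi.single (⟨0, h⟩ : Fin m) ((θ : ℂ) * Complex.I) : Fin m → ℂ) j

theorem pmz_sum (m : ℕ) (h : 0 < m) (θ : ℝ) (i : Fin m) :
    ∑ j ∈ Finset.Ici i, pmz m h θ j =
      ((Real.log ((i : ℕ) + 1) : ℝ) : ℂ) + if (i : ℕ) = 0 then (θ : ℂ) * Complex.I else 0 := by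
  unfold pmz
  rw [Finset.sum_add_distrib]
  congr 1
  · rw [← Complex.ofReal_sum]
    congr 1
    have h1 : ∑ j ∈ Finset.Ici i, (pmu m (j : ℕ) - pmu m ((j : ℕ) + 1)) =
        ∑ k ∈ (Finset.Ici i).map Fin.valEmbedding, (pmu m k - pmu m (k + 1)) := by
      rw [Finset.sum_map]
      rfl
    rw [h1, Fin.map_valEmbedding_Ici, pmu_tele m _ _ i.2.le]
    unfold pmu
    rw [if_pos i.2, if_neg (lt_irrefl m), sub_zero]
  · have h2 : ∀ x : Fin m, (Pi.single (⟨0, h⟩ : Fin m) ((θ : ℂ) * Complex.I) : Fin m → ℂ) x =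
        if x = (⟨0, h⟩ : Fin m) then (θ : ℂ) * Complex.I else 0 := fun x => by
      by_cases hx : x = ⟨0, h⟩
      · rw [if_pos hx, hx, Pi.single_eq_same]
      · rw [if_neg hx, Pi.single_eq_of_ne hx]
    rw [Finset.sum_congr rfl (fun x _ => h2 x), Finset.sum_ite_eq']
    by_cases hi : (i : ℕ) = 0
    · rw [if_pos hi, if_pos]
      rw [Finset.mem_Ici, Fin.le_def]
      simp [hi]
    · rw [if_neg hi, if_neg]
      rw [Finset.mem_Ici, Fin.le_def]
      simpa using hi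

theorem pmz_nest (hm : 2 ≤ m) (θ : ℝ) : nest (pmz m (by omega) θ) = pmH m θ 0 := by
  funext p
  unfold nest
  refine Fin.cases ?_ (fun i => ?_) p
  · rw [Fin.cons_zero]
    unfold pmH
    rw [if_neg (by simp), if_neg (by simp; omega)]
    simp
  · rw [Fin.cons_succ, pmz_sum]
    have hi0 : (0:ℝ) < ((i : ℕ) : ℝ) + 1 := by positivity
    rw [Complex.exp_add, ← Complex.ofReal_exp, Real.exp_log hi0]
    unfold pmH
    by_cases hi : (i : ℕ) = 0
    · rw [if_pos hi, if_pos (by simp [hi]), hi]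
      simp
    · rw [if_neg hi, if_neg (by simp [hi]), Complex.exp_zero, mul_one]
      by_cases him : ((i.succ : Fin (m + 1)) : ℕ) = m
      · rw [if_pos him]
        have h9 : (i : ℕ) + 1 = m := by simpa using him
        have : (m : ℂ) = ((i : ℕ) : ℂ) + 1 := by
          exact_mod_cast h9.symm
        rw [this]
        simp
      · rw [if_neg him]
        simp

theorem pmz_UN (h : 0 < m) (θ : ℝ) : pmz m h θ ∈ UN m := by
  intro j hj
  unfold pmz
  have h1 : ((Pi.single (⟨0, h⟩ : Fin m) ((θ : ℂ) * Complex.I) : Fin m → ℂ) j).re = 0 := by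
    by_cases hj0 : j = ⟨0, h⟩
    · rw [hj0, Pi.single_eq_same]; simp
    · rw [Pi.single_eq_of_ne hj0]; simp
  rw [Complex.add_re, h1, Complex.ofReal_re, add_zero]
  unfold pmu
  rw [if_pos j.2, if_pos hj]
  have h2 : Real.log (((j : ℕ) : ℝ) + 1) < Real.log ((((j : ℕ) + 1 : ℕ) : ℝ) + 1) := by
    apply Real.log_lt_log (by positivity)
    push_cast
    linarith
  linarith

theorem pmz_cont (h : 0 < m) : Continuous (pmz m h) := by
  apply continuous_pi
  intro j
  unfold pmz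
  by_cases hj0 : j = ⟨0, h⟩
  · rw [hj0]
    simp only [Pi.single_eq_same]
    fun_prop
  · simp only [Pi.single_eq_of_ne hj0]
    fun_prop

theorem pmz_per (h : 0 < m) (n : ℕ) (θ : ℝ) :
    pmz m h (θ + n.factorial • (2 * Real.pi)) = pmz m h θ + per m n ⟨0, h⟩ := by
  funext j
  rw [Pi.add_apply]
  unfold pmz per
  rw [add_assoc, ← Pi.add_apply, ← Pi.single_add]
  congr 3
  push_cast
  rw [nsmul_eq_mul]
  push_cast
  ring

theorem pmz_zero (h : 0 < m) :
    pmz m h 0 = fun j : Fin m => (((pmu m j - pmu m (j + 1) : ℝ)) : ℂ) := by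
  funext j
  unfold pmz
  simp

theorem pair_move (hF : GoodC m n F) (D : Data m n F) (hm : 2 ≤ m) :
    ∃ W₁ : Fin n → Fin n → ℤ,
      (∀ a b, a ≠ b → W₁ (dtop D.lam a) (dtop D.lam b) = D.W a b ⟨0, by omega⟩) ∧
      (∀ a b, a ≠ b → W₁ (dbot D.lam a) (dbot D.lam b) = D.W a b ⟨0, by omega⟩) := by
  classical
  have hm1 : 0 < m := by omega
  have hbC : pmH m 0 0 ∈ Cham m := pmH_Cham hm 0 (by simp)
  have hFc : ∀ {V : Type} [TopologicalSpace V] (f : V → Fin (m + 1) → ℂ), Continuous f →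
      (∀ v, f v ∈ Conf m) → Continuous (fun v => F (f v)) := by
    intro V _ f hf hc
    exact hF.holo.comp_continuous hf hc
  have hFH : Continuous (fun x : ℝ × ℝ => F (pmH m x.1 x.2)) :=
    hFc (fun x : ℝ × ℝ => pmH m x.1 x.2) pmH_cont (fun x => pmH_conf _ _)
  have hsq : ∀ θ φ : ℝ, Squarefree (mpoly n (F (pmH m θ φ))) := fun θ φ => hF.sqf _ (pmH_conf _ _)
  obtain ⟨P, hPc', hPl', hP0⟩ := pair_move_lift (K := (univ : Set (ℝ × ℝ))) convex_univ
    (φ := fun x : ℝ × ℝ => F (pmH m x.1 x.2)) hFH.continuousOn (fun x _ => hsq x.1 x.2) ((0:ℝ), (0:ℝ))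
    (mem_univ _) (fun a => D.μ a (pmH m 0 0)) (D.μ_lab _ hbC)
  have hPc : ∀ a, Continuous (P a) := fun a => continuousOn_univ.1 (hPc' a)
  have hPl : ∀ x : ℝ × ℝ, Lab (F (pmH m x.1 x.2)) (fun a => P a x) := fun x => hPl' x (mem_univ _)
  -- (1)
  have h1 : ∀ θ : ℝ, ∀ a, P a (θ, 0) = D.M a (pmz m hm1 θ) := by
    intro θ
    apply pair_move_uniq (K := (univ : Set ℝ)) (φ := fun θ : ℝ => F (pmH m θ 0))
      (M := fun a θ => P a (θ, 0)) (M' := fun a θ => D.M a (pmz m hm1 θ))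
      convex_univ.isPreconnected (fun θ _ => hsq θ 0)
      (fun a => ((hPc a).comp (by fun_prop)).continuousOn)
      (fun a => (D.M_cont a).comp (pmz_cont hm1).continuousOn (fun θ _ => pmz_UN hm1 θ))
      (fun θ _ => hPl (θ, 0))
      (fun θ _ => by
        have := D.M_lab _ (pmz_UN hm1 θ)
        rw [pmz_nest hm] at this
        exact this) 0 (mem_univ _) ?_ θ (mem_univ _)
    intro a
    show P a ((0:ℝ), (0:ℝ)) = D.M a (pmz m hm1 0)
    rw [hP0, pmz_zero hm1, D.M_eq (fun j : Fin m => pmu m j - pmu m (j + 1)) (by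
      have := pmz_UN hm1 0
      rw [pmz_zero hm1] at this
      exact this) a]
    have h2 := pmz_nest hm 0
    rw [pmz_zero] at h2
    rw [← h2]
  -- (2)
  have hTop : ∀ a, P a (0, Real.pi) = D.μ (dtop D.lam a) (pmH m 0 Real.pi ∘ cyc m) := by
    have h := pair_move_half hF D hm (TopR m) (TopR_convex m).1 (TopR_convex m).2 1 (Or.inl rfl)
      (fun φ h0 h1 => by rw [one_mul]; exact pmH_TopR hm φ h0 h1) (dtop D.lam)
      (fun X hX hL h0 => top_labels hF D X hX hL h0) (fun a φ => P a (0, φ))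
      (fun a => (hPc a).comp (by fun_prop)) (fun φ => by rw [one_mul]; exact hPl (0, φ)) hP0
    intro a
    have := h a
    rw [one_mul] at this
    exact this
  have hBot : ∀ a, P a (0, -Real.pi) = D.μ (dbot D.lam a) (pmH m 0 Real.pi ∘ cyc m) := by
    have h := pair_move_half hF D hm (BotR m) (BotR_convex m).1 (BotR_convex m).2 (-1) (Or.inr rfl)
      (fun φ h0 h1 => by rw [neg_one_mul]; exact pmH_BotR hm φ h0 h1) (dbot D.lam)
      (fun X hX hL h0 => bot_labels hF D X hX hL h0) (fun a φ => P a (0, -φ))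
      (fun a => (hPc a).comp (by fun_prop)) (fun φ => by rw [neg_one_mul]; exact hPl (0, -φ))
      (fun a => by rw [neg_zero]; exact hP0 a)
    intro a
    have := h a
    rw [neg_one_mul, pmH_pi] at this
    exact this
  -- (3)
  have hcpi : pmH m 0 Real.pi ∘ cyc m ∈ Cham m := pmH_cyc hm Real.pi (by rw [Real.cos_pi]; norm_num)
  have hLpi : Continuous (fun θ : ℝ => pmH m θ Real.pi) :=
    pmH_cont.comp (by fun_prop : Continuous (fun θ : ℝ => (θ, Real.pi)))
  obtain ⟨Z, hZc', hZl', hZ0⟩ := pair_move_lift (K := (univ : Set ℝ)) convex_univ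
    (φ := fun θ : ℝ => F (pmH m θ Real.pi))
    (hFc _ hLpi (fun θ => pmH_conf _ _)).continuousOn (fun θ _ => hsq θ Real.pi) (0:ℝ)
    (mem_univ _) (fun a => D.μ a (pmH m 0 Real.pi ∘ cyc m)) (by
      have := D.μ_lab _ hcpi
      rw [hF.symm _ (pmH_conf _ _)] at this
      exact this)
  have hZc : ∀ a, Continuous (Z a) := fun a => continuousOn_univ.1 (hZc' a)
  have hZl : ∀ θ : ℝ, Lab (F (pmH m θ Real.pi)) (fun a => Z a θ) := fun θ => hZl' θ (mem_univ _)
  have hPT : ∀ θ : ℝ, ∀ a, P a (θ, Real.pi) = Z (dtop D.lam a) θ := by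
    intro θ
    apply pair_move_uniq (K := (univ : Set ℝ)) (φ := fun θ : ℝ => F (pmH m θ Real.pi))
      (M := fun a θ => P a (θ, Real.pi)) (M' := fun a θ => Z (dtop D.lam a) θ)
      convex_univ.isPreconnected (fun θ _ => hsq θ _)
      (fun a => ((hPc a).comp (by fun_prop)).continuousOn) (fun a => (hZc _).continuousOn)
      (fun θ _ => hPl (θ, Real.pi)) (fun θ _ => pair_move_perm (hZl θ) _) 0 (mem_univ _) ?_ θ
      (mem_univ _)
    intro a
    rw [hTop, hZ0]
  have hPB : ∀ θ : ℝ, ∀ a, P a (θ, -Real.pi) = Z (dbot D.lam a) θ := by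
    intro θ
    apply pair_move_uniq (K := (univ : Set ℝ)) (φ := fun θ : ℝ => F (pmH m θ Real.pi))
      (M := fun a θ => P a (θ, -Real.pi)) (M' := fun a θ => Z (dbot D.lam a) θ)
      convex_univ.isPreconnected (fun θ _ => hsq θ _)
      (fun a => ((hPc a).comp (by fun_prop)).continuousOn) (fun a => (hZc _).continuousOn)
      (fun θ _ => by
        have := hPl (θ, -Real.pi)
        simp only [pmH_pi] at this
        exact this) (fun θ _ => pair_move_perm (hZl θ) _) 0 (mem_univ _) ?_ θ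
      (mem_univ _)
    intro a
    rw [hBot, hZ0]
  -- (4)
  obtain ⟨T, hT⟩ : ∃ T : ℝ, T = n.factorial • (2 * Real.pi) := ⟨_, rfl⟩
  have hZper : ∀ a θ, Z a (θ + T) = Z a θ := by
    rw [hT]
    exact pair_move_per (fun θ => hsq θ Real.pi) hZc hZl (2 * Real.pi)
      (fun θ => by rw [pmH_per])
  have hZex : ∀ a b, ∃ w : ℤ, a ≠ b → Wd univ (fun θ => Z a θ - Z b θ) T w := by
    intro a b
    by_cases hab : a = b
    · exact ⟨0, fun h => absurd hab h⟩
    · obtain ⟨w, hw⟩ := Wd.exists (K := (univ : Set ℝ)) convex_univ (g := fun θ => Z a θ - Z b θ)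
        (p := T) (fun v _ => mem_univ _) ((hZc a).sub (hZc b)).continuousOn
        (fun θ _ => sub_ne_zero.2 (fun h => hab (lab_inj (hZl θ) (hsq _ _) h)))
        (fun θ _ => by rw [hZper, hZper])
      exact ⟨w, fun _ => hw⟩
  choose W₁ hW₁ using hZex
  have hPper : ∀ a x, P a (x + (T, 0)) = P a x := by
    have h := pair_move_per (V := ℝ × ℝ) (φ := fun x : ℝ × ℝ => F (pmH m x.1 x.2))
      (fun x => hsq x.1 x.2) hPc hPl ((2 * Real.pi, 0) : ℝ × ℝ) (fun x => by
        show F (pmH m (x.1 + 2 * Real.pi) (x.2 + 0)) = F (pmH m x.1 x.2)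
        rw [pmH_per, add_zero])
    intro a x
    have h2 : (n.factorial • ((2 * Real.pi, 0) : ℝ × ℝ)) = (T, 0) := by
      rw [hT]
      ext
      · rfl
      · simp
    have := h a x
    rw [h2] at this
    exact this
  have hslice : ∀ a b, a ≠ b → ∀ φ : ℝ, Wd univ (fun θ => P a (θ, φ) - P b (θ, φ)) T
      (D.W a b ⟨0, hm1⟩) := by
    intro a b hab φ
    obtain ⟨w, hw⟩ := Wd.exists (K := (univ : Set (ℝ × ℝ))) convex_univ (g := fun x => P a x - P b x)
      (p := (T, 0)) (fun v _ => mem_univ _) ((hPc a).sub (hPc b)).continuousOn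
      (fun x _ => sub_ne_zero.2 (fun h => hab (lab_inj (hPl x) (hsq _ _) h)))
      (fun x _ => by rw [hPper, hPper])
    have hsl : ∀ φ : ℝ, Wd univ (fun θ => P a (θ, φ) - P b (θ, φ)) T w := by
      intro φ
      exact Wd.comp hw (K' := (univ : Set ℝ)) (f := fun θ : ℝ => (θ, φ)) (p' := T)
        (by fun_prop) (fun _ _ => mem_univ _) (fun θ _ => by
          ext
          · rfl
          · simp)
    have hM : Wd univ (fun θ : ℝ => D.M a (pmz m hm1 θ) - D.M b (pmz m hm1 θ)) T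
        (D.W a b ⟨0, hm1⟩) :=
      Wd.comp (D.W_wd a b hab ⟨0, hm1⟩) (K' := (univ : Set ℝ)) (f := pmz m hm1) (p' := T)
        (pmz_cont hm1).continuousOn (fun θ _ => pmz_UN hm1 θ) (fun θ _ => by
          rw [hT]
          exact pmz_per hm1 n θ)
    have hM' : Wd univ (fun θ : ℝ => P a (θ, 0) - P b (θ, 0)) T (D.W a b ⟨0, hm1⟩) :=
      Wd.congr hM (fun θ _ => by rw [h1, h1])
    have hweq : w = D.W a b ⟨0, hm1⟩ :=
      Wd.unique (K := (univ : Set ℝ)) convex_univ.isPreconnected ⟨0, mem_univ _⟩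
        (fun v _ => mem_univ _) (hsl 0) hM'
    rw [← hweq]
    exact hsl φ
  refine ⟨W₁, ?_, ?_⟩
  · intro a b hab
    have hne : dtop D.lam a ≠ dtop D.lam b := fun h => hab ((dtop D.lam).injective h)
    have h3 : Wd univ (fun θ => Z (dtop D.lam a) θ - Z (dtop D.lam b) θ) T
        (D.W a b ⟨0, hm1⟩) :=
      Wd.congr (hslice a b hab Real.pi) (fun θ _ => by rw [hPT, hPT])
    exact Wd.unique (K := (univ : Set ℝ)) convex_univ.isPreconnected ⟨0, mem_univ _⟩
      (fun v _ => mem_univ _) (hW₁ _ _ hne) h3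
  · intro a b hab
    have hne : dbot D.lam a ≠ dbot D.lam b := fun h => hab ((dbot D.lam).injective h)
    have h3 : Wd univ (fun θ => Z (dbot D.lam a) θ - Z (dbot D.lam b) θ) T
        (D.W a b ⟨0, hm1⟩) :=
      Wd.congr (hslice a b hab (-Real.pi)) (fun θ _ => by rw [hPB, hPB])
    exact Wd.unique (K := (univ : Set ℝ)) convex_univ.isPreconnected ⟨0, mem_univ _⟩
      (fun v _ => mem_univ _) (hW₁ _ _ hne) h3

end LinC
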