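import Pool.Agent.Helper996.LinC.Base
import Pool.Agent.Helper996.Lin.Defs
import Pool.Agent.Helper996.Lin.Defs4
import Pool.Agent.Helper996.Lin.Defs6
import Pool.Agent.Helper996.Lin.J_lab_basic
import Pool.Agent.Helper996.Lin.J_lab_lift
import Pool.Agent.Helper996.Lin.J_charts
import Pool.Agent.Helper996.LinC.C_topbot
import Pool.Agent.Helper996.Lin.J_tf_facts
import Pool.Agent.Helper996.Lin.J_tf_top_path

set_option autoImplicit false

open Polynomial Set Filter Topology LinS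

namespace LinC

variable {m n : ℕ} {F : (Fin (m + 1) → ℂ) → Fin n → ℂ}

theorem top_shift_agree {V : Type*} [TopologicalSpace V] {K : Set V} (hK : IsPreconnected K) {n : ℕ}
    {φ : V → Fin n → ℂ} (hs : ∀ v ∈ K, Squarefree (mpoly n (φ v))) {M M' : Fin n → V → ℂ}
    (hM : ∀ a, ContinuousOn (M a) K) (hM' : ∀ a, ContinuousOn (M' a) K)
    (hL : ∀ v ∈ K, Lab (φ v) (fun a => M a v)) (hL' : ∀ v ∈ K, Lab (φ v) (fun a => M' a v))
    (v0 : V) (hv0 : v0 ∈ K) (h0 : ∀ a, M' a v0 = M a v0) :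
    ∀ v ∈ K, ∀ a, M' a v = M a v := by
  obtain ⟨π, hπ⟩ := lab_uniq hK hs hM hM' hL hL'
  intro v hv a
  have h1 : M (π a) v0 = M a v0 := by rw [← hπ v0 hv0 a, h0]
  have h2 : π a = a := lab_inj (hL v0 hv0) (hs v0 hv0) h1
  rw [hπ v hv a, h2]

theorem top_shift_perm {n : ℕ} {z M : Fin n → ℂ} (h : Lab z M) (π : Equiv.Perm (Fin n)) :
    Lab z (fun a => M (π a)) := by
  unfold Lab at *
  rw [h]
  exact (Equiv.prod_comp π (fun a => X - C (M a))).symm

theorem top_shift_gen (hF : GoodC m n F) (D : Data m n F) {N : Fin n → ℂ → ℂ}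
    (K H : Set ℂ) (R : Set (Fin (m + 1) → ℂ)) (d : Equiv.Perm (Fin n)) (e : ℝ)
    (hN : ∀ a, ContinuousOn (N a) K) (hL : ∀ φ ∈ K, Lab (F (tf m φ)) (fun a => N a φ))
    (h0 : ∀ a, N a 0 = D.μ a (tf m 0))
    (hconf : ∀ φ ∈ K, tf m φ ∈ Conf m) (htf : ContinuousOn (tf m) K)
    (hHK : H ⊆ K) (hHc : Convex ℝ H) (hHs : ∀ φ ∈ H, φ + Real.pi / (m + 1) ∈ H)
    (hrot : ∀ φ ∈ H, tf m (φ + Real.pi / (m + 1)) = tf m φ ∘ finRotate (m + 1))
    (hline : ∀ x : ℝ, (x : ℂ) + e * Complex.I ∈ H)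
    (hKbox : ∀ z : ℂ, |z.re| ≤ Real.pi / (4 * (m + 1)) → z.im ∈ Set.uIcc 0 e → z ∈ K)
    (hR : Convex ℝ R) (hRc : ∀ r ∈ R, r ∈ Conf m)
    (hlab : ∀ (X : Fin n → (Fin (m + 1) → ℂ) → ℂ),
      (∀ a, ContinuousOn (X a) R) → (∀ r ∈ R, Lab (F r) (fun a => X a r)) →
      (∀ r ∈ R, r ∈ Cham m → ∀ a, X a r = D.μ a r) →
      ∀ r ∈ R, r ∘ cyc m ∈ Cham m → ∀ a, X a r = D.μ (d a) (r ∘ cyc m))
    (hp : ∀ t : ℝ, |t| ≤ Real.pi / (4 * (m + 1)) →
      tf m ((Real.pi / (2 * (m + 1)) + t : ℝ) + e * Complex.I) ∈ R ∧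
      (t = -(Real.pi / (4 * (m + 1))) →
        tf m ((Real.pi / (2 * (m + 1)) + t : ℝ) + e * Complex.I) ∈ Cham m) ∧
      (t = Real.pi / (4 * (m + 1)) →
        tf m ((Real.pi / (2 * (m + 1)) + t : ℝ) + e * Complex.I) ∘ cyc m ∈ Cham m))
    (hbox : ∀ s : ℝ, |s| ≤ Real.pi / (4 * (m + 1)) → ∀ η' : ℝ, |η'| ≤ |e| →
      tf m ((s : ℂ) + η' * Complex.I) ∈ Cham m) (φ : ℂ) (hφ : φ ∈ H) (a : Fin n) :
    N a (φ + Real.pi / (m + 1)) = N (d a) φ := by
  have hk : (0 : ℝ) < 4 * ((m : ℝ) + 1) := by positivity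
  set c : ℝ := Real.pi / (4 * (m + 1)) with hc
  have hc0 : 0 < c := div_pos Real.pi_pos hk
  -- the box
  have hsqK : ∀ z ∈ K, Squarefree (mpoly n (F (tf m z))) := fun z hz => hF.sqf _ (hconf z hz)
  let B : Set ℂ := Set.Icc (-c) c ×ℂ Set.uIcc 0 e
  have hBconv : Convex ℝ B :=
    ((convex_Icc (-c) c).linear_preimage Complex.reLm).inter
      ((convex_uIcc 0 e).linear_preimage Complex.imLm)
  have hBK : B ⊆ K := by
    intro z hz
    rw [Complex.mem_reProdIm] at hz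
    exact hKbox z (abs_le.2 hz.1) hz.2
  have hBC : ∀ z ∈ B, tf m z ∈ Cham m := by
    intro z hz
    rw [Complex.mem_reProdIm] at hz
    have h1 : |z.im| ≤ |e| := by
      have := Set.abs_sub_left_of_mem_uIcc hz.2
      simpa using this
    have h2 := hbox z.re (abs_le.2 hz.1) z.im h1
    rwa [Complex.re_add_im] at h2
  have h0B : (0 : ℂ) ∈ B := by
    rw [Complex.mem_reProdIm]
    refine ⟨?_, ?_⟩
    · simp only [Complex.zero_re, Set.mem_Icc]
      constructor <;> linarith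
    · simp only [Complex.zero_im]
      exact Set.left_mem_uIcc
  have hNB : ∀ z ∈ B, ∀ a, N a z = D.μ a (tf m z) :=
    top_shift_agree hBconv.isPreconnected (φ := fun z => F (tf m z))
      (M := fun a z => D.μ a (tf m z)) (M' := N)
      (fun z hz => hsqK z (hBK hz))
      (fun a => (D.μ_cont a).comp (htf.mono hBK) hBC)
      (fun a => (hN a).mono hBK)
      (fun z hz => D.μ_lab _ (hBC z hz)) (fun z hz => hL z (hBK hz)) 0 h0B h0
  -- labels on R
  obtain ⟨X', hX'c, hX'l⟩ := lab_lift hR (φ := F) (hF.holo.mono hRc)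
    (fun r hr => hF.sqf r (hRc r hr))
  have hRCham : Convex ℝ (R ∩ Cham m) := hR.inter (Cham_convex m)
  obtain ⟨π, hπ⟩ := lab_uniq hRCham.isPreconnected (φ := F)
    (fun r hr => hF.sqf r (hRc r hr.1)) (M := X') (M' := D.μ)
    (fun a => (hX'c a).mono Set.inter_subset_left)
    (fun a => (D.μ_cont a).mono Set.inter_subset_right)
    (fun r hr => hX'l r hr.1) (fun r hr => D.μ_lab r hr.2)
  let X : Fin n → (Fin (m + 1) → ℂ) → ℂ := fun a => X' (π a)
  have hXc : ∀ a, ContinuousOn (X a) R := fun a => hX'c (π a)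
  have hXl : ∀ r ∈ R, Lab (F r) (fun a => X a r) := fun r hr => top_shift_perm (hX'l r hr) π
  have hX0 : ∀ r ∈ R, r ∈ Cham m → ∀ a, X a r = D.μ a r := fun r h1 h2 a =>
    (hπ r ⟨h1, h2⟩ a).symm
  have hXcyc := hlab X hXc hXl hX0
  -- the segment
  let ψ : ℝ → ℂ := fun t => ((Real.pi / (2 * (m + 1)) + t : ℝ) : ℂ) + e * Complex.I
  have hψc : Continuous ψ := by
    show Continuous fun t : ℝ => ((Real.pi / (2 * (m + 1)) + t : ℝ) : ℂ) + e * Complex.I
    exact (Complex.continuous_ofReal.comp (continuous_const.add continuous_id)).add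
      continuous_const
  have hψH : ∀ t, ψ t ∈ H := fun t => hline _
  have hψK : ∀ t, ψ t ∈ K := fun t => hHK (hψH t)
  have hψR : ∀ t ∈ Set.Icc (-c) c, tf m (ψ t) ∈ R := fun t ht => (hp t (abs_le.2 ht)).1
  have hmm : -c ∈ Set.Icc (-c) c := ⟨le_rfl, by linarith⟩
  have hcm : c ∈ Set.Icc (-c) c := ⟨by linarith, le_rfl⟩
  have hm1 : ((m : ℝ) + 1) ≠ 0 := by positivity
  have hψm : ψ (-c) ∈ B := by
    rw [Complex.mem_reProdIm]
    have e0 : Real.pi / (2 * ((m : ℝ) + 1)) + -c = c := by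
      rw [hc]; field_simp; ring
    have e1 : (ψ (-c)).re = c := by
      simp only [ψ, e0]
      simp
    have e2 : (ψ (-c)).im = e := by
      simp only [ψ, e0]
      simp
    rw [e1, e2]
    exact ⟨hcm, Set.right_mem_uIcc⟩
  have hseg : ∀ t ∈ Set.Icc (-c) c, ∀ a, N a (ψ t) = X a (tf m (ψ t)) := by
    refine top_shift_agree isPreconnected_Icc (φ := fun t => F (tf m (ψ t)))
      (M := fun a t => X a (tf m (ψ t))) (M' := fun a t => N a (ψ t))
      (fun t _ => hsqK _ (hψK t)) ?_ ?_ (fun t ht => hXl _ (hψR t ht))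
      (fun t _ => hL _ (hψK t)) (-c) hmm ?_
    · intro a
      exact (hXc a).comp (htf.comp hψc.continuousOn fun t _ => hψK t) hψR
    · intro a
      exact (hN a).comp hψc.continuousOn fun t _ => hψK t
    · intro a
      show N a (ψ (-c)) = X a (tf m (ψ (-c)))
      rw [hNB _ hψm a, hX0 _ (hψR _ hmm) ((hp (-c) (abs_le.2 hmm)).2.1 rfl) a]
  -- the base point
  set φ₀ : ℂ := ((-c : ℝ) : ℂ) + e * Complex.I with hφ₀
  have hφ₀H : φ₀ ∈ H := hline _
  have hφ₀B : φ₀ ∈ B := by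
    rw [Complex.mem_reProdIm]
    have e1 : φ₀.re = -c := by simp [hφ₀]
    have e2 : φ₀.im = e := by simp [hφ₀]
    rw [e1, e2]
    exact ⟨hmm, Set.right_mem_uIcc⟩
  have hψφ : ψ c = φ₀ + Real.pi / (m + 1) := by
    have h1 : Real.pi / (2 * ((m : ℝ) + 1)) + c = -c + Real.pi / ((m : ℝ) + 1) := by
      rw [hc]; field_simp; ring
    simp only [ψ, hφ₀]
    rw [h1]
    push_cast
    ring
  have hbase : ∀ a, N a (φ₀ + Real.pi / (m + 1)) = N (d a) φ₀ := by
    intro a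
    rw [← hψφ, hseg c hcm a, hXcyc _ (hψR _ hcm) ((hp c (abs_le.2 hcm)).2.2 rfl) a, hψφ,
      hrot φ₀ hφ₀H, hNB φ₀ hφ₀B]
    congr 1
    funext x
    simp [cyc]
  -- the half plane
  have hfinal : ∀ φ ∈ H, ∀ a, N a (φ + Real.pi / (m + 1)) = N (d a) φ := by
    refine top_shift_agree hHc.isPreconnected (φ := fun φ => F (tf m φ))
      (M := fun a φ => N (d a) φ) (M' := fun a φ => N a (φ + Real.pi / (m + 1)))
      (fun φ hφ => hsqK φ (hHK hφ)) (fun a => (hN (d a)).mono hHK) ?_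
      (fun φ hφ => top_shift_perm (hL φ (hHK hφ)) d) ?_ φ₀ hφ₀H hbase
    · intro a
      exact (hN a).comp (continuous_id.add continuous_const).continuousOn
        fun φ hφ => hHK (hHs φ hφ)
    · intro φ hφ
      have h1 := hL _ (hHK (hHs φ hφ))
      rw [hrot φ hφ, hF.symm _ (hconf φ (hHK hφ))] at h1
      exact h1
  exact hfinal φ hφ a

theorem top_shift (hF : GoodC m n F) (D : Data m n F) (hm : 0 < m) {N : Fin n → ℂ → ℂ}
    (hN : ∀ a, ContinuousOn (N a) (KT m)) (hL : ∀ φ ∈ KT m, Lab (F (tf m φ)) (fun a => N a φ))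
    (h0 : ∀ a, N a 0 = D.μ a (tf m 0)) (φ : ℂ) (hφ : 0 < φ.im) (a : Fin n) :
    N a (φ + Real.pi / (m + 1)) = N (dtop D.lam a) φ := by
  obtain ⟨f1, f2, f3, f4, f5, f6, f7, f8, f9⟩ := tf_facts m hm
  obtain ⟨η, hη, hpath⟩ := tf_top_path m hm
  have hk : (0 : ℝ) < (m : ℝ) + 1 := by positivity
  have him : ∀ φ : ℂ, (φ + Real.pi / (m + 1)).im = φ.im := by
    intro φ
    have : (Real.pi : ℂ) / (m + 1) = ((Real.pi / (m + 1) : ℝ) : ℂ) := by push_cast; rfl
    rw [Complex.add_im, this, Complex.ofReal_im, add_zero]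
  refine top_shift_gen hF D (KT m) {z | 0 < z.im} (TopR m) (dtop D.lam) η hN hL h0
    (fun φ hφ => f1 φ (Or.inl hφ)) f3 (fun z hz => Or.inl hz)
    (convex_halfSpace_im_gt 0) ?_ ?_ ?_ ?_ (TopR_convex m).1 (TopR_convex m).2
    (fun X h1 h2 h3 => top_labels hF D X h1 h2 h3) (fun t ht => (hpath t ht).1) ?_ φ hφ a
  · intro φ hφ
    show 0 < (φ + Real.pi / (m + 1)).im
    rw [him]; exact hφ
  · intro φ hφ
    exact f6 φ (ne_of_gt hφ)
  · intro x
    show 0 < ((x : ℂ) + η * Complex.I).im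
    simpa using hη
  · intro z h1 h2
    rw [Set.uIcc_of_le hη.le] at h2
    rcases eq_or_lt_of_le h2.1 with h | h
    · right
      refine ⟨h.symm, lt_of_le_of_lt h1 ?_⟩
      apply div_lt_div_of_pos_left Real.pi_pos (by positivity)
      linarith
    · left; exact h
  · intro s hs η' hη'
    exact (hpath 0 (by simp; positivity)).2.2 s hs η' (by rwa [abs_of_pos hη] at hη')

theorem bot_shift (hF : GoodC m n F) (D : Data m n F) (hm : 0 < m) {N : Fin n → ℂ → ℂ}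
    (hN : ∀ a, ContinuousOn (N a) (KB m)) (hL : ∀ φ ∈ KB m, Lab (F (tf m φ)) (fun a => N a φ))
    (h0 : ∀ a, N a 0 = D.μ a (tf m 0)) (φ : ℂ) (hφ : φ.im < 0) (a : Fin n) :
    N a (φ + Real.pi / (m + 1)) = N (dbot D.lam a) φ := by
  obtain ⟨f1, f2, f3, f4, f5, f6, f7, f8, f9⟩ := tf_facts m hm
  obtain ⟨η, hη, hpath⟩ := tf_top_path m hm
  have hk : (0 : ℝ) < (m : ℝ) + 1 := by positivity
  have him : ∀ φ : ℂ, (φ + Real.pi / (m + 1)).im = φ.im := by
    intro φ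
    have : (Real.pi : ℂ) / (m + 1) = ((Real.pi / (m + 1) : ℝ) : ℂ) := by push_cast; rfl
    rw [Complex.add_im, this, Complex.ofReal_im, add_zero]
  have hneg : ∀ x : ℂ, x + ((-η : ℝ) : ℂ) * Complex.I = x - η * Complex.I := by
    intro x; push_cast; ring
  refine top_shift_gen hF D (KB m) {z | z.im < 0} (BotR m) (dbot D.lam) (-η) hN hL h0
    (fun φ hφ => f1 φ (Or.inr hφ)) f4 (fun z hz => Or.inl hz)
    (convex_halfSpace_im_lt 0) ?_ ?_ ?_ ?_ (BotR_convex m).1 (BotR_convex m).2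
    (fun X h1 h2 h3 => bot_labels hF D X h1 h2 h3) ?_ ?_ φ hφ a
  · intro φ hφ
    show (φ + Real.pi / (m + 1)).im < 0
    rw [him]; exact hφ
  · intro φ hφ
    exact f6 φ (ne_of_lt hφ)
  · intro x
    show ((x : ℂ) + ((-η : ℝ) : ℂ) * Complex.I).im < 0
    simpa using hη
  · intro z h1 h2
    rw [Set.uIcc_of_ge (by linarith)] at h2
    rcases eq_or_lt_of_le h2.2 with h | h
    · right
      refine ⟨h, lt_of_le_of_lt h1 ?_⟩
      apply div_lt_div_of_pos_left Real.pi_pos (by positivity)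
      linarith
    · left; exact h
  · intro t ht
    rw [hneg]
    exact (hpath t ht).2.1
  · intro s hs η' hη'
    exact (hpath 0 (by simp; positivity)).2.2 s hs η' (by rwa [abs_neg, abs_of_pos hη] at hη')

end LinC
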