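import Pool.Agent.Helper996.LinC.DefsR
import Pool.Agent.Helper996.Lin.Defs5b

set_option autoImplicit false

open Polynomial Set Filter Topology LinS

namespace LinC

/-- `SG_n`: the centred monic polynomials of degree `n` with discriminant `1` -/
def SG (n : ℕ) : Set (Fin (n - 1) → ℂ) := {w | (cpoly n w).discr = 1}

/-- discriminant of a configuration -/
noncomputable def Dr {m : ℕ} (r : Fin (m + 1) → ℂ) : ℂ :=
  ∏ p, ∏ q ∈ Finset.Ioi p, (r p - r q) ^ 2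

/-- the number `k (k - 1)`, `k = m + 1` -/
def KK (m : ℕ) : ℕ := (m + 1) * m

/-- the point of `SG_{m+1}` given by a configuration `r` and a root `η` of its discriminant -/
noncomputable def Nr {m : ℕ} (r : Fin (m + 1) → ℂ) (η : ℂ) : Fin m → ℂ :=
  cent (fun p => η⁻¹ * r p)

/-- holomorphic map `SG_{m+1} → SG_n` of rank at most `l` -/
structure GoodS (m n l : ℕ) (f : (Fin m → ℂ) → Fin (n - 1) → ℂ) : Prop where
  maps : ∀ w : Fin m → ℂ, w ∈ SG (m + 1) → f w ∈ SG n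
  cont : ContinuousOn f (SG (m + 1))
  comp : ∀ {E : Type} [NormedAddCommGroup E] [NormedSpace ℂ E] {U : Set E}, IsOpen U →
    ∀ H : E → Fin m → ℂ, DifferentiableOn ℂ H U → (∀ v ∈ U, H v ∈ SG (m + 1)) →
    DifferentiableOn ℂ (fun v => f (H v)) U
  rank : ∀ {U : Set (Fin m → ℂ)}, IsOpen U → ∀ H : (Fin m → ℂ) → Fin m → ℂ,
    DifferentiableOn ℂ H U → (∀ v ∈ U, H v ∈ SG (m + 1)) → ∀ v ∈ U,
    ∃ S : Submodule ℂ (Fin m → ℂ), m ≤ l + Module.finrank ℂ S ∧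
      ∀ u ∈ S, fderiv ℂ (fun v => f (H v)) v u = 0

/-- the polynomial of the block `η` -/
noncomputable def Bp {m n : ℕ} (f : (Fin m → ℂ) → Fin (n - 1) → ℂ) (r : Fin (m + 1) → ℂ)
    (η : ℂ) : ℂ[X] := cpoly n (f (Nr r η))

/-- the centre of the block `η` -/
noncomputable def Bc {m : ℕ} (s : (Fin (m + 1) → ℂ) → ℝ) (r : Fin (m + 1) → ℂ) (η : ℂ) : ℂ :=
  (s r : ℂ) * (η / (‖η‖ : ℂ))

/-- `x` is a root of the (shifted) block `η` -/
def Bl {m n : ℕ} (f : (Fin m → ℂ) → Fin (n - 1) → ℂ) (s : (Fin (m + 1) → ℂ) → ℝ)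
    (r : Fin (m + 1) → ℂ) (η x : ℂ) : Prop :=
  η ^ KK m = Dr r ∧ (Bp f r η).eval (x - Bc s r η) = 0

/-- shifts that separate the blocks -/
structure GoodSh (m n : ℕ) (f : (Fin m → ℂ) → Fin (n - 1) → ℂ)
    (s : (Fin (m + 1) → ℂ) → ℝ) : Prop where
  cont : ContinuousOn s (Conf m)
  symm : ∀ r ∈ Conf m, ∀ σ : Equiv.Perm (Fin (m + 1)), s (r ∘ σ) = s r
  transl : ∀ r ∈ Conf m, ∀ c : ℂ, s (fun p => r p + c) = s r
  sep : ∀ r ∈ Conf m, ∀ η η' x : ℂ, Bl f s r η x → Bl f s r η' x → η = η'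

/-- primitive root of unity of order `KK m` -/
noncomputable def om (m : ℕ) : ℂ := Complex.exp (2 * Real.pi * Complex.I / (KK m : ℂ))

/-- principal root of the discriminant -/
noncomputable def e0 {m : ℕ} (r : Fin (m + 1) → ℂ) : ℂ := (Dr r) ^ ((KK m : ℂ)⁻¹)

/-- product of the shifted block polynomials -/
noncomputable def Pt {m n : ℕ} (f : (Fin m → ℂ) → Fin (n - 1) → ℂ) (s : (Fin (m + 1) → ℂ) → ℝ)
    (r : Fin (m + 1) → ℂ) : ℂ[X] :=
  ∏ j : Fin (KK m), (Bp f r (e0 r * om m ^ (j : ℕ))).comp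
    (X - C (Bc s r (e0 r * om m ^ (j : ℕ))))

/-- its coefficients -/
noncomputable def Fh {m n : ℕ} (f : (Fin m → ℂ) → Fin (n - 1) → ℂ) (s : (Fin (m + 1) → ℂ) → ℝ)
    (r : Fin (m + 1) → ℂ) : Fin (KK m * n) → ℂ := fun i => (Pt f s r).coeff i

/-- same block -/
def relS {m n : ℕ} (f : (Fin m → ℂ) → Fin (n - 1) → ℂ) (s : (Fin (m + 1) → ℂ) → ℝ)
    (r : Fin (m + 1) → ℂ) (x y : ℂ) : Prop := ∃ η, Bl f s r η x ∧ Bl f s r η y

end LinC
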