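import Pool.Agent.Helper996.LinC.DefsG

set_option autoImplicit false

open Polynomial Set Filter Topology LinS
open scoped Manifold ContDiff

namespace LinC

/-- `f : SG k → X` is holomorphic: near every point of `SG k` it is the restriction of a holomorphic
map defined on an open subset of `ℂ^(k-1)` -/
def HolSG (l : ℕ) {k : ℕ} {X : Type*} [TopologicalSpace X] [ChartedSpace (Fin l → ℂ) X]
    (f : SG k → X) : Prop :=
  ∀ z : SG k, ∃ (U : Set (Fin (k - 1) → ℂ)) (g : (Fin (k - 1) → ℂ) → X), IsOpen U ∧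
    (z : Fin (k - 1) → ℂ) ∈ U ∧
    MDifferentiableOn 𝓘(ℂ, Fin (k - 1) → ℂ) 𝓘(ℂ, Fin l → ℂ) g U ∧
    ∀ w : SG k, (w : Fin (k - 1) → ℂ) ∈ U → g w = f w

/-- `f : X → SG n` is holomorphic as a map to `ℂ^(n-1)` -/
def HolToSG (l : ℕ) {n : ℕ} {X : Type*} [TopologicalSpace X] [ChartedSpace (Fin l → ℂ) X]
    (f : X → SG n) : Prop :=
  MDifferentiable 𝓘(ℂ, Fin l → ℂ) 𝓘(ℂ, Fin (n - 1) → ℂ) (fun x => (f x : Fin (n - 1) → ℂ))

end LinC
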