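import Pool.Agent.Helper996.LinC.Base
import Pool.Agent.Helper996.Lin.Defs4
import Pool.Agent.Helper996.Lin.Defs6

set_option autoImplicit false

open Polynomial Set Filter Topology LinS

namespace LinC

/-- two labels lie in the same block (on the chamber) -/
def RbD {m n : ℕ} {F : (Fin (m + 1) → ℂ) → Fin n → ℂ}
    (rel : (Fin (m + 1) → ℂ) → ℂ → ℂ → Prop) (D : Data m n F) (a b : Fin n) : Prop :=
  ∃ r ∈ Cham m, rel r (D.μ a r) (D.μ b r)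

/-- `rel r x y`: the roots `x`, `y` of `F r` lie in the same block; differences of roots in one block
are holomorphic, of rank `≤ l`, and rigid -/
structure GoodR (m n : ℕ) (F : (Fin (m + 1) → ℂ) → Fin n → ℂ)
    (rel : (Fin (m + 1) → ℂ) → ℂ → ℂ → Prop) (l : ℕ) : Prop where
  good : GoodC m n F
  rel_symm : ∀ r ∈ Conf m, ∀ (σ : Equiv.Perm (Fin (m + 1))) (x y : ℂ),
    rel (r ∘ σ) x y ↔ rel r x y
  rel_refl : ∀ r ∈ Conf m, ∀ M : Fin n → ℂ, Lab (F r) M → ∀ a, rel r (M a) (M a)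
  rel_comm : ∀ r ∈ Conf m, ∀ M : Fin n → ℂ, Lab (F r) M → ∀ a b,
    rel r (M a) (M b) → rel r (M b) (M a)
  rel_trans : ∀ r ∈ Conf m, ∀ M : Fin n → ℂ, Lab (F r) M → ∀ a b c,
    rel r (M a) (M b) → rel r (M b) (M c) → rel r (M a) (M c)
  rel_cont : ∀ {V : Type} [TopologicalSpace V] {K : Set V}, IsPreconnected K →
    ∀ H : V → Fin (m + 1) → ℂ, ContinuousOn H K → (∀ v ∈ K, H v ∈ Conf m) →
    ∀ M : Fin n → V → ℂ, (∀ a, ContinuousOn (M a) K) →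
    (∀ v ∈ K, Lab (F (H v)) (fun a => M a v)) →
    ∀ v ∈ K, ∀ v' ∈ K, ∀ a b, rel (H v) (M a v) (M b v) → rel (H v') (M a v') (M b v')
  hol : ∀ {E : Type} [NormedAddCommGroup E] [NormedSpace ℂ E] {U : Set E}, IsOpen U →
    ∀ H : E → Fin (m + 1) → ℂ, DifferentiableOn ℂ H U → (∀ v ∈ U, H v ∈ Conf m) →
    ∀ M : Fin n → E → ℂ, (∀ a, ContinuousOn (M a) U) →
    (∀ v ∈ U, Lab (F (H v)) (fun a => M a v)) →
    ∀ a b, (∀ v ∈ U, rel (H v) (M a v) (M b v)) →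
    DifferentiableOn ℂ (fun v => M a v - M b v) U
  rank : ∀ M : Fin n → (Fin m → ℂ) → ℂ, (∀ a, ContinuousOn (M a) (UN m)) →
    (∀ ζ ∈ UN m, Lab (F (nest ζ)) (fun a => M a ζ)) → ∀ a₀ : Fin n, ∀ ζ ∈ UN m,
    ∃ S : Submodule ℂ (Fin m → ℂ), m ≤ l + Module.finrank ℂ S ∧ ∀ u ∈ S, ∀ a b,
      rel (nest ζ) (M a₀ ζ) (M a ζ) → rel (nest ζ) (M a₀ ζ) (M b ζ) →
      fderiv ℂ (fun ζ => M a ζ - M b ζ) ζ u = 0
  rigid : ∀ {V : Type} [TopologicalSpace V] {K : Set V}, IsPreconnected K →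
    ∀ H : V → Fin (m + 1) → ℂ, ContinuousOn H K → (∀ v ∈ K, H v ∈ Conf m) →
    ∀ M : Fin n → V → ℂ, (∀ a, ContinuousOn (M a) K) →
    (∀ v ∈ K, Lab (F (H v)) (fun a => M a v)) → ∀ v₀ ∈ K, ∀ a₀ : Fin n,
    (∀ v ∈ K, ∃ c : ℂ, ∀ a b, rel (H v) (M a₀ v) (M a v) → rel (H v) (M a₀ v) (M b v) →
      M a v - M b v = c * (M a v₀ - M b v₀)) →
    ∀ v ∈ K, ∀ a b, rel (H v) (M a₀ v) (M a v) → rel (H v) (M a₀ v) (M b v) →
      M a v - M b v = M a v₀ - M b v₀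
  transl : ∀ r ∈ Conf m, ∀ c : ℂ, F (fun p => r p + c) = F r
  rel_transl : ∀ r ∈ Conf m, ∀ (c x y : ℂ), rel (fun p => r p + c) x y ↔ rel r x y
  shift : ∀ (D : Data m n F) (i i' : Fin m) (a : Fin n), RbD rel D (D.lam i a) (D.lam i' a)
  trans : ∀ (D : Data m n F) (hm : 0 < m) (a b : Fin n),
    ∃ s : ℕ, RbD rel D ((D.lam ⟨0, hm⟩ ^ s) a) b
  three : ∀ r ∈ Conf m, ∀ M : Fin n → ℂ, Lab (F r) M → ∀ a, ∃ b c, a ≠ b ∧ a ≠ c ∧ b ≠ c ∧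
    rel r (M a) (M b) ∧ rel r (M a) (M c)

open Classical in
/-- the polynomial whose roots are the ratios inside the blocks, evaluated at `x` -/
noncomputable def ThR {n : ℕ} (ρ : ℂ → ℂ → Prop) (x : ℂ) (X : Fin n → ℂ) : ℂ :=
  ∏ a, ∏ b, ∏ c, if (a ≠ b ∧ a ≠ c ∧ b ≠ c) ∧ ρ (X a) (X b) ∧ ρ (X a) (X c)
    then x - rat X a b c else 1

end LinC
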