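import Pool.Agent.Helper996.LinC.DefsR
import Pool.Agent.Helper996.LinC.DefsG
import Pool.Agent.Helper996.Lin.Defs5b
import Pool.Agent.Helper996.Lin.J_G0_open

set_option autoImplicit false

open Polynomial Set Filter Topology LinS
open scoped Manifold ContDiff

namespace LinC

variable {m n l : ℕ} {f : (Fin m → ℂ) → Fin (n - 1) → ℂ} {s : (Fin (m + 1) → ℂ) → ℝ}

theorem discr_prod_pairs (N : ℕ) : ∑ i : Fin N, (Finset.Ioi i).card = N * (N - 1) / 2 := by
  have h1 : ∀ i : Fin N, (Finset.Ioi i).card = N - 1 - (i : ℕ) := fun i => Fin.card_Ioi i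
  rw [Finset.sum_congr rfl (fun i _ => h1 i), Fin.sum_univ_eq_sum_range (fun i => N - 1 - i) N,
    Finset.sum_range_reflect (fun i => i) N, Finset.sum_range_id]

theorem discr_prod_const (N : ℕ) (c : ℂ) (f : Fin N → Fin N → ℂ) :
    ∏ p : Fin N, ∏ q ∈ Finset.Ioi p, (c * f p q) =
      c ^ (N * (N - 1) / 2) * ∏ p : Fin N, ∏ q ∈ Finset.Ioi p, f p q := by
  rw [← discr_prod_pairs, ← Finset.prod_pow_eq_pow_sum, ← Finset.prod_mul_distrib]
  refine Finset.prod_congr rfl fun p _ => ?_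
  rw [Finset.prod_mul_distrib, Finset.prod_const]

theorem discr_prod {k : ℕ} (r : Fin (k + 1) → ℂ) :
    (∏ p, (X - C (r p))).discr = ∏ p, ∏ q ∈ Finset.Ioi p, (r p - r q) ^ 2 := by
  classical
  have hmonic : (∏ p, (X - C (r p))).Monic := monic_prod_of_monic _ _ fun p _ => monic_X_sub_C _
  have hdeg : (∏ p, (X - C (r p))).natDegree = k + 1 := by
    rw [natDegree_prod_of_monic _ _ (fun p _ => monic_X_sub_C _)]
    simp
  have hdp : 0 < (∏ p, (X - C (r p))).degree := by
    rw [← natDegree_pos_iff_degree_pos, hdeg]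
    exact Nat.succ_pos k
  have h1 := resultant_deriv hdp
  rw [resultant_prod_left Finset.univ (fun p => X - C (r p)) _ _ (by simp)
    (natDegree_derivative_le _)] at h1
  have h2 : ∀ p : Fin (k + 1), (X - C (r p)).resultant (derivative (∏ p, (X - C (r p))))
      (X - C (r p)).natDegree ((∏ p, (X - C (r p))).natDegree - 1) =
      ∏ q ∈ ({p} : Finset (Fin (k + 1)))ᶜ, (r p - r q) := by
    intro p
    rw [natDegree_X_sub_C, resultant_X_sub_C_left _ _ _ (natDegree_derivative_le _),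
      derivative_prod_finset, eval_finsetSum, Finset.sum_eq_single p]
    · rw [derivative_X_sub_C, mul_one, eval_prod]
      simp only [eval_sub, eval_X, eval_C]
      refine Finset.prod_congr ?_ fun _ _ => rfl
      ext q
      simp
    · intro q _ hq
      rw [eval_mul, eval_prod]
      rw [Finset.prod_eq_zero (Finset.mem_erase.mpr ⟨Ne.symm hq, Finset.mem_univ p⟩)]
      · rw [zero_mul]
      · simp
    · intro h
      exact absurd (Finset.mem_univ p) h
  rw [Finset.prod_congr rfl (fun p _ => h2 p), hmonic.leadingCoeff, mul_one, hdeg] at h1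
  have h3 := Finset.prod_prod_Ioi_mul_eq_prod_prod_off_diag
    (fun q p : Fin (k + 1) => r p - r q)
  rw [← h3] at h1
  have h4 : ∏ p : Fin (k + 1), ∏ q ∈ Finset.Ioi p, ((r p - r q) * (r q - r p)) =
      (-1) ^ ((k + 1) * (k + 1 - 1) / 2) * ∏ p, ∏ q ∈ Finset.Ioi p, (r p - r q) ^ 2 := by
    rw [← discr_prod_const]
    refine Finset.prod_congr rfl fun p _ => Finset.prod_congr rfl fun q _ => ?_
    ring
  rw [h4] at h1
  exact (mul_left_cancel₀ (pow_ne_zero _ (by norm_num)) h1).symm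

theorem Dr_ne {r : Fin (m + 1) → ℂ} (hr : r ∈ Conf m) : Dr r ≠ 0 := by
  unfold Dr
  rw [Finset.prod_ne_zero_iff]
  intro p _
  rw [Finset.prod_ne_zero_iff]
  intro q hq
  rw [Finset.mem_Ioi] at hq
  apply pow_ne_zero
  rw [sub_ne_zero]
  intro h
  exact hq.ne (hr h)

theorem Dr_symm (r : Fin (m + 1) → ℂ) (σ : Equiv.Perm (Fin (m + 1))) : Dr (r ∘ σ) = Dr r := by
  unfold Dr
  rw [← discr_prod, ← discr_prod]
  congr 1
  exact Equiv.prod_comp σ (fun p => X - C (r p))

theorem Dr_transl (r : Fin (m + 1) → ℂ) (c : ℂ) : Dr (fun p => r p + c) = Dr r := by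
  unfold Dr
  simp only [add_sub_add_right_eq_sub]

theorem Dr_smul (r : Fin (m + 1) → ℂ) (c : ℂ) : Dr (fun p => c * r p) = c ^ KK m * Dr r := by
  unfold Dr KK
  have h1 : ∏ p : Fin (m + 1), ∏ q ∈ Finset.Ioi p, (c * r p - c * r q) ^ 2 =
      ∏ p : Fin (m + 1), ∏ q ∈ Finset.Ioi p, (c ^ 2 * (r p - r q) ^ 2) := by
    refine Finset.prod_congr rfl fun p _ => Finset.prod_congr rfl fun q _ => ?_
    ring
  rw [h1, discr_prod_const, ← pow_mul]
  congr 2
  have h2 : 2 ∣ (m + 1) * (m + 1 - 1) := by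
    have := (Nat.even_mul_pred_self (m + 1)).two_dvd
    exact this
  rw [Nat.mul_div_cancel' h2]
  rfl

theorem Dr_diff : Differentiable ℂ (Dr (m := m)) := by
  unfold Dr
  fun_prop

end LinC
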