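import Pool.Agent.Helper996.LinC.DefsR
import Pool.Agent.Helper996.LinC.DefsG
import Pool.Agent.Helper996.Lin.Defs5b
import Pool.Agent.Helper996.Lin.J_G0_open
import Pool.Agent.Helper996.LinC.G_discr

set_option autoImplicit false

open Polynomial Set Filter Topology LinS
open scoped Manifold ContDiff

namespace LinC

variable {m n l : ℕ} {f : (Fin m → ℂ) → Fin (n - 1) → ℂ} {s : (Fin (m + 1) → ℂ) → ℝ}

theorem discr_diff_coeff (m : ℕ) (w : Fin m → ℂ) (k : ℕ) :
    (cpoly (m + 1) w).coeff k =
      (if k = m + 1 then 1 else 0) + ∑ i : Fin m, w i * (if k = (i : ℕ) then 1 else 0) := by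
  unfold cpoly
  rw [Polynomial.coeff_add, Polynomial.coeff_X_pow, Polynomial.finsetSum_coeff]
  congr 1
  refine Finset.sum_congr rfl fun i _ => ?_
  rw [Polynomial.coeff_C_mul, Polynomial.coeff_X_pow]

theorem discr_diff_nat (m : ℕ) (w : Fin m → ℂ) :
    (cpoly (m + 1) w).Monic ∧ (cpoly (m + 1) w).natDegree = m + 1 := by
  have h1 : (∑ i : Fin m, C (w i) * X ^ (i : ℕ) : ℂ[X]).degree < ((m + 1 : ℕ) : WithBot ℕ) := by
    refine lt_of_lt_of_le (degree_sum_fin_lt w) ?_
    exact_mod_cast Nat.le_succ m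
  refine ⟨monic_X_pow_add h1, ?_⟩
  have h2 : (cpoly (m + 1) w).degree = ((m + 1 : ℕ) : WithBot ℕ) := by
    have : (cpoly (m + 1) w) = X ^ (m + 1) + ∑ i : Fin m, C (w i) * X ^ (i : ℕ) := rfl
    rw [this, degree_add_eq_left_of_degree_lt, degree_X_pow]
    rw [degree_X_pow]
    exact h1
  exact natDegree_eq_of_degree_eq_some h2

theorem discr_diff_res (m : ℕ) (w : Fin m → ℂ) :
    (cpoly (m + 1) w).discr = (-1) ^ ((m + 1) * m / 2) *
      resultant (cpoly (m + 1) w) (derivative (cpoly (m + 1) w)) (m + 1) m := by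
  obtain ⟨h1, h2⟩ := discr_diff_nat m w
  have h3 : 0 < (cpoly (m + 1) w).degree := by
    rw [← natDegree_pos_iff_degree_pos, h2]; omega
  have h4 := resultant_deriv h3
  rw [h2, h1.leadingCoeff] at h4
  simp only [Nat.add_sub_cancel, mul_one] at h4
  rw [h4, ← mul_assoc, ← mul_pow]
  simp

theorem discr_diff (m : ℕ) : Differentiable ℂ (fun w : Fin m → ℂ => (cpoly (m + 1) w).discr) := by
  have h : (fun w : Fin m → ℂ => (cpoly (m + 1) w).discr) = fun w : Fin m → ℂ =>
      (-1) ^ ((m + 1) * m / 2) *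
      (sylvester (cpoly (m + 1) w) (derivative (cpoly (m + 1) w)) (m + 1) m).det := by
    funext w
    rw [discr_diff_res, resultant]
  have hc : ∀ k : ℕ, Differentiable ℂ (fun w : Fin m → ℂ => (cpoly (m + 1) w).coeff k) := by
    intro k
    simp only [discr_diff_coeff]
    fun_prop
  have hc' : ∀ k : ℕ, Differentiable ℂ
      (fun w : Fin m → ℂ => (derivative (cpoly (m + 1) w)).coeff k) := by
    intro k
    simp only [coeff_derivative]
    exact (hc (k + 1)).mul_const _
  have hentry : ∀ i j : Fin (m + 1 + m), Differentiable ℂ (fun w : Fin m → ℂ =>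
      (sylvester (cpoly (m + 1) w) (derivative (cpoly (m + 1) w)) (m + 1) m) i j) := by
    intro i j
    refine Fin.addCases (fun j1 => ?_) (fun j1 => ?_) j
    · simp only [sylvester, Matrix.of_apply, Fin.addCases_left]
      split_ifs
      · exact hc' _
      · exact differentiable_const _
    · simp only [sylvester, Matrix.of_apply, Fin.addCases_right]
      split_ifs
      · exact hc _
      · exact differentiable_const _
  rw [h]
  apply Differentiable.const_mul
  simp only [Matrix.det_apply]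
  apply Differentiable.fun_sum
  intro σ _
  have hp : Differentiable ℂ (fun w : Fin m → ℂ => ∏ i, (sylvester (cpoly (m + 1) w)
      (derivative (cpoly (m + 1) w)) (m + 1) m) (σ i) i) := by
    have : ∀ s : Finset (Fin (m + 1 + m)), Differentiable ℂ (fun w : Fin m → ℂ =>
        ∏ i ∈ s, (sylvester (cpoly (m + 1) w)
          (derivative (cpoly (m + 1) w)) (m + 1) m) (σ i) i) := by
      intro s
      classical
      induction s using Finset.induction_on with
      | empty => simp only [Finset.prod_empty]; exact differentiable_const _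
      | insert a s ha ih =>
        simp only [Finset.prod_insert ha]
        exact (hentry _ _).mul ih
    exact this _
  have he : (fun w : Fin m → ℂ => Equiv.Perm.sign σ • ∏ i, (sylvester (cpoly (m + 1) w)
      (derivative (cpoly (m + 1) w)) (m + 1) m) (σ i) i) = fun w : Fin m → ℂ =>
      (((Equiv.Perm.sign σ : ℤˣ) : ℤ) : ℂ) * ∏ i, (sylvester (cpoly (m + 1) w)
      (derivative (cpoly (m + 1) w)) (m + 1) m) (σ i) i := by
    funext w
    rw [Units.smul_def, zsmul_eq_mul]
  rw [he]
  exact hp.const_mul _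

theorem discr_fderiv_ne_scale (m : ℕ) (w : Fin m → ℂ) (c : ℂ) :
    cpoly (m + 1) (fun i : Fin m => c ^ (m + 1 - (i : ℕ)) * w i) =
      (cpoly (m + 1) w).scaleRoots c := by
  ext k
  rw [coeff_scaleRoots, (discr_diff_nat m w).2]
  refine (discr_diff_coeff m _ k).trans ?_
  rw [discr_diff_coeff, add_mul, Finset.sum_mul]
  congr 1
  · split_ifs with h
    · rw [h]; simp
    · simp
  · refine Finset.sum_congr rfl fun i _ => ?_
    split_ifs with h
    · rw [h]; ring
    · simp

theorem discr_fderiv_ne_discr (m : ℕ) (w : Fin m → ℂ) (c : ℂ) :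
    (cpoly (m + 1) (fun i : Fin m => c ^ (m + 1 - (i : ℕ)) * w i)).discr =
      c ^ KK m * (cpoly (m + 1) w).discr := by
  have hn : (derivative (cpoly (m + 1) w)).natDegree = m := by
    rw [natDegree_derivative, (discr_diff_nat m w).2]; simp
  have hd : derivative ((cpoly (m + 1) w).scaleRoots c) =
      (derivative (cpoly (m + 1) w)).scaleRoots c := by
    ext k
    rw [coeff_derivative, coeff_scaleRoots, coeff_scaleRoots, coeff_derivative,
      (discr_diff_nat m w).2, hn, show m + 1 - (k + 1) = m - k by omega]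
    ring
  have h1 := resultant_scaleRoots (cpoly (m + 1) w) (derivative (cpoly (m + 1) w)) c
  rw [natDegree_scaleRoots, natDegree_scaleRoots, hn, (discr_diff_nat m w).2] at h1
  have h2 := discr_diff_res m (fun i : Fin m => c ^ (m + 1 - (i : ℕ)) * w i)
  rw [h2, discr_fderiv_ne_scale, hd, h1, discr_diff_res]
  unfold KK
  ring

theorem discr_fderiv_ne {m : ℕ} (hm : 0 < m) {w : Fin m → ℂ} (hw : w ∈ SG (m + 1)) :
    ∃ e : Fin m → ℂ, fderiv ℂ (fun w : Fin m → ℂ => (cpoly (m + 1) w).discr) w e ≠ 0 := by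
  have hw1 : (cpoly (m + 1) w).discr = 1 := hw
  refine ⟨fun i => ((m + 1 - (i : ℕ) : ℕ) : ℂ) * w i, ?_⟩
  have hexp : ∀ k : ℕ, HasDerivAt (fun t : ℂ => Complex.exp t ^ k) (k : ℂ) 0 := by
    intro k
    have h := (Complex.hasDerivAt_exp (0 : ℂ)).pow k
    have e : (k : ℂ) * Complex.exp 0 ^ (k - 1) * Complex.exp 0 = k := by simp
    rw [e] at h
    exact h
  have hγ : HasDerivAt (fun t : ℂ => (fun i : Fin m => Complex.exp t ^ (m + 1 - (i : ℕ)) * w i))
      (fun i => ((m + 1 - (i : ℕ) : ℕ) : ℂ) * w i) 0 := by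
    rw [hasDerivAt_pi]
    intro i
    exact (hexp _).mul_const _
  have h0 : (fun i : Fin m => Complex.exp (0 : ℂ) ^ (m + 1 - (i : ℕ)) * w i) = w := by
    funext i
    simp
  have hD : HasFDerivAt (fun w : Fin m → ℂ => (cpoly (m + 1) w).discr)
      (fderiv ℂ (fun w : Fin m → ℂ => (cpoly (m + 1) w).discr) w)
      (fun i : Fin m => Complex.exp (0 : ℂ) ^ (m + 1 - (i : ℕ)) * w i) := by
    rw [h0]
    exact (discr_diff m w).hasFDerivAt
  have h1 := hD.comp_hasDerivAt (0 : ℂ) hγ
  have h2 : ((fun w : Fin m → ℂ => (cpoly (m + 1) w).discr) ∘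
      fun t : ℂ => (fun i : Fin m => Complex.exp t ^ (m + 1 - (i : ℕ)) * w i)) =
      fun t : ℂ => Complex.exp t ^ KK m := by
    funext t
    simp only [Function.comp]
    rw [discr_fderiv_ne_discr, hw1, mul_one]
  rw [h2] at h1
  have h3 := h1.unique (hexp (KK m))
  rw [h3]
  unfold KK
  have : (m + 1) * m ≠ 0 := by positivity
  exact_mod_cast this

end LinC
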