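import Pool.Agent.Helper996.LinC.MainG
import Pool.Agent.Helper996.LinC.G_dd

set_option autoImplicit false

open Polynomial Set Filter Topology LinS

namespace LinC

/-- `f : SG k → SG n` is holomorphic: near every point of `SG k` it is the restriction of a
holomorphic map defined on an open subset of `ℂ^(k-1)` -/
def HolSS {k n : ℕ} (f : SG k → SG n) : Prop :=
  ∀ z : SG k, ∃ (U : Set (Fin (k - 1) → ℂ)) (g : (Fin (k - 1) → ℂ) → Fin (n - 1) → ℂ), IsOpen U ∧
    (z : Fin (k - 1) → ℂ) ∈ U ∧ DifferentiableOn ℂ g U ∧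
    ∀ w : SG k, (w : Fin (k - 1) → ℂ) ∈ U → g w = f w

/-- the differential of `f : SG k → SG n` at `z` is not injective: the differential of every
holomorphic extension `g` of `f` near `z` kills a non-zero vector tangent to `SG k` -/
def NotImm {k n : ℕ} (f : SG k → SG n) (z : SG k) : Prop :=
  ∀ (U : Set (Fin (k - 1) → ℂ)) (g : (Fin (k - 1) → ℂ) → Fin (n - 1) → ℂ), IsOpen U →
    (z : Fin (k - 1) → ℂ) ∈ U → DifferentiableOn ℂ g U →
    (∀ w : SG k, (w : Fin (k - 1) → ℂ) ∈ U → g w = f w) →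
    ∃ u : Fin (k - 1) → ℂ, u ≠ 0 ∧
      fderiv ℂ (fun w : Fin (k - 1) → ℂ => (cpoly k w).discr) z u = 0 ∧ fderiv ℂ g z u = 0

theorem GoodS_deg {m n : ℕ} (hm : 2 ≤ m) (f₀ : SG (m + 1) → SG n) (h₁ : HolSS f₀)
    (h₂ : ∀ z, NotImm f₀ z) :
    ∃ f : (Fin m → ℂ) → Fin (n - 1) → ℂ, GoodS m n (m - 2) f ∧
      ∀ z : SG (m + 1), f (z : Fin (m + 1 - 1) → ℂ) = f₀ z := by
  classical
  let f : (Fin m → ℂ) → Fin (n - 1) → ℂ := fun w =>
    if h : (show Fin (m + 1 - 1) → ℂ from w) ∈ SG (m + 1) then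
      (f₀ ⟨w, h⟩ : Fin (n - 1) → ℂ) else 0
  have hfv : ∀ z : SG (m + 1), f (z : Fin (m + 1 - 1) → ℂ) = f₀ z := by
    intro z
    show dite _ _ _ = _
    rw [dif_pos z.2]
  have hloc : ∀ w : Fin m → ℂ, w ∈ SG (m + 1) → ∃ (O : Set (Fin m → ℂ))
      (g : (Fin m → ℂ) → Fin (n - 1) → ℂ), IsOpen O ∧ w ∈ O ∧ DifferentiableOn ℂ g O ∧
      (∀ z : Fin m → ℂ, z ∈ SG (m + 1) → z ∈ O → f z = g z) ∧
      ∃ u : Fin m → ℂ, u ≠ 0 ∧
        fderiv ℂ (fun w : Fin m → ℂ => (cpoly (m + 1) w).discr) w u = 0 ∧ fderiv ℂ g w u = 0 := by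
    intro w hw
    obtain ⟨O, g, hO, hwO, hg, hgf⟩ := h₁ ⟨w, hw⟩
    refine ⟨O, g, hO, hwO, hg, ?_, h₂ ⟨w, hw⟩ O g hO hwO hg hgf⟩
    intro z hz hzO
    have h5 : f z = f₀ ⟨z, hz⟩ := hfv ⟨z, hz⟩
    rw [h5, ← hgf ⟨z, hz⟩ hzO]
  refine ⟨f, ⟨?_, ?_, ?_, ?_⟩, hfv⟩
  · intro w hw
    have h3 : f w = f₀ ⟨w, hw⟩ := hfv ⟨w, hw⟩
    rw [h3]
    exact (f₀ _).2
  · intro w hw
    obtain ⟨O, g, hO, hwO, hg, hgf, -⟩ := hloc w hw
    refine ((hg.differentiableAt (hO.mem_nhds hwO)).continuousAt).continuousWithinAt.congr_of_eventuallyEq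
      ?_ (hgf w hw hwO)
    filter_upwards [self_mem_nhdsWithin, mem_nhdsWithin_of_mem_nhds (hO.mem_nhds hwO)] with z hz hzO
    exact hgf z hz hzO
  · intro E _ _ U hU H hH hHS v hv
    obtain ⟨O, g, hO, hwO, hg, hgf, -⟩ := hloc (H v) (hHS v hv)
    have hHd : DifferentiableAt ℂ H v := hH.differentiableAt (hU.mem_nhds hv)
    have he : (fun v => f (H v)) =ᶠ[𝓝 v] (fun v => g (H v)) := by
      have h2 : ∀ᶠ v' in 𝓝 v, H v' ∈ O := hHd.continuousAt.eventually (hO.mem_nhds hwO)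
      filter_upwards [hU.mem_nhds hv, h2] with v' hv' hv2
      exact hgf (H v') (hHS v' hv') hv2
    have h1 : DifferentiableAt ℂ (fun v => g (H v)) v :=
      (hg.differentiableAt (hO.mem_nhds hwO)).comp v hHd
    exact (he.differentiableAt_iff.2 h1).differentiableWithinAt
  · intro U hU H hH hHS v hv
    obtain ⟨O, g, hO, hwO, hg, hgf, u, hu0, hu1, hu2⟩ := hloc (H v) (hHS v hv)
    have hHd : DifferentiableAt ℂ H v := hH.differentiableAt (hU.mem_nhds hv)
    have hgd : DifferentiableAt ℂ g (H v) := hg.differentiableAt (hO.mem_nhds hwO)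
    have he : (fun v => f (H v)) =ᶠ[𝓝 v] (g ∘ H) := by
      have h2 : ∀ᶠ v' in 𝓝 v, H v' ∈ O := hHd.continuousAt.eventually (hO.mem_nhds hwO)
      filter_upwards [hU.mem_nhds hv, h2] with v' hv' hv2
      exact hgf (H v') (hHS v' hv') hv2
    have hfd : fderiv ℂ (fun v => f (H v)) v = (fderiv ℂ g (H v)).comp (fderiv ℂ H v) := by
      rw [he.fderiv_eq]
      exact fderiv_comp v hgd hHd
    set Δ : (Fin m → ℂ) → ℂ := fun w => (cpoly (m + 1) w).discr with hΔ
    have hΔH : (Δ ∘ H) =ᶠ[𝓝 v] (fun _ => (1 : ℂ)) := by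
      filter_upwards [hU.mem_nhds hv] with v' hv'
      exact hHS v' hv'
    have hΔd : (fderiv ℂ Δ (H v)).comp (fderiv ℂ H v) = 0 := by
      rw [← fderiv_comp v (discr_diff m (H v)) hHd, hΔH.fderiv_eq]
      exact fderiv_const_apply _
    obtain ⟨e, he'⟩ := discr_fderiv_ne (by omega) (hHS v hv)
    let G : (Fin m → ℂ) →ₗ[ℂ] (Fin (n - 1) → ℂ) := (fderiv ℂ g (H v)).toLinearMap
    let A : (Fin m → ℂ) →ₗ[ℂ] (Fin m → ℂ) := (fderiv ℂ H v).toLinearMap
    let P : (Fin m → ℂ) →ₗ[ℂ] ℂ := (fderiv ℂ Δ (H v)).toLinearMap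
    have hAP : ∀ x, P (A x) = 0 := fun x => by
      have := congrArg (fun L => L x) hΔd
      exact this
    refine ⟨LinearMap.ker (G.comp A), ?_, ?_⟩
    · -- range of `G ∘ A` is contained in the image of `ker P`
      have h1 := LinearMap.finrank_range_add_finrank_ker (G.comp A)
      rw [Module.finrank_fin_fun] at h1
      have hle : LinearMap.range (G.comp A) ≤ LinearMap.range (G.comp (LinearMap.ker P).subtype) := by
        rintro _ ⟨x, rfl⟩
        exact ⟨⟨A x, hAP x⟩, rfl⟩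
      have h2 := Submodule.finrank_mono hle
      have h3 := LinearMap.finrank_range_add_finrank_ker (G.comp (LinearMap.ker P).subtype)
      have h4 := LinearMap.finrank_range_add_finrank_ker P
      rw [Module.finrank_fin_fun] at h4
      have h5 : 0 < Module.finrank ℂ (LinearMap.range P) := by
        rw [Module.finrank_pos_iff_of_free, Submodule.nontrivial_iff_ne_bot]
        intro h
        rw [LinearMap.range_eq_bot] at h
        apply he'
        show P e = 0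
        rw [h]; rfl
      have h6 : 0 < Module.finrank ℂ (LinearMap.ker (G.comp (LinearMap.ker P).subtype)) := by
        have hne : LinearMap.ker (G.comp (LinearMap.ker P).subtype) ≠ ⊥ := by
          intro h
          have h7 : (⟨u, hu1⟩ : LinearMap.ker P) ∈
            LinearMap.ker (G.comp (LinearMap.ker P).subtype) := hu2
          rw [h, Submodule.mem_bot] at h7
          exact hu0 (congrArg Subtype.val h7)
        exact Nat.pos_of_ne_zero (fun h => hne (Submodule.finrank_eq_zero.1 h))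
      omega
    · intro x hx
      rw [hfd]
      exact hx

/-- a holomorphic map `SG_k → SG_n` whose differential is nowhere injective is constant -/
theorem deg_const {m n : ℕ} (hm : 4 ≤ m) (hn : 3 ≤ n) (f : SG (m + 1) → SG n) (h₁ : HolSS f)
    (h₂ : ∀ z, NotImm f z) (z z' : SG (m + 1)) : f z = f z' := by
  obtain ⟨F, hF, hFf⟩ := GoodS_deg (by omega) f h₁ h₂
  apply Subtype.ext
  rw [← hFf z, ← hFf z']
  exact const_S hF (by omega) hm hn (z : Fin (m + 1 - 1) → ℂ) (z' : Fin (m + 1 - 1) → ℂ) z.2 z'.2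

end LinC
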