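import Pool.Agent.Helper996.LinC.DefsR
import Pool.Agent.Helper996.LinC.DefsG
import Pool.Agent.Helper996.Lin.Defs5b
import Pool.Agent.Helper996.Lin.J_G0_open
import Pool.Agent.Helper996.Lin.J_cent
import Pool.Agent.Helper996.LinC.G_discr

set_option autoImplicit false

open Polynomial Set Filter Topology LinS
open scoped Manifold ContDiff

namespace LinC

variable {m n l : ℕ} {f : (Fin m → ℂ) → Fin (n - 1) → ℂ} {s : (Fin (m + 1) → ℂ) → ℝ}

theorem Nr_symm (r : Fin (m + 1) → ℂ) (σ : Equiv.Perm (Fin (m + 1))) (η : ℂ) :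
    Nr (r ∘ σ) η = Nr r η :=
  cent_symm (fun p => η⁻¹ * r p) σ

theorem Nr_transl (r : Fin (m + 1) → ℂ) (c η : ℂ) : Nr (fun p => r p + c) η = Nr r η := by
  unfold Nr cent
  have hm : ((m : ℂ) + 1) ≠ 0 := by exact_mod_cast Nat.succ_ne_zero m
  have h : ∀ p : Fin (m + 1), η⁻¹ * (r p + c) - (∑ q, η⁻¹ * (r q + c)) / (m + 1) =
      η⁻¹ * r p - (∑ q, η⁻¹ * r q) / (m + 1) := by
    intro p
    have h1 : ∑ q : Fin (m + 1), η⁻¹ * (r q + c) = (∑ q, η⁻¹ * r q) + (m + 1) * (η⁻¹ * c) := by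
      simp only [mul_add, Finset.sum_add_distrib, Finset.sum_const, Finset.card_univ,
        Fintype.card_fin, nsmul_eq_mul]
      push_cast
      ring
    rw [h1]
    field_simp
    ring
  funext i
  simp only [h]

theorem Nr_diff : DifferentiableOn ℂ (fun x : (Fin (m + 1) → ℂ) × ℂ => Nr x.1 x.2)
    {x | x.2 ≠ 0} := by
  have h1 : DifferentiableOn ℂ
      (fun x : (Fin (m + 1) → ℂ) × ℂ => (fun p => x.2⁻¹ * x.1 p : Fin (m + 1) → ℂ))
      {x | x.2 ≠ 0} := by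
    rw [differentiableOn_pi]
    intro p
    refine DifferentiableOn.mul (DifferentiableOn.inv differentiable_snd.differentiableOn
      (fun x hx => hx)) ?_
    have h2 : Differentiable ℂ (fun x : (Fin (m + 1) → ℂ) × ℂ => x.1 p) := by fun_prop
    exact h2.differentiableOn
  exact cent_diff.comp_differentiableOn h1

theorem Nr_mem_deg (k : ℕ) (w : Fin k → ℂ) :
    (∑ i : Fin k, C (w i) * X ^ (i : ℕ) : ℂ[X]).degree < ((k + 1 : ℕ) : WithBot ℕ) :=
  lt_of_lt_of_le (degree_sum_fin_lt w) (by exact_mod_cast Nat.le_succ k)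

theorem Nr_mem_monic (k : ℕ) (w : Fin (k + 1 - 1) → ℂ) : (cpoly (k + 1) w).Monic :=
  monic_X_pow_add (Nr_mem_deg k w)

theorem Nr_mem_natDegree (k : ℕ) (w : Fin (k + 1 - 1) → ℂ) :
    (cpoly (k + 1) w).natDegree = k + 1 := by
  have h1 : (cpoly (k + 1) w).degree = ((k + 1 : ℕ) : WithBot ℕ) := by
    unfold cpoly
    rw [degree_add_eq_left_of_degree_lt, degree_X_pow]
    rw [degree_X_pow]
    exact Nr_mem_deg k w
  exact natDegree_eq_of_degree_eq_some h1

theorem Nr_mem_coeff (k : ℕ) (w : Fin (k + 1 - 1) → ℂ) (i : Fin k) :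
    (cpoly (k + 1) w).coeff i = w i := by
  unfold cpoly
  rw [coeff_add, coeff_X_pow, if_neg (by have := i.2; omega), zero_add, finset_sum_coeff]
  rw [Finset.sum_eq_single (show Fin (k + 1 - 1) from i)]
  · rw [coeff_C_mul, coeff_X_pow, if_pos rfl, mul_one]
  · intro j _ hj
    rw [coeff_C_mul, coeff_X_pow, if_neg, mul_zero]
    intro h
    exact hj (Fin.ext h.symm)
  · intro h
    exact absurd (Finset.mem_univ _) h

theorem Nr_mem_coeff_k (k : ℕ) (w : Fin (k + 1 - 1) → ℂ) : (cpoly (k + 1) w).coeff k = 0 := by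
  unfold cpoly
  rw [coeff_add, coeff_X_pow, if_neg (by omega), zero_add, finset_sum_coeff]
  refine Finset.sum_eq_zero fun j _ => ?_
  rw [coeff_C_mul, coeff_X_pow, if_neg, mul_zero]
  have := j.2
  omega

theorem Nr_mem_sum (k : ℕ) (y : Fin (k + 1) → ℂ) :
    (∏ a, (X - C (y a))).coeff k = - ∑ a, y a := by
  have h := prod_X_sub_C_coeff_card_pred (Finset.univ : Finset (Fin (k + 1))) y (by simp)
  rw [Finset.card_univ, Fintype.card_fin] at h
  exact h

theorem Nr_mem_prod (k : ℕ) (y : Fin (k + 1) → ℂ) (hy : ∑ a, y a = 0)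
    (w : Fin (k + 1 - 1) → ℂ) (hw : ∀ i : Fin k, (∏ a, (X - C (y a))).coeff i = w i) :
    cpoly (k + 1) w = ∏ a, (X - C (y a)) := by
  have hmon : (∏ a, (X - C (y a))).Monic := monic_prod_of_monic _ _ fun a _ => monic_X_sub_C _
  have hdeg : (∏ a, (X - C (y a))).natDegree = k + 1 := by
    rw [natDegree_prod_of_monic _ _ fun a _ => monic_X_sub_C _]
    simp
  ext j
  rcases lt_trichotomy j k with hj | hj | hj
  · have h1 := Nr_mem_coeff k w ⟨j, hj⟩
    have h2 := hw ⟨j, hj⟩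
    exact h1.trans h2.symm
  · subst hj
    rw [Nr_mem_coeff_k, Nr_mem_sum, hy, neg_zero]
  · rcases Nat.eq_or_lt_of_le (Nat.succ_le_of_lt hj) with hj' | hj'
    · subst hj'
      have h1 : (cpoly (k + 1) w).coeff (k + 1) = 1 := by
        have := (Nr_mem_monic k w).coeff_natDegree
        rwa [Nr_mem_natDegree] at this
      have h2 : (∏ a, (X - C (y a))).coeff (k + 1) = 1 := by
        have := hmon.coeff_natDegree
        rwa [hdeg] at this
      exact h1.trans h2.symm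
    · rw [coeff_eq_zero_of_natDegree_lt, coeff_eq_zero_of_natDegree_lt]
      · rw [hdeg]; exact hj'
      · rw [Nr_mem_natDegree]; exact hj'

theorem Nr_mem_cent (r : Fin (m + 1) → ℂ) :
    cpoly (m + 1) (cent r) = ∏ a, (X - C (r a - (∑ q, r q) / (m + 1))) := by
  refine Nr_mem_prod m (fun a => r a - (∑ q, r q) / (m + 1)) ?_ (cent r) (fun i => rfl)
  rw [Finset.sum_sub_distrib, Finset.sum_const, Finset.card_univ, Fintype.card_fin, nsmul_eq_mul]
  have hm : ((m : ℂ) + 1) ≠ 0 := by exact_mod_cast Nat.succ_ne_zero m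
  push_cast
  field_simp
  ring

theorem Nr_mem {r : Fin (m + 1) → ℂ} (hr : r ∈ Conf m) {η : ℂ} (hη : η ^ KK m = Dr r) :
    Nr r η ∈ SG (m + 1) := by
  show (cpoly (m + 1) (cent (fun p => η⁻¹ * r p))).discr = 1
  rw [Nr_mem_cent, discr_prod]
  have h1 : ∏ p, ∏ q ∈ Finset.Ioi p, ((η⁻¹ * r p - (∑ q, η⁻¹ * r q) / (m + 1)) -
      (η⁻¹ * r q - (∑ q, η⁻¹ * r q) / (m + 1))) ^ 2 = Dr (fun p => η⁻¹ * r p) := by
    unfold Dr
    refine Finset.prod_congr rfl fun p _ => Finset.prod_congr rfl fun q _ => ?_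
    congr 1
    ring
  rw [h1, Dr_smul, ← hη, ← mul_pow]
  have hne : Dr r ≠ 0 := Dr_ne hr
  by_cases h0 : η = 0
  · subst h0
    by_cases hK : KK m = 0
    · rw [hK, pow_zero]
    · exfalso
      apply hne
      rw [← hη, zero_pow hK]
  · rw [inv_mul_cancel₀ h0, one_pow]

theorem Nr_surj_split (P : ℂ[X]) (hP : P.Monic) (N : ℕ) (hN : P.natDegree = N) :
    ∃ y : Fin N → ℂ, P = ∏ a, (X - C (y a)) := by
  have hs := IsAlgClosed.splits P
  have h1 := hs.eq_prod_roots_of_monic hP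
  have h2 := hs.natDegree_eq_card_roots
  have hl : P.roots.toList.length = N := by
    rw [Multiset.length_toList, ← h2, hN]
  subst hl
  refine ⟨fun a => P.roots.toList.get a, ?_⟩
  conv_lhs => rw [h1, ← Multiset.coe_toList P.roots, Multiset.map_coe, Multiset.prod_coe]
  rw [← List.prod_ofFn]
  congr 1
  rw [← List.ofFn_get (List.map (fun a => X - C a) P.roots.toList)]
  apply List.ext_get
  · simp
  · intro i h1 h2
    simp

theorem Nr_surj_core (k : ℕ) (w : Fin (k + 1 - 1) → ℂ) (hw : (cpoly (k + 1) w).discr = 1) :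
    ∃ y : Fin (k + 1) → ℂ, Function.Injective y ∧ cpoly (k + 1) w = ∏ a, (X - C (y a)) ∧
      ∑ a, y a = 0 ∧ ∏ p, ∏ q ∈ Finset.Ioi p, (y p - y q) ^ 2 = 1 := by
  obtain ⟨y, hy⟩ := Nr_surj_split (cpoly (k + 1) w) (Nr_mem_monic k w) (k + 1)
    (Nr_mem_natDegree k w)
  have hsum : ∑ a, y a = 0 := by
    have h1 := Nr_mem_coeff_k k w
    rw [hy, Nr_mem_sum] at h1
    exact neg_eq_zero.1 h1
  have hD : ∏ p, ∏ q ∈ Finset.Ioi p, (y p - y q) ^ 2 = 1 := by
    rw [hy, discr_prod] at hw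
    exact hw
  have key : ∀ p q, p < q → y p ≠ y q := by
    intro p q hpq h
    have h0 : ∏ p, ∏ q ∈ Finset.Ioi p, (y p - y q) ^ 2 = 0 := by
      refine Finset.prod_eq_zero (Finset.mem_univ p) ?_
      refine Finset.prod_eq_zero (Finset.mem_Ioi.2 hpq) ?_
      rw [h]
      simp
    rw [h0] at hD
    exact zero_ne_one hD
  refine ⟨y, ?_, hy, hsum, hD⟩
  intro p q h
  rcases lt_trichotomy p q with hpq | hpq | hpq
  · exact absurd h (key p q hpq)
  · exact hpq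
  · exact absurd h.symm (key q p hpq)

theorem Nr_surj {w : Fin m → ℂ} (hw : w ∈ SG (m + 1)) :
    ∃ r ∈ Conf m, Dr r = 1 ∧ Nr r 1 = w := by
  obtain ⟨y, hinj, hy, hsum, hD⟩ := Nr_surj_core m w hw
  refine ⟨y, hinj, hD, ?_⟩
  funext i
  unfold Nr cent
  have h1 : ∀ p : Fin (m + 1), (1 : ℂ)⁻¹ * y p - (∑ q, (1 : ℂ)⁻¹ * y q) / (m + 1) = y p := by
    intro p
    simp only [inv_one, one_mul, hsum, zero_div, sub_zero]
  simp only [h1]
  rw [← hy]
  exact Nr_mem_coeff m w i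

theorem SG_lab (hn : 1 ≤ n) {w : Fin (n - 1) → ℂ} (hw : w ∈ SG n) :
    Squarefree (cpoly n w) ∧ ∃ y : Fin n → ℂ, Function.Injective y ∧
      cpoly n w = ∏ a, (X - C (y a)) ∧ ∑ a, y a = 0 ∧
      ∏ p, ∏ q ∈ Finset.Ioi p, (y p - y q) ^ 2 = 1 := by
  obtain ⟨k, rfl⟩ : ∃ k, n = k + 1 := ⟨n - 1, by omega⟩
  obtain ⟨y, hinj, hy, hsum, hD⟩ := Nr_surj_core k w hw
  refine ⟨?_, y, hinj, hy, hsum, hD⟩
  rw [hy]
  exact (separable_prod_X_sub_C_iff.2 hinj).squarefree

end LinC
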