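import Pool.Agent.Helper996.LinC.DefsR
import Pool.Agent.Helper996.LinC.DefsG
import Pool.Agent.Helper996.Lin.Defs5b
import Pool.Agent.Helper996.Lin.J_G0_open
import Pool.Agent.Helper996.LinC.G_discr

set_option autoImplicit false

open Polynomial Set Filter Topology LinS
open scoped Manifold ContDiff

namespace LinC

variable {m n l : ℕ} {f : (Fin m → ℂ) → Fin (n - 1) → ℂ} {s : (Fin (m + 1) → ℂ) → ℝ}

theorem om_pow_KKpos (hm : 0 < m) : 0 < KK m := by
  unfold KK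
  positivity

theorem om_pow_prim (hm : 0 < m) : IsPrimitiveRoot (om m) (KK m) :=
  Complex.isPrimitiveRoot_exp (KK m) (om_pow_KKpos hm).ne'

theorem om_pow (hm : 0 < m) (j : ℤ) : om m ^ j = 1 ↔ (KK m : ℤ) ∣ j :=
  (om_pow_prim hm).zpow_eq_one_iff_dvd j

theorem e0_pow (hm : 0 < m) (r : Fin (m + 1) → ℂ) : e0 r ^ KK m = Dr r :=
  Complex.cpow_nat_inv_pow (Dr r) (om_pow_KKpos hm).ne'

theorem root_list (hm : 0 < m) {x y : ℂ} (hx : x ≠ 0) (h : y ^ KK m = x ^ KK m) :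
    ∃ j : Fin (KK m), y = x * om m ^ (j : ℕ) := by
  have : NeZero (KK m) := ⟨(om_pow_KKpos hm).ne'⟩
  have h1 : (y / x) ^ KK m = 1 := by
    rw [div_pow, h, div_self (pow_ne_zero _ hx)]
  obtain ⟨i, hi, hiy⟩ := (om_pow_prim hm).eq_pow_of_pow_eq_one h1
  refine ⟨⟨i, hi⟩, ?_⟩
  show y = x * om m ^ i
  rw [hiy]
  field_simp

theorem root_reindex (hm : 0 < m) {x y : ℂ} (hx : x ≠ 0) (h : y ^ KK m = x ^ KK m) :
    ∃ σ : Equiv.Perm (Fin (KK m)), ∀ j : Fin (KK m), y * om m ^ (j : ℕ) = x * om m ^ (σ j : ℕ) := by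
  have : NeZero (KK m) := ⟨(om_pow_KKpos hm).ne'⟩
  obtain ⟨j0, hj0⟩ := root_list hm hx h
  refine ⟨Equiv.addRight j0, fun j => ?_⟩
  have h1 : ((Equiv.addRight j0 j : Fin (KK m)) : ℕ) = ((j : ℕ) + (j0 : ℕ)) % KK m := by
    rw [Equiv.coe_addRight, Fin.val_add]
  have h2 : om m ^ (((j : ℕ) + (j0 : ℕ)) % KK m) = om m ^ ((j : ℕ) + (j0 : ℕ)) := by
    conv_rhs => rw [← Nat.mod_add_div ((j : ℕ) + (j0 : ℕ)) (KK m), pow_add, pow_mul,
      (om_pow_prim hm).pow_eq_one, one_pow, mul_one]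
  rw [h1, h2, hj0, pow_add]
  ring

theorem root_branch_open (m : ℕ) : IsOpen (Conf m) := by
  have : Conf m = ⋂ p : Fin (m + 1), ⋂ q : Fin (m + 1), ⋂ (_ : p ≠ q),
      {r : Fin (m + 1) → ℂ | r p ≠ r q} := by
    ext r
    simp only [Conf, Set.mem_setOf_eq, Set.mem_iInter]
    constructor
    · intro h p q hpq hr
      exact hpq (h hr)
    · intro h p q hr
      by_contra hpq
      exact h p q hpq hr
  rw [this]
  refine isOpen_iInter_of_finite fun p => isOpen_iInter_of_finite fun q =>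
    isOpen_iInter_of_finite fun _ => ?_
  exact isOpen_ne_fun (continuous_apply p) (continuous_apply q)

theorem root_branch (hm : 0 < m) {r₀ : Fin (m + 1) → ℂ} (hr₀ : r₀ ∈ Conf m) :
    ∃ (e : (Fin (m + 1) → ℂ) → ℂ) (U : Set (Fin (m + 1) → ℂ)), IsOpen U ∧ r₀ ∈ U ∧ U ⊆ Conf m ∧
      DifferentiableOn ℂ e U ∧ ∀ r ∈ U, e r ^ KK m = Dr r ∧ e r ≠ 0 := by
  have hK : KK m ≠ 0 := (om_pow_KKpos hm).ne'
  have hKc : (KK m : ℂ) ≠ 0 := by exact_mod_cast hK
  have hD0 : Dr r₀ ≠ 0 := Dr_ne hr₀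
  have he0 : e0 r₀ ≠ 0 := by
    intro h
    have := e0_pow hm r₀
    rw [h, zero_pow hK] at this
    exact hD0 this.symm
  refine ⟨fun r => e0 r₀ * Complex.exp (Complex.log (Dr r / Dr r₀) / KK m),
    Conf m ∩ (fun r => Dr r / Dr r₀) ⁻¹' Complex.slitPlane, ?_, ?_, ?_, ?_, ?_⟩
  · exact (root_branch_open m).inter
      (Complex.isOpen_slitPlane.preimage (Dr_diff.continuous.div_const _))
  · refine ⟨hr₀, ?_⟩
    show Dr r₀ / Dr r₀ ∈ Complex.slitPlane
    rw [div_self hD0]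
    exact Complex.one_mem_slitPlane
  · exact Set.inter_subset_left
  · have g1 : DifferentiableOn ℂ (fun r : Fin (m + 1) → ℂ => Dr r / Dr r₀)
        (Conf m ∩ (fun r => Dr r / Dr r₀) ⁻¹' Complex.slitPlane) := by
      intro r _
      have g0 : DifferentiableAt ℂ (Dr (m := m)) r := Dr_diff r
      simp only [div_eq_mul_inv]
      exact (g0.mul_const _).differentiableWithinAt
    have g2 := g1.clog (fun r hr => hr.2)
    have g3 := (g2.mul_const ((KK m : ℂ)⁻¹)).cexp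
    simp only [← div_eq_mul_inv] at g3
    exact g3.const_mul (e0 r₀)
  · intro r hr
    have hne : Dr r / Dr r₀ ≠ 0 := Complex.slitPlane_ne_zero hr.2
    constructor
    · show (e0 r₀ * Complex.exp (Complex.log (Dr r / Dr r₀) / KK m)) ^ KK m = Dr r
      rw [mul_pow, e0_pow hm, ← Complex.exp_nat_mul, mul_div_cancel₀ _ hKc, Complex.exp_log hne]
      field_simp
    · exact mul_ne_zero he0 (Complex.exp_ne_zero _)

theorem root_const {V : Type} [TopologicalSpace V] {K : Set V} (hK : IsPreconnected K)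
    (hm : 0 < m) {x y : V → ℂ} (hx : ContinuousOn x K) (hy : ContinuousOn y K)
    (h0 : ∀ v ∈ K, x v ≠ 0) (h : ∀ v ∈ K, y v ^ KK m = x v ^ KK m) :
    ∃ j : Fin (KK m), ∀ v ∈ K, y v = x v * om m ^ (j : ℕ) := by
  have hc : ContinuousOn (fun v => y v / x v) K := hy.div hx h0
  have hmaps : MapsTo (fun v => y v / x v) K
      (Set.range (fun j : Fin (KK m) => om m ^ (j : ℕ))) := by
    intro v hv
    obtain ⟨j, hj⟩ := root_list hm (h0 v hv) (h v hv)
    refine ⟨j, ?_⟩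
    show om m ^ (j : ℕ) = y v / x v
    rw [hj, mul_comm, mul_div_assoc, div_self (h0 v hv), mul_one]
  obtain ⟨c, ⟨j, rfl⟩, hcj⟩ := hK.eqOn_const_of_mapsTo (Set.finite_range _).isDiscrete hc hmaps
    ⟨_, ⟨⟨0, om_pow_KKpos hm⟩, rfl⟩⟩
  refine ⟨j, fun v hv => ?_⟩
  have h1 : y v / x v = om m ^ (j : ℕ) := hcj hv
  rw [← h1, mul_div_cancel₀ _ (h0 v hv)]

end LinC
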