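import Pool.Agent.Helper996.LinC.DefsR
import Pool.Agent.Helper996.LinC.DefsG
import Pool.Agent.Helper996.Lin.Defs5b
import Pool.Agent.Helper996.Lin.J_G0_open
import Pool.Agent.Helper996.Lin.J_cent
import Pool.Agent.Helper996.LinC.G_discr
import Pool.Agent.Helper996.LinC.G_nr
import Pool.Agent.Helper996.LinC.G_root

set_option autoImplicit false

open Polynomial Set Filter Topology LinS
open scoped Manifold ContDiff

namespace LinC

variable {m n l : ℕ} {f : (Fin m → ℂ) → Fin (n - 1) → ℂ} {s : (Fin (m + 1) → ℂ) → ℝ}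

theorem mpoly_Fh_cpoly (hn : 1 ≤ n) (w : Fin (n - 1) → ℂ) :
    (cpoly n w).Monic ∧ (cpoly n w).natDegree = n := by
  have h1 : (∑ i : Fin (n - 1), C (w i) * X ^ (i : ℕ) : ℂ[X]).degree < (n : WithBot ℕ) := by
    refine lt_of_lt_of_le (degree_sum_fin_lt w) ?_
    exact_mod_cast Nat.sub_le n 1
  refine ⟨monic_X_pow_add h1, ?_⟩
  unfold cpoly
  rw [natDegree_add_eq_left_of_degree_lt, natDegree_X_pow]
  rwa [degree_X_pow]

theorem mpoly_Fh_factor (hn : 1 ≤ n) (w : Fin (n - 1) → ℂ) (c : ℂ) :
    ((cpoly n w).comp (X - C c)).Monic ∧ ((cpoly n w).comp (X - C c)).natDegree = n := by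
  obtain ⟨h1, h2⟩ := mpoly_Fh_cpoly hn w
  refine ⟨h1.comp (monic_X_sub_C c) (by rw [natDegree_X_sub_C]; exact one_ne_zero), ?_⟩
  rw [natDegree_comp, h2, natDegree_X_sub_C, mul_one]

theorem mpoly_Fh (hn : 1 ≤ n) (r : Fin (m + 1) → ℂ) :
    mpoly (KK m * n) (Fh f s r) = Pt f s r := by
  have h1 : (Pt f s r).Monic :=
    monic_prod_of_monic _ _ (fun j _ => (mpoly_Fh_factor hn _ _).1)
  have h2 : (Pt f s r).natDegree = KK m * n := by
    unfold Pt Bp
    rw [natDegree_prod_of_monic _ _ (fun j _ => (mpoly_Fh_factor hn _ _).1)]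
    rw [Finset.sum_congr rfl (fun j _ => (mpoly_Fh_factor hn _ _).2)]
    simp
  have h3 := h1.as_sum
  rw [h2] at h3
  conv_rhs => rw [h3]
  unfold mpoly Fh
  rw [Finset.sum_range]

/-- all coefficients are continuous -/
def Fh_good_CC {Y : Type} [TopologicalSpace Y] (U : Set Y) (p : Y → ℂ[X]) : Prop :=
  ∀ i, ContinuousOn (fun r => (p r).coeff i) U

theorem Fh_good_C {Y : Type} [TopologicalSpace Y] {U : Set Y} {g : Y → ℂ}
    (hg : ContinuousOn g U) : Fh_good_CC U (fun r => C (g r)) := by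
  intro i
  simp only [coeff_C]
  split_ifs
  · exact hg
  · exact continuousOn_const

theorem Fh_good_const {Y : Type} [TopologicalSpace Y] {U : Set Y} (p : ℂ[X]) :
    Fh_good_CC U (fun _ => p) := fun _ => continuousOn_const

theorem Fh_good_add {Y : Type} [TopologicalSpace Y] {U : Set Y} {p q : Y → ℂ[X]}
    (hp : Fh_good_CC U p) (hq : Fh_good_CC U q) : Fh_good_CC U (fun r => p r + q r) := by
  intro i
  simp only [coeff_add]
  exact (hp i).add (hq i)

theorem Fh_good_sub {Y : Type} [TopologicalSpace Y] {U : Set Y} {p q : Y → ℂ[X]}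
    (hp : Fh_good_CC U p) (hq : Fh_good_CC U q) : Fh_good_CC U (fun r => p r - q r) := by
  intro i
  simp only [coeff_sub]
  exact (hp i).sub (hq i)

theorem Fh_good_mul {Y : Type} [TopologicalSpace Y] {U : Set Y} {p q : Y → ℂ[X]}
    (hp : Fh_good_CC U p) (hq : Fh_good_CC U q) : Fh_good_CC U (fun r => p r * q r) := by
  intro i
  simp only [coeff_mul]
  exact continuousOn_finsetSum _ (fun x _ => (hp x.1).mul (hq x.2))

theorem Fh_good_pow {Y : Type} [TopologicalSpace Y] {U : Set Y} {p : Y → ℂ[X]}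
    (hp : Fh_good_CC U p) (k : ℕ) : Fh_good_CC U (fun r => p r ^ k) := by
  induction k with
  | zero =>
    simp only [pow_zero]
    exact Fh_good_const 1
  | succ k ih =>
    simp only [pow_succ]
    exact Fh_good_mul ih hp

theorem Fh_good_sum {Y ι : Type} [TopologicalSpace Y] {U : Set Y} (t : Finset ι)
    {p : ι → Y → ℂ[X]} (hp : ∀ j ∈ t, Fh_good_CC U (p j)) :
    Fh_good_CC U (fun r => ∑ j ∈ t, p j r) := by
  classical
  induction t using Finset.induction_on with
  | empty =>
    simp only [Finset.sum_empty]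
    exact Fh_good_const 0
  | insert a t ha ih =>
    simp only [Finset.sum_insert ha]
    exact Fh_good_add (hp a (Finset.mem_insert_self a t))
      (ih (fun j hj => hp j (Finset.mem_insert_of_mem hj)))

theorem Fh_good_prod {Y ι : Type} [TopologicalSpace Y] {U : Set Y} (t : Finset ι)
    {p : ι → Y → ℂ[X]} (hp : ∀ j ∈ t, Fh_good_CC U (p j)) :
    Fh_good_CC U (fun r => ∏ j ∈ t, p j r) := by
  classical
  induction t using Finset.induction_on with
  | empty =>
    simp only [Finset.prod_empty]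
    exact Fh_good_const 1
  | insert a t ha ih =>
    simp only [Finset.prod_insert ha]
    exact Fh_good_mul (hp a (Finset.mem_insert_self a t))
      (ih (fun j hj => hp j (Finset.mem_insert_of_mem hj)))

theorem Fh_good_comp {Y : Type} [TopologicalSpace Y] {U : Set Y} (k : ℕ)
    {w : Y → Fin (k - 1) → ℂ} {c : Y → ℂ} (hw : ContinuousOn w U) (hc : ContinuousOn c U) :
    Fh_good_CC U (fun r => (cpoly k (w r)).comp (X - C (c r))) := by
  have h1 : ∀ r, (cpoly k (w r)).comp (X - C (c r)) =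
      (X - C (c r)) ^ k + ∑ i : Fin (k - 1), C (w r i) * (X - C (c r)) ^ (i : ℕ) := by
    intro r
    unfold cpoly
    rw [add_comp, X_pow_comp, Polynomial.sum_comp]
    congr 1
    refine Finset.sum_congr rfl fun i _ => ?_
    rw [mul_comp, C_comp, X_pow_comp]
  simp only [h1]
  have h2 : Fh_good_CC U (fun r => (X - C (c r) : ℂ[X])) :=
    Fh_good_sub (Fh_good_const X) (Fh_good_C hc)
  refine Fh_good_add (Fh_good_pow h2 k) (Fh_good_sum _ fun i _ => ?_)
  refine Fh_good_mul (Fh_good_C ?_) (Fh_good_pow h2 _)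
  exact (continuous_apply i).comp_continuousOn hw

theorem Fh_good_Pt (hm : 0 < m) (r : Fin (m + 1) → ℂ) (hr : r ∈ Conf m) (e : ℂ)
    (he : e ^ KK m = Dr r) (he0 : e ≠ 0) :
    Pt f s r = ∏ j : Fin (KK m), (Bp f r (e * om m ^ (j : ℕ))).comp
      (X - C (Bc s r (e * om m ^ (j : ℕ)))) := by
  obtain ⟨σ, hσ⟩ := root_reindex hm he0 (y := e0 r) (by rw [e0_pow hm, he])
  unfold Pt
  rw [← Equiv.prod_comp σ (fun j : Fin (KK m) => (Bp f r (e * om m ^ (j : ℕ))).comp
      (X - C (Bc s r (e * om m ^ (j : ℕ)))))]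
  refine Finset.prod_congr rfl fun j _ => ?_
  rw [hσ j]

theorem Fh_good_om (hm : 0 < m) : om m ^ KK m = 1 := by
  have := (om_pow hm (KK m : ℤ)).2 dvd_rfl
  rwa [zpow_natCast] at this

theorem Fh_good_root (hm : 0 < m) {x y : ℂ} (h : x ^ KK m = y) (j : ℕ) :
    (x * om m ^ j) ^ KK m = y := by
  rw [mul_pow, ← pow_mul, mul_comm j, pow_mul, Fh_good_om hm, one_pow, mul_one, h]

theorem Fh_good_om_ne (hm : 0 < m) : om m ≠ 0 := by
  unfold om
  exact Complex.exp_ne_zero _

theorem Fh_good_om_inj (hm : 0 < m) (i j : Fin (KK m)) (h : om m ^ (i : ℕ) = om m ^ (j : ℕ)) :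
    i = j := by
  have h1 : om m ^ ((i : ℤ) - (j : ℤ)) = 1 := by
    rw [zpow_sub₀ (Fh_good_om_ne hm), zpow_natCast, zpow_natCast, h]
    exact div_self (pow_ne_zero _ (Fh_good_om_ne hm))
  rw [om_pow hm] at h1
  obtain ⟨c, hc⟩ := h1
  have hi := i.2
  have hj := j.2
  have h2 : c = 0 := by
    by_contra hc0
    rcases lt_or_gt_of_ne hc0 with h3 | h3
    · nlinarith
    · nlinarith
  rw [h2, mul_zero] at hc
  exact Fin.ext (by omega)

theorem Fh_good (hf : GoodS m n l f) (hs : GoodSh m n f s) (hm : 0 < m) (hn : 1 ≤ n) :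
    GoodC m (KK m * n) (Fh f s) := by
  refine ⟨?_, ?_, ?_⟩
  · intro r₀ hr₀
    obtain ⟨e, U, hUo, hrU, hUC, hed, he⟩ := root_branch hm hr₀
    have hcont : ContinuousOn (Fh f s) U := by
      rw [continuousOn_pi]
      intro i
      have hη : ∀ j : ℕ, ContinuousOn (fun r => e r * om m ^ j) U := fun j =>
        hed.continuousOn.mul continuousOn_const
      have hη0 : ∀ j : ℕ, ∀ r ∈ U, e r * om m ^ j ≠ 0 := fun j r hr =>
        mul_ne_zero (he r hr).2 (pow_ne_zero _ (Fh_good_om_ne hm))
      have hN : ∀ j : ℕ, ContinuousOn (fun r => Nr r (e r * om m ^ j)) U := by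
        intro j
        have h1 := (Nr_diff (m := m)).continuousOn.comp
          (f := fun r : Fin (m + 1) → ℂ => (r, e r * om m ^ j)) (s := U)
          (continuousOn_id.prodMk (hη j)) (fun r hr => hη0 j r hr)
        exact h1
      have hw : ∀ j : ℕ, ContinuousOn (fun r => f (Nr r (e r * om m ^ j))) U := by
        intro j
        exact hf.cont.comp (hN j) (fun r hr =>
          Nr_mem (hUC hr) (Fh_good_root hm (he r hr).1 j))
      have hB : ∀ j : ℕ, ContinuousOn (fun r => Bc s r (e r * om m ^ j)) U := by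
        intro j
        unfold Bc
        refine (Complex.continuous_ofReal.comp_continuousOn (hs.cont.mono hUC)).mul ?_
        refine (hη j).div (Complex.continuous_ofReal.comp_continuousOn (hη j).norm) ?_
        intro r hr
        exact_mod_cast norm_ne_zero_iff.2 (hη0 j r hr)
      have hCC : Fh_good_CC U (fun r => ∏ j : Fin (KK m), (Bp f r (e r * om m ^ (j : ℕ))).comp
          (X - C (Bc s r (e r * om m ^ (j : ℕ))))) :=
        Fh_good_prod _ fun j _ => Fh_good_comp n (hw j) (hB j)
      refine (hCC i).congr fun r hr => ?_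
      show (Pt f s r).coeff i = _
      rw [Fh_good_Pt hm r (hUC hr) (e r) (he r hr).1 (he r hr).2]
    exact (hcont.continuousAt (hUo.mem_nhds hrU)).continuousWithinAt
  · intro r hr
    rw [mpoly_Fh hn]
    have he := e0_pow hm r
    have hroot : ∀ j : ℕ, (e0 r * om m ^ j) ^ KK m = Dr r := fun j => Fh_good_root hm he j
    have he0 : e0 r ≠ 0 := by
      intro h
      rw [h, zero_pow] at he
      · exact Dr_ne hr he.symm
      · unfold KK; positivity
    have hlab : ∀ j : ℕ, ∃ y : Fin n → ℂ, Function.Injective y ∧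
        Bp f r (e0 r * om m ^ j) = ∏ a, (X - C (y a)) := by
      intro j
      obtain ⟨_, y, h1, h2, _⟩ := SG_lab hn (hf.maps _ (Nr_mem hr (hroot j)))
      exact ⟨y, h1, h2⟩
    choose y hy1 hy2 using hlab
    have hfac : ∀ j : ℕ, (Bp f r (e0 r * om m ^ j)).comp (X - C (Bc s r (e0 r * om m ^ j))) =
        ∏ a, (X - C (y j a + Bc s r (e0 r * om m ^ j))) := by
      intro j
      rw [hy2 j, Polynomial.prod_comp]
      refine Finset.prod_congr rfl fun a _ => ?_
      rw [sub_comp, X_comp, C_comp, C_add]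
      ring
    unfold Pt
    apply Finset.squarefree_prod_of_pairwise_isCoprime
    · intro i _ j _ hij
      show IsRelPrime _ _
      apply IsCoprime.isRelPrime
      beta_reduce
      rw [hfac, hfac]
      apply IsCoprime.prod_left
      intro a _
      apply IsCoprime.prod_right
      intro b _
      apply isCoprime_X_sub_C_of_isUnit_sub
      rw [isUnit_iff_ne_zero, sub_ne_zero]
      intro hab
      apply hij
      have h1 : Bl f s r (e0 r * om m ^ (i : ℕ)) (y i a + Bc s r (e0 r * om m ^ (i : ℕ))) := by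
        refine ⟨hroot i, ?_⟩
        rw [add_sub_cancel_right, hy2 i, eval_prod]
        exact Finset.prod_eq_zero (Finset.mem_univ a) (by simp)
      have h2 : Bl f s r (e0 r * om m ^ (j : ℕ)) (y i a + Bc s r (e0 r * om m ^ (i : ℕ))) := by
        refine ⟨hroot j, ?_⟩
        rw [hab, add_sub_cancel_right, hy2 j, eval_prod]
        exact Finset.prod_eq_zero (Finset.mem_univ b) (by simp)
      have h3 := hs.sep r hr _ _ _ h1 h2
      exact Fh_good_om_inj hm i j (mul_left_cancel₀ he0 h3)
    · intro j _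
      rw [hfac]
      apply Separable.squarefree
      rw [separable_prod_X_sub_C_iff']
      intro a _ b _ hab
      exact hy1 j (add_right_cancel hab)
  · intro r hr σ
    unfold Fh
    have h1 : Pt f s (r ∘ σ) = Pt f s r := by
      unfold Pt Bp Bc e0
      rw [Dr_symm, hs.symm r hr]
      simp only [Nr_symm]
    rw [h1]

theorem Fh_transl (hf : GoodS m n l f) (hs : GoodSh m n f s) (hm : 0 < m) (hn : 1 ≤ n)
    (r : Fin (m + 1) → ℂ) (hr : r ∈ Conf m) (c : ℂ) : Fh f s (fun p => r p + c) = Fh f s r := by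
  unfold Fh
  have h1 : Pt f s (fun p => r p + c) = Pt f s r := by
    unfold Pt Bp Bc e0
    rw [Dr_transl, hs.transl r hr]
    simp only [Nr_transl]
  rw [h1]

end LinC
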