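import Pool.Agent.Helper996.LinC.DefsR
import Pool.Agent.Helper996.LinC.DefsG
import Pool.Agent.Helper996.Lin.Defs5b
import Pool.Agent.Helper996.Lin.J_G0_open
import Pool.Agent.Helper996.Lin.J_lab_basic
import Pool.Agent.Helper996.LinC.G_discr
import Pool.Agent.Helper996.LinC.G_nr
import Pool.Agent.Helper996.LinC.G_root
import Pool.Agent.Helper996.LinC.G_fh

set_option autoImplicit false

open Polynomial Set Filter Topology LinS
open scoped Manifold ContDiff

namespace LinC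

variable {m n l : ℕ} {f : (Fin m → ℂ) → Fin (n - 1) → ℂ} {s : (Fin (m + 1) → ℂ) → ℝ}

theorem bl_exists (hs : GoodSh m n f s) (hm : 0 < m) (hn : 1 ≤ n) {r : Fin (m + 1) → ℂ}
    (hr : r ∈ Conf m) {Y : Fin (KK m * n) → ℂ} (hY : Lab (Fh f s r) Y) (a : Fin (KK m * n)) :
    ∃ η, Bl f s r η (Y a) := by
  have h0 : (Pt f s r).eval (Y a) = 0 := by
    rw [← mpoly_Fh hn r]
    have h1 : mpoly (KK m * n) (Fh f s r) = ∏ a, (X - C (Y a)) := hY
    rw [h1, eval_prod]
    exact Finset.prod_eq_zero (Finset.mem_univ a) (by simp)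
  unfold Pt at h0
  rw [eval_prod, Finset.prod_eq_zero_iff] at h0
  obtain ⟨j, _, hj⟩ := h0
  refine ⟨e0 r * om m ^ (j : ℕ), ?_, ?_⟩
  · have h2 : (om m ^ (j : ℕ)) ^ KK m = 1 := by
      have := (om_pow hm ((j : ℕ) * KK m : ℤ)).mpr (Dvd.intro_left _ rfl)
      rw [← pow_mul]
      exact_mod_cast this
    rw [mul_pow, e0_pow hm, h2, mul_one]
  · simpa [eval_comp] using hj

theorem bl_surj (hs : GoodSh m n f s) (hm : 0 < m) (hn : 1 ≤ n) {r : Fin (m + 1) → ℂ}
    (hr : r ∈ Conf m) {Y : Fin (KK m * n) → ℂ} (hY : Lab (Fh f s r) Y) {η x : ℂ}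
    (h : Bl f s r η x) : ∃ a, Y a = x := by
  obtain ⟨h1, h2⟩ := h
  have hKK : KK m ≠ 0 := by
    unfold KK
    positivity
  have hne : e0 r ≠ 0 := by
    intro h0
    have h3 := e0_pow hm r
    rw [h0, zero_pow hKK] at h3
    exact Dr_ne hr h3.symm
  obtain ⟨j, hj⟩ := root_list hm hne (y := η) (by rw [h1, e0_pow hm])
  have h0 : (Pt f s r).eval x = 0 := by
    unfold Pt
    rw [eval_prod]
    apply Finset.prod_eq_zero (Finset.mem_univ j)
    rw [← hj, eval_comp]
    simpa using h2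
  have h3 : mpoly (KK m * n) (Fh f s r) = ∏ a, (X - C (Y a)) := hY
  rw [← mpoly_Fh hn r, h3, eval_prod, Finset.prod_eq_zero_iff] at h0
  obtain ⟨a, _, ha⟩ := h0
  refine ⟨a, ?_⟩
  rw [eval_sub, eval_X, eval_C] at ha
  exact (sub_eq_zero.mp ha).symm

theorem bl_poly_comb (n : ℕ) (y : Fin n → ℂ) :
    ∏ i, ∏ j ∈ Finset.univ.erase i, (y i - y j) =
      (-1) ^ (n * (n - 1) / 2) * ∏ p, ∏ q ∈ Finset.Ioi p, (y p - y q) ^ 2 := by
  have h1 : ∀ i : Fin n, ∏ j ∈ Finset.univ.erase i, (y i - y j) =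
      (∏ j ∈ Finset.Iio i, (y i - y j)) * ∏ j ∈ Finset.Ioi i, (y i - y j) := by
    intro i
    rw [← Finset.prod_union]
    · congr 1
      ext j
      simp only [Finset.mem_erase, Finset.mem_univ, and_true, Finset.mem_union, Finset.mem_Iio,
        Finset.mem_Ioi]
      exact ne_iff_lt_or_gt
    · rw [Finset.disjoint_left]
      intro j hj hj'
      rw [Finset.mem_Iio] at hj
      rw [Finset.mem_Ioi] at hj'
      exact lt_asymm hj hj'
  have h2 : ∏ i, ∏ j ∈ Finset.Iio i, (y i - y j) = ∏ p, ∏ q ∈ Finset.Ioi p, (y q - y p) := by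
    refine Finset.prod_comm' ?_
    intro i j
    simp
  simp_rw [h1]
  rw [Finset.prod_mul_distrib, h2, ← Finset.prod_mul_distrib]
  have h3 : ∀ p : Fin n, (∏ q ∈ Finset.Ioi p, (y q - y p)) * ∏ q ∈ Finset.Ioi p, (y p - y q) =
      (-1) ^ (n - 1 - (p : ℕ)) * ∏ q ∈ Finset.Ioi p, (y p - y q) ^ 2 := by
    intro p
    rw [← Finset.prod_mul_distrib]
    have h4 : ∀ q : Fin n, (y q - y p) * (y p - y q) = (-1) * (y p - y q) ^ 2 := by
      intro q; ring
    simp_rw [h4]
    rw [Finset.prod_mul_distrib, Finset.prod_const, Fin.card_Ioi]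
  simp_rw [h3]
  rw [Finset.prod_mul_distrib, Finset.prod_pow_eq_pow_sum]
  congr 2
  rw [Fin.sum_univ_eq_sum_range (fun i => n - 1 - i) n, Finset.sum_range_reflect (fun i => i) n,
    Finset.sum_range_id]

open Classical in
/-- the block polynomial through the labels of the block -/
theorem bl_poly (hf : GoodS m n l f) (hs : GoodSh m n f s) (hm : 0 < m) (hn : 1 ≤ n)
    {r : Fin (m + 1) → ℂ} (hr : r ∈ Conf m) {Y : Fin (KK m * n) → ℂ} (hY : Lab (Fh f s r) Y)
    {η : ℂ} (hη : η ^ KK m = Dr r) :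
    Bp f r η = ∏ a ∈ Finset.univ.filter (fun a => Bl f s r η (Y a)), (X - C (Y a - Bc s r η)) ∧
    (Finset.univ.filter (fun a => Bl f s r η (Y a))).card = n ∧
    ∏ a ∈ Finset.univ.filter (fun a => Bl f s r η (Y a)),
      ∏ b ∈ (Finset.univ.filter (fun a => Bl f s r η (Y a))).erase a, (Y a - Y b) =
      (-1) ^ (n * (n - 1) / 2) := by
  have hw : f (Nr r η) ∈ SG n := hf.maps _ (Nr_mem hr hη)
  obtain ⟨_, y, hyinj, hyp, _, hyd⟩ := SG_lab hn hw
  have hBp : Bp f r η = ∏ a, (X - C (y a)) := hyp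
  have hYinj : Function.Injective Y := lab_inj hY ((Fh_good hf hs hm hn).sqf r hr)
  have hBl : ∀ x : ℂ, Bl f s r η x ↔ ∃ i, y i + Bc s r η = x := by
    intro x
    unfold Bl
    rw [hBp, eval_prod, Finset.prod_eq_zero_iff]
    constructor
    · rintro ⟨-, i, -, hi⟩
      rw [eval_sub, eval_X, eval_C] at hi
      exact ⟨i, by linear_combination - hi⟩
    · rintro ⟨i, hi⟩
      refine ⟨hη, i, Finset.mem_univ i, ?_⟩
      rw [eval_sub, eval_X, eval_C, ← hi]
      ring
  have hg : ∀ i : Fin n, ∃ a, Y a = y i + Bc s r η := fun i =>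
    bl_surj hs hm hn hr hY ((hBl _).mpr ⟨i, rfl⟩)
  choose g hg using hg
  have hginj : Function.Injective g := by
    intro i j hij
    have h1 := hg i
    rw [hij, hg j] at h1
    exact hyinj (add_right_cancel h1).symm
  have hS : Finset.univ.filter (fun a => Bl f s r η (Y a)) =
      Finset.univ.map ⟨g, hginj⟩ := by
    ext a
    simp only [Finset.mem_filter, Finset.mem_univ, true_and, Finset.mem_map,
      Function.Embedding.coeFn_mk]
    rw [hBl]
    constructor
    · rintro ⟨i, hi⟩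
      exact ⟨i, hYinj (by rw [hg i, hi])⟩
    · rintro ⟨i, hi⟩
      exact ⟨i, by rw [← hi, hg i]⟩
  rw [hS]
  refine ⟨?_, ?_, ?_⟩
  · rw [hBp, Finset.prod_map]
    refine Finset.prod_congr rfl fun i _ => ?_
    simp only [Function.Embedding.coeFn_mk]
    rw [hg i, add_sub_cancel_right]
  · simp
  · have h1 : ∀ i : Fin n, (Finset.univ.map ⟨g, hginj⟩).erase (g i) =
        (Finset.univ.erase i).map ⟨g, hginj⟩ := by
      intro i
      rw [Finset.map_erase]
      rfl
    rw [Finset.prod_map]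
    have h2 := bl_poly_comb n y
    rw [hyd, mul_one] at h2
    rw [← h2]
    refine Finset.prod_congr rfl fun i _ => ?_
    simp only [Function.Embedding.coeFn_mk]
    rw [h1 i, Finset.prod_map]
    refine Finset.prod_congr rfl fun j _ => ?_
    simp only [Function.Embedding.coeFn_mk]
    rw [hg i, hg j]
    ring

end LinC
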