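import Pool.Agent.Helper996.LinC.DefsR
import Pool.Agent.Helper996.LinC.DefsG
import Pool.Agent.Helper996.Lin.Defs5b
import Pool.Agent.Helper996.Lin.J_G0_open
import Pool.Agent.Helper996.Lin.J_lab_basic
import Pool.Agent.Helper996.LinC.G_discr
import Pool.Agent.Helper996.LinC.G_nr
import Pool.Agent.Helper996.LinC.G_root
import Pool.Agent.Helper996.LinC.G_bl

set_option autoImplicit false

open Polynomial Set Filter Topology LinS
open scoped Manifold ContDiff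

namespace LinC

variable {m n l : ℕ} {f : (Fin m → ℂ) → Fin (n - 1) → ℂ} {s : (Fin (m + 1) → ℂ) → ℝ}

theorem bl_cont_eval (k : ℕ) (w : Fin (k - 1) → ℂ) (x : ℂ) :
    (cpoly k w).eval x = x ^ k + ∑ i : Fin (k - 1), w i * x ^ (i : ℕ) := by
  unfold cpoly
  rw [eval_add, eval_pow, eval_X, eval_finsetSum]
  congr 1
  apply Finset.sum_congr rfl
  intro i _
  rw [eval_mul, eval_C, eval_pow, eval_X]

theorem bl_cont_om_ne (m : ℕ) : om m ≠ 0 := Complex.exp_ne_zero _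

theorem bl_cont_pow (hm : 0 < m) (x : ℂ) (j : ℕ) : (x * om m ^ j) ^ KK m = x ^ KK m := by
  have h1 : om m ^ KK m = 1 := by
    have := (om_pow hm (KK m : ℤ)).mpr dvd_rfl
    rwa [zpow_natCast] at this
  rw [mul_pow, ← pow_mul, mul_comm j, pow_mul, h1, one_pow, mul_one]

/-- continuity of the block of a label -/
theorem bl_cont (hf : GoodS m n l f) (hs : GoodSh m n f s) (hm : 0 < m) (hn : 1 ≤ n)
    {V : Type} [TopologicalSpace V] {K : Set V} {H : V → Fin (m + 1) → ℂ} (hH : ContinuousOn H K)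
    (hHc : ∀ v ∈ K, H v ∈ Conf m) {M : Fin (KK m * n) → V → ℂ} (hM : ∀ a, ContinuousOn (M a) K)
    (hL : ∀ v ∈ K, Lab (Fh f s (H v)) (fun a => M a v)) (a : Fin (KK m * n)) :
    ∃ η : V → ℂ, ContinuousOn η K ∧ ∀ v ∈ K, Bl f s (H v) (η v) (M a v) := by
  classical
  have hex : ∀ v, ∃ η, v ∈ K → Bl f s (H v) η (M a v) := by
    intro v
    by_cases hv : v ∈ K
    · obtain ⟨η, hη⟩ := bl_exists hs hm hn (hHc v hv) (hL v hv) a
      exact ⟨η, fun _ => hη⟩
    · exact ⟨0, fun h => absurd h hv⟩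
  choose η hη using hex
  refine ⟨η, ?_, fun v hv => hη v hv⟩
  intro v₀ hv₀
  obtain ⟨e, U, hUo, hr₀U, hUc, hed, heU⟩ := root_branch hm (hHc v₀ hv₀)
  have hHw : ContinuousWithinAt H K v₀ := hH v₀ hv₀
  have hKev : ∀ᶠ v in 𝓝[K] v₀, v ∈ K := self_mem_nhdsWithin
  have hUev : ∀ᶠ v in 𝓝[K] v₀, H v ∈ U := hHw (hUo.mem_nhds hr₀U)
  have he0 : e (H v₀) ≠ 0 := (heU _ hr₀U).2
  have hecont : ContinuousWithinAt (fun v => e (H v)) K v₀ := by
    have h1 : ContinuousAt e (H v₀) :=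
      (hed.differentiableAt (hUo.mem_nhds hr₀U)).continuousAt
    exact ContinuousAt.comp_continuousWithinAt h1 hHw
  have hE : ∀ j : Fin (KK m), ContinuousWithinAt (fun v => e (H v) * om m ^ (j : ℕ)) K v₀ :=
    fun j => hecont.mul continuousWithinAt_const
  have hEne : ∀ j : Fin (KK m), e (H v₀) * om m ^ (j : ℕ) ≠ 0 := fun j =>
    mul_ne_zero he0 (pow_ne_zero _ (bl_cont_om_ne m))
  have hBc : ∀ j : Fin (KK m),
      ContinuousWithinAt (fun v => Bc s (H v) (e (H v) * om m ^ (j : ℕ))) K v₀ := by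
    intro j
    unfold Bc
    have h1 : ContinuousWithinAt (fun v => s (H v)) K v₀ :=
      (hs.cont.comp hH hHc) v₀ hv₀
    have h2 : ContinuousWithinAt (fun v => ((s (H v) : ℝ) : ℂ)) K v₀ :=
      Complex.continuous_ofReal.continuousAt.comp_continuousWithinAt h1
    have h3 : ContinuousWithinAt (fun v => ((‖e (H v) * om m ^ (j : ℕ)‖ : ℝ) : ℂ)) K v₀ :=
      Complex.continuous_ofReal.continuousAt.comp_continuousWithinAt (hE j).norm
    refine h2.mul ((hE j).div h3 ?_)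
    rw [Complex.ofReal_ne_zero]
    exact norm_ne_zero_iff.mpr (hEne j)
  have hNr : ∀ j : Fin (KK m),
      ContinuousWithinAt (fun v => Nr (H v) (e (H v) * om m ^ (j : ℕ))) K v₀ := by
    intro j
    have hopen : IsOpen {x : (Fin (m + 1) → ℂ) × ℂ | x.2 ≠ 0} :=
      isOpen_ne_fun continuous_snd continuous_const
    have h1 : ContinuousAt (fun x : (Fin (m + 1) → ℂ) × ℂ => Nr x.1 x.2)
        (H v₀, e (H v₀) * om m ^ (j : ℕ)) :=
      (Nr_diff.differentiableAt (hopen.mem_nhds (hEne j))).continuousAt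
    exact ContinuousAt.comp_continuousWithinAt (f := fun v => (H v, e (H v) * om m ^ (j : ℕ)))
      h1 (hHw.prodMk (hE j))
  have hpowU : ∀ v, H v ∈ U → ∀ j : Fin (KK m),
      (e (H v) * om m ^ (j : ℕ)) ^ KK m = Dr (H v) := by
    intro v hv j
    rw [bl_cont_pow hm, (heU _ hv).1]
  have hfN : ∀ j : Fin (KK m),
      ContinuousWithinAt (fun v => f (Nr (H v) (e (H v) * om m ^ (j : ℕ)))) K v₀ := by
    intro j
    have h1 : Tendsto f (𝓝[SG (m + 1)] (Nr (H v₀) (e (H v₀) * om m ^ (j : ℕ))))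
        (𝓝 (f (Nr (H v₀) (e (H v₀) * om m ^ (j : ℕ))))) :=
      hf.cont _ (Nr_mem (hHc v₀ hv₀) (hpowU v₀ hr₀U j))
    have h2 : Tendsto (fun v => Nr (H v) (e (H v) * om m ^ (j : ℕ))) (𝓝[K] v₀)
        (𝓝[SG (m + 1)] (Nr (H v₀) (e (H v₀) * om m ^ (j : ℕ)))) := by
      refine tendsto_nhdsWithin_iff.mpr ⟨hNr j, ?_⟩
      filter_upwards [hUev] with v hv
      exact Nr_mem (hUc hv) (hpowU v hv j)
    exact h1.comp h2
  have hQ : ∀ j : Fin (KK m), ContinuousWithinAt (fun v =>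
      (Bp f (H v) (e (H v) * om m ^ (j : ℕ))).eval
        (M a v - Bc s (H v) (e (H v) * om m ^ (j : ℕ)))) K v₀ := by
    intro j
    unfold Bp
    simp only [bl_cont_eval]
    have hx : ContinuousWithinAt (fun v => M a v - Bc s (H v) (e (H v) * om m ^ (j : ℕ))) K v₀ :=
      (hM a v₀ hv₀).sub (hBc j)
    refine (hx.pow n).add ?_
    refine tendsto_finsetSum _ fun i _ => ?_
    have h1 : ContinuousWithinAt (fun v => f (Nr (H v) (e (H v) * om m ^ (j : ℕ))) i) K v₀ :=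
      (continuous_apply i).continuousAt.comp_continuousWithinAt (hfN j)
    exact h1.mul (hx.pow (i : ℕ))
  have hlist : ∀ v ∈ K, H v ∈ U → ∃ j : Fin (KK m), η v = e (H v) * om m ^ (j : ℕ) := by
    intro v hv hvU
    apply root_list hm (heU _ hvU).2
    rw [(hη v hv).1, (heU _ hvU).1]
  obtain ⟨j₀, hj₀⟩ := hlist v₀ hv₀ hr₀U
  have hne : ∀ j : Fin (KK m), om m ^ (j : ℕ) ≠ om m ^ (j₀ : ℕ) → ∀ᶠ v in 𝓝[K] v₀,
      (Bp f (H v) (e (H v) * om m ^ (j : ℕ))).eval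
        (M a v - Bc s (H v) (e (H v) * om m ^ (j : ℕ))) ≠ 0 := by
    intro j hj
    have h0 : (Bp f (H v₀) (e (H v₀) * om m ^ (j : ℕ))).eval
        (M a v₀ - Bc s (H v₀) (e (H v₀) * om m ^ (j : ℕ))) ≠ 0 := by
      intro h
      have h1 : Bl f s (H v₀) (e (H v₀) * om m ^ (j : ℕ)) (M a v₀) := ⟨hpowU v₀ hr₀U j, h⟩
      have h2 := hs.sep (H v₀) (hHc v₀ hv₀) _ _ _ h1 (hη v₀ hv₀)
      rw [hj₀] at h2
      exact hj (mul_left_cancel₀ he0 h2)
    exact (hQ j).eventually_ne h0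
  have hall : ∀ᶠ v in 𝓝[K] v₀, ∀ j : Fin (KK m), om m ^ (j : ℕ) ≠ om m ^ (j₀ : ℕ) →
      (Bp f (H v) (e (H v) * om m ^ (j : ℕ))).eval
        (M a v - Bc s (H v) (e (H v) * om m ^ (j : ℕ))) ≠ 0 := by
    rw [Filter.eventually_all]
    intro j
    by_cases hj : om m ^ (j : ℕ) ≠ om m ^ (j₀ : ℕ)
    · exact (hne j hj).mono fun v hv _ => hv
    · exact Filter.Eventually.of_forall fun v h => absurd h hj
  have heq : η =ᶠ[𝓝[K] v₀] fun v => e (H v) * om m ^ (j₀ : ℕ) := by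
    filter_upwards [hKev, hUev, hall] with v hvK hvU hv
    obtain ⟨j, hj⟩ := hlist v hvK hvU
    by_cases hjj : om m ^ (j : ℕ) = om m ^ (j₀ : ℕ)
    · rw [hj, hjj]
    · exfalso
      apply hv j hjj
      have h1 := (hη v hvK).2
      rw [hj] at h1
      exact h1
  exact (hE j₀).congr_of_eventuallyEq heq hj₀

end LinC
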