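import Pool.Agent.Helper996.LinC.DefsR
import Pool.Agent.Helper996.LinC.DefsG
import Pool.Agent.Helper996.Lin.Defs5b
import Pool.Agent.Helper996.Lin.J_G0_open
import Pool.Agent.Helper996.Lin.J_Conf_top
import Pool.Agent.Helper996.Lin.J_log_basic
import Pool.Agent.Helper996.LinC.G_discr
import Pool.Agent.Helper996.LinC.G_root

set_option autoImplicit false

open Polynomial Set Filter Topology LinS
open scoped Manifold ContDiff

namespace LinC

variable {m n l : ℕ} {f : (Fin m → ℂ) → Fin (n - 1) → ℂ} {s : (Fin (m + 1) → ℂ) → ℝ}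

theorem end_const_KK (hm : 0 < m) : ((KK m : ℕ) : ℂ) ≠ 0 := by
  have : KK m ≠ 0 := by unfold KK; positivity
  exact_mod_cast this

theorem end_const_lift (hm : 0 < m) (H : ℝ → Fin (m + 1) → ℂ) (hH : ContinuousOn H (Icc 0 1))
    (hc : ∀ v ∈ Icc (0 : ℝ) 1, H v ∈ Conf m) (η₀ : ℂ) (h0 : η₀ ^ KK m = Dr (H 0)) :
    ∃ η : ℝ → ℂ, ContinuousOn η (Icc 0 1) ∧ (∀ v ∈ Icc (0 : ℝ) 1, η v ^ KK m = Dr (H v)) ∧
      η 0 = η₀ := by
  have hD : ContinuousOn (fun v => Dr (H v)) (Icc 0 1) :=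
    Dr_diff.continuous.comp_continuousOn hH
  obtain ⟨L, hL, hexp⟩ := log_lift (convex_Icc (0 : ℝ) 1) hD (fun v hv => Dr_ne (hc v hv))
  have hK := end_const_KK (m := m) hm
  refine ⟨fun v => η₀ * Complex.exp ((L v - L 0) / KK m), ?_, ?_, by simp⟩
  · exact continuousOn_const.mul
      (Complex.continuous_exp.comp_continuousOn ((hL.sub continuousOn_const).div_const _))
  · intro v hv
    have e1 : (KK m : ℂ) * ((L v - L 0) / KK m) = L v - L 0 := by field_simp
    have h1 := hexp v hv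
    have h2 := hexp 0 ⟨le_rfl, zero_le_one⟩
    have h3 : Dr (H 0) ≠ 0 := Dr_ne (hc 0 ⟨le_rfl, zero_le_one⟩)
    rw [mul_pow, h0, ← Complex.exp_nat_mul, e1, Complex.exp_sub, h1, h2]
    field_simp

/-- the base configurations `(-z, z, 2, ..., m)` -/
noncomputable def end_const_r (m' : ℕ) (z : ℂ) : Fin (m' + 2) → ℂ :=
  Fin.cons (-z) (Fin.cons z (fun q : Fin m' => ((q : ℕ) : ℂ) + 2))

theorem end_const_r0 (m' : ℕ) (z : ℂ) : end_const_r m' z 0 = -z := rfl
theorem end_const_r1 (m' : ℕ) (z : ℂ) : end_const_r m' z 1 = z := rfl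
theorem end_const_r2 (m' : ℕ) (z : ℂ) (q : Fin m') :
    end_const_r m' z q.succ.succ = ((q : ℕ) : ℂ) + 2 := rfl

theorem end_const_conf (m' : ℕ) {z : ℂ} (hz : ‖z‖ = 1) : end_const_r m' z ∈ Conf (m' + 1) := by
  have hq : ∀ q : Fin m', ‖((q : ℕ) : ℂ) + 2‖ = (q : ℕ) + 2 := by
    intro q
    have : ((q : ℕ) : ℂ) + 2 = (((q : ℕ) + 2 : ℝ) : ℂ) := by push_cast; rfl
    rw [this, Complex.norm_real, Real.norm_eq_abs, abs_of_nonneg (by positivity)]
  have hz0 : z ≠ 0 := by
    intro h; rw [h, norm_zero] at hz; norm_num at hz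
  unfold Conf end_const_r
  rw [mem_setOf_eq, Fin.cons_injective_iff, Fin.cons_injective_iff]
  refine ⟨?_, ?_, ?_⟩
  · rintro ⟨i, hi⟩
    induction i using Fin.cases with
    | zero =>
      rw [Fin.cons_zero] at hi
      apply hz0
      linear_combination hi / 2
    | succ i =>
      rw [Fin.cons_succ] at hi
      have h1 := hq i
      rw [hi, norm_neg, hz] at h1
      have : (0 : ℝ) ≤ ((i : ℕ) : ℝ) := Nat.cast_nonneg _
      linarith
  · rintro ⟨i, hi⟩
    have h1 := hq i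
    have hi' : ((i : ℕ) : ℂ) + 2 = z := hi
    rw [hi', hz] at h1
    have : (0 : ℝ) ≤ ((i : ℕ) : ℝ) := Nat.cast_nonneg _
    linarith
  · intro i j hij
    have h1 : ((i : ℕ) : ℂ) + 2 = ((j : ℕ) : ℂ) + 2 := hij
    have h2 : ((i : ℕ) : ℂ) = ((j : ℕ) : ℂ) := add_right_cancel h1
    exact Fin.ext (by exact_mod_cast h2)

/-- the quotient of the discriminant of the base configurations by `z²` as a function of `z²` -/
noncomputable def end_const_g (m' : ℕ) (w : ℂ) : ℂ :=
  4 * (∏ q : Fin m', ((((q : ℕ) : ℂ) + 2) ^ 2 - w) ^ 2) *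
    ∏ p : Fin m', ∏ q ∈ Finset.Ioi p, ((((p : ℕ) : ℂ) + 2) - (((q : ℕ) : ℂ) + 2)) ^ 2

theorem end_const_Dr (m' : ℕ) (z : ℂ) :
    Dr (end_const_r m' z) = z ^ 2 * end_const_g m' (z ^ 2) := by
  unfold Dr
  rw [Fin.prod_univ_succ, Fin.prod_univ_succ]
  simp only [Fin.prod_Ioi_zero, Fin.prod_Ioi_succ]
  rw [Fin.prod_univ_succ (n := m')]
  have e1 : (Fin.succ 0 : Fin (m' + 2)) = 1 := rfl
  rw [e1, end_const_r0, end_const_r1]
  simp only [end_const_r2]
  unfold end_const_g
  have e2 : (∏ q : Fin m', ((((q : ℕ) : ℂ) + 2) ^ 2 - z ^ 2) ^ 2) =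
      (∏ q : Fin m', (-z - (((q : ℕ) : ℂ) + 2)) ^ 2) * ∏ q : Fin m', (z - (((q : ℕ) : ℂ) + 2)) ^ 2 := by
    rw [← Finset.prod_mul_distrib]
    refine Finset.prod_congr rfl fun q _ => ?_
    ring
  rw [e2]
  ring

theorem end_const_gc (m' : ℕ) : Continuous (end_const_g m') := by
  unfold end_const_g
  fun_prop

theorem end_const_gne (m' : ℕ) (w : ℂ) (hw : w ∈ Metric.closedBall (0 : ℂ) 1) :
    end_const_g m' w ≠ 0 := by
  rw [mem_closedBall_zero_iff] at hw
  unfold end_const_g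
  refine mul_ne_zero (mul_ne_zero (by norm_num) ?_) ?_
  · refine Finset.prod_ne_zero_iff.2 fun q _ => pow_ne_zero 2 ?_
    intro h
    have h1 : (((q : ℕ) : ℂ) + 2) ^ 2 = w := sub_eq_zero.1 h
    have h2 : ‖(((q : ℕ) : ℂ) + 2) ^ 2‖ = ((q : ℕ) + 2 : ℝ) ^ 2 := by
      have : ((q : ℕ) : ℂ) + 2 = (((q : ℕ) + 2 : ℝ) : ℂ) := by push_cast; rfl
      rw [this, norm_pow, Complex.norm_real, Real.norm_eq_abs, abs_of_nonneg (by positivity)]
    rw [h1] at h2
    have : (0 : ℝ) ≤ ((q : ℕ) : ℝ) := Nat.cast_nonneg _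
    nlinarith
  · refine Finset.prod_ne_zero_iff.2 fun p _ => Finset.prod_ne_zero_iff.2 fun q hq =>
      pow_ne_zero 2 ?_
    intro h
    have h1 : ((p : ℕ) : ℂ) = ((q : ℕ) : ℂ) := by linear_combination h
    have h2 : (p : ℕ) = q := by exact_mod_cast h1
    have h3 := Finset.mem_Ioi.1 hq
    exact absurd (Fin.ext h2) h3.ne

theorem end_const_swap (m' : ℕ) (z : ℂ) :
    end_const_r m' (-z) = end_const_r m' z ∘ (Equiv.swap 0 1 : Equiv.Perm (Fin (m' + 2))) := by
  funext i
  rw [Function.comp_apply]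
  induction i using Fin.cases with
  | zero => rw [Equiv.swap_apply_left, end_const_r0, end_const_r1, neg_neg]
  | succ i =>
    induction i using Fin.cases with
    | zero =>
      have e1 : (Fin.succ 0 : Fin (m' + 2)) = 1 := rfl
      rw [e1, Equiv.swap_apply_right, end_const_r0, end_const_r1]
    | succ i =>
      rw [Equiv.swap_apply_of_ne_of_ne, end_const_r2, end_const_r2]
      · exact Fin.succ_ne_zero _
      · intro h
        have e1 : (1 : Fin (m' + 2)) = Fin.succ 0 := rfl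
        rw [e1] at h
        exact Fin.succ_ne_zero _ (Fin.succ_injective _ h)

/-- connectedness of `SG` -/
theorem end_const (hm : 0 < m) {α : Type} (G : (Fin (m + 1) → ℂ) → ℂ → α)
    (hG : ∀ (r : Fin (m + 1) → ℂ) (σ : Equiv.Perm (Fin (m + 1))) (η : ℂ), G (r ∘ σ) η = G r η)
    (hp : ∀ (H : ℝ → Fin (m + 1) → ℂ), ContinuousOn H (Icc 0 1) →
      (∀ v ∈ Icc (0 : ℝ) 1, H v ∈ Conf m) → ∀ (η : ℝ → ℂ), ContinuousOn η (Icc 0 1) →
      (∀ v ∈ Icc (0 : ℝ) 1, η v ^ KK m = Dr (H v)) → G (H 0) (η 0) = G (H 1) (η 1)) :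
    ∀ r ∈ Conf m, ∀ r' ∈ Conf m, ∀ η η' : ℂ, η ^ KK m = Dr r → η' ^ KK m = Dr r' →
      G r η = G r' η' := by
  -- base point
  obtain ⟨m', rfl⟩ : ∃ m', m = m' + 1 := ⟨m - 1, by omega⟩
  have hK := end_const_KK (m := m' + 1) hm
  set r₀ : Fin (m' + 1 + 1) → ℂ := end_const_r m' 1 with hr₀
  have hr₀c : r₀ ∈ Conf (m' + 1) := end_const_conf m' (by simp)
  -- one half twist
  have hstep : ∀ η : ℂ, η ^ KK (m' + 1) = Dr r₀ → G r₀ η = G r₀ (η * om (m' + 1)) := by
    intro η hη
    obtain ⟨L, hL, hexp⟩ := log_lift (convex_closedBall (0 : ℂ) 1)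
      (end_const_gc m').continuousOn (end_const_gne m')
    set z : ℝ → ℂ := fun t => Complex.exp ((Real.pi * t : ℝ) * Complex.I) with hz
    have hzn : ∀ t, ‖z t‖ = 1 := fun t => Complex.norm_exp_ofReal_mul_I _
    have hzc : Continuous z := by
      simp only [hz]; fun_prop
    have hzb : ∀ t, z t ^ 2 ∈ Metric.closedBall (0 : ℂ) 1 := by
      intro t
      rw [mem_closedBall_zero_iff, norm_pow, hzn]; norm_num
    have hz0 : z 0 = 1 := by simp [hz]
    have hz1 : z 1 = -1 := by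
      simp only [hz, mul_one]
      exact Complex.exp_pi_mul_I
    have hz2 : ∀ t, z t ^ 2 = Complex.exp (2 * Real.pi * t * Complex.I) := by
      intro t
      simp only [hz]
      rw [← Complex.exp_nat_mul]
      congr 1
      push_cast
      ring
    have hHc : Continuous (fun t => end_const_r m' (z t)) := by
      refine continuous_pi fun i => ?_
      induction i using Fin.cases with
      | zero => exact hzc.neg
      | succ i =>
        induction i using Fin.cases with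
        | zero => exact hzc
        | succ i => exact continuous_const
    have hLc : ContinuousOn (fun t => L (z t ^ 2)) (Icc (0 : ℝ) 1) :=
      hL.comp (hzc.pow 2).continuousOn (fun t _ => hzb t)
    have key := hp (fun t => end_const_r m' (z t)) hHc.continuousOn
      (fun t _ => end_const_conf m' (hzn t))
      (fun t => η * Complex.exp ((L (z t ^ 2) - L 1 + 2 * Real.pi * t * Complex.I) / KK (m' + 1)))
      ?_ ?_
    · simp only [hz0, hz1] at key
      have e1 : η * Complex.exp ((L ((1 : ℂ) ^ 2) - L 1 + 2 * Real.pi * ((0 : ℝ) : ℂ) * Complex.I) /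
          KK (m' + 1)) = η := by
        simp
      have e2 : η * Complex.exp ((L ((-1 : ℂ) ^ 2) - L 1 + 2 * Real.pi * ((1 : ℝ) : ℂ) * Complex.I) /
          KK (m' + 1)) = η * om (m' + 1) := by
        unfold om
        congr 2
        have : ((-1 : ℂ)) ^ 2 = 1 := by norm_num
        rw [this]
        push_cast
        ring
      rw [e1, e2, end_const_swap, hG] at key
      exact key
    · refine continuousOn_const.mul (Complex.continuous_exp.comp_continuousOn
        (ContinuousOn.div_const ?_ _))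
      refine (hLc.sub continuousOn_const).add (Continuous.continuousOn ?_)
      fun_prop
    · intro t _
      have h1 := hexp _ (hzb t)
      have h2 := hexp 1 (by rw [mem_closedBall_zero_iff]; simp)
      have h3 : end_const_g m' 1 ≠ 0 := end_const_gne m' 1 (by rw [mem_closedBall_zero_iff]; simp)
      have e1 : (KK (m' + 1) : ℂ) * ((L (z t ^ 2) - L 1 + 2 * Real.pi * t * Complex.I) /
          KK (m' + 1)) = L (z t ^ 2) - L 1 + 2 * Real.pi * t * Complex.I := by field_simp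
      have e2 : Dr r₀ = end_const_g m' 1 := by
        rw [hr₀, end_const_Dr]; simp
      show (η * Complex.exp ((L (z t ^ 2) - L 1 + 2 * Real.pi * t * Complex.I) /
        KK (m' + 1))) ^ KK (m' + 1) = Dr (end_const_r m' (z t))
      rw [mul_pow, hη, e2, ← Complex.exp_nat_mul, e1, Complex.exp_add, Complex.exp_sub, h1, h2,
        ← hz2, end_const_Dr]
      field_simp
  have homK : om (m' + 1) ^ KK (m' + 1) = 1 := by
    unfold om
    rw [← Complex.exp_nat_mul]
    have : (KK (m' + 1) : ℂ) * (2 * Real.pi * Complex.I / (KK (m' + 1) : ℂ)) =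
        2 * Real.pi * Complex.I := by field_simp
    rw [this, Complex.exp_two_pi_mul_I]
  have hsteps : ∀ (j : ℕ) (η : ℂ), η ^ KK (m' + 1) = Dr r₀ →
      G r₀ η = G r₀ (η * om (m' + 1) ^ j) := by
    intro j
    induction j with
    | zero => intro η _; rw [pow_zero, mul_one]
    | succ j ih =>
      intro η hη
      rw [ih η hη, hstep (η * om (m' + 1) ^ j) ?_, pow_succ, mul_assoc]
      rw [mul_pow, hη, ← pow_mul, mul_comm j, pow_mul, homK, one_pow, mul_one]
  have hbase : ∀ η η' : ℂ, η ^ KK (m' + 1) = Dr r₀ → η' ^ KK (m' + 1) = Dr r₀ →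
      G r₀ η = G r₀ η' := by
    intro η η' hη hη'
    have hη0 : η ≠ 0 := by
      rintro rfl
      apply Dr_ne hr₀c
      rw [← hη, zero_pow]
      unfold KK; positivity
    obtain ⟨j, hj⟩ := root_list hm hη0 (hη'.trans hη.symm)
    rw [hj]
    exact hsteps j η hη
  have hto : ∀ r ∈ Conf (m' + 1), ∀ η : ℂ, η ^ KK (m' + 1) = Dr r →
      ∃ η₁ : ℂ, η₁ ^ KK (m' + 1) = Dr r₀ ∧ G r η = G r₀ η₁ := by
    intro r hr η hη
    obtain ⟨γ, hγ⟩ := (Conf_pathConn (m' + 1)).joinedIn r hr r₀ hr₀c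
    have hc : ∀ v : ℝ, γ.extend v ∈ Conf (m' + 1) := by
      intro v
      exact hγ _
    obtain ⟨η₁, h1, h2, h3⟩ := end_const_lift hm (fun v => γ.extend v)
      γ.continuous_extend.continuousOn (fun v _ => hc v) η (by simpa using hη)
    refine ⟨η₁ 1, ?_, ?_⟩
    · have := h2 1 ⟨zero_le_one, le_rfl⟩
      simpa using this
    · have := hp (fun v => γ.extend v) γ.continuous_extend.continuousOn (fun v _ => hc v) η₁ h1 h2
      rw [h3] at this
      simpa using this
  intro r hr r' hr' η η' hη hη'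
  obtain ⟨a, ha, ha'⟩ := hto r hr η hη
  obtain ⟨b, hb, hb'⟩ := hto r' hr' η' hη'
  rw [ha', hb']
  exact hbase a b ha hb

end LinC
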