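import Pool.Agent.Helper996.LinC.DefsR
import Pool.Agent.Helper996.LinC.DefsG
import Pool.Agent.Helper996.Lin.Defs5b
import Pool.Agent.Helper996.Lin.J_G0_open
import Pool.Agent.Helper996.Lin.J_charts
import Pool.Agent.Helper996.LinC.G_discr
import Pool.Agent.Helper996.LinC.G_root

set_option autoImplicit false

open Polynomial Set Filter Topology LinS
open scoped Manifold ContDiff

namespace LinC

variable {m n l : ℕ} {f : (Fin m → ℂ) → Fin (n - 1) → ℂ} {s : (Fin (m + 1) → ℂ) → ℝ}

/-- logarithm of the discriminant -/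
noncomputable def half_twist_root_L {m : ℕ} (r : Fin (m + 1) → ℂ) : ℂ :=
  ∑ p, ∑ q, if p < q then 2 * Complex.log (r q - r p) else 0

theorem half_twist_root_exp {m : ℕ} {r : Fin (m + 1) → ℂ} (hr : r ∈ Conf m) :
    Complex.exp (half_twist_root_L r) = Dr r := by
  unfold half_twist_root_L Dr
  rw [Complex.exp_sum]
  refine Finset.prod_congr rfl fun p _ => ?_
  rw [Complex.exp_sum]
  have hI : Finset.Ioi p = Finset.univ.filter (fun q => p < q) := by
    ext q; simp
  rw [hI, Finset.prod_filter]
  refine Finset.prod_congr rfl fun q _ => ?_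
  split_ifs with h
  · have hne : r q - r p ≠ 0 := by
      intro h0
      exact (ne_of_gt h) (hr (sub_eq_zero.mp h0))
    rw [two_mul, Complex.exp_add, Complex.exp_log hne]
    ring
  · exact Complex.exp_zero

theorem half_twist_root_cont {m : ℕ} {K : Set (Fin (m + 1) → ℂ)}
    (hK : ∀ r ∈ K, ∀ p q : Fin (m + 1), p < q → r q - r p ∈ Complex.slitPlane) :
    ContinuousOn (half_twist_root_L (m := m)) K := by
  unfold half_twist_root_L
  refine continuousOn_finsetSum _ fun p _ => continuousOn_finsetSum _ fun q _ => ?_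
  by_cases h : p < q
  · simp only [h, if_true]
    refine continuousOn_const.mul ?_
    refine ContinuousOn.clog ?_ (fun r hr => hK r hr p q h)
    exact ((continuous_apply q).sub (continuous_apply p)).continuousOn
  · simp only [h, if_false]
    exact continuousOn_const

theorem half_twist_root_pt {m : ℕ} (i : Fin m) (p q : Fin (m + 1)) (c : ℂ) :
    (if sw i p < sw i q then c else 0) = (if p < q then c else 0)
      + (if p = i.succ then (if q = i.castSucc then c else 0) else 0)
      - (if p = i.castSucc then (if q = i.succ then c else 0) else 0) := by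
  have hsw : ∀ x : Fin (m + 1), sw i x = if x = i.castSucc then i.succ else
      if x = i.succ then i.castSucc else x := fun x => Equiv.swap_apply_def _ _ _
  rw [hsw p, hsw q]
  have hi := i.2
  simp only [Fin.ext_iff, Fin.val_succ, Fin.val_castSucc]
  by_cases h1 : (p : ℕ) = i
  · have h1' : ¬ (p : ℕ) = i + 1 := by omega
    simp only [h1, if_true]
    by_cases h2 : (q : ℕ) = i
    · have h2' : ¬ (q : ℕ) = i + 1 := by omega
      have h3 : ¬ p < q := by rw [Fin.lt_def]; omega
      have h4 : ¬ (i : ℕ) = i + 1 := by omega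
      simp [h2, h3, h4]
    · by_cases h3 : (q : ℕ) = i + 1
      · have h4 : p < q := by rw [Fin.lt_def]; omega
        have h5 : ¬ (i : ℕ) = i + 1 := by omega
        have h6 : ¬ i.succ < i.castSucc := by rw [Fin.lt_def]; simp
        have h7 : ¬ (i : ℕ) + 1 = i := by omega
        simp [h3, h4, h5, h6, h7]
      · have h4 : ¬ (i : ℕ) = i + 1 := by omega
        have h5 : (i.succ < q) ↔ (p < q) := by
          rw [Fin.lt_def, Fin.lt_def, Fin.val_succ]; omega
        simp [h2, h3, h4, h5]
  · by_cases h1' : (p : ℕ) = i + 1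
    · have h4 : ¬ (i : ℕ) + 1 = i := by omega
      by_cases h2 : (q : ℕ) = i
      · have h5 : ¬ p < q := by rw [Fin.lt_def]; omega
        have h6 : i.castSucc < i.succ := by rw [Fin.lt_def]; simp
        simp [h1', h4, h2, h5, h6]
      · by_cases h3 : (q : ℕ) = i + 1
        · have h5 : ¬ p < q := by rw [Fin.lt_def]; omega
          simp [h1', h4, h3, h5]
        · have h5 : (i.castSucc < q) ↔ (p < q) := by
            rw [Fin.lt_def, Fin.lt_def, Fin.val_castSucc]; omega
          simp [h1', h4, h2, h3, h5]
    · by_cases h2 : (q : ℕ) = i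
      · have h5 : (p < i.succ) ↔ (p < q) := by
          rw [Fin.lt_def, Fin.lt_def, Fin.val_succ]; omega
        simp [h1, h1', h2, h5]
      · by_cases h3 : (q : ℕ) = i + 1
        · have h4 : ¬ (i : ℕ) + 1 = i := by omega
          have h5 : (p < i.castSucc) ↔ (p < q) := by
            rw [Fin.lt_def, Fin.lt_def, Fin.val_castSucc]; omega
          simp [h1, h1', h3, h4, h5]
        · simp [h1, h1', h2, h3]

theorem half_twist_root_log {z : ℂ} (hz : 0 < z.im) :
    Complex.log (-z) = Complex.log z - Real.pi * Complex.I := by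
  have h := Complex.arg_neg_eq_arg_sub_pi_of_im_pos hz
  simp only [Complex.log, norm_neg, h]
  push_cast
  ring

theorem half_twist_root_sw {m : ℕ} (i : Fin m) {r : Fin (m + 1) → ℂ}
    (hr : r ∈ KP m i) :
    half_twist_root_L (r ∘ sw i) = half_twist_root_L r - 2 * Real.pi * Complex.I := by
  have hinv : ∀ x, sw i (sw i x) = x := fun x => by simp [sw]
  have h1 : half_twist_root_L (r ∘ sw i) =
      ∑ p, ∑ q, if sw i p < sw i q then 2 * Complex.log (r q - r p) else 0 := by
    unfold half_twist_root_L
    rw [← Equiv.sum_comp (sw i)]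
    refine Finset.sum_congr rfl fun p _ => ?_
    rw [← Equiv.sum_comp (sw i)]
    refine Finset.sum_congr rfl fun q _ => ?_
    simp only [Function.comp, hinv]
  rw [h1]
  simp only [half_twist_root_pt i]
  simp only [Finset.sum_add_distrib, Finset.sum_sub_distrib]
  have h2 : (∑ p : Fin (m + 1), ∑ q : Fin (m + 1), (if p = i.succ then
      (if q = i.castSucc then 2 * Complex.log (r q - r p) else 0) else 0)) =
      2 * Complex.log (r i.castSucc - r i.succ) := by
    rw [Finset.sum_eq_single i.succ]
    · rw [Finset.sum_eq_single i.castSucc]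
      · simp
      · intro b _ hb; simp [hb]
      · intro h; exact absurd (Finset.mem_univ _) h
    · intro b _ hb; simp [hb]
    · intro h; exact absurd (Finset.mem_univ _) h
  have h3 : (∑ p : Fin (m + 1), ∑ q : Fin (m + 1), (if p = i.castSucc then
      (if q = i.succ then 2 * Complex.log (r q - r p) else 0) else 0)) =
      2 * Complex.log (r i.succ - r i.castSucc) := by
    rw [Finset.sum_eq_single i.castSucc]
    · rw [Finset.sum_eq_single i.succ]
      · simp
      · intro b _ hb; simp [hb]
      · intro h; exact absurd (Finset.mem_univ _) h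
    · intro b _ hb; simp [hb]
    · intro h; exact absurd (Finset.mem_univ _) h
  rw [h2, h3]
  have h4 : r i.castSucc - r i.succ = -(r i.succ - r i.castSucc) := by ring
  have h5 : 0 < (r i.succ - r i.castSucc).im := by
    rw [Complex.sub_im]; linarith [hr.1]
  rw [h4, half_twist_root_log h5]
  unfold half_twist_root_L
  ring

theorem half_twist_root (hm : 0 < m) (i : Fin m) {e t : (Fin (m + 1) → ℂ) → ℂ}
    (he : ContinuousOn e (Cham m)) (he' : ∀ r ∈ Cham m, e r ^ KK m = Dr r)
    (ht : ContinuousOn t (KP m i)) (ht' : ∀ r ∈ KP m i, t r ^ KK m = Dr r)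
    (h1 : ∀ r ∈ KP m i, r ∈ Cham m → t r = e r) :
    ∀ r ∈ KP m i, r ∘ sw i ∈ Cham m → e (r ∘ sw i) = (om m)⁻¹ * t r := by
  have hKK : (KK m : ℂ) ≠ 0 := by
    have : KK m ≠ 0 := by unfold KK; positivity
    exact_mod_cast this
  have hslC : ∀ r ∈ Cham m, ∀ p q : Fin (m + 1), p < q → r q - r p ∈ Complex.slitPlane := by
    intro r hr p q hpq
    left
    rw [Complex.sub_re]; linarith [hr p q hpq]
  have hslK : ∀ r ∈ KP m i, ∀ p q : Fin (m + 1), p < q → r q - r p ∈ Complex.slitPlane := by
    intro r hr p q hpq
    by_cases h : p = i.castSucc ∧ q = i.succ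
    · right
      rw [h.1, h.2, Complex.sub_im]
      have := hr.1
      linarith
    · left
      rw [Complex.sub_re]; linarith [hr.2 p q hpq h]
  set E : (Fin (m + 1) → ℂ) → ℂ := fun r => Complex.exp (half_twist_root_L r / (KK m : ℂ)) with hE
  have hE0 : ∀ r, E r ≠ 0 := fun r => Complex.exp_ne_zero _
  have hEp : ∀ r ∈ Conf m, E r ^ KK m = Dr r := by
    intro r hr
    rw [← half_twist_root_exp hr, hE]
    simp only
    rw [← Complex.exp_nat_mul]
    congr 1
    field_simp
  have hEC : ContinuousOn E (Cham m) :=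
    ((half_twist_root_cont hslC).div_const _).cexp
  have hEK : ContinuousOn E (KP m i) :=
    ((half_twist_root_cont hslK).div_const _).cexp
  obtain ⟨j, hj⟩ := root_const (Cham_convex m).isPreconnected hm hEC he
    (fun v _ => hE0 v) (fun v hv => by rw [he' v hv, hEp v (Cham_conf hv)])
  obtain ⟨j', hj'⟩ := root_const (KP_convex m i).isPreconnected hm hEK ht
    (fun v _ => hE0 v) (fun v hv => by rw [ht' v hv, hEp v (KP_conf hv)])
  -- common point
  have hjj : om m ^ (j' : ℕ) = om m ^ (j : ℕ) := by
    set r0 : Fin (m + 1) → ℂ := fun p => ⟨(p : ℝ), if p = i.succ then 1 else 0⟩ with hr0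
    have hC : r0 ∈ Cham m := by
      intro p q hpq
      rw [Fin.lt_def] at hpq
      simp only [hr0]
      exact_mod_cast hpq
    have hK : r0 ∈ KP m i := by
      refine ⟨?_, fun p q hpq _ => hC p q hpq⟩
      simp only [hr0]
      rw [if_neg]
      · norm_num
      · intro h
        have := congrArg Fin.val h
        simp at this
    have h := h1 r0 hK hC
    rw [hj r0 hC, hj' r0 hK] at h
    exact mul_left_cancel₀ (hE0 r0) h
  intro r hr hrC
  rw [hj _ hrC, hj' r hr, hjj]
  have hEE : E (r ∘ sw i) = (om m)⁻¹ * E r := by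
    simp only [hE, om]
    rw [half_twist_root_sw i hr, ← Complex.exp_neg, ← Complex.exp_add]
    congr 1
    ring
  rw [hEE]
  ring

end LinC
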