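import Pool.Agent.Helper996.LinC.DefsR
import Pool.Agent.Helper996.LinC.DefsG
import Pool.Agent.Helper996.Lin.Defs5b
import Pool.Agent.Helper996.Lin.J_G0_open
import Pool.Agent.Helper996.Lin.J_lab_basic
import Pool.Agent.Helper996.Lin.J_lab_lift
import Pool.Agent.Helper996.Lin.J_lab_holo

set_option autoImplicit false

open Polynomial Set Filter Topology LinS
open scoped Manifold ContDiff

namespace LinC

variable {m n l : ℕ} {f : (Fin m → ℂ) → Fin (n - 1) → ℂ} {s : (Fin (m + 1) → ℂ) → ℝ}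

theorem root_holo_loc352 {E : Type} [NormedAddCommGroup E] [NormedSpace ℂ E] {U : Set E}
    (hU : IsOpen U) {n : ℕ} {φ : E → Fin n → ℂ} (hφ : DifferentiableOn ℂ φ U)
    (hs : ∀ v ∈ U, Squarefree (mpoly n (φ v))) {x : E → ℂ} (hx : ContinuousOn x U)
    (h0 : ∀ v ∈ U, (mpoly n (φ v)).eval (x v) = 0) (v₀ : E) (hv₀ : v₀ ∈ U) :
    DifferentiableAt ℂ x v₀ ∧ ∀ h : E, fderiv ℂ φ v₀ h = 0 → fderiv ℂ x v₀ h = 0 := by
  obtain ⟨ε, hε, hB⟩ := Metric.isOpen_iff.1 hU v₀ hv₀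
  have hsB : ∀ v ∈ Metric.ball v₀ ε, Squarefree (mpoly n (φ v)) := fun v hv => hs v (hB hv)
  have hv₀B : v₀ ∈ Metric.ball v₀ ε := Metric.mem_ball_self hε
  obtain ⟨M, hMc, hML⟩ := lab_lift (convex_ball v₀ ε) (hφ.continuousOn.mono hB) hsB
  have hroot : ∀ v ∈ Metric.ball v₀ ε, ∃ a, x v = M a v := by
    intro v hv
    have h1 := h0 v (hB hv)
    have h2 : mpoly n (φ v) = ∏ a, (X - C (M a v)) := hML v hv
    rw [h2, Polynomial.eval_prod, Finset.prod_eq_zero_iff] at h1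
    obtain ⟨a, -, ha⟩ := h1
    refine ⟨a, ?_⟩
    rw [eval_sub, eval_X, eval_C] at ha
    exact sub_eq_zero.1 ha
  obtain ⟨a, ha⟩ := hroot v₀ hv₀B
  have hinj := lab_inj (hML v₀ hv₀B) (hsB v₀ hv₀B)
  have hxc : ContinuousAt x v₀ := hx.continuousAt (hU.mem_nhds hv₀)
  have hMca : ∀ b, ContinuousAt (M b) v₀ := fun b =>
    (hMc b).continuousAt (Metric.isOpen_ball.mem_nhds hv₀B)
  have hne : ∀ᶠ v in 𝓝 v₀, ∀ b, b ≠ a → M b v ≠ x v := by
    rw [Filter.eventually_all]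
    intro b
    by_cases hb : b = a
    · exact Filter.Eventually.of_forall fun v h => (h hb).elim
    · have h1 : M b v₀ ≠ x v₀ := by
        rw [ha]
        exact fun h => hb (hinj h)
      have h2 : ∀ᶠ v in 𝓝 v₀, M b v ≠ x v := ((hMca b).prodMk hxc).eventually (isOpen_ne_fun continuous_fst continuous_snd |>.mem_nhds h1)
      exact h2.mono fun v hv _ => hv
  have heq : x =ᶠ[𝓝 v₀] M a := by
    filter_upwards [hne, Metric.isOpen_ball.mem_nhds hv₀B] with v h1 h2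
    obtain ⟨b, hb⟩ := hroot v h2
    by_cases hba : b = a
    · rw [hb, hba]
    · exact (h1 b hba hb.symm).elim
  have hh := lab_holo Metric.isOpen_ball (hφ.mono hB) hsB hMc hML a
  have hd : DifferentiableAt ℂ (M a) v₀ :=
    hh.1.differentiableAt (Metric.isOpen_ball.mem_nhds hv₀B)
  refine ⟨hd.congr_of_eventuallyEq heq, ?_⟩
  intro h hh0
  rw [heq.fderiv_eq]
  exact hh.2 v₀ hv₀B h hh0

theorem root_holo {E : Type} [NormedAddCommGroup E] [NormedSpace ℂ E] {U : Set E}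
    (hU : IsOpen U) {n : ℕ} {φ : E → Fin n → ℂ} (hφ : DifferentiableOn ℂ φ U)
    (hs : ∀ v ∈ U, Squarefree (mpoly n (φ v))) {x : E → ℂ} (hx : ContinuousOn x U)
    (h0 : ∀ v ∈ U, (mpoly n (φ v)).eval (x v) = 0) :
    DifferentiableOn ℂ x U ∧ ∀ v ∈ U, ∀ h : E, fderiv ℂ φ v h = 0 → fderiv ℂ x v h = 0 :=
  ⟨fun v hv => (root_holo_loc352 hU hφ hs hx h0 v hv).1.differentiableWithinAt,
    fun v hv => (root_holo_loc352 hU hφ hs hx h0 v hv).2⟩

end LinC
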