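import Pool.Agent.Helper996.LinC.DefsR
import Pool.Agent.Helper996.LinC.DefsG
import Pool.Agent.Helper996.Lin.Defs5b
import Pool.Agent.Helper996.Lin.J_G0_open
import Pool.Agent.Helper996.Lin.J_emb_Fof
import Pool.Agent.Helper996.LinC.G_discr
import Pool.Agent.Helper996.LinC.G_nr
import Pool.Agent.Helper996.LinC.G_root
import Pool.Agent.Helper996.LinC.G_rholo

set_option autoImplicit false

open Polynomial Set Filter Topology LinS
open scoped Manifold ContDiff

namespace LinC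

variable {m n l : ℕ} {f : (Fin m → ℂ) → Fin (n - 1) → ℂ} {s : (Fin (m + 1) → ℂ) → ℝ}

/-- `emb` as a continuous linear map -/
noncomputable def bl_hol_embL (n : ℕ) : (Fin (n - 1) → ℂ) →L[ℂ] (Fin n → ℂ) :=
  ContinuousLinearMap.pi (fun i => if h : (i : ℕ) < n - 1 then
    (ContinuousLinearMap.proj (R := ℂ) (φ := fun _ : Fin (n - 1) => ℂ) ⟨i, h⟩) else 0)

theorem bl_hol_embL_apply (n : ℕ) (w : Fin (n - 1) → ℂ) : bl_hol_embL n w = emb n w := by
  funext i
  unfold bl_hol_embL emb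
  simp only [ContinuousLinearMap.coe_pi']
  split_ifs <;> rfl

theorem bl_hol_eta (hm : 0 < m)
    {E : Type} [NormedAddCommGroup E] [NormedSpace ℂ E] {U : Set E} (hU : IsOpen U)
    {H : E → Fin (m + 1) → ℂ} (hH : DifferentiableOn ℂ H U) (hHc : ∀ v ∈ U, H v ∈ Conf m)
    {x η : E → ℂ} (hη : ContinuousOn η U)
    (hB : ∀ v ∈ U, Bl f s (H v) (η v) (x v)) : DifferentiableOn ℂ η U := by
  intro v₀ hv₀
  obtain ⟨e, V, hVo, hrV, hVC, hed, he⟩ := root_branch hm (hHc v₀ hv₀)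
  have hHat : DifferentiableAt ℂ H v₀ := (hH v₀ hv₀).differentiableAt (hU.mem_nhds hv₀)
  have hnb : U ∩ H ⁻¹' V ∈ 𝓝 v₀ :=
    Filter.inter_mem (hU.mem_nhds hv₀) (hHat.continuousAt.preimage_mem_nhds (hVo.mem_nhds hrV))
  obtain ⟨δ, hδ, hball⟩ := Metric.mem_nhds_iff.mp hnb
  have hpre : IsPreconnected (Metric.ball v₀ δ) := (convex_ball v₀ δ).isPreconnected
  have hec : ContinuousOn (fun v => e (H v)) (Metric.ball v₀ δ) :=
    hed.continuousOn.comp (hH.continuousOn.mono fun v hv => (hball hv).1) fun v hv => (hball hv).2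
  obtain ⟨j, hj⟩ := root_const hpre hm hec (hη.mono fun v hv => (hball hv).1)
    (fun v hv => (he (H v) (hball hv).2).2)
    (fun v hv => by rw [(hB v (hball hv).1).1, (he (H v) (hball hv).2).1])
  have hd1 : DifferentiableAt ℂ (fun v => e (H v) * om m ^ (j : ℕ)) v₀ := by
    have h1 : DifferentiableAt ℂ e (H v₀) := (hed (H v₀) hrV).differentiableAt (hVo.mem_nhds hrV)
    exact (h1.comp v₀ hHat).mul_const _
  have hev : η =ᶠ[𝓝 v₀] fun v => e (H v) * om m ^ (j : ℕ) := by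
    filter_upwards [Metric.ball_mem_nhds v₀ hδ] with v hv
    exact hj v hv
  exact (hd1.congr_of_eventuallyEq hev).differentiableWithinAt

theorem bl_hol_Nr {E : Type} [NormedAddCommGroup E] [NormedSpace ℂ E] {U : Set E}
    {H : E → Fin (m + 1) → ℂ} (hH : DifferentiableOn ℂ H U)
    {η : E → ℂ} (hηd : DifferentiableOn ℂ η U) (hη0 : ∀ v ∈ U, η v ≠ 0) :
    DifferentiableOn ℂ (fun v => Nr (H v) (η v)) U := by
  have h1 : DifferentiableOn ℂ (fun v => (H v, η v)) U := hH.prodMk hηd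
  have h2 : MapsTo (fun v => (H v, η v)) U {x : (Fin (m + 1) → ℂ) × ℂ | x.2 ≠ 0} := by
    intro v hv
    show η v ≠ 0
    exact hη0 v hv
  have h3 := DifferentiableOn.comp (g := fun x : (Fin (m + 1) → ℂ) × ℂ => Nr x.1 x.2)
    (f := fun v => (H v, η v)) (Nr_diff (m := m)) h1 h2
  exact h3

/-- holomorphy inside the blocks -/
theorem bl_hol (hf : GoodS m n l f) (hs : GoodSh m n f s) (hm : 0 < m) (hn : 1 ≤ n)
    {E : Type} [NormedAddCommGroup E] [NormedSpace ℂ E] {U : Set E} (hU : IsOpen U)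
    {H : E → Fin (m + 1) → ℂ} (hH : DifferentiableOn ℂ H U) (hHc : ∀ v ∈ U, H v ∈ Conf m)
    {x η : E → ℂ} (hx : ContinuousOn x U) (hη : ContinuousOn η U)
    (hB : ∀ v ∈ U, Bl f s (H v) (η v) (x v)) :
    DifferentiableOn ℂ η U ∧ (∀ v ∈ U, Nr (H v) (η v) ∈ SG (m + 1)) ∧
      DifferentiableOn ℂ (fun v => Nr (H v) (η v)) U ∧
      DifferentiableOn ℂ (fun v => x v - Bc s (H v) (η v)) U ∧
      ∀ v ∈ U, ∀ u : E, fderiv ℂ (fun v => f (Nr (H v) (η v))) v u = 0 →
        fderiv ℂ (fun v => x v - Bc s (H v) (η v)) v u = 0 := by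
  have hK : 0 < KK m := by unfold KK; positivity
  have hη0 : ∀ v ∈ U, η v ≠ 0 := by
    intro v hv h
    have h1 := (hB v hv).1
    rw [h, zero_pow hK.ne'] at h1
    exact Dr_ne (hHc v hv) h1.symm
  have hηd : DifferentiableOn ℂ η U := bl_hol_eta hm hU hH hHc hη hB
  have hmem : ∀ v ∈ U, Nr (H v) (η v) ∈ SG (m + 1) := fun v hv =>
    Nr_mem (hHc v hv) (hB v hv).1
  have hNd : DifferentiableOn ℂ (fun v => Nr (H v) (η v)) U := bl_hol_Nr hH hηd hη0
  have hfd : DifferentiableOn ℂ (fun v => f (Nr (H v) (η v))) U :=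
    hf.comp hU (fun v => Nr (H v) (η v)) hNd hmem
  have hφe : ∀ v, emb n (f (Nr (H v) (η v))) = bl_hol_embL n (f (Nr (H v) (η v))) := fun v =>
    (bl_hol_embL_apply n _).symm
  have hφd : DifferentiableOn ℂ (fun v => emb n (f (Nr (H v) (η v)))) U := by
    simp only [hφe]
    exact (bl_hol_embL n).differentiable.comp_differentiableOn hfd
  have hsq : ∀ v ∈ U, Squarefree (mpoly n (emb n (f (Nr (H v) (η v))))) := by
    intro v hv
    rw [emb_poly n hn]
    exact (SG_lab hn (hf.maps _ (hmem v hv))).1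
  have hBc : ContinuousOn (fun v => Bc s (H v) (η v)) U := by
    unfold Bc
    refine ContinuousOn.mul ?_ (hη.div ?_ ?_)
    · exact Complex.continuous_ofReal.comp_continuousOn (hs.cont.comp hH.continuousOn hHc)
    · exact Complex.continuous_ofReal.comp_continuousOn hη.norm
    · intro v hv
      exact_mod_cast (norm_ne_zero_iff.mpr (hη0 v hv))
  have hroot : ∀ v ∈ U, (mpoly n (emb n (f (Nr (H v) (η v))))).eval
      (x v - Bc s (H v) (η v)) = 0 := by
    intro v hv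
    rw [emb_poly n hn]
    exact (hB v hv).2
  obtain ⟨h1, h2⟩ := root_holo hU hφd hsq (hx.sub hBc) hroot
  refine ⟨hηd, hmem, hNd, h1, fun v hv u hu => h2 v hv u ?_⟩
  have hfat : DifferentiableAt ℂ (fun v => f (Nr (H v) (η v))) v :=
    (hfd v hv).differentiableAt (hU.mem_nhds hv)
  have h3 : HasFDerivAt (fun v => emb n (f (Nr (H v) (η v))))
      ((bl_hol_embL n).comp (fderiv ℂ (fun v => f (Nr (H v) (η v))) v)) v := by
    simp only [hφe]
    exact (bl_hol_embL n).hasFDerivAt.comp v hfat.hasFDerivAt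
  rw [h3.fderiv, ContinuousLinearMap.comp_apply, hu, map_zero]

end LinC
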