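import Pool.Agent.Helper996.LinC.DefsR
import Pool.Agent.Helper996.LinC.DefsG
import Pool.Agent.Helper996.Lin.Defs5b
import Pool.Agent.Helper996.Lin.J_G0_open
import Pool.Agent.Helper996.Lin.J_charts
import Pool.Agent.Helper996.LinC.G_discr
import Pool.Agent.Helper996.LinC.G_nr
import Pool.Agent.Helper996.LinC.G_root
import Pool.Agent.Helper996.LinC.G_fh
import Pool.Agent.Helper996.LinC.G_bl
import Pool.Agent.Helper996.LinC.G_blc
import Pool.Agent.Helper996.LinC.G_rel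
import Pool.Agent.Helper996.LinC.G_hol

set_option autoImplicit false

open Polynomial Set Filter Topology LinS
open scoped Manifold ContDiff

namespace LinC

variable {m n l : ℕ} {f : (Fin m → ℂ) → Fin (n - 1) → ℂ} {s : (Fin (m + 1) → ℂ) → ℝ}

theorem hol_S_Bl (hs : GoodSh m n f s) {r : Fin (m + 1) → ℂ} (hr : r ∈ Conf m) {η x y : ℂ}
    (h : Bl f s r η x) (hxy : relS f s r x y) : Bl f s r η y := by
  obtain ⟨η', h1, h2⟩ := hxy
  have e : η = η' := hs.sep r hr _ _ _ h h1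
  rw [e]
  exact h2

theorem hol_S (hf : GoodS m n l f) (hs : GoodSh m n f s) (hm : 0 < m) (hn : 1 ≤ n)
    {E : Type} [NormedAddCommGroup E] [NormedSpace ℂ E] {U : Set E} (hU : IsOpen U)
    (H : E → Fin (m + 1) → ℂ) (hH : DifferentiableOn ℂ H U) (hHc : ∀ v ∈ U, H v ∈ Conf m)
    (M : Fin (KK m * n) → E → ℂ) (hM : ∀ a, ContinuousOn (M a) U)
    (hL : ∀ v ∈ U, Lab (Fh f s (H v)) (fun a => M a v)) :
    ∀ a b, (∀ v ∈ U, relS f s (H v) (M a v) (M b v)) →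
    DifferentiableOn ℂ (fun v => M a v - M b v) U := by
  intro a b hrel
  obtain ⟨η, hη, hB⟩ := bl_cont hf hs hm hn hH.continuousOn hHc hM hL a
  have hBb : ∀ v ∈ U, Bl f s (H v) (η v) (M b v) := fun v hv =>
    hol_S_Bl hs (hHc v hv) (hB v hv) (hrel v hv)
  obtain ⟨_, _, _, da, _⟩ := bl_hol hf hs hm hn hU hH hHc (hM a) hη hB
  obtain ⟨_, _, _, db, _⟩ := bl_hol hf hs hm hn hU hH hHc (hM b) hη hBb
  refine (da.sub db).congr ?_
  intro v _
  show M a v - M b v = (M a v - Bc s (H v) (η v)) - (M b v - Bc s (H v) (η v))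
  ring

theorem rank_S (hf : GoodS m n l f) (hs : GoodSh m n f s) (hm : 0 < m) (hn : 1 ≤ n)
    (M : Fin (KK m * n) → (Fin m → ℂ) → ℂ) (hM : ∀ a, ContinuousOn (M a) (UN m))
    (hL : ∀ ζ ∈ UN m, Lab (Fh f s (nest ζ)) (fun a => M a ζ)) (a₀ : Fin (KK m * n)) :
    ∀ ζ ∈ UN m, ∃ S : Submodule ℂ (Fin m → ℂ), m ≤ l + Module.finrank ℂ S ∧ ∀ u ∈ S, ∀ a b,
      relS f s (nest ζ) (M a₀ ζ) (M a ζ) → relS f s (nest ζ) (M a₀ ζ) (M b ζ) →
      fderiv ℂ (fun ζ => M a ζ - M b ζ) ζ u = 0 := by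
  intro ζ hζ
  have hHc : ∀ v ∈ UN m, nest v ∈ Conf m := fun v hv => nest_conf hv
  have hHd : DifferentiableOn ℂ (nest (m := m)) (UN m) := nest_diff.differentiableOn
  obtain ⟨η, hη, hB⟩ := bl_cont hf hs hm hn hHd.continuousOn hHc hM hL a₀
  obtain ⟨_, hSG, dN, _, _⟩ := bl_hol hf hs hm hn (UN_open m) hHd hHc (hM a₀) hη hB
  obtain ⟨S, hS1, hS2⟩ := hf.rank (UN_open m) (fun v => Nr (nest v) (η v)) dN hSG ζ hζ
  refine ⟨S, hS1, fun u hu a b ha hb => ?_⟩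
  have key : ∀ c, relS f s (nest ζ) (M a₀ ζ) (M c ζ) →
      ∀ v ∈ UN m, Bl f s (nest v) (η v) (M c v) := by
    intro c hc v hv
    have h1 := rel_cont_S hf hs hm hn (UN_convex m).isPreconnected nest hHd.continuousOn hHc M hM hL
      ζ hζ v hv a₀ c hc
    exact hol_S_Bl hs (hHc v hv) (hB v hv) h1
  obtain ⟨_, _, _, da, fa⟩ := bl_hol hf hs hm hn (UN_open m) hHd hHc (hM a) hη (key a ha)
  obtain ⟨_, _, _, db, fb⟩ := bl_hol hf hs hm hn (UN_open m) hHd hHc (hM b) hη (key b hb)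
  have hnb : UN m ∈ 𝓝 ζ := (UN_open m).mem_nhds hζ
  have da' := da.differentiableAt hnb
  have db' := db.differentiableAt hnb
  have e : (fun ζ => M a ζ - M b ζ) = fun v => (M a v - Bc s (nest v) (η v)) -
      (M b v - Bc s (nest v) (η v)) := by
    funext v
    ring
  rw [e, fderiv_fun_sub da' db', _root_.sub_apply, fa ζ hζ u (hS2 u hu),
    fb ζ hζ u (hS2 u hu), sub_zero]

end LinC
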