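import Pool.Agent.Helper996.LinC.DefsH

set_option autoImplicit false

open Polynomial Set Filter Topology LinS
open scoped Manifold ContDiff

namespace LinC

theorem GoodS_of {m n l : ℕ} {X : Type*} [TopologicalSpace X] [ChartedSpace (Fin l → ℂ) X]
    [IsManifold 𝓘(ℂ, Fin l → ℂ) ω X] (f₁ : SG (m + 1) → X) (h₁ : HolSG l f₁)
    (f₂ : X → SG n) (h₂ : HolToSG l f₂) :
    ∃ f : (Fin m → ℂ) → Fin (n - 1) → ℂ, GoodS m n l f ∧
      ∀ z : SG (m + 1), f (z : Fin (m + 1 - 1) → ℂ) = f₂ (f₁ z) := by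
  classical
  let f : (Fin m → ℂ) → Fin (n - 1) → ℂ := fun w =>
    if h : (show Fin (m + 1 - 1) → ℂ from w) ∈ SG (m + 1) then
      (f₂ (f₁ ⟨w, h⟩) : Fin (n - 1) → ℂ) else 0
  have hfv : ∀ z : SG (m + 1), f (z : Fin (m + 1 - 1) → ℂ) = f₂ (f₁ z) := by
    intro z
    show dite _ _ _ = _
    rw [dif_pos z.2]
  have hloc : ∀ w : Fin m → ℂ, w ∈ SG (m + 1) → ∃ (O : Set (Fin m → ℂ)) (g : (Fin m → ℂ) → X),
      IsOpen O ∧ w ∈ O ∧ MDifferentiableOn 𝓘(ℂ, Fin m → ℂ) 𝓘(ℂ, Fin l → ℂ) g O ∧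
      ∀ z : Fin m → ℂ, z ∈ SG (m + 1) → z ∈ O → f z = f₂ (g z) := by
    intro w hw
    obtain ⟨O, g, hO, hwO, hg, hgf⟩ := h₁ ⟨w, hw⟩
    refine ⟨O, g, hO, hwO, hg, ?_⟩
    intro z hz hzO
    have h3 := hfv ⟨z, hz⟩
    have h4 := hgf ⟨z, hz⟩ hzO
    have h5 : f z = f₂ (f₁ ⟨z, hz⟩) := h3
    rw [h5, ← h4]
  have hf2 : Continuous (fun x => (f₂ x : Fin (n - 1) → ℂ)) := h₂.continuous
  -- composition with holomorphic maps
  have key : ∀ {E : Type} [NormedAddCommGroup E] [NormedSpace ℂ E] {U : Set E}, IsOpen U →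
      ∀ H : E → Fin m → ℂ, DifferentiableOn ℂ H U → (∀ v ∈ U, H v ∈ SG (m + 1)) →
      ∀ v ∈ U, ∃ g : (Fin m → ℂ) → X,
        MDifferentiableAt 𝓘(ℂ, E) 𝓘(ℂ, Fin l → ℂ) (g ∘ H) v ∧
        (fun v => f (H v)) =ᶠ[𝓝 v] ((fun x => (f₂ x : Fin (n - 1) → ℂ)) ∘ (g ∘ H)) := by
    intro E _ _ U hU H hH hHS v hv
    obtain ⟨O, g, hO, hwO, hg, hgf⟩ := hloc (H v) (hHS v hv)
    have hHd : DifferentiableAt ℂ H v := hH.differentiableAt (hU.mem_nhds hv)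
    refine ⟨g, ?_, ?_⟩
    · have h1 : MDifferentiableAt 𝓘(ℂ, Fin m → ℂ) 𝓘(ℂ, Fin l → ℂ) g (H v) :=
        hg.mdifferentiableAt (hO.mem_nhds hwO)
      exact h1.comp v hHd.mdifferentiableAt
    · have h2 : ∀ᶠ v' in 𝓝 v, H v' ∈ O := hHd.continuousAt.eventually (hO.mem_nhds hwO)
      filter_upwards [hU.mem_nhds hv, h2] with v' hv' hv2
      exact hgf (H v') (hHS v' hv') hv2
  refine ⟨f, ⟨?_, ?_, ?_, ?_⟩, hfv⟩
  · intro w hw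
    have h3 : f w = f₂ (f₁ ⟨w, hw⟩) := hfv ⟨w, hw⟩
    rw [h3]
    exact (f₂ _).2
  · intro w hw
    obtain ⟨O, g, hO, hwO, hg, hgf⟩ := hloc w hw
    have h1 : ContinuousAt g w := (hg.mdifferentiableAt (hO.mem_nhds hwO)).continuousAt
    have h2 : ContinuousAt (fun z => (f₂ (g z) : Fin (n - 1) → ℂ)) w := hf2.continuousAt.comp h1
    refine h2.continuousWithinAt.congr_of_eventuallyEq ?_ (hgf w hw hwO)
    filter_upwards [self_mem_nhdsWithin, mem_nhdsWithin_of_mem_nhds (hO.mem_nhds hwO)] with z hz hzO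
    exact hgf z hz hzO
  · intro E _ _ U hU H hH hHS v hv
    obtain ⟨g, hg, he⟩ := key hU H hH hHS v hv
    have h1 : MDifferentiableAt 𝓘(ℂ, E) 𝓘(ℂ, Fin (n - 1) → ℂ)
        ((fun x => (f₂ x : Fin (n - 1) → ℂ)) ∘ (g ∘ H)) v := (h₂ _).comp v hg
    exact (he.differentiableAt_iff.2 h1.differentiableAt).differentiableWithinAt
  · intro U hU H hH hHS v hv
    obtain ⟨g, hg, he⟩ := key hU H hH hHS v hv
    let T : (Fin m → ℂ) →L[ℂ] (Fin l → ℂ) :=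
      mfderiv 𝓘(ℂ, Fin m → ℂ) 𝓘(ℂ, Fin l → ℂ) (g ∘ H) v
    refine ⟨LinearMap.ker T.toLinearMap, ?_, ?_⟩
    · have h1 := LinearMap.finrank_range_add_finrank_ker T.toLinearMap
      have h2 := Submodule.finrank_le (LinearMap.range T.toLinearMap)
      rw [Module.finrank_fin_fun] at h1 h2
      omega
    · intro u hu
      rw [he.fderiv_eq, ← mfderiv_eq_fderiv, mfderiv_comp v (h₂ _) hg]
      have h5 : (mfderiv 𝓘(ℂ, Fin m → ℂ) 𝓘(ℂ, Fin l → ℂ) (g ∘ H) v) u = 0 := hu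
      show (mfderiv 𝓘(ℂ, Fin l → ℂ) 𝓘(ℂ, Fin (n - 1) → ℂ)
        (fun x => (f₂ x : Fin (n - 1) → ℂ)) ((g ∘ H) v))
        ((mfderiv 𝓘(ℂ, Fin m → ℂ) 𝓘(ℂ, Fin l → ℂ) (g ∘ H) v) u) = 0
      rw [h5]
      exact map_zero _

end LinC
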