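import Pool.Agent.Helper996.LinC.DefsR
import Pool.Agent.Helper996.LinC.DefsG
import Pool.Agent.Helper996.Lin.Defs5b
import Pool.Agent.Helper996.Lin.J_G0_open
import Pool.Agent.Helper996.Lin.J_lab_basic
import Pool.Agent.Helper996.LinC.G_discr
import Pool.Agent.Helper996.LinC.G_nr
import Pool.Agent.Helper996.LinC.G_root
import Pool.Agent.Helper996.LinC.G_fh
import Pool.Agent.Helper996.LinC.G_bl
import Pool.Agent.Helper996.LinC.G_blc

set_option autoImplicit false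

open Polynomial Set Filter Topology LinS
open scoped Manifold ContDiff

namespace LinC

variable {m n l : ℕ} {f : (Fin m → ℂ) → Fin (n - 1) → ℂ} {s : (Fin (m + 1) → ℂ) → ℝ}

theorem rel_cont_S (hf : GoodS m n l f) (hs : GoodSh m n f s) (hm : 0 < m) (hn : 1 ≤ n)
    {V : Type} [TopologicalSpace V] {K : Set V} (hK : IsPreconnected K)
    (H : V → Fin (m + 1) → ℂ) (hH : ContinuousOn H K)
    (hHc : ∀ v ∈ K, H v ∈ Conf m) (M : Fin (KK m * n) → V → ℂ) (hM : ∀ a, ContinuousOn (M a) K)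
    (hL : ∀ v ∈ K, Lab (Fh f s (H v)) (fun a => M a v)) :
    ∀ v ∈ K, ∀ v' ∈ K, ∀ a b, relS f s (H v) (M a v) (M b v) → relS f s (H v') (M a v') (M b v') := by
  intro v hv v' hv' a b hrel
  obtain ⟨x, hxc, hx⟩ := bl_cont hf hs hm hn hH hHc hM hL a
  obtain ⟨y, hyc, hy⟩ := bl_cont hf hs hm hn hH hHc hM hL b
  have hKK : KK m ≠ 0 := by
    unfold KK
    exact Nat.mul_ne_zero (Nat.succ_ne_zero m) hm.ne'
  have hx0 : ∀ v ∈ K, x v ≠ 0 := by
    intro w hw h0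
    have h1 := (hx w hw).1
    rw [h0, zero_pow hKK] at h1
    exact Dr_ne (hHc w hw) h1.symm
  obtain ⟨j, hj⟩ := root_const hK hm hxc hyc hx0 (fun w hw => by rw [(hy w hw).1, (hx w hw).1])
  obtain ⟨η, h1, h2⟩ := hrel
  have e1 : η = x v := hs.sep (H v) (hHc v hv) η (x v) (M a v) h1 (hx v hv)
  have e2 : η = y v := hs.sep (H v) (hHc v hv) η (y v) (M b v) h2 (hy v hv)
  have e3 : x v = x v * om m ^ (j : ℕ) := by
    rw [← hj v hv, ← e1, ← e2]
  have e4 : om m ^ (j : ℕ) = 1 := by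
    have := mul_left_cancel₀ (hx0 v hv) (by rw [mul_one]; exact e3 : x v * 1 = x v * om m ^ (j : ℕ))
    exact this.symm
  have e5 : y v' = x v' := by
    rw [hj v' hv', e4, mul_one]
  refine ⟨x v', hx v' hv', ?_⟩
  rw [← e5]
  exact hy v' hv'

theorem rel_basic (hf : GoodS m n l f) (hs : GoodSh m n f s) (hm : 0 < m) (hn : 1 ≤ n) :
    (∀ r ∈ Conf m, ∀ (σ : Equiv.Perm (Fin (m + 1))) (η x : ℂ),
      Bl f s (r ∘ σ) η x ↔ Bl f s r η x) ∧
    (∀ r ∈ Conf m, ∀ (c η x : ℂ), Bl f s (fun p => r p + c) η x ↔ Bl f s r η x) ∧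
    (∀ r ∈ Conf m, ∀ (σ : Equiv.Perm (Fin (m + 1))) (x y : ℂ),
      relS f s (r ∘ σ) x y ↔ relS f s r x y) ∧
    (∀ r ∈ Conf m, ∀ (c x y : ℂ), relS f s (fun p => r p + c) x y ↔ relS f s r x y) ∧
    (∀ r ∈ Conf m, ∀ M : Fin (KK m * n) → ℂ, Lab (Fh f s r) M → ∀ a, relS f s r (M a) (M a)) ∧
    (∀ r ∈ Conf m, ∀ x y, relS f s r x y → relS f s r y x) ∧
    (∀ r ∈ Conf m, ∀ x y z, relS f s r x y → relS f s r y z → relS f s r x z) := by
  have p1 : ∀ r ∈ Conf m, ∀ (σ : Equiv.Perm (Fin (m + 1))) (η x : ℂ),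
      Bl f s (r ∘ σ) η x ↔ Bl f s r η x := by
    intro r hr σ η x
    unfold Bl Bp Bc
    rw [Dr_symm, Nr_symm, hs.symm r hr σ]
  have p2 : ∀ r ∈ Conf m, ∀ (c η x : ℂ), Bl f s (fun p => r p + c) η x ↔ Bl f s r η x := by
    intro r hr c η x
    unfold Bl Bp Bc
    rw [Dr_transl, Nr_transl, hs.transl r hr c]
  refine ⟨p1, p2, ?_, ?_, ?_, ?_, ?_⟩
  · intro r hr σ x y
    exact exists_congr fun η => and_congr (p1 r hr σ η x) (p1 r hr σ η y)
  · intro r hr c x y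
    exact exists_congr fun η => and_congr (p2 r hr c η x) (p2 r hr c η y)
  · intro r hr M hM a
    obtain ⟨η, h⟩ := bl_exists hs hm hn hr hM a
    exact ⟨η, h, h⟩
  · rintro r hr x y ⟨η, h1, h2⟩
    exact ⟨η, h2, h1⟩
  · rintro r hr x y z ⟨η, h1, h2⟩ ⟨η', h3, h4⟩
    have := hs.sep r hr η η' y h2 h3
    subst this
    exact ⟨η, h1, h4⟩

theorem rel_three (hf : GoodS m n l f) (hs : GoodSh m n f s) (hm : 0 < m) (hn : 3 ≤ n) :
    ∀ r ∈ Conf m, ∀ M : Fin (KK m * n) → ℂ, Lab (Fh f s r) M → ∀ a, ∃ b c, a ≠ b ∧ a ≠ c ∧ b ≠ c ∧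
      relS f s r (M a) (M b) ∧ relS f s r (M a) (M c) := by
  classical
  intro r hr M hM a
  have hn1 : 1 ≤ n := by omega
  obtain ⟨η, h⟩ := bl_exists hs hm hn1 hr hM a
  obtain ⟨-, hcard, -⟩ := bl_poly hf hs hm hn1 hr hM h.1
  have ha : a ∈ Finset.univ.filter (fun a => Bl f s r η (M a)) := by
    simp only [Finset.mem_filter, Finset.mem_univ, true_and]
    exact h
  have h2 : 1 < ((Finset.univ.filter (fun a => Bl f s r η (M a))).erase a).card := by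
    have h3 := Finset.card_erase_of_mem ha
    have h4 : (Finset.univ.filter (fun a => Bl f s r η (M a))).card = n := by
      convert hcard
    omega
  obtain ⟨b, hb, c, hc, hbc⟩ := Finset.one_lt_card.mp h2
  rw [Finset.mem_erase, Finset.mem_filter] at hb hc
  exact ⟨b, c, hb.1.symm, hc.1.symm, hbc, ⟨η, h, hb.2.2⟩, ⟨η, h, hc.2.2⟩⟩

end LinC
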