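import Pool.Agent.Helper996.LinC.DefsR
import Pool.Agent.Helper996.LinC.DefsG
import Pool.Agent.Helper996.Lin.Defs5b
import Pool.Agent.Helper996.Lin.J_G0_open
import Pool.Agent.Helper996.Lin.J_lab_basic
import Pool.Agent.Helper996.Lin.J_lab_lift
import Pool.Agent.Helper996.LinC.G_discr
import Pool.Agent.Helper996.LinC.G_nr
import Pool.Agent.Helper996.LinC.G_root
import Pool.Agent.Helper996.LinC.G_fh
import Pool.Agent.Helper996.LinC.G_bl
import Pool.Agent.Helper996.LinC.G_blc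
import Pool.Agent.Helper996.LinC.G_rel

set_option autoImplicit false

open Polynomial Set Filter Topology LinS
open scoped Manifold ContDiff

namespace LinC

variable {m n l : ℕ} {f : (Fin m → ℂ) → Fin (n - 1) → ℂ} {s : (Fin (m + 1) → ℂ) → ℝ}

theorem path_const_coeff (n i : ℕ) (w : Fin (n - 1) → ℂ) (hi : i < n) :
    (cpoly n w).coeff i = if h : i < n - 1 then w ⟨i, h⟩ else 0 := by
  unfold cpoly
  rw [coeff_add, coeff_X_pow, if_neg (by omega), zero_add, Polynomial.finsetSum_coeff]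
  simp only [coeff_C_mul, coeff_X_pow]
  by_cases h : i < n - 1
  · rw [dif_pos h, Finset.sum_eq_single (⟨i, h⟩ : Fin (n - 1))]
    · simp
    · intro b _ hb
      rw [if_neg, mul_zero]
      intro hc
      apply hb
      exact Fin.ext hc.symm
    · intro hc
      exact absurd (Finset.mem_univ _) hc
  · rw [dif_neg h]
    apply Finset.sum_eq_zero
    intro b _
    rw [if_neg, mul_zero]
    have := b.2
    omega

theorem path_const_inj (n : ℕ) (w w' : Fin (n - 1) → ℂ) (h : cpoly n w = cpoly n w') : w = w' := by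
  funext i
  have hi := i.2
  have h1 := path_const_coeff n i w (by omega)
  have h2 := path_const_coeff n i w' (by omega)
  rw [dif_pos hi] at h1 h2
  rw [h] at h1
  exact h1.symm.trans h2

theorem path_const_sum (n : ℕ) (hn : 1 ≤ n) (w : Fin (n - 1) → ℂ) {ι : Type} (B : Finset ι) (hB : B.card = n)
    (x : ι → ℂ) (h : cpoly n w = ∏ a ∈ B, (X - C (x a))) : ∑ a ∈ B, x a = 0 := by
  have h1 := path_const_coeff n (n - 1) w (by omega)
  rw [dif_neg (lt_irrefl _), h] at h1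
  have h2 := Polynomial.prod_X_sub_C_coeff_card_pred B x (by omega)
  rw [hB, h1] at h2
  exact neg_eq_zero.1 h2.symm

/-- along a path the block polynomial is constant, once the differences inside blocks are -/
theorem path_const (hf : GoodS m n l f) (hs : GoodSh m n f s) (hm : 0 < m) (hn : 1 ≤ n)
    (hc : ∀ (H : ℝ → Fin (m + 1) → ℂ), ContinuousOn H (Icc 0 1) →
      (∀ v ∈ Icc (0 : ℝ) 1, H v ∈ Conf m) → ∀ M : Fin (KK m * n) → ℝ → ℂ,
      (∀ a, ContinuousOn (M a) (Icc 0 1)) →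
      (∀ v ∈ Icc (0 : ℝ) 1, Lab (Fh f s (H v)) (fun a => M a v)) →
      ∀ v ∈ Icc (0 : ℝ) 1, ∀ v' ∈ Icc (0 : ℝ) 1, ∀ a b, relS f s (H v) (M a v) (M b v) →
        M a v - M b v = M a v' - M b v')
    (H : ℝ → Fin (m + 1) → ℂ) (hH : ContinuousOn H (Icc 0 1))
    (hHc : ∀ v ∈ Icc (0 : ℝ) 1, H v ∈ Conf m) (η : ℝ → ℂ) (hη : ContinuousOn η (Icc 0 1))
    (hη' : ∀ v ∈ Icc (0 : ℝ) 1, η v ^ KK m = Dr (H v)) :
    f (Nr (H 0) (η 0)) = f (Nr (H 1) (η 1)) := by
  classical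
  have hg := Fh_good hf hs hm hn
  have h0m : (0 : ℝ) ∈ Icc (0 : ℝ) 1 := ⟨le_refl _, zero_le_one⟩
  have h1m : (1 : ℝ) ∈ Icc (0 : ℝ) 1 := ⟨zero_le_one, le_refl _⟩
  obtain ⟨M, hM, hL⟩ := lab_lift (convex_Icc (0 : ℝ) 1) (φ := fun v => Fh f s (H v))
    (hg.holo.comp hH hHc) (fun v hv => hg.sqf _ (hHc v hv))
  have hη0 : ∀ v ∈ Icc (0 : ℝ) 1, η v ≠ 0 := by
    intro v hv h
    have h1 := hη' v hv
    have hK : KK m ≠ 0 := by
      unfold KK
      positivity
    rw [h, zero_pow hK] at h1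
    exact Dr_ne (hHc v hv) h1.symm
  have hblk : ∀ v ∈ Icc (0 : ℝ) 1, ∀ v' ∈ Icc (0 : ℝ) 1, ∀ a, Bl f s (H v) (η v) (M a v) →
      Bl f s (H v') (η v') (M a v') := by
    intro v hv v' hv' a ha
    obtain ⟨ηa, hηa, hηa'⟩ := bl_cont hf hs hm hn hH hHc hM hL a
    obtain ⟨j, hj⟩ := root_const (isPreconnected_Icc) hm hη hηa hη0
      (fun v hv => (hηa' v hv).1.trans (hη' v hv).symm)
    have h1 : ηa v = η v := hs.sep _ (hHc v hv) _ _ _ (hηa' v hv) ha
    have h2 : om m ^ (j : ℕ) = 1 := by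
      have h3 := hj v hv
      rw [h1] at h3
      exact mul_left_cancel₀ (hη0 v hv) (by rw [mul_one]; exact h3.symm)
    have h3 := hj v' hv'
    rw [h2, mul_one] at h3
    rw [← h3]
    exact hηa' v' hv'
  set B : ℝ → Finset (Fin (KK m * n)) := fun v => Finset.univ.filter (fun a => Bl f s (H v) (η v) (M a v)) with hBdef
  have hBeq : B 1 = B 0 := by
    apply Finset.filter_congr
    intro a _
    exact ⟨hblk 1 h1m 0 h0m a, hblk 0 h0m 1 h1m a⟩
  obtain ⟨p0, c0, _⟩ := bl_poly hf hs hm hn (hHc 0 h0m) (hL 0 h0m) (hη' 0 h0m)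
  obtain ⟨p1, c1, _⟩ := bl_poly hf hs hm hn (hHc 1 h1m) (hL 1 h1m) (hη' 1 h1m)
  change Bp f (H 0) (η 0) = ∏ a ∈ B 0, (X - C (M a 0 - Bc s (H 0) (η 0))) at p0
  change Bp f (H 1) (η 1) = ∏ a ∈ B 1, (X - C (M a 1 - Bc s (H 1) (η 1))) at p1
  change (B 0).card = n at c0
  change (B 1).card = n at c1
  rw [hBeq] at p1 c1
  have s0 := path_const_sum n hn _ (B 0) c0 (fun a => M a 0 - Bc s (H 0) (η 0)) p0
  have s1 := path_const_sum n hn _ (B 0) c0 (fun a => M a 1 - Bc s (H 1) (η 1)) p1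
  have hx : ∀ a ∈ B 0, M a 0 - Bc s (H 0) (η 0) = M a 1 - Bc s (H 1) (η 1) := by
    intro a ha
    have ha' : Bl f s (H 0) (η 0) (M a 0) := (Finset.mem_filter.1 ha).2
    have e : ∀ x : Fin (KK m * n) → ℂ, ∑ b ∈ B 0, x b = 0 → (n : ℂ) * x a = ∑ b ∈ B 0, (x a - x b) := by
      intro x hx
      rw [Finset.sum_sub_distrib, hx, sub_zero, Finset.sum_const, c0, nsmul_eq_mul]
    have e0 := e _ s0
    have e1 := e _ s1
    have e2 : ∑ b ∈ B 0, ((M a 0 - Bc s (H 0) (η 0)) - (M b 0 - Bc s (H 0) (η 0))) =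
        ∑ b ∈ B 0, ((M a 1 - Bc s (H 1) (η 1)) - (M b 1 - Bc s (H 1) (η 1))) := by
      apply Finset.sum_congr rfl
      intro b hb
      have hb' : Bl f s (H 0) (η 0) (M b 0) := (Finset.mem_filter.1 hb).2
      have := hc H hH hHc M hM hL 0 h0m 1 h1m a b ⟨η 0, ha', hb'⟩
      linear_combination this
    have hn0 : (n : ℂ) ≠ 0 := by
      have : n ≠ 0 := by omega
      exact_mod_cast this
    apply mul_left_cancel₀ hn0
    rw [e0, e1]
    exact e2
  apply path_const_inj n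
  have h3 : Bp f (H 0) (η 0) = Bp f (H 1) (η 1) := by
    rw [p0, p1]
    apply Finset.prod_congr rfl
    intro a ha
    rw [hx a ha]
  exact h3

end LinC
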