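import Pool.Agent.Helper996.LinC.DefsR
import Pool.Agent.Helper996.LinC.DefsG
import Pool.Agent.Helper996.Lin.Defs5b
import Pool.Agent.Helper996.Lin.J_G0_open
import Pool.Agent.Helper996.Lin.J_lab_basic
import Pool.Agent.Helper996.LinC.G_discr
import Pool.Agent.Helper996.LinC.G_fh
import Pool.Agent.Helper996.LinC.G_bl
import Pool.Agent.Helper996.LinC.G_rel

set_option autoImplicit false

open Polynomial Set Filter Topology LinS
open scoped Manifold ContDiff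

namespace LinC

variable {m n l : ℕ} {f : (Fin m → ℂ) → Fin (n - 1) → ℂ} {s : (Fin (m + 1) → ℂ) → ℝ}

theorem rigid_S (hf : GoodS m n l f) (hs : GoodSh m n f s) (hm : 0 < m) (hn : 2 ≤ n)
    {V : Type} [TopologicalSpace V] {K : Set V} (hK : IsPreconnected K)
    (H : V → Fin (m + 1) → ℂ) (hH : ContinuousOn H K) (hHc : ∀ v ∈ K, H v ∈ Conf m)
    (M : Fin (KK m * n) → V → ℂ) (hM : ∀ a, ContinuousOn (M a) K)
    (hL : ∀ v ∈ K, Lab (Fh f s (H v)) (fun a => M a v)) (v₀ : V) (hv₀ : v₀ ∈ K)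
    (a₀ : Fin (KK m * n))
    (h : ∀ v ∈ K, ∃ c : ℂ, ∀ a b, relS f s (H v) (M a₀ v) (M a v) →
      relS f s (H v) (M a₀ v) (M b v) → M a v - M b v = c * (M a v₀ - M b v₀)) :
    ∀ v ∈ K, ∀ a b, relS f s (H v) (M a₀ v) (M a v) → relS f s (H v) (M a₀ v) (M b v) →
      M a v - M b v = M a v₀ - M b v₀ := by
  classical
  have hrel : ∀ v ∈ K, ∀ v' ∈ K, ∀ a, relS f s (H v) (M a₀ v) (M a v) →
      relS f s (H v') (M a₀ v') (M a v') :=
    fun v hv v' hv' a h1 => rel_cont_S hf hs hm (by omega) hK H hH hHc M hM hL v hv v' hv' a₀ a h1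
  set B : Finset (Fin (KK m * n)) := Finset.univ.filter (fun a => relS f s (H v₀) (M a₀ v₀) (M a v₀)) with hB
  have facts : ∀ v ∈ K, a₀ ∈ B ∧ B.card = n ∧
      ∏ a ∈ B, ∏ b ∈ B.erase a, (M a v - M b v) = (-1) ^ (n * (n - 1) / 2) := by
    intro v hv
    obtain ⟨η, hη⟩ := bl_exists hs hm (by omega) (hHc v hv) (hL v hv) a₀
    have e : B = Finset.univ.filter (fun a => Bl f s (H v) η (M a v)) := by
      ext a
      simp only [hB, Finset.mem_filter, Finset.mem_univ, true_and]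
      constructor
      · intro h1
        obtain ⟨η', h2, h3⟩ := hrel v₀ hv₀ v hv a h1
        rw [hs.sep (H v) (hHc v hv) η η' _ hη h2]
        exact h3
      · intro h1
        exact hrel v hv v₀ hv₀ a ⟨η, hη, h1⟩
    obtain ⟨-, p1, p2⟩ := bl_poly hf hs hm (by omega) (hHc v hv) (hL v hv) hη.1
    refine ⟨?_, ?_, ?_⟩
    · rw [e, Finset.mem_filter]
      exact ⟨Finset.mem_univ _, hη⟩
    · rw [e]; exact p1
    · rw [e]; exact p2
  have hmemB : ∀ v ∈ K, ∀ a, a ∈ B ↔ relS f s (H v) (M a₀ v) (M a v) := by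
    intro v hv a
    simp only [hB, Finset.mem_filter, Finset.mem_univ, true_and]
    exact ⟨fun h1 => hrel v₀ hv₀ v hv a h1, fun h1 => hrel v hv v₀ hv₀ a h1⟩
  obtain ⟨ha₀, hcard, hprod₀⟩ := facts v₀ hv₀
  obtain ⟨b₁, hb₁, hb₁a⟩ : ∃ b ∈ B, b ≠ a₀ := by
    have : 1 < B.card := by omega
    exact Finset.exists_mem_ne this a₀
  have hinj : Function.Injective (fun a => M a v₀) :=
    lab_inj (hL v₀ hv₀) ((Fh_good hf hs hm (by omega)).sqf (H v₀) (hHc v₀ hv₀))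
  have hd : M a₀ v₀ - M b₁ v₀ ≠ 0 := sub_ne_zero.mpr (fun e => hb₁a (hinj e).symm)
  have hN : 0 < n * (n - 1) := Nat.mul_pos (by omega) (by omega)
  have hroot : ∀ v ∈ K, ∀ c : ℂ, (∀ a b, relS f s (H v) (M a₀ v) (M a v) →
      relS f s (H v) (M a₀ v) (M b v) → M a v - M b v = c * (M a v₀ - M b v₀)) → c ^ (n * (n - 1)) = 1 := by
    intro v hv c hc
    obtain ⟨-, -, hprod⟩ := facts v hv
    have e1 : ∏ a ∈ B, ∏ b ∈ B.erase a, (M a v - M b v) =
        c ^ (n * (n - 1)) * ∏ a ∈ B, ∏ b ∈ B.erase a, (M a v₀ - M b v₀) := by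
      have e2 : ∀ a ∈ B, ∏ b ∈ B.erase a, (M a v - M b v) =
          c ^ (n - 1) * ∏ b ∈ B.erase a, (M a v₀ - M b v₀) := by
        intro a ha
        rw [Finset.prod_congr rfl fun b hb => hc a b ((hmemB v hv a).1 ha)
          ((hmemB v hv b).1 (Finset.mem_of_mem_erase hb)), Finset.prod_mul_distrib, Finset.prod_const,
          Finset.card_erase_of_mem ha, hcard]
      rw [Finset.prod_congr rfl e2, Finset.prod_mul_distrib, Finset.prod_const, hcard, ← pow_mul, mul_comm (n - 1) n]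
    rw [hprod, hprod₀] at e1
    have hne : ((-1 : ℂ)) ^ (n * (n - 1) / 2) ≠ 0 := pow_ne_zero _ (by norm_num)
    have e3 : (c ^ (n * (n - 1)) - 1) * (-1 : ℂ) ^ (n * (n - 1) / 2) = 0 := by
      rw [sub_mul, ← e1, one_mul, sub_self]
    rcases mul_eq_zero.1 e3 with h1 | h1
    · exact sub_eq_zero.1 h1
    · exact absurd h1 hne
  have hfin : {z : ℂ | z ^ (n * (n - 1)) = 1}.Finite := by
    refine (Polynomial.nthRootsFinset (n * (n - 1)) (1 : ℂ)).finite_toSet.subset ?_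
    intro z hz
    have hz' : z ^ (n * (n - 1)) = 1 := hz
    rw [Finset.mem_coe, Polynomial.mem_nthRootsFinset hN]
    exact hz'
  have hcc : ContinuousOn (fun v => (M a₀ v - M b₁ v) / (M a₀ v₀ - M b₁ v₀)) K :=
    ((hM a₀).sub (hM b₁)).div_const _
  have hmaps : MapsTo (fun v => (M a₀ v - M b₁ v) / (M a₀ v₀ - M b₁ v₀)) K {z : ℂ | z ^ (n * (n - 1)) = 1} := by
    intro v hv
    obtain ⟨c, hc⟩ := h v hv
    have h1 := hc a₀ b₁ ((hmemB v hv a₀).1 ha₀) ((hmemB v hv b₁).1 hb₁)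
    show ((M a₀ v - M b₁ v) / (M a₀ v₀ - M b₁ v₀)) ^ (n * (n - 1)) = 1
    rw [h1, mul_div_cancel_right₀ _ hd]
    exact hroot v hv c hc
  intro v hv a b hra hrb
  have hconst := hK.constant_of_mapsTo hfin.isDiscrete hcc hmaps hv hv₀
  simp only [div_self hd] at hconst
  obtain ⟨c, hc⟩ := h v hv
  have h1 := hc a₀ b₁ ((hmemB v hv a₀).1 ha₀) ((hmemB v hv b₁).1 hb₁)
  rw [h1, mul_div_cancel_right₀ _ hd] at hconst
  rw [hc a b hra hrb, hconst, one_mul]

end LinC
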