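import Pool.Agent.Helper996.LinC.DefsR
import Pool.Agent.Helper996.LinC.DefsG
import Pool.Agent.Helper996.Lin.Defs5b
import Pool.Agent.Helper996.Lin.J_G0_open
import Pool.Agent.Helper996.Lin.J_cent
import Pool.Agent.Helper996.LinC.G_discr
import Pool.Agent.Helper996.LinC.G_nr
import Pool.Agent.Helper996.LinC.G_root

set_option autoImplicit false

open Polynomial Set Filter Topology LinS
open scoped Manifold ContDiff

namespace LinC

variable {m n l : ℕ} {f : (Fin m → ℂ) → Fin (n - 1) → ℂ} {s : (Fin (m + 1) → ℂ) → ℝ}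

theorem exists_shift_KK (hm : 0 < m) : 0 < KK m := by
  unfold KK; exact Nat.mul_pos (Nat.succ_pos m) hm

/-- the bound of the roots -/
noncomputable def exists_shift_B (f : (Fin m → ℂ) → Fin (n - 1) → ℂ) (r : Fin (m + 1) → ℂ) (x : ℂ) : ℝ :=
  ∑ j : Fin (KK m), (1 + ∑ i, ‖f (Nr r (x * om m ^ (j : ℕ))) i‖)

theorem exists_shift_ne (hm : 0 < m) {r : Fin (m + 1) → ℂ} (hr : r ∈ Conf m) {x : ℂ}
    (hx : x ^ KK m = Dr r) : x ≠ 0 := by
  intro h
  rw [h, zero_pow (exists_shift_KK hm).ne'] at hx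
  exact Dr_ne hr hx.symm

theorem exists_shift_indep (hm : 0 < m) {r : Fin (m + 1) → ℂ} (hr : r ∈ Conf m) {x y : ℂ}
    (hx : x ^ KK m = Dr r) (hy : y ^ KK m = Dr r) :
    exists_shift_B f r y = exists_shift_B f r x := by
  obtain ⟨σ, hσ⟩ := root_reindex hm (exists_shift_ne hm hr hx) (hy.trans hx.symm)
  unfold exists_shift_B
  simp only [hσ]
  exact Equiv.sum_comp σ (fun j : Fin (KK m) => (1 + ∑ i, ‖f (Nr r (x * om m ^ (j : ℕ))) i‖))

theorem exists_shift_om (m : ℕ) : om m ≠ 0 := by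
  unfold om; exact Complex.exp_ne_zero _

theorem exists_shift_Nr {U : Set (Fin (m + 1) → ℂ)} {e : (Fin (m + 1) → ℂ) → ℂ}
    (he : ContinuousOn e U) (hne : ∀ r ∈ U, e r ≠ 0) :
    ContinuousOn (fun r : Fin (m + 1) → ℂ => Nr r (e r)) U := by
  have h3 : ContinuousOn (fun r : Fin (m + 1) → ℂ => (r, e r)) U := continuousOn_id.prodMk he
  have hN : ContinuousOn (fun x : (Fin (m + 1) → ℂ) × ℂ => Nr x.1 x.2)
      {x : (Fin (m + 1) → ℂ) × ℂ | x.2 ≠ 0} := Nr_diff.continuousOn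
  have hmaps : MapsTo (fun r : Fin (m + 1) → ℂ => (r, e r)) U
      {x : (Fin (m + 1) → ℂ) × ℂ | x.2 ≠ 0} := fun r hr => hne r hr
  have h4 := ContinuousOn.comp hN h3 hmaps
  exact h4

theorem exists_shift_omK (hm : 0 < m) (j : ℕ) : (om m ^ j) ^ KK m = 1 := by
  have h6 := (om_pow (m := m) hm ((KK m : ℤ) * (j : ℤ))).2 ⟨(j : ℤ), rfl⟩
  rw [← pow_mul, mul_comm, ← zpow_natCast]
  push_cast
  exact h6

theorem exists_shift_fNr (hf : GoodS m n l f) {U : Set (Fin (m + 1) → ℂ)}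
    {e : (Fin (m + 1) → ℂ) → ℂ} (hUC : U ⊆ Conf m)
    (he : ContinuousOn e U) (hne : ∀ r ∈ U, e r ≠ 0) (hK : ∀ r ∈ U, e r ^ KK m = Dr r) (i : Fin (n - 1)) :
    ContinuousOn (fun r : Fin (m + 1) → ℂ => ‖f (Nr r (e r)) i‖) U := by
  have h2 := exists_shift_Nr he hne
  have h4 : MapsTo (fun r : Fin (m + 1) → ℂ => Nr r (e r)) U (SG (m + 1)) := by
    intro r hr
    exact Nr_mem (hUC hr) (hK r hr)
  have h5 := ContinuousOn.comp hf.cont h2 h4
  exact ((continuous_apply i).comp_continuousOn h5).norm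

theorem exists_shift_cont (hf : GoodS m n l f) (hm : 0 < m) :
    ContinuousOn (fun r : Fin (m + 1) → ℂ => exists_shift_B f r (e0 r)) (Conf m) := by
  intro r₀ hr₀
  obtain ⟨e, U, hU, hrU, hUC, heD, he⟩ := root_branch hm hr₀
  have h1 : ContinuousOn (fun r : Fin (m + 1) → ℂ => exists_shift_B f r (e r)) U := by
    unfold exists_shift_B
    refine continuousOn_finsetSum _ fun j _ => continuousOn_const.add
      (continuousOn_finsetSum _ fun i _ => ?_)
    refine exists_shift_fNr (e := fun r => e r * om m ^ (j : ℕ)) hf hUC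
      (heD.continuousOn.mul continuousOn_const) ?_ ?_ i
    · intro r hr
      exact mul_ne_zero (he r hr).2 (pow_ne_zero _ (exists_shift_om m))
    · intro r hr
      rw [mul_pow, exists_shift_omK hm, mul_one]
      exact (he r hr).1
  have h2 : ContinuousAt (fun r : Fin (m + 1) → ℂ => exists_shift_B f r (e r)) r₀ :=
    h1.continuousAt (hU.mem_nhds hrU)
  refine ContinuousAt.continuousWithinAt ?_
  refine h2.congr ?_
  filter_upwards [hU.mem_nhds hrU] with r hr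
  exact exists_shift_indep hm (hUC hr) (e0_pow hm r) (he r hr).1

theorem exists_shift_one (r : Fin (m + 1) → ℂ) (x : ℂ) (j : Fin (KK m)) :
    1 + ∑ i, ‖f (Nr r (x * om m ^ (j : ℕ))) i‖ ≤ exists_shift_B f r x := by
  unfold exists_shift_B
  exact Finset.single_le_sum
    (f := fun j : Fin (KK m) => (1 + ∑ i, ‖f (Nr r (x * om m ^ (j : ℕ))) i‖))
    (fun k _ => by positivity) (Finset.mem_univ j)

theorem exists_shift_root (hm : 0 < m) (hn : 1 ≤ n) {r : Fin (m + 1) → ℂ} (hr : r ∈ Conf m)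
    {η y : ℂ} (hη : η ^ KK m = Dr r) (hy : (Bp f r η).eval y = 0) :
    ‖y‖ ≤ exists_shift_B f r (e0 r) := by
  obtain ⟨j, hj⟩ := root_list hm (exists_shift_ne hm hr (e0_pow hm r)) (hη.trans (e0_pow hm r).symm)
  have hB := exists_shift_one (f := f) r (e0 r) j
  rw [← hj] at hB
  set w := f (Nr r η) with hw
  have hsum : 0 ≤ ∑ i, ‖w i‖ := Finset.sum_nonneg fun i _ => norm_nonneg _
  rcases le_or_gt ‖y‖ 1 with h | h
  · linarith
  · have h0 : y ^ n + ∑ i : Fin (n - 1), w i * y ^ (i : ℕ) = 0 := by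
      have := hy
      unfold Bp cpoly at this
      simpa [Polynomial.eval_finsetSum] using this
    have h1 : ‖y‖ ^ n ≤ (∑ i, ‖w i‖) * ‖y‖ ^ (n - 1) := by
      have h2 : y ^ n = - ∑ i : Fin (n - 1), w i * y ^ (i : ℕ) := eq_neg_of_add_eq_zero_left h0
      rw [← norm_pow, h2, norm_neg, Finset.sum_mul]
      refine (norm_sum_le _ _).trans (Finset.sum_le_sum fun i _ => ?_)
      rw [norm_mul, norm_pow]
      exact mul_le_mul_of_nonneg_left (pow_le_pow_right₀ h.le i.2.le) (norm_nonneg _)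
    have h3 : ‖y‖ ^ n = ‖y‖ * ‖y‖ ^ (n - 1) := by
      rw [← pow_succ']
      congr 1
      omega
    rw [h3] at h1
    have h4 : ‖y‖ ≤ ∑ i, ‖w i‖ := le_of_mul_le_mul_right h1 (pow_pos (by linarith) _)
    linarith

theorem exists_shift_delta (m : ℕ) : ∃ δ : ℝ, 0 < δ ∧ ∀ i j : Fin (KK m),
    om m ^ (i : ℕ) ≠ om m ^ (j : ℕ) → δ ≤ ‖om m ^ (i : ℕ) - om m ^ (j : ℕ)‖ := by
  have h : ∀ᶠ δ in 𝓝[>] (0 : ℝ), ∀ p : Fin (KK m) × Fin (KK m),
      om m ^ (p.1 : ℕ) ≠ om m ^ (p.2 : ℕ) → δ ≤ ‖om m ^ (p.1 : ℕ) - om m ^ (p.2 : ℕ)‖ := by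
    refine Filter.eventually_all.2 fun p => ?_
    by_cases hp : om m ^ (p.1 : ℕ) = om m ^ (p.2 : ℕ)
    · exact Filter.Eventually.of_forall fun δ h => absurd hp h
    · have hpos : 0 < ‖om m ^ (p.1 : ℕ) - om m ^ (p.2 : ℕ)‖ := norm_pos_iff.2 (sub_ne_zero.2 hp)
      filter_upwards [Ioc_mem_nhdsGT hpos] with δ hδ _
      exact hδ.2
  obtain ⟨δ, h1, h2⟩ := (h.and self_mem_nhdsWithin).exists
  exact ⟨δ, h2, fun i j hij => h1 (i, j) hij⟩

theorem exists_shift (hf : GoodS m n l f) (hm : 0 < m) (hn : 1 ≤ n) : ∃ s, GoodSh m n f s := by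
  obtain ⟨δ, hδ, hsep⟩ := exists_shift_delta m
  refine ⟨fun r => 3 * exists_shift_B f r (e0 r) / δ, ?_, ?_, ?_, ?_⟩
  · exact (continuousOn_const.mul (exists_shift_cont hf hm)).div_const δ
  · intro r _ σ
    have h1 : e0 (r ∘ σ) = e0 r := by unfold e0; rw [Dr_symm]
    have h2 : exists_shift_B f (r ∘ σ) (e0 r) = exists_shift_B f r (e0 r) := by
      unfold exists_shift_B
      simp only [Nr_symm]
    rw [h1, h2]
  · intro r _ c
    have h1 : e0 (fun p => r p + c) = e0 r := by unfold e0; rw [Dr_transl]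
    have h2 : exists_shift_B f (fun p => r p + c) (e0 r) = exists_shift_B f r (e0 r) := by
      unfold exists_shift_B
      simp only [Nr_transl]
    rw [h1, h2]
  · rintro r hr η η' x ⟨h1, h2⟩ ⟨h3, h4⟩
    by_contra hne
    have hK := exists_shift_KK (m := m) hm
    have hη : η ≠ 0 := exists_shift_ne hm hr h1
    have b1 := exists_shift_root hm hn hr h1 h2
    have b2 := exists_shift_root hm hn hr h3 h4
    have hB1 : 1 ≤ exists_shift_B f r (e0 r) := by
      have h5 := exists_shift_one (f := f) r (e0 r) ⟨0, hK⟩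
      have h6 : 0 ≤ ∑ i, ‖f (Nr r (e0 r * om m ^ ((⟨0, hK⟩ : Fin (KK m)) : ℕ))) i‖ :=
        Finset.sum_nonneg fun i _ => norm_nonneg _
      linarith
    obtain ⟨j, hj⟩ := root_list hm hη (h3.trans h1.symm)
    have hnorm : ‖η'‖ = ‖η‖ := by
      have h5 : ‖η'‖ ^ KK m = ‖η‖ ^ KK m := by rw [← norm_pow, ← norm_pow, h1, h3]
      exact (pow_left_inj₀ (norm_nonneg _) (norm_nonneg _) hK.ne').1 h5
    have hom : om m ^ (((⟨0, hK⟩ : Fin (KK m)) : ℕ)) ≠ om m ^ (j : ℕ) := by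
      intro h5
      apply hne
      rw [hj, ← h5]
      simp
    have hd := hsep _ _ hom
    simp only [pow_zero] at hd
    have hnη : (‖η‖ : ℂ) ≠ 0 := by exact_mod_cast (norm_pos_iff.2 hη).ne'
    set S : ℝ := 3 * exists_shift_B f r (e0 r) / δ with hS
    have hS0 : 0 ≤ S := by positivity
    have hdiff : ((x - (S : ℂ) * (η' / (‖η'‖ : ℂ))) - (x - (S : ℂ) * (η / (‖η‖ : ℂ)))) =
        (S : ℂ) * (η / (‖η‖ : ℂ)) * (1 - om m ^ (j : ℕ)) := by
      rw [hnorm]
      conv_lhs => rw [hj]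
      ring
    have hn1 : ‖(x - (S : ℂ) * (η' / (‖η'‖ : ℂ))) - (x - (S : ℂ) * (η / (‖η‖ : ℂ)))‖ =
        S * ‖1 - om m ^ (j : ℕ)‖ := by
      rw [hdiff, norm_mul, norm_mul, norm_div, Complex.norm_real, Complex.norm_real, norm_norm,
        div_self (norm_pos_iff.2 hη).ne', mul_one, Real.norm_of_nonneg hS0]
    have hn2 : ‖(x - (S : ℂ) * (η' / (‖η'‖ : ℂ))) - (x - (S : ℂ) * (η / (‖η‖ : ℂ)))‖ ≤
        exists_shift_B f r (e0 r) + exists_shift_B f r (e0 r) :=
      (norm_sub_le _ _).trans (add_le_add b2 b1)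
    have hn3 : S * δ ≤ S * ‖1 - om m ^ (j : ℕ)‖ := mul_le_mul_of_nonneg_left hd hS0
    have hn4 : S * δ = 3 * exists_shift_B f r (e0 r) := by
      rw [hS]; field_simp
    linarith

end LinC
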