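import Pool.Agent.Helper996.LinC.DefsR
import Pool.Agent.Helper996.LinC.DefsG
import Pool.Agent.Helper996.Lin.Defs5b
import Pool.Agent.Helper996.Lin.J_G0_open
import Pool.Agent.Helper996.Lin.J_charts
import Pool.Agent.Helper996.LinC.G_discr
import Pool.Agent.Helper996.LinC.G_root
import Pool.Agent.Helper996.LinC.G_bl
import Pool.Agent.Helper996.LinC.G_blc
import Pool.Agent.Helper996.LinC.G_rel
import Pool.Agent.Helper996.LinC.G_half

set_option autoImplicit false

open Polynomial Set Filter Topology LinS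
open scoped Manifold ContDiff

namespace LinC

variable {m n l : ℕ} {f : (Fin m → ℂ) → Fin (n - 1) → ℂ} {s : (Fin (m + 1) → ℂ) → ℝ}

theorem shift_S_pt (i : Fin m) : ∃ r ∈ Cham m, r ∘ sw i ∈ KP m i := by
  have hne : i.succ ≠ i.castSucc := by
    intro h
    have := congrArg Fin.val h
    simp at this
  have hre : ∀ p : Fin (m + 1), (((p : ℕ) : ℂ) + (if p = i.castSucc then Complex.I else 0)).re =
      (p : ℕ) := by
    intro p
    split_ifs <;> simp
  refine ⟨fun p => ((p : ℕ) : ℂ) + (if p = i.castSucc then Complex.I else 0), ?_, ?_, ?_⟩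
  · intro p q hpq
    show (((p : ℕ) : ℂ) + _).re < (((q : ℕ) : ℂ) + _).re
    rw [hre, hre]
    exact_mod_cast hpq
  · simp only [Function.comp_apply, sw, Equiv.swap_apply_left, Equiv.swap_apply_right]
    rw [if_neg hne]
    simp
  · intro p q hpq hpq'
    simp only [Function.comp_apply]
    rw [hre, hre]
    have h1 : (i.castSucc : ℕ) = i := rfl
    have h2 : (i.succ : ℕ) = i + 1 := rfl
    have hpq1 : (p : ℕ) < q := hpq
    have key : ((sw i p : Fin (m + 1)) : ℕ) < (sw i q : Fin (m + 1)) := by
      unfold sw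
      rw [Equiv.swap_apply_def, Equiv.swap_apply_def]
      by_cases hp1 : p = i.castSucc
      · have hq1 : q ≠ i.castSucc := by
          rintro rfl
          rw [hp1] at hpq1
          exact lt_irrefl _ hpq1
        have hq2 : q ≠ i.succ := fun h => hpq' ⟨hp1, h⟩
        rw [if_pos hp1, if_neg hq1, if_neg hq2]
        have hq3 : (q : ℕ) ≠ i + 1 := fun h => hq2 (Fin.ext h)
        rw [hp1] at hpq1
        omega
      · have hp1' : (p : ℕ) ≠ i := fun h => hp1 (Fin.ext h)
        by_cases hp2 : p = i.succ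
        · have hq1 : q ≠ i.castSucc := by
            rintro rfl
            rw [hp2] at hpq1
            omega
          have hq2 : q ≠ i.succ := by
            rintro rfl
            rw [hp2] at hpq1
            exact lt_irrefl _ hpq1
          rw [if_neg hp1, if_pos hp2, if_neg hq1, if_neg hq2]
          rw [hp2] at hpq1
          omega
        · have hp2' : (p : ℕ) ≠ i + 1 := fun h => hp2 (Fin.ext h)
          rw [if_neg hp1, if_neg hp2]
          split_ifs with h3 h4
          · rw [h3] at hpq1
            omega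
          · rw [h4] at hpq1
            omega
          · exact hpq1
    exact_mod_cast key

theorem shift_S (hf : GoodS m n l f) (hs : GoodSh m n f s) (hm : 0 < m) (hn : 1 ≤ n)
    (D : Data m (KK m * n) (Fh f s)) :
    (∀ (i i' : Fin m) (a : Fin (KK m * n)), RbD (relS f s) D (D.lam i a) (D.lam i' a)) ∧
    ∀ (a b : Fin (KK m * n)), ∃ q : ℕ, RbD (relS f s) D ((D.lam ⟨0, hm⟩ ^ q) a) b := by
  have hKK : KK m ≠ 0 := by
    unfold KK
    positivity
  have hex := fun a => bl_cont hf hs hm hn (K := Cham m) (H := fun v => v) continuousOn_id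
    (fun v hv => Cham_conf hv) D.μ_cont D.μ_lab a
  choose e hec heB using hex
  have hene : ∀ a, ∀ r ∈ Cham m, e a r ≠ 0 := by
    intro a r hr h0
    have h1 := (heB a r hr).1
    rw [h0, zero_pow hKK] at h1
    exact Dr_ne (Cham_conf hr) h1.symm
  have hpre : IsPreconnected (Cham m) := (Cham_convex m).isPreconnected
  have hconst : ∀ a b, ∃ j : Fin (KK m), ∀ r ∈ Cham m, e b r = e a r * om m ^ (j : ℕ) := by
    intro a b
    apply root_const hpre hm (hec a) (hec b) (hene a)
    intro r hr
    exact (heB b r hr).1.trans (heB a r hr).1.symm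
  have hom : om m ≠ 0 := Complex.exp_ne_zero _
  have hstep : ∀ (i : Fin m) a, ∀ r ∈ Cham m, e (D.lam i a) r = e a r * om m := by
    intro i a
    obtain ⟨t, htc, htB⟩ := bl_cont hf hs hm hn (K := KP m i) (H := fun v => v) continuousOn_id
      (fun v hv => KP_conf hv) (D.T_cont i) (D.T_lab i) a
    have h1 := half_twist_root hm i (hec a) (fun r hr => (heB a r hr).1) htc
      (fun r hr => (htB r hr).1) (by
        intro r hr hr'
        apply hs.sep r (Cham_conf hr') _ _ (D.μ a r)
        · have h2 := htB r hr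
          rw [D.T_eq i r hr hr' a] at h2
          exact h2
        · exact heB a r hr')
    obtain ⟨r', hr', hr'K⟩ := shift_S_pt i
    have hinv : (r' ∘ sw i) ∘ sw i = r' := by
      funext p
      simp [sw]
    have h2 := h1 (r' ∘ sw i) hr'K (by rw [hinv]; exact hr')
    rw [hinv] at h2
    have h3 : t (r' ∘ sw i) = e (D.lam i a) r' := by
      apply hs.sep r' (Cham_conf hr') _ _ (D.μ (D.lam i a) r')
      · have h4 := htB (r' ∘ sw i) hr'K
        rw [D.T_sw i _ hr'K (by rw [hinv]; exact hr') a, hinv] at h4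
        exact ((rel_basic hf hs hm hn).1 r' (Cham_conf hr') (sw i) _ _).1 h4
      · exact heB _ r' hr'
    rw [h3] at h2
    obtain ⟨j, hj⟩ := hconst a (D.lam i a)
    have h5 := hj r' hr'
    have h6 : om m ^ (j : ℕ) = om m := by
      have h7 : e a r' * om m ^ (j : ℕ) = e a r' * om m := by
        rw [← h5]
        rw [h2]
        field_simp
      exact mul_left_cancel₀ (hene a r' hr') h7
    intro r hr
    rw [hj r hr, h6]
  obtain ⟨r₀, hr₀, -⟩ := shift_S_pt (⟨0, hm⟩ : Fin m)
  refine ⟨?_, ?_⟩
  · intro i i' a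
    refine ⟨r₀, hr₀, e (D.lam i a) r₀, heB _ r₀ hr₀, ?_⟩
    rw [hstep i a r₀ hr₀, ← hstep i' a r₀ hr₀]
    exact heB _ r₀ hr₀
  · intro a b
    have hpow : ∀ q : ℕ, ∀ r ∈ Cham m, e ((D.lam ⟨0, hm⟩ ^ q) a) r = e a r * om m ^ q := by
      intro q
      induction q with
      | zero => intro r _; simp
      | succ q ih =>
        intro r hr
        rw [pow_succ', Equiv.Perm.mul_apply, hstep _ _ r hr, ih r hr, pow_succ]
        ring
    obtain ⟨j, hj⟩ := hconst a b
    refine ⟨j, r₀, hr₀, e b r₀, ?_, heB _ r₀ hr₀⟩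
    rw [hj r₀ hr₀, ← hpow j r₀ hr₀]
    exact heB _ r₀ hr₀

end LinC
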