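import Pool.Agent.Helper996.LinC.DefsR
import Pool.Agent.Helper996.Lin.J_lab_basic
import Pool.Agent.Helper996.Lin.J_lab_lift
import Pool.Agent.Helper996.Lin.J_charts

set_option autoImplicit false

open Polynomial Set Filter Topology LinS

namespace LinC

variable {m n l : ℕ} {F : (Fin (m + 1) → ℂ) → Fin n → ℂ} {rel : (Fin (m + 1) → ℂ) → ℂ → ℂ → Prop}

theorem rb_cham_ne (m : ℕ) : ∃ r : Fin (m + 1) → ℂ, r ∈ Cham m := by
  refine ⟨fun p => (((p : ℕ) : ℝ) : ℂ), ?_⟩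
  intro p q hpq
  rw [Complex.ofReal_re, Complex.ofReal_re]
  exact_mod_cast hpq

theorem rb_cham_all (hR : GoodR m n F rel l) (D : Data m n F) (a b : Fin n)
    (h : RbD rel D a b) : ∀ r ∈ Cham m, rel r (D.μ a r) (D.μ b r) := by
  obtain ⟨r, hr, h⟩ := h
  intro r' hr'
  exact hR.rel_cont (V := Fin (m + 1) → ℂ) (K := Cham m) (Cham_convex m).isPreconnected
    (fun r => r) continuousOn_id (fun v hv => Cham_conf hv) D.μ D.μ_cont D.μ_lab r hr r' hr' a b h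

theorem rb_cham (hR : GoodR m n F rel l) (D : Data m n F) (a b : Fin n) :
    RbD rel D a b ↔ ∀ r ∈ Cham m, rel r (D.μ a r) (D.μ b r) := by
  constructor
  · exact rb_cham_all hR D a b
  · intro h
    obtain ⟨r, hr⟩ := rb_cham_ne m
    exact ⟨r, hr, h r hr⟩

theorem rb_nest_cont (hR : GoodR m n F rel l) (D : Data m n F) (a b : Fin n) (ζ ζ' : Fin m → ℂ)
    (hζ : ζ ∈ UN m) (hζ' : ζ' ∈ UN m) (h : rel (nest ζ) (D.M a ζ) (D.M b ζ)) :
    rel (nest ζ') (D.M a ζ') (D.M b ζ') :=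
  hR.rel_cont (V := Fin m → ℂ) (K := UN m) (UN_convex m).isPreconnected
    nest nest_diff.continuous.continuousOn (fun v hv => nest_conf hv) D.M D.M_cont D.M_lab
    ζ hζ ζ' hζ' a b h

theorem rb_nest_mem (m : ℕ) : (fun _ : Fin m => ((-1 : ℝ) : ℂ)) ∈ UN m := by
  intro j _
  rw [Complex.ofReal_re]
  norm_num

theorem rb_nest_cham (m : ℕ) : nest (fun _ : Fin m => ((-1 : ℝ) : ℂ)) ∈ Cham m := by
  have hs : ∀ i : Fin m, (nest (fun _ : Fin m => ((-1 : ℝ) : ℂ)) i.succ).re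
      = Real.exp (-(((m - (i : ℕ) : ℕ) : ℝ))) := by
    intro i
    show (Complex.exp (∑ j ∈ Finset.Ici i, (((-1 : ℝ) : ℂ)))).re = _
    rw [Finset.sum_const, Fin.card_Ici, nsmul_eq_mul]
    have : (((m - (i : ℕ) : ℕ) : ℂ) * ((-1 : ℝ) : ℂ)) = ((-(((m - (i : ℕ) : ℕ) : ℝ)) : ℝ) : ℂ) := by
      push_cast
      ring
    rw [this, ← Complex.ofReal_exp, Complex.ofReal_re]
  intro p q hpq
  obtain ⟨j, rfl⟩ : ∃ j : Fin m, q = j.succ := by
    refine Fin.exists_succ_eq.mpr ?_ |>.imp (fun _ h => h.symm)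
    rintro rfl
    exact absurd hpq (Fin.not_lt_zero p)
  rw [hs]
  rcases Fin.eq_zero_or_eq_succ p with rfl | ⟨i, rfl⟩
  · show (0 : ℂ).re < _
    rw [Complex.zero_re]
    exact Real.exp_pos _
  · rw [hs]
    apply Real.exp_lt_exp.mpr
    have h1 : (i : ℕ) < j := by
      exact_mod_cast Fin.succ_lt_succ_iff.mp hpq
    have h2 : (m - (j : ℕ) : ℕ) < (m - (i : ℕ) : ℕ) := by
      have := j.2
      omega
    have h3 : ((m - (j : ℕ) : ℕ) : ℝ) < ((m - (i : ℕ) : ℕ) : ℝ) := by exact_mod_cast h2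
    linarith

theorem rb_nest (hR : GoodR m n F rel l) (D : Data m n F) (a b : Fin n) :
    RbD rel D a b ↔ ∀ ζ ∈ UN m, rel (nest ζ) (D.M a ζ) (D.M b ζ) := by
  constructor
  · intro h ζ hζ
    have h1 := rb_cham_all hR D a b h _ (rb_nest_cham m)
    refine rb_nest_cont hR D a b (fun _ => ((-1 : ℝ) : ℂ)) ζ (rb_nest_mem m) hζ ?_
    rw [D.M_eq (fun _ => -1) (rb_nest_mem m) a, D.M_eq (fun _ => -1) (rb_nest_mem m) b]
    exact h1
  · intro h
    refine ⟨_, rb_nest_cham m, ?_⟩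
    have h1 := h _ (rb_nest_mem m)
    rw [D.M_eq (fun _ => -1) (rb_nest_mem m) a, D.M_eq (fun _ => -1) (rb_nest_mem m) b] at h1
    exact h1

theorem rb_nest_one (hR : GoodR m n F rel l) (D : Data m n F) (a b : Fin n) (ζ : Fin m → ℂ)
    (hζ : ζ ∈ UN m) (h : rel (nest ζ) (D.M a ζ) (D.M b ζ)) : RbD rel D a b := by
  rw [rb_nest hR]
  intro ζ' hζ'
  exact rb_nest_cont hR D a b ζ ζ' hζ hζ' h

theorem rb_equiv (hR : GoodR m n F rel l) (D : Data m n F) : Equivalence (RbD rel D) := by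
  refine ⟨?_, ?_, ?_⟩
  · intro a
    obtain ⟨r, hr⟩ := rb_cham_ne m
    exact ⟨r, hr, hR.rel_refl r (Cham_conf hr) (fun a => D.μ a r) (D.μ_lab r hr) a⟩
  · rintro a b ⟨r, hr, h⟩
    exact ⟨r, hr, hR.rel_comm r (Cham_conf hr) (fun a => D.μ a r) (D.μ_lab r hr) a b h⟩
  · rintro a b c ⟨r, hr, h⟩ h'
    exact ⟨r, hr, hR.rel_trans r (Cham_conf hr) (fun a => D.μ a r) (D.μ_lab r hr) a b c h
      (rb_cham_all hR D b c h' r hr)⟩

theorem rb_lam_sw {m : ℕ} (i : Fin m) (p q : Fin (m + 1)) (hpq : p < q)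
    (h : ¬ (p = i.castSucc ∧ q = i.succ)) : sw i p < sw i q := by
  unfold sw
  rw [Equiv.swap_apply_def, Equiv.swap_apply_def]
  split_ifs <;>
    (simp only [Fin.ext_iff, Fin.val_castSucc, Fin.val_succ, Fin.lt_def] at *; omega)

theorem rb_lam_swsw {m : ℕ} (i : Fin m) (p : Fin (m + 1)) : sw i (sw i p) = p := by
  unfold sw
  rw [Equiv.swap_apply_self]

theorem rb_lam (hR : GoodR m n F rel l) (D : Data m n F) (i : Fin m) (a b : Fin n) :
    RbD rel D (D.lam i a) (D.lam i b) ↔ RbD rel D a b := by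
  let r1 : Fin (m + 1) → ℂ := fun p =>
    (((p : ℕ) : ℝ) : ℂ) + ((if p = i.succ then 1 else 0 : ℝ) : ℂ) * Complex.I
  let r2 : Fin (m + 1) → ℂ := fun p =>
    (((sw i p : ℕ) : ℝ) : ℂ) + ((if p = i.succ then 1 else 0 : ℝ) : ℂ) * Complex.I
  have h1re : ∀ p, (r1 p).re = ((p : ℕ) : ℝ) := by
    intro p
    simp [r1]
  have h2re : ∀ p, (r2 p).re = ((sw i p : ℕ) : ℝ) := by
    intro p
    simp [r2]
  have h1im : ∀ p, (r1 p).im = if p = i.succ then 1 else 0 := by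
    intro p
    simp [r1]
  have h2im : ∀ p, (r2 p).im = if p = i.succ then 1 else 0 := by
    intro p
    simp [r2]
  have hne : i.castSucc ≠ i.succ := (Fin.castSucc_lt_succ).ne
  have hr1C : r1 ∈ Cham m := by
    intro p q hpq
    rw [h1re, h1re]
    exact_mod_cast hpq
  have hr1K : r1 ∈ KP m i := by
    refine ⟨?_, fun p q hpq _ => hr1C p q hpq⟩
    rw [h1im, h1im, if_neg hne, if_pos rfl]
    norm_num
  have hr2K : r2 ∈ KP m i := by
    refine ⟨?_, fun p q hpq h => ?_⟩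
    · rw [h2im, h2im, if_neg hne, if_pos rfl]
      norm_num
    · rw [h2re, h2re]
      exact_mod_cast rb_lam_sw i p q hpq h
  have hr2C : r2 ∘ sw i ∈ Cham m := by
    intro p q hpq
    show (r2 (sw i p)).re < (r2 (sw i q)).re
    rw [h2re, h2re, rb_lam_swsw, rb_lam_swsw]
    exact_mod_cast hpq
  have hcont : ∀ v ∈ KP m i, ∀ v' ∈ KP m i, rel v (D.T i a v) (D.T i b v) →
      rel v' (D.T i a v') (D.T i b v') := by
    intro v hv v' hv' h
    exact hR.rel_cont (V := Fin (m + 1) → ℂ) (K := KP m i) (KP_convex m i).isPreconnected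
      (fun r => r) continuousOn_id (fun v hv => KP_conf hv) (D.T i) (D.T_cont i) (D.T_lab i)
      v hv v' hv' a b h
  have e1 : ∀ a, D.T i a r1 = D.μ a r1 := D.T_eq i r1 hr1K hr1C
  have e2 : ∀ a, D.T i a r2 = D.μ (D.lam i a) (r2 ∘ sw i) := D.T_sw i r2 hr2K hr2C
  constructor
  · intro h
    have h3 := rb_cham_all hR D _ _ h (r2 ∘ sw i) hr2C
    rw [← e2, ← e2, hR.rel_symm r2 (KP_conf hr2K)] at h3
    have h4 := hcont r2 hr2K r1 hr1K h3
    rw [e1, e1] at h4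
    exact ⟨r1, hr1C, h4⟩
  · intro h
    have h3 := rb_cham_all hR D _ _ h r1 hr1C
    rw [← e1, ← e1] at h3
    have h4 := hcont r1 hr1K r2 hr2K h3
    rw [← hR.rel_symm r2 (KP_conf hr2K) (sw i), e2, e2] at h4
    exact ⟨r2 ∘ sw i, hr2C, h4⟩

end LinC
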