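import Pool.Agent.Helper996.LinC.DefsR
import Pool.Agent.Helper996.Lin.J_lab_basic
import Pool.Agent.Helper996.Lin.J_lab_lift
import Pool.Agent.Helper996.Lin.J_wd_basic
import Pool.Agent.Helper996.Lin.J_ultra_one
import Pool.Agent.Helper996.Lin.J_little_picard
import Pool.Agent.Helper996.Lin.J_charts
import Pool.Agent.Helper996.LinC.R_rb

set_option autoImplicit false

open Polynomial Set Filter Topology LinS

namespace LinC

variable {m n l : ℕ} {F : (Fin (m + 1) → ℂ) → Fin n → ℂ} {rel : (Fin (m + 1) → ℂ) → ℂ → ℂ → Prop}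

theorem W_symm_C_per_mem {m : ℕ} (n : ℕ) (j : Fin m) {ζ : Fin m → ℂ} (h : ζ ∈ UN m) :
    ζ + per m n j ∈ UN m := by
  intro i hi
  have h1 := h i hi
  have h2 : (per m n j i).re = 0 := by
    unfold per
    by_cases hij : i = j
    · subst hij
      rw [Pi.single_eq_same]
      have : (2 * (Real.pi : ℂ) * Complex.I * ((n.factorial : ℕ) : ℂ))
          = ((2 * Real.pi * (n.factorial : ℝ) : ℝ) : ℂ) * Complex.I := by
        push_cast; ring
      rw [this, Complex.re_ofReal_mul, Complex.I_re, mul_zero]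
    · rw [Pi.single_eq_of_ne hij, Complex.zero_re]
  rw [Pi.add_apply, Complex.add_re, h2, add_zero]
  exact h1

theorem W_symm_C_UN_ne (m : ℕ) : (UN m).Nonempty := by
  refine ⟨fun _ => -1, fun i _ => ?_⟩
  show ((-1 : ℂ)).re < 0
  norm_num

theorem W_symm_C_inj {m n : ℕ} {F : (Fin (m + 1) → ℂ) → Fin n → ℂ} (hF : GoodC m n F)
    (D : Data m n F) {ζ : Fin m → ℂ} (h : ζ ∈ UN m) {a b : Fin n} (hab : a ≠ b) :
    D.M a ζ ≠ D.M b ζ := by
  intro he
  exact hab (lab_inj (D.M_lab ζ h) (hF.sqf _ (nest_conf h)) he)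

theorem W_symm_C (hF : GoodC m n F) (D : Data m n F) (a b : Fin n) (hab : a ≠ b) (j : Fin m) :
    D.W a b j = D.W b a j := by
  have h1 := (D.W_wd a b hab j).neg
  have h2 : Wd (UN m) (fun ζ => D.M b ζ - D.M a ζ) (per m n j) (D.W a b j) :=
    h1.congr (fun v _ => by ring)
  exact Wd.unique (UN_convex m).isPreconnected (W_symm_C_UN_ne m)
    (fun v hv => W_symm_C_per_mem n j hv) h2 (D.W_wd b a hab.symm j)

theorem W_last_R_diff (hR : GoodR m n F rel l) (D : Data m n F) (a b : Fin n)
    (h : RbD rel D a b) : DifferentiableOn ℂ (fun ζ => D.M a ζ - D.M b ζ) (UN m) :=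
  hR.hol (UN_open m) nest nest_diff.differentiableOn (fun _ hv => nest_conf hv) D.M D.M_cont
    D.M_lab a b ((rb_nest hR D a b).1 h)

theorem W_last_R (hR : GoodR m n F rel l) (D : Data m n F) (j : Fin m) (hj : (j : ℕ) + 1 = m)
    (a b c : Fin n) (hab : a ≠ b) (hac : a ≠ c) (h1 : RbD rel D a b) (h2 : RbD rel D a c) :
    D.W a b j = D.W a c j := by
  have hF := hR.good
  by_cases hbc : b = c
  · rw [hbc]
  obtain ⟨ζ₀, hζ₀⟩ := W_symm_C_UN_ne m
  have hl : ∀ s : ℂ, ζ₀ + (Pi.single j s : Fin m → ℂ) ∈ UN m := by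
    intro s i hi
    have hij : i ≠ j := by
      intro h
      rw [h] at hi
      omega
    rw [Pi.add_apply, Pi.single_eq_of_ne hij, add_zero]
    exact hζ₀ i hi
  have hld : Differentiable ℂ (fun s : ℂ => ζ₀ + (Pi.single j s : Fin m → ℂ)) := by
    rw [differentiable_pi]
    intro i
    by_cases hij : i = j
    · subst hij
      have : (fun s : ℂ => (ζ₀ + (Pi.single i s : Fin m → ℂ)) i) = fun s => ζ₀ i + s := by
        funext s
        rw [Pi.add_apply, Pi.single_eq_same]
      rw [this]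
      exact (differentiable_const _).add differentiable_id
    · have : (fun s : ℂ => (ζ₀ + (Pi.single j s : Fin m → ℂ)) i) = fun s => ζ₀ i := by
        funext s
        rw [Pi.add_apply, Pi.single_eq_of_ne hij, add_zero]
      rw [this]
      exact differentiable_const _
  have hMd : ∀ e : Fin n, RbD rel D a e → Differentiable ℂ
      (fun s : ℂ => D.M a (ζ₀ + (Pi.single j s : Fin m → ℂ)) -
        D.M e (ζ₀ + (Pi.single j s : Fin m → ℂ))) := by
    intro e he s
    have h1 : DifferentiableAt ℂ (fun ζ => D.M a ζ - D.M e ζ)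
        (ζ₀ + (Pi.single j s : Fin m → ℂ)) :=
      (W_last_R_diff hR D a e he).differentiableAt ((UN_open m).mem_nhds (hl s))
    exact h1.comp s (hld s)
  have hconst := little_picard
    (g := fun s => (D.M a (ζ₀ + (Pi.single j s : Fin m → ℂ))
      - D.M b (ζ₀ + (Pi.single j s : Fin m → ℂ)))
      / (D.M a (ζ₀ + (Pi.single j s : Fin m → ℂ)) - D.M c (ζ₀ + (Pi.single j s : Fin m → ℂ))))
    ((hMd b h1).div (hMd c h2)
      (fun s => sub_ne_zero.mpr (W_symm_C_inj hF D (hl s) hac)))
    (fun s => div_ne_zero (sub_ne_zero.mpr (W_symm_C_inj hF D (hl s) hab))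
      (sub_ne_zero.mpr (W_symm_C_inj hF D (hl s) hac)))
    (fun s h => by
      rw [div_eq_one_iff_eq (sub_ne_zero.mpr (W_symm_C_inj hF D (hl s) hac))] at h
      exact W_symm_C_inj hF D (hl s) hbc (sub_right_injective h))
  have hw := ((D.W_wd a b hab j).div (D.W_wd a c hac j)).comp
    (K' := (univ : Set ℂ)) (p' := 2 * Real.pi * Complex.I * (n.factorial : ℂ))
    (f := fun s : ℂ => ζ₀ + (Pi.single j s : Fin m → ℂ)) hld.continuous.continuousOn
    (fun s _ => hl s) (fun s _ => by
      show ζ₀ + (Pi.single j (s + 2 * Real.pi * Complex.I * (n.factorial : ℂ)) : Fin m → ℂ)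
        = ζ₀ + (Pi.single j s : Fin m → ℂ) + per m n j
      unfold per
      rw [Pi.single_add, add_assoc])
  have hw0 : Wd (univ : Set ℂ) (fun s => (D.M a (ζ₀ + (Pi.single j s : Fin m → ℂ))
      - D.M b (ζ₀ + (Pi.single j s : Fin m → ℂ)))
      / (D.M a (ζ₀ + (Pi.single j s : Fin m → ℂ)) - D.M c (ζ₀ + (Pi.single j s : Fin m → ℂ))))
      (2 * Real.pi * Complex.I * (n.factorial : ℂ)) 0 := by
    refine ⟨fun _ => Complex.log ((D.M a (ζ₀ + (Pi.single j (0 : ℂ) : Fin m → ℂ))
      - D.M b (ζ₀ + (Pi.single j (0 : ℂ) : Fin m → ℂ)))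
      / (D.M a (ζ₀ + (Pi.single j (0 : ℂ) : Fin m → ℂ))
        - D.M c (ζ₀ + (Pi.single j (0 : ℂ) : Fin m → ℂ)))), continuousOn_const, ?_, ?_⟩
    · intro v _
      rw [Complex.exp_log]
      · exact hconst 0 v
      · exact div_ne_zero (sub_ne_zero.mpr (W_symm_C_inj hF D (hl 0) hab))
          (sub_ne_zero.mpr (W_symm_C_inj hF D (hl 0) hac))
    · intro v _
      simp
  have := Wd.unique isPreconnected_univ univ_nonempty (fun v _ => mem_univ _) hw hw0
  omega

theorem W_ultra_R (hR : GoodR m n F rel l) (D : Data m n F) (A : Fin m → ℕ) (a b c : Fin n)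
    (hab : a ≠ b) (hac : a ≠ c) (hbc : b ≠ c) (h1 : RbD rel D a b) (h2 : RbD rel D a c)
    (h : ∑ j, A j * D.W a b j < ∑ j, A j * D.W a c j) :
    ∑ j, A j * D.W b c j = ∑ j, A j * D.W a b j := by
  have hF := hR.good
  have hne : (Finset.univ : Finset (Fin m)).Nonempty := by
    by_contra hcon
    rw [Finset.not_nonempty_iff_eq_empty] at hcon
    rw [hcon] at h
    simp at h
  have hl : ∀ s : ℂ, s.re < 0 → (fun j => -1 + (A j : ℂ) * s : Fin m → ℂ) ∈ UN m := by
    intro s hs i _
    show (-1 + (A i : ℂ) * s).re < 0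
    have h1 : ((A i : ℂ) * s).re = (A i : ℝ) * s.re := by
      have : ((A i : ℂ) * s) = ((A i : ℝ) : ℂ) * s := by push_cast; rfl
      rw [this, Complex.re_ofReal_mul]
    have h2 : (A i : ℝ) * s.re ≤ 0 :=
      mul_nonpos_of_nonneg_of_nonpos (Nat.cast_nonneg _) hs.le
    rw [Complex.add_re, h1]
    have h3 : ((-1 : ℂ)).re = -1 := by simp
    rw [h3]
    linarith
  have hld : Differentiable ℂ (fun s : ℂ => (fun j => -1 + (A j : ℂ) * s : Fin m → ℂ)) := by
    rw [differentiable_pi]
    intro i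
    exact (differentiable_const _).add ((differentiable_const _).mul differentiable_id)
  have hMd : ∀ e : Fin n, RbD rel D a e → DifferentiableOn ℂ
      (fun s : ℂ => D.M a (fun j => -1 + (A j : ℂ) * s) - D.M e (fun j => -1 + (A j : ℂ) * s))
      {s | s.re < 0} := by
    intro e he
    exact (W_last_R_diff hR D a e he).comp hld.differentiableOn (fun s hs => hl s hs)
  have hw : ∀ x y : Fin n, x ≠ y → Wd {s : ℂ | s.re < 0}
      (fun s => D.M x (fun j => -1 + (A j : ℂ) * s) - D.M y (fun j => -1 + (A j : ℂ) * s))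
      (2 * Real.pi * Complex.I * (n.factorial : ℕ)) (∑ j, A j * D.W x y j) := by
    intro x y hxy
    have h1 := Wd.sum (UN_convex m).isPreconnected (Finset.univ : Finset (Fin m)) A
      (p := fun j => per m n j) (w := fun j => D.W x y j)
      (g := fun ζ => D.M x ζ - D.M y ζ)
      (fun i _ v hv => W_symm_C_per_mem n i hv) (fun i _ => D.W_wd x y hxy i) hne
    refine h1.comp (K' := {s : ℂ | s.re < 0})
      (f := fun s : ℂ => (fun j => -1 + (A j : ℂ) * s : Fin m → ℂ))
      hld.continuous.continuousOn (fun s hs => hl s hs) ?_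
    intro s _
    funext i
    rw [Pi.add_apply, Finset.sum_apply, Finset.sum_eq_single i]
    · show -1 + (A i : ℂ) * (s + 2 * Real.pi * Complex.I * (n.factorial : ℕ))
        = -1 + (A i : ℂ) * s + (A i • per m n i) i
      rw [Pi.smul_apply]
      unfold per
      rw [Pi.single_eq_same, nsmul_eq_mul]
      ring
    · intro k _ hki
      rw [Pi.smul_apply]
      unfold per
      rw [Pi.single_eq_of_ne (Ne.symm hki), smul_zero]
    · intro hi
      exact absurd (Finset.mem_univ i) hi
  refine ultra_one (c := 0) (p := fun _ => 0)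
    (q := fun s => -(D.M a (fun j => -1 + (A j : ℂ) * s) - D.M b (fun j => -1 + (A j : ℂ) * s)))
    (r := fun s => -(D.M a (fun j => -1 + (A j : ℂ) * s) - D.M c (fun j => -1 + (A j : ℂ) * s)))
    (Nat.factorial_pos n) (differentiableOn_const _) (hMd b h1).neg (hMd c h2).neg
    (fun s hs he => ?_) (fun s hs he => ?_) (fun s hs he => ?_)
    ((hw a b hab).congr (fun s _ => by ring)) ((hw a c hac).congr (fun s _ => by ring))
    ((hw b c hbc).congr (fun s _ => by ring)) h
  · apply W_symm_C_inj hF D (hl s hs) hab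
    have he' : D.M a (fun j => -1 + (A j : ℂ) * s) - D.M b (fun j => -1 + (A j : ℂ) * s) = 0 :=
      neg_eq_zero.1 he.symm
    exact sub_eq_zero.1 he'
  · apply W_symm_C_inj hF D (hl s hs) hac
    have he' : D.M a (fun j => -1 + (A j : ℂ) * s) - D.M c (fun j => -1 + (A j : ℂ) * s) = 0 :=
      neg_eq_zero.1 he.symm
    exact sub_eq_zero.1 he'
  · apply W_symm_C_inj hF D (hl s hs) hbc
    have he' := neg_injective he
    exact sub_right_injective he'

end LinC
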