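import Pool.Agent.Helper996.LinC.DefsR

set_option autoImplicit false

open Polynomial Set Filter Topology LinS

namespace LinC

variable {m n l : ℕ} {F : (Fin (m + 1) → ℂ) → Fin n → ℂ} {rel : (Fin (m + 1) → ℂ) → ℂ → ℂ → Prop}

theorem inv_const_R_sum {n : ℕ} (T : Fin n → Fin n → Fin n → Prop) [∀ a b c, Decidable (T a b c)]
    (G : Fin n → Fin n → ℤ) :
    ∑ a, ∑ b, ((∑ c, if T a b c then (1 : ℤ) else 0) - ∑ c, if T a c b then (1 : ℤ) else 0) * G a b =
      ∑ a, ∑ b, ∑ c, if T a b c then G a b - G a c else 0 := by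
  refine Finset.sum_congr rfl fun a _ => ?_
  have h1 : ∑ b, ((∑ c, if T a b c then (1 : ℤ) else 0) - ∑ c, if T a c b then (1 : ℤ) else 0) * G a b
     = (∑ b, ∑ c, if T a b c then G a b else 0) - ∑ b, ∑ c, if T a c b then G a b else 0 := by
    rw [← Finset.sum_sub_distrib]
    refine Finset.sum_congr rfl fun b _ => ?_
    rw [sub_mul, Finset.sum_mul, Finset.sum_mul]
    simp only [ite_mul, one_mul, zero_mul]
  rw [h1, Finset.sum_comm (f := fun b c => if T a c b then G a b else 0), ← Finset.sum_sub_distrib]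
  refine Finset.sum_congr rfl fun b _ => ?_
  rw [← Finset.sum_sub_distrib]
  refine Finset.sum_congr rfl fun c _ => ?_
  split_ifs <;> simp

theorem inv_const_R_ws {m n : ℕ} (W : Fin n → Fin n → Fin m → ℤ) (lam : Fin m → Equiv.Perm (Fin n))
    (i0 j : Fin m) (K : ℤ)
    (hWS : ∀ (wt : Fin n → Fin n → ℤ), (∀ a, wt a a = 0) →
      (∀ i ≤ j, ∀ a b, wt (lam i a) (lam i b) = wt a b) →
      2 * ∑ a, ∑ b, wt a b * W a b j = K * ∑ a, ∑ b, wt a b * W a b i0)
    (T : Fin n → Fin n → Fin n → Prop) [∀ a b c, Decidable (T a b c)]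
    (hT : ∀ a b c, T a b c → a ≠ b ∧ a ≠ c)
    (hTi : ∀ i ≤ j, ∀ a b c, T (lam i a) (lam i b) (lam i c) ↔ T a b c) :
    2 * ∑ a, ∑ b, ∑ c, (if T a b c then W a b j - W a c j else 0) =
      K * ∑ a, ∑ b, ∑ c, (if T a b c then W a b i0 - W a c i0 else 0) := by
  have h := hWS (fun a b => (∑ c, if T a b c then (1 : ℤ) else 0) - ∑ c, if T a c b then (1 : ℤ) else 0)
    (by
      intro a
      have h1 : ∀ c, ¬ T a a c := fun c hc => (hT a a c hc).1 rfl
      have h2 : ∀ c, ¬ T a c a := fun c hc => (hT a c a hc).2 rfl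
      simp [h1, h2])
    (by
      intro i hi a b
      rw [← Equiv.sum_comp (lam i) (fun c => if T (lam i a) (lam i b) c then (1 : ℤ) else 0),
        ← Equiv.sum_comp (lam i) (fun c => if T (lam i a) c (lam i b) then (1 : ℤ) else 0)]
      simp only [hTi i hi])
  simp only [inv_const_R_sum T] at h
  exact h

/-- if all terms are nonnegative and the sum vanishes, all terms vanish -/
theorem inv_const_R_zero {n : ℕ} (T : Fin n → Fin n → Fin n → Prop) [∀ a b c, Decidable (T a b c)]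
    (G : Fin n → Fin n → ℤ) (h0 : ∀ a b c, T a b c → 0 ≤ G a b - G a c)
    (hs : ∑ a, ∑ b, ∑ c, (if T a b c then G a b - G a c else 0) = 0) :
    ∀ a b c, T a b c → G a b - G a c = 0 := by
  intro a b c ht
  have hnn : ∀ a b c, 0 ≤ (if T a b c then G a b - G a c else 0) := by
    intro a b c
    split_ifs with h
    · exact h0 a b c h
    · exact le_rfl
  have h1 := (Finset.sum_eq_zero_iff_of_nonneg (fun a _ => Finset.sum_nonneg fun b _ =>
    Finset.sum_nonneg fun c _ => hnn a b c)).1 hs a (Finset.mem_univ _)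
  have h2 := (Finset.sum_eq_zero_iff_of_nonneg (fun b _ =>
    Finset.sum_nonneg fun c _ => hnn a b c)).1 h1 b (Finset.mem_univ _)
  have h3 := (Finset.sum_eq_zero_iff_of_nonneg (fun c _ => hnn a b c)).1 h2 c (Finset.mem_univ _)
  simpa [ht] using h3

theorem inv_const_R (hm : 0 < m) (W : Fin n → Fin n → Fin m → ℤ)
    (lam : Fin m → Equiv.Perm (Fin n)) (R : Fin n → Fin n → Prop) (hRe : Equivalence R)
    (hRl : ∀ i a b, R (lam i a) (lam i b) ↔ R a b)
    (hsymm : ∀ a b, a ≠ b → ∀ j, W a b j = W b a j)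
    (hlast : ∀ j : Fin m, (j : ℕ) + 1 = m → ∀ a b c, a ≠ b → a ≠ c → R a b → R a c →
      W a b j = W a c j)
    (hinv : ∀ i : Fin m, ∀ a b, a ≠ b → W (lam i a) (lam i b) ⟨0, hm⟩ = W a b ⟨0, hm⟩)
    (hWS : ∀ (j : Fin m) (wt : Fin n → Fin n → ℤ), (∀ a, wt a a = 0) →
      (∀ i ≤ j, ∀ a b, wt (lam i a) (lam i b) = wt a b) →
      2 * ∑ a, ∑ b, wt a b * W a b j =
        ((j : ℤ) + 1) * ((j : ℤ) + 2) * ∑ a, ∑ b, wt a b * W a b ⟨0, hm⟩) :
    ∀ a b c : Fin n, a ≠ b → a ≠ c → R a b → R a c → W a b ⟨0, hm⟩ = W a c ⟨0, hm⟩ := by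
  classical
  set i0 : Fin m := ⟨0, hm⟩ with hi0
  have hKpos : ∀ j : Fin m, ((j : ℤ) + 1) * ((j : ℤ) + 2) ≠ 0 := by
    intro j
    have : (0 : ℤ) ≤ (j : ℤ) := by positivity
    positivity
  have hT0 : ∀ a b c, ¬ (a ≠ b ∧ a ≠ c ∧ R a b ∧ R a c ∧ W a c i0 < W a b i0) := by
    let jl : Fin m := ⟨m - 1, by omega⟩
    have hTi : ∀ i a b c, (lam i a ≠ lam i b ∧ lam i a ≠ lam i c ∧ R (lam i a) (lam i b) ∧
        R (lam i a) (lam i c) ∧ W (lam i a) (lam i c) i0 < W (lam i a) (lam i b) i0) ↔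
        (a ≠ b ∧ a ≠ c ∧ R a b ∧ R a c ∧ W a c i0 < W a b i0) := by
      intro i a b c
      simp only [ne_eq, EmbeddingLike.apply_eq_iff_eq, hRl]
      constructor
      · rintro ⟨h1, h2, h3, h4, h5⟩
        exact ⟨h1, h2, h3, h4, by rwa [hinv i a b h1, hinv i a c h2] at h5⟩
      · rintro ⟨h1, h2, h3, h4, h5⟩
        exact ⟨h1, h2, h3, h4, by rwa [hinv i a b h1, hinv i a c h2]⟩
    have w1 := inv_const_R_ws W lam i0 jl _ (hWS jl)
      (fun a b c => a ≠ b ∧ a ≠ c ∧ R a b ∧ R a c ∧ W a c i0 < W a b i0)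
      (fun a b c h => ⟨h.1, h.2.1⟩) (fun i _ a b c => hTi i a b c)
    have w3 : ∑ a, ∑ b, ∑ c, (if a ≠ b ∧ a ≠ c ∧ R a b ∧ R a c ∧ W a c i0 < W a b i0 then
        W a b jl - W a c jl else 0) = 0 := by
      refine Finset.sum_eq_zero fun a _ => Finset.sum_eq_zero fun b _ => Finset.sum_eq_zero fun c _ => ?_
      split_ifs with h
      · rw [hlast jl (by simp only [jl]; omega) a b c h.1 h.2.1 h.2.2.1 h.2.2.2.1, sub_self]
      · rfl
    rw [w3, mul_zero] at w1
    have w4 := (mul_eq_zero.1 w1.symm).resolve_left (hKpos jl)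
    intro a b c h
    have := inv_const_R_zero (fun a b c => a ≠ b ∧ a ≠ c ∧ R a b ∧ R a c ∧ W a c i0 < W a b i0)
      (fun a b => W a b i0)
      (fun a b c h => by have := h.2.2.2.2; linarith) w4 a b c h
    have := h.2.2.2.2
    linarith
  intro a b c hab hac hRab hRac
  rcases lt_trichotomy (W a b i0) (W a c i0) with h | h | h
  · exact absurd ⟨hac, hab, hRac, hRab, h⟩ (hT0 a c b)
  · exact h
  · exact absurd ⟨hab, hac, hRab, hRac, h⟩ (hT0 a b c)



theorem comb_R_vu {n : ℕ} (R : Fin n → Fin n → Prop) (P Q : Fin n → Fin n → ℤ)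
    (hP : ∀ a b, a ≠ b → P a b = P b a)
    (hu : ∀ (A B : ℕ) (a b c : Fin n), a ≠ b → a ≠ c → b ≠ c → R a b → R a c →
      A * P a b + B * Q a b < A * P a c + B * Q a c →
        A * P b c + B * Q b c = A * P a b + B * Q a b)
    (a b c : Fin n) (hab : a ≠ b) (hac : a ≠ c) (hRab : R a b) (hRac : R a c)
    (h : Q a c < Q a b) : P a c ≤ P a b := by
  by_contra hcon
  push Not at hcon
  have hbc : b ≠ c := by
    rintro rfl
    exact lt_irrefl _ h
  obtain ⟨B, hB⟩ : ∃ B : ℕ, P a c - P a b < (B : ℤ) := ⟨(P a c - P a b).toNat + 1, by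
    push_cast
    have := Int.self_le_toNat (P a c - P a b)
    omega⟩
  have e1 := hu 1 B a c b hac hab hbc.symm hRac hRab (by push_cast; nlinarith)
  have e2 := hu 1 (B + 1) a c b hac hab hbc.symm hRac hRab (by push_cast; nlinarith)
  obtain ⟨C, hC⟩ : ∃ C : ℕ, Q a b - Q a c < (C : ℤ) := ⟨(Q a b - Q a c).toNat + 1, by
    push_cast
    have := Int.self_le_toNat (Q a b - Q a c)
    omega⟩
  have e3 := hu C 1 a b c hab hac hbc hRab hRac (by push_cast; nlinarith)
  have e4 := hu (C + 1) 1 a b c hab hac hbc hRab hRac (by push_cast; nlinarith)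
  push_cast at e1 e2 e3 e4
  have f1 : Q c b = Q a c := by linarith
  have f2 : P c b = P a c := by rw [f1] at e1; linarith
  have f3 : P b c = P a b := by linarith
  have f4 := hP b c hbc
  omega

theorem comb_R_pow {n : ℕ} (X : Fin n → Fin n → ℤ) (σ : Equiv.Perm (Fin n))
    (h : ∀ a b, a ≠ b → X (σ a) (σ b) = X a b) (s : ℕ) :
    ∀ a b, a ≠ b → X ((σ ^ s) a) ((σ ^ s) b) = X a b := by
  induction s with
  | zero => intro a b _; simp
  | succ s ih =>
    intro a b hab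
    rw [pow_succ]
    simp only [Equiv.Perm.mul_apply]
    rw [ih (σ a) (σ b) (fun h' => hab (σ.injective h')), h a b hab]

theorem comb_R_powR {n : ℕ} (R : Fin n → Fin n → Prop) (σ : Equiv.Perm (Fin n))
    (h : ∀ a b, R (σ a) (σ b) ↔ R a b) (s : ℕ) :
    ∀ a b, R ((σ ^ s) a) ((σ ^ s) b) ↔ R a b := by
  induction s with
  | zero => intro a b; simp
  | succ s ih =>
    intro a b
    rw [pow_succ]
    simp only [Equiv.Perm.mul_apply]
    rw [ih (σ a) (σ b), h a b]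

theorem comb_R (hm : 4 ≤ m) (W : Fin n → Fin n → Fin m → ℤ)
    (lam : Fin m → Equiv.Perm (Fin n)) (R : Fin n → Fin n → Prop) (hRe : Equivalence R)
    (hRl : ∀ i a b, R (lam i a) (lam i b) ↔ R a b)
    (htr : ∀ a b : Fin n, ∃ s : ℕ, R ((lam ⟨0, by omega⟩ ^ s) a) b)
    (hsymm : ∀ a b, a ≠ b → ∀ j, W a b j = W b a j)
    (hultra : ∀ (A : Fin m → ℕ) (a b c : Fin n), a ≠ b → a ≠ c → b ≠ c → R a b → R a c →
      ∑ j, A j * W a b j < ∑ j, A j * W a c j → ∑ j, A j * W b c j = ∑ j, A j * W a b j)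
    (hlast : ∀ j : Fin m, (j : ℕ) + 1 = m → ∀ a b c, a ≠ b → a ≠ c → R a b → R a c →
      W a b j = W a c j)
    (hinv : ∀ i j : Fin m, (i : ℕ) ≠ j + 1 → ∀ a b, a ≠ b → W (lam i a) (lam i b) j = W a b j)
    (hWS : ∀ (j : Fin m) (wt : Fin n → Fin n → ℤ), (∀ a, wt a a = 0) →
      (∀ i ≤ j, ∀ a b, wt (lam i a) (lam i b) = wt a b) →
      2 * ∑ a, ∑ b, wt a b * W a b j =
        ((j : ℤ) + 1) * ((j : ℤ) + 2) * ∑ a, ∑ b, wt a b * W a b ⟨0, by omega⟩)
    (hrel : ∃ α : Fin m → ℂ, (∃ j : Fin m, (j : ℕ) + 3 ≤ m ∧ α j ≠ 0) ∧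
      ∀ a b c : Fin n, a ≠ b → a ≠ c → b ≠ c → R a b → R a c →
        ∑ j, α j * ((W a b j : ℂ) - W a c j) = 0)
    (hdisj : ∃ W' : Fin n → Fin n → ℤ, (∀ a b, a ≠ b → W' a b = W' b a) ∧
      (∀ (A B : ℕ) (a b c : Fin n), a ≠ b → a ≠ c → b ≠ c → R a b → R a c →
        A * W a b ⟨0, by omega⟩ + B * W' a b < A * W a c ⟨0, by omega⟩ + B * W' a c →
        A * W b c ⟨0, by omega⟩ + B * W' b c = A * W a b ⟨0, by omega⟩ + B * W' a b) ∧
      (∀ i : Fin m, (i : ℕ) + 3 ≤ m → ∀ a b, a ≠ b → W' (lam i a) (lam i b) = W' a b) ∧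
      ∃ π : Equiv.Perm (Fin n), (∀ a b, a ≠ b → W' a b = W (π a) (π b) ⟨0, by omega⟩) ∧
        ∀ a b, (R a b ↔ R (π a) (π b))) :
    ∀ a b c : Fin n, a ≠ b → a ≠ c → R a b → R a c →
      W a b ⟨0, by omega⟩ = W a c ⟨0, by omega⟩ := by
  classical
  intro a₂ b₂ c₂ hab₂ hac₂ hRab₂ hRac₂
  obtain ⟨α, ⟨j1, hj1m, hj1⟩, hα2⟩ := hrel
  obtain ⟨W', hs', hu', hi', π, hπ, hπR⟩ := hdisj
  set i0 : Fin m := ⟨0, by omega⟩ with hi0
  have hRs : ∀ {a b}, R a b → R b a := fun h => hRe.symm h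
  have hRt : ∀ {a b c}, R a b → R b c → R a c := fun h h' => hRe.trans h h'
  have hpR := comb_R_powR R (lam i0) (fun a b => hRl i0 a b)
  have hex : ∃ j, α j ≠ 0 := ⟨j1, hj1⟩
  obtain ⟨j0, hj0, hj0min⟩ : ∃ j0, α j0 ≠ 0 ∧ ∀ j < j0, α j = 0 := by
    obtain ⟨j0, h1, h2⟩ := (wellFounded_lt (α := Fin m)).has_min {j | α j ≠ 0} hex
    exact ⟨j0, h1, fun j hj => by_contra fun h => h2 j h hj⟩
  have hj0m : (j0 : ℕ) + 2 < m := by
    have h : j0 ≤ j1 := by
      by_contra h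
      exact hj1 (hj0min j1 (not_le.1 h))
    have h' : (j0 : ℕ) ≤ j1 := h
    omega
  have hV : ∀ i a b c, a ≠ b → a ≠ c → R a b → R a c →
      W (lam i a) (lam i b) j0 - W (lam i a) (lam i c) j0 = W a b j0 - W a c j0 := by
    intro i a b c hab hac hRab hRac
    by_cases hi : (i : ℕ) = j0 + 1
    · by_cases hbc : b = c
      · subst hbc
        simp
      · have r1 := hα2 a b c hab hac hbc hRab hRac
        have r2 := hα2 (lam i a) (lam i b) (lam i c) (fun h => hab ((lam i).injective h))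
          (fun h => hac ((lam i).injective h)) (fun h => hbc ((lam i).injective h))
          ((hRl i a b).2 hRab) ((hRl i a c).2 hRac)
        have e1 : ∑ j, α j * ((W a b j : ℂ) - W a c j) -
            ∑ j, α j * ((W (lam i a) (lam i b) j : ℂ) - W (lam i a) (lam i c) j) =
            α j0 * (((W a b j0 : ℂ) - W a c j0) -
              ((W (lam i a) (lam i b) j0 : ℂ) - W (lam i a) (lam i c) j0)) := by
          rw [← Finset.sum_sub_distrib, Finset.sum_eq_single j0]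
          · ring
          · intro j _ hj
            rcases lt_or_gt_of_ne hj with h | h
            · rw [hj0min j h]
              ring
            · have hne : (i : ℕ) ≠ j + 1 := by
                have : (j0 : ℕ) < j := h
                omega
              rw [hinv i j hne a b hab, hinv i j hne a c hac]
              ring
          · simp
        rw [r1, r2, sub_zero] at e1
        have e2 := (mul_eq_zero.1 e1.symm).resolve_left hj0
        have e3 : (((W a b j0 - W a c j0) -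
            (W (lam i a) (lam i b) j0 - W (lam i a) (lam i c) j0) : ℤ) : ℂ) = 0 := by
          push_cast
          exact e2
        have e4 := Int.cast_eq_zero.1 e3
        linarith
    · rw [hinv i j0 hi a b hab, hinv i j0 hi a c hac]
  have hKpos : ∀ j : Fin m, ((j : ℤ) + 1) * ((j : ℤ) + 2) ≠ 0 := by
    intro j
    have : (0 : ℤ) ≤ (j : ℤ) := by positivity
    positivity
  -- step (ii)
  have hT0 : ∀ a b c, ¬ (a ≠ b ∧ a ≠ c ∧ R a b ∧ R a c ∧ W a c j0 < W a b j0) := by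
    let jl : Fin m := ⟨m - 1, by omega⟩
    have hTi : ∀ i a b c, (lam i a ≠ lam i b ∧ lam i a ≠ lam i c ∧ R (lam i a) (lam i b) ∧
        R (lam i a) (lam i c) ∧ W (lam i a) (lam i c) j0 < W (lam i a) (lam i b) j0) ↔
        (a ≠ b ∧ a ≠ c ∧ R a b ∧ R a c ∧ W a c j0 < W a b j0) := by
      intro i a b c
      simp only [ne_eq, EmbeddingLike.apply_eq_iff_eq, hRl]
      constructor
      · rintro ⟨h1, h2, h3, h4, h5⟩
        exact ⟨h1, h2, h3, h4, by have := hV i a b c h1 h2 h3 h4; linarith⟩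
      · rintro ⟨h1, h2, h3, h4, h5⟩
        exact ⟨h1, h2, h3, h4, by have := hV i a b c h1 h2 h3 h4; linarith⟩
    have w1 := inv_const_R_ws W lam i0 jl _ (hWS jl)
      (fun a b c => a ≠ b ∧ a ≠ c ∧ R a b ∧ R a c ∧ W a c j0 < W a b j0)
      (fun a b c h => ⟨h.1, h.2.1⟩) (fun i _ a b c => hTi i a b c)
    have w2 := inv_const_R_ws W lam i0 j0 _ (hWS j0)
      (fun a b c => a ≠ b ∧ a ≠ c ∧ R a b ∧ R a c ∧ W a c j0 < W a b j0)
      (fun a b c h => ⟨h.1, h.2.1⟩) (fun i _ a b c => hTi i a b c)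
    have w3 : ∑ a, ∑ b, ∑ c, (if a ≠ b ∧ a ≠ c ∧ R a b ∧ R a c ∧ W a c j0 < W a b j0 then
        W a b jl - W a c jl else 0) = 0 := by
      refine Finset.sum_eq_zero fun a _ => Finset.sum_eq_zero fun b _ => Finset.sum_eq_zero fun c _ => ?_
      split_ifs with h
      · rw [hlast jl (by simp only [jl]; omega) a b c h.1 h.2.1 h.2.2.1 h.2.2.2.1, sub_self]
      · rfl
    rw [w3, mul_zero] at w1
    have w4 := (mul_eq_zero.1 w1.symm).resolve_left (hKpos jl)
    rw [w4, mul_zero] at w2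
    have w5 := (mul_eq_zero.1 w2).resolve_left (by norm_num)
    intro a b c h
    have := inv_const_R_zero (fun a b c => a ≠ b ∧ a ≠ c ∧ R a b ∧ R a c ∧ W a c j0 < W a b j0)
      (fun a b => W a b j0)
      (fun a b c h => by have := h.2.2.2.2; linarith) w5 a b c h
    have := h.2.2.2.2
    linarith
  have hconst : ∀ a b c, a ≠ b → a ≠ c → R a b → R a c → W a b j0 = W a c j0 := by
    intro a b c hab hac hRab hRac
    rcases lt_trichotomy (W a b j0) (W a c j0) with h | h | h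
    · exact absurd ⟨hac, hab, hRac, hRab, h⟩ (hT0 a c b)
    · exact h
    · exact absurd ⟨hab, hac, hRab, hRac, h⟩ (hT0 a b c)
  have hconst1 : ∀ a b c d, a ≠ b → c ≠ d → R a b → R c d → R a c → W a b j0 = W c d j0 := by
    intro a b c d hab hcd hRab hRcd hRac
    by_cases hac : a = c
    · subst hac
      exact hconst a b d hab hcd hRab hRcd
    · rw [hconst a b c hab hac hRab hRac, hsymm a c hac,
        hconst c a d (Ne.symm hac) hcd (hRs hRac) hRcd]
  have hconst2 : ∀ a b c d, a ≠ b → c ≠ d → R a b → R c d → W a b j0 = W c d j0 := by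
    intro a b c d hab hcd hRab hRcd
    obtain ⟨s, hs⟩ := htr a c
    have h1 := comb_R_pow (fun a b => W a b j0) (lam i0)
      (fun a b hab => hinv i0 j0 (by simp [hi0]) a b hab) s a b hab
    rw [← h1]
    exact hconst1 _ _ c d (fun h => hab ((lam i0 ^ s).injective h)) hcd
      ((hpR s a b).2 hRab) hRcd hs
  -- step (iii)
  have hstar : ∀ a b c, a ≠ b → a ≠ c → R a b → R a c → W' a c < W' a b → W a b i0 = W a c i0 := by
    have hinj : ∀ i ≤ j0, ∀ a b, a ≠ b → W' (lam i a) (lam i b) = W' a b := by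
      intro i hi a b hab
      have : (i : ℕ) ≤ j0 := hi
      exact hi' i (by omega) a b hab
    have hTi : ∀ i ≤ j0, ∀ a b c, (lam i a ≠ lam i b ∧ lam i a ≠ lam i c ∧ R (lam i a) (lam i b) ∧
        R (lam i a) (lam i c) ∧ W' (lam i a) (lam i c) < W' (lam i a) (lam i b)) ↔
        (a ≠ b ∧ a ≠ c ∧ R a b ∧ R a c ∧ W' a c < W' a b) := by
      intro i hi a b c
      simp only [ne_eq, EmbeddingLike.apply_eq_iff_eq, hRl]
      constructor
      · rintro ⟨h1, h2, h3, h4, h5⟩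
        exact ⟨h1, h2, h3, h4, by rwa [hinj i hi a b h1, hinj i hi a c h2] at h5⟩
      · rintro ⟨h1, h2, h3, h4, h5⟩
        exact ⟨h1, h2, h3, h4, by rwa [hinj i hi a b h1, hinj i hi a c h2]⟩
    have w2 := inv_const_R_ws W lam i0 j0 _ (hWS j0)
      (fun a b c => a ≠ b ∧ a ≠ c ∧ R a b ∧ R a c ∧ W' a c < W' a b)
      (fun a b c h => ⟨h.1, h.2.1⟩) (fun i hi a b c => hTi i hi a b c)
    have w3 : ∑ a, ∑ b, ∑ c, (if a ≠ b ∧ a ≠ c ∧ R a b ∧ R a c ∧ W' a c < W' a b then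
        W a b j0 - W a c j0 else 0) = 0 := by
      refine Finset.sum_eq_zero fun a _ => Finset.sum_eq_zero fun b _ => Finset.sum_eq_zero fun c _ => ?_
      split_ifs with h
      · rw [hconst a b c h.1 h.2.1 h.2.2.1 h.2.2.2.1, sub_self]
      · rfl
    rw [w3, mul_zero] at w2
    have w4 := (mul_eq_zero.1 w2.symm).resolve_left (hKpos j0)
    intro a b c hab hac hRab hRac h
    have h5 := inv_const_R_zero (fun a b c => a ≠ b ∧ a ≠ c ∧ R a b ∧ R a c ∧ W' a c < W' a b)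
      (fun a b => W a b i0)
      (fun a b c h => by
        have := comb_R_vu R (fun a b => W a b i0) W' (fun a b hab => hsymm a b hab i0) hu' a b c
          h.1 h.2.1 h.2.2.1 h.2.2.2.1 h.2.2.2.2
        linarith) w4 a b c ⟨hab, hac, hRab, hRac, h⟩
    linarith
  -- minimum of W'
  obtain ⟨⟨x, y⟩, hxy, hmin⟩ := Finset.exists_min_image
    ((Finset.univ : Finset (Fin n × Fin n)).filter (fun p => p.1 ≠ p.2 ∧ R p.1 p.2))
    (fun p => W' p.1 p.2) ⟨(a₂, b₂), by simp [hab₂, hRab₂]⟩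
  simp only [Finset.mem_filter, Finset.mem_univ, true_and] at hxy hmin
  obtain ⟨hxy', hRxy⟩ := hxy
  have hmin' : ∀ a b, a ≠ b → R a b → W' x y ≤ W' a b := fun a b hab hRab =>
    hmin (a, b) ⟨hab, hRab⟩
  obtain ⟨ω', hω'⟩ : ∃ ω', ω' = W' x y := ⟨_, rfl⟩
  rw [← hω'] at hmin'
  by_cases hc : ∀ a b, a ≠ b → R a b → W' a b = ω'
  · have hc2 : ∀ a b, a ≠ b → R a b → W a b i0 = ω' := by
      intro a b hab hRab
      obtain ⟨a', rfl⟩ := π.surjective a
      obtain ⟨b', rfl⟩ := π.surjective b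
      have hab' : a' ≠ b' := fun h => hab (by rw [h])
      rw [← hπ a' b' hab', hc a' b' hab' ((hπR a' b').2 hRab)]
    rw [hc2 a₂ b₂ hab₂ hRab₂, hc2 a₂ c₂ hac₂ hRac₂]
  push Not at hc
  obtain ⟨a1, b1, hab1, hR1, hne1⟩ := hc
  have hlt1 : ω' < W' a1 b1 := lt_of_le_of_ne (hmin' a1 b1 hab1 hR1) (Ne.symm hne1)
  have hb0 : ∀ a, ∃ b0, b0 ≠ a ∧ R a b0 ∧ W' a b0 = ω' := by
    intro a
    obtain ⟨s, hs⟩ := htr x a
    have hx1 := comb_R_pow W' (lam i0)
      (fun a b hab => hi' i0 (by simp only [hi0]; omega) a b hab) s x y hxy'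
    obtain ⟨x', hx'⟩ : ∃ x', x' = (lam i0 ^ s) x := ⟨_, rfl⟩
    obtain ⟨y', hy'⟩ : ∃ y', y' = (lam i0 ^ s) y := ⟨_, rfl⟩
    have hxy1 : x' ≠ y' := by
      rw [hx', hy']
      exact fun h => hxy' ((lam i0 ^ s).injective h)
    have hRxy1 : R x' y' := by
      rw [hx', hy']
      exact (hpR s x y).2 hRxy
    have hRxa : R x' a := by
      rw [hx']
      exact hs
    rw [← hx', ← hy', ← hω'] at hx1
    by_cases hax : a = x'
    · exact ⟨y', by rw [hax]; exact hxy1.symm, by rw [hax]; exact hRxy1, by rw [hax, hx1]⟩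
    by_cases hay : a = y'
    · exact ⟨x', by rw [hay]; exact hxy1, by rw [hay]; exact hRs hRxy1,
        by rw [hay, hs' y' x' hxy1.symm, hx1]⟩
    by_cases h : W' x' a = ω'
    · exact ⟨x', Ne.symm hax, hRs hRxa, by rw [hs' a x' hax, h]⟩
    · have h1 : ω' < W' x' a := lt_of_le_of_ne (hmin' x' a (Ne.symm hax) hRxa) (Ne.symm h)
      have h2 := hu' 0 1 x' y' a hxy1 (Ne.symm hax) (Ne.symm hay) hRxy1 hRxa (by
        push_cast
        rw [hx1]
        linarith)
      push_cast at h2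
      refine ⟨y', Ne.symm hay, hRt (hRs hRxa) hRxy1, ?_⟩
      rw [hs' a y' hay]
      rw [hx1] at h2
      linarith
  -- the set U'
  have hca : ∀ a, (∃ a', a' ≠ a ∧ R a a' ∧ ω' < W' a a') →
      ∃ ca, (∀ b, b ≠ a → R a b → W a b i0 = ca) ∧
      ∀ b b', b ≠ b' → R b b' → ca ≤ W b b' i0 := by
    rintro a ⟨a', haa', hRaa', hlt⟩
    obtain ⟨b0, hb0a, hRb0, hb0w⟩ := hb0 a
    have ha'b0 : a' ≠ b0 := by
      rintro rfl
      rw [hb0w] at hlt
      exact lt_irrefl _ hlt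
    have e0 : W a a' i0 = W a b0 i0 :=
      hstar a a' b0 haa'.symm hb0a.symm hRaa' hRb0 (by rw [hb0w]; exact hlt)
    have e1 : ∀ b, b ≠ a → R a b → W a b i0 = W a b0 i0 := by
      intro b hba hRab
      by_cases h : W' a b = ω'
      · rw [← hstar a a' b haa'.symm hba.symm hRaa' hRab (by rw [h]; exact hlt), e0]
      · have h1 : ω' < W' a b := lt_of_le_of_ne (hmin' a b hba.symm hRab) (Ne.symm h)
        exact hstar a b b0 hba.symm hb0a.symm hRab hRb0 (by rw [hb0w]; exact h1)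
    have e2 : ∀ b b', b ≠ b' → R b b' → R b a → W a b0 i0 ≤ W b b' i0 := by
      intro b b' hbb' hRbb' hRba
      by_cases hba : b = a
      · rw [hba, e1 b' (by rw [← hba]; exact hbb'.symm) (by rw [← hba]; exact hRbb')]
      by_cases hb'a : b' = a
      · rw [hb'a, hsymm b a hba, e1 b hba (hRs hRba)]
      by_contra hcon
      push Not at hcon
      have h1 : W b a i0 = W a b0 i0 := by rw [hsymm b a hba, e1 b hba (hRs hRba)]
      have h2 : W b' a i0 = W a b0 i0 := by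
        rw [hsymm b' a hb'a, e1 b' hb'a (hRt (hRs hRba) hRbb')]
      have h3 := hu' 1 0 b b' a hbb' hba hb'a hRbb' hRba (by
        push_cast
        rw [h1]
        linarith)
      push_cast at h3
      rw [h2] at h3
      linarith
    refine ⟨W a b0 i0, e1, ?_⟩
    intro b b' hbb' hRbb'
    obtain ⟨s, hs⟩ := htr b a
    have hx1 := comb_R_pow (fun a b => W a b i0) (lam i0)
      (fun a b hab => hinv i0 i0 (by simp [hi0]) a b hab) s b b' hbb'
    rw [← hx1]
    exact e2 _ _ (fun h => hbb' ((lam i0 ^ s).injective h)) ((hpR s b b').2 hRbb') hs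
  obtain ⟨ω, hω1, hω2⟩ := hca a1 ⟨b1, hab1.symm, hR1, hlt1⟩
  have hU : ∀ a, (∃ a', a' ≠ a ∧ R a a' ∧ ω' < W' a a') → ∀ b, b ≠ a → R a b →
      W a b i0 = ω := by
    intro a ha b hb hRab
    obtain ⟨ca, h1, h2⟩ := hca a ha
    have h3 : ca ≤ ω := by
      rw [← hω1 b1 hab1.symm hR1]
      exact h2 a1 b1 hab1 hR1
    have h4 : ω ≤ ca := by
      rw [← h1 b hb hRab]
      exact hω2 a b hb.symm hRab
    rw [h1 b hb hRab]
    exact le_antisymm h3 h4
  have hUi : ∀ i ≤ j0, ∀ a, (∃ a', a' ≠ lam i a ∧ R (lam i a) a' ∧ ω' < W' (lam i a) a') ↔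
      ∃ a', a' ≠ a ∧ R a a' ∧ ω' < W' a a' := by
    intro i hi a
    have hi3 : (i : ℕ) + 3 ≤ m := by
      have : (i : ℕ) ≤ j0 := hi
      omega
    constructor
    · rintro ⟨a', h1, h1', h2⟩
      obtain ⟨a'', rfl⟩ := (lam i).surjective a'
      have h3 : a'' ≠ a := fun h => h1 (by rw [h])
      exact ⟨a'', h3, (hRl i a a'').1 h1', by rwa [hi' i hi3 a a'' h3.symm] at h2⟩
    · rintro ⟨a', h1, h1', h2⟩
      exact ⟨lam i a', fun h => h1 ((lam i).injective h), (hRl i a a').2 h1',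
        by rwa [hi' i hi3 a a' h1.symm]⟩
  have hconstκ : ∀ a b, a ≠ b → R a b → W a b j0 = W a1 b1 j0 :=
    fun a b hab hRab => hconst2 a b a1 b1 hab hab1 hRab hR1
  -- first weight
  have k1 : 2 * W a1 b1 j0 = ((j0 : ℤ) + 1) * ((j0 : ℤ) + 2) * ω := by
    obtain ⟨U, hUdef⟩ : ∃ U : Fin n → Prop, U = fun a => ∃ a', a' ≠ a ∧ R a a' ∧ ω' < W' a a' :=
      ⟨_, rfl⟩
    have hUa : ∀ a, U a ↔ ∃ a', a' ≠ a ∧ R a a' ∧ ω' < W' a a' := fun a => by rw [hUdef]
    have hUi2 : ∀ i ≤ j0, ∀ a, U (lam i a) ↔ U a := by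
      intro i hi a
      rw [hUa, hUa]
      exact hUi i hi a
    have hU2 : ∀ a, U a → ∀ b, b ≠ a → R a b → W a b i0 = ω := fun a ha => hU a ((hUa a).1 ha)
    have h := hWS j0 (fun a b => if a ≠ b ∧ R a b ∧ (U a ∨ U b) then 1 else 0) (by simp)
      (by
        intro i hi a b
        simp only [hUi2 i hi, ne_eq, EmbeddingLike.apply_eq_iff_eq, hRl])
    have e1 : ∑ a, ∑ b, (if a ≠ b ∧ R a b ∧ (U a ∨ U b) then (1 : ℤ) else 0) * W a b j0 =
        (∑ a, ∑ b, (if a ≠ b ∧ R a b ∧ (U a ∨ U b) then (1 : ℤ) else 0)) * W a1 b1 j0 := by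
      rw [Finset.sum_mul]
      refine Finset.sum_congr rfl fun a _ => ?_
      rw [Finset.sum_mul]
      refine Finset.sum_congr rfl fun b _ => ?_
      split_ifs with h'
      · rw [hconstκ a b h'.1 h'.2.1]
      · simp
    have e2 : ∑ a, ∑ b, (if a ≠ b ∧ R a b ∧ (U a ∨ U b) then (1 : ℤ) else 0) * W a b i0 =
        (∑ a, ∑ b, (if a ≠ b ∧ R a b ∧ (U a ∨ U b) then (1 : ℤ) else 0)) * ω := by
      rw [Finset.sum_mul]
      refine Finset.sum_congr rfl fun a _ => ?_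
      rw [Finset.sum_mul]
      refine Finset.sum_congr rfl fun b _ => ?_
      split_ifs with h'
      · rcases h'.2.2 with h2 | h2
        · rw [hU2 a h2 b h'.1.symm h'.2.1]
        · rw [hsymm a b h'.1, hU2 b h2 a h'.1 (hRs h'.2.1)]
      · simp
    rw [e1, e2] at h
    have hpos : 0 < ∑ a, ∑ b, (if a ≠ b ∧ R a b ∧ (U a ∨ U b) then (1 : ℤ) else 0) := by
      have hnn : ∀ a b, 0 ≤ (if a ≠ b ∧ R a b ∧ (U a ∨ U b) then (1 : ℤ) else 0) := by
        intro a b
        split_ifs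
        · norm_num
        · exact le_rfl
      refine Finset.sum_pos' (fun a _ => Finset.sum_nonneg fun b _ => hnn a b)
        ⟨a1, Finset.mem_univ _, Finset.sum_pos' (fun b _ => hnn a1 b) ⟨b1, Finset.mem_univ _, ?_⟩⟩
      rw [if_pos ⟨hab1, hR1, Or.inl ((hUa a1).2 ⟨b1, hab1.symm, hR1, hlt1⟩)⟩]
      norm_num
    have h2 : (∑ a, ∑ b, (if a ≠ b ∧ R a b ∧ (U a ∨ U b) then (1 : ℤ) else 0)) *
        (2 * W a1 b1 j0 - ((j0 : ℤ) + 1) * ((j0 : ℤ) + 2) * ω) = 0 := by linarith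
    have h3 := (mul_eq_zero.1 h2).resolve_left hpos.ne'
    linarith
  -- second weight
  have k2 : ∀ a b, a ≠ b → R a b → W a b i0 = ω := by
    have h := hWS j0 (fun a b => if a ≠ b ∧ R a b then 1 else 0) (by simp)
      (by
        intro i hi a b
        simp only [ne_eq, EmbeddingLike.apply_eq_iff_eq, hRl])
    have e1 : ∑ a, ∑ b, (if a ≠ b ∧ R a b then (1 : ℤ) else 0) * W a b j0 =
        (∑ a : Fin n, ∑ b : Fin n, (if a ≠ b ∧ R a b then (1 : ℤ) else 0)) * W a1 b1 j0 := by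
      rw [Finset.sum_mul]
      refine Finset.sum_congr rfl fun a _ => ?_
      rw [Finset.sum_mul]
      refine Finset.sum_congr rfl fun b _ => ?_
      split_ifs with h'
      · rw [hconstκ a b h'.1 h'.2]
      · simp
    have e3 : ∑ a, ∑ b, (if a ≠ b ∧ R a b then (1 : ℤ) else 0) * (W a b i0 - ω) =
        (∑ a : Fin n, ∑ b : Fin n, (if a ≠ b ∧ R a b then (1 : ℤ) else 0) * W a b i0) -
        (∑ a : Fin n, ∑ b : Fin n, (if a ≠ b ∧ R a b then (1 : ℤ) else 0)) * ω := by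
      simp only [mul_sub, Finset.sum_sub_distrib, Finset.sum_mul]
    rw [e1] at h
    have h4 : ((j0 : ℤ) + 1) * ((j0 : ℤ) + 2) *
        ∑ a, ∑ b, (if a ≠ b ∧ R a b then (1 : ℤ) else 0) * (W a b i0 - ω) = 0 := by
      rw [e3, mul_sub, ← h]
      linear_combination (∑ a : Fin n, ∑ b : Fin n, (if a ≠ b ∧ R a b then (1 : ℤ) else 0)) * k1
    have h5 := (mul_eq_zero.1 h4).resolve_left (hKpos j0)
    have hnn : ∀ a b, 0 ≤ (if a ≠ b ∧ R a b then (1 : ℤ) else 0) * (W a b i0 - ω) := by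
      intro a b
      split_ifs with h'
      · have := hω2 a b h'.1 h'.2
        linarith
      · simp
    intro a b hab hRab
    have h6 := (Finset.sum_eq_zero_iff_of_nonneg (fun a _ => Finset.sum_nonneg fun b _ =>
      hnn a b)).1 h5 a (Finset.mem_univ _)
    have h7 := (Finset.sum_eq_zero_iff_of_nonneg (fun b _ => hnn a b)).1 h6 b (Finset.mem_univ _)
    rw [if_pos ⟨hab, hRab⟩] at h7
    linarith
  rw [k2 a₂ b₂ hab₂ hRab₂, k2 a₂ c₂ hac₂ hRac₂]


end LinC
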