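import Pool.Agent.Helper996.LinC.DefsR
import Pool.Agent.Helper996.Lin.J_lab_basic
import Pool.Agent.Helper996.Lin.J_lab_lift
import Pool.Agent.Helper996.Lin.J_wd_basic
import Pool.Agent.Helper996.Lin.J_charts
import Pool.Agent.Helper996.LinC.C_base_loop
import Pool.Agent.Helper996.LinC.C_base_far
import Pool.Agent.Helper996.LinC.R_rb

set_option autoImplicit false

open Polynomial Set Filter Topology LinS

namespace LinC

variable {m n l : ℕ} {F : (Fin (m + 1) → ℂ) → Fin n → ℂ} {rel : (Fin (m + 1) → ℂ) → ℂ → ℂ → Prop}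

/-- base point -/
noncomputable def base_loop_R_z (m : ℕ) (j : Fin m) : ℝ := if (j : ℕ) + 1 < m then -1 else 0

/-- the loop in the chart -/
noncomputable def base_loop_R_f (m : ℕ) (hm : 0 < m) (θ : ℝ) (j : Fin m) : ℂ :=
  (base_loop_R_z m j : ℂ) + if j = ⟨0, hm⟩ then (θ : ℂ) * Complex.I else 0

theorem base_loop_R_z_UN (m : ℕ) : (fun j => (base_loop_R_z m j : ℂ)) ∈ UN m := by
  intro j hj
  simp only [base_loop_R_z]
  rw [if_pos hj]
  simp

theorem base_loop_R_f_UN (m : ℕ) (hm : 0 < m) (θ : ℝ) : base_loop_R_f m hm θ ∈ UN m := by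
  intro j hj
  simp only [base_loop_R_f, base_loop_R_z]
  rw [if_pos hj]
  split_ifs <;> simp

theorem base_loop_R_f_cont (m : ℕ) (hm : 0 < m) : Continuous (base_loop_R_f m hm) := by
  apply continuous_pi
  intro j
  unfold base_loop_R_f
  by_cases h : j = ⟨0, hm⟩
  · simp only [h, if_true]
    fun_prop
  · simp only [h, if_false]
    fun_prop

theorem base_loop_R_f_per (m n : ℕ) (hm : 0 < m) (θ : ℝ) :
    base_loop_R_f m hm (θ + 2 * Real.pi * n.factorial) = base_loop_R_f m hm θ + per m n ⟨0, hm⟩ := by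
  funext j
  rw [Pi.add_apply]
  unfold base_loop_R_f per
  by_cases h : j = ⟨0, hm⟩
  · rw [if_pos h, if_pos h, h, Pi.single_eq_same]
    push_cast
    ring
  · rw [if_neg h, if_neg h, Pi.single_eq_of_ne h, add_zero, add_zero]

theorem base_loop_R_nest (m : ℕ) (hm : 0 < m) (θ : ℝ) :
    nest (base_loop_R_f m hm θ) = ploop (nest fun j => (base_loop_R_z m j : ℂ))
      (Real.exp (∑ j, base_loop_R_z m j)) θ := by
  funext p
  refine Fin.cases ?_ (fun i => ?_) p
  · simp [nest, ploop]
  · have h1 : nest (base_loop_R_f m hm θ) i.succ =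
        Complex.exp (∑ j ∈ Finset.Ici i, base_loop_R_f m hm θ j) := by
      simp [nest]
    rw [h1]
    unfold base_loop_R_f
    rw [Finset.sum_add_distrib, Finset.sum_ite_eq']
    unfold ploop
    by_cases hi : (i : ℕ) = 0
    · have hi' : i = ⟨0, hm⟩ := Fin.ext hi
      have hIci : Finset.Ici i = Finset.univ := by
        ext j
        rw [hi']
        simp only [Finset.mem_Ici, Finset.mem_univ, iff_true]
        exact Fin.mk_le_of_le_val (Nat.zero_le _)
      rw [if_pos (by rw [hi']; simp), if_pos (by simp [hi])]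
      rw [hIci, Complex.exp_add]
      simp [nest]
    · rw [if_neg (by
        rw [Finset.mem_Ici]
        intro h
        have : (i : ℕ) ≤ 0 := h
        omega), if_neg (by simp [hi])]
      simp [nest]

theorem base_loop_R_lt (m : ℕ) (i : Fin m) (hi : 0 < (i : ℕ)) :
    ∑ j, base_loop_R_z m j < ∑ j ∈ Finset.Ici i, base_loop_R_z m j := by
  have hm : 0 < m := by have := i.2; omega
  have h := Finset.sum_lt_sum_of_subset (f := fun j => -base_loop_R_z m j)
    (Finset.subset_univ (Finset.Ici i)) (Finset.mem_univ (⟨0, hm⟩ : Fin m)) (by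
      rw [Finset.mem_Ici]
      intro h
      have : (i : ℕ) ≤ 0 := h
      omega) (by
      unfold base_loop_R_z
      rw [if_pos (by have := i.2; simp only; omega)]
      norm_num) (by
      intro j _ _
      unfold base_loop_R_z
      split_ifs <;> norm_num)
  simp only [Finset.sum_neg_distrib] at h
  linarith

theorem base_loop_R_nest_succ (m : ℕ) (i : Fin m) :
    (nest fun j => (base_loop_R_z m j : ℂ)) i.succ =
      ((Real.exp (∑ j ∈ Finset.Ici i, base_loop_R_z m j) : ℝ) : ℂ) := by
  simp [nest]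

theorem base_loop_R_adm (m : ℕ) : Adm (nest fun j => (base_loop_R_z m j : ℂ))
    (Real.exp (∑ j, base_loop_R_z m j)) := by
  refine ⟨Real.exp_pos _, ?_, ?_⟩
  · intro p q _ _ hpq h
    exact hpq (nest_conf (base_loop_R_z_UN m) h)
  · intro p hp0 hp1
    have h0 : (nest fun j => (base_loop_R_z m j : ℂ)) 0 = 0 := by simp [nest]
    rw [h0, sub_zero]
    obtain ⟨i, rfl⟩ := Fin.exists_succ_eq.2 (show p ≠ 0 from fun h => hp0 (by rw [h]; rfl))
    rw [base_loop_R_nest_succ, Complex.norm_real, Real.norm_of_nonneg (Real.exp_pos _).le]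
    apply Real.exp_lt_exp.2
    apply base_loop_R_lt
    rw [Fin.val_succ] at hp1
    omega

theorem base_loop_R (hR : GoodR m n F rel l) (D : Data m n F) (hm : 0 < m) :
    ∃ (r : Fin (m + 1) → ℂ) (ε : ℝ) (X : Fin n → ℝ → ℂ), Adm r ε ∧ (∀ a, Continuous (X a)) ∧
      (∀ θ, Lab (F (ploop r ε θ)) (fun a => X a θ)) ∧
      (∀ a b, a ≠ b →
        Wd univ (fun θ => X a θ - X b θ) (2 * Real.pi * n.factorial) (D.W a b ⟨0, hm⟩)) ∧
      ∀ a b, (rel (ploop r ε 0) (X a 0) (X b 0) ↔ RbD rel D a b) := by
  refine ⟨nest fun j => (base_loop_R_z m j : ℂ), Real.exp (∑ j, base_loop_R_z m j),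
    fun a θ => D.M a (base_loop_R_f m hm θ), base_loop_R_adm m, ?_, ?_, ?_, ?_⟩
  · intro a
    rw [← continuousOn_univ]
    exact (D.M_cont a).comp (base_loop_R_f_cont m hm).continuousOn
      (fun θ _ => base_loop_R_f_UN m hm θ)
  · intro θ
    rw [← base_loop_R_nest m hm θ]
    exact D.M_lab _ (base_loop_R_f_UN m hm θ)
  · intro a b hab
    exact Wd.comp (D.W_wd a b hab ⟨0, hm⟩) (f := base_loop_R_f m hm)
      (base_loop_R_f_cont m hm).continuousOn (fun θ _ => base_loop_R_f_UN m hm θ)
      (fun θ _ => base_loop_R_f_per m n hm θ)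
  · intro a b
    rw [← base_loop_R_nest m hm 0]
    exact ⟨fun h => rb_nest_one hR D a b _ (base_loop_R_f_UN m hm 0) h,
      fun h => (rb_nest hR D a b).1 h _ (base_loop_R_f_UN m hm 0)⟩


theorem base_far_R_aux (v w : Fin m → ℂ) (hv : v ∈ UN m) (hw : ∀ j : Fin m, (j : ℕ) + 1 < m → (w j).re = 0) :
    v + w ∈ UN m := by
  intro j hj
  have h1 := hv j hj
  have h2 := hw j hj
  simp only [Pi.add_apply, Complex.add_re]
  linarith

theorem base_far_R_per (n : ℕ) (j : Fin m) (i : Fin m) : (per m n j i).re = 0 := by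
  unfold per
  by_cases h : i = j
  · subst h
    simp
  · simp [Pi.single_eq_of_ne h]

theorem base_far_R_periodic {K : Set (Fin m → ℂ)} {g : (Fin m → ℂ) → ℂ} {p : Fin m → ℂ} {w : ℤ}
    (h : Wd K g p w) (v : Fin m → ℂ) (hv : v ∈ K) (hv' : v + p ∈ K) : g (v + p) = g v := by
  obtain ⟨L, _, h2, h3⟩ := h
  rw [← h2 _ hv', ← h2 _ hv, h3 v hv, Complex.exp_add]
  have : Complex.exp (2 * Real.pi * Complex.I * w) = 1 := by
    rw [show (2 * (Real.pi : ℂ) * Complex.I * w) = w * (2 * Real.pi * Complex.I) by ring]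
    exact Complex.exp_int_mul_two_pi_mul_I w
  rw [this, mul_one]

theorem base_far_R (hR : GoodR m n F rel l) (D : Data m n F) (hm : 2 ≤ m) :
    ∃ (r : Fin (m + 1) → ℂ) (R : ℝ) (X : Fin n → ℝ → ℂ), AdmF r R ∧ (∀ a, Continuous (X a)) ∧
      (∀ θ, Lab (F (floop r R θ)) (fun a => X a θ)) ∧
      (∀ a b, a ≠ b → Wd univ (fun θ => X a θ - X b θ) (2 * Real.pi * n.factorial)
        (D.W a b ⟨m - 1, by omega⟩ - D.W a b ⟨m - 2, by omega⟩)) ∧
      ∀ a b, (rel (floop r R 0) (X a 0) (X b 0) ↔ RbD rel D a b) := by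
  have hm1 : m - 1 < m := by omega
  have hm2 : m - 2 < m := by omega
  set j1 : Fin m := ⟨m - 1, hm1⟩ with hj1
  set j2 : Fin m := ⟨m - 2, hm2⟩ with hj2
  have hj12 : j1 ≠ j2 := by
    intro h
    have := congrArg Fin.val h
    simp only [hj1, hj2] at this
    omega
  let ζ0 : Fin m → ℂ := fun j => if (j : ℕ) + 1 < m then -1 else 0
  have hζ0 : ζ0 ∈ UN m := by
    intro j hj
    simp [ζ0, hj]
  let v : Fin m → ℂ := Pi.single j1 Complex.I - Pi.single j2 Complex.I
  have hvre : ∀ j, (v j).re = 0 := by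
    intro j
    simp only [v, Pi.sub_apply, Complex.sub_re, Pi.single_apply]
    split_ifs <;> simp
  let ζ : ℝ → Fin m → ℂ := fun θ => ζ0 + (θ : ℂ) • v
  have hζ : ∀ θ, ζ θ ∈ UN m := by
    intro θ
    apply base_far_R_aux _ _ hζ0
    intro j _
    simp [hvre j]
  have hζc : Continuous ζ := by
    apply continuous_const.add
    exact (Complex.continuous_ofReal).smul continuous_const
  have hsum : ∀ (i : Fin m) (θ : ℝ), ∑ j ∈ Finset.Ici i, ζ θ j =
      ∑ j ∈ Finset.Ici i, ζ0 j + θ * (if (i : ℕ) + 1 = m then Complex.I else 0) := by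
    intro i θ
    simp only [ζ, Pi.add_apply, Pi.smul_apply, smul_eq_mul, Finset.sum_add_distrib]
    rw [← Finset.mul_sum]
    congr 2
    simp only [v, Pi.sub_apply, Finset.sum_sub_distrib, Pi.single_apply]
    rw [Finset.sum_ite_eq', Finset.sum_ite_eq']
    have hi := i.2
    have h1 : j1 ∈ Finset.Ici i := by
      rw [Finset.mem_Ici, Fin.le_def]
      simp only [hj1]
      omega
    rw [if_pos h1]
    by_cases h : (i : ℕ) + 1 = m
    · have h2 : j2 ∉ Finset.Ici i := by
        rw [Finset.mem_Ici, Fin.le_def]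
        simp only [hj2]
        omega
      rw [if_neg h2, if_pos h]
      simp
    · have h2 : j2 ∈ Finset.Ici i := by
        rw [Finset.mem_Ici, Fin.le_def]
        simp only [hj2]
        omega
      rw [if_pos h2, if_neg h]
      simp
  have hnest : ∀ θ, nest (ζ θ) = floop (nest ζ0) 1 θ := by
    intro θ
    funext p
    unfold floop
    induction p using Fin.cases with
    | zero =>
      have : ((0 : Fin (m+1)) : ℕ) ≠ m := by simp; omega
      rw [if_neg this]
      simp [nest]
    | succ i =>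
      simp only [nest, Fin.cons_succ, Fin.val_succ]
      rw [hsum]
      by_cases h : (i : ℕ) + 1 = m
      · rw [if_pos h, if_pos h]
        have h3 : ∑ j ∈ Finset.Ici i, ζ0 j = 0 := by
          apply Finset.sum_eq_zero
          intro j hj
          rw [Finset.mem_Ici, Fin.le_def] at hj
          simp only [ζ0]
          rw [if_neg (by omega)]
        rw [h3]
        simp
      · rw [if_neg h, if_neg h]
        simp
  refine ⟨nest ζ0, 1, fun a θ => D.M a (ζ θ), ?_, ?_, ?_, ?_, ?_⟩
  · refine ⟨one_pos, ?_, ?_⟩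
    · intro p q _ _ hpq h
      exact hpq (nest_conf hζ0 h)
    · intro p hp
      induction p using Fin.cases with
      | zero => simp [nest]
      | succ i =>
        simp only [nest, Fin.cons_succ]
        rw [Complex.norm_exp]
        rw [Real.exp_lt_one_iff]
        rw [Complex.re_sum]
        simp only [Fin.val_succ] at hp
        have hi := i.2
        apply Finset.sum_neg'
        · intro j _
          simp only [ζ0]
          split_ifs <;> simp
        · refine ⟨i, by simp, ?_⟩
          simp only [ζ0]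
          rw [if_pos (by omega)]
          simp
  · intro a
    exact (D.M_cont a).comp_continuous hζc hζ
  · intro θ
    rw [← hnest]
    exact D.M_lab (ζ θ) (hζ θ)
  · intro a b hab
    have h1 := D.W_wd a b hab j1
    have h2 := D.W_wd a b hab j2
    have hK : IsPreconnected (UN m) := (UN_convex m).isPreconnected
    have hp : ∀ v ∈ UN m, v + (per m n j1 - per m n j2) ∈ UN m := by
      intro v hv
      apply base_far_R_aux _ _ hv
      intro j _
      simp [base_far_R_per]
    have hp2 : ∀ v ∈ UN m, v + per m n j2 ∈ UN m := by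
      intro v hv
      apply base_far_R_aux _ _ hv
      intro j _
      simp [base_far_R_per]
    have hp1 : ∀ v ∈ UN m, v + per m n j1 ∈ UN m := by
      intro v hv
      apply base_far_R_aux _ _ hv
      intro j _
      simp [base_far_R_per]
    have hpm : ∀ v ∈ UN m, v - per m n j2 ∈ UN m := by
      intro v hv
      rw [sub_eq_add_neg]
      apply base_far_R_aux _ _ hv
      intro j _
      simp [base_far_R_per]
    obtain ⟨w, hw⟩ := Wd.exists (UN_convex m) (g := fun ζ => D.M a ζ - D.M b ζ)
      (p := per m n j1 - per m n j2) hp ((D.M_cont a).sub (D.M_cont b)) (by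
        intro v hv
        obtain ⟨L, _, hL, _⟩ := h1
        have h9 : Complex.exp (L v) = D.M a v - D.M b v := hL v hv
        show D.M a v - D.M b v ≠ 0
        rw [← h9]
        exact Complex.exp_ne_zero _) (by
        intro v hv
        have e1 : v + (per m n j1 - per m n j2) = (v - per m n j2) + per m n j1 := by abel
        have e2 := base_far_R_periodic h1 (v - per m n j2) (hpm v hv) (hp1 _ (hpm v hv))
        have e3 := base_far_R_periodic h2 (v - per m n j2) (hpm v hv) (hp2 _ (hpm v hv))
        rw [e1, e2, ← e3]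
        simp)
    have hs := Wd.sum (ι := Fin 2) (g := fun ζ => D.M a ζ - D.M b ζ) (p := ![per m n j1 - per m n j2, per m n j2])
      (w := ![w, D.W a b j2]) hK Finset.univ (fun _ => 1) (by
        intro i _
        fin_cases i
        · exact hp
        · exact hp2) (by
        intro i _
        fin_cases i
        · exact hw
        · exact h2) Finset.univ_nonempty
    simp only [Fin.sum_univ_two, one_smul, Matrix.cons_val_zero, Matrix.cons_val_one, Nat.cast_one, one_mul, sub_add_cancel] at hs
    have hu := Wd.unique hK ⟨ζ0, hζ0⟩ hp1 hs h1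
    have hw' : w = D.W a b j1 - D.W a b j2 := by
      rw [← hu]; ring
    rw [← hw']
    refine Wd.comp hw (f := ζ) hζc.continuousOn (fun θ _ => hζ θ) ?_
    intro θ _
    funext j
    simp only [ζ, v, per, Pi.add_apply, Pi.sub_apply, Pi.smul_apply, smul_eq_mul, Pi.single_apply]
    push_cast
    split_ifs <;> ring
  · intro a b
    rw [← hnest 0]
    exact ⟨fun h => rb_nest_one hR D a b _ (hζ 0) h,
      fun h => (rb_nest hR D a b).1 h _ (hζ 0)⟩


end LinC
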