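import Pool.Agent.Helper996.LinC.DefsR
import Pool.Agent.Helper996.Lin.J_lab_basic
import Pool.Agent.Helper996.Lin.J_lab_lift
import Pool.Agent.Helper996.Lin.J_wd_basic
import Pool.Agent.Helper996.Lin.J_end_main
import Pool.Agent.Helper996.LinC.R_rb
import Pool.Agent.Helper996.LinC.R_W
import Pool.Agent.Helper996.LinC.R_far
import Pool.Agent.Helper996.LinC.R_baseloop

set_option autoImplicit false

open Polynomial Set Filter Topology LinS

namespace LinC

variable {m n l : ℕ} {F : (Fin (m + 1) → ℂ) → Fin n → ℂ} {rel : (Fin (m + 1) → ℂ) → ℂ → ℂ → Prop}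

theorem ef_far_bdd_R_per {V : Type*} [NormedAddCommGroup V] [NormedSpace ℝ V] {K : Set V}
    (hK : Convex ℝ K) {n : ℕ} {φ : V → Fin n → ℂ} (hs : ∀ v ∈ K, Squarefree (mpoly n (φ v)))
    {P : Fin n → V → ℂ} (hP : ∀ a, ContinuousOn (P a) K)
    (hL : ∀ v ∈ K, Lab (φ v) (fun a => P a v)) (p : V) (hp : ∀ v ∈ K, v + p ∈ K)
    (hφ : ∀ v ∈ K, φ (v + p) = φ v) :
    ∀ v ∈ K, ∀ a, P a (v + n.factorial • p) = P a v := by
  obtain ⟨π, hπ⟩ := lab_uniq hK.isPreconnected hs hP
    (M' := fun a v => P a (v + p))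
    (fun a => (hP a).comp (continuous_id.add continuous_const).continuousOn (fun v hv => hp v hv))
    hL (fun v hv => by
      have := hL (v + p) (hp v hv)
      rw [hφ v hv] at this
      exact this)
  have key : ∀ k : ℕ, ∀ v ∈ K, v + k • p ∈ K ∧ ∀ a, P a (v + k • p) = P ((π ^ k) a) v := by
    intro k
    induction k with
    | zero =>
      intro v hv
      simpa using hv
    | succ k ih =>
      intro v hv
      obtain ⟨h1, h2⟩ := ih v hv
      have e1 : v + (k + 1) • p = (v + k • p) + p := by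
        rw [succ_nsmul, add_assoc]
      rw [e1]
      refine ⟨hp _ h1, fun a => ?_⟩
      have h3 : P a (v + k • p + p) = P (π a) (v + k • p) := hπ _ h1 a
      rw [h3, h2, pow_succ, Equiv.Perm.mul_apply]
  intro v hv a
  rw [(key _ v hv).2 a]
  have : π ^ n.factorial = 1 := by
    have h1 : Fintype.card (Equiv.Perm (Fin n)) = n.factorial := by
      rw [Fintype.card_perm, Fintype.card_fin]
    rw [← h1]
    exact pow_card_eq_one
  rw [this]
  rfl

theorem ef_far_bdd_R_same {n : ℕ} {z M X : Fin n → ℂ} (hs : Squarefree (mpoly n z))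
    (hM : Lab z M) (hX : Lab z X) : ∃ π : Equiv.Perm (Fin n), ∀ a, X a = M (π a) := by
  obtain ⟨π, hπ⟩ := lab_uniq (V := ℂ) (K := {(0 : ℂ)}) isPreconnected_singleton
    (φ := fun _ => z) (fun _ _ => hs) (M := fun a _ => M a) (M' := fun a _ => X a)
    (fun a => continuousOn_const) (fun a => continuousOn_const) (fun _ _ => hM) (fun _ _ => hX)
  exact ⟨π, fun a => hπ 0 rfl a⟩


theorem ef_far_bdd_R_inj (m : ℕ) (p q : Fin (m + 1))
    (h : Complex.exp (2 * Complex.I * th m p) = Complex.exp (2 * Complex.I * th m q)) : p = q := by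
  rw [Complex.exp_eq_exp_iff_exists_int] at h
  obtain ⟨k, hk⟩ := h
  have hpi : (Real.pi : ℝ) ≠ 0 := Real.pi_ne_zero
  have hI := Complex.I_ne_zero
  have h1 : (th m p : ℂ) = th m q + k * Real.pi := by
    have h2 : (2 * Complex.I) * ((th m p : ℂ) - (th m q + k * Real.pi)) = 0 := by
      linear_combination hk
    rcases mul_eq_zero.1 h2 with h3 | h3
    · rcases mul_eq_zero.1 h3 with h4 | h4
      · norm_num at h4
      · exact absurd h4 hI
    · linear_combination h3
  have h2 : th m p = th m q + k * Real.pi := by exact_mod_cast h1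
  unfold th at h2
  have hm1 : ((m : ℝ) + 1) ≠ 0 := by positivity
  have h3 : (((p : ℕ) : ℝ)) = (q : ℕ) + k * (m + 1) := by
    field_simp at h2
    linarith
  have h4 : ((p : ℕ) : ℤ) = (q : ℕ) + k * (m + 1) := by exact_mod_cast h3
  have hp := p.isLt
  have hq := q.isLt
  have hk0 : k = 0 := by
    by_contra hne
    rcases lt_or_gt_of_ne hne with hneg | hpos
    · have : k ≤ -1 := by omega
      nlinarith
    · have : 1 ≤ k := by omega
      nlinarith
  rw [hk0] at h4
  apply Fin.ext
  omega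

theorem ef_far_bdd_R_neg {V : Type*} [NormedAddCommGroup V] {K : Set V} {g : V → ℂ} {p : V} {w : ℤ}
    (h : Wd K g p w) (hp : ∀ v ∈ K, v - p ∈ K) : Wd K g (-p) (-w) := by
  obtain ⟨L, h1, h2, h3⟩ := h
  refine ⟨L, h1, h2, fun v hv => ?_⟩
  have h4 := h3 (v - p) (hp v hv)
  rw [sub_add_cancel] at h4
  rw [← sub_eq_add_neg, h4]
  push_cast
  ring

theorem ef_far_bdd_R (hR : GoodR m n F rel l) (D : Data m n F) (hm : 2 ≤ m)
    (hB : ∀ a b c : Fin n, a ≠ b → a ≠ c → RbD rel D a b → RbD rel D a c →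
      D.W a b ⟨m - 2, by omega⟩ = D.W a c ⟨m - 2, by omega⟩)
    (j₀ : Fin (m + 1)) (w₀ : ℂ) (hw₀ : 1 + Complex.exp (2 * Complex.I * th m j₀) * w₀ = 0) :
    ∃ ε C : ℝ, 0 < ε ∧ ∀ w : ℂ, w ≠ w₀ → ‖w - w₀‖ < ε → ef m w ∈ Conf m ∧
      ∀ X : Fin n → ℂ, Lab (F (ef m w)) X →
        ∀ a b c, a ≠ b → a ≠ c → b ≠ c → rel (ef m w) (X a) (X b) → rel (ef m w) (X a) (X c) →
          ‖rat X a b c‖ ≤ C := by
  classical
  set E : Fin (m + 1) → ℂ := fun p => Complex.exp (2 * Complex.I * th m p) with hE
  have hEn : ∀ p, ‖E p‖ = 1 := by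
    intro p
    have : 2 * Complex.I * (th m p : ℂ) = ((2 * th m p : ℝ) : ℂ) * Complex.I := by
      push_cast; ring
    simp only [hE]
    rw [this, Complex.norm_exp_ofReal_mul_I]
  have hEi : ∀ p q, E p = E q → p = q := fun p q h => ef_far_bdd_R_inj m p q h
  have hw₀' : 1 + E j₀ * w₀ = 0 := hw₀
  have hDne : ∀ p, p ≠ j₀ → 1 + E p * w₀ ≠ 0 := by
    intro p hp h
    have hw0 : w₀ ≠ 0 := by
      rintro rfl
      simp at hw₀'
    have h1 : (E p - E j₀) * w₀ = 0 := by linear_combination h - hw₀'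
    rcases mul_eq_zero.1 h1 with h2 | h2
    · exact hp (hEi _ _ (sub_eq_zero.1 h2))
    · exact hw0 h2
  obtain ⟨δ, hδ, hδp⟩ : ∃ δ > 0, ∀ p, p ≠ j₀ → δ ≤ ‖1 + E p * w₀‖ := by
    by_cases h : (Finset.univ.filter (fun p : Fin (m+1) => p ≠ j₀)).Nonempty
    · obtain ⟨x, hx, hmin⟩ := Finset.exists_min_image _ (fun p => ‖1 + E p * w₀‖) h
      rw [Finset.mem_filter] at hx
      refine ⟨‖1 + E x * w₀‖, norm_pos_iff.2 (hDne x hx.2), fun p hp => hmin p (by simp [hp])⟩
    · exact ⟨1, one_pos, fun p hp => (h ⟨p, by simp [hp]⟩).elim⟩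
  let ε : ℝ := δ / 2
  have hε : 0 < ε := by positivity
  let R : ℂ × ℝ → Fin (m+1) → ℂ := fun x p => if p = j₀ then Complex.exp (-x.1) else
    E p / (1 + E p * (w₀ + (x.2 : ℂ) * Complex.exp x.1))
  let c0 : ℝ := Real.log ε
  let K : Set (ℂ × ℝ) := {x | x.1.re < c0 ∧ 0 ≤ x.2 ∧ x.2 ≤ 1}
  have hexp : ∀ s : ℂ, s.re < c0 → ‖Complex.exp s‖ < ε := by
    intro s hs
    rw [Complex.norm_exp]
    calc Real.exp s.re < Real.exp c0 := Real.exp_lt_exp.2 hs
      _ = ε := Real.exp_log hε
  have hden : ∀ x ∈ K, ∀ p, p ≠ j₀ → ε < ‖1 + E p * (w₀ + (x.2 : ℂ) * Complex.exp x.1)‖ := by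
    intro x hx p hp
    have h1 : 1 + E p * (w₀ + (x.2 : ℂ) * Complex.exp x.1) =
        (1 + E p * w₀) - (-(E p * ((x.2 : ℂ) * Complex.exp x.1))) := by ring
    have h2 : ‖-(E p * ((x.2 : ℂ) * Complex.exp x.1))‖ < ε := by
      rw [norm_neg, norm_mul, hEn, one_mul, norm_mul, Complex.norm_real,
        Real.norm_of_nonneg hx.2.1]
      have := hexp x.1 hx.1
      have h3 := hx.2.2
      have h4 := hx.2.1
      nlinarith [norm_nonneg (Complex.exp x.1)]
    have h3 := hδp p hp
    rw [h1]
    have h4 := norm_sub_norm_le (1 + E p * w₀) (-(E p * ((x.2 : ℂ) * Complex.exp x.1)))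
    have h5 : ε = δ / 2 := rfl
    linarith
  have hdne : ∀ x ∈ K, ∀ p, p ≠ j₀ → 1 + E p * (w₀ + (x.2 : ℂ) * Complex.exp x.1) ≠ 0 := by
    intro x hx p hp h
    have := hden x hx p hp
    rw [h, norm_zero] at this
    linarith
  have hRp : ∀ x ∈ K, ∀ p, p ≠ j₀ → ‖R x p‖ < ε⁻¹ := by
    intro x hx p hp
    simp only [R, if_neg hp]
    rw [norm_div, hEn, one_div]
    exact inv_strictAnti₀ hε (hden x hx p hp)
  have hRj : ∀ x ∈ K, ε⁻¹ < ‖R x j₀‖ := by
    intro x hx
    simp only [R, if_true]
    rw [Complex.exp_neg, norm_inv]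
    exact inv_strictAnti₀ (norm_pos_iff.2 (Complex.exp_ne_zero _)) (hexp x.1 hx.1)
  have hRconf : ∀ x ∈ K, R x ∈ Conf m := by
    intro x hx p q hpq'
    by_cases hp : p = j₀
    · by_cases hq : q = j₀
      · rw [hp, hq]
      · exfalso
        have h1 := hRp x hx q hq
        have h2 := hRj x hx
        rw [hp] at hpq'
        rw [hpq'] at h2
        linarith
    · by_cases hq : q = j₀
      · exfalso
        have h1 := hRp x hx p hp
        have h2 := hRj x hx
        rw [hq] at hpq'
        rw [← hpq'] at h2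
        linarith
      · have h1 : E p / (1 + E p * (w₀ + (x.2 : ℂ) * Complex.exp x.1)) =
            E q / (1 + E q * (w₀ + (x.2 : ℂ) * Complex.exp x.1)) := by
          have := hpq'
          simp only [R, if_neg hp, if_neg hq] at this
          exact this
        rw [div_eq_div_iff (hdne x hx p hp) (hdne x hx q hq)] at h1
        exact hEi _ _ (by linear_combination h1)
  have hKconv : Convex ℝ K := by
    intro x hx y hy a b ha hb hab
    refine ⟨?_, ?_, ?_⟩
    · show (a • x.1 + b • y.1).re < c0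
      rw [Complex.add_re, Complex.real_smul, Complex.real_smul, Complex.re_ofReal_mul,
        Complex.re_ofReal_mul]
      have hx1 := hx.1
      have hy1 := hy.1
      rcases eq_or_lt_of_le ha with h | h
      · have : b = 1 := by linarith
        rw [← h, this]; linarith
      · have e1 : a * x.1.re < a * c0 := mul_lt_mul_of_pos_left hx1 h
        have e2 : b * y.1.re ≤ b * c0 := mul_le_mul_of_nonneg_left hy1.le hb
        have e3 : a * c0 + b * c0 = c0 := by rw [← add_mul, hab, one_mul]
        linarith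
    · show 0 ≤ a * x.2 + b * y.2
      have := hx.2.1
      have := hy.2.1
      positivity
    · show a * x.2 + b * y.2 ≤ 1
      have e1 : a * x.2 ≤ a * 1 := mul_le_mul_of_nonneg_left hx.2.2 ha
      have e2 : b * y.2 ≤ b * 1 := mul_le_mul_of_nonneg_left hy.2.2 hb
      linarith
  have hRc : ContinuousOn R K := by
    rw [continuousOn_pi]
    intro p
    by_cases hp : p = j₀
    · have : (fun x : ℂ × ℝ => R x p) = fun x => Complex.exp (-x.1) := by
        funext x; simp only [R, if_pos hp]
      rw [this]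
      exact (Complex.continuous_exp.comp continuous_fst.neg).continuousOn
    · have : (fun x : ℂ × ℝ => R x p) = fun x =>
          E p / (1 + E p * (w₀ + (x.2 : ℂ) * Complex.exp x.1)) := by
        funext x; simp only [R, if_neg hp]
      rw [this]
      apply ContinuousOn.div continuousOn_const _ (fun x hx => hdne x hx p hp)
      apply Continuous.continuousOn
      exact continuous_const.add (continuous_const.mul (continuous_const.add
        ((Complex.continuous_ofReal.comp continuous_snd).mul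
          (Complex.continuous_exp.comp continuous_fst))))
  have hφc : ContinuousOn (fun x => F (R x)) K :=
    hR.good.holo.comp hRc (fun x hx => hRconf x hx)
  have hφs : ∀ x ∈ K, Squarefree (mpoly n (F (R x))) := fun x hx => hR.good.sqf _ (hRconf x hx)
  obtain ⟨P, hPc, hPL⟩ := lab_lift hKconv hφc hφs
  have hrelK : ∀ v ∈ K, ∀ v' ∈ K, ∀ a b, rel (R v) (P a v) (P b v) →
      rel (R v') (P a v') (P b v') :=
    hR.rel_cont hKconv.isPreconnected R hRc hRconf P hPc hPL
  have hPinj : ∀ x ∈ K, Function.Injective (fun a => P a x) := fun x hx =>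
    lab_inj (hPL x hx) (hφs x hx)
  have hper0 := ef_far_bdd_R_per hKconv hφs hPc hPL ((2 * Real.pi * Complex.I, 0) : ℂ × ℝ)
    (by
      intro x hx
      refine ⟨?_, ?_, ?_⟩
      · show (x.1 + 2 * Real.pi * Complex.I).re < c0
        have : (x.1 + 2 * Real.pi * Complex.I).re = x.1.re := by simp
        rw [this]; exact hx.1
      · show 0 ≤ x.2 + 0
        rw [add_zero]; exact hx.2.1
      · show x.2 + 0 ≤ 1
        rw [add_zero]; exact hx.2.2)
    (by
      intro x hx
      show F (R (x.1 + 2 * Real.pi * Complex.I, x.2 + 0)) = F (R x)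
      congr 1
      funext p
      by_cases hp : p = j₀
      · simp only [R, if_pos hp]
        rw [neg_add, Complex.exp_add, Complex.exp_neg (2 * Real.pi * Complex.I),
          Complex.exp_two_pi_mul_I, inv_one, mul_one]
      · simp only [R, if_neg hp]
        rw [add_zero, Complex.exp_add, Complex.exp_two_pi_mul_I, mul_one])
  let pv : ℂ × ℝ := (2 * Real.pi * Complex.I * (n.factorial : ℂ), 0)
  have hpv : n.factorial • ((2 * Real.pi * Complex.I, 0) : ℂ × ℝ) = pv := by
    ext1
    · show n.factorial • (2 * Real.pi * Complex.I : ℂ) = 2 * Real.pi * Complex.I * (n.factorial : ℂ)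
      rw [nsmul_eq_mul]; ring
    · show n.factorial • (0 : ℝ) = 0
      simp
  rw [hpv] at hper0
  have hKpv : ∀ x ∈ K, x + pv ∈ K := by
    intro x hx
    refine ⟨?_, ?_, ?_⟩
    · show (x.1 + 2 * Real.pi * Complex.I * (n.factorial : ℂ)).re < c0
      have : (x.1 + 2 * Real.pi * Complex.I * (n.factorial : ℂ)).re = x.1.re := by simp
      rw [this]; exact hx.1
    · show 0 ≤ x.2 + 0
      rw [add_zero]; exact hx.2.1
    · show x.2 + 0 ≤ 1
      rw [add_zero]; exact hx.2.2
  have hKpv' : ∀ x ∈ K, x - pv ∈ K := by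
    intro x hx
    refine ⟨?_, ?_, ?_⟩
    · show (x.1 - 2 * Real.pi * Complex.I * (n.factorial : ℂ)).re < c0
      have : (x.1 - 2 * Real.pi * Complex.I * (n.factorial : ℂ)).re = x.1.re := by simp
      rw [this]; exact hx.1
    · show 0 ≤ x.2 - 0
      rw [sub_zero]; exact hx.2.1
    · show x.2 - 0 ≤ 1
      rw [sub_zero]; exact hx.2.2
  have hWex : ∀ a b, a ≠ b → ∃ k : ℤ, Wd K (fun x => P a x - P b x) pv k := by
    intro a b hab
    apply Wd.exists hKconv hKpv ((hPc a).sub (hPc b))
    · intro x hx h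
      exact hab (hPinj x hx (sub_eq_zero.1 h))
    · intro x hx
      show P a (x + pv) - P b (x + pv) = P a x - P b x
      rw [hper0 x hx a, hper0 x hx b]
  choose! W hW using hWex
  -- the loop around infinity
  have hWeq : ∀ a b c', a ≠ b → a ≠ c' → (∀ v ∈ K, rel (R v) (P a v) (P b v)) →
      (∀ v ∈ K, rel (R v) (P a v) (P c' v)) → W a b = W a c' := by
    let σ : ℝ := c0 - 1
    let f : ℝ → ℂ × ℝ := fun θ => ((σ : ℂ) - (θ : ℂ) * Complex.I, 0)
    have hfK : ∀ θ, f θ ∈ K := by
      intro θ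
      refine ⟨?_, le_refl _, zero_le_one⟩
      show ((σ : ℂ) - (θ : ℂ) * Complex.I).re < c0
      have : ((σ : ℂ) - (θ : ℂ) * Complex.I).re = σ := by simp
      rw [this]; simp [σ]
    have hfc : Continuous f := by
      apply Continuous.prodMk _ continuous_const
      exact continuous_const.sub (Complex.continuous_ofReal.mul continuous_const)
    have hσε : Real.exp σ < ε := by
      calc Real.exp σ < Real.exp c0 := Real.exp_lt_exp.2 (by simp [σ])
        _ = ε := Real.exp_log hε
    let ρ : Equiv.Perm (Fin (m + 1)) := Equiv.swap (Fin.last m) j₀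
    have hρl : ρ (Fin.last m) = j₀ := Equiv.swap_apply_left _ _
    have hρne : ∀ p : Fin (m + 1), (p : ℕ) ≠ m → ρ p ≠ j₀ := by
      intro p hp h
      rw [← hρl] at h
      have := ρ.injective h
      apply hp
      rw [this]
      rfl
    let r : Fin (m + 1) → ℂ := fun p => E (ρ p) / (1 + E (ρ p) * w₀)
    have hrR : ∀ θ, ∀ p : Fin (m + 1), (p : ℕ) ≠ m → R (f θ) (ρ p) = r p := by
      intro θ p hp
      simp only [R, if_neg (hρne p hp), f, r]
      simp
    have hadm : AdmF r (Real.exp (-σ)) := by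
      refine ⟨Real.exp_pos _, ?_, ?_⟩
      · intro p q hp hq hpq' h
        rw [← hrR 0 p hp, ← hrR 0 q hq] at h
        exact hpq' (ρ.injective (hRconf _ (hfK 0) h))
      · intro p hp
        rw [← hrR 0 p hp]
        have h1 := hRp _ (hfK 0) (ρ p) (hρne p hp)
        have h2 : ε⁻¹ < Real.exp (-σ) := by
          rw [Real.exp_neg]
          exact inv_strictAnti₀ (Real.exp_pos _) hσε
        linarith
    have hloop0 : ∀ θ : ℝ, floop r (Real.exp (-σ)) θ = R (f θ) ∘ ρ := by
      intro θ
      funext p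
      by_cases hp : (p : ℕ) = m
      · have hp' : p = Fin.last m := Fin.ext hp
        have e1 : floop r (Real.exp (-σ)) θ p =
            (Real.exp (-σ) : ℝ) * Complex.exp (θ * Complex.I) := by
          simp only [floop, if_pos hp]
        have e2 : (R (f θ) ∘ ρ) p = Complex.exp (-((σ : ℂ) - (θ : ℂ) * Complex.I)) := by
          show R (f θ) (ρ p) = _
          rw [hp', hρl]
          simp only [R, if_true, f]
        rw [e1, e2, Complex.ofReal_exp, ← Complex.exp_add]
        congr 1
        push_cast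
        ring
      · have e1 : floop r (Real.exp (-σ)) θ p = r p := by
          simp only [floop, if_neg hp]
        rw [e1]
        exact (hrR θ p hp).symm
    have hloop : ∀ θ : ℝ, F (floop r (Real.exp (-σ)) θ) = F (R (f θ)) := by
      intro θ
      rw [hloop0 θ]
      exact hR.good.symm (R (f θ)) (hRconf _ (hfK θ)) ρ
    obtain ⟨r1, R1, X1, hadm1, hX1, hL1, hw1, hrel1⟩ := base_far_R hR D hm
    obtain ⟨π, hπ, hπr⟩ := far_transport_R hR (by omega) hadm1 hadm hX1
      (X' := fun a θ => P a (f θ)) (fun a => (hPc a).comp_continuous hfc hfK) hL1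
      (by
        intro θ
        rw [hloop]
        exact hPL _ (hfK θ)) (w := fun a b => D.W a b ⟨m - 1, by omega⟩ - D.W a b ⟨m - 2, by omega⟩)
      hw1 (w' := fun a b => - W a b)
      (by
        intro a b hab
        refine (ef_far_bdd_R_neg (hW a b hab) hKpv').comp (f := f) hfc.continuousOn
          (fun θ _ => hfK θ) ?_
        intro θ _
        ext1
        · show (σ : ℂ) - ((θ + 2 * Real.pi * n.factorial : ℝ) : ℂ) * Complex.I =
            (σ : ℂ) - (θ : ℂ) * Complex.I + -(2 * Real.pi * Complex.I * (n.factorial : ℂ))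
          push_cast
          ring
        · show (0 : ℝ) = 0 + -0
          simp)
    have hrelπ : ∀ a b, rel (R (f 0)) (P a (f 0)) (P b (f 0)) → RbD rel D (π a) (π b) := by
      intro a b h
      rw [← hrel1, ← hπr, hloop0 0, hR.rel_symm _ (hRconf _ (hfK 0)) ρ]
      exact h
    intro a b c' hab hac hrab hrac
    have hrab' := hrelπ a b (hrab _ (hfK 0))
    have hrac' := hrelπ a c' (hrac _ (hfK 0))
    have h1 := hπ a b hab
    have h2 := hπ a c' hac
    have hab' : π a ≠ π b := fun h => hab (π.injective h)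
    have hac' : π a ≠ π c' := fun h => hac (π.injective h)
    have h3 := W_last_R hR D ⟨m - 1, by omega⟩ (by show m - 1 + 1 = m; omega) (π a) (π b) (π c')
      hab' hac' hrab' hrac'
    have h4 := hB (π a) (π b) (π c') hab' hac' hrab' hrac'
    rw [h3, h4] at h1
    omega
  -- at time one
  let S : Set ℂ := {s : ℂ | s.re < c0}
  have hSopen : IsOpen S := isOpen_lt Complex.continuous_re continuous_const
  have hSK : ∀ s ∈ S, ((s, (1 : ℝ)) : ℂ × ℝ) ∈ K := fun s hs => ⟨hs, zero_le_one, le_refl _⟩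
  have hR1 : ∀ s : ℂ, R (s, 1) = ef m (w₀ + Complex.exp s) := by
    intro s
    funext p
    by_cases hp : p = j₀
    · simp only [R, if_pos hp, ef]
      subst hp
      have h1 : 1 + Complex.exp (2 * Complex.I * th m p) * (w₀ + Complex.exp s) =
          Complex.exp (2 * Complex.I * th m p) * Complex.exp s := by
        linear_combination hw₀
      rw [h1, Complex.exp_neg]
      have h2 := Complex.exp_ne_zero (2 * Complex.I * th m p)
      have h3 := Complex.exp_ne_zero s
      field_simp
    · simp only [R, if_neg hp, ef, hE]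
      rw [Complex.ofReal_one, one_mul]
  have hφd : DifferentiableOn ℂ (fun s : ℂ => R (s, 1)) S := by
    rw [differentiableOn_pi]
    intro p
    by_cases hp : p = j₀
    · have : (fun s : ℂ => R (s, 1) p) = fun s => Complex.exp (-s) := by
        funext s
        simp only [R, if_pos hp]
      rw [this]
      apply Differentiable.differentiableOn
      fun_prop
    · have : (fun s : ℂ => R (s, 1) p) = fun s => E p / (1 + E p * (w₀ + ((1 : ℝ) : ℂ) * Complex.exp s)) := by
        funext s
        simp only [R, if_neg hp]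
      rw [this]
      apply DifferentiableOn.div (by fun_prop) (by fun_prop)
      intro s hs
      exact hdne _ (hSK s hs) p hp
  have hφ1s : ∀ s ∈ S, Squarefree (mpoly n (F (R (s, 1)))) := fun s hs => hφs _ (hSK s hs)
  have hs1c : Continuous (fun s : ℂ => ((s, (1 : ℝ)) : ℂ × ℝ)) := by fun_prop
  have hM : ∀ a b, (∀ v ∈ K, rel (R v) (P a v) (P b v)) →
      DifferentiableOn ℂ (fun s => P a (s, 1) - P b (s, 1)) S := fun a b hab =>
    hR.hol hSopen (fun s : ℂ => R (s, 1)) hφd (fun s hs => hRconf _ (hSK s hs))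
      (fun a s => P a (s, 1))
      (fun a => (hPc a).comp hs1c.continuousOn (fun s hs => hSK s hs))
      (fun s hs => hPL _ (hSK s hs)) a b (fun s hs => hab _ (hSK s hs))
  have hmain : ∀ x : Fin n × Fin n × Fin n, ∃ (C c' : ℝ), 0 < C ∧ c' ≤ c0 ∧
      (x.1 ≠ x.2.1 → x.1 ≠ x.2.2 → x.2.1 ≠ x.2.2 → (∀ v ∈ K, rel (R v) (P x.1 v) (P x.2.1 v)) →
        (∀ v ∈ K, rel (R v) (P x.1 v) (P x.2.2 v)) → ∀ s : ℂ, s.re < c' →
        ‖rat (fun a => P a (s, 1)) x.1 x.2.1 x.2.2‖ ≤ C) := by
    rintro ⟨a, b, e⟩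
    by_cases hh : a ≠ b ∧ a ≠ e ∧ b ≠ e ∧ (∀ v ∈ K, rel (R v) (P a v) (P b v)) ∧
        (∀ v ∈ K, rel (R v) (P a v) (P e v))
    · obtain ⟨hab, hae, hbe, hrab, hrae⟩ := hh
      have hne : ∀ a b, a ≠ b → ∀ s ∈ S, P a (s, 1) - P b (s, 1) ≠ 0 := by
        intro a b hab s hs h
        exact hab (hPinj _ (hSK s hs) (sub_eq_zero.1 h))
      have hWd : Wd S (fun s => (P a (s, 1) - P b (s, 1)) / (P a (s, 1) - P e (s, 1)))
          (2 * Real.pi * Complex.I * (n.factorial : ℂ)) 0 := by
        have h1 := ((hW a b hab).div (hW a e hae)).comp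
          (f := fun s : ℂ => ((s, (1 : ℝ)) : ℂ × ℝ)) (K' := S)
          (p' := 2 * Real.pi * Complex.I * (n.factorial : ℂ)) hs1c.continuousOn
          (fun s hs => hSK s hs)
          (by
            intro s _
            ext1
            · rfl
            · show (1 : ℝ) = 1 + 0
              simp)
        rw [hWeq a b e hab hae hrab hrae, sub_self] at h1
        exact h1
      obtain ⟨C, c', hC, hc', hCC⟩ := end_main (g := fun s =>
          (P a (s, 1) - P b (s, 1)) / (P a (s, 1) - P e (s, 1))) (c := c0) (N := n.factorial)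
        (Nat.factorial_pos n) (e := 0)
        ((hM a b hrab).div (hM a e hrae) (fun s hs => hne a e hae s hs))
        (fun s hs => div_ne_zero (hne a b hab s hs) (hne a e hae s hs))
        (by
          intro s hs h
          rw [div_eq_one_iff_eq (hne a e hae s hs)] at h
          exact hne b e hbe s hs (by linear_combination -h))
        hWd
      refine ⟨C, c', hC, hc', fun _ _ _ _ _ s hs => ?_⟩
      have h1 := (hCC s hs).1
      simpa [rat] using h1
    · refine ⟨1, c0, one_pos, le_refl _, fun h1 h2 h3 h4 h5 => (hh ⟨h1, h2, h3, h4, h5⟩).elim⟩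
  choose C c' hC hc' hCC using hmain
  -- uniform constants
  obtain ⟨c1, hc1, hc1'⟩ : ∃ c1 : ℝ, c1 ≤ c0 ∧ ∀ x, c1 ≤ c' x := by
    refine ⟨c0 - ∑ x, (c0 - c' x), ?_, ?_⟩
    · have : 0 ≤ ∑ x, (c0 - c' x) := Finset.sum_nonneg (fun x _ => by linarith [hc' x])
      linarith
    · intro x
      have : c0 - c' x ≤ ∑ x, (c0 - c' x) :=
        Finset.single_le_sum (f := fun x => c0 - c' x) (fun x _ => by linarith [hc' x])
          (Finset.mem_univ x)
      linarith
  refine ⟨Real.exp c1, ∑ x, C x, Real.exp_pos _, ?_⟩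
  intro t ht htn
  have htne : t - w₀ ≠ 0 := sub_ne_zero.2 ht
  let s : ℂ := Complex.log (t - w₀)
  have hes : Complex.exp s = t - w₀ := Complex.exp_log htne
  have hsre : s.re < c1 := by
    show (Complex.log (t - w₀)).re < c1
    rw [Complex.log_re]
    rw [Real.log_lt_iff_lt_exp (norm_pos_iff.2 htne)]
    exact htn
  have hsS : s ∈ S := lt_of_lt_of_le hsre hc1
  have hRt : R (s, 1) = ef m t := by
    rw [hR1, hes]
    congr 1
    ring
  refine ⟨?_, ?_⟩
  · rw [← hRt]
    exact hRconf _ (hSK s hsS)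
  · intro X hX a b e hab hae hbe hrab hrae
    rw [← hRt] at hX hrab hrae
    obtain ⟨π, hπ⟩ := ef_far_bdd_R_same (hφ1s s hsS) (hPL _ (hSK s hsS)) hX
    have h1 : rat X a b e = rat (fun a => P a (s, 1)) (π a) (π b) (π e) := by
      simp only [rat, hπ]
    rw [hπ a, hπ b] at hrab
    rw [hπ a, hπ e] at hrae
    rw [h1]
    refine (hCC (π a, π b, π e) (fun h => hab (π.injective h)) (fun h => hae (π.injective h))
      (fun h => hbe (π.injective h)) (fun v hv => hrelK _ (hSK s hsS) v hv _ _ hrab)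
      (fun v hv => hrelK _ (hSK s hsS) v hv _ _ hrae) s (lt_of_lt_of_le hsre (hc1' _))).trans ?_
    exact Finset.single_le_sum (f := C) (fun x _ => (hC x).le) (Finset.mem_univ _)

end LinC
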