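import Pool.Agent.Helper996.LinC.DefsR
import Pool.Agent.Helper996.Lin.J_lab_basic
import Pool.Agent.Helper996.Lin.J_lab_lift
import Pool.Agent.Helper996.Lin.J_wd_basic
import Pool.Agent.Helper996.Lin.J_end_main
import Pool.Agent.Helper996.Lin.J_little_picard

set_option autoImplicit false

open Polynomial Set Filter Topology LinS

namespace LinC

variable {m n l : ℕ} {F : (Fin (m + 1) → ℂ) → Fin n → ℂ} {rel : (Fin (m + 1) → ℂ) → ℂ → ℂ → Prop}

theorem line_infinity_R_conf_smul {m : ℕ} {r : Fin (m + 1) → ℂ} (hr : r ∈ Conf m) {z : ℂ}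
    (hz : z ≠ 0) : (fun p => z * r p) ∈ Conf m := by
  intro p q h
  exact hr (mul_left_cancel₀ hz h)

theorem line_infinity_R_isOpen (m : ℕ) : IsOpen (Conf m) := by
  have h : Conf m = ⋂ p : Fin (m + 1), ⋂ q : Fin (m + 1),
      {r : Fin (m + 1) → ℂ | p ≠ q → r p ≠ r q} := by
    ext r
    simp only [mem_iInter]
    constructor
    · intro hr p q hpq he
      exact hpq (hr he)
    · intro hr p q he
      by_contra hpq
      exact hr p q hpq he
  rw [h]
  refine isOpen_iInter_of_finite fun p => isOpen_iInter_of_finite fun q => ?_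
  by_cases hpq : p = q
  · have h1 : {r : Fin (m + 1) → ℂ | p ≠ q → r p ≠ r q} = univ :=
      Set.eq_univ_of_forall fun r h => absurd hpq h
    rw [h1]
    exact isOpen_univ
  · have h1 : {r : Fin (m + 1) → ℂ | p ≠ q → r p ≠ r q} = {r | r p ≠ r q} :=
      Set.ext fun r => ⟨fun h => h hpq, fun h _ => h⟩
    rw [h1]
    exact isOpen_ne_fun (continuous_apply p) (continuous_apply q)

theorem line_infinity_R_near {m : ℕ} (u v : Fin (m + 1) → ℂ) (hu : u ∈ Conf m) :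
    ∃ c : ℝ, ∀ s : ℂ, s.re < c → ∀ τ : ℝ, 0 ≤ τ → τ ≤ 1 →
      (fun p => Complex.exp (-s) * u p + (τ:ℂ) * v p) ∈ Conf m := by
  obtain ⟨δ, hδ, hb⟩ := Metric.isOpen_iff.mp (line_infinity_R_isOpen m) u hu
  have hV : 0 < ‖v‖ + 1 := by positivity
  refine ⟨Real.log (δ / (‖v‖ + 1)), ?_⟩
  intro s hs τ h0 h1
  have hes : Real.exp s.re < δ / (‖v‖ + 1) := by
    have h := Real.exp_lt_exp.mpr hs
    rwa [Real.exp_log (div_pos hδ hV)] at h
  have h2 : (fun p => u p + (τ:ℂ) * Complex.exp s * v p) ∈ Metric.ball u δ := by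
    rw [Metric.mem_ball, dist_eq_norm]
    have h3 : (fun p => u p + (τ:ℂ) * Complex.exp s * v p) - u =
        ((τ:ℂ) * Complex.exp s) • v := by
      funext p
      simp
    rw [h3, norm_smul, norm_mul, Complex.norm_real, Real.norm_of_nonneg h0, Complex.norm_exp]
    have h6 : τ * Real.exp s.re ≤ 1 * Real.exp s.re :=
      mul_le_mul_of_nonneg_right h1 (Real.exp_pos _).le
    have h7 : τ * Real.exp s.re * ‖v‖ ≤ 1 * Real.exp s.re * (‖v‖ + 1) :=
      mul_le_mul h6 (by linarith) (norm_nonneg _) (by positivity)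
    rw [lt_div_iff₀ hV] at hes
    linarith
  have h4 := line_infinity_R_conf_smul (hb h2) (Complex.exp_ne_zero (-s))
  have h5 : (fun p => Complex.exp (-s) * (u p + (τ:ℂ) * Complex.exp s * v p)) =
      (fun p => Complex.exp (-s) * u p + (τ:ℂ) * v p) := by
    funext p
    have h8 : Complex.exp (-s) * Complex.exp s = 1 := by
      rw [← Complex.exp_add, neg_add_cancel, Complex.exp_zero]
    linear_combination ((τ:ℂ) * v p) * h8
  rw [← h5]
  exact h4

theorem line_infinity_R_const (hR : GoodR m n F rel l) (u : Fin (m + 1) → ℂ) (hu : u ∈ Conf m) :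
    ∃ Q : Fin n → ℂ → ℂ, (∀ a, Continuous (Q a)) ∧
      (∀ s : ℂ, Lab (F (fun p => Complex.exp (-s) * u p)) (fun a => Q a s)) ∧
      (∀ a b, ∀ s t : ℂ, rel (fun p => Complex.exp (-s) * u p) (Q a s) (Q b s) →
        rel (fun p => Complex.exp (-t) * u p) (Q a t) (Q b t)) ∧
      ∀ a b c, a ≠ b → a ≠ c → b ≠ c → ∀ s0 : ℂ,
        rel (fun p => Complex.exp (-s0) * u p) (Q a s0) (Q b s0) →
        rel (fun p => Complex.exp (-s0) * u p) (Q a s0) (Q c s0) → ∀ s t : ℂ,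
        (Q a s - Q b s) / (Q a s - Q c s) = (Q a t - Q b t) / (Q a t - Q c t) := by
  have hconf : ∀ s : ℂ, (fun p => Complex.exp (-s) * u p) ∈ Conf m := fun s =>
    line_infinity_R_conf_smul hu (Complex.exp_ne_zero _)
  have h1 : DifferentiableOn ℂ
      (fun s : ℂ => (fun p => Complex.exp (-s) * u p : Fin (m + 1) → ℂ)) univ := by
    rw [differentiableOn_pi]
    intro p
    exact ((Complex.differentiable_exp.comp differentiable_neg).mul_const _).differentiableOn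
  have hd : ContinuousOn (fun s : ℂ => F (fun p => Complex.exp (-s) * u p)) univ :=
    hR.good.holo.comp h1.continuousOn (fun s _ => hconf s)
  have hs : ∀ s ∈ (univ : Set ℂ),
      Squarefree (mpoly n (F (fun p => Complex.exp (-s) * u p))) := fun s _ =>
    hR.good.sqf _ (hconf s)
  obtain ⟨Q, hQc, hQl⟩ := lab_lift (convex_univ) hd hs
  have hrc : ∀ a b, ∀ s t : ℂ, rel (fun p => Complex.exp (-s) * u p) (Q a s) (Q b s) →
        rel (fun p => Complex.exp (-t) * u p) (Q a t) (Q b t) := fun a b s t h =>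
    hR.rel_cont (K := (univ : Set ℂ)) isPreconnected_univ
      (fun s : ℂ => (fun p => Complex.exp (-s) * u p : Fin (m + 1) → ℂ)) h1.continuousOn
      (fun s _ => hconf s) Q hQc hQl s (mem_univ _) t (mem_univ _) a b h
  refine ⟨Q, fun a => continuousOn_univ.mp (hQc a), fun s => hQl s (mem_univ s), hrc, ?_⟩
  intro a b c hab hac hbc s0 hr1 hr2
  have hne : ∀ a b, a ≠ b → ∀ s, Q a s - Q b s ≠ 0 := by
    intro a b hab s h
    exact hab (lab_inj (hQl s (mem_univ s)) (hs s (mem_univ s)) (sub_eq_zero.mp h))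
  have hda : ∀ a b, rel (fun p => Complex.exp (-s0) * u p) (Q a s0) (Q b s0) →
      ∀ s, DifferentiableAt ℂ (fun s => Q a s - Q b s) s := fun a b h s =>
    (hR.hol isOpen_univ (fun s : ℂ => (fun p => Complex.exp (-s) * u p : Fin (m + 1) → ℂ)) h1
      (fun s _ => hconf s) Q hQc hQl a b (fun v _ => hrc a b s0 v h) s
        (mem_univ s)).differentiableAt univ_mem
  have hg : Differentiable ℂ (fun s => (Q a s - Q b s) / (Q a s - Q c s)) := fun s =>
    (hda a b hr1 s).div (hda a c hr2 s) (hne a c hac s)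
  exact little_picard hg (fun s => div_ne_zero (hne a b hab s) (hne a c hac s)) (fun s h => by
    rw [div_eq_one_iff_eq (hne a c hac s)] at h
    have h2 : Q b s = Q c s := by linear_combination -h
    exact hne b c hbc s (sub_eq_zero.mpr h2))

theorem line_infinity_R_per {V : Type*} [NormedAddCommGroup V] {K : Set V}
    (hK : IsPreconnected K) {n : ℕ} {φ : V → Fin n → ℂ}
    (hs : ∀ v ∈ K, Squarefree (mpoly n (φ v))) {P : Fin n → V → ℂ}
    (hP : ∀ a, ContinuousOn (P a) K) (hL : ∀ v ∈ K, Lab (φ v) (fun a => P a v)) {p : V}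
    (hp : ∀ v ∈ K, v + p ∈ K) (hφ : ∀ v ∈ K, φ (v + p) = φ v) :
    ∀ v ∈ K, ∀ a, P a (v + n.factorial • p) = P a v := by
  obtain ⟨π, hπ⟩ := lab_uniq hK hs hP
    (M' := fun a v => P a (v + p))
    (fun a => (hP a).comp (continuous_id.add continuous_const).continuousOn hp) hL
    (fun v hv => by
      have h1 := hL (v + p) (hp v hv)
      rw [hφ v hv] at h1
      exact h1)
  have hk : ∀ (k : ℕ), ∀ v ∈ K, v + k • p ∈ K ∧ ∀ a, P a (v + k • p) = P ((π ^ k) a) v := by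
    intro k
    induction k with
    | zero =>
      intro v hv
      rw [zero_smul, add_zero]
      exact ⟨hv, fun a => by rw [pow_zero]; rfl⟩
    | succ k ih =>
      intro v hv
      obtain ⟨h1, h2⟩ := ih v hv
      have h3 : v + (k + 1) • p = (v + k • p) + p := by
        rw [add_smul, one_smul, add_assoc]
      rw [h3]
      refine ⟨hp _ h1, fun a => ?_⟩
      have h4 := hπ _ h1 a
      have h5 : P a (v + k • p + p) = P (π a) (v + k • p) := h4
      rw [h5, h2, pow_succ]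
      rfl
  intro v hv a
  have h6 := (hk n.factorial v hv).2 a
  have h7 : π ^ n.factorial = 1 := by
    have h8 : Fintype.card (Equiv.Perm (Fin n)) = n.factorial := by
      rw [Fintype.card_perm, Fintype.card_fin]
    rw [← h8]
    exact pow_card_eq_one
  rw [h7] at h6
  exact h6

/-- boundedness of the ratios at infinity on a line -/
theorem line_infinity_R (hR : GoodR m n F rel l) (u v : Fin (m + 1) → ℂ) (hu : u ∈ Conf m) :
    ∃ R C : ℝ, ∀ t : ℂ, R < ‖t‖ → (fun p => v p + t * u p) ∈ Conf m ∧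
      ∀ X : Fin n → ℂ, Lab (F (fun p => v p + t * u p)) X →
        ∀ a b c, a ≠ b → a ≠ c → b ≠ c → rel (fun p => v p + t * u p) (X a) (X b) →
          rel (fun p => v p + t * u p) (X a) (X c) → ‖rat X a b c‖ ≤ C := by
  obtain ⟨c, hc⟩ := line_infinity_R_near u v hu
  obtain ⟨Q, hQc, hQl, hQrc, hQr⟩ := line_infinity_R_const hR u hu
  obtain ⟨N, hN⟩ : ∃ N : ℕ, N = n.factorial := ⟨_, rfl⟩
  have hN0 : 0 < N := by rw [hN]; exact Nat.factorial_pos n
  -- the domain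
  have hK0 : Convex ℝ {s : ℂ | s.re < c} := convex_halfSpace_re_lt c
  have hK0o : IsOpen {s : ℂ | s.re < c} := isOpen_lt Complex.continuous_re continuous_const
  have hK : Convex ℝ ({s : ℂ | s.re < c} ×ˢ Icc (0:ℝ) 1) := hK0.prod (convex_Icc 0 1)
  have hconf : ∀ x ∈ ({s : ℂ | s.re < c} ×ˢ Icc (0:ℝ) 1),
      (fun p => Complex.exp (-x.1) * u p + (x.2:ℂ) * v p) ∈ Conf m := by
    intro x hx
    exact hc x.1 hx.1 x.2 hx.2.1 hx.2.2
  have hHc : ContinuousOn (fun x : ℂ × ℝ =>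
      (fun p => Complex.exp (-x.1) * u p + (x.2:ℂ) * v p : Fin (m + 1) → ℂ))
      ({s : ℂ | s.re < c} ×ˢ Icc (0:ℝ) 1) := by
    refine Continuous.continuousOn (continuous_pi fun p => ?_)
    exact ((Complex.continuous_exp.comp continuous_fst.neg).mul continuous_const).add
      ((Complex.continuous_ofReal.comp continuous_snd).mul continuous_const)
  have hcont : ContinuousOn
      (fun x : ℂ × ℝ => F (fun p => Complex.exp (-x.1) * u p + (x.2:ℂ) * v p))
      ({s : ℂ | s.re < c} ×ˢ Icc (0:ℝ) 1) :=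
    hR.good.holo.comp (t := Conf m) (f := fun x : ℂ × ℝ =>
      (fun p => Complex.exp (-x.1) * u p + (x.2:ℂ) * v p : Fin (m + 1) → ℂ)) hHc hconf
  have hsq : ∀ x ∈ ({s : ℂ | s.re < c} ×ˢ Icc (0:ℝ) 1),
      Squarefree (mpoly n (F (fun p => Complex.exp (-x.1) * u p + (x.2:ℂ) * v p))) :=
    fun x hx => hR.good.sqf _ (hconf x hx)
  obtain ⟨P, hPc, hPl⟩ := lab_lift hK hcont hsq
  have hPr : ∀ a b, ∀ x ∈ ({s : ℂ | s.re < c} ×ˢ Icc (0:ℝ) 1),
      rel (fun p => Complex.exp (-x.1) * u p + (x.2:ℂ) * v p) (P a x) (P b x) →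
      ∀ y ∈ ({s : ℂ | s.re < c} ×ˢ Icc (0:ℝ) 1),
      rel (fun p => Complex.exp (-y.1) * u p + (y.2:ℂ) * v p) (P a y) (P b y) :=
    fun a b x hx h y hy => hR.rel_cont hK.isPreconnected (fun x : ℂ × ℝ =>
      (fun p => Complex.exp (-x.1) * u p + (x.2:ℂ) * v p : Fin (m + 1) → ℂ)) hHc hconf P hPc hPl
      x hx y hy a b h
  -- periodicity
  have hpK : ∀ x ∈ ({s : ℂ | s.re < c} ×ˢ Icc (0:ℝ) 1),
      x + ((2 * Real.pi * Complex.I : ℂ), (0:ℝ)) ∈ ({s : ℂ | s.re < c} ×ˢ Icc (0:ℝ) 1) := by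
    intro x hx
    refine ⟨?_, ?_⟩
    · show (x.1 + 2 * Real.pi * Complex.I).re < c
      have h1 : (x.1 + 2 * Real.pi * Complex.I).re = x.1.re := by simp
      rw [h1]
      exact hx.1
    · show x.2 + 0 ∈ Icc (0:ℝ) 1
      rw [add_zero]
      exact hx.2
  have hφp : ∀ x ∈ ({s : ℂ | s.re < c} ×ˢ Icc (0:ℝ) 1),
      (fun x : ℂ × ℝ => F (fun p => Complex.exp (-x.1) * u p + (x.2:ℂ) * v p))
        (x + ((2 * Real.pi * Complex.I : ℂ), (0:ℝ))) =
      (fun x : ℂ × ℝ => F (fun p => Complex.exp (-x.1) * u p + (x.2:ℂ) * v p)) x := by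
    intro x _
    show F (fun p => Complex.exp (-(x.1 + 2 * Real.pi * Complex.I)) * u p +
      ((x.2 + 0 : ℝ):ℂ) * v p) = F (fun p => Complex.exp (-x.1) * u p + (x.2:ℂ) * v p)
    have h1 : Complex.exp (-(x.1 + 2 * Real.pi * Complex.I)) = Complex.exp (-x.1) := by
      rw [neg_add, ← sub_eq_add_neg, Complex.exp_sub, Complex.exp_two_pi_mul_I, div_one]
    rw [h1, add_zero]
  have hper := line_infinity_R_per hK.isPreconnected hsq hPc hPl hpK hφp
  have hpN : (n.factorial) • ((2 * Real.pi * Complex.I : ℂ), (0:ℝ)) =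
      ((2 * Real.pi * Complex.I * N : ℂ), (0:ℝ)) := by
    rw [Prod.smul_mk, smul_zero, nsmul_eq_mul, hN, mul_comm]
  rw [hpN] at hper
  have hpKN : ∀ x ∈ ({s : ℂ | s.re < c} ×ˢ Icc (0:ℝ) 1),
      x + ((2 * Real.pi * Complex.I * N : ℂ), (0:ℝ)) ∈ ({s : ℂ | s.re < c} ×ˢ Icc (0:ℝ) 1) := by
    intro x hx
    refine ⟨?_, ?_⟩
    · show (x.1 + 2 * Real.pi * Complex.I * N).re < c
      have h1 : (x.1 + 2 * Real.pi * Complex.I * N).re = x.1.re := by simp
      rw [h1]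
      exact hx.1
    · show x.2 + 0 ∈ Icc (0:ℝ) 1
      rw [add_zero]
      exact hx.2
  have hp0 : ∀ s ∈ {s : ℂ | s.re < c}, s + 2 * Real.pi * Complex.I * N ∈ {s : ℂ | s.re < c} := by
    intro s hs
    show (s + 2 * Real.pi * Complex.I * N).re < c
    have h1 : (s + 2 * Real.pi * Complex.I * N).re = s.re := by simp
    rw [h1]
    exact hs
  have hPne : ∀ a b, a ≠ b → ∀ x ∈ ({s : ℂ | s.re < c} ×ˢ Icc (0:ℝ) 1), P a x - P b x ≠ 0 := by
    intro a b hab x hx h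
    exact hab (lab_inj (hPl x hx) (hsq x hx) (sub_eq_zero.mp h))
  have hW : ∀ a b, a ≠ b → ∃ w : ℤ, Wd ({s : ℂ | s.re < c} ×ˢ Icc (0:ℝ) 1)
      (fun x => P a x - P b x) ((2 * Real.pi * Complex.I * N : ℂ), (0:ℝ)) w := by
    intro a b hab
    refine Wd.exists hK hpKN ((hPc a).sub (hPc b)) (hPne a b hab) ?_
    intro x hx
    show P a (x + _) - P b (x + _) = P a x - P b x
    rw [hper x hx a, hper x hx b]
  have h0mem : (0:ℝ) ∈ Icc (0:ℝ) 1 := ⟨le_rfl, zero_le_one⟩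
  have h1mem : (1:ℝ) ∈ Icc (0:ℝ) 1 := ⟨zero_le_one, le_rfl⟩
  -- comparison at `τ = 0`
  obtain ⟨π, hπ⟩ := lab_uniq (K := {s : ℂ | s.re < c}) hK0.isPreconnected
    (φ := fun s => F (fun p => Complex.exp (-s) * u p))
    (fun s _ => hR.good.sqf _ (line_infinity_R_conf_smul hu (Complex.exp_ne_zero _)))
    (M := Q) (M' := fun a s => P a (s, 0)) (fun a => (hQc a).continuousOn)
    (fun a => (hPc a).comp (by fun_prop : Continuous fun s : ℂ => (s, (0:ℝ))).continuousOn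
      (fun s hs => ⟨hs, h0mem⟩))
    (fun s _ => hQl s)
    (fun s hs => by
      have h1 := hPl (s, 0) ⟨hs, h0mem⟩
      have h2 : (fun p => Complex.exp (-(s, (0:ℝ)).1) * u p + (((s, (0:ℝ)).2 : ℝ):ℂ) * v p) =
          fun p => Complex.exp (-s) * u p := by
        funext p
        show Complex.exp (-s) * u p + ((0:ℝ):ℂ) * v p = _
        rw [Complex.ofReal_zero, zero_mul, add_zero]
      rw [h2] at h1
      exact h1)
  have hWeq : ∀ a b d, a ≠ b → a ≠ d → b ≠ d →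
      (∀ x ∈ ({s : ℂ | s.re < c} ×ˢ Icc (0:ℝ) 1),
        rel (fun p => Complex.exp (-x.1) * u p + (x.2:ℂ) * v p) (P a x) (P b x)) →
      (∀ x ∈ ({s : ℂ | s.re < c} ×ˢ Icc (0:ℝ) 1),
        rel (fun p => Complex.exp (-x.1) * u p + (x.2:ℂ) * v p) (P a x) (P d x)) →
      ∀ w w' : ℤ,
      Wd ({s : ℂ | s.re < c} ×ˢ Icc (0:ℝ) 1)
        (fun x => P a x - P b x) ((2 * Real.pi * Complex.I * N : ℂ), (0:ℝ)) w →
      Wd ({s : ℂ | s.re < c} ×ˢ Icc (0:ℝ) 1)
        (fun x => P a x - P d x) ((2 * Real.pi * Complex.I * N : ℂ), (0:ℝ)) w' → w - w' = 0 := by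
    intro a b d hab had hbd hBb hBd w w' hw hw'
    have k1 := hw.comp (K' := {s : ℂ | s.re < c}) (p' := (2 * Real.pi * Complex.I * N : ℂ))
      (f := fun s : ℂ => (s, (0:ℝ)))
      (by fun_prop : Continuous fun s : ℂ => (s, (0:ℝ))).continuousOn
      (fun s hs => ⟨hs, h0mem⟩) (fun s _ => by simp)
    have k2 := hw'.comp (K' := {s : ℂ | s.re < c}) (p' := (2 * Real.pi * Complex.I * N : ℂ))
      (f := fun s : ℂ => (s, (0:ℝ)))
      (by fun_prop : Continuous fun s : ℂ => (s, (0:ℝ))).continuousOn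
      (fun s hs => ⟨hs, h0mem⟩) (fun s _ => by simp)
    have k3 := k1.div k2
    have hs0 : ((c - 1 : ℝ) : ℂ) ∈ {s : ℂ | s.re < c} := by
      show (((c - 1 : ℝ) : ℂ)).re < c
      rw [Complex.ofReal_re]
      linarith
    have k4 : Wd {s : ℂ | s.re < c} (fun s => (P a (s, 0) - P b (s, 0)) /
        (P a (s, 0) - P d (s, 0))) (2 * Real.pi * Complex.I * N : ℂ) 0 := by
      refine ⟨fun _ => Complex.log ((P a (((c - 1 : ℝ) : ℂ), 0) - P b (((c - 1 : ℝ) : ℂ), 0)) /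
        (P a (((c - 1 : ℝ) : ℂ), 0) - P d (((c - 1 : ℝ) : ℂ), 0))), continuousOn_const, ?_, ?_⟩
      · intro s hs
        rw [Complex.exp_log]
        · have e1 : ∀ s ∈ {s : ℂ | s.re < c}, ∀ a, P a (s, 0) = Q (π a) s := hπ
          show _ = (P a (s, 0) - P b (s, 0)) / (P a (s, 0) - P d (s, 0))
          rw [e1 _ hs0 a, e1 _ hs0 b, e1 _ hs0 d, e1 _ hs a, e1 _ hs b, e1 _ hs d]
          have e2 : ∀ s : ℂ, (fun p => Complex.exp (-(s, (0:ℝ)).1) * u p +
              (((s, (0:ℝ)).2 : ℝ):ℂ) * v p) = fun p => Complex.exp (-s) * u p := by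
            intro s
            funext p
            show Complex.exp (-s) * u p + ((0:ℝ):ℂ) * v p = _
            rw [Complex.ofReal_zero, zero_mul, add_zero]
          have r1 := hBb (s, 0) ⟨hs, h0mem⟩
          have r2 := hBd (s, 0) ⟨hs, h0mem⟩
          rw [e2 s, e1 _ hs, e1 _ hs] at r1 r2
          exact hQr (π a) (π b) (π d) (fun h => hab (π.injective h))
            (fun h => had (π.injective h)) (fun h => hbd (π.injective h)) s r1 r2 _ _
        · exact div_ne_zero (hPne a b hab _ ⟨hs0, h0mem⟩) (hPne a d had _ ⟨hs0, h0mem⟩)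
      · intro s _
        simp
    exact Wd.unique hK0.isPreconnected ⟨_, hs0⟩ hp0 k3 k4
  -- holomorphy at `τ = 1`
  have hH1 : DifferentiableOn ℂ
      (fun s : ℂ => (fun p => Complex.exp (-s) * u p + ((1:ℝ):ℂ) * v p : Fin (m + 1) → ℂ))
      {s : ℂ | s.re < c} := by
    rw [differentiableOn_pi]
    intro p
    exact (((Complex.differentiable_exp.comp differentiable_neg).mul_const _).add_const
      _).differentiableOn
  have hP1 : ∀ a, ContinuousOn (fun s : ℂ => P a (s, 1)) {s : ℂ | s.re < c} := fun a =>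
    (hPc a).comp (by fun_prop : Continuous fun s : ℂ => (s, (1:ℝ))).continuousOn
      (fun s hs => ⟨hs, h1mem⟩)
  have hholo : ∀ a b, (∀ x ∈ ({s : ℂ | s.re < c} ×ˢ Icc (0:ℝ) 1),
        rel (fun p => Complex.exp (-x.1) * u p + (x.2:ℂ) * v p) (P a x) (P b x)) →
      DifferentiableOn ℂ (fun s : ℂ => P a (s, 1) - P b (s, 1)) {s : ℂ | s.re < c} :=
    fun a b hB => hR.hol hK0o
      (fun s : ℂ => (fun p => Complex.exp (-s) * u p + ((1:ℝ):ℂ) * v p : Fin (m + 1) → ℂ)) hH1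
      (fun s hs => hconf (s, 1) ⟨hs, h1mem⟩) (fun a s => P a (s, 1)) hP1
      (fun s hs => hPl (s, 1) ⟨hs, h1mem⟩) a b (fun s hs => hB (s, 1) ⟨hs, h1mem⟩)
  have hall : ∀ x : Fin n × Fin n × Fin n, ∃ C c' : ℝ, x.1 ≠ x.2.1 → x.1 ≠ x.2.2 →
      x.2.1 ≠ x.2.2 →
      (∀ y ∈ ({s : ℂ | s.re < c} ×ˢ Icc (0:ℝ) 1),
        rel (fun p => Complex.exp (-y.1) * u p + (y.2:ℂ) * v p) (P x.1 y) (P x.2.1 y)) →
      (∀ y ∈ ({s : ℂ | s.re < c} ×ˢ Icc (0:ℝ) 1),
        rel (fun p => Complex.exp (-y.1) * u p + (y.2:ℂ) * v p) (P x.1 y) (P x.2.2 y)) →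
      ∀ s : ℂ, s.re < c' →
        ‖(P x.1 (s, 1) - P x.2.1 (s, 1)) / (P x.1 (s, 1) - P x.2.2 (s, 1))‖ ≤ C := by
    rintro ⟨a, b, d⟩
    by_cases hdist : (a ≠ b ∧ a ≠ d ∧ b ≠ d) ∧
      (∀ y ∈ ({s : ℂ | s.re < c} ×ˢ Icc (0:ℝ) 1),
        rel (fun p => Complex.exp (-y.1) * u p + (y.2:ℂ) * v p) (P a y) (P b y)) ∧
      (∀ y ∈ ({s : ℂ | s.re < c} ×ˢ Icc (0:ℝ) 1),
        rel (fun p => Complex.exp (-y.1) * u p + (y.2:ℂ) * v p) (P a y) (P d y))
    · obtain ⟨⟨hab, had, hbd⟩, hBb, hBd⟩ := hdist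
      obtain ⟨w, hw⟩ := hW a b hab
      obtain ⟨w', hw'⟩ := hW a d had
      have hww := hWeq a b d hab had hbd hBb hBd w w' hw hw'
      have k1 := hw.comp (K' := {s : ℂ | s.re < c}) (p' := (2 * Real.pi * Complex.I * N : ℂ))
        (f := fun s : ℂ => (s, (1:ℝ)))
        (by fun_prop : Continuous fun s : ℂ => (s, (1:ℝ))).continuousOn
        (fun s hs => ⟨hs, h1mem⟩) (fun s _ => by simp)
      have k2 := hw'.comp (K' := {s : ℂ | s.re < c}) (p' := (2 * Real.pi * Complex.I * N : ℂ))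
        (f := fun s : ℂ => (s, (1:ℝ)))
        (by fun_prop : Continuous fun s : ℂ => (s, (1:ℝ))).continuousOn
        (fun s hs => ⟨hs, h1mem⟩) (fun s _ => by simp)
      have k3 := k1.div k2
      rw [hww] at k3
      have hne1 : ∀ s : ℂ, s.re < c → P a (s, 1) - P b (s, 1) ≠ 0 := fun s hs =>
        hPne a b hab _ ⟨hs, h1mem⟩
      have hne2 : ∀ s : ℂ, s.re < c → P a (s, 1) - P d (s, 1) ≠ 0 := fun s hs =>
        hPne a d had _ ⟨hs, h1mem⟩
      have hne3 : ∀ s : ℂ, s.re < c → P b (s, 1) - P d (s, 1) ≠ 0 := fun s hs =>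
        hPne b d hbd _ ⟨hs, h1mem⟩
      have hg : DifferentiableOn ℂ
          (fun s : ℂ => (P a (s, 1) - P b (s, 1)) / (P a (s, 1) - P d (s, 1)))
          {s : ℂ | s.re < c} :=
        (hholo a b hBb).div (hholo a d hBd) hne2
      obtain ⟨C, c', hC, hc', hb⟩ := end_main hN0 hg
        (fun s hs => div_ne_zero (hne1 s hs) (hne2 s hs))
        (fun s hs h => by
          rw [div_eq_one_iff_eq (hne2 s hs)] at h
          have h2 : P b (s, 1) = P d (s, 1) := by linear_combination -h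
          exact hne3 s hs (sub_eq_zero.mpr h2)) k3
      refine ⟨C, c', fun _ _ _ _ _ s hs => ?_⟩
      have h3 := (hb s hs).1
      have h4 : Complex.exp (-(((0:ℤ):ℂ) / (N:ℂ) * s)) = 1 := by simp
      rw [h4, mul_one] at h3
      exact h3
    · exact ⟨0, 0, fun h1 h2 h3 h4 h5 => absurd ⟨⟨h1, h2, h3⟩, h4, h5⟩ hdist⟩
  choose Cf cf hCf using hall
  obtain ⟨C, hC⟩ := (Set.finite_range Cf).bddAbove
  obtain ⟨c0, hc0⟩ := (Set.finite_range cf).bddBelow
  refine ⟨Real.exp (-(min c0 c)), C, ?_⟩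
  intro t ht
  have htpos : 0 < ‖t‖ := lt_trans (Real.exp_pos _) ht
  have ht0 : t ≠ 0 := norm_pos_iff.mp htpos
  obtain ⟨s, hs⟩ : ∃ s : ℂ, s = -Complex.log t := ⟨_, rfl⟩
  have hes : Complex.exp (-s) = t := by rw [hs, neg_neg, Complex.exp_log ht0]
  have hsre : s.re < min c0 c := by
    rw [hs, Complex.neg_re, Complex.log_re]
    have h1 := (Real.lt_log_iff_exp_lt htpos).mpr ht
    linarith
  have hsc : s.re < c := lt_of_lt_of_le hsre (min_le_right _ _)
  have hsc0 : s.re < c0 := lt_of_lt_of_le hsre (min_le_left _ _)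
  have hfun : (fun p => v p + t * u p) =
      (fun p => Complex.exp (-(s, (1:ℝ)).1) * u p + (((s, (1:ℝ)).2 : ℝ):ℂ) * v p) := by
    funext p
    show v p + t * u p = Complex.exp (-s) * u p + ((1:ℝ):ℂ) * v p
    rw [hes, Complex.ofReal_one]
    ring
  rw [hfun]
  refine ⟨hconf (s, 1) ⟨hsc, h1mem⟩, ?_⟩
  intro X hX a b d hab had hbd hrb hrd
  obtain ⟨ρ, hρ⟩ := lab_uniq (K := ({s} : Set ℂ)) isPreconnected_singleton
    (φ := fun s => F (fun p => Complex.exp (-(s, (1:ℝ)).1) * u p + (((s, (1:ℝ)).2 : ℝ):ℂ) * v p))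
    (M := fun a s => P a (s, 1)) (M' := fun a _ => X a)
    (fun s' hs' => by
      rw [Set.mem_singleton_iff] at hs'
      rw [hs']
      exact hsq (s, 1) ⟨hsc, h1mem⟩)
    (fun a => continuousOn_singleton _ _) (fun a => continuousOn_singleton _ _)
    (fun s' hs' => by
      rw [Set.mem_singleton_iff] at hs'
      rw [hs']
      exact hPl (s, 1) ⟨hsc, h1mem⟩)
    (fun s' hs' => by
      rw [Set.mem_singleton_iff] at hs'
      rw [hs']
      exact hX)
  have e1 : ∀ a, X a = P (ρ a) (s, 1) := fun a => hρ s (Set.mem_singleton s) a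
  have e2 := hCf (ρ a, ρ b, ρ d) (fun h => hab (ρ.injective h)) (fun h => had (ρ.injective h))
    (fun h => hbd (ρ.injective h))
    (hPr (ρ a) (ρ b) (s, 1) ⟨hsc, h1mem⟩ (by rw [← e1 a, ← e1 b]; exact hrb))
    (hPr (ρ a) (ρ d) (s, 1) ⟨hsc, h1mem⟩ (by rw [← e1 a, ← e1 d]; exact hrd))
    s (lt_of_lt_of_le hsc0 (hc0 ⟨_, rfl⟩))
  rw [rat, e1 a, e1 b, e1 d]
  exact le_trans e2 (hC ⟨_, rfl⟩)


theorem scale_Th_R_perm {n : ℕ} (ρ : ℂ → ℂ → Prop) (π : Equiv.Perm (Fin n)) (Y : Fin n → ℂ) (x : ℂ) :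
    ThR ρ x (fun a => Y (π a)) = ThR ρ x Y := by
  classical
  unfold ThR
  have h1 : ∀ a b c : Fin n, (if (a ≠ b ∧ a ≠ c ∧ b ≠ c) ∧ ρ (Y (π a)) (Y (π b)) ∧
        ρ (Y (π a)) (Y (π c)) then x - rat (fun a => Y (π a)) a b c else 1)
      = (if (π a ≠ π b ∧ π a ≠ π c ∧ π b ≠ π c) ∧ ρ (Y (π a)) (Y (π b)) ∧
        ρ (Y (π a)) (Y (π c)) then x - rat Y (π a) (π b) (π c) else 1) := by
    intro a b c
    have : ((a ≠ b ∧ a ≠ c ∧ b ≠ c) ∧ ρ (Y (π a)) (Y (π b)) ∧ ρ (Y (π a)) (Y (π c))) ↔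
        ((π a ≠ π b ∧ π a ≠ π c ∧ π b ≠ π c) ∧ ρ (Y (π a)) (Y (π b)) ∧
        ρ (Y (π a)) (Y (π c))) := by
      simp [π.injective.eq_iff]
    exact if_congr this rfl rfl
  simp only [h1]
  rw [← Equiv.prod_comp π (fun a => ∏ b, ∏ c, if (a ≠ b ∧ a ≠ c ∧ b ≠ c) ∧ ρ (Y a) (Y b) ∧
        ρ (Y a) (Y c) then x - rat Y a b c else 1)]
  refine Finset.prod_congr rfl (fun a _ => ?_)
  rw [← Equiv.prod_comp π (fun b => ∏ c, if (π a ≠ b ∧ π a ≠ c ∧ b ≠ c) ∧ ρ (Y (π a)) (Y b) ∧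
        ρ (Y (π a)) (Y c) then x - rat Y (π a) b c else 1)]
  refine Finset.prod_congr rfl (fun b _ => ?_)
  rw [← Equiv.prod_comp π (fun c => if (π a ≠ π b ∧ π a ≠ c ∧ π b ≠ c) ∧ ρ (Y (π a)) (Y (π b)) ∧
        ρ (Y (π a)) (Y c) then x - rat Y (π a) (π b) c else 1)]

theorem scale_Th_R_rat {n : ℕ} (ρ ρ' : ℂ → ℂ → Prop) (Y Z : Fin n → ℂ)
    (hρ : ∀ a b, ρ (Y a) (Y b) ↔ ρ' (Z a) (Z b))
    (h : ∀ a b c, a ≠ b → a ≠ c → b ≠ c → ρ (Y a) (Y b) → ρ (Y a) (Y c) →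
      rat Y a b c = rat Z a b c) (x : ℂ) : ThR ρ x Y = ThR ρ' x Z := by
  classical
  unfold ThR
  refine Finset.prod_congr rfl (fun a _ => Finset.prod_congr rfl (fun b _ =>
    Finset.prod_congr rfl (fun c _ => ?_)))
  by_cases hc : (a ≠ b ∧ a ≠ c ∧ b ≠ c) ∧ ρ (Y a) (Y b) ∧ ρ (Y a) (Y c)
  · have hc' : (a ≠ b ∧ a ≠ c ∧ b ≠ c) ∧ ρ' (Z a) (Z b) ∧ ρ' (Z a) (Z c) :=
      ⟨hc.1, (hρ a b).mp hc.2.1, (hρ a c).mp hc.2.2⟩
    rw [if_pos hc, if_pos hc', h a b c hc.1.1 hc.1.2.1 hc.1.2.2 hc.2.1 hc.2.2]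
  · have hc' : ¬ ((a ≠ b ∧ a ≠ c ∧ b ≠ c) ∧ ρ' (Z a) (Z b) ∧ ρ' (Z a) (Z c)) := fun h' =>
      hc ⟨h'.1, (hρ a b).mpr h'.2.1, (hρ a c).mpr h'.2.2⟩
    rw [if_neg hc, if_neg hc']

theorem scale_Th_R_single {n : ℕ} (z Y Y' : Fin n → ℂ) (hs : Squarefree (mpoly n z))
    (h : Lab z Y) (h' : Lab z Y') : ∃ π : Equiv.Perm (Fin n), Y' = fun a => Y (π a) := by
  obtain ⟨π, hπ⟩ := lab_uniq (V := ℂ) (K := {(0 : ℂ)}) isPreconnected_singleton
    (φ := fun _ => z) (fun _ _ => hs) (M := fun a _ => Y a) (M' := fun a _ => Y' a)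
    (fun a => continuousOn_const) (fun a => continuousOn_const) (fun _ _ => h) (fun _ _ => h')
  exact ⟨π, funext (fun a => hπ 0 rfl a)⟩

theorem scale_Th_R (hR : GoodR m n F rel l) (r : Fin (m + 1) → ℂ) (hr : r ∈ Conf m) (α : ℂ)
    (hα : α ≠ 0) (X X' : Fin n → ℂ) (hX : Lab (F r) X) (hX' : Lab (F (fun p => α * r p)) X')
    (x : ℂ) : ThR (rel r) x X = ThR (rel (fun p => α * r p)) x X' := by
  obtain ⟨Q, hQc, hQl, hQrc, hQr⟩ := line_infinity_R_const hR r hr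
  have hconf : ∀ s : ℂ, (fun p => Complex.exp (-s) * r p) ∈ Conf m := fun s =>
    line_infinity_R_conf_smul hr (Complex.exp_ne_zero _)
  have hsq : ∀ s : ℂ, Squarefree (mpoly n (F (fun p => Complex.exp (-s) * r p))) :=
    fun s => hR.good.sqf _ (hconf s)
  have e0 : (fun p => Complex.exp (-(0:ℂ)) * r p) = r := by
    funext p; simp
  have e1 : (fun p => Complex.exp (-(-Complex.log α)) * r p) = fun p => α * r p := by
    funext p; rw [neg_neg, Complex.exp_log hα]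
  obtain ⟨π, hπ⟩ := scale_Th_R_single _ _ X (hsq 0) (hQl 0) (by rw [e0]; exact hX)
  obtain ⟨π', hπ'⟩ := scale_Th_R_single _ _ X' (hsq (-Complex.log α))
    (hQl (-Complex.log α)) (by rw [e1]; exact hX')
  rw [hπ, hπ', scale_Th_R_perm (rel r) π (fun a => Q a 0) x,
    scale_Th_R_perm (rel (fun p => α * r p)) π' (fun a => Q a (-Complex.log α)) x]
  refine scale_Th_R_rat _ _ _ _ (fun a b => ?_) (fun a b c hab hac hbc h1 h2 => ?_) x
  · constructor
    · intro h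
      have := hQrc a b 0 (-Complex.log α) (by rw [e0]; exact h)
      rw [e1] at this
      exact this
    · intro h
      have := hQrc a b (-Complex.log α) 0 (by rw [e1]; exact h)
      rw [e0] at this
      exact this
  · exact hQr a b c hab hac hbc 0 (by rw [e0]; exact h1) (by rw [e0]; exact h2) 0 (-Complex.log α)

end LinC
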