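import Pool.Agent.Helper996.LinC.DefsR
import Pool.Agent.Helper996.Lin.J_lab_basic
import Pool.Agent.Helper996.Lin.J_lab_lift
import Pool.Agent.Helper996.Lin.J_Conf_top

set_option autoImplicit false

open Polynomial Set Filter Topology LinS

namespace LinC

variable {m n l : ℕ} {F : (Fin (m + 1) → ℂ) → Fin n → ℂ} {rel : (Fin (m + 1) → ℂ) → ℂ → ℂ → Prop}

theorem theta_exists_R_perm (ρ : ℂ → ℂ → Prop) (x : ℂ) (X : Fin n → ℂ) (π : Equiv.Perm (Fin n)) :
    ThR ρ x (fun a => X (π a)) = ThR ρ x X := by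
  classical
  unfold ThR
  rw [← Equiv.prod_comp π (fun a => ∏ b, ∏ c,
    if (a ≠ b ∧ a ≠ c ∧ b ≠ c) ∧ ρ (X a) (X b) ∧ ρ (X a) (X c) then x - rat X a b c else 1)]
  apply Finset.prod_congr rfl
  intro a _
  rw [← Equiv.prod_comp π
    (fun b => ∏ c, if (π a ≠ b ∧ π a ≠ c ∧ b ≠ c) ∧ ρ (X (π a)) (X b) ∧ ρ (X (π a)) (X c)
      then x - rat X (π a) b c else 1)]
  apply Finset.prod_congr rfl
  intro b _
  rw [← Equiv.prod_comp π
    (fun c => if (π a ≠ π b ∧ π a ≠ c ∧ π b ≠ c) ∧ ρ (X (π a)) (X (π b)) ∧ ρ (X (π a)) (X c)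
      then x - rat X (π a) (π b) c else 1)]
  apply Finset.prod_congr rfl
  intro c _
  simp only [ne_eq, π.injective.eq_iff, rat]

theorem theta_exists_R_lab (hR : GoodR m n F rel l) {r : Fin (m + 1) → ℂ} (hr : r ∈ Conf m) :
    ∃ X : Fin n → ℂ, Lab (F r) X := by
  obtain ⟨M, -, hM⟩ := lab_lift (K := ({r} : Set (Fin (m + 1) → ℂ))) (convex_singleton r)
    (φ := F) (continuousOn_singleton F r) (by
      intro v hv
      rw [mem_singleton_iff] at hv
      rw [hv]
      exact hR.good.sqf r hr)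
  exact ⟨_, hM r rfl⟩

theorem theta_exists_R_uniq (hR : GoodR m n F rel l) {r : Fin (m + 1) → ℂ} (hr : r ∈ Conf m)
    {X X' : Fin n → ℂ} (h : Lab (F r) X) (h' : Lab (F r) X') (x : ℂ) :
    ThR (rel r) x X' = ThR (rel r) x X := by
  obtain ⟨π, hπ⟩ := lab_uniq (V := Unit) (K := univ) isPreconnected_univ
    (φ := fun _ => F r) (fun _ _ => hR.good.sqf r hr) (M := fun a _ => X a) (M' := fun a _ => X' a)
    (fun a => continuousOn_const) (fun a => continuousOn_const) (fun _ _ => h) (fun _ _ => h')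
  have : X' = fun a => X (π a) := by
    funext a
    exact hπ () (mem_univ _) a
  rw [this]
  exact theta_exists_R_perm (rel r) x X π

theorem theta_exists_R_prod {U : Set (Fin (m + 1) → ℂ)} {ι : Type} (s : Finset ι)
    {f : ι → (Fin (m + 1) → ℂ) → ℂ} (h : ∀ i ∈ s, DifferentiableOn ℂ (f i) U) :
    DifferentiableOn ℂ (fun r => ∏ i ∈ s, f i r) U := by
  classical
  induction s using Finset.induction_on with
  | empty => simp
  | insert i s hi ih =>
    simp only [Finset.prod_insert hi]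
    exact (h i (Finset.mem_insert_self i s)).mul
      (ih (fun k hk => h k (Finset.mem_insert_of_mem hk)))

theorem theta_exists_R_diff (hR : GoodR m n F rel l) {U : Set (Fin (m + 1) → ℂ)} (hU : IsOpen U)
    (hp : IsPreconnected U) (hUc : U ⊆ Conf m)
    {M : Fin n → (Fin (m + 1) → ℂ) → ℂ} (hM : ∀ a, ContinuousOn (M a) U)
    (hL : ∀ v ∈ U, Lab (F v) (fun a => M a v)) (x : ℂ) :
    DifferentiableOn ℂ (fun r => ThR (rel r) x (fun a => M a r)) U := by
  classical
  have hi : ∀ v ∈ U, Function.Injective (fun a => M a v) := fun v hv =>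
    lab_inj (hL v hv) (hR.good.sqf v (hUc hv))
  unfold ThR
  apply theta_exists_R_prod
  intro a _
  apply theta_exists_R_prod
  intro b _
  apply theta_exists_R_prod
  intro c _
  by_cases h : a ≠ b ∧ a ≠ c ∧ b ≠ c
  swap
  · refine (differentiableOn_const (1 : ℂ)).congr fun v _ => ?_
    exact if_neg (fun h' => h h'.1)
  by_cases h2 : ∃ w ∈ U, rel w (M a w) (M b w) ∧ rel w (M a w) (M c w)
  swap
  · refine (differentiableOn_const (1 : ℂ)).congr fun v hv => ?_
    exact if_neg (fun h' => h2 ⟨v, hv, h'.2⟩)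
  obtain ⟨w, hw, hb, hc⟩ := h2
  have hB : ∀ v ∈ U, rel v (M a v) (M b v) := fun v hv =>
    hR.rel_cont hp (fun v => v) continuousOn_id (fun v hv => hUc hv) M hM hL w hw v hv a b hb
  have hC : ∀ v ∈ U, rel v (M a v) (M c v) := fun v hv =>
    hR.rel_cont hp (fun v => v) continuousOn_id (fun v hv => hUc hv) M hM hL w hw v hv a c hc
  have dB := hR.hol hU (fun v => v) differentiableOn_id (fun v hv => hUc hv) M hM hL a b hB
  have dC := hR.hol hU (fun v => v) differentiableOn_id (fun v hv => hUc hv) M hM hL a c hC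
  have hne : ∀ v ∈ U, M a v - M c v ≠ 0 := by
    intro v hv h0
    exact h.2.1 (hi v hv (sub_eq_zero.1 h0))
  have h1 : DifferentiableOn ℂ (fun v => x - (M a v - M b v) * (M a v - M c v)⁻¹) U :=
    (differentiableOn_const x).sub (dB.mul (dC.inv hne))
  refine h1.congr fun v hv => ?_
  rw [if_pos ⟨h, hB v hv, hC v hv⟩]
  unfold rat
  rw [div_eq_mul_inv]

theorem theta_exists_R (hR : GoodR m n F rel l) (x : ℂ) : ∃ θ : (Fin (m + 1) → ℂ) → ℂ,
    DifferentiableOn ℂ θ (Conf m) ∧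
    ∀ r ∈ Conf m, ∀ X : Fin n → ℂ, Lab (F r) X → θ r = ThR (rel r) x X := by
  classical
  have hex : ∀ r : Fin (m + 1) → ℂ, ∃ X : Fin n → ℂ, r ∈ Conf m → Lab (F r) X := by
    intro r
    by_cases hr : r ∈ Conf m
    · obtain ⟨X, hX⟩ := theta_exists_R_lab hR hr
      exact ⟨X, fun _ => hX⟩
    · exact ⟨0, fun h => absurd h hr⟩
  choose X hX using hex
  have h2 : ∀ r ∈ Conf m, ∀ X' : Fin n → ℂ, Lab (F r) X' →
      ThR (rel r) x (X r) = ThR (rel r) x X' :=
    fun r hr X' hX' => theta_exists_R_uniq hR hr hX' (hX r hr) x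
  refine ⟨fun r => ThR (rel r) x (X r), ?_, h2⟩
  intro r₀ hr₀
  obtain ⟨ε, hε, hball⟩ := Metric.isOpen_iff.1 (Conf_open m) r₀ hr₀
  obtain ⟨M, hM, hML⟩ := lab_lift (K := Metric.ball r₀ ε) (convex_ball r₀ ε)
    (φ := F) (hR.good.holo.mono hball) (fun v hv => hR.good.sqf v (hball hv))
  have h4 := theta_exists_R_diff hR Metric.isOpen_ball (convex_ball r₀ ε).isPreconnected hball
    hM hML x
  have h5 : DifferentiableAt ℂ (fun r => ThR (rel r) x (fun a => M a r)) r₀ :=
    h4.differentiableAt (Metric.ball_mem_nhds r₀ hε)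
  apply DifferentiableAt.differentiableWithinAt
  apply h5.congr_of_eventuallyEq
  filter_upwards [Metric.ball_mem_nhds r₀ hε] with v hv
  exact h2 v (hball hv) _ (hML v hv)

/-- the ratios inside a block are constant -/
theorem rigid_of_ThR_rat (hR : GoodR m n F rel l) {V : Type} [TopologicalSpace V] {K : Set V}
    (hK : IsPreconnected K) (H : V → Fin (m + 1) → ℂ) (hH : ContinuousOn H K)
    (hHc : ∀ v ∈ K, H v ∈ Conf m) (M : Fin n → V → ℂ) (hM : ∀ a, ContinuousOn (M a) K)
    (hL : ∀ v ∈ K, Lab (F (H v)) (fun a => M a v))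
    (hTh : ∀ v ∈ K, ∀ v' ∈ K, ∀ x,
      ThR (rel (H v)) x (fun a => M a v) = ThR (rel (H v')) x (fun a => M a v'))
    {v v' : V} (hv : v ∈ K) (hv' : v' ∈ K) {a b c : Fin n} (hab : a ≠ b) (hac : a ≠ c)
    (hbc : b ≠ c) (h1 : rel (H v) (M a v) (M b v)) (h2 : rel (H v) (M a v) (M c v)) :
    (M a v - M b v) / (M a v - M c v) = (M a v' - M b v') / (M a v' - M c v') := by
  classical
  have hinj : ∀ v ∈ K, Function.Injective (fun a => M a v) := fun v hv =>
    lab_inj (hL v hv) (hR.good.sqf _ (hHc v hv))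
  set S : Set ℂ := Set.range (fun p : Fin n × Fin n × Fin n =>
    rat (fun d => M d v) p.1 p.2.1 p.2.2) with hS
  have hSfin : S.Finite := Set.finite_range _
  have hc : ContinuousOn (fun u => (M a u - M b u) / (M a u - M c u)) K := by
    refine ContinuousOn.div ((hM a).sub (hM b)) ((hM a).sub (hM c)) ?_
    intro u hu h0
    exact hac (hinj u hu (sub_eq_zero.mp h0))
  have hmaps : Set.MapsTo (fun u => (M a u - M b u) / (M a u - M c u)) K S := by
    intro u hu
    have r1 : rel (H u) (M a u) (M b u) := hR.rel_cont hK H hH hHc M hM hL v hv u hu a b h1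
    have r2 : rel (H u) (M a u) (M c u) := hR.rel_cont hK H hH hHc M hM hL v hv u hu a c h2
    have h1 : ThR (rel (H u)) ((M a u - M b u) / (M a u - M c u)) (fun d => M d u) = 0 := by
      unfold ThR
      refine Finset.prod_eq_zero (Finset.mem_univ a) ?_
      refine Finset.prod_eq_zero (Finset.mem_univ b) ?_
      refine Finset.prod_eq_zero (Finset.mem_univ c) ?_
      rw [if_pos ⟨⟨hab, hac, hbc⟩, r1, r2⟩]
      exact sub_self _
    rw [hTh u hu v hv] at h1
    unfold ThR at h1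
    obtain ⟨a', _, h2⟩ := Finset.prod_eq_zero_iff.mp h1
    obtain ⟨b', _, h3⟩ := Finset.prod_eq_zero_iff.mp h2
    obtain ⟨c', _, h4⟩ := Finset.prod_eq_zero_iff.mp h3
    split_ifs at h4 with h5
    · exact ⟨(a', b', c'), (sub_eq_zero.mp h4).symm⟩
    · exact absurd h4 one_ne_zero
  exact hK.constant_of_mapsTo hSfin.isDiscrete hc hmaps hv hv'

/-- labels with constant `ThR` have constant differences inside the blocks -/
theorem rigid_of_ThR (hR : GoodR m n F rel l) {V : Type} [TopologicalSpace V] {K : Set V}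
    (hK : IsPreconnected K) (H : V → Fin (m + 1) → ℂ) (hH : ContinuousOn H K)
    (hHc : ∀ v ∈ K, H v ∈ Conf m) (M : Fin n → V → ℂ) (hM : ∀ a, ContinuousOn (M a) K)
    (hL : ∀ v ∈ K, Lab (F (H v)) (fun a => M a v))
    (hTh : ∀ v ∈ K, ∀ v' ∈ K, ∀ x,
      ThR (rel (H v)) x (fun a => M a v) = ThR (rel (H v')) x (fun a => M a v')) :
    ∀ v ∈ K, ∀ v' ∈ K, ∀ a b, rel (H v) (M a v) (M b v) → M a v - M b v = M a v' - M b v' := by
  intro v hv v' hv' a b hab
  refine hR.rigid hK H hH hHc M hM hL v' hv' a ?_ v hv a b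
    (hR.rel_refl (H v) (hHc v hv) _ (hL v hv) a) hab
  intro w hw
  have hne : ∀ u ∈ K, ∀ a b : Fin n, a ≠ b → M a u - M b u ≠ 0 := by
    intro u hu a b h h0
    exact h (lab_inj (hL u hu) (hR.good.sqf _ (hHc u hu)) (sub_eq_zero.mp h0))
  obtain ⟨b₀, -, hb₀, -, -, hr₀, -⟩ := hR.three (H w) (hHc w hw) _ (hL w hw) a
  have h1 := hne w hw a b₀ hb₀
  have h2 := hne v' hv' a b₀ hb₀
  have key : ∀ d, rel (H w) (M a w) (M d w) → M a w - M d w
      = (M a w - M b₀ w) / (M a v' - M b₀ v') * (M a v' - M d v') := by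
    intro d hd
    by_cases hb : d = a
    · subst hb; simp
    · by_cases hb' : d = b₀
      · subst hb'
        rw [div_mul_cancel₀ _ h2]
      · have h3 := rigid_of_ThR_rat hR hK H hH hHc M hM hL hTh hw hv' (Ne.symm hb) hb₀ hb' hd hr₀
        rw [div_eq_div_iff h1 h2] at h3
        rw [div_mul_eq_mul_div, eq_div_iff h2, h3]
        ring
  refine ⟨(M a w - M b₀ w) / (M a v' - M b₀ v'), fun c d hc hd => ?_⟩
  have ka := key c hc
  have kb := key d hd
  calc M c w - M d w = (M a w - M d w) - (M a w - M c w) := by ring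
    _ = _ := by rw [ka, kb]; ring

end LinC
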