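import Pool.Agent.Helper996.LinC.DefsR
import Pool.Agent.Helper996.Lin.J_lab_basic
import Pool.Agent.Helper996.Lin.J_lab_lift
import Pool.Agent.Helper996.Lin.J_Conf_top
import Pool.Agent.Helper996.Lin.J_tf_facts
import Pool.Agent.Helper996.LinC.R_rb
import Pool.Agent.Helper996.LinC.R_theta
import Pool.Agent.Helper996.LinC.R_linei
import Pool.Agent.Helper996.LinC.R_effar

set_option autoImplicit false

open Polynomial Set Filter Topology LinS

namespace LinC

variable {m n l : ℕ} {F : (Fin (m + 1) → ℂ) → Fin n → ℂ} {rel : (Fin (m + 1) → ℂ) → ℂ → ℂ → Prop}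

theorem ef_const_R_liouville (F : Finset ℂ) : ∀ f : ℂ → ℂ, DifferentiableOn ℂ f (↑F : Set ℂ)ᶜ →
    (∃ C : ℝ, ∀ t, t ∉ F → ‖f t‖ ≤ C) → ∃ c : ℂ, ∀ t, t ∉ F → f t = c := by
  induction F using Finset.induction_on with
  | empty =>
    intro f hf hb
    obtain ⟨C, hC⟩ := hb
    have hf' : Differentiable ℂ f := by
      have : DifferentiableOn ℂ f univ := by simpa using hf
      exact differentiableOn_univ.1 this
    have hbd : Bornology.IsBounded (range f) := by
      rw [isBounded_iff_forall_norm_le]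
      exact ⟨C, by rintro _ ⟨t, rfl⟩; exact hC t (by simp)⟩
    exact ⟨f 0, fun t _ => hf'.apply_eq_apply_of_bounded hbd t 0⟩
  | insert a F ha ih =>
    intro f hf hb
    obtain ⟨C, hC⟩ := hb
    have hopen : IsOpen ((↑F : Set ℂ)ᶜ) := F.finite_toSet.isClosed.isOpen_compl
    have hs : (↑F : Set ℂ)ᶜ ∈ 𝓝 a := hopen.mem_nhds (by simpa using ha)
    have hset : (↑F : Set ℂ)ᶜ \ {a} = (↑(insert a F) : Set ℂ)ᶜ := by
      ext t
      simp only [Set.mem_sdiff, mem_compl_iff, Finset.mem_coe, mem_singleton_iff, Finset.coe_insert,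
        mem_insert_iff, not_or]
      exact and_comm
    have hd : DifferentiableOn ℂ f ((↑F : Set ℂ)ᶜ \ {a}) := by rw [hset]; exact hf
    have hbb : BddAbove (norm ∘ f '' ((↑F : Set ℂ)ᶜ \ {a})) := by
      refine ⟨C, ?_⟩
      rintro _ ⟨t, ht, rfl⟩
      rw [hset] at ht
      exact hC t (by simpa using ht)
    have hg := Complex.differentiableOn_update_limUnder_of_bddAbove hs hd hbb
    set g := Function.update f a ((𝓝[≠] a).limUnder f) with hgdef
    obtain ⟨c, hc⟩ := ih g hg ⟨max C ‖g a‖, fun t ht => by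
      by_cases hta : t = a
      · rw [hta]; exact le_max_right _ _
      · have : g t = f t := by rw [hgdef, Function.update_of_ne hta]
        rw [this]
        exact (hC t (by simp [hta, ht])).trans (le_max_left _ _)⟩
    refine ⟨c, fun t ht => ?_⟩
    rw [Finset.mem_insert, not_or] at ht
    have h1 := hc t ht.2
    rwa [hgdef, Function.update_of_ne ht.1] at h1

/-- a labelling of a single point -/
theorem ef_const_R_lab (hR : GoodR m n F rel l) {r : Fin (m + 1) → ℂ} (hr : r ∈ Conf m) :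
    ∃ X : Fin n → ℂ, Lab (F r) X := by
  obtain ⟨M, -, hM⟩ := lab_lift (K := {r}) (convex_singleton r) (φ := F)
    (continuousOn_singleton F r) (fun v hv => by
      rw [mem_singleton_iff] at hv; rw [hv]; exact hR.good.sqf r hr)
  exact ⟨fun a => M a r, hM r rfl⟩

/-- bound of `Th` -/
theorem ef_const_R_Th (ρ : ℂ → ℂ → Prop) (x : ℂ) (C : ℝ) (X : Fin n → ℂ)
    (h : ∀ a b c, a ≠ b → a ≠ c → b ≠ c → ρ (X a) (X b) → ρ (X a) (X c) → ‖rat X a b c‖ ≤ C) :
    ‖ThR ρ x X‖ ≤ ∏ _a : Fin n, ∏ _b : Fin n, ∏ _c : Fin n, (1 + ‖x‖ + |C|) := by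
  unfold ThR
  rw [norm_prod]
  refine Finset.prod_le_prod (fun _ _ => norm_nonneg _) fun a _ => ?_
  rw [norm_prod]
  refine Finset.prod_le_prod (fun _ _ => norm_nonneg _) fun b _ => ?_
  rw [norm_prod]
  refine Finset.prod_le_prod (fun _ _ => norm_nonneg _) fun c _ => ?_
  have hx := norm_nonneg x
  have hC := abs_nonneg C
  split_ifs with hab
  · have h1 := norm_sub_le x (rat X a b c)
    have h2 := h a b c hab.1.1 hab.1.2.1 hab.1.2.2 hab.2.1 hab.2.2
    have h3 := le_abs_self C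
    linarith
  · rw [norm_one]; linarith

theorem ef_const_R_norm (m : ℕ) (j : Fin (m + 1)) :
    ‖Complex.exp (2 * Complex.I * th m j)‖ = 1 := by
  have : (2 * Complex.I * th m j : ℂ) = ((2 * th m j : ℝ) : ℂ) * Complex.I := by
    push_cast
    ring
  rw [this, Complex.norm_exp_ofReal_mul_I]

theorem ef_const_R_th (m : ℕ) (j : Fin (m + 1)) : -Real.pi < 2 * th m j ∧ 2 * th m j < Real.pi := by
  have hj : ((j : ℕ) : ℝ) < m + 1 := by
    have := j.isLt
    exact_mod_cast this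
  have hj1 : ((j : ℕ) : ℝ) + 1 ≤ m + 1 := by
    have := j.isLt
    have h2 : (j : ℕ) + 1 ≤ m + 1 := this
    exact_mod_cast h2
  have hm : (0 : ℝ) < m + 1 := by positivity
  have hpi := Real.pi_pos
  have h0 : (0 : ℝ) ≤ (j : ℕ) := Nat.cast_nonneg _
  unfold th
  have h1 : 0 < Real.pi * ((j : ℕ) + 1 / 2) / (m + 1) := by positivity
  have h2 : Real.pi * ((j : ℕ) + 1 / 2) / (m + 1) < Real.pi := by
    rw [div_lt_iff₀ hm]
    apply mul_lt_mul_of_pos_left _ hpi
    linarith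
  constructor <;> linarith

theorem ef_const_R_inj (m : ℕ) (j k : Fin (m + 1))
    (h : Complex.exp (2 * Complex.I * th m j) = Complex.exp (2 * Complex.I * th m k)) : j = k := by
  have him : ∀ j : Fin (m + 1), (2 * Complex.I * th m j : ℂ).im = 2 * th m j := by
    intro j
    simp [Complex.mul_im, Complex.mul_re]
  have h1 := ef_const_R_th m j
  have h2 := ef_const_R_th m k
  have h3 : (2 * Complex.I * th m j : ℂ) = 2 * Complex.I * th m k := by
    apply Complex.exp_inj_of_neg_pi_lt_of_le_pi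
    · rw [him]; exact h1.1
    · rw [him]; exact h1.2.le
    · rw [him]; exact h2.1
    · rw [him]; exact h2.2.le
    · exact h
  have h4 : (2 * th m j : ℝ) = 2 * th m k := by
    rw [← him, ← him, h3]
  have h5 : th m j = th m k := by linarith
  unfold th at h5
  have hm : (0 : ℝ) < m + 1 := by positivity
  have hpi := Real.pi_pos
  have h6 : Real.pi * ((j : ℕ) + 1 / 2) / (m + 1) = Real.pi * ((k : ℕ) + 1 / 2) / (m + 1) := by
    linarith
  rw [div_left_inj' hm.ne'] at h6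
  have h7 := mul_left_cancel₀ hpi.ne' h6
  have h8 : ((j : ℕ) : ℝ) = (k : ℕ) := by linarith
  apply Fin.ext
  exact_mod_cast h8

theorem ef_const_R_conf (m : ℕ) (E : Fin (m + 1) → ℂ) (hE : Function.Injective E) (w : ℂ)
    (hw : ∀ j, 1 + E j * w ≠ 0) : (fun j => E j / (1 + E j * w)) ∈ Conf m := by
  intro j k h
  apply hE
  simp only at h
  rw [div_eq_div_iff (hw j) (hw k)] at h
  linear_combination h

theorem ef_const_R (hR : GoodR m n F rel l) (D : Data m n F) (hm : 2 ≤ m)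
    (hB : ∀ a b c : Fin n, a ≠ b → a ≠ c → RbD rel D a b → RbD rel D a c →
      D.W a b ⟨m - 2, by omega⟩ = D.W a c ⟨m - 2, by omega⟩)
    (x : ℂ) (w w' : ℂ) (hw : ∀ j, 1 + Complex.exp (2 * Complex.I * th m j) * w ≠ 0)
    (hw' : ∀ j, 1 + Complex.exp (2 * Complex.I * th m j) * w' ≠ 0)
    (X X' : Fin n → ℂ) (hX : Lab (F (ef m w)) X) (hX' : Lab (F (ef m w')) X') :
    ThR (rel (ef m w)) x X = ThR (rel (ef m w')) x X' := by
  classical
  obtain ⟨θ, hθ, hθe⟩ := theta_exists_R hR x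
  set E : Fin (m + 1) → ℂ := fun j => Complex.exp (2 * Complex.I * th m j) with hEdef
  have hE0 : ∀ j, E j ≠ 0 := fun j => Complex.exp_ne_zero _
  have hEn : ∀ j, ‖E j‖ = 1 := fun j => ef_const_R_norm m j
  have hEinj : Function.Injective E := fun j k h => ef_const_R_inj m j k h
  set S : Finset ℂ := Finset.univ.image (fun j => -(E j)⁻¹) with hS
  have hSmem : ∀ t : ℂ, t ∈ S ↔ ∃ j, 1 + E j * t = 0 := by
    intro t
    simp only [hS, Finset.mem_image, Finset.mem_univ, true_and]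
    constructor
    · rintro ⟨j, rfl⟩
      refine ⟨j, ?_⟩
      rw [mul_neg, mul_inv_cancel₀ (hE0 j)]
      ring
    · rintro ⟨j, h⟩
      refine ⟨j, ?_⟩
      have h0 := hE0 j
      field_simp
      linear_combination -h
  have hSnot : ∀ t : ℂ, t ∉ S → ∀ j, 1 + E j * t ≠ 0 := by
    intro t ht j h
    exact ht ((hSmem t).2 ⟨j, h⟩)
  have hconf : ∀ t : ℂ, t ∉ S → ef m t ∈ Conf m := by
    intro t ht
    exact ef_const_R_conf m E hEinj t (hSnot t ht)
  have hSnorm : ∀ t : ℂ, t ∈ S → ‖t‖ = 1 := by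
    intro t ht
    simp only [hS, Finset.mem_image, Finset.mem_univ, true_and] at ht
    obtain ⟨j, rfl⟩ := ht
    rw [norm_neg, norm_inv, hEn, inv_one]
  set f : ℂ → ℂ := fun t => θ (ef m t) with hf
  have hfd : DifferentiableOn ℂ f (↑S : Set ℂ)ᶜ := by
    have hl : DifferentiableOn ℂ (fun t : ℂ => ef m t) (↑S : Set ℂ)ᶜ := by
      rw [differentiableOn_pi]
      intro j
      have hne : ∀ t ∈ (↑S : Set ℂ)ᶜ, 1 + E j * t ≠ 0 := by
        intro t ht
        exact hSnot t (by simpa using ht) j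
      show DifferentiableOn ℂ (fun t => E j / (1 + E j * t)) (↑S : Set ℂ)ᶜ
      apply DifferentiableOn.div
      · fun_prop
      · fun_prop
      · exact hne
    exact hθ.comp hl (fun t ht => hconf t (by simpa using ht))
  have hSo : IsOpen ((↑S : Set ℂ)ᶜ) := S.finite_toSet.isClosed.isOpen_compl
  -- behaviour at infinity
  set G : Fin (m + 1) → ℂ := fun j => (E j)⁻¹ with hG
  have hGinj : Function.Injective G := fun j k h => hEinj (inv_injective h)
  have hGn : ∀ j, ‖G j‖ = 1 := by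
    intro j
    rw [hG]
    simp only [norm_inv, hEn, inv_one]
  set g : ℂ → Fin (m + 1) → ℂ := fun v j => G j / (1 + G j * v) with hg
  have hgne : ∀ v : ℂ, ‖v‖ < 1 → ∀ j, 1 + G j * v ≠ 0 := by
    intro v hv j h
    have h1 : G j * v = -1 := by linear_combination h
    have h2 : ‖G j * v‖ = 1 := by rw [h1, norm_neg, norm_one]
    rw [norm_mul, hGn, one_mul] at h2
    linarith
  have hgconf : ∀ v : ℂ, ‖v‖ < 1 → g v ∈ Conf m := by
    intro v hv
    exact ef_const_R_conf m G hGinj v (hgne v hv)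
  have hgd : ContinuousOn (fun v => θ (g v)) (Metric.ball (0 : ℂ) 1) := by
    have hl : DifferentiableOn ℂ g (Metric.ball (0 : ℂ) 1) := by
      rw [differentiableOn_pi]
      intro j
      have hne : ∀ v ∈ Metric.ball (0 : ℂ) 1, 1 + G j * v ≠ 0 := by
        intro v hv
        rw [Metric.mem_ball, dist_zero_right] at hv
        exact hgne v hv j
      show DifferentiableOn ℂ (fun v => G j / (1 + G j * v)) (Metric.ball (0 : ℂ) 1)
      apply DifferentiableOn.div
      · fun_prop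
      · fun_prop
      · exact hne
    exact (hθ.comp hl (fun v hv => hgconf v (by
      rwa [Metric.mem_ball, dist_zero_right] at hv))).continuousOn
  obtain ⟨M1, hM1⟩ : ∃ M1 : ℝ, ∀ v : ℂ, ‖v‖ ≤ 1 / 2 → ‖θ (g v)‖ ≤ M1 := by
    have hK : IsCompact (Metric.closedBall (0 : ℂ) (1 / 2)) := isCompact_closedBall _ _
    obtain ⟨M1, hM1⟩ := hK.exists_bound_of_continuousOn (f := fun v => θ (g v))
      (hgd.mono (Metric.closedBall_subset_ball (by norm_num)))
    exact ⟨M1, fun v hv => hM1 v (by rw [Metric.mem_closedBall, dist_zero_right]; exact hv)⟩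
  have hinf : ∀ t : ℂ, 2 ≤ ‖t‖ → f t = θ (g t⁻¹) := by
    intro t ht
    have ht0 : t ≠ 0 := by
      rintro rfl
      rw [norm_zero] at ht
      linarith
    have htS : t ∉ S := fun h => by
      have := hSnorm t h
      linarith
    have hv : ‖t⁻¹‖ < 1 := by
      rw [norm_inv]
      have : ‖t‖⁻¹ ≤ 2⁻¹ := inv_anti₀ (by norm_num) ht
      linarith
    have hgc := hgconf t⁻¹ hv
    have hα : (-(t⁻¹) ^ 2 : ℂ) ≠ 0 := neg_ne_zero.2 (pow_ne_zero _ (inv_ne_zero ht0))
    have hsc : (fun p => (-(t⁻¹) ^ 2) * g t⁻¹ p) ∈ Conf m := by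
      intro p q hpq
      exact hgc (mul_left_cancel₀ hα hpq)
    have heq : ef m t = fun p => (fun p => (-(t⁻¹) ^ 2) * g t⁻¹ p) p + t⁻¹ := by
      funext j
      have h1 := hSnot t htS j
      have h2 := hgne t⁻¹ hv j
      have h0 := hE0 j
      show E j / (1 + E j * t) = (-(t⁻¹) ^ 2) * ((E j)⁻¹ / (1 + (E j)⁻¹ * t⁻¹)) + t⁻¹
      have h3 : (E j)⁻¹ / (1 + (E j)⁻¹ * t⁻¹) = t / (1 + E j * t) := by
        have h2' : 1 + (E j)⁻¹ * t⁻¹ ≠ 0 := h2
        rw [div_eq_div_iff h2' h1]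
        field_simp
        ring
      rw [h3]
      field_simp
      ring
    have hFeq : F (ef m t) = F (fun p => (-(t⁻¹) ^ 2) * g t⁻¹ p) := by
      rw [heq]
      exact hR.transl _ hsc t⁻¹
    obtain ⟨Y, hY⟩ := ef_const_R_lab hR (hconf t htS)
    obtain ⟨Y', hY'⟩ := ef_const_R_lab hR hgc
    have hreq : rel (ef m t) = rel (fun p => (-(t⁻¹) ^ 2) * g t⁻¹ p) := by
      rw [heq]
      funext y z
      exact propext (hR.rel_transl _ hsc t⁻¹ y z)
    have h5 : f t = ThR (rel (ef m t)) x Y := hθe _ (hconf t htS) Y hY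
    have h6 : θ (g t⁻¹) = ThR (rel (g t⁻¹)) x Y' := hθe _ hgc Y' hY'
    rw [h5, h6, hreq]
    rw [hFeq] at hY
    exact (scale_Th_R hR (g t⁻¹) hgc _ hα Y' Y hY' hY x).symm
  have hcomp : ∃ M : ℝ, ∀ t ∈ Metric.closedBall (0 : ℂ) 2, t ∉ S → ‖f t‖ ≤ M := by
    refine IsCompact.induction_on (p := fun A : Set ℂ => ∃ M : ℝ, ∀ t ∈ A, t ∉ S → ‖f t‖ ≤ M)
      (isCompact_closedBall (0 : ℂ) 2) ⟨0, fun t ht => ht.elim⟩ ?_ ?_ ?_
    · rintro A B hAB ⟨M, hM⟩
      exact ⟨M, fun t ht => hM t (hAB ht)⟩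
    · rintro A B ⟨M, hM⟩ ⟨M', hM'⟩
      refine ⟨max M M', ?_⟩
      rintro t (ht | ht) htS
      · exact (hM t ht htS).trans (le_max_left _ _)
      · exact (hM' t ht htS).trans (le_max_right _ _)
    · intro t1 _
      by_cases h1 : t1 ∈ S
      · obtain ⟨j, hj⟩ := (hSmem t1).1 h1
        obtain ⟨ε, C, hε, hC⟩ := ef_far_bdd_R hR D hm hB j t1 hj
        refine ⟨Metric.ball t1 ε, mem_nhdsWithin_of_mem_nhds (Metric.ball_mem_nhds _ hε),
          ∏ _a : Fin n, ∏ _b : Fin n, ∏ _c : Fin n, (1 + ‖x‖ + |C|), fun t ht htS => ?_⟩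
        rw [Metric.mem_ball, dist_eq_norm] at ht
        obtain ⟨h2, h3⟩ := hC t (fun h => htS (h ▸ h1)) ht
        obtain ⟨Y, hY⟩ := ef_const_R_lab hR h2
        rw [hf]
        simp only
        rw [hθe _ h2 Y hY]
        exact ef_const_R_Th _ x C Y (h3 Y hY)
      · have hcont : ContinuousAt f t1 :=
          (hfd.differentiableAt (hSo.mem_nhds (by simpa using h1))).continuousAt
        have hev : ∀ᶠ t in 𝓝 t1, ‖f t‖ < ‖f t1‖ + 1 :=
          hcont.norm.eventually (Iio_mem_nhds (by linarith))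
        exact ⟨{t | ‖f t‖ < ‖f t1‖ + 1}, mem_nhdsWithin_of_mem_nhds hev, ‖f t1‖ + 1,
          fun t ht _ => le_of_lt ht⟩
  obtain ⟨M, hM⟩ := hcomp
  obtain ⟨c, hcst⟩ := ef_const_R_liouville S f hfd
    ⟨max M M1, fun t ht => by
      rcases lt_or_ge 2 ‖t‖ with h | h
      · rw [hinf t h.le]
        refine (hM1 t⁻¹ ?_).trans (le_max_right _ _)
        rw [norm_inv]
        have : ‖t‖⁻¹ ≤ 2⁻¹ := inv_anti₀ (by norm_num) h.le
        linarith
      · exact (hM t (by simpa using h) ht).trans (le_max_left _ _)⟩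
  have hwS : w ∉ S := fun h => by
    obtain ⟨j, hj⟩ := (hSmem w).1 h
    exact hw j hj
  have hwS' : w' ∉ S := fun h => by
    obtain ⟨j, hj⟩ := (hSmem w').1 h
    exact hw' j hj
  rw [← hθe _ (hconf w hwS) X hX, ← hθe _ (hconf w' hwS') X' hX']
  exact (hcst w hwS).trans (hcst w' hwS').symm

theorem tf_Th_R_lab (hR : GoodR m n F rel l) (r : Fin (m + 1) → ℂ) (hr : r ∈ Conf m) :
    ∃ Y : Fin n → ℂ, Lab (F r) Y := by
  obtain ⟨M, _, hM⟩ := lab_lift (V := ℝ) (K := {0}) (convex_singleton 0) (n := n)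
    (φ := fun _ => F r) continuousOn_const (fun v _ => hR.good.sqf r hr)
  exact ⟨fun a => M a 0, hM 0 rfl⟩

theorem tf_Th_R_aux (hR : GoodR m n F rel l)
    (hm : 2 ≤ m) (x : ℂ) (φ : ℂ) (hφ : φ ∈ KT m ∪ KB m)
    (X : Fin n → ℂ) (hX : Lab (F (tf m φ)) X) :
    (∀ j, 1 + Complex.exp (2 * Complex.I * th m j) * Complex.exp (2 * Complex.I * φ) ≠ 0) ∧
    ∃ Y : Fin n → ℂ, Lab (F (ef m (Complex.exp (2 * Complex.I * φ)))) Y ∧
      ThR (rel (ef m (Complex.exp (2 * Complex.I * φ)))) x Y = ThR (rel (tf m φ)) x X := by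
  obtain ⟨h1, -, -, -, h5, -⟩ := tf_facts m (by omega)
  obtain ⟨h5a, h5b⟩ := h5 φ hφ
  have hconf := h1 φ hφ
  refine ⟨h5a, ?_⟩
  have hw : Complex.exp (2 * Complex.I * φ) ≠ 0 := Complex.exp_ne_zero _
  generalize Complex.exp (2 * Complex.I * φ) = w at *
  have hα : (-2 * Complex.I * w : ℂ) ≠ 0 := by
    refine mul_ne_zero (mul_ne_zero (by norm_num) Complex.I_ne_zero) hw
  have hinj : Function.Injective (tf m φ) := hconf
  have hr : ef m w ∈ Conf m := by
    intro i j hij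
    apply hinj
    rw [h5b]
    simp only [hij]
  have hr2 : (fun p => (-2 * Complex.I * w : ℂ) * ef m w p) ∈ Conf m := by
    intro i j hij
    exact hr (mul_left_cancel₀ hα hij)
  obtain ⟨Y, hY⟩ := tf_Th_R_lab hR _ hr
  refine ⟨Y, hY, ?_⟩
  have hreq : rel (tf m φ) = rel (fun p => (-2 * Complex.I * w : ℂ) * ef m w p) := by
    rw [h5b]
    funext y z
    exact propext (hR.rel_transl _ hr2 Complex.I y z)
  rw [hreq]
  refine scale_Th_R hR (ef m w) hr (-2 * Complex.I * w) hα Y X hY ?_ x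
  rw [h5b] at hX
  rwa [hR.transl _ hr2 Complex.I] at hX

theorem tf_Th_R (hR : GoodR m n F rel l) (D : Data m n F) (hm : 2 ≤ m)
    (hB : ∀ a b c : Fin n, a ≠ b → a ≠ c → RbD rel D a b → RbD rel D a c →
      D.W a b ⟨m - 2, by omega⟩ = D.W a c ⟨m - 2, by omega⟩)
    (x : ℂ) (φ φ' : ℂ) (hφ : φ ∈ KT m ∪ KB m) (hφ' : φ' ∈ KT m ∪ KB m)
    (X X' : Fin n → ℂ) (hX : Lab (F (tf m φ)) X) (hX' : Lab (F (tf m φ')) X') :
    ThR (rel (tf m φ)) x X = ThR (rel (tf m φ')) x X' := by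
  obtain ⟨h1, Y, hY, hYX⟩ := tf_Th_R_aux hR hm x φ hφ X hX
  obtain ⟨h1', Y', hY', hYX'⟩ := tf_Th_R_aux hR hm x φ' hφ' X' hX'
  rw [← hYX, ← hYX']
  exact ef_const_R hR D hm hB x _ _ h1 h1' Y Y' hY hY'

end LinC
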