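import Pool.Agent.Helper996.LinC.DefsR
import Pool.Agent.Helper996.Lin.J_lab_basic
import Pool.Agent.Helper996.Lin.J_lab_lift
import Pool.Agent.Helper996.Lin.J_tf_facts
import Pool.Agent.Helper996.Lin.J_topbot
import Pool.Agent.Helper996.Lin.J_charts
import Pool.Agent.Helper996.LinC.C_shifts
import Pool.Agent.Helper996.LinC.R_rb
import Pool.Agent.Helper996.LinC.R_efconst
import Pool.Agent.Helper996.LinC.R_theta

set_option autoImplicit false

open Polynomial Set Filter Topology LinS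

namespace LinC

variable {m n l : ℕ} {F : (Fin (m + 1) → ℂ) → Fin n → ℂ} {rel : (Fin (m + 1) → ℂ) → ℂ → ℂ → Prop}

theorem dd_one_R_ais {α : Type} (p : Equiv.Perm α) (a : α) : p (p⁻¹ a) = a := Equiv.apply_symm_apply p a

theorem dd_one_R_list {α : Type} {R : α → α → Prop} (hR : Equivalence R) (s : Equiv.Perm α)
    (hs : ∀ a b, R a b → R (s a) (s b)) (L : List (Equiv.Perm α))
    (hL : ∀ p ∈ L, ∀ a, R (p a) (s a)) (a : α) : R (L.prod a) ((s ^ L.length) a) := by
  induction L with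
  | nil => exact hR.refl a
  | cons p L ih =>
    have ih' := ih (fun q hq => hL q (List.mem_cons_of_mem _ hq))
    have h1 := hL p List.mem_cons_self (L.prod a)
    have h2 := hs _ _ ih'
    rw [List.prod_cons, List.length_cons, pow_succ', Equiv.Perm.mul_apply, Equiv.Perm.mul_apply]
    exact hR.trans h1 h2

theorem dd_one_R_pres {α : Type} {R : α → α → Prop} (L : List (Equiv.Perm α))
    (hL : ∀ p ∈ L, ∀ a b, R a b → R (p a) (p b)) (a b : α) (h : R a b) :
    R (L.prod a) (L.prod b) := by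
  induction L with
  | nil => exact h
  | cons p L ih =>
    rw [List.prod_cons, Equiv.Perm.mul_apply, Equiv.Perm.mul_apply]
    exact hL p List.mem_cons_self _ _ (ih (fun q hq => hL q (List.mem_cons_of_mem _ hq)))

theorem dd_one_R_lamInv (hR : GoodR m n F rel l) (D : Data m n F) (i : Fin m) (a b : Fin n)
    (h : RbD rel D a b) : RbD rel D ((D.lam i)⁻¹ a) ((D.lam i)⁻¹ b) := by
  rw [← rb_lam hR D i, dd_one_R_ais, dd_one_R_ais]
  exact h

theorem dd_one_R_shiftInv (hR : GoodR m n F rel l) (D : Data m n F) (i i' : Fin m) (a : Fin n) :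
    RbD rel D ((D.lam i)⁻¹ a) ((D.lam i')⁻¹ a) := by
  rw [← rb_lam hR D i', dd_one_R_ais]
  have h1 := hR.shift D i' i ((D.lam i)⁻¹ a)
  rw [dd_one_R_ais] at h1
  exact h1

theorem dd_one_R_pow {α : Type} {R : α → α → Prop} (s : Equiv.Perm α)
    (hs : ∀ a b, R a b → R (s a) (s b)) (k : ℕ) (a b : α) (h : R a b) :
    R ((s ^ k) a) ((s ^ k) b) := by
  induction k with
  | zero => exact h
  | succ k ih =>
    rw [pow_succ', Equiv.Perm.mul_apply, Equiv.Perm.mul_apply]
    exact hs _ _ ih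

theorem dd_one_R_block (hR : GoodR m n F rel l) (D : Data m n F) (hm : 0 < m) (a : Fin n) :
    RbD rel D ((dtop D.lam * dbot D.lam) a) a := by
  have hE := rb_equiv hR D
  set s : Equiv.Perm (Fin n) := D.lam ⟨0, hm⟩ with hs
  have p1 : ∀ a b, RbD rel D a b → RbD rel D (s a) (s b) := fun a b h =>
    (rb_lam hR D ⟨0, hm⟩ a b).2 h
  have p2 : ∀ a b, RbD rel D a b → RbD rel D (s⁻¹ a) (s⁻¹ b) := fun a b h =>
    dd_one_R_lamInv hR D ⟨0, hm⟩ a b h
  have h1 : ∀ a, RbD rel D (dtop D.lam a) ((s ^ m) a) := by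
    intro a
    have h := dd_one_R_list hE s p1 (List.ofFn D.lam) (by
      intro p hp a
      rw [List.mem_ofFn] at hp
      obtain ⟨i, rfl⟩ := hp
      exact hR.shift D i ⟨0, hm⟩ a) a
    rw [List.length_ofFn] at h
    exact h
  have h2 : ∀ a, RbD rel D (dbot D.lam a) ((s⁻¹ ^ m) a) := by
    intro a
    have h := dd_one_R_list hE s⁻¹ p2 (List.ofFn (fun i => (D.lam i)⁻¹)) (by
      intro p hp a
      rw [List.mem_ofFn] at hp
      obtain ⟨i, rfl⟩ := hp
      exact dd_one_R_shiftInv hR D i ⟨0, hm⟩ a) a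
    rw [List.length_ofFn] at h
    exact h
  have h3 := h1 (dbot D.lam a)
  have h4 := dd_one_R_pow (R := RbD rel D) s p1 m _ _ (h2 a)
  have h5 : (s ^ m) ((s⁻¹ ^ m) a) = a := by
    rw [inv_pow, dd_one_R_ais]
  rw [h5] at h4
  rw [Equiv.Perm.mul_apply]
  exact hE.trans h3 h4

theorem dd_one_R_side (hR : GoodR m n F rel l) (D : Data m n F) (hm : 2 ≤ m)
    (hB : ∀ a b c : Fin n, a ≠ b → a ≠ c → RbD rel D a b → RbD rel D a c →
      D.W a b ⟨m - 2, by omega⟩ = D.W a c ⟨m - 2, by omega⟩)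
    (K H : Set ℂ) (hK : Convex ℝ K) (hHK : H ⊆ K) (hHne : H.Nonempty)
    (hKs : K ⊆ KT m ∪ KB m) (h0K : (0 : ℂ) ∈ K) (htf : ContinuousOn (tf m) K)
    (hsh : ∀ v ∈ H, v + Real.pi / (m + 1) ∈ H) (g : Equiv.Perm (Fin n))
    (hshift : ∀ N : Fin n → ℂ → ℂ, (∀ a, ContinuousOn (N a) K) →
      (∀ φ ∈ K, Lab (F (tf m φ)) (fun a => N a φ)) → (∀ a, N a 0 = D.μ a (tf m 0)) →
      ∀ φ ∈ H, ∀ a, N a (φ + Real.pi / (m + 1)) = N (g a) φ)
    (hg : ∀ a b, RbD rel D a b → RbD rel D (g a) (g b)) (a b : Fin n) (hab : RbD rel D a b) :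
    D.μ (g a) (tf m 0) - D.μ (g b) (tf m 0) = D.μ a (tf m 0) - D.μ b (tf m 0) := by
  have hm0 : 0 < m := by omega
  obtain ⟨f1, f2, f3, f4, f5, f6, f7, f8, f9⟩ := tf_facts m hm0
  have hc0 : tf m 0 ∈ Cham m := by
    apply f9 0 (by simp)
    simp only [Complex.zero_re, abs_zero]
    positivity
  have hconf : ∀ v ∈ K, tf m v ∈ Conf m := fun v hv => f1 v (hKs hv)
  have hFc : ContinuousOn (fun v => F (tf m v)) K :=
    hR.good.holo.comp htf (fun v hv => hconf v hv)
  have hsq : ∀ v ∈ K, Squarefree (mpoly n (F (tf m v))) := fun v hv => hR.good.sqf _ (hconf v hv)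
  obtain ⟨M, hMc, hML⟩ := lab_lift hK hFc hsq
  obtain ⟨π, hπ⟩ := lab_uniq (V := ℂ) (K := {0}) (isPreconnected_singleton) (n := n)
    (φ := fun v => F (tf m v)) (fun v hv => by
      rw [Set.mem_singleton_iff] at hv
      subst hv
      exact hsq 0 h0K)
    (M := M) (M' := fun a _ => D.μ a (tf m 0)) (fun a => continuousOn_singleton _ _)
    (fun a => continuousOn_singleton _ _)
    (fun v hv => by
      rw [Set.mem_singleton_iff] at hv
      subst hv
      exact hML 0 h0K)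
    (fun v hv => by
      rw [Set.mem_singleton_iff] at hv
      subst hv
      exact D.μ_lab _ hc0)
  set N : Fin n → ℂ → ℂ := fun a => M (π a) with hNdef
  have hNc : ∀ a, ContinuousOn (N a) K := fun a => hMc (π a)
  have hNL : ∀ v ∈ K, Lab (F (tf m v)) (fun a => N a v) := by
    intro v hv
    have h1 := hML v hv
    unfold Lab at h1 ⊢
    rw [h1]
    exact (Equiv.prod_comp π (fun a => X - C (M a v))).symm
  have hN0 : ∀ a, N a 0 = D.μ a (tf m 0) := fun a => (hπ 0 rfl a).symm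
  have hrig := rigid_of_ThR hR hK.isPreconnected (tf m) htf hconf N hNc hNL
    (fun v hv v' hv' x => tf_Th_R hR D hm hB x v v' (hKs hv) (hKs hv') _ _ (hNL v hv) (hNL v' hv'))
  have key : ∀ a b, RbD rel D a b → ∀ v ∈ K,
      D.μ a (tf m 0) - D.μ b (tf m 0) = N a v - N b v := by
    intro a b h v hv
    have h1 := (rb_cham hR D a b).1 h _ hc0
    rw [← hN0, ← hN0] at h1
    have h2 := hrig 0 h0K v hv a b h1
    rw [hN0, hN0] at h2
    exact h2
  obtain ⟨v, hv⟩ := hHne
  rw [key (g a) (g b) (hg a b hab) v (hHK hv), ← hshift N hNc hNL hN0 v hv a,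
    ← hshift N hNc hNL hN0 v hv b, key a b hab _ (hHK (hsh v hv))]

theorem dd_one_R (hR : GoodR m n F rel l) (D : Data m n F) (hm : 2 ≤ m)
    (hB : ∀ a b c : Fin n, a ≠ b → a ≠ c → RbD rel D a b → RbD rel D a c →
      D.W a b ⟨m - 2, by omega⟩ = D.W a c ⟨m - 2, by omega⟩) :
    dtop D.lam * dbot D.lam = 1 := by
  have hm0 : 0 < m := by omega
  obtain ⟨f1, f2, f3, f4, f5, f6, f7, f8, f9⟩ := tf_facts m hm0
  have hc0 : tf m 0 ∈ Cham m := by
    apply f9 0 (by simp)
    simp only [Complex.zero_re, abs_zero]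
    positivity
  have him : ∀ v : ℂ, (v + (Real.pi : ℂ) / (m + 1)).im = v.im := by
    intro v
    have : (Real.pi : ℂ) / (m + 1) = ((Real.pi / (m + 1) : ℝ) : ℂ) := by
      push_cast
      rfl
    rw [this, Complex.add_im, Complex.ofReal_im, add_zero]
  have hpos : (0:ℝ) < Real.pi / (2 * (m + 1)) := by positivity
  have gT : ∀ a b, RbD rel D a b → RbD rel D (dtop D.lam a) (dtop D.lam b) := by
    intro a b h
    refine dd_one_R_pres (List.ofFn D.lam) ?_ a b h
    intro p hp a b h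
    rw [List.mem_ofFn] at hp
    obtain ⟨i, rfl⟩ := hp
    exact (rb_lam hR D i a b).2 h
  have gB : ∀ a b, RbD rel D a b → RbD rel D (dbot D.lam a) (dbot D.lam b) := by
    intro a b h
    refine dd_one_R_pres (List.ofFn (fun i => (D.lam i)⁻¹)) ?_ a b h
    intro p hp a b h
    rw [List.mem_ofFn] at hp
    obtain ⟨i, rfl⟩ := hp
    exact dd_one_R_lamInv hR D i a b h
  have hTop := dd_one_R_side hR D hm hB (KT m) {φ | 0 < φ.im} f7
    (fun v hv => Or.inl hv) ⟨Complex.I, by simp⟩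
    subset_union_left (Or.inr ⟨rfl, by simpa using hpos⟩) f3
    (fun v hv => by
      show 0 < (v + (Real.pi : ℂ) / (m + 1)).im
      rw [him]
      exact hv)
    (dtop D.lam)
    (fun N h1 h2 h3 φ hφ a => top_shift hR.good D hm0 h1 h2 h3 φ hφ a) gT
  have hBot := dd_one_R_side hR D hm hB (KB m) {φ | φ.im < 0} f8
    (fun v hv => Or.inl hv) ⟨-Complex.I, by simp⟩
    subset_union_right (Or.inr ⟨rfl, by simpa using hpos⟩) f4
    (fun v hv => by
      show (v + (Real.pi : ℂ) / (m + 1)).im < 0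
      rw [him]
      exact hv)
    (dbot D.lam)
    (fun N h1 h2 h3 φ hφ a => bot_shift hR.good D hm0 h1 h2 h3 φ hφ a) gB
  have hinj : Function.Injective (fun a => D.μ a (tf m 0)) :=
    lab_inj (D.μ_lab _ hc0) (hR.good.sqf _ (Cham_conf hc0))
  set ν : Fin n → ℂ := fun a => D.μ a (tf m 0) with hν
  have hblk := dd_one_R_block hR D hm0
  set ϖ : Equiv.Perm (Fin n) := dtop D.lam * dbot D.lam with hϖ
  have hE := rb_equiv hR D
  have hrel : ∀ a b, RbD rel D a b → ν (ϖ a) - ν (ϖ b) = ν a - ν b := by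
    intro a b hab
    have h1 := hTop (dbot D.lam a) (dbot D.lam b) (gB a b hab)
    have h2 := hBot a b hab
    have h3 : ν (ϖ a) - ν (ϖ b) = D.μ (dtop D.lam (dbot D.lam a)) (tf m 0) -
        D.μ (dtop D.lam (dbot D.lam b)) (tf m 0) := rfl
    rw [h3, h1, h2]
  classical
  ext a
  set B : Finset (Fin n) := Finset.univ.filter (fun b => RbD rel D a b) with hBdef
  have hmem : ∀ b, b ∈ B ↔ RbD rel D a b := fun b => by simp [hBdef]
  have hsum0 : ∑ b ∈ B, ν (ϖ b) = ∑ b ∈ B, ν b := by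
    refine Finset.sum_equiv ϖ (fun b => ?_) (fun b _ => rfl)
    rw [hmem, hmem]
    constructor
    · intro h
      exact hE.trans h (hE.symm (hblk b))
    · intro h
      exact hE.trans h (hblk b)
  have hsum : ∑ b ∈ B, (ν (ϖ b) - ν b) = 0 := by
    rw [Finset.sum_sub_distrib, hsum0, sub_self]
  have h5 : ∑ b ∈ B, (ν (ϖ a) - ν a) = 0 := by
    rw [← hsum]
    refine Finset.sum_congr rfl fun b hb => ?_
    have h6 := hrel a b ((hmem b).1 hb)
    linear_combination h6
  rw [Finset.sum_const, nsmul_eq_mul] at h5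
  have h6 : ν (ϖ a) - ν a = 0 := by
    rcases mul_eq_zero.mp h5 with h | h
    · exfalso
      have h7 : B.card = 0 := by exact_mod_cast h
      rw [Finset.card_eq_zero] at h7
      have h8 : a ∈ B := (hmem a).2 (hE.refl a)
      rw [h7] at h8
      exact absurd h8 (Finset.notMem_empty a)
    · exact h
  have h7 : ϖ a = a := hinj (sub_eq_zero.mp h6)
  rw [h7]
  rfl

end LinC
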