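import Pool.Agent.Helper996.LinC.DefsR
import Pool.Agent.Helper996.Lin.J_ofFn_conj
import Pool.Agent.Helper996.LinC.C_W_inv
import Pool.Agent.Helper996.LinC.C_pair_move
import Pool.Agent.Helper996.LinC.C_lam_rel
import Pool.Agent.Helper996.LinC.C_WS
import Pool.Agent.Helper996.LinC.R_W
import Pool.Agent.Helper996.LinC.R_rb
import Pool.Agent.Helper996.LinC.R_comb
import Pool.Agent.Helper996.LinC.R_ddone

set_option autoImplicit false

open Polynomial Set Filter Topology LinS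

namespace LinC

variable {m n l : ℕ} {F : (Fin (m + 1) → ℂ) → Fin n → ℂ} {rel : (Fin (m + 1) → ℂ) → ℂ → ℂ → Prop}

theorem caseB_R (hR : GoodR m n F rel l) (D : Data m n F) (hm : 4 ≤ m)
    (hB : ∀ a b c : Fin n, a ≠ b → a ≠ c → RbD rel D a b → RbD rel D a c →
      D.W a b ⟨m - 2, by omega⟩ = D.W a c ⟨m - 2, by omega⟩) :
    ∀ a b c : Fin n, a ≠ b → a ≠ c → RbD rel D a b → RbD rel D a c →
      D.W a b ⟨0, by omega⟩ = D.W a c ⟨0, by omega⟩ := by
  have hF := hR.good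
  have hdd := dd_one_R hR D (by omega) hB
  obtain ⟨W₁, h1, h2⟩ := LinC.pair_move hF D (by omega)
  have hd' : dbot D.lam = (dtop D.lam)⁻¹ := eq_inv_of_mul_eq_one_right hdd
  have hc1 := LinS.ofFn_conj D.lam (fun i i' h => LinC.lam_braid hF D i i' h)
    (fun i i' h => LinC.lam_comm hF D i i' h) ⟨1, by omega⟩ ⟨2, by omega⟩ rfl
  have hc2 := LinS.ofFn_conj D.lam (fun i i' h => LinC.lam_braid hF D i i' h)
    (fun i i' h => LinC.lam_comm hF D i i' h) ⟨2, by omega⟩ ⟨3, by omega⟩ rfl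
  obtain ⟨d, hd⟩ : ∃ d, d = dtop D.lam := ⟨_, rfl⟩
  change dtop D.lam * _ = _ * dtop D.lam at hc1 hc2
  rw [← hd] at hc1 hc2 h1 hd'
  rw [hd'] at h2
  have hsq : ∀ a b, a ≠ b → D.W (d (d a)) (d (d b)) ⟨0, by omega⟩ = D.W a b ⟨0, by omega⟩ := by
    intro a b hab
    have e1 : d (d a) ≠ d (d b) := fun h => hab (d.injective (d.injective h))
    rw [← h2 _ _ e1, ← h1 a b hab]
    simp
  have hcc : ∀ a, d (d (D.lam ⟨1, by omega⟩ a)) = D.lam ⟨3, by omega⟩ (d (d a)) := by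
    intro a
    have e1 := congrArg (fun τ : Equiv.Perm (Fin n) => τ a) hc1
    have e2 := congrArg (fun τ : Equiv.Perm (Fin n) => τ (d a)) hc2
    simp only [Equiv.Perm.mul_apply] at e1 e2
    rw [e1, e2]
  refine inv_const_R (by omega) D.W D.lam (RbD rel D) (rb_equiv hR D) (rb_lam hR D)
    (fun a b hab j => W_symm_C hF D a b hab j)
    (fun j hj a b c hab hac h1 h2 => W_last_R hR D j hj a b c hab hac h1 h2) ?_
    (fun j wt hd hinv => LinC.WS hF D (by omega) j wt hd hinv)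
  intro i a b hab
  by_cases hi : (i : ℕ) = 1
  · have hi' : i = ⟨1, by omega⟩ := Fin.ext hi
    rw [hi']
    have e1 : D.lam ⟨1, by omega⟩ a ≠ D.lam ⟨1, by omega⟩ b :=
      fun h => hab ((D.lam _).injective h)
    have e2 : d (d a) ≠ d (d b) := fun h => hab (d.injective (d.injective h))
    rw [← hsq _ _ e1, hcc, hcc, LinC.W_inv hF D ⟨3, by omega⟩ ⟨0, by omega⟩ (by simp) _ _ e2,
      hsq _ _ hab]
  · exact LinC.W_inv hF D i ⟨0, by omega⟩ (by simpa using hi) a b hab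

end LinC
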