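import Pool.Agent.Helper996.LinC.DefsR
import Pool.Agent.Helper996.Lin.J_lab_basic
import Pool.Agent.Helper996.Lin.J_lab_lift
import Pool.Agent.Helper996.Lin.J_wd_basic
import Pool.Agent.Helper996.Lin.J_Conf_top

set_option autoImplicit false

open Polynomial Set Filter Topology LinS

namespace LinC

variable {m n l : ℕ} {F : (Fin (m + 1) → ℂ) → Fin n → ℂ} {rel : (Fin (m + 1) → ℂ) → ℂ → ℂ → Prop}

theorem coll_transport_R_cvx {c a b : ℝ} (h0 : 0 ≤ c) (h1 : c ≤ 1) (ha : 0 < a) (hb : 0 < b) :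
    0 < (1 - c) * a + c * b := by
  have h : min a b ≤ (1 - c) * a + c * b := by
    nlinarith [min_le_left a b, min_le_right a b]
  exact lt_of_lt_of_le (lt_min ha hb) h

theorem coll_transport_R_per {m : ℕ} (r : Fin (m + 1) → ℂ) (ε θ : ℝ) :
    ploop r ε (θ + 2 * Real.pi) = ploop r ε θ := by
  funext p
  unfold ploop
  split_ifs
  · congr 2
    have : ((θ + 2 * Real.pi : ℝ) : ℂ) * Complex.I = θ * Complex.I + 2 * Real.pi * Complex.I := by
      push_cast
      ring
    rw [this, Complex.exp_add, Complex.exp_two_pi_mul_I, mul_one]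
  · rfl

theorem coll_transport_R_ploop {m : ℕ} (r : Fin (m + 1) → ℂ) (ε ε' θ θ' : ℝ) :
    ploop (ploop r ε θ) ε' θ' = ploop r ε' θ' := by
  funext p
  unfold ploop
  by_cases hp : (p : ℕ) = 1
  · simp [hp]
  · simp [hp]

theorem coll_transport_R_hom (hF : GoodR m n F rel l) (hm : 0 < m) {R : ℝ → Fin (m + 1) → ℂ}
    {E : ℝ → ℝ} (hR : Continuous R) (hE : Continuous E) (hA : ∀ t, Adm (R t) (E t))
    {X X' : Fin n → ℝ → ℂ} (hX : ∀ a, Continuous (X a))
    (hX' : ∀ a, Continuous (X' a)) (hL : ∀ θ, Lab (F (ploop (R 0) (E 0) θ)) (fun a => X a θ))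
    (hL' : ∀ θ, Lab (F (ploop (R 1) (E 1) θ)) (fun a => X' a θ)) {w w' : Fin n → Fin n → ℤ}
    (hw : ∀ a b, a ≠ b → Wd univ (fun θ => X a θ - X b θ) (2 * Real.pi * n.factorial) (w a b))
    (hw' : ∀ a b, a ≠ b → Wd univ (fun θ => X' a θ - X' b θ) (2 * Real.pi * n.factorial) (w' a b)) :
    ∃ π : Equiv.Perm (Fin n), (∀ a b, a ≠ b → w' a b = w (π a) (π b)) ∧
      ∀ a b, (rel (ploop (R 1) (E 1) 0) (X' a 0) (X' b 0) ↔
        rel (ploop (R 0) (E 0) 0) (X (π a) 0) (X (π b) 0)) := by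
  have hpc : Continuous (fun v : ℝ × ℝ => ploop (R v.2) (E v.2) v.1) := by
    refine continuous_pi fun p => ?_
    unfold ploop
    by_cases hp : (p : ℕ) = 1
    · simp only [hp, if_true]
      have h1 : Continuous (fun v : ℝ × ℝ => R v.2 0) :=
        (continuous_apply 0).comp (hR.comp continuous_snd)
      have h2 : Continuous (fun v : ℝ × ℝ => ((E v.2 : ℝ) : ℂ)) :=
        Complex.continuous_ofReal.comp (hE.comp continuous_snd)
      have h3 : Continuous (fun v : ℝ × ℝ => Complex.exp ((v.1 : ℂ) * Complex.I)) :=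
        Complex.continuous_exp.comp ((Complex.continuous_ofReal.comp continuous_fst).mul
          continuous_const)
      exact h1.add (h2.mul h3)
    · simp only [hp, if_false]
      exact (continuous_apply p).comp (hR.comp continuous_snd)
  have hmem : ∀ v : ℝ × ℝ, ploop (R v.2) (E v.2) v.1 ∈ Conf m := fun v =>
    ploop_conf hm (hA v.2) v.1
  set φ : ℝ × ℝ → Fin n → ℂ := fun v => F (ploop (R v.2) (E v.2) v.1) with hφdef
  have hφ : ContinuousOn φ univ :=
    hF.good.holo.comp hpc.continuousOn (fun v _ => hmem v)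
  have hs : ∀ v ∈ (univ : Set (ℝ × ℝ)), Squarefree (mpoly n (φ v)) := fun v _ =>
    hF.good.sqf _ (hmem v)
  obtain ⟨P, hPc, hPL⟩ := lab_lift (convex_univ) hφ hs
  have hPcont : ∀ a, Continuous (P a) := fun a => continuousOn_univ.1 (hPc a)
  -- the monodromy
  have hperφ : ∀ v : ℝ × ℝ, φ (v + ((2 * Real.pi : ℝ), (0 : ℝ))) = φ v := by
    intro v
    simp only [hφdef, Prod.fst_add, Prod.snd_add, add_zero]
    rw [coll_transport_R_per]
  obtain ⟨τ, hτ⟩ := lab_uniq (K := (univ : Set (ℝ × ℝ))) isPreconnected_univ hs (M := P)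
    (M' := fun a v => P a (v + ((2 * Real.pi : ℝ), (0 : ℝ)))) hPc
    (fun a => ((hPcont a).comp (continuous_id.add continuous_const)).continuousOn) hPL
    (fun v _ => by
      have := hPL (v + ((2 * Real.pi : ℝ), (0 : ℝ))) (mem_univ _)
      rwa [hperφ] at this)
  have hpow : ∀ k : ℕ, ∀ a, ∀ v : ℝ × ℝ,
      P a (v + ((2 * Real.pi * k : ℝ), (0 : ℝ))) = P ((τ ^ k) a) v := by
    intro k
    induction k with
    | zero =>
      intro a v
      have e : v + ((2 * Real.pi * ((0 : ℕ) : ℝ) : ℝ), (0 : ℝ)) = v := by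
        ext <;> simp
      rw [e]
      rfl
    | succ k ih =>
      intro a v
      have e : v + ((2 * Real.pi * ((k + 1 : ℕ) : ℝ) : ℝ), (0 : ℝ)) =
          (v + ((2 * Real.pi * (k : ℝ) : ℝ), (0 : ℝ))) + ((2 * Real.pi : ℝ), (0 : ℝ)) := by
        ext
        · simp only [Prod.fst_add]
          push_cast
          ring
        · simp only [Prod.snd_add]
          ring
      rw [e]
      have h1 := hτ (v + ((2 * Real.pi * (k : ℝ) : ℝ), (0 : ℝ))) (mem_univ _) a
      rw [h1, ih (τ a) v, pow_succ, Equiv.Perm.mul_apply]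
  have hfact : τ ^ (n.factorial) = 1 := by
    have := pow_card_eq_one (x := τ)
    rwa [Fintype.card_perm, Fintype.card_fin] at this
  have hPper : ∀ a, ∀ v : ℝ × ℝ,
      P a (v + ((2 * Real.pi * n.factorial : ℝ), (0 : ℝ))) = P a v := by
    intro a v
    rw [hpow, hfact, Equiv.Perm.one_apply]
  have hinj : ∀ v : ℝ × ℝ, Function.Injective (fun a => P a v) := fun v =>
    lab_inj (hPL v (mem_univ _)) (hs v (mem_univ _))
  have hW : ∀ a b, ∃ k : ℤ, a ≠ b → Wd (univ : Set (ℝ × ℝ)) (fun v => P a v - P b v)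
      ((2 * Real.pi * n.factorial : ℝ), (0 : ℝ)) k := by
    intro a b
    by_cases hab : a = b
    · exact ⟨0, fun h => absurd hab h⟩
    · obtain ⟨k, hk⟩ := Wd.exists (K := (univ : Set (ℝ × ℝ))) convex_univ
        (g := fun v => P a v - P b v) (p := ((2 * Real.pi * n.factorial : ℝ), (0 : ℝ)))
        (fun _ _ => mem_univ _) ((hPcont a).sub (hPcont b)).continuousOn
        (fun v _ => sub_ne_zero.2 (fun h => hab (hinj v h)))
        (fun v _ => by rw [hPper, hPper])
      exact ⟨k, fun _ => hk⟩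
  choose W hW using hW
  -- comparison on the line at height `t`
  have key : ∀ (t : ℝ) (Y : Fin n → ℝ → ℂ) (y : Fin n → Fin n → ℤ),
      (∀ a, Continuous (Y a)) → (∀ θ, Lab (F (ploop (R t) (E t) θ)) (fun a => Y a θ)) →
      (∀ a b, a ≠ b → Wd univ (fun θ => Y a θ - Y b θ) (2 * Real.pi * n.factorial) (y a b)) →
      ∃ σ : Equiv.Perm (Fin n), (∀ a b, a ≠ b → y a b = W (σ a) (σ b)) ∧
        ∀ a, Y a 0 = P (σ a) (0, t) := by
    intro t Y y hY hYL hy
    have hc : Continuous (fun θ : ℝ => ((θ, t) : ℝ × ℝ)) := continuous_id.prodMk continuous_const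
    obtain ⟨σ, hσ⟩ := lab_uniq (K := (univ : Set ℝ)) isPreconnected_univ
      (φ := fun θ => φ (θ, t)) (fun θ _ => hs (θ, t) (mem_univ _))
      (M := fun a θ => P a (θ, t)) (M' := Y)
      (fun a => ((hPcont a).comp hc).continuousOn) (fun a => (hY a).continuousOn)
      (fun θ _ => hPL (θ, t) (mem_univ _)) (fun θ _ => hYL θ)
    refine ⟨σ, fun a b hab => ?_, fun a => hσ 0 (mem_univ _) a⟩
    have hab' : σ a ≠ σ b := fun h => hab (σ.injective h)
    have h1 := (hW (σ a) (σ b) hab').comp (K' := (univ : Set ℝ)) (f := fun θ : ℝ => ((θ, t) : ℝ × ℝ))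
      (p' := 2 * Real.pi * n.factorial) hc.continuousOn (fun _ _ => mem_univ _)
      (fun θ _ => by ext <;> simp)
    have h2 := h1.congr (g' := fun θ => Y a θ - Y b θ) (fun θ _ => by
      rw [hσ θ (mem_univ _) a, hσ θ (mem_univ _) b])
    exact Wd.unique (K := (univ : Set ℝ)) isPreconnected_univ univ_nonempty
      (fun _ _ => mem_univ _) (hy a b hab) h2
  obtain ⟨σ₀, h₀, h₀'⟩ := key 0 X w hX hL hw
  obtain ⟨σ₁, h₁, h₁'⟩ := key 1 X' w' hX' hL' hw'
  refine ⟨σ₁.trans σ₀.symm, fun a b hab => ?_, fun a b => ?_⟩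
  · rw [h₁ a b hab, h₀ _ _ (fun h => hab ((σ₁.trans σ₀.symm).injective h))]
    simp
  · have hrel := fun (v v' : ℝ × ℝ) (c d : Fin n) =>
      hF.rel_cont (K := (univ : Set (ℝ × ℝ))) isPreconnected_univ
        (fun v : ℝ × ℝ => ploop (R v.2) (E v.2) v.1) hpc.continuousOn (fun v _ => hmem v)
        P hPc hPL v (mem_univ _) v' (mem_univ _) c d
    rw [h₁' a, h₁' b, h₀' _, h₀' _]
    have e : ∀ c, σ₀ ((σ₁.trans σ₀.symm) c) = σ₁ c := fun c => by simp
    rw [e, e]
    exact ⟨fun h => hrel (0, 1) (0, 0) _ _ h, fun h => hrel (0, 0) (0, 1) _ _ h⟩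

theorem coll_transport_R (hR : GoodR m n F rel l) (hm : 0 < m) {r r' : Fin (m + 1) → ℂ} {ε ε' : ℝ}
    (h : Adm r ε) (h' : Adm r' ε') {X X' : Fin n → ℝ → ℂ} (hX : ∀ a, Continuous (X a))
    (hX' : ∀ a, Continuous (X' a)) (hL : ∀ θ, Lab (F (ploop r ε θ)) (fun a => X a θ))
    (hL' : ∀ θ, Lab (F (ploop r' ε' θ)) (fun a => X' a θ)) {w w' : Fin n → Fin n → ℤ}
    (hw : ∀ a b, a ≠ b → Wd univ (fun θ => X a θ - X b θ) (2 * Real.pi * n.factorial) (w a b))
    (hw' : ∀ a b, a ≠ b → Wd univ (fun θ => X' a θ - X' b θ) (2 * Real.pi * n.factorial) (w' a b)) :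
    ∃ π : Equiv.Perm (Fin n), (∀ a b, a ≠ b → w' a b = w (π a) (π b)) ∧
      ∀ a b, (rel (ploop r' ε' 0) (X' a 0) (X' b 0) ↔
        rel (ploop r ε 0) (X (π a) 0) (X (π b) 0)) := by
  have hr1 : ploop r ε 0 ∈ Conf m := ploop_conf hm h 0
  have hr2 : ploop r' ε' 0 ∈ Conf m := ploop_conf hm h' 0
  obtain ⟨γ, hγ⟩ := (Conf_pathConn m).joinedIn _ hr1 _ hr2
  set R : ℝ → Fin (m + 1) → ℂ := fun t => γ.extend t with hRdef
  have hRc : Continuous R := γ.extend.continuous
  have hRm : ∀ t, Function.Injective (R t) := fun t => hγ _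
  have hR0 : R 0 = ploop r ε 0 := γ.extend_zero
  have hR1 : R 1 = ploop r' ε' 0 := γ.extend_one
  set c : ℝ → ℝ := fun t => max 0 (min t 1) with hcdef
  have hcc : Continuous c := continuous_const.max (continuous_id.min continuous_const)
  have hc0 : ∀ t, 0 ≤ c t := fun t => le_max_left _ _
  have hc1 : ∀ t, c t ≤ 1 := fun t => max_le zero_le_one (min_le_right _ _)
  have hcz : c 0 = 0 := by simp [hcdef]
  have hco : c 1 = 1 := by simp [hcdef]
  set D : Fin (m + 1) → ℝ → ℝ := fun p t => ‖R t p - R t 0‖ with hDdef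
  have hDc : ∀ p, Continuous (D p) := fun p =>
    (((continuous_apply p).comp hRc).sub ((continuous_apply 0).comp hRc)).norm
  have hDpos : ∀ p : Fin (m + 1), (p : ℕ) ≠ 0 → ∀ t, 0 < D p t := by
    intro p hp t
    refine norm_pos_iff.2 (sub_ne_zero.2 fun e => hp ?_)
    have := hRm t e
    simp [this]
  have hD0 : ∀ p : Fin (m + 1), (p : ℕ) ≠ 0 → (p : ℕ) ≠ 1 → ε < D p 0 := by
    intro p hp0 hp1
    have := h.2.2 p hp0 hp1
    simp only [hDdef, hR0]
    unfold ploop
    simpa [hp1] using this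
  have hD1 : ∀ p : Fin (m + 1), (p : ℕ) ≠ 0 → (p : ℕ) ≠ 1 → ε' < D p 1 := by
    intro p hp0 hp1
    have := h'.2.2 p hp0 hp1
    simp only [hDdef, hR1]
    unfold ploop
    simpa [hp1] using this
  have hε : 0 < ε := h.1
  have hε' : 0 < ε' := h'.1
  set L : Fin (m + 1) → ℝ → ℝ := fun p t =>
    if (p : ℕ) = 0 ∨ (p : ℕ) = 1 then (1 - c t) * ε + c t * ε'
    else D p t * ((1 - c t) * (ε / D p 0) + c t * (ε' / D p 1)) with hLdef
  have hLc : ∀ p, Continuous (L p) := by
    intro p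
    simp only [hLdef]
    split_ifs
    · exact ((continuous_const.sub hcc).mul continuous_const).add (hcc.mul continuous_const)
    · exact (hDc p).mul (((continuous_const.sub hcc).mul continuous_const).add
        (hcc.mul continuous_const))
  have hLpos : ∀ p t, 0 < L p t := by
    intro p t
    simp only [hLdef]
    split_ifs with hp
    · exact coll_transport_R_cvx (hc0 t) (hc1 t) hε hε'
    · push Not at hp
      exact mul_pos (hDpos p hp.1 t) (coll_transport_R_cvx (hc0 t) (hc1 t)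
        (div_pos hε (hDpos p hp.1 0)) (div_pos hε' (hDpos p hp.1 1)))
  have hLlt : ∀ p : Fin (m + 1), (p : ℕ) ≠ 0 → (p : ℕ) ≠ 1 → ∀ t, L p t < D p t := by
    intro p hp0 hp1 t
    simp only [hLdef]
    rw [if_neg (by push Not; exact ⟨hp0, hp1⟩)]
    have h1 : ε / D p 0 < 1 := (div_lt_one (hDpos p hp0 0)).2 (hD0 p hp0 hp1)
    have h2 : ε' / D p 1 < 1 := (div_lt_one (hDpos p hp0 1)).2 (hD1 p hp0 hp1)
    have h3 := coll_transport_R_cvx (hc0 t) (hc1 t) (sub_pos.2 h1) (sub_pos.2 h2)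
    have h4 : (1 - c t) * (ε / D p 0) + c t * (ε' / D p 1) < 1 := by nlinarith
    calc D p t * ((1 - c t) * (ε / D p 0) + c t * (ε' / D p 1)) < D p t * 1 :=
          mul_lt_mul_of_pos_left h4 (hDpos p hp0 t)
      _ = D p t := mul_one _
  have hL0 : ∀ p, L p 0 = ε := by
    intro p
    simp only [hLdef, hcz]
    split_ifs with hp
    · ring
    · push Not at hp
      have := (hDpos p hp.1 0).ne'
      field_simp
      ring
  have hL1 : ∀ p, L p 1 = ε' := by
    intro p
    simp only [hLdef, hco]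
    split_ifs with hp
    · ring
    · push Not at hp
      have := (hDpos p hp.1 1).ne'
      field_simp
      ring
  have hne : (Finset.univ : Finset (Fin (m + 1))).Nonempty := ⟨0, Finset.mem_univ _⟩
  set E : ℝ → ℝ := fun t => Finset.univ.inf' hne (fun p => L p t) with hEdef
  have hEc : Continuous E := Continuous.finset_inf'_apply hne (fun p _ => hLc p)
  have hE0 : E 0 = ε := by
    simp only [hEdef, hL0]
    exact Finset.inf'_const hne ε
  have hE1 : E 1 = ε' := by
    simp only [hEdef, hL1]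
    exact Finset.inf'_const hne ε'
  have hA : ∀ t, Adm (R t) (E t) := by
    intro t
    refine ⟨(Finset.lt_inf'_iff hne).2 fun p _ => hLpos p t, ?_, ?_⟩
    · intro p q _ _ hpq e
      exact hpq (hRm t e)
    · intro p hp0 hp1
      exact lt_of_le_of_lt (Finset.inf'_le _ (Finset.mem_univ p)) (hLlt p hp0 hp1 t)
  have hfin := coll_transport_R_hom hR hm hRc hEc hA hX hX' (w := w) (w' := w') (by
      intro θ
      rw [hR0, hE0, coll_transport_R_ploop]
      exact hL θ) (by
      intro θ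
      rw [hR1, hE1, coll_transport_R_ploop]
      exact hL' θ) hw hw'
  rwa [hR0, hE0, coll_transport_R_ploop, hR1, hE1, coll_transport_R_ploop] at hfin

end LinC
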