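import Pool.Agent.Helper996.LinC.DefsR
import Pool.Agent.Helper996.Lin.J_lab_basic
import Pool.Agent.Helper996.Lin.J_lab_lift
import Pool.Agent.Helper996.Lin.J_wd_basic
import Pool.Agent.Helper996.Lin.J_ultra_one
import Pool.Agent.Helper996.Lin.J_disj_data
import Pool.Agent.Helper996.Lin.J_Conf_top
import Pool.Agent.Helper996.Lin.J_charts
import Pool.Agent.Helper996.LinC.C_disj_data
import Pool.Agent.Helper996.LinC.R_rb
import Pool.Agent.Helper996.LinC.R_coll
import Pool.Agent.Helper996.LinC.R_baseloop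

set_option autoImplicit false

open Polynomial Set Filter Topology LinS

namespace LinC

variable {m n l : ℕ} {F : (Fin (m + 1) → ℂ) → Fin n → ℂ} {rel : (Fin (m + 1) → ℂ) → ℂ → ℂ → Prop}

theorem disj_data_R_cham (hm : 4 ≤ m) {s t : ℝ} (hs : s < 0) (ht : t < 0) :
    psi m ((s : ℂ), (t : ℂ)) ∈ Cham m := by
  have hmR : (4 : ℝ) ≤ m := by exact_mod_cast hm
  have e1 : Real.exp s < 1 := (Real.exp_lt_exp.2 hs).trans_eq Real.exp_zero
  have e2 : 0 < Real.exp s := Real.exp_pos s
  have e3 : 0 < Real.exp t := Real.exp_pos t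
  have hre : ∀ p : Fin (m + 1), (psi m ((s : ℂ), (t : ℂ)) p).re =
      if (p : ℕ) = 1 then Real.exp s else if (p : ℕ) = m then (m : ℝ) - 1 + Real.exp t
      else ((p : ℕ) : ℝ) := by
    intro p
    unfold psi
    simp only
    split_ifs
    · rw [← Complex.ofReal_exp, Complex.ofReal_re]
    · rw [← Complex.ofReal_exp, Complex.add_re, Complex.sub_re, Complex.natCast_re, Complex.one_re,
        Complex.ofReal_re]
    · simp
  intro p q hpq
  have hpq' : (p : ℕ) < q := hpq
  have hq := q.2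
  rw [hre, hre]
  by_cases hp1 : (p : ℕ) = 1
  · rw [if_pos hp1, if_neg (by omega)]
    by_cases hqm : (q : ℕ) = m
    · rw [if_pos hqm]; linarith
    · rw [if_neg hqm]
      have : (2 : ℝ) ≤ ((q : ℕ) : ℝ) := by exact_mod_cast (by omega : 2 ≤ (q : ℕ))
      linarith
  · rw [if_neg hp1, if_neg (show (p : ℕ) ≠ m by omega)]
    by_cases hq1 : (q : ℕ) = 1
    · rw [if_pos hq1]
      have : (p : ℕ) = 0 := by omega
      rw [this]
      simpa using e2
    · rw [if_neg hq1]
      by_cases hqm : (q : ℕ) = m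
      · rw [if_pos hqm]
        have : ((p : ℕ) : ℝ) + 1 ≤ m := by exact_mod_cast (by omega : (p : ℕ) + 1 ≤ m)
        linarith
      · rw [if_neg hqm]
        exact_mod_cast hpq'

theorem disj_ultra_R_convex : Convex ℝ P2 := by
  have h : P2 = {z : ℂ | z.re < 0} ×ˢ {z : ℂ | z.re < 0} := by
    ext x
    exact Iff.rfl
  rw [h]
  exact (convex_halfSpace_re_lt 0).prod (convex_halfSpace_re_lt 0)

theorem disj_ultra_R_nonempty : (P2 : Set (ℂ × ℂ)).Nonempty := by
  refine ⟨(-1, -1), ?_, ?_⟩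
  · show (-1 : ℂ).re < 0
    norm_num
  · show (-1 : ℂ).re < 0
    norm_num

theorem disj_ultra_R_open : IsOpen P2 := by
  have h : P2 = {z : ℂ | z.re < 0} ×ˢ {z : ℂ | z.re < 0} := by
    ext x
    exact Iff.rfl
  rw [h]
  exact (isOpen_lt Complex.continuous_re continuous_const).prod
    (isOpen_lt Complex.continuous_re continuous_const)

theorem disj_ultra_R_re (N : ℕ) : (2 * Real.pi * Complex.I * (N : ℂ)).re = 0 := by
  simp

theorem disj_ultra_R_p0 (N : ℕ) : ∀ v ∈ P2, v + ((2 * Real.pi * Complex.I * (N : ℂ), 0) : ℂ × ℂ) ∈ P2 := by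
  intro v hv
  refine ⟨?_, ?_⟩
  · show (v.1 + 2 * Real.pi * Complex.I * (N : ℂ)).re < 0
    rw [Complex.add_re, disj_ultra_R_re, add_zero]
    exact hv.1
  · show (v.2 + 0).re < 0
    rw [add_zero]
    exact hv.2

theorem disj_ultra_R_p1 (N : ℕ) : ∀ v ∈ P2, v + ((0, 2 * Real.pi * Complex.I * (N : ℂ)) : ℂ × ℂ) ∈ P2 := by
  intro v hv
  refine ⟨?_, ?_⟩
  · show (v.1 + 0).re < 0
    rw [add_zero]
    exact hv.1
  · show (v.2 + 2 * Real.pi * Complex.I * (N : ℂ)).re < 0
    rw [Complex.add_re, disj_ultra_R_re, add_zero]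
    exact hv.2

theorem disj_ultra_R_wd {g : ℂ × ℂ → ℂ} {N : ℕ} {w w' : ℤ} (A B : ℕ)
    (h0 : Wd P2 g (2 * Real.pi * Complex.I * (N : ℂ), 0) w)
    (h1 : Wd P2 g (0, 2 * Real.pi * Complex.I * (N : ℂ)) w') :
    Wd {s : ℂ | s.re < 0} (fun s => g (-1 + A * s, -1 + B * s))
      (2 * Real.pi * Complex.I * (N : ℂ)) (A * w + B * w') := by
  have hs := Wd.sum (g := g)
    (p := fun i : Bool => if i then ((2 * Real.pi * Complex.I * (N : ℂ), 0) : ℂ × ℂ)
      else (0, 2 * Real.pi * Complex.I * (N : ℂ)))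
    (w := fun i : Bool => if i then w else w')
    disj_ultra_R_convex.isPreconnected Finset.univ (fun i : Bool => if i then A else B)
    (by
      intro i _ v hv
      cases i with
      | false => exact disj_ultra_R_p1 N v hv
      | true => exact disj_ultra_R_p0 N v hv)
    (by
      intro i _
      cases i with
      | false => exact h1
      | true => exact h0) Finset.univ_nonempty
  have h2 : ∑ i ∈ (Finset.univ : Finset Bool), (if i then A else B) •
      (if i then ((2 * Real.pi * Complex.I * (N : ℂ), 0) : ℂ × ℂ)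
      else (0, 2 * Real.pi * Complex.I * (N : ℂ))) =
      ((A : ℂ) * (2 * Real.pi * Complex.I * (N : ℂ)), (B : ℂ) * (2 * Real.pi * Complex.I * (N : ℂ))) := by
    rw [Fintype.sum_bool]
    simp
  have h3 : ∑ i ∈ (Finset.univ : Finset Bool), (((if i then A else B) : ℕ) : ℤ) *
      (if i then w else w') = A * w + B * w' := by
    rw [Fintype.sum_bool]
    simp
  have hs' : Wd P2 g ((A : ℂ) * (2 * Real.pi * Complex.I * (N : ℂ)),
      (B : ℂ) * (2 * Real.pi * Complex.I * (N : ℂ))) (A * w + B * w') := by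
    rw [← h2, ← h3]
    exact hs
  refine Wd.comp hs' (f := fun s : ℂ => ((-1 + A * s, -1 + B * s) : ℂ × ℂ)) ?_ ?_ ?_
  · exact Continuous.continuousOn (by fun_prop)
  · intro s hs
    have hs1 : s.re < 0 := hs
    have hA : (0 : ℝ) ≤ A := Nat.cast_nonneg A
    have hB : (0 : ℝ) ≤ B := Nat.cast_nonneg B
    refine ⟨?_, ?_⟩
    · show (-1 + (A : ℂ) * s).re < 0
      rw [Complex.add_re, Complex.neg_re, Complex.one_re, Complex.mul_re, Complex.natCast_re,
        Complex.natCast_im]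
      nlinarith
    · show (-1 + (B : ℂ) * s).re < 0
      rw [Complex.add_re, Complex.neg_re, Complex.one_re, Complex.mul_re, Complex.natCast_re,
        Complex.natCast_im]
      nlinarith
  · intro s _
    refine Prod.ext ?_ ?_
    · show -1 + (A : ℂ) * (s + 2 * Real.pi * Complex.I * (N : ℂ)) =
        -1 + (A : ℂ) * s + (A : ℂ) * (2 * Real.pi * Complex.I * (N : ℂ))
      ring
    · show -1 + (B : ℂ) * (s + 2 * Real.pi * Complex.I * (N : ℂ)) =
        -1 + (B : ℂ) * s + (B : ℂ) * (2 * Real.pi * Complex.I * (N : ℂ))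
      ring

theorem disj_ultra_R_psi (m : ℕ) : Differentiable ℂ (psi m) := by
  rw [differentiable_pi]
  intro p
  unfold psi
  by_cases h1 : (p : ℕ) = 1
  · simp only [h1, if_true]
    fun_prop
  · by_cases h2 : (p : ℕ) = m
    · simp only [if_neg h1, if_pos h2]
      fun_prop
    · simp only [if_neg h1, if_neg h2]
      fun_prop

theorem disj_conj_R_sig_inj (hm : 4 ≤ m) : Function.Injective (fun p : Fin (m + 1) =>
    if (p : ℕ) = 0 then (⟨m - 1, by omega⟩ : Fin (m + 1)) else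
      if (p : ℕ) = 1 then ⟨m, by omega⟩ else ⟨(p : ℕ) - 2, by omega⟩) := by
  intro p q h
  have hp := p.2
  have hq := q.2
  apply Fin.ext
  dsimp only at h
  split_ifs at h with h1 h2 h3 h4 h5 h6 h7 <;> rw [Fin.ext_iff] at h <;> simp only at h <;> omega

theorem disj_data_R (hR : GoodR m n F rel l) (D : Data m n F) (hm : 4 ≤ m) :
    ∃ (Y : Fin n → ℂ × ℂ → ℂ) (W' : Fin n → Fin n → ℤ), (∀ a, ContinuousOn (Y a) P2) ∧
      (∀ x ∈ P2, Lab (F (psi m x)) (fun a => Y a x)) ∧
      (∀ s t : ℝ, s < 0 → t < 0 → ∀ a, Y a ((s : ℂ), (t : ℂ)) = D.μ a (psi m ((s : ℂ), (t : ℂ)))) ∧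
      (∀ a b, a ≠ b → Wd P2 (fun x => Y a x - Y b x) (2 * Real.pi * Complex.I * (n.factorial : ℂ), 0)
        (D.W a b ⟨0, by omega⟩)) ∧
      (∀ a b, a ≠ b → Wd P2 (fun x => Y a x - Y b x) (0, 2 * Real.pi * Complex.I * (n.factorial : ℂ))
        (W' a b)) ∧
      ∀ x ∈ P2, ∀ a b, (rel (psi m x) (Y a x) (Y b x) ↔ RbD rel D a b) := by
  obtain ⟨Y, W', h1, h2, h3, h4, h5⟩ := disj_data hR.good D hm
  refine ⟨Y, W', h1, h2, h3, h4, h5, ?_⟩
  intro x hx a b
  have hs : (-1 : ℝ) < 0 := by norm_num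
  have hx0 : (((-1 : ℝ) : ℂ), ((-1 : ℝ) : ℂ)) ∈ P2 := by
    refine ⟨?_, ?_⟩
    · show ((-1 : ℝ) : ℂ).re < 0
      rw [Complex.ofReal_re]
      exact hs
    · show ((-1 : ℝ) : ℂ).re < 0
      rw [Complex.ofReal_re]
      exact hs
  have hcham : psi m (((-1 : ℝ) : ℂ), ((-1 : ℝ) : ℂ)) ∈ Cham m := disj_data_R_cham hm hs hs
  have key : ∀ v ∈ P2, ∀ v' ∈ P2, rel (psi m v) (Y a v) (Y b v) →
      rel (psi m v') (Y a v') (Y b v') := fun v hv v' hv' h =>
    hR.rel_cont disj_ultra_R_convex.isPreconnected (psi m)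
      (disj_ultra_R_psi m).continuous.continuousOn (fun v hv => psi_conf hm hv) Y h1 h2 v hv v' hv'
      a b h
  constructor
  · intro h
    have h6 := key x hx _ hx0 h
    rw [h3 (-1) (-1) hs hs a, h3 (-1) (-1) hs hs b] at h6
    exact ⟨_, hcham, h6⟩
  · intro h
    have h6 := (rb_cham hR D a b).1 h _ hcham
    rw [← h3 (-1) (-1) hs hs a, ← h3 (-1) (-1) hs hs b] at h6
    exact key _ hx0 x hx h6

theorem disj_ultra_R (hR : GoodR m n F rel l) (hm : 4 ≤ m) {Y : Fin n → ℂ × ℂ → ℂ}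
    {W₀ W' : Fin n → Fin n → ℤ} (hY : ∀ a, ContinuousOn (Y a) P2)
    (hL : ∀ x ∈ P2, Lab (F (psi m x)) (fun a => Y a x))
    (h0 : ∀ a b, a ≠ b → Wd P2 (fun x => Y a x - Y b x)
      (2 * Real.pi * Complex.I * (n.factorial : ℂ), 0) (W₀ a b))
    (h1 : ∀ a b, a ≠ b → Wd P2 (fun x => Y a x - Y b x)
      (0, 2 * Real.pi * Complex.I * (n.factorial : ℂ)) (W' a b)) :
    (∀ a b, a ≠ b → W' a b = W' b a) ∧ ∀ (A B : ℕ) (a b c : Fin n), a ≠ b → a ≠ c → b ≠ c →
      (∀ x ∈ P2, rel (psi m x) (Y a x) (Y b x)) → (∀ x ∈ P2, rel (psi m x) (Y a x) (Y c x)) →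
      A * W₀ a b + B * W' a b < A * W₀ a c + B * W' a c →
      A * W₀ b c + B * W' b c = A * W₀ a b + B * W' a b := by
  constructor
  · intro a b hab
    refine Wd.unique disj_ultra_R_convex.isPreconnected disj_ultra_R_nonempty
      (disj_ultra_R_p1 n.factorial) (g := fun x => Y b x - Y a x) ?_ (h1 b a hab.symm)
    exact (h1 a b hab).neg.congr (fun v _ => by
      show Y b v - Y a v = -(Y a v - Y b v)
      ring)
  · intro A B a b c hab hac hbc hrb hrc hlt
    have hsq : ∀ v ∈ P2, Squarefree (mpoly n (F (psi m v))) :=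
      fun v hv => hR.good.sqf _ (psi_conf hm hv)
    have hYd : ∀ b, (∀ x ∈ P2, rel (psi m x) (Y a x) (Y b x)) →
        DifferentiableOn ℂ (fun x => Y a x - Y b x) P2 := fun b hb =>
      hR.hol disj_ultra_R_open (psi m) (disj_ultra_R_psi m).differentiableOn
        (fun v hv => psi_conf hm hv) Y hY hL a b hb
    have hne : ∀ a b, a ≠ b → ∀ v ∈ P2, Y a v ≠ Y b v := by
      intro a b hab v hv h
      exact hab (lab_inj (hL v hv) (hsq v hv) h)
    have hx : ∀ s : ℂ, s.re < 0 → ((-1 + A * s, -1 + B * s) : ℂ × ℂ) ∈ P2 := by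
      intro s hs1
      have hA : (0 : ℝ) ≤ A := Nat.cast_nonneg A
      have hB : (0 : ℝ) ≤ B := Nat.cast_nonneg B
      refine ⟨?_, ?_⟩
      · show (-1 + (A : ℂ) * s).re < 0
        rw [Complex.add_re, Complex.neg_re, Complex.one_re, Complex.mul_re, Complex.natCast_re,
          Complex.natCast_im]
        nlinarith
      · show (-1 + (B : ℂ) * s).re < 0
        rw [Complex.add_re, Complex.neg_re, Complex.one_re, Complex.mul_re, Complex.natCast_re,
          Complex.natCast_im]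
        nlinarith
    have hd : ∀ b, (∀ x ∈ P2, rel (psi m x) (Y a x) (Y b x)) →
        DifferentiableOn ℂ (fun s : ℂ => -(Y a (-1 + A * s, -1 + B * s)
          - Y b (-1 + A * s, -1 + B * s))) {s | s.re < 0} := by
      intro b hb
      have hdx : Differentiable ℂ (fun s : ℂ => ((-1 + A * s, -1 + B * s) : ℂ × ℂ)) := by
        fun_prop
      have h6 := (hYd b hb).comp hdx.differentiableOn (fun s hs => hx s hs)
      exact h6.neg
    refine ultra_one (Nat.factorial_pos n) (p := fun _ => 0)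
      (q := fun s : ℂ => -(Y a (-1 + A * s, -1 + B * s) - Y b (-1 + A * s, -1 + B * s)))
      (r := fun s : ℂ => -(Y a (-1 + A * s, -1 + B * s) - Y c (-1 + A * s, -1 + B * s)))
      (differentiableOn_const _) (hd b hrb) (hd c hrc) ?_ ?_ ?_
      ((disj_ultra_R_wd A B (h0 a b hab) (h1 a b hab)).congr ?_)
      ((disj_ultra_R_wd A B (h0 a c hac) (h1 a c hac)).congr ?_)
      ((disj_ultra_R_wd A B (h0 b c hbc) (h1 b c hbc)).congr ?_) hlt
    · intro s hs h
      exact hne a b hab _ (hx s hs) (by linear_combination h)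
    · intro s hs h
      exact hne a c hac _ (hx s hs) (by linear_combination h)
    · intro s hs h
      exact hne b c hbc _ (hx s hs) (by linear_combination h)
    · intro s _
      ring
    · intro s _
      ring
    · intro s _
      ring

theorem disj_conj_R (hR : GoodR m n F rel l) (D : Data m n F) (hm : 4 ≤ m) {Y : Fin n → ℂ × ℂ → ℂ}
    {W' : Fin n → Fin n → ℤ} (hY : ∀ a, ContinuousOn (Y a) P2)
    (hL : ∀ x ∈ P2, Lab (F (psi m x)) (fun a => Y a x))
    (h1 : ∀ a b, a ≠ b → Wd P2 (fun x => Y a x - Y b x)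
      (0, 2 * Real.pi * Complex.I * (n.factorial : ℂ)) (W' a b))
    (h2 : ∀ x ∈ P2, ∀ a b, (rel (psi m x) (Y a x) (Y b x) ↔ RbD rel D a b)) :
    ∃ π : Equiv.Perm (Fin n), (∀ a b, a ≠ b → W' a b = D.W (π a) (π b) ⟨0, by omega⟩) ∧
      ∀ a b, (RbD rel D a b ↔ RbD rel D (π a) (π b)) := by
  obtain ⟨r, ε, X, hAdm, hXc, hXL, hXw, hXrel⟩ := base_loop_R hR D (by omega : 0 < m)
  -- the permutation
  let σ : Equiv.Perm (Fin (m + 1)) := Equiv.ofBijective _
    (Finite.injective_iff_bijective.1 (disj_conj_R_sig_inj hm))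
  have hσ : ∀ p : Fin (m + 1), σ p = if (p : ℕ) = 0 then (⟨m - 1, by omega⟩ : Fin (m + 1)) else
      if (p : ℕ) = 1 then ⟨m, by omega⟩ else ⟨(p : ℕ) - 2, by omega⟩ := fun p => rfl
  let x0 : ℂ := ((Real.log (1 / 2) : ℝ) : ℂ)
  have hx0re : x0.re < 0 := by
    change ((Real.log (1 / 2) : ℝ) : ℂ).re < 0
    rw [Complex.ofReal_re]
    exact Real.log_neg (by norm_num) (by norm_num)
  have hx0exp : Complex.exp x0 = 1 / 2 := by
    change Complex.exp ((Real.log (1 / 2) : ℝ) : ℂ) = 1 / 2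
    rw [← Complex.ofReal_exp, Real.exp_log (by norm_num)]
    norm_num
  let f : ℝ → ℂ × ℂ := fun θ => (x0, x0 + θ * Complex.I)
  have hfP : ∀ θ : ℝ, f θ ∈ P2 := by
    intro θ
    refine ⟨hx0re, ?_⟩
    change (x0 + θ * Complex.I).re < 0
    simpa using hx0re
  have hfc : Continuous f := by
    change Continuous fun θ : ℝ => (x0, x0 + θ * Complex.I)
    fun_prop
  -- the configuration
  let r' : Fin (m + 1) → ℂ := fun p => psi m (f 0) (σ p)
  have hr0 : r' 0 = (m : ℂ) - 1 := by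
    change psi m (f 0) (σ 0) = _
    rw [hσ, if_pos (show ((0 : Fin (m + 1)) : ℕ) = 0 by simp)]
    unfold psi
    simp only
    rw [if_neg (by omega), if_neg (by omega)]
    rw [Nat.cast_sub (by omega)]
    simp
  have hr' : ∀ p : Fin (m + 1), (p : ℕ) ≠ 0 → (p : ℕ) ≠ 1 →
      r' p = if (p : ℕ) = 3 then 1 / 2 else (((p : ℕ) - 2 : ℕ) : ℂ) := by
    intro p h0 h1'
    change psi m (f 0) (σ p) = _
    rw [hσ, if_neg h0, if_neg h1']
    unfold psi
    simp only
    have hp := p.2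
    by_cases h3 : (p : ℕ) = 3
    · rw [if_pos h3, if_pos (by omega)]
      exact hx0exp
    · rw [if_neg h3, if_neg (by omega), if_neg (by omega)]
  have hinj : Function.Injective r' := (psi_conf hm (hfP 0)).comp σ.injective
  have hAdm' : Adm r' (1 / 2) := by
    refine ⟨by norm_num, ?_, ?_⟩
    · intro p q _ _ hpq h
      exact hpq (hinj h)
    · intro p h0 h1'
      rw [hr0, hr' p h0 h1']
      have hp := p.2
      have hm' : (4 : ℝ) ≤ m := by exact_mod_cast hm
      refine lt_of_lt_of_le ?_ (Complex.abs_re_le_norm _)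
      by_cases h3 : (p : ℕ) = 3
      · rw [if_pos h3]
        have : ((1 : ℂ) / 2 - ((m : ℂ) - 1)).re = 1 / 2 - ((m : ℝ) - 1) := by
          rw [show ((1 : ℂ) / 2 - ((m : ℂ) - 1)) = ((1 / 2 - ((m : ℝ) - 1) : ℝ) : ℂ) by
            push_cast; ring]
          exact Complex.ofReal_re _
        rw [this, lt_abs]
        right
        linarith
      · rw [if_neg h3]
        have : ((((p : ℕ) - 2 : ℕ) : ℂ) - ((m : ℂ) - 1)).re =
            (((p : ℕ) - 2 : ℕ) : ℝ) - ((m : ℝ) - 1) := by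
          rw [show ((((p : ℕ) - 2 : ℕ) : ℂ) - ((m : ℂ) - 1)) =
            (((((p : ℕ) - 2 : ℕ) : ℝ) - ((m : ℝ) - 1) : ℝ) : ℂ) by
            push_cast; ring]
          exact Complex.ofReal_re _
        rw [this, lt_abs]
        right
        have h5 : ((p : ℕ) - 2 : ℕ) + 2 ≤ m := by omega
        have h6 : ((((p : ℕ) - 2 : ℕ) : ℝ)) + 2 ≤ m := by exact_mod_cast h5
        linarith
  have hpl : ∀ θ : ℝ, ploop r' (1 / 2) θ = psi m (f θ) ∘ σ := by
    intro θ
    funext p
    unfold ploop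
    rw [Function.comp_apply]
    by_cases h1' : (p : ℕ) = 1
    · rw [if_pos h1', hr0, hσ, if_neg (by omega), if_pos h1']
      unfold psi
      simp only
      rw [if_neg (by omega), if_true]
      have : Complex.exp (f θ).2 = 1 / 2 * Complex.exp (θ * Complex.I) := by
        change Complex.exp (x0 + θ * Complex.I) = _
        rw [Complex.exp_add, hx0exp]
      rw [this]
      push_cast
      ring
    · rw [if_neg h1']
      change psi m (f 0) (σ p) = _
      have hne : ((σ p : Fin (m + 1)) : ℕ) ≠ m := by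
        have hp := p.2
        rw [hσ]
        split_ifs with h0
        · simp only
          omega
        · simp only
          omega
      unfold psi
      rw [if_neg hne, if_neg hne]
  obtain ⟨π, hπ1, hπ2⟩ := coll_transport_R hR (by omega : 0 < m) hAdm hAdm' hXc
    (X' := fun a θ => Y a (f θ)) (fun a => (hY a).comp_continuous hfc hfP) hXL
    (by
      intro θ
      rw [hpl θ, hR.good.symm _ (psi_conf hm (hfP θ)) σ]
      exact hL _ (hfP θ)) hXw (w' := W')
    (by
      intro a b hab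
      refine (h1 a b hab).comp hfc.continuousOn (fun θ _ => hfP θ) ?_
      intro θ _
      change (x0, x0 + ((θ + 2 * Real.pi * n.factorial : ℝ) : ℂ) * Complex.I) =
        (x0, x0 + (θ : ℂ) * Complex.I) + (0, 2 * Real.pi * Complex.I * (n.factorial : ℂ))
      rw [Prod.mk_add_mk, add_zero]
      congr 1
      push_cast
      ring)
  refine ⟨π, hπ1, ?_⟩
  intro a b
  have h3 := hπ2 a b
  rw [hpl 0, hR.rel_symm _ (psi_conf hm (hfP 0)) σ, h2 _ (hfP 0), hXrel] at h3
  exact h3

end LinC
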