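import Pool.Agent.Helper996.LinC.R_baseloop
import Pool.Agent.Helper996.LinC.R_coll

set_option autoImplicit false

open Polynomial Set Filter Topology LinS

namespace LinC

variable {m n l : ℕ} {F : (Fin (m + 1) → ℂ) → Fin n → ℂ} {rel : (Fin (m + 1) → ℂ) → ℂ → ℂ → Prop}

theorem coll_const_R (hR : GoodR m n F rel l) (D : Data m n F) (hm : 0 < m)
    (hc : ∀ a b c : Fin n, a ≠ b → a ≠ c → RbD rel D a b → RbD rel D a c →
      D.W a b ⟨0, hm⟩ = D.W a c ⟨0, hm⟩)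
    {r : Fin (m + 1) → ℂ} {ε : ℝ} (h : Adm r ε) {X : Fin n → ℝ → ℂ}
    (hX : ∀ a, Continuous (X a)) (hL : ∀ θ, Lab (F (ploop r ε θ)) (fun a => X a θ))
    {w : Fin n → Fin n → ℤ}
    (hw : ∀ a b, a ≠ b → Wd univ (fun θ => X a θ - X b θ) (2 * Real.pi * n.factorial) (w a b))
    (a b c : Fin n) (hab : a ≠ b) (hac : a ≠ c) (h1 : rel (ploop r ε 0) (X a 0) (X b 0))
    (h2 : rel (ploop r ε 0) (X a 0) (X c 0)) : w a b = w a c := by
  obtain ⟨r₀, ε₀, X₀, g1, g2, g3, g4, g5⟩ := base_loop_R hR D hm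
  obtain ⟨π, hπ, hπ2⟩ := coll_transport_R hR hm g1 h g2 hX g3 hL g4 hw
  rw [hπ a b hab, hπ a c hac]
  exact hc _ _ _ (fun h => hab (π.injective h)) (fun h => hac (π.injective h))
    ((g5 _ _).1 ((hπ2 a b).1 h1)) ((g5 _ _).1 ((hπ2 a c).1 h2))

end LinC
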