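import Pool.Agent.Helper996.LinC.DefsR
import Pool.Agent.Helper996.Lin.J_lab_basic
import Pool.Agent.Helper996.Lin.J_lab_lift
import Pool.Agent.Helper996.Lin.J_wd_basic
import Pool.Agent.Helper996.Lin.J_end_main
import Pool.Agent.Helper996.Lin.J_Conf_top
import Pool.Agent.Helper996.LinC.R_coll
import Pool.Agent.Helper996.LinC.R_rb
import Pool.Agent.Helper996.LinC.R_baseloop
import Pool.Agent.Helper996.LinC.R_collc

set_option autoImplicit false

open Polynomial Set Filter Topology LinS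

namespace LinC

variable {m n l : ℕ} {F : (Fin (m + 1) → ℂ) → Fin n → ℂ} {rel : (Fin (m + 1) → ℂ) → ℂ → ℂ → Prop}

theorem line_puncture_R_perm {m : ℕ} (hm : 0 < m) (p₀ q₀ : Fin (m + 1)) (hpq : p₀ ≠ q₀) :
    ∃ ρ : Equiv.Perm (Fin (m + 1)), ρ 0 = p₀ ∧ ρ ⟨1, by omega⟩ = q₀ := by
  refine ⟨(Equiv.swap 0 p₀).trans (Equiv.swap (Equiv.swap 0 p₀ ⟨1, by omega⟩) q₀), ?_, ?_⟩
  · have h1 : p₀ ≠ Equiv.swap 0 p₀ ⟨1, by omega⟩ := by
      intro h
      have h2 : Equiv.swap (0 : Fin (m+1)) p₀ 0 = Equiv.swap 0 p₀ ⟨1, by omega⟩ := by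
        rw [Equiv.swap_apply_left]; exact h
      have h3 := (Equiv.swap (0 : Fin (m+1)) p₀).injective h2
      have := congrArg Fin.val h3
      simp at this
    rw [Equiv.trans_apply, Equiv.swap_apply_left, Equiv.swap_apply_of_ne_of_ne h1 hpq]
  · rw [Equiv.trans_apply, Equiv.swap_apply_left]

theorem line_puncture_R_sep {m : ℕ} (c : Fin (m + 1) → ℂ) :
    ∃ δ > 0, ∀ p q, c p ≠ c q → δ ≤ ‖c p - c q‖ := by
  classical
  by_cases h : (Finset.univ.filter
      (fun x : Fin (m+1) × Fin (m+1) => c x.1 ≠ c x.2)).Nonempty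
  · obtain ⟨x, hx, hmin⟩ := Finset.exists_min_image _ (fun x => ‖c x.1 - c x.2‖) h
    refine ⟨‖c x.1 - c x.2‖, ?_, ?_⟩
    · rw [Finset.mem_filter] at hx
      exact norm_pos_iff.2 (sub_ne_zero.2 hx.2)
    · intro p q hpq
      exact hmin (p, q) (by simp [hpq])
  · refine ⟨1, one_pos, fun p q hpq => (h ⟨(p, q), by simp [hpq]⟩).elim⟩

theorem line_puncture_R_per {V : Type*} [NormedAddCommGroup V] [NormedSpace ℝ V] {K : Set V}
    (hK : Convex ℝ K) {n : ℕ} {φ : V → Fin n → ℂ} (hs : ∀ v ∈ K, Squarefree (mpoly n (φ v)))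
    {P : Fin n → V → ℂ} (hP : ∀ a, ContinuousOn (P a) K)
    (hL : ∀ v ∈ K, Lab (φ v) (fun a => P a v)) (p : V) (hp : ∀ v ∈ K, v + p ∈ K)
    (hφ : ∀ v ∈ K, φ (v + p) = φ v) :
    ∀ v ∈ K, ∀ a, P a (v + n.factorial • p) = P a v := by
  obtain ⟨π, hπ⟩ := lab_uniq hK.isPreconnected hs hP
    (M' := fun a v => P a (v + p))
    (fun a => (hP a).comp (continuous_id.add continuous_const).continuousOn (fun v hv => hp v hv))
    hL (fun v hv => by
      have := hL (v + p) (hp v hv)
      rw [hφ v hv] at this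
      exact this)
  have key : ∀ k : ℕ, ∀ v ∈ K, v + k • p ∈ K ∧ ∀ a, P a (v + k • p) = P ((π ^ k) a) v := by
    intro k
    induction k with
    | zero =>
      intro v hv
      simpa using hv
    | succ k ih =>
      intro v hv
      obtain ⟨h1, h2⟩ := ih v hv
      have e1 : v + (k + 1) • p = (v + k • p) + p := by
        rw [succ_nsmul, add_assoc]
      rw [e1]
      refine ⟨hp _ h1, fun a => ?_⟩
      have h3 : P a (v + k • p + p) = P (π a) (v + k • p) := hπ _ h1 a
      rw [h3, h2, pow_succ, Equiv.Perm.mul_apply]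
  intro v hv a
  rw [(key _ v hv).2 a]
  have : π ^ n.factorial = 1 := by
    have h1 : Fintype.card (Equiv.Perm (Fin n)) = n.factorial := by
      rw [Fintype.card_perm, Fintype.card_fin]
    rw [← h1]
    exact pow_card_eq_one
  rw [this]
  rfl

theorem line_puncture_R_same {n : ℕ} {z M X : Fin n → ℂ} (hs : Squarefree (mpoly n z))
    (hM : Lab z M) (hX : Lab z X) : ∃ π : Equiv.Perm (Fin n), ∀ a, X a = M (π a) := by
  obtain ⟨π, hπ⟩ := lab_uniq (V := ℂ) (K := {(0 : ℂ)}) isPreconnected_singleton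
    (φ := fun _ => z) (fun _ _ => hs) (M := fun a _ => M a) (M' := fun a _ => X a)
    (fun a => continuousOn_const) (fun a => continuousOn_const) (fun _ _ => hM) (fun _ _ => hX)
  exact ⟨π, fun a => hπ 0 rfl a⟩

theorem line_puncture_R (hR : GoodR m n F rel l) (D : Data m n F) (hm : 0 < m)
    (hc : ∀ a b c : Fin n, a ≠ b → a ≠ c → RbD rel D a b → RbD rel D a c →
      D.W a b ⟨0, hm⟩ = D.W a c ⟨0, hm⟩)
    (u v : Fin (m + 1) → ℂ) (t₀ : ℂ) (p₀ q₀ : Fin (m + 1)) (hpq : p₀ ≠ q₀)
    (hcol : v p₀ + t₀ * u p₀ = v q₀ + t₀ * u q₀) (hu : u p₀ ≠ u q₀)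
    (hother : ∀ p q, p ≠ q → v p + t₀ * u p = v q + t₀ * u q → (p = p₀ ∧ q = q₀) ∨ (p = q₀ ∧ q = p₀)) :
    ∃ ε C : ℝ, 0 < ε ∧ ∀ t : ℂ, t ≠ t₀ → ‖t - t₀‖ < ε → (fun p => v p + t * u p) ∈ Conf m ∧
      ∀ X : Fin n → ℂ, Lab (F (fun p => v p + t * u p)) X →
        ∀ a b c, a ≠ b → a ≠ c → b ≠ c → rel (fun p => v p + t * u p) (X a) (X b) →
          rel (fun p => v p + t * u p) (X a) (X c) → ‖rat X a b c‖ ≤ C := by
  classical
  set c : Fin (m+1) → ℂ := fun p => v p + t₀ * u p with hcdef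
  set d : ℂ := u q₀ - u p₀ with hd
  have hd0 : d ≠ 0 := sub_ne_zero.2 hu.symm
  obtain ⟨δ, hδ, hsep⟩ := line_puncture_R_sep c
  let w : ℝ → Fin (m+1) → ℂ := fun τ p => (τ : ℂ) * u p + (1 - (τ : ℂ)) * (if p = q₀ then d else 0)
  have hwd : ∀ τ, w τ q₀ - w τ p₀ = d := by
    intro τ
    simp only [w, if_true, if_neg hpq]
    rw [hd]; ring
  let B : ℝ := ∑ p, ‖u p‖ + ‖d‖
  have hBu : ∀ p, ‖u p‖ ≤ ∑ p, ‖u p‖ := fun p =>
    Finset.single_le_sum (f := fun p => ‖u p‖) (fun _ _ => norm_nonneg _) (Finset.mem_univ p)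
  have hBd : ‖d‖ ≤ B := by
    have : 0 ≤ ∑ p, ‖u p‖ := Finset.sum_nonneg (fun _ _ => norm_nonneg _)
    simp only [B]; linarith
  have hB0 : 0 ≤ B := le_trans (norm_nonneg _) hBd
  have hB : ∀ τ ∈ Icc (0:ℝ) 1, ∀ p, ‖w τ p‖ ≤ B := by
    intro τ hτ p
    have h1 : ‖(τ : ℂ) * u p‖ ≤ ∑ p, ‖u p‖ := by
      rw [norm_mul, Complex.norm_real, Real.norm_of_nonneg hτ.1]
      calc τ * ‖u p‖ ≤ 1 * ‖u p‖ := mul_le_mul_of_nonneg_right hτ.2 (norm_nonneg _)
        _ ≤ _ := by rw [one_mul]; exact hBu p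
    have h2 : ‖(1 - (τ : ℂ)) * (if p = q₀ then d else 0)‖ ≤ ‖d‖ := by
      rw [norm_mul]
      have e1 : ‖(1 - (τ : ℂ))‖ = 1 - τ := by
        rw [← Complex.ofReal_one, ← Complex.ofReal_sub, Complex.norm_real,
          Real.norm_of_nonneg (by linarith [hτ.2])]
      have e2 : ‖(if p = q₀ then d else 0)‖ ≤ ‖d‖ := by
        split_ifs
        · exact le_refl _
        · simp
      rw [e1]
      calc (1 - τ) * ‖(if p = q₀ then d else 0)‖ ≤ 1 * ‖d‖ :=
            mul_le_mul (by linarith [hτ.1]) e2 (norm_nonneg _) zero_le_one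
        _ = ‖d‖ := one_mul _
    exact (norm_add_le _ _).trans (add_le_add h1 h2)
  let ε : ℝ := δ / (2 * B + 1)
  have hε : 0 < ε := by positivity
  have hεδ : ε * (2 * B + 1) = δ := by
    simp only [ε]; field_simp
  let R : ℂ × ℝ → Fin (m+1) → ℂ := fun x p => c p + Complex.exp x.1 * w x.2 p
  let c0 : ℝ := Real.log ε
  let K : Set (ℂ × ℝ) := {x | x.1.re < c0 ∧ 0 ≤ x.2 ∧ x.2 ≤ 1}
  have hexp : ∀ s : ℂ, s.re < c0 → ‖Complex.exp s‖ < ε := by
    intro s hs
    rw [Complex.norm_exp]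
    calc Real.exp s.re < Real.exp c0 := Real.exp_lt_exp.2 hs
      _ = ε := Real.exp_log hε
  have hRconf : ∀ x ∈ K, R x ∈ Conf m := by
    intro x hx p q hpq'
    by_contra hne
    have hx1 := hexp x.1 hx.1
    have h1 : c p - c q = Complex.exp x.1 * (w x.2 q - w x.2 p) := by
      have : c p + Complex.exp x.1 * w x.2 p = c q + Complex.exp x.1 * w x.2 q := hpq'
      linear_combination this
    by_cases hcpq : c p = c q
    · rw [hcpq, sub_self] at h1
      have h2 : w x.2 q - w x.2 p = 0 := by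
        rcases mul_eq_zero.1 h1.symm with h | h
        · exact (Complex.exp_ne_zero _ h).elim
        · exact h
      rcases hother p q hne hcpq with ⟨rfl, rfl⟩ | ⟨rfl, rfl⟩
      · rw [hwd] at h2; exact hd0 h2
      · apply hd0
        rw [← hwd x.2]
        linear_combination -h2
    · have h2 := hsep p q hcpq
      rw [h1, norm_mul] at h2
      have h3 : ‖w x.2 q - w x.2 p‖ ≤ 2 * B := by
        calc _ ≤ ‖w x.2 q‖ + ‖w x.2 p‖ := norm_sub_le _ _
          _ ≤ B + B := add_le_add (hB _ ⟨hx.2.1, hx.2.2⟩ _) (hB _ ⟨hx.2.1, hx.2.2⟩ _)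
          _ = 2 * B := by ring
      have h4 : ‖Complex.exp x.1‖ * ‖w x.2 q - w x.2 p‖ ≤ ε * (2 * B) :=
        mul_le_mul hx1.le h3 (norm_nonneg _) hε.le
      linarith
  have hKconv : Convex ℝ K := by
    intro x hx y hy a b ha hb hab
    refine ⟨?_, ?_, ?_⟩
    · show (a • x.1 + b • y.1).re < c0
      rw [Complex.add_re, Complex.real_smul, Complex.real_smul, Complex.re_ofReal_mul,
        Complex.re_ofReal_mul]
      have hx1 := hx.1
      have hy1 := hy.1
      rcases eq_or_lt_of_le ha with h | h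
      · have : b = 1 := by linarith
        rw [← h, this]; linarith
      · have e1 : a * x.1.re < a * c0 := mul_lt_mul_of_pos_left hx1 h
        have e2 : b * y.1.re ≤ b * c0 := mul_le_mul_of_nonneg_left hy1.le hb
        have e3 : a * c0 + b * c0 = c0 := by rw [← add_mul, hab, one_mul]
        linarith
    · show 0 ≤ a * x.2 + b * y.2
      have := hx.2.1
      have := hy.2.1
      positivity
    · show a * x.2 + b * y.2 ≤ 1
      have e1 : a * x.2 ≤ a * 1 := mul_le_mul_of_nonneg_left hx.2.2 ha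
      have e2 : b * y.2 ≤ b * 1 := mul_le_mul_of_nonneg_left hy.2.2 hb
      linarith
  have hRc : Continuous R := by
    apply continuous_pi
    intro p
    apply Continuous.add continuous_const
    apply Continuous.mul (Complex.continuous_exp.comp continuous_fst)
    apply Continuous.add
    · exact (Complex.continuous_ofReal.comp continuous_snd).mul continuous_const
    · exact (continuous_const.sub (Complex.continuous_ofReal.comp continuous_snd)).mul
        continuous_const
  have hφc : ContinuousOn (fun x => F (R x)) K :=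
    hR.good.holo.comp hRc.continuousOn (fun x hx => hRconf x hx)
  have hφs : ∀ x ∈ K, Squarefree (mpoly n (F (R x))) := fun x hx => hR.good.sqf _ (hRconf x hx)
  obtain ⟨P, hPc, hPL⟩ := lab_lift hKconv hφc hφs
  have hPinj : ∀ x ∈ K, Function.Injective (fun a => P a x) := fun x hx =>
    lab_inj (hPL x hx) (hφs x hx)
  have hper0 := line_puncture_R_per hKconv hφs hPc hPL ((2 * Real.pi * Complex.I, 0) : ℂ × ℝ)
    (by
      intro x hx
      refine ⟨?_, ?_, ?_⟩
      · show (x.1 + 2 * Real.pi * Complex.I).re < c0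
        have : (x.1 + 2 * Real.pi * Complex.I).re = x.1.re := by simp
        rw [this]; exact hx.1
      · show 0 ≤ x.2 + 0
        rw [add_zero]; exact hx.2.1
      · show x.2 + 0 ≤ 1
        rw [add_zero]; exact hx.2.2)
    (by
      intro x hx
      show F (R (x.1 + 2 * Real.pi * Complex.I, x.2 + 0)) = F (R x)
      congr 1
      funext p
      show c p + Complex.exp (x.1 + 2 * Real.pi * Complex.I) * w (x.2 + 0) p =
        c p + Complex.exp x.1 * w x.2 p
      rw [add_zero, Complex.exp_add, Complex.exp_two_pi_mul_I, mul_one])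
  let pv : ℂ × ℝ := (2 * Real.pi * Complex.I * (n.factorial : ℂ), 0)
  have hpv : n.factorial • ((2 * Real.pi * Complex.I, 0) : ℂ × ℝ) = pv := by
    ext1
    · show n.factorial • (2 * Real.pi * Complex.I : ℂ) = 2 * Real.pi * Complex.I * (n.factorial : ℂ)
      rw [nsmul_eq_mul]; ring
    · show n.factorial • (0 : ℝ) = 0
      simp
  rw [hpv] at hper0
  have hKpv : ∀ x ∈ K, x + pv ∈ K := by
    intro x hx
    refine ⟨?_, ?_, ?_⟩
    · show (x.1 + 2 * Real.pi * Complex.I * (n.factorial : ℂ)).re < c0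
      have : (x.1 + 2 * Real.pi * Complex.I * (n.factorial : ℂ)).re = x.1.re := by simp
      rw [this]; exact hx.1
    · show 0 ≤ x.2 + 0
      rw [add_zero]; exact hx.2.1
    · show x.2 + 0 ≤ 1
      rw [add_zero]; exact hx.2.2
  have hWex : ∀ a b, a ≠ b → ∃ k : ℤ, Wd K (fun x => P a x - P b x) pv k := by
    intro a b hab
    apply Wd.exists hKconv hKpv ((hPc a).sub (hPc b))
    · intro x hx h
      exact hab (hPinj x hx (sub_eq_zero.1 h))
    · intro x hx
      show P a (x + pv) - P b (x + pv) = P a x - P b x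
      rw [hper0 x hx a, hper0 x hx b]
  choose! W hW using hWex
  -- the relation
  have hrel : ∀ x ∈ K, ∀ a b, rel (R x) (P a x) (P b x) → ∀ x' ∈ K, rel (R x') (P a x') (P b x') := by
    intro x hx a b h x' hx'
    exact hR.rel_cont hKconv.isPreconnected R hRc.continuousOn hRconf P hPc hPL x hx x' hx' a b h
  -- the collision loop
  obtain ⟨ρ, hρ0, hρ1⟩ := line_puncture_R_perm hm p₀ q₀ hpq
  have hWeq : ∀ a b c', a ≠ b → a ≠ c' → (∀ x ∈ K, rel (R x) (P a x) (P b x)) →
      (∀ x ∈ K, rel (R x) (P a x) (P c' x)) → W a b = W a c' := by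
    let σ : ℝ := c0 - 1
    have hσ : ∀ θ : ℝ, (((σ : ℂ) + (θ : ℂ) * Complex.I, (0 : ℝ)) : ℂ × ℝ) ∈ K := by
      intro θ
      refine ⟨?_, le_refl _, zero_le_one⟩
      show ((σ : ℂ) + (θ : ℂ) * Complex.I).re < c0
      have : ((σ : ℂ) + (θ : ℂ) * Complex.I).re = σ := by simp
      rw [this]; simp [σ]
    let f : ℝ → ℂ × ℝ := fun θ => ((σ : ℂ) + ((θ - d.arg : ℝ) : ℂ) * Complex.I, 0)
    have hfK : ∀ θ, f θ ∈ K := fun θ => hσ _
    have hfc : Continuous f := by
      apply Continuous.prodMk _ continuous_const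
      apply Continuous.add continuous_const
      apply Continuous.mul _ continuous_const
      exact Complex.continuous_ofReal.comp (continuous_id.sub continuous_const)
    have hσε : Real.exp σ < ε := by
      calc Real.exp σ < Real.exp c0 := Real.exp_lt_exp.2 (by simp [σ])
        _ = ε := Real.exp_log hε
    have hcρ0 : c (ρ 0) = c p₀ := by rw [hρ0]
    have hρne : ∀ p : Fin (m + 1), (p : ℕ) ≠ 1 → ρ p ≠ q₀ := by
      intro p hp h
      rw [← hρ1] at h
      have := ρ.injective h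
      apply hp
      rw [this]
    have hρne0 : ∀ p : Fin (m + 1), (p : ℕ) ≠ 0 → ρ p ≠ p₀ := by
      intro p hp h
      rw [← hρ0] at h
      have := ρ.injective h
      apply hp
      rw [this]
      rfl
    have hadm : Adm (fun p => c (ρ p)) (‖d‖ * Real.exp σ) := by
      refine ⟨by positivity, ?_, ?_⟩
      · intro p q hp hq hpq' h
        rcases hother (ρ p) (ρ q) (fun h' => hpq' (ρ.injective h')) h with h' | h'
        · exact hρne q hq h'.2
        · exact hρne p hp h'.1
      · intro p hp0 hp1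
        have hne : c (ρ p) ≠ c (ρ 0) := by
          intro h
          rcases hother (ρ p) (ρ 0) (fun h' => hp0 (by rw [ρ.injective h']; rfl)) h with h' | h'
          · exact hρne0 p hp0 h'.1
          · exact hρne p hp1 h'.1
        have h1 := hsep _ _ hne
        have h2 : ‖d‖ * Real.exp σ ≤ B * ε :=
          mul_le_mul hBd hσε.le (Real.exp_pos _).le hB0
        have h3 : B * ε < δ := by nlinarith
        show ‖d‖ * Real.exp σ < ‖c (ρ p) - c (ρ 0)‖
        linarith
    have hloop0 : ∀ θ : ℝ, ploop (fun p => c (ρ p)) (‖d‖ * Real.exp σ) θ = R (f θ) ∘ ρ := by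
      intro θ
      funext p
      by_cases hp : (p : ℕ) = 1
      · have hp' : p = ⟨1, by omega⟩ := Fin.ext hp
        have e1 : ploop (fun p => c (ρ p)) (‖d‖ * Real.exp σ) θ p =
            c (ρ 0) + (‖d‖ * Real.exp σ : ℝ) * Complex.exp (θ * Complex.I) := by
          simp only [ploop, if_pos hp]
        have e2 : (R (f θ) ∘ ρ) p = c q₀ + Complex.exp (f θ).1 * w 0 q₀ := by
          show c (ρ p) + Complex.exp (f θ).1 * w 0 (ρ p) = _
          rw [hp', hρ1]
        rw [e1, e2, hcρ0]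
        have e3 : c p₀ = c q₀ := hcol
        have e4 : w 0 q₀ = d := by simp [w]
        rw [e3, e4]
        congr 1
        have e5 : (d : ℂ) = ‖d‖ * Complex.exp (d.arg * Complex.I) :=
          (Complex.norm_mul_exp_arg_mul_I d).symm
        have e6 : Complex.exp (f θ).1 =
            Complex.exp σ * Complex.exp (θ * Complex.I) * (Complex.exp (d.arg * Complex.I))⁻¹ := by
          rw [← Complex.exp_neg, ← Complex.exp_add, ← Complex.exp_add]
          congr 1
          simp only [f]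
          push_cast
          ring
        rw [e6]
        have e7 : Complex.exp (d.arg * Complex.I) ≠ 0 := Complex.exp_ne_zero _
        calc ((‖d‖ * Real.exp σ : ℝ) : ℂ) * Complex.exp (θ * Complex.I)
            = Complex.exp σ * Complex.exp (θ * Complex.I) * (Complex.exp (d.arg * Complex.I))⁻¹ *
              (‖d‖ * Complex.exp (d.arg * Complex.I)) := by
              push_cast
              field_simp
          _ = _ := by rw [← e5]
      · have e1 : ploop (fun p => c (ρ p)) (‖d‖ * Real.exp σ) θ p = c (ρ p) := by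
          simp only [ploop, if_neg hp]
        have e2 : (R (f θ) ∘ ρ) p = c (ρ p) + Complex.exp (f θ).1 * w 0 (ρ p) := rfl
        have e3 : w 0 (ρ p) = 0 := by
          simp [w, hρne p hp]
        rw [e1, e2, e3, mul_zero, add_zero]
    have hloop : ∀ θ : ℝ, F (ploop (fun p => c (ρ p)) (‖d‖ * Real.exp σ) θ) = F (R (f θ)) := by
      intro θ
      rw [hloop0 θ, hR.good.symm (R (f θ)) (hRconf _ (hfK θ)) ρ]
    have hrel0 : ∀ a b, (∀ x ∈ K, rel (R x) (P a x) (P b x)) →
        rel (ploop (fun p => c (ρ p)) (‖d‖ * Real.exp σ) 0) (P a (f 0)) (P b (f 0)) := by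
      intro a b h
      rw [hloop0 0, hR.rel_symm (R (f 0)) (hRconf _ (hfK 0)) ρ]
      exact h _ (hfK 0)
    intro a b c' hab hac hrab hrac
    refine coll_const_R hR D hm hc hadm (X := fun a θ => P a (f θ)) ?_ ?_ (w := W) ?_ a b c' hab hac
      (hrel0 a b hrab) (hrel0 a c' hrac)
    · intro a
      exact (hPc a).comp_continuous hfc hfK
    · intro θ
      rw [hloop]
      exact hPL _ (hfK θ)
    · intro a b hab
      refine (hW a b hab).comp (f := f) hfc.continuousOn (fun θ _ => hfK θ) ?_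
      intro θ _
      ext1
      · show (σ : ℂ) + ((θ + 2 * Real.pi * n.factorial - d.arg : ℝ) : ℂ) * Complex.I =
          (σ : ℂ) + ((θ - d.arg : ℝ) : ℂ) * Complex.I + 2 * Real.pi * Complex.I * (n.factorial : ℂ)
        push_cast
        ring
      · show (0 : ℝ) = 0 + 0
        simp
  -- at time one
  let S : Set ℂ := {s : ℂ | s.re < c0}
  have hSopen : IsOpen S := isOpen_lt Complex.continuous_re continuous_const
  have hSK : ∀ s ∈ S, ((s, (1 : ℝ)) : ℂ × ℝ) ∈ K := fun s hs => ⟨hs, zero_le_one, le_refl _⟩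
  have hR1 : ∀ s : ℂ, R (s, 1) = fun p => v p + (t₀ + Complex.exp s) * u p := by
    intro s
    funext p
    show c p + Complex.exp s * (((1 : ℝ) : ℂ) * u p + (1 - ((1 : ℝ) : ℂ)) * (if p = q₀ then d else 0))
      = v p + (t₀ + Complex.exp s) * u p
    rw [Complex.ofReal_one, sub_self, zero_mul, add_zero, one_mul, hcdef]
    ring
  have hφd : DifferentiableOn ℂ (fun s : ℂ => R (s, 1)) S := by
    apply Differentiable.differentiableOn
    rw [differentiable_pi]
    intro p
    have : (fun s : ℂ => R (s, 1) p) = fun s => v p + (t₀ + Complex.exp s) * u p := by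
      funext s
      rw [hR1]
    rw [this]
    fun_prop
  have hφ1s : ∀ s ∈ S, Squarefree (mpoly n (F (R (s, 1)))) := fun s hs => hφs _ (hSK s hs)
  have hs1c : Continuous (fun s : ℂ => ((s, (1 : ℝ)) : ℂ × ℝ)) := by fun_prop
  have hM : ∀ a b, (∀ x ∈ K, rel (R x) (P a x) (P b x)) →
      DifferentiableOn ℂ (fun s => P a (s, 1) - P b (s, 1)) S := fun a b h =>
    hR.hol hSopen (fun s => R (s, 1)) hφd (fun s hs => hRconf _ (hSK s hs))
      (fun a s => P a (s, 1))
      (fun a => (hPc a).comp hs1c.continuousOn (fun s hs => hSK s hs))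
      (fun s hs => hPL _ (hSK s hs)) a b (fun s hs => h _ (hSK s hs))
  have hmain : ∀ x : Fin n × Fin n × Fin n, ∃ (C c' : ℝ), 0 < C ∧ c' ≤ c0 ∧
      (x.1 ≠ x.2.1 → x.1 ≠ x.2.2 → x.2.1 ≠ x.2.2 →
        (∀ y ∈ K, rel (R y) (P x.1 y) (P x.2.1 y)) → (∀ y ∈ K, rel (R y) (P x.1 y) (P x.2.2 y)) →
        ∀ s : ℂ, s.re < c' →
        ‖rat (fun a => P a (s, 1)) x.1 x.2.1 x.2.2‖ ≤ C) := by
    rintro ⟨a, b, e⟩
    by_cases hh : (a ≠ b ∧ a ≠ e ∧ b ≠ e) ∧ (∀ y ∈ K, rel (R y) (P a y) (P b y)) ∧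
        (∀ y ∈ K, rel (R y) (P a y) (P e y))
    · obtain ⟨⟨hab, hae, hbe⟩, hrab, hrae⟩ := hh
      have hne : ∀ a b, a ≠ b → ∀ s ∈ S, P a (s, 1) - P b (s, 1) ≠ 0 := by
        intro a b hab s hs h
        exact hab (hPinj _ (hSK s hs) (sub_eq_zero.1 h))
      have hWd : Wd S (fun s => (P a (s, 1) - P b (s, 1)) / (P a (s, 1) - P e (s, 1)))
          (2 * Real.pi * Complex.I * (n.factorial : ℂ)) 0 := by
        have h1 := ((hW a b hab).div (hW a e hae)).comp
          (f := fun s : ℂ => ((s, (1 : ℝ)) : ℂ × ℝ)) (K' := S)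
          (p' := 2 * Real.pi * Complex.I * (n.factorial : ℂ)) hs1c.continuousOn
          (fun s hs => hSK s hs)
          (by
            intro s _
            ext1
            · rfl
            · show (1 : ℝ) = 1 + 0
              simp)
        rw [hWeq a b e hab hae hrab hrae, sub_self] at h1
        exact h1
      obtain ⟨C, c', hC, hc', hCC⟩ := end_main (g := fun s =>
          (P a (s, 1) - P b (s, 1)) / (P a (s, 1) - P e (s, 1))) (c := c0) (N := n.factorial)
        (Nat.factorial_pos n) (e := 0)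
        ((hM a b hrab).div (hM a e hrae) (fun s hs => hne a e hae s hs))
        (fun s hs => div_ne_zero (hne a b hab s hs) (hne a e hae s hs))
        (by
          intro s hs h
          rw [div_eq_one_iff_eq (hne a e hae s hs)] at h
          exact hne b e hbe s hs (by linear_combination -h))
        hWd
      refine ⟨C, c', hC, hc', fun _ _ _ _ _ s hs => ?_⟩
      have h1 := (hCC s hs).1
      simpa [rat] using h1
    · refine ⟨1, c0, one_pos, le_refl _, fun h1 h2 h3 h4 h5 => (hh ⟨⟨h1, h2, h3⟩, h4, h5⟩).elim⟩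
  choose C c' hC hc' hCC using hmain
  -- uniform constants
  obtain ⟨c1, hc1, hc1'⟩ : ∃ c1 : ℝ, c1 ≤ c0 ∧ ∀ x, c1 ≤ c' x := by
    refine ⟨c0 - ∑ x, (c0 - c' x), ?_, ?_⟩
    · have : 0 ≤ ∑ x, (c0 - c' x) := Finset.sum_nonneg (fun x _ => by linarith [hc' x])
      linarith
    · intro x
      have : c0 - c' x ≤ ∑ x, (c0 - c' x) :=
        Finset.single_le_sum (f := fun x => c0 - c' x) (fun x _ => by linarith [hc' x])
          (Finset.mem_univ x)
      linarith
  refine ⟨Real.exp c1, ∑ x, C x, Real.exp_pos _, ?_⟩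
  intro t ht htn
  have htne : t - t₀ ≠ 0 := sub_ne_zero.2 ht
  let s : ℂ := Complex.log (t - t₀)
  have hes : Complex.exp s = t - t₀ := Complex.exp_log htne
  have hsre : s.re < c1 := by
    show (Complex.log (t - t₀)).re < c1
    rw [Complex.log_re]
    rw [Real.log_lt_iff_lt_exp (norm_pos_iff.2 htne)]
    exact htn
  have hsS : s ∈ S := lt_of_lt_of_le hsre hc1
  have hRt : R (s, 1) = fun p => v p + t * u p := by
    rw [hR1, hes]
    funext p
    ring
  refine ⟨?_, ?_⟩
  · rw [← hRt]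
    exact hRconf _ (hSK s hsS)
  · intro X hX a b e hab hae hbe hrab hrae
    rw [← hRt] at hX hrab hrae
    obtain ⟨π, hπ⟩ := line_puncture_R_same (hφ1s s hsS) (hPL _ (hSK s hsS)) hX
    rw [hπ, hπ] at hrab hrae
    have h1 : rat X a b e = rat (fun a => P a (s, 1)) (π a) (π b) (π e) := by
      simp only [rat, hπ]
    rw [h1]
    refine (hCC (π a, π b, π e) (fun h => hab (π.injective h)) (fun h => hae (π.injective h))
      (fun h => hbe (π.injective h)) (hrel _ (hSK s hsS) _ _ hrab) (hrel _ (hSK s hsS) _ _ hrae)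
      s (lt_of_lt_of_le hsre (hc1' _))).trans ?_
    exact Finset.single_le_sum (f := C) (fun x _ => (hC x).le) (Finset.mem_univ _)


end LinC
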