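import Pool.Agent.Helper996.LinC.DefsR
import Pool.Agent.Helper996.Lin.J_lab_basic
import Pool.Agent.Helper996.Lin.J_lab_lift
import Pool.Agent.Helper996.Lin.J_Conf_top
import Pool.Agent.Helper996.Lin.J_generic_dense
import Pool.Agent.Helper996.LinC.R_rb
import Pool.Agent.Helper996.LinC.R_linep
import Pool.Agent.Helper996.LinC.R_linei
import Pool.Agent.Helper996.LinC.R_theta

set_option autoImplicit false

open Polynomial Set Filter Topology LinS

namespace LinC

variable {m n l : ℕ} {F : (Fin (m + 1) → ℂ) → Fin n → ℂ} {rel : (Fin (m + 1) → ℂ) → ℂ → ℂ → Prop}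

theorem line_const_R_liouville (F : Finset ℂ) : ∀ f : ℂ → ℂ, DifferentiableOn ℂ f (↑F : Set ℂ)ᶜ →
    (∃ C : ℝ, ∀ t, t ∉ F → ‖f t‖ ≤ C) → ∃ c : ℂ, ∀ t, t ∉ F → f t = c := by
  induction F using Finset.induction_on with
  | empty =>
    intro f hf hb
    obtain ⟨C, hC⟩ := hb
    have hf' : Differentiable ℂ f := by
      have : DifferentiableOn ℂ f univ := by simpa using hf
      exact differentiableOn_univ.1 this
    have hbd : Bornology.IsBounded (range f) := by
      rw [isBounded_iff_forall_norm_le]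
      exact ⟨C, by rintro _ ⟨t, rfl⟩; exact hC t (by simp)⟩
    exact ⟨f 0, fun t _ => hf'.apply_eq_apply_of_bounded hbd t 0⟩
  | insert a F ha ih =>
    intro f hf hb
    obtain ⟨C, hC⟩ := hb
    have hopen : IsOpen ((↑F : Set ℂ)ᶜ) := F.finite_toSet.isClosed.isOpen_compl
    have hs : (↑F : Set ℂ)ᶜ ∈ 𝓝 a := hopen.mem_nhds (by simpa using ha)
    have hset : (↑F : Set ℂ)ᶜ \ {a} = (↑(insert a F) : Set ℂ)ᶜ := by
      ext t
      simp only [Set.mem_sdiff, mem_compl_iff, Finset.mem_coe, mem_singleton_iff, Finset.coe_insert,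
        mem_insert_iff, not_or]
      exact and_comm
    have hd : DifferentiableOn ℂ f ((↑F : Set ℂ)ᶜ \ {a}) := by rw [hset]; exact hf
    have hbb : BddAbove (norm ∘ f '' ((↑F : Set ℂ)ᶜ \ {a})) := by
      refine ⟨C, ?_⟩
      rintro _ ⟨t, ht, rfl⟩
      rw [hset] at ht
      exact hC t (by simpa using ht)
    have hg := Complex.differentiableOn_update_limUnder_of_bddAbove hs hd hbb
    set g := Function.update f a ((𝓝[≠] a).limUnder f) with hgdef
    obtain ⟨c, hc⟩ := ih g hg ⟨max C ‖g a‖, fun t ht => by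
      by_cases hta : t = a
      · rw [hta]; exact le_max_right _ _
      · have : g t = f t := by rw [hgdef, Function.update_of_ne hta]
        rw [this]
        exact (hC t (by simp [hta, ht])).trans (le_max_left _ _)⟩
    refine ⟨c, fun t ht => ?_⟩
    rw [Finset.mem_insert, not_or] at ht
    have h1 := hc t ht.2
    rwa [hgdef, Function.update_of_ne ht.1] at h1

/-- a labelling of a single point -/
theorem line_const_R_lab (hR : GoodR m n F rel l) {r : Fin (m + 1) → ℂ} (hr : r ∈ Conf m) :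
    ∃ X : Fin n → ℂ, Lab (F r) X := by
  obtain ⟨M, -, hM⟩ := lab_lift (K := {r}) (convex_singleton r) (φ := F)
    (continuousOn_singleton F r) (fun v hv => by
      rw [mem_singleton_iff] at hv; rw [hv]; exact hR.good.sqf r hr)
  exact ⟨fun a => M a r, hM r rfl⟩

/-- bound of `Th` -/
theorem line_const_R_Th (ρ : ℂ → ℂ → Prop) (x : ℂ) (C : ℝ) (X : Fin n → ℂ)
    (h : ∀ a b c, a ≠ b → a ≠ c → b ≠ c → ρ (X a) (X b) → ρ (X a) (X c) → ‖rat X a b c‖ ≤ C) :
    ‖ThR ρ x X‖ ≤ ∏ _a : Fin n, ∏ _b : Fin n, ∏ _c : Fin n, (1 + ‖x‖ + |C|) := by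
  unfold ThR
  rw [norm_prod]
  refine Finset.prod_le_prod (fun _ _ => norm_nonneg _) fun a _ => ?_
  rw [norm_prod]
  refine Finset.prod_le_prod (fun _ _ => norm_nonneg _) fun b _ => ?_
  rw [norm_prod]
  refine Finset.prod_le_prod (fun _ _ => norm_nonneg _) fun c _ => ?_
  have hx := norm_nonneg x
  have hC := abs_nonneg C
  split_ifs with hab
  · have h1 := norm_sub_le x (rat X a b c)
    have h2 := h a b c hab.1.1 hab.1.2.1 hab.1.2.2 hab.2.1 hab.2.2
    have h3 := le_abs_self C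
    linarith
  · rw [norm_one]; linarith

theorem theta_const_R_fderiv {m : ℕ} {θ : (Fin (m + 1) → ℂ) → ℂ}
    (hθ : DifferentiableOn ℂ θ (Conf m)) {v u : Fin (m + 1) → ℂ} (hv : v ∈ Conf m)
    (h : ∀ t : ℂ, (fun p => v p + t * u p) ∈ Conf m → θ (fun p => v p + t * u p) = θ v) :
    fderiv ℂ θ v u = 0 := by
  have hopen := Conf_open m
  have hline : (fun t : ℂ => (fun p => v p + t * u p : Fin (m + 1) → ℂ)) =
      (fun t : ℂ => v + t • u) := by
    funext t p
    rfl
  have h0 : v + (0:ℂ) • u = v := by rw [zero_smul, add_zero]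
  have hd : DifferentiableAt ℂ θ v := hθ.differentiableAt (hopen.mem_nhds hv)
  have h1 : HasFDerivAt θ (fderiv ℂ θ v) (v + (0:ℂ) • u) := by
    rw [h0]
    exact hd.hasFDerivAt
  have h2 : HasDerivAt (fun t : ℂ => v + t • u) u 0 := by
    have := ((hasDerivAt_id (0:ℂ)).smul_const u).const_add v
    rw [one_smul] at this
    exact this
  have h3 : HasDerivAt (θ ∘ (fun t : ℂ => v + t • u)) (fderiv ℂ θ v u) 0 :=
    h1.comp_hasDerivAt (0:ℂ) h2
  have hcont : Continuous (fun t : ℂ => v + t • u) := by fun_prop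
  have hev : ∀ᶠ t in 𝓝 (0:ℂ), v + t • u ∈ Conf m := by
    apply hcont.continuousAt.eventually_mem
    show Conf m ∈ 𝓝 (v + (0:ℂ) • u)
    rw [h0]
    exact hopen.mem_nhds hv
  have h4 : (θ ∘ (fun t : ℂ => v + t • u)) =ᶠ[𝓝 (0:ℂ)] (fun _ => θ v) := by
    filter_upwards [hev] with t ht
    have hh := h t
    have e : (fun p => v p + t * u p : Fin (m + 1) → ℂ) = v + t • u := congrFun hline t
    rw [e] at hh
    exact hh ht
  have h5 : HasDerivAt (fun _ : ℂ => θ v) (fderiv ℂ θ v u) 0 := h3.congr_of_eventuallyEq h4.symm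
  exact h5.unique (hasDerivAt_const (0:ℂ) (θ v))

theorem line_const_R (hR : GoodR m n F rel l) (D : Data m n F) (hm : 0 < m)
    (hc : ∀ a b c : Fin n, a ≠ b → a ≠ c → RbD rel D a b → RbD rel D a c →
      D.W a b ⟨0, hm⟩ = D.W a c ⟨0, hm⟩)
    (x : ℂ) (θ : (Fin (m + 1) → ℂ) → ℂ) (hθ : DifferentiableOn ℂ θ (Conf m))
    (hθe : ∀ r ∈ Conf m, ∀ X : Fin n → ℂ, Lab (F r) X → θ r = ThR (rel r) x X)
    (v u : Fin (m + 1) → ℂ) (hv : v ∈ Conf m) (hu : u ∈ Conf m)
    (hgen : ∀ p q p' q' : Fin (m + 1), p < q → p' < q' → (p, q) ≠ (p', q') →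
      (v p - v q) * (u p' - u q') ≠ (v p' - v q') * (u p - u q)) :
    ∀ t : ℂ, (fun p => v p + t * u p) ∈ Conf m → θ (fun p => v p + t * u p) = θ v := by
  classical
  have huinj : ∀ p q : Fin (m + 1), p ≠ q → u p - u q ≠ 0 := fun p q hpq h =>
    hpq (hu (sub_eq_zero.1 h))
  set S : Finset ℂ := ((Finset.univ : Finset (Fin (m + 1) × Fin (m + 1))).filter
    (fun w => w.1 < w.2)).image (fun w => -(v w.1 - v w.2) / (u w.1 - u w.2)) with hS
  have hSmem : ∀ t : ℂ, t ∈ S ↔ ∃ p q : Fin (m + 1), p < q ∧ v p + t * u p = v q + t * u q := by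
    intro t
    simp only [hS, Finset.mem_image, Finset.mem_filter, Finset.mem_univ, true_and, Prod.exists]
    constructor
    · rintro ⟨p, q, hpq, rfl⟩
      refine ⟨p, q, hpq, ?_⟩
      have h := huinj p q hpq.ne
      field_simp
      ring
    · rintro ⟨p, q, hpq, h⟩
      refine ⟨p, q, hpq, ?_⟩
      have h' := huinj p q hpq.ne
      rw [div_eq_iff h']
      linear_combination (-1 : ℂ) * h
  have hconf : ∀ t : ℂ, (fun p => v p + t * u p) ∈ Conf m ↔ t ∉ S := by
    intro t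
    rw [hSmem]
    constructor
    · rintro h ⟨p, q, hpq, heq⟩
      exact hpq.ne (h heq)
    · intro h p q heq
      by_contra hne
      rcases lt_or_gt_of_ne hne with hlt | hlt
      · exact h ⟨p, q, hlt, heq⟩
      · exact h ⟨q, p, hlt, heq.symm⟩
  -- uniqueness of collisions
  have huniq : ∀ (t : ℂ) (p q p' q' : Fin (m + 1)), p < q → p' < q' →
      v p + t * u p = v q + t * u q → v p' + t * u p' = v q' + t * u q' → (p, q) = (p', q') := by
    intro t p q p' q' h1 h2 e1 e2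
    by_contra hne
    apply hgen p q p' q' h1 h2 hne
    linear_combination (u p' - u q') * e1 - (u p - u q) * e2
  set f : ℂ → ℂ := fun t => θ (fun p => v p + t * u p) with hf
  have hfd : DifferentiableOn ℂ f (↑S : Set ℂ)ᶜ := by
    have hl : Differentiable ℂ (fun t : ℂ => (fun p => v p + t * u p : Fin (m + 1) → ℂ)) := by
      rw [differentiable_pi]
      intro p
      fun_prop
    exact hθ.comp hl.differentiableOn (fun t ht => (hconf t).2 (by simpa using ht))
  have hSo : IsOpen ((↑S : Set ℂ)ᶜ) := S.finite_toSet.isClosed.isOpen_compl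
  obtain ⟨R, C0, hinf⟩ := line_infinity_R hR u v hu
  have hbd_inf : ∀ t : ℂ, R < ‖t‖ → ‖f t‖ ≤
      ∏ _a : Fin n, ∏ _b : Fin n, ∏ _c : Fin n, (1 + ‖x‖ + |C0|) := by
    intro t ht
    obtain ⟨h1, h2⟩ := hinf t ht
    obtain ⟨X, hX⟩ := line_const_R_lab hR h1
    rw [hf]
    simp only
    rw [hθe _ h1 X hX]
    exact line_const_R_Th _ x C0 X (h2 X hX)
  have hcomp : ∃ M : ℝ, ∀ t ∈ Metric.closedBall (0 : ℂ) R, t ∉ S → ‖f t‖ ≤ M := by
    refine IsCompact.induction_on (p := fun A : Set ℂ => ∃ M : ℝ, ∀ t ∈ A, t ∉ S → ‖f t‖ ≤ M)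
      (isCompact_closedBall (0 : ℂ) R) ⟨0, fun t ht => ht.elim⟩ ?_ ?_ ?_
    · rintro A B hAB ⟨M, hM⟩
      exact ⟨M, fun t ht => hM t (hAB ht)⟩
    · rintro A B ⟨M, hM⟩ ⟨M', hM'⟩
      refine ⟨max M M', ?_⟩
      rintro t (ht | ht) htS
      · exact (hM t ht htS).trans (le_max_left _ _)
      · exact (hM' t ht htS).trans (le_max_right _ _)
    · intro t1 _
      by_cases h1 : t1 ∈ S
      · obtain ⟨p, q, hpq, heq⟩ := (hSmem t1).1 h1
        obtain ⟨ε, C, hε, hC⟩ := line_puncture_R hR D hm hc u v t1 p q hpq.ne heq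
          (fun h => hpq.ne (hu h)) (by
            intro p' q' hne' heq'
            rcases lt_or_gt_of_ne hne' with hlt | hlt
            · have := huniq t1 p q p' q' hpq hlt heq heq'
              rw [Prod.mk.injEq] at this
              exact Or.inl ⟨this.1.symm, this.2.symm⟩
            · have := huniq t1 p q q' p' hpq hlt heq heq'.symm
              rw [Prod.mk.injEq] at this
              exact Or.inr ⟨this.2.symm, this.1.symm⟩)
        refine ⟨Metric.ball t1 ε, mem_nhdsWithin_of_mem_nhds (Metric.ball_mem_nhds _ hε),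
          ∏ _a : Fin n, ∏ _b : Fin n, ∏ _c : Fin n, (1 + ‖x‖ + |C|), fun t ht htS => ?_⟩
        rw [Metric.mem_ball, dist_eq_norm] at ht
        obtain ⟨h2, h3⟩ := hC t (fun h => htS (h ▸ h1)) ht
        obtain ⟨X, hX⟩ := line_const_R_lab hR h2
        rw [hf]
        simp only
        rw [hθe _ h2 X hX]
        exact line_const_R_Th _ x C X (h3 X hX)
      · have hcont : ContinuousAt f t1 :=
          (hfd.differentiableAt (hSo.mem_nhds (by simpa using h1))).continuousAt
        have hev : ∀ᶠ t in 𝓝 t1, ‖f t‖ < ‖f t1‖ + 1 :=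
          hcont.norm.eventually (Iio_mem_nhds (by linarith))
        exact ⟨{t | ‖f t‖ < ‖f t1‖ + 1}, mem_nhdsWithin_of_mem_nhds hev, ‖f t1‖ + 1,
          fun t ht _ => le_of_lt ht⟩
  obtain ⟨M, hM⟩ := hcomp
  obtain ⟨c, hcst⟩ := line_const_R_liouville S f hfd
    ⟨max M (∏ _a : Fin n, ∏ _b : Fin n, ∏ _c : Fin n, (1 + ‖x‖ + |C0|)), fun t ht => by
      rcases lt_or_ge R ‖t‖ with h | h
      · exact (hbd_inf t h).trans (le_max_right _ _)
      · exact (hM t (by simpa using h) ht).trans (le_max_left _ _)⟩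
  have hv0 : (fun p => v p + 0 * u p) = v := by
    funext p; ring
  have h0 : (0 : ℂ) ∉ S := by
    rw [← hconf, hv0]; exact hv
  intro t ht
  have h1 := hcst t ((hconf t).1 ht)
  have h2 := hcst 0 h0
  simp only [hf] at h1 h2
  rw [hv0] at h2
  rw [h1, h2]

theorem theta_const_R (hR : GoodR m n F rel l) (D : Data m n F) (hm : 0 < m)
    (hc : ∀ a b c : Fin n, a ≠ b → a ≠ c → RbD rel D a b → RbD rel D a c →
      D.W a b ⟨0, hm⟩ = D.W a c ⟨0, hm⟩)
    (x : ℂ) : ∀ r ∈ Conf m, ∀ r' ∈ Conf m, ∀ X X' : Fin n → ℂ, Lab (F r) X → Lab (F r') X' →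
      ThR (rel r) x X = ThR (rel r') x X' := by
  obtain ⟨θ, hθ, hθe⟩ := theta_exists_R hR x
  intro r hr r' hr' X X' hX hX'
  rw [← hθe r hr X hX, ← hθe r' hr' X' hX']
  apply (Conf_open m).is_const_of_fderiv_eq_zero
    (Conf_pathConn m).isConnected.isPreconnected hθ _ hr hr'
  intro v hv
  have hdense := generic_dense hm v hv
  have hfun : (fun u => fderiv ℂ θ v u) = (fun _ => 0) := by
    apply Continuous.ext_on hdense (fderiv ℂ θ v).continuous continuous_const
    intro u hu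
    exact theta_const_R_fderiv hθ hv (line_const_R hR D hm hc x θ hθ hθe v u hv hu.1 hu.2)
  apply ContinuousLinearMap.ext
  intro u
  exact congrFun hfun u

end LinC
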