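import Pool.Agent.Helper996.LinC.DefsR
import Pool.Agent.Helper996.Lin.J_lab_basic
import Pool.Agent.Helper996.Lin.J_lab_lift
import Pool.Agent.Helper996.Lin.J_wd_basic
import Pool.Agent.Helper996.Lin.J_end_main
import Pool.Agent.Helper996.Lin.J_bdd_multi
import Pool.Agent.Helper996.Lin.J_deriv_small
import Pool.Agent.Helper996.Lin.J_charts
import Pool.Agent.Helper996.LinC.R_rb

set_option autoImplicit false

open Polynomial Set Filter Topology LinS

namespace LinC

variable {m n l : ℕ} {F : (Fin (m + 1) → ℂ) → Fin n → ℂ} {rel : (Fin (m + 1) → ℂ) → ℂ → ℂ → Prop}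

theorem ratio_lim_R (hR : GoodR m n F rel l) (D : Data m n F) (a b c : Fin n) (hab : a ≠ b)
    (hac : a ≠ c) (hbc : b ≠ c) (h1 : RbD rel D a b) (h2 : RbD rel D a c) (j : Fin m) :
    Tendsto (fun R : ℝ =>
      fderiv ℂ (fun ζ => (D.M a ζ - D.M b ζ) / (D.M a ζ - D.M c ζ)) (fun _ => -(R : ℂ))
        (Pi.single j 1) /
      ((fun ζ => (D.M a ζ - D.M b ζ) / (D.M a ζ - D.M c ζ)) (fun _ => -(R : ℂ))))
      atTop (𝓝 (((D.W a b j : ℂ) - D.W a c j) / (n.factorial : ℂ))) := by
  have hN0 : 0 < n.factorial := n.factorial_pos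
  have hNC : (n.factorial : ℂ) ≠ 0 := by exact_mod_cast hN0.ne'
  let v : Fin m → ℤ := fun k => D.W a b k - D.W a c k
  let ρ : (Fin m → ℂ) → ℂ := fun ζ => (D.M a ζ - D.M b ζ) / (D.M a ζ - D.M c ζ)
  let SL : (Fin m → ℂ) →L[ℂ] ℂ :=
    ∑ k, ((v k : ℂ) / n.factorial) • ContinuousLinearMap.proj (R := ℂ) (φ := fun _ : Fin m => ℂ) k
  have hSL1 : ∀ (k : Fin m) (p : ℂ), SL (Pi.single k p) = (v k : ℂ) / n.factorial * p := by
    intro k p
    simp only [SL, _root_.sum_apply, _root_.smul_apply, ContinuousLinearMap.proj_apply,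
      smul_eq_mul]
    rw [Finset.sum_eq_single k]
    · rw [Pi.single_eq_same]
    · intro l _ hl
      rw [Pi.single_eq_of_ne hl, mul_zero]
    · simp
  -- the domain
  set H : Set (Fin m → ℂ) := {ζ | ∀ j, (ζ j).re < 0} with hH
  have hHU : H ⊆ UN m := fun ζ hζ j _ => hζ j
  have hHo : IsOpen H := by
    have : H = ⋂ j : Fin m, {ζ : Fin m → ℂ | (ζ j).re < 0} := by
      ext ζ
      simp [hH]
    rw [this]
    exact isOpen_iInter_of_finite fun j => isOpen_lt (by fun_prop) continuous_const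
  -- holomorphy of the labels
  have hMdab : DifferentiableOn ℂ (fun ζ => D.M a ζ - D.M b ζ) (UN m) :=
    hR.hol (UN_open m) nest nest_diff.differentiableOn (fun ζ hζ => nest_conf hζ) D.M D.M_cont
      D.M_lab a b ((rb_nest hR D a b).1 h1)
  have hMdac : DifferentiableOn ℂ (fun ζ => D.M a ζ - D.M c ζ) (UN m) :=
    hR.hol (UN_open m) nest nest_diff.differentiableOn (fun ζ hζ => nest_conf hζ) D.M D.M_cont
      D.M_lab a c ((rb_nest hR D a c).1 h2)
  have hinj : ∀ ζ ∈ UN m, Function.Injective (fun a => D.M a ζ) :=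
    fun ζ hζ => lab_inj (D.M_lab ζ hζ) (hR.good.sqf _ (nest_conf hζ))
  have hne1 : ∀ ζ ∈ UN m, D.M a ζ - D.M b ζ ≠ 0 := fun ζ hζ h0 =>
    hab (hinj ζ hζ (sub_eq_zero.mp h0))
  have hne2 : ∀ ζ ∈ UN m, D.M a ζ - D.M c ζ ≠ 0 := fun ζ hζ h0 =>
    hac (hinj ζ hζ (sub_eq_zero.mp h0))
  have hρd : DifferentiableOn ℂ ρ (UN m) := by
    have e : ρ = fun ζ => (D.M a ζ - D.M b ζ) * (D.M a ζ - D.M c ζ)⁻¹ := by
      funext ζ
      exact div_eq_mul_inv _ _
    rw [e]
    exact hMdab.mul (hMdac.inv hne2)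
  have hρ0 : ∀ ζ ∈ UN m, ρ ζ ≠ 0 := fun ζ hζ => div_ne_zero (hne1 ζ hζ) (hne2 ζ hζ)
  have hρ1 : ∀ ζ ∈ UN m, ρ ζ ≠ 1 := by
    intro ζ hζ h1
    have h2 : D.M a ζ - D.M b ζ = D.M a ζ - D.M c ζ := (div_eq_one_iff_eq (hne2 ζ hζ)).mp h1
    exact hbc (hinj ζ hζ (sub_right_injective h2))
  have hWρ : ∀ k, Wd (UN m) ρ (per m n k) (v k) := fun k =>
    Wd.div (D.W_wd a b hab k) (D.W_wd a c hac k)
  -- invariance
  have hper_mem : ∀ ζ ∈ UN m, ∀ k, ζ + per m n k ∈ UN m := by
    intro ζ hζ k l hl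
    have h1 := hζ l hl
    have h2 : (per m n k l).re = 0 := by
      unfold per
      by_cases hkl : l = k
      · subst hkl
        rw [Pi.single_eq_same]
        have : (2 * Real.pi * Complex.I * (n.factorial : ℂ))
            = ((2 * Real.pi * n.factorial : ℝ) : ℂ) * Complex.I := by
          push_cast
          ring
        rw [this, Complex.mul_I_re, Complex.ofReal_im, neg_zero]
      · rw [Pi.single_eq_of_ne hkl, Complex.zero_re]
    rw [Pi.add_apply, Complex.add_re, h2, add_zero]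
    exact h1
  have hρper : ∀ ζ ∈ UN m, ∀ k, ρ (ζ + per m n k) = ρ ζ := by
    intro ζ hζ k
    obtain ⟨L, -, hL2, hL3⟩ := hWρ k
    rw [← hL2 _ (hper_mem ζ hζ k), ← hL2 ζ hζ, hL3 ζ hζ, Complex.exp_add]
    have : Complex.exp (2 * Real.pi * Complex.I * (v k : ℂ)) = 1 := by
      rw [mul_comm]
      exact Complex.exp_int_mul_two_pi_mul_I (v k)
    rw [this, mul_one]
  let g : (Fin m → ℂ) → ℂ := fun ζ => ρ ζ * Complex.exp (-(SL ζ))
  have hgρ : ∀ ζ, ρ ζ = g ζ * Complex.exp (SL ζ) := by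
    intro ζ
    show ρ ζ = ρ ζ * Complex.exp (-(SL ζ)) * Complex.exp (SL ζ)
    rw [mul_assoc, ← Complex.exp_add, neg_add_cancel, Complex.exp_zero, mul_one]
  have hEd : Differentiable ℂ fun ζ : Fin m → ℂ => Complex.exp (-(SL ζ)) :=
    (SL.differentiable.neg).cexp
  have hgd : DifferentiableOn ℂ g H := (hρd.mono hHU).mul hEd.differentiableOn
  have hg0 : ∀ ζ ∈ UN m, g ζ ≠ 0 := fun ζ hζ => mul_ne_zero (hρ0 ζ hζ) (Complex.exp_ne_zero _)
  have hgper : ∀ ζ : Fin m → ℂ, (∀ j, (ζ j).re < 0) → ∀ k,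
      g (ζ + Pi.single k (2 * Real.pi * Complex.I * n.factorial)) = g ζ := by
    intro ζ hζ k
    have h1 := hρper ζ (hHU hζ) k
    show ρ (ζ + per m n k) * Complex.exp (-(SL (ζ + Pi.single k _))) = _
    rw [h1, map_add, hSL1, neg_add, Complex.exp_add]
    have h2 : Complex.exp (-((v k : ℂ) / n.factorial *
        (2 * Real.pi * Complex.I * n.factorial))) = 1 := by
      have e : -((v k : ℂ) / n.factorial * (2 * Real.pi * Complex.I * n.factorial))
          = ((-(v k) : ℤ) : ℂ) * (2 * Real.pi * Complex.I) := by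
        push_cast
        field_simp
      rw [e]
      exact Complex.exp_int_mul_two_pi_mul_I _
    rw [h2, mul_one]
  -- slices
  have hupd : ∀ (ζ : Fin m → ℂ) (k : Fin m) (s : ℂ),
      Function.update ζ k s = Function.update ζ k 0 + Pi.single k s := by
    intro ζ k s
    ext l
    by_cases hl : l = k
    · subst hl
      simp
    · simp [Function.update_of_ne hl, Pi.single_eq_of_ne hl]
  have hslice : ∀ ζ : Fin m → ℂ, (∀ j, (ζ j).re < 0) → ∀ k,
      ∃ C c : ℝ, ∀ s : ℂ, s.re < c → ‖g (Function.update ζ k s)‖ ≤ C ∧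
        ‖(g (Function.update ζ k s))⁻¹‖ ≤ C := by
    intro ζ hζ k
    have hmap : MapsTo (fun s : ℂ => Function.update ζ k s) {s : ℂ | s.re < 0} (UN m) := by
      intro s hs l _
      by_cases hl : l = k
      · subst hl
        simpa using hs
      · show (Function.update ζ k s l).re < 0
        rw [Function.update_of_ne hl]
        exact hζ l
    have hupdd : Differentiable ℂ (fun s : ℂ => Function.update ζ k s) := by
      have : (fun s : ℂ => Function.update ζ k s)
          = fun s => Function.update ζ k 0 + Pi.single k s := by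
        funext s
        exact hupd ζ k s
      rw [this]
      exact (differentiable_const _).add
        (ContinuousLinearMap.single ℂ (fun _ : Fin m => ℂ) k).differentiable
    have hWs : Wd {s : ℂ | s.re < 0} (fun s => ρ (Function.update ζ k s))
        (2 * Real.pi * Complex.I * n.factorial) (v k) := by
      refine Wd.comp (hWρ k) hupdd.continuous.continuousOn hmap ?_
      intro s _
      show Function.update ζ k (s + _) = Function.update ζ k s + per m n k
      rw [hupd ζ k (s + _), hupd ζ k s, Pi.single_add, ← add_assoc]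
      rfl
    obtain ⟨C, c', hC0, hc', hCb⟩ := end_main (c := 0) hN0
      (hρd.comp hupdd.differentiableOn hmap) (fun s hs => hρ0 _ (hmap hs))
      (fun s hs => hρ1 _ (hmap hs)) hWs
    set A : ℂ := Complex.exp (-(SL (Function.update ζ k 0))) with hA
    have hA0 : 0 < ‖A‖ := norm_pos_iff.mpr (Complex.exp_ne_zero _)
    have hgs : ∀ s : ℂ, g (Function.update ζ k s)
        = (ρ (Function.update ζ k s) * Complex.exp (-((v k : ℂ) / n.factorial * s))) * A := by
      intro s
      show ρ (Function.update ζ k s) * Complex.exp (-(SL (Function.update ζ k s))) = _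
      have e : Complex.exp (-(SL (Function.update ζ k s)))
          = Complex.exp (-((v k : ℂ) / n.factorial * s)) * A := by
        rw [hupd ζ k s, map_add, hSL1, neg_add, Complex.exp_add, hA, mul_comm]
      rw [e, mul_assoc]
    refine ⟨max (C * ‖A‖) (C * ‖A‖⁻¹), c', fun s hs => ?_⟩
    obtain ⟨h1, h2⟩ := hCb s hs
    simp only [Function.comp_apply] at h1 h2
    constructor
    · rw [hgs, norm_mul]
      exact (mul_le_mul_of_nonneg_right h1 hA0.le).trans (le_max_left _ _)
    · refine le_trans ?_ (le_max_right _ _)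
      rw [hgs, mul_inv, norm_mul, norm_inv, norm_inv]
      apply mul_le_mul_of_nonneg_right _ (by positivity)
      have hpos : 0 < ‖ρ (Function.update ζ k s) *
          Complex.exp (-((v k : ℂ) / n.factorial * s))‖ := by
        by_contra hcon
        have h0 : ‖ρ (Function.update ζ k s) *
          Complex.exp (-((v k : ℂ) / n.factorial * s))‖ = 0 :=
          le_antisymm (not_lt.mp hcon) (norm_nonneg _)
        rw [h0, mul_zero] at h2
        linarith
      rw [inv_le_iff_one_le_mul₀ hpos]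
      exact h2
  obtain ⟨C1, hC1⟩ := bdd_multi hN0 hgd hgper (fun ζ hζ k => by
    obtain ⟨C, c, h⟩ := hslice ζ hζ k
    exact ⟨C, c, fun s hs => (h s hs).1⟩)
  obtain ⟨C2, hC2⟩ := bdd_multi (g := fun ζ => (g ζ)⁻¹) hN0
    (hgd.inv (fun ζ hζ => hg0 ζ (hHU hζ)))
    (fun ζ hζ k => by
      show (g _)⁻¹ = (g ζ)⁻¹
      rw [hgper ζ hζ k])
    (fun ζ hζ k => by
      obtain ⟨C, c, h⟩ := hslice ζ hζ k
      exact ⟨C, c, fun s hs => (h s hs).2⟩)
  have hlim := deriv_small hgd (C := max C1 C2) (fun ζ hζ => (hC1 ζ hζ).trans (le_max_left _ _))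
    (fun ζ hζ => by
      have hζ' : ζ ∈ UN m := hHU (fun j => (hζ j).trans_lt (by norm_num))
      have h1 : ‖(g ζ)⁻¹‖ ≤ max C1 C2 := (hC2 ζ hζ).trans (le_max_right _ _)
      have h2 : 0 < ‖g ζ‖ := norm_pos_iff.mpr (hg0 ζ hζ')
      rw [norm_inv, inv_le_iff_one_le_mul₀ h2] at h1
      exact h1) j
  have hfin : Tendsto (fun R : ℝ => (v j : ℂ) / n.factorial +
      fderiv ℂ g (fun _ => -(R : ℂ)) (Pi.single j 1) / g (fun _ => -(R : ℂ))) atTop
      (𝓝 ((v j : ℂ) / n.factorial + 0)) := tendsto_const_nhds.add hlim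
  rw [add_zero] at hfin
  have hv : (v j : ℂ) = (D.W a b j : ℂ) - D.W a c j := by
    show ((D.W a b j - D.W a c j : ℤ) : ℂ) = _
    push_cast
    ring
  rw [hv] at hfin
  show Tendsto (fun R : ℝ => fderiv ℂ ρ (fun _ => -(R : ℂ)) (Pi.single j 1) /
    ρ (fun _ => -(R : ℂ))) atTop (𝓝 (((D.W a b j : ℂ) - D.W a c j) / (n.factorial : ℂ)))
  refine hfin.congr' ?_
  filter_upwards [eventually_gt_atTop (0 : ℝ)] with R hR
  have hmem : (fun _ => -(R : ℂ)) ∈ H := by
    intro k
    show (-(R : ℂ)).re < 0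
    rw [Complex.neg_re, Complex.ofReal_re]
    linarith
  have hgat : DifferentiableAt ℂ g (fun _ => -(R : ℂ)) :=
    (hgd _ hmem).differentiableAt (hHo.mem_nhds hmem)
  have hEat : HasFDerivAt (fun ζ => Complex.exp (SL ζ))
      (Complex.exp (SL (fun _ => -(R : ℂ))) • SL) (fun _ => -(R : ℂ)) :=
    (SL.hasFDerivAt).cexp
  have hprod := hgat.hasFDerivAt.mul hEat
  have hρeq : ρ = fun ζ => g ζ * Complex.exp (SL ζ) := by
    funext ζ
    exact hgρ ζ
  have hgne := hg0 _ (hHU hmem)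
  have hEne := Complex.exp_ne_zero (SL (fun _ => -(R : ℂ)))
  rw [hρeq]
  have hfd : fderiv ℂ (fun ζ => g ζ * Complex.exp (SL ζ)) (fun _ => -(R : ℂ)) (Pi.single j 1)
      = g (fun _ => -(R : ℂ)) * (Complex.exp (SL (fun _ => -(R : ℂ))) *
          ((v j : ℂ) / n.factorial))
        + Complex.exp (SL (fun _ => -(R : ℂ))) *
          fderiv ℂ g (fun _ => -(R : ℂ)) (Pi.single j 1) := by
    rw [show (fun ζ => g ζ * Complex.exp (SL ζ)) = g * fun ζ => Complex.exp (SL ζ) from rfl,
      hprod.fderiv]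
    rw [_root_.add_apply, _root_.smul_apply, _root_.smul_apply, _root_.smul_apply, hSL1, mul_one]
    simp only [smul_eq_mul]
  rw [hfd, ← hv]
  field_simp


end LinC
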