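import Pool.Agent.Helper996.LinC.DefsR
import Pool.Agent.Helper996.Lin.J_lab_basic
import Pool.Agent.Helper996.Lin.J_lab_lift
import Pool.Agent.Helper996.Lin.J_charts
import Pool.Agent.Helper996.LinC.R_rb
import Pool.Agent.Helper996.LinC.R_ratio

set_option autoImplicit false

open Polynomial Set Filter Topology LinS

namespace LinC

variable {m n l : ℕ} {F : (Fin (m + 1) → ℂ) → Fin n → ℂ} {rel : (Fin (m + 1) → ℂ) → ℂ → ℂ → Prop}

theorem rank_gen_R (hR : GoodR m n F rel l) (D : Data m n F) (a₀ : Fin n) (S : Finset (Fin m))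
    (hl : l + S.card < m) :
    ∃ α : Fin m → ℂ, α ≠ 0 ∧ (∀ j ∈ S, α j = 0) ∧
      ∀ a b c : Fin n, a ≠ b → a ≠ c → b ≠ c → RbD rel D a₀ a → RbD rel D a₀ b → RbD rel D a₀ c →
        ∑ j, α j * ((D.W a b j : ℂ) - D.W a c j) = 0 := by
  classical
  obtain ⟨z, hz⟩ : ∃ z : ℝ → (Fin m → ℂ), z = fun R : ℝ => (fun _ : Fin m => -(R : ℂ)) := ⟨_, rfl⟩
  have hzU : ∀ R : ℝ, 0 < R → z R ∈ UN m := by
    intro R hR j _
    rw [hz]
    simp [hR]
  have hsq : ∀ v ∈ UN m, Squarefree (mpoly n (F (nest v))) := fun v hv =>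
    hR.good.sqf _ (nest_conf hv)
  have heq := rb_equiv hR D
  have hhol : ∀ a b, RbD rel D a b → DifferentiableOn ℂ (fun v => D.M a v - D.M b v) (UN m) := by
    intro a b hab
    exact hR.hol (UN_open m) nest nest_diff.differentiableOn (fun v hv => nest_conf hv) D.M
      D.M_cont D.M_lab a b (fun v hv => (rb_nest hR D a b).1 hab v hv)
  -- kernel vectors
  have hker : ∀ k : ℕ, ∃ u : Fin m → ℂ, ‖u‖ = 1 ∧ (∀ j ∈ S, u j = 0) ∧
      ∀ a b, RbD rel D a₀ a → RbD rel D a₀ b →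
      fderiv ℂ (fun ζ : Fin m → ℂ => D.M a ζ - D.M b ζ) (z ((k : ℝ) + 1)) u = 0 := by
    intro k
    have hk : (0 : ℝ) < (k : ℝ) + 1 := by positivity
    obtain ⟨A, hA1, hA2⟩ := hR.rank D.M D.M_cont D.M_lab a₀ (z ((k : ℝ) + 1)) (hzU _ hk)
    let f : A →ₗ[ℂ] (S → ℂ) :=
      (LinearMap.pi (fun j : S => (LinearMap.proj (j : Fin m) : (Fin m → ℂ) →ₗ[ℂ] ℂ))) ∘ₗ
        A.subtype
    have h3 : Module.finrank ℂ (S → ℂ) < Module.finrank ℂ A := by
      rw [Module.finrank_pi, Fintype.card_coe]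
      omega
    have h4 := LinearMap.ker_ne_bot_of_finrank_lt (f := f) h3
    obtain ⟨⟨u, hu⟩, hu2, hu3⟩ := Submodule.exists_mem_ne_zero_of_ne_bot h4
    have hu0 : u ≠ 0 := fun h => hu3 (Subtype.ext h)
    have hun : ‖u‖ ≠ 0 := norm_ne_zero_iff.2 hu0
    have hu4 : ∀ j ∈ S, u j = 0 := by
      intro j hj
      have h5 : f ⟨u, hu⟩ = 0 := hu2
      exact congrFun h5 ⟨j, hj⟩
    refine ⟨((‖u‖⁻¹ : ℝ) : ℂ) • u, ?_, ?_, ?_⟩
    · rw [norm_smul, Complex.norm_real, norm_inv, norm_norm, inv_mul_cancel₀ hun]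
    · intro j hj
      rw [Pi.smul_apply, hu4 j hj, smul_zero]
    · intro a b ha hb
      rw [map_smul, hA2 u hu a b ((rb_nest hR D a₀ a).1 ha _ (hzU _ hk))
        ((rb_nest hR D a₀ b).1 hb _ (hzU _ hk)), smul_zero]
  choose u hu1 hu2 hu3 using hker
  obtain ⟨α, hα, ψ, hψ, hlim⟩ := (isCompact_sphere (0 : Fin m → ℂ) 1).tendsto_subseq
    (fun k => mem_sphere_zero_iff_norm.2 (hu1 k))
  have hlimj : ∀ j, Tendsto (fun k => u (ψ k) j) atTop (𝓝 (α j)) := fun j =>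
    (tendsto_pi_nhds.1 hlim) j
  refine ⟨α, ?_, ?_, ?_⟩
  · intro h0
    rw [h0, mem_sphere_zero_iff_norm, norm_zero] at hα
    exact zero_ne_one hα
  · intro j hj
    have h1 : (fun k => u (ψ k) j) = fun _ => 0 := by
      funext k
      exact hu2 _ j hj
    have h2 := hlimj j
    rw [h1] at h2
    exact (tendsto_nhds_unique h2 tendsto_const_nhds)
  · intro a b c hab hac hbc ha0 hb0 hc0
    have rab : RbD rel D a b := heq.trans (heq.symm ha0) hb0
    have rac : RbD rel D a c := heq.trans (heq.symm ha0) hc0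
    obtain ⟨ρ, hρ⟩ : ∃ ρ : (Fin m → ℂ) → ℂ, ρ = fun ζ => (D.M a ζ - D.M b ζ) /
      (D.M a ζ - D.M c ζ) := ⟨_, rfl⟩
    have hzero : ∀ k : ℕ, ∑ j, u k j * (fderiv ℂ ρ (z ((k : ℝ) + 1)) (Pi.single j 1) /
        ρ (z ((k : ℝ) + 1))) = 0 := by
      intro k
      have hk : (0 : ℝ) < (k : ℝ) + 1 := by positivity
      have hzk := hzU _ hk
      have hinj := lab_inj (D.M_lab _ hzk) (hsq _ hzk)
      have hne : D.M a (z ((k : ℝ) + 1)) - D.M c (z ((k : ℝ) + 1)) ≠ 0 :=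
        sub_ne_zero.2 (fun h => hac (hinj h))
      have hd : ∀ b, RbD rel D a b → HasFDerivAt (fun v => D.M a v - D.M b v)
          (fderiv ℂ (fun v => D.M a v - D.M b v) (z ((k : ℝ) + 1)))
          (z ((k : ℝ) + 1)) := fun b hb =>
        ((hhol a b hb _ hzk).differentiableAt ((UN_open m).mem_nhds hzk)).hasFDerivAt
      have h0b : fderiv ℂ (fun v => D.M a v - D.M b v) (z ((k : ℝ) + 1)) (u k) = 0 :=
        hu3 k a b ha0 hb0
      have h0c : fderiv ℂ (fun v => D.M a v - D.M c v) (z ((k : ℝ) + 1)) (u k) = 0 :=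
        hu3 k a c ha0 hc0
      have hinv := (hasDerivAt_inv hne).comp_hasFDerivAt (z ((k : ℝ) + 1)) (hd c rac)
      have hdiv := (hd b rab).mul hinv
      have h1 : fderiv ℂ ρ (z ((k : ℝ) + 1)) (u k) = 0 := by
        have h2 : HasFDerivAt ρ _ (z ((k : ℝ) + 1)) :=
          hdiv.congr_of_eventuallyEq (Eventually.of_forall (fun v => by
            rw [hρ]; exact div_eq_mul_inv _ _))
        rw [h2.fderiv]
        simp [h0b, h0c]
      have h3 : u k = ∑ j, u k j • (Pi.single j 1 : Fin m → ℂ) := by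
        funext i
        rw [Finset.sum_apply]
        simp [Pi.single_apply]
      rw [h3, map_sum] at h1
      have h4 : ∑ j, u k j * (fderiv ℂ ρ (z ((k : ℝ) + 1)) (Pi.single j 1) /
          ρ (z ((k : ℝ) + 1))) = (∑ j, fderiv ℂ ρ (z ((k : ℝ) + 1))
            (u k j • (Pi.single j 1 : Fin m → ℂ))) / ρ (z ((k : ℝ) + 1)) := by
        rw [Finset.sum_div]
        refine Finset.sum_congr rfl (fun j _ => ?_)
        rw [map_smul, smul_eq_mul, mul_div_assoc]
      rw [h4, h1, zero_div]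
    have hRt : Tendsto (fun k : ℕ => ((ψ k : ℕ) : ℝ) + 1) atTop atTop :=
      tendsto_atTop_add_const_right _ _ (tendsto_natCast_atTop_atTop.comp hψ.tendsto_atTop)
    have hl1 : Tendsto (fun k : ℕ => ∑ j, u (ψ k) j *
        (fderiv ℂ ρ (z (((ψ k : ℕ) : ℝ) + 1)) (Pi.single j 1) / ρ (z (((ψ k : ℕ) : ℝ) + 1))))
        atTop (𝓝 (∑ j, α j * (((D.W a b j : ℂ) - D.W a c j) / (n.factorial : ℂ)))) := by
      apply tendsto_finsetSum
      intro j _
      apply (hlimj j).mul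
      have h5 := (ratio_lim_R hR D a b c hab hac hbc rab rac j).comp hRt
      rw [hρ, hz]
      exact h5
    have hl2 : (fun k : ℕ => ∑ j, u (ψ k) j *
        (fderiv ℂ ρ (z (((ψ k : ℕ) : ℝ) + 1)) (Pi.single j 1) / ρ (z (((ψ k : ℕ) : ℝ) + 1)))) =
        fun _ => 0 := by
      funext k
      exact hzero (ψ k)
    rw [hl2] at hl1
    have h6 := tendsto_nhds_unique hl1 tendsto_const_nhds
    have hnf : (n.factorial : ℂ) ≠ 0 := by exact_mod_cast n.factorial_ne_zero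
    have h7 : ∑ j, α j * (((D.W a b j : ℂ) - D.W a c j) / (n.factorial : ℂ)) =
        (∑ j, α j * ((D.W a b j : ℂ) - D.W a c j)) / (n.factorial : ℂ) := by
      rw [Finset.sum_div]
      exact Finset.sum_congr rfl (fun j _ => by rw [mul_div_assoc])
    rw [h7] at h6
    rcases div_eq_zero_iff.1 h6 with h8 | h8
    · exact h8
    · exact absurd h8 hnf

end LinC
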