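import Pool.Agent.Helper996.LinC.DefsR
import Pool.Agent.Helper996.LinC.C_WS
import Pool.Agent.Helper996.LinC.C_W_inv
import Pool.Agent.Helper996.LinC.C_exists_data
import Pool.Agent.Helper996.LinC.C_disj_inv
import Pool.Agent.Helper996.LinC.R_rb
import Pool.Agent.Helper996.LinC.R_W
import Pool.Agent.Helper996.LinC.R_rank
import Pool.Agent.Helper996.LinC.R_disj
import Pool.Agent.Helper996.LinC.R_comb
import Pool.Agent.Helper996.LinC.R_linec
import Pool.Agent.Helper996.LinC.R_theta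
import Pool.Agent.Helper996.LinC.R_caseB

set_option autoImplicit false

open Polynomial Set Filter Topology LinS

namespace LinC

variable {m n l : ℕ} {F : (Fin (m + 1) → ℂ) → Fin n → ℂ} {rel : (Fin (m + 1) → ℂ) → ℂ → ℂ → Prop}

theorem disj_R_thm (hR : GoodR m n F rel l) (D : Data m n F) (hm : 4 ≤ m) :
    ∃ W' : Fin n → Fin n → ℤ, (∀ a b, a ≠ b → W' a b = W' b a) ∧
      (∀ (A B : ℕ) (a b c : Fin n), a ≠ b → a ≠ c → b ≠ c → RbD rel D a b → RbD rel D a c →
        A * D.W a b ⟨0, by omega⟩ + B * W' a b < A * D.W a c ⟨0, by omega⟩ + B * W' a c →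
        A * D.W b c ⟨0, by omega⟩ + B * W' b c = A * D.W a b ⟨0, by omega⟩ + B * W' a b) ∧
      (∀ i : Fin m, (i : ℕ) + 3 ≤ m → ∀ a b, a ≠ b → W' (D.lam i a) (D.lam i b) = W' a b) ∧
      ∃ π : Equiv.Perm (Fin n), (∀ a b, a ≠ b → W' a b = D.W (π a) (π b) ⟨0, by omega⟩) ∧
        ∀ a b, (RbD rel D a b ↔ RbD rel D (π a) (π b)) := by
  obtain ⟨Y, W', hY, hL, hr, h0, h1, hrel⟩ := disj_data_R hR D hm
  obtain ⟨h2, h3⟩ := disj_ultra_R hR hm hY hL h0 h1
  refine ⟨W', h2, fun A B a b c hab hac hbc r1 r2 => h3 A B a b c hab hac hbc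
    (fun x hx => (hrel x hx a b).2 r1) (fun x hx => (hrel x hx a c).2 r2),
    fun i hi a b hab => disj_inv hR.good D hm hY hL hr h1 i hi a b hab,
    disj_conj_R hR D hm hY hL h1 hrel⟩

theorem main_R (hR : GoodR m n F rel l) (D : Data m n F) (hl : l + 2 ≤ m) (hm : 4 ≤ m)
    (a₀ : Fin n) :
    ∀ a b c : Fin n, a ≠ b → a ≠ c → RbD rel D a b → RbD rel D a c →
      D.W a b ⟨0, by omega⟩ = D.W a c ⟨0, by omega⟩ := by
  have hE := rb_equiv hR D
  have hm0 : 0 < m := by omega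
  obtain ⟨α, hα, hα1, hrel0⟩ := rank_gen_R hR D a₀ {⟨m - 1, by omega⟩} (by
    rw [Finset.card_singleton]; omega)
  -- spread to all blocks
  have hinv0 : ∀ (a b : Fin n), a ≠ b → ∀ j : Fin m,
      D.W (D.lam ⟨0, hm0⟩ a) (D.lam ⟨0, hm0⟩ b) j = D.W a b j := fun a b hab j =>
    W_inv hR.good D ⟨0, hm0⟩ j (by simp) a b hab
  have hinvs : ∀ (q : ℕ) (a b : Fin n), a ≠ b → ∀ j : Fin m,
      D.W ((D.lam ⟨0, hm0⟩ ^ q) a) ((D.lam ⟨0, hm0⟩ ^ q) b) j = D.W a b j := by
    intro q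
    induction q with
    | zero => intro a b _ j; rfl
    | succ q ih =>
      intro a b hab j
      rw [pow_succ', Equiv.Perm.mul_apply, Equiv.Perm.mul_apply,
        hinv0 _ _ (fun h => hab ((D.lam ⟨0, hm0⟩ ^ q).injective h)) j, ih a b hab j]
  have hrels : ∀ (q : ℕ) (a b : Fin n),
      RbD rel D ((D.lam ⟨0, hm0⟩ ^ q) a) ((D.lam ⟨0, hm0⟩ ^ q) b) ↔ RbD rel D a b := by
    intro q
    induction q with
    | zero => intro a b; rfl
    | succ q ih =>
      intro a b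
      rw [pow_succ', Equiv.Perm.mul_apply, Equiv.Perm.mul_apply, rb_lam hR D, ih a b]
  have hrel : ∀ a b c : Fin n, a ≠ b → a ≠ c → b ≠ c → RbD rel D a b → RbD rel D a c →
      ∑ j, α j * ((D.W a b j : ℂ) - D.W a c j) = 0 := by
    intro a b c hab hac hbc r1 r2
    obtain ⟨q, hq⟩ := hR.trans D hm0 a a₀
    have key := hrel0 ((D.lam ⟨0, hm0⟩ ^ q) a) ((D.lam ⟨0, hm0⟩ ^ q) b) ((D.lam ⟨0, hm0⟩ ^ q) c)
      (fun h => hab ((D.lam ⟨0, hm0⟩ ^ q).injective h))
      (fun h => hac ((D.lam ⟨0, hm0⟩ ^ q).injective h))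
      (fun h => hbc ((D.lam ⟨0, hm0⟩ ^ q).injective h))
      (hE.symm hq) (hE.trans (hE.symm hq) ((hrels q a b).2 r1))
      (hE.trans (hE.symm hq) ((hrels q a c).2 r2))
    simp only [hinvs q a b hab, hinvs q a c hac] at key
    exact key
  by_cases hA : ∃ j : Fin m, (j : ℕ) + 3 ≤ m ∧ α j ≠ 0
  · exact comb_R hm D.W D.lam (RbD rel D) hE (fun i a b => rb_lam hR D i a b)
      (fun a b => hR.trans D hm0 a b)
      (fun a b hab j => W_symm_C hR.good D a b hab j)
      (fun A a b c hab hac hbc r1 r2 h => W_ultra_R hR D A a b c hab hac hbc r1 r2 h)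
      (fun j hj a b c hab hac r1 r2 => W_last_R hR D j hj a b c hab hac r1 r2)
      (fun i j hij a b hab => W_inv hR.good D i j hij a b hab)
      (fun j wt hd hi => WS hR.good D (by omega) j wt hd hi)
      ⟨α, hA, hrel⟩ (disj_R_thm hR D hm)
  · refine caseB_R hR D hm ?_
    intro a b c hab hac r1 r2
    by_cases hbc : b = c
    · rw [hbc]
    have hsum := hrel a b c hab hac hbc r1 r2
    have hz : ∀ j : Fin m, (j : ℕ) + 3 ≤ m → α j = 0 := by
      intro j hj
      by_contra h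
      exact hA ⟨j, hj, h⟩
    have hl1 : α ⟨m - 1, by omega⟩ = 0 := hα1 _ (Finset.mem_singleton_self _)
    have hne : α ⟨m - 2, by omega⟩ ≠ 0 := by
      intro h0
      apply hα
      funext j
      by_cases h3 : (j : ℕ) + 3 ≤ m
      · exact hz j h3
      · have hj := j.2
        have h4 : (j : ℕ) = m - 1 ∨ (j : ℕ) = m - 2 := by omega
        rcases h4 with h4 | h4
        · have : j = ⟨m - 1, by omega⟩ := Fin.ext h4
          rw [this, hl1]; rfl
        · have : j = ⟨m - 2, by omega⟩ := Fin.ext h4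
          rw [this, h0]; rfl
    rw [Finset.sum_eq_single (⟨m - 2, by omega⟩ : Fin m)] at hsum
    · rcases mul_eq_zero.1 hsum with h5 | h5
      · exact absurd h5 hne
      · have h6 : (D.W a b ⟨m - 2, by omega⟩ : ℂ) = D.W a c ⟨m - 2, by omega⟩ := sub_eq_zero.1 h5
        exact_mod_cast h6
    · intro j _ hj
      by_cases h3 : (j : ℕ) + 3 ≤ m
      · rw [hz j h3, zero_mul]
      · have hj2 := j.2
        have h7 : (j : ℕ) ≠ m - 2 := fun h => hj (Fin.ext h)
        have : j = ⟨m - 1, by omega⟩ := Fin.ext (show (j : ℕ) = m - 1 by omega)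
        rw [this, hl1, zero_mul]
    · intro h; exact absurd (Finset.mem_univ _) h

theorem diff_const_R (hR : GoodR m n F rel l) (hl : l + 2 ≤ m) (hm : 4 ≤ m)
    {V : Type} [TopologicalSpace V] {K : Set V}
    (hK : IsPreconnected K) (H : V → Fin (m + 1) → ℂ) (hH : ContinuousOn H K)
    (hHc : ∀ v ∈ K, H v ∈ Conf m) (M : Fin n → V → ℂ) (hM : ∀ a, ContinuousOn (M a) K)
    (hL : ∀ v ∈ K, Lab (F (H v)) (fun a => M a v)) :
    ∀ v ∈ K, ∀ v' ∈ K, ∀ a b, rel (H v) (M a v) (M b v) → M a v - M b v = M a v' - M b v' := by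
  intro v hv v' hv' a b hab
  obtain ⟨D⟩ := exists_data (by omega) hR.good
  exact rigid_of_ThR hR hK H hH hHc M hM hL (fun v hv v' hv' x =>
    theta_const_R hR D (by omega) (main_R hR D hl hm a) x (H v) (hHc v hv) (H v') (hHc v' hv')
      _ _ (hL v hv) (hL v' hv')) v hv v' hv' a b hab

end LinC
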