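import Pool.Agent.Helper996.LinC.DefsG
import Pool.Agent.Helper996.LinC.MainR
import Pool.Agent.Helper996.LinC.G_shift
import Pool.Agent.Helper996.LinC.G_fh
import Pool.Agent.Helper996.LinC.G_rel
import Pool.Agent.Helper996.LinC.G_hol2
import Pool.Agent.Helper996.LinC.G_rigid
import Pool.Agent.Helper996.LinC.G_shiftS
import Pool.Agent.Helper996.LinC.G_path
import Pool.Agent.Helper996.LinC.G_end
import Pool.Agent.Helper996.LinC.G_nr

set_option autoImplicit false

open Polynomial Set Filter Topology LinS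

namespace LinC

variable {m n l : ℕ} {f : (Fin m → ℂ) → Fin (n - 1) → ℂ} {s : (Fin (m + 1) → ℂ) → ℝ}

theorem goodR_S (hf : GoodS m n l f) (hs : GoodSh m n f s) (hm : 0 < m) (hn : 3 ≤ n) :
    GoodR m (KK m * n) (Fh f s) (relS f s) l := by
  have hn1 : 1 ≤ n := by omega
  obtain ⟨b1, b2, b3, b4, b5, b6, b7⟩ := rel_basic hf hs hm hn1
  exact {
    good := Fh_good hf hs hm hn1
    rel_symm := b3
    rel_refl := b5
    rel_comm := fun r hr M _ a b h => b6 r hr _ _ h
    rel_trans := fun r hr M _ a b c h h' => b7 r hr _ _ _ h h'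
    rel_cont := fun hK H hH hHc M hM hL => rel_cont_S hf hs hm hn1 hK H hH hHc M hM hL
    hol := fun hU H hH hHc M hM hL a b h => hol_S hf hs hm hn1 hU H hH hHc M hM hL a b h
    rank := fun M hM hL a₀ ζ hζ => rank_S hf hs hm hn1 M hM hL a₀ ζ hζ
    rigid := fun hK H hH hHc M hM hL v₀ hv₀ a₀ h =>
      rigid_S hf hs hm (by omega) hK H hH hHc M hM hL v₀ hv₀ a₀ h
    transl := fun r hr c => Fh_transl hf hs hm hn1 r hr c
    rel_transl := b4
    shift := fun D i i' a => (shift_S hf hs hm hn1 D).1 i i' a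
    trans := fun D hm' a b => (shift_S hf hs hm hn1 D).2 a b
    three := rel_three hf hs hm hn }

theorem const_S (hf : GoodS m n l f) (hl : l + 2 ≤ m) (hm : 4 ≤ m) (hn : 3 ≤ n)
    (w w' : Fin m → ℂ) (hw : w ∈ SG (m + 1)) (hw' : w' ∈ SG (m + 1)) : f w = f w' := by
  have hm0 : 0 < m := by omega
  have hn1 : 1 ≤ n := by omega
  obtain ⟨s, hs⟩ := exists_shift hf hm0 hn1
  have hR := goodR_S hf hs hm0 hn
  obtain ⟨r, hr, hr1, hr2⟩ := Nr_surj hw
  obtain ⟨r', hr', hr1', hr2'⟩ := Nr_surj hw'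
  rw [← hr2, ← hr2']
  exact end_const hm0 (fun r η => f (Nr r η)) (fun r σ η => by rw [Nr_symm])
    (fun H hH hHc η hη hη' => path_const hf hs hm0 hn1
      (fun H hH hHc M hM hL => diff_const_R hR hl hm isPreconnected_Icc H hH hHc M hM hL)
      H hH hHc η hη hη')
    r hr r' hr' 1 1 (by rw [one_pow, hr1]) (by rw [one_pow, hr1'])

end LinC
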